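import Pool.Agent.Helper92.GC.N9

/-!
# GC-N10: separated numbers; the lattice of the coordinates

PROOFS. `sep_card`: the map `i ↦ ⌊(f i - a)/δ⌋` is injective on `S` and has values in `[0, L/δ]` (or: sort). `sep_card_mul`: `Finset.card_le_mul_card_image` and `sep_card` for the image `S.image f`.
`gam_wedge`: let `D = dd v v'`. `x D = (x v.1) v'.2 - v.2 (x v'.1) ≡ (y v.2) v'.2 - v.2 (y v'.2) = 0` modulo `w`; `y D = v.1 (y v'.2) - (y v.2) v'.1 ≡ v.1 (x v'.1) - (x v.1) v'.1 = 0`; `w D ≡ 0`. Since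
`gcd x (gcd y w)` is an integral combination of `x, y, w` (`Int.gcd_eq_gcd_ab`), `w ∣ gcd * D`.
-/

open MeasureTheory Real Set Filter Topology

set_option autoImplicit false

namespace Pool.Agent.Helper92.GC

open Pool.Agent.Helper22.AE
open Pool.Agent.Helper22.AC (n6 IsWt mu)

theorem sep_card {ι : Type} (S : Finset ι) (f : ι → ℝ) {a L δ : ℝ} (hL : 0 ≤ L) (hδ : 0 < δ)
    (hf : ∀ i ∈ S, a ≤ f i ∧ f i ≤ a + L) (hs : ∀ i ∈ S, ∀ j ∈ S, i ≠ j → δ ≤ |f i - f j|) :
    (S.card : ℝ) ≤ 1 + L / δ := by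
  have key : ∀ i ∈ S, ∀ j ∈ S, f j ≤ f i → ⌊(f i - a) / δ⌋ = ⌊(f j - a) / δ⌋ → i = j := by
    intro i hi j hj hij h
    by_contra hne
    have h1 := hs i hi j hj hne
    rw [abs_of_nonneg (by linarith)] at h1
    have h2 : (f j - a) / δ + 1 ≤ (f i - a) / δ := by
      rw [← sub_nonneg]
      have h3 : (f i - a) / δ - ((f j - a) / δ + 1) = (f i - f j - δ) / δ := by
        field_simp
        ring
      rw [h3]
      exact div_nonneg (by linarith) hδ.le
    have h3 := Int.floor_le_floor h2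
    rw [Int.floor_add_one] at h3
    omega
  have hinj : Set.InjOn (fun i => ⌊(f i - a) / δ⌋) (S : Set ι) := by
    intro i hi j hj h
    rcases le_total (f j) (f i) with h1 | h1
    · exact key i hi j hj h1 h
    · exact (key j hj i hi h1 h.symm).symm
  have hmap : ∀ i ∈ S, (fun i => ⌊(f i - a) / δ⌋) i ∈ Finset.Icc (0 : ℤ) ⌊L / δ⌋ := by
    intro i hi
    obtain ⟨h1, h2⟩ := hf i hi
    rw [Finset.mem_Icc]
    constructor
    · exact Int.floor_nonneg.2 (div_nonneg (by linarith) hδ.le)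
    · exact Int.floor_le_floor (div_le_div_of_nonneg_right (by linarith) hδ.le)
  have hcard := Finset.card_le_card_of_injOn _ hmap hinj
  rw [Int.card_Icc] at hcard
  have h0 : (0 : ℤ) ≤ ⌊L / δ⌋ := Int.floor_nonneg.2 (by positivity)
  have h2 : (S.card : ℤ) ≤ ⌊L / δ⌋ + 1 := by omega
  have h3 : (S.card : ℝ) ≤ (⌊L / δ⌋ : ℝ) + 1 := by exact_mod_cast h2
  have h4 := Int.floor_le (L / δ)
  linarith

open Classical in
theorem sep_card_mul {ι : Type} (S : Finset ι) (f : ι → ℝ) (k : ℕ) {a L δ : ℝ} (hL : 0 ≤ L) (hδ : 0 < δ)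
    (hf : ∀ i ∈ S, a ≤ f i ∧ f i ≤ a + L) (hs : ∀ i ∈ S, ∀ j ∈ S, f i = f j ∨ δ ≤ |f i - f j|)
    (hk : ∀ i ∈ S, (S.filter (fun j => f j = f i)).card ≤ k) : (S.card : ℝ) ≤ k * (1 + L / δ) := by
  have h1 : S.card ≤ k * (S.image f).card := by
    refine Finset.card_le_mul_card_image S k fun x hx => ?_
    rw [Finset.mem_image] at hx
    obtain ⟨i, hi, rfl⟩ := hx
    exact hk i hi
  have h2 : ((S.image f).card : ℝ) ≤ 1 + L / δ := by
    refine sep_card (a := a) (S.image f) (fun x => x) hL hδ ?_ ?_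
    · intro x hx
      rw [Finset.mem_image] at hx
      obtain ⟨i, hi, rfl⟩ := hx
      exact hf i hi
    · intro x hx y hy hxy
      rw [Finset.mem_image] at hx hy
      obtain ⟨i, hi, rfl⟩ := hx
      obtain ⟨j, hj, rfl⟩ := hy
      exact (hs i hi j hj).resolve_left hxy
  have h3 : (S.card : ℝ) ≤ (k : ℝ) * ((S.image f).card : ℝ) := by exact_mod_cast h1
  exact h3.trans (mul_le_mul_of_nonneg_left h2 (Nat.cast_nonneg k))

/-- the lattice containing the vectors of the first and of the second coordinates of `(a, b)` -/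
def Gam (x y w : ℤ) : AddSubgroup (ℤ × ℤ) where
  carrier := {v | w ∣ y * v.2 - x * v.1}
  add_mem' := by
    intro a b ha hb
    have h := dvd_add ha hb
    have h2 : y * (a + b).2 - x * (a + b).1 = y * a.2 - x * a.1 + (y * b.2 - x * b.1) := by
      simp only [Prod.fst_add, Prod.snd_add]
      ring
    simpa only [Set.mem_ofPred_eq, h2] using h
  zero_mem' := by simp
  neg_mem' := by
    intro a ha
    have h := dvd_neg.2 ha
    have h2 : y * (-a).2 - x * (-a).1 = -(y * a.2 - x * a.1) := by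
      simp only [Prod.fst_neg, Prod.snd_neg]
      ring
    simpa only [Set.mem_ofPred_eq, h2] using h

theorem gam_wedge {x y w : ℤ} {v v' : ℤ × ℤ} (hv : v ∈ Gam x y w) (hv' : v' ∈ Gam x y w) :
    w ∣ (Int.gcd x (Int.gcd y w) : ℤ) * dd v v' := by
  have h1 : w ∣ y * v.2 - x * v.1 := hv
  have h2 : w ∣ y * v'.2 - x * v'.1 := hv'
  have hx : w ∣ x * dd v v' := by
    have e : x * dd v v' = (y * v'.2 - x * v'.1) * v.2 - (y * v.2 - x * v.1) * v'.2 := by
      unfold dd
      ring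
    rw [e]
    exact dvd_sub (h2.mul_right _) (h1.mul_right _)
  have hy : w ∣ y * dd v v' := by
    have e : y * dd v v' = (y * v'.2 - x * v'.1) * v.1 - (y * v.2 - x * v.1) * v'.1 := by
      unfold dd
      ring
    rw [e]
    exact dvd_sub (h2.mul_right _) (h1.mul_right _)
  have hw : w ∣ w * dd v v' := dvd_mul_right _ _
  have hyw : w ∣ (Int.gcd y w : ℤ) * dd v v' := by
    have e : (Int.gcd y w : ℤ) * dd v v' =
        (y * dd v v') * Int.gcdA y w + (w * dd v v') * Int.gcdB y w := by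
      rw [Int.gcd_eq_gcd_ab]
      ring
    rw [e]
    exact dvd_add (hy.mul_right _) (hw.mul_right _)
  have e : (Int.gcd x (Int.gcd y w) : ℤ) * dd v v' =
      (x * dd v v') * Int.gcdA x (Int.gcd y w) + ((Int.gcd y w : ℤ) * dd v v') * Int.gcdB x (Int.gcd y w) := by
    rw [Int.gcd_eq_gcd_ab x (Int.gcd y w)]
    ring
  rw [e]
  exact dvd_add (hx.mul_right _) (hyw.mul_right _)

end Pool.Agent.Helper92.GC
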