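import Pool.Agent.Helper92.GC.N6

/-!
# GC-N8: the volume of a pair of differences

PROOF. Let `R` be such that the set is non empty, `r = 1/(4R)`, `ξ` in it, `ζ = ξ₂ - β ξ₁`. Subtracting: `|u.1 + z_u (2ζ + z_u) r| ≤ 2d`, `|v.1 + z_v (2ζ + z_v) r| ≤ 2d` (`z_u = zz β u`). Eliminate `ζ`:
`|(u.1 z_v - v.1 z_u) - r z_u z_v (z_v - z_u)| ≤ 2d(z_u + z_v) ≤ 4 d z_v`. So all such `r` lie in an interval of length `8 d/(z_u (z_v - z_u))`, and `|R - R'| = |r - r'|/(4 r r') ≤ 64 ρ² |r - r'|`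
(`r ≥ 1/(16ρ)`): the set of these `R ∈ [ρ/2, 4ρ]` has measure at most `512 ρ² d/(z_u (z_v - z_u))`. For fixed `R`: `ζ` lies in an interval of length `2 · 2d/(2 z_v r) = 8dR/z_v ≤ 32 d ρ/z_v`, and for
fixed `ζ` `ξ₁` in an interval of length `2d` (shear, Tonelli). Product `2^15 d³ρ³/(z_u z_v (z_v - z_u))`.
-/

open MeasureTheory Real Set Filter Topology

set_option autoImplicit false

namespace Pool.Agent.Helper92.GC

open Pool.Agent.Helper22.AE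
open Pool.Agent.Helper22.AC (n6 IsWt mu)

/-- `Ψ` as a function in the plane -/
noncomputable def Ps (β R : ℝ) (ξ : ℝ × ℝ) : ℝ := ξ.1 + (ξ.2 - β * ξ.1) ^ 2 / (4 * R)

private theorem diff19 {β R d : ℝ} {w : ℤ × ℤ} {ξ : ℝ × ℝ} (h0 : |Ps β R ξ| ≤ d)
    (h1 : |Ps β R (ξ.1 + w.1, ξ.2 + w.2)| ≤ d) :
    |(w.1 : ℝ) + zz β w * (2 * (ξ.2 - β * ξ.1) + zz β w) * (1 / (4 * R))| ≤ 2 * d := by
  have e : (w.1 : ℝ) + zz β w * (2 * (ξ.2 - β * ξ.1) + zz β w) * (1 / (4 * R)) =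
      Ps β R (ξ.1 + w.1, ξ.2 + w.2) - Ps β R ξ := by
    simp only [Ps, zz]
    ring
  rw [e, abs_le]
  rw [abs_le] at h0 h1
  exact ⟨by linarith, by linarith⟩

/-- the values `r = 1 / (4 R)` lie in a short interval -/
private theorem rint19 {β R d : ℝ} {u v : ℤ × ℤ} (hu : 0 < zz β u) (huv : zz β u < zz β v) (hd : 0 < d) {ξ : ℝ × ℝ}
    (h0 : |Ps β R ξ| ≤ d) (h1 : |Ps β R (ξ.1 + u.1, ξ.2 + u.2)| ≤ d) (h2 : |Ps β R (ξ.1 + v.1, ξ.2 + v.2)| ≤ d) :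
    |(1 / (4 * R)) - ((u.1 : ℝ) * zz β v - v.1 * zz β u) / (zz β u * zz β v * (zz β v - zz β u))| ≤
      4 * d / (zz β u * (zz β v - zz β u)) := by
  have hv : 0 < zz β v := hu.trans huv
  have hvu : 0 < zz β v - zz β u := by linarith
  have a1 := abs_le.1 (diff19 h0 h1)
  have a2 := abs_le.1 (diff19 h0 h2)
  obtain ⟨r, hr⟩ : ∃ r : ℝ, r = 1 / (4 * R) := ⟨_, rfl⟩
  obtain ⟨ζ, hζ⟩ : ∃ ζ : ℝ, ζ = ξ.2 - β * ξ.1 := ⟨_, rfl⟩
  obtain ⟨p, hp⟩ : ∃ p : ℝ, p = zz β u := ⟨_, rfl⟩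
  obtain ⟨q, hq⟩ : ∃ q : ℝ, q = zz β v := ⟨_, rfl⟩
  rw [← hr, ← hζ, ← hp] at a1
  rw [← hr, ← hζ, ← hq] at a2
  rw [← hp] at hu
  rw [← hq] at hv
  rw [← hp, ← hq] at hvu
  rw [← hr, ← hp, ← hq]
  have hW : 0 < p * q * (q - p) := mul_pos (mul_pos hu hv) hvu
  have e1 : r - ((u.1 : ℝ) * q - v.1 * p) / (p * q * (q - p)) =
      (r * (p * q * (q - p)) - ((u.1 : ℝ) * q - v.1 * p)) / (p * q * (q - p)) := by
    field_simp
  have e2 : 4 * d / (p * (q - p)) = 4 * d * q / (p * q * (q - p)) := by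
    field_simp
  rw [e1, e2, abs_div, abs_of_pos hW]
  apply div_le_div_of_nonneg_right _ hW.le
  rw [abs_le]
  have hpq : p ≤ q := by linarith
  constructor
  · nlinarith [mul_le_mul_of_nonneg_right a1.1 hv.le, mul_le_mul_of_nonneg_right a1.2 hv.le,
      mul_le_mul_of_nonneg_right a2.1 hu.le, mul_le_mul_of_nonneg_right a2.2 hu.le,
      mul_le_mul_of_nonneg_left hpq hd.le]
  · nlinarith [mul_le_mul_of_nonneg_right a1.1 hv.le, mul_le_mul_of_nonneg_right a1.2 hv.le,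
      mul_le_mul_of_nonneg_right a2.1 hu.le, mul_le_mul_of_nonneg_right a2.2 hu.le,
      mul_le_mul_of_nonneg_left hpq hd.le]

/-- one value of `R` -/
private theorem one19 {β ρ d R : ℝ} (hρ : 1 ≤ ρ) (hd : 0 < d) {v : ℤ × ℤ} (hv : 0 < zz β v) (h1 : ρ / 2 ≤ R)
    (h2 : R ≤ 4 * ρ) (S : Set (ℝ × ℝ))
    (hS : ∀ ξ ∈ S, |Ps β R ξ| ≤ d ∧ |Ps β R (ξ.1 + v.1, ξ.2 + v.2)| ≤ d) :
    volume S ≤ ENNReal.ofReal (64 * d ^ 2 * ρ / zz β v) := by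
  have hR : 0 < R := by linarith
  have hsub : S ⊆ Es β R (-(v.1 : ℝ) / zz β v - zz β v / (4 * R)) (2 * d / zz β v) d := by
    intro ξ hξ
    obtain ⟨h0, h3⟩ := hS ξ hξ
    refine ⟨?_, h0⟩
    have a2 := diff19 h0 h3
    have e : (ξ.2 - β * ξ.1) / (2 * R) - (-(v.1 : ℝ) / zz β v - zz β v / (4 * R)) =
        ((v.1 : ℝ) + zz β v * (2 * (ξ.2 - β * ξ.1) + zz β v) * (1 / (4 * R))) / zz β v := by
      field_simp
      ring
    rw [e, abs_div, abs_of_pos hv]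
    exact div_le_div_of_nonneg_right a2 hv.le
  refine (measure_mono hsub).trans ?_
  rw [Es_vol hR (by positivity) hd.le]
  apply ENNReal.ofReal_le_ofReal
  rw [le_div_iff₀ hv]
  have e : 8 * R * (2 * d / zz β v) * d * zz β v = 16 * d ^ 2 * R := by
    field_simp
    ring
  rw [e]
  nlinarith [mul_le_mul_of_nonneg_left h2 (sq_nonneg d)]

theorem pair_vol {β ρ d : ℝ} (hρ : 1 ≤ ρ) (hd : 0 < d) {u v : ℤ × ℤ} (hu : 0 < zz β u) (huv : zz β u < zz β v) :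
    ∫⁻ R in Icc (ρ / 2) (4 * ρ), volume {ξ : ℝ × ℝ | |Ps β R ξ| ≤ d ∧ |Ps β R (ξ.1 + u.1, ξ.2 + u.2)| ≤ d ∧
      |Ps β R (ξ.1 + v.1, ξ.2 + v.2)| ≤ d} ≤
        ENNReal.ofReal (2 ^ 15 * d ^ 3 * ρ ^ 3 / (zz β u * zz β v * (zz β v - zz β u))) := by
  have hv : 0 < zz β v := hu.trans huv
  have hvu : 0 < zz β v - zz β u := by linarith
  have hρ0 : 0 < ρ := by linarith
  obtain ⟨S, hS⟩ : ∃ S : ℝ → Set (ℝ × ℝ), S = fun R => {ξ : ℝ × ℝ | |Ps β R ξ| ≤ d ∧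
      |Ps β R (ξ.1 + u.1, ξ.2 + u.2)| ≤ d ∧ |Ps β R (ξ.1 + v.1, ξ.2 + v.2)| ≤ d} := ⟨_, rfl⟩
  have hSm : ∀ R, volume {ξ : ℝ × ℝ | |Ps β R ξ| ≤ d ∧ |Ps β R (ξ.1 + u.1, ξ.2 + u.2)| ≤ d ∧
      |Ps β R (ξ.1 + v.1, ξ.2 + v.2)| ≤ d} = volume (S R) := by
    intro R
    rw [hS]
  simp only [hSm]
  obtain ⟨K, hK⟩ : ∃ K : ℝ, K = 512 * ρ ^ 2 * d / (zz β u * (zz β v - zz β u)) := ⟨_, rfl⟩
  have hK0 : 0 < K := by
    rw [hK]
    positivity
  obtain ⟨T, hT⟩ : ∃ T : Set ℝ, T = {R | R ∈ Icc (ρ / 2) (4 * ρ) ∧ (S R).Nonempty} := ⟨_, rfl⟩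
  have hdist : ∀ R ∈ T, ∀ R' ∈ T, R - R' ≤ K := by
    intro R hR R' hR'
    rw [hT] at hR hR'
    obtain ⟨⟨r1, r2⟩, ξ, hξ⟩ := hR
    obtain ⟨⟨r1', r2'⟩, ξ', hξ'⟩ := hR'
    rw [hS] at hξ hξ'
    have a := abs_le.1 (rint19 hu huv hd hξ.1 hξ.2.1 hξ.2.2)
    have a' := abs_le.1 (rint19 hu huv hd hξ'.1 hξ'.2.1 hξ'.2.2)
    have hR0 : 0 < R := by linarith
    have hR0' : 0 < R' := by linarith
    have e : R - R' = 4 * R * R' * (1 / (4 * R') - 1 / (4 * R)) := by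
      field_simp
    have hb : 1 / (4 * R') - 1 / (4 * R) ≤ 8 * d / (zz β u * (zz β v - zz β u)) := by
      have e2 : 8 * d / (zz β u * (zz β v - zz β u)) = 4 * d / (zz β u * (zz β v - zz β u)) +
          4 * d / (zz β u * (zz β v - zz β u)) := by ring
      rw [e2]
      linarith [a.1, a'.2]
    rw [e, hK]
    have hRR : 4 * R * R' ≤ 64 * ρ ^ 2 := by nlinarith
    have h8 : 0 ≤ 8 * d / (zz β u * (zz β v - zz β u)) := by positivity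
    calc 4 * R * R' * (1 / (4 * R') - 1 / (4 * R)) ≤ 4 * R * R' * (8 * d / (zz β u * (zz β v - zz β u))) :=
          mul_le_mul_of_nonneg_left hb (by positivity)
      _ ≤ 64 * ρ ^ 2 * (8 * d / (zz β u * (zz β v - zz β u))) := mul_le_mul_of_nonneg_right hRR h8
      _ = 512 * ρ ^ 2 * d / (zz β u * (zz β v - zz β u)) := by ring
  have hbound : ∀ R ∈ Icc (ρ / 2) (4 * ρ), volume (S R) ≤
      (Icc (sInf T) (sInf T + K)).indicator (fun _ => ENNReal.ofReal (64 * d ^ 2 * ρ / zz β v)) R := by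
    intro R hR
    by_cases hne : (S R).Nonempty
    · have hRT : R ∈ T := by
        rw [hT]
        exact ⟨hR, hne⟩
      have hbb : BddBelow T := ⟨ρ / 2, fun x hx => by
        rw [hT] at hx
        exact hx.1.1⟩
      have m1 : sInf T ≤ R := csInf_le hbb hRT
      have m2 : R - K ≤ sInf T := le_csInf ⟨R, hRT⟩ fun x hx => by linarith [hdist R hRT x hx]
      rw [Set.indicator_of_mem (show R ∈ Icc (sInf T) (sInf T + K) from ⟨m1, by linarith⟩)]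
      refine one19 hρ hd hv hR.1 hR.2 (S R) fun ξ hξ => ?_
      rw [hS] at hξ
      exact ⟨hξ.1, hξ.2.2⟩
    · rw [Set.not_nonempty_iff_eq_empty] at hne
      rw [hne, measure_empty]
      exact bot_le
  calc ∫⁻ R in Icc (ρ / 2) (4 * ρ), volume (S R)
      ≤ ∫⁻ R in Icc (ρ / 2) (4 * ρ), (Icc (sInf T) (sInf T + K)).indicator
          (fun _ => ENNReal.ofReal (64 * d ^ 2 * ρ / zz β v)) R := setLIntegral_mono' measurableSet_Icc hbound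
    _ ≤ ∫⁻ R, (Icc (sInf T) (sInf T + K)).indicator
          (fun _ => ENNReal.ofReal (64 * d ^ 2 * ρ / zz β v)) R := setLIntegral_le_lintegral _ _
    _ = ENNReal.ofReal (64 * d ^ 2 * ρ / zz β v) * ENNReal.ofReal K := by
        rw [lintegral_indicator measurableSet_Icc, setLIntegral_const, Real.volume_Icc]
        congr 2
        ring
    _ = ENNReal.ofReal (2 ^ 15 * d ^ 3 * ρ ^ 3 / (zz β u * zz β v * (zz β v - zz β u))) := by
        rw [← ENNReal.ofReal_mul (by positivity), hK]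
        congr 1
        field_simp
        ring

end Pool.Agent.Helper92.GC
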