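import Pool.Agent.Helper92.GC.Defs

/-!
# GC-W5: the dual sum converges

PROOF. `x = zt β c m/(2R)`, `ξ₁ = m.1 - c.1`. `1 + |Del|/σ ≥ 1 + |x - t₀| ≥ (1 + |x|)/(1 + |t₀|) ≥ (1+|x|)/7`. `Psi = ξ₁ + R x²`, so `1 + |ξ₁| ≤ (1 + |Psi|)(1 + R x²) ≤ (1 + |Psi|) R (1 + |x|)²`
(`R ≥ 1`). Hence the term is at most `7^8 (1+|x|)^(-8) (1+|Psi|)^(-2) ≤ 7^8 R² (1 + |x|)^(-4) (1 + |ξ₁|)^(-2)` (powers `n ≥ 8` are smaller, bases `≥ 1`, `H ≥ 1`).
Sum over `m.2` for fixed `m.1`: `x = (m.2 - y)/(2R)`, `∑_{m.2} (1 + |m.2 - y|/(2R))^(-4) ≤ C R` (at most `4R + 1 ≤ 5R` terms with `|m.2 - y| ∈ [2Rj, 2R(j+1))` for each `j`, each `≤ (1+j)^(-4)`);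
then `∑_{m.1} (1 + |m.1 - c.1|)^(-2) ≤ C`. Total `≤ C R³`. `near_fin`: every element of `near` has term `≥ (1 + s/σ)^(-8)(1+Hd)^(-8) > 0` with `σ = H = 1`; or directly: `ζ` and `ξ₁` are bounded.
-/

open MeasureTheory Real Set Filter Topology

set_option autoImplicit false

namespace Pool.Agent.Helper92.GC

open Pool.Agent.Helper22.AE
open Pool.Agent.Helper22.AC (n6 IsWt mu)

private lemma sA : Summable (fun j : ℤ => ((1 + |(j : ℝ)|) ^ 2)⁻¹) := by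
  have h1 : Summable (fun n : ℕ => ((1 + (n : ℝ)) ^ 2)⁻¹) := by
    have h := (summable_nat_add_iff 1).mpr (Real.summable_nat_pow_inv.mpr (by norm_num : 1 < 2))
    refine h.congr (fun n => ?_)
    push_cast
    rw [add_comm]
  apply Summable.of_nat_of_neg
  · refine h1.congr (fun n => ?_)
    simp
  · refine h1.congr (fun n => ?_)
    simp

private lemma sB (y : ℝ) : Summable (fun k : ℤ => ((1 + |(k : ℝ) - y|) ^ 2)⁻¹) ∧
    ∑' k : ℤ, ((1 + |(k : ℝ) - y|) ^ 2)⁻¹ ≤ 4 * ∑' j : ℤ, ((1 + |(j : ℝ)|) ^ 2)⁻¹ := by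
  have hs : Summable (fun k : ℤ => 4 * ((1 + |((k - ⌊y⌋ : ℤ) : ℝ)|) ^ 2)⁻¹) :=
    (((Equiv.subRight ⌊y⌋).summable_iff (f := fun j : ℤ => ((1 + |(j : ℝ)|) ^ 2)⁻¹)).mpr sA).mul_left 4
  have hle : ∀ k : ℤ, ((1 + |(k : ℝ) - y|) ^ 2)⁻¹ ≤ 4 * ((1 + |((k - ⌊y⌋ : ℤ) : ℝ)|) ^ 2)⁻¹ := by
    intro k
    have h1 := Int.floor_le y
    have h2 := Int.lt_floor_add_one y
    have h3 : 1 + |((k - ⌊y⌋ : ℤ) : ℝ)| ≤ 2 * (1 + |(k : ℝ) - y|) := by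
      push_cast
      have h4 : |(k : ℝ) - ⌊y⌋| ≤ |(k : ℝ) - y| + |y - ⌊y⌋| := abs_sub_le _ _ _
      have h5 : |y - ⌊y⌋| ≤ 1 := abs_le.mpr ⟨by linarith, by linarith⟩
      have h6 := abs_nonneg ((k : ℝ) - y)
      linarith
    have h7 : (1 + |((k - ⌊y⌋ : ℤ) : ℝ)|) ^ 2 ≤ 4 * (1 + |(k : ℝ) - y|) ^ 2 := by
      calc (1 + |((k - ⌊y⌋ : ℤ) : ℝ)|) ^ 2 ≤ (2 * (1 + |(k : ℝ) - y|)) ^ 2 :=
            pow_le_pow_left₀ (by positivity) h3 2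
        _ = _ := by ring
    have hp : 0 < (1 + |((k - ⌊y⌋ : ℤ) : ℝ)|) ^ 2 := by positivity
    have hq : 0 < (1 + |(k : ℝ) - y|) ^ 2 := by positivity
    rw [inv_eq_one_div, ← div_eq_mul_inv, div_le_div_iff₀ hq hp]
    linarith
  have hsum := Summable.of_nonneg_of_le (fun k => by positivity) hle hs
  refine ⟨hsum, ?_⟩
  calc ∑' k : ℤ, ((1 + |(k : ℝ) - y|) ^ 2)⁻¹ ≤ ∑' k : ℤ, 4 * ((1 + |((k - ⌊y⌋ : ℤ) : ℝ)|) ^ 2)⁻¹ :=
        hsum.tsum_le_tsum hle hs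
    _ = 4 * ∑' k : ℤ, ((1 + |((k - ⌊y⌋ : ℤ) : ℝ)|) ^ 2)⁻¹ := tsum_mul_left
    _ = _ := by
        congr 1
        exact (Equiv.subRight ⌊y⌋).tsum_eq (fun j : ℤ => ((1 + |(j : ℝ)|) ^ 2)⁻¹)

private lemma sC {L : ℝ} (hL : 1 ≤ L) (y : ℝ) : Summable (fun k : ℤ => ((1 + |((k : ℝ) - y) / L|) ^ 2)⁻¹) ∧
    ∑' k : ℤ, ((1 + |((k : ℝ) - y) / L|) ^ 2)⁻¹ ≤ 8 * L * ∑' j : ℤ, ((1 + |(j : ℝ)|) ^ 2)⁻¹ := by
  set S : ℝ := ∑' j : ℤ, ((1 + |(j : ℝ)|) ^ 2)⁻¹ with hS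
  have hS0 : 0 ≤ S := tsum_nonneg (fun j => by positivity)
  set N : ℕ := ⌈L⌉₊ with hN
  have hLN : L ≤ (N : ℝ) := Nat.le_ceil L
  have hN1 : (N : ℝ) < L + 1 := Nat.ceil_lt_add_one (by linarith)
  have hN0 : N ≠ 0 := by
    intro h
    rw [h] at hLN
    push_cast at hLN
    linarith
  have : NeZero N := ⟨hN0⟩
  have hNpos : (0 : ℝ) < N := by linarith
  set F : ℤ → ℝ := fun k => ((1 + |((k : ℝ) - y) / L|) ^ 2)⁻¹ with hF
  set G : ℤ × Fin N → ℝ := fun p => ((1 + |(p.1 : ℝ) - (y - ((p.2 : ℕ) : ℝ)) / N|) ^ 2)⁻¹ with hG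
  have hle : ∀ p : ℤ × Fin N, F ((Int.divModEquiv N).symm p) ≤ G p := by
    intro p
    obtain ⟨q, r⟩ := p
    simp only [hF, hG, Int.divModEquiv]
    simp only [Equiv.coe_fn_symm_mk]
    have h1 : |(q : ℝ) - (y - ((r : ℕ) : ℝ)) / N| ≤ |(((q * (N : ℤ) + ((r : ℕ) : ℤ) : ℤ) : ℝ) - y) / L| := by
      have h2 : (q : ℝ) - (y - ((r : ℕ) : ℝ)) / N = (((q * (N : ℤ) + ((r : ℕ) : ℤ) : ℤ) : ℝ) - y) / N := by
        push_cast
        field_simp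
        ring
      rw [h2, abs_div, abs_div, abs_of_pos hNpos, abs_of_pos (by linarith : (0 : ℝ) < L)]
      exact div_le_div_of_nonneg_left (abs_nonneg _) (by linarith) hLN
    refine inv_anti₀ (by positivity) (pow_le_pow_left₀ (by positivity) ?_ 2)
    linarith
  have hGn : ∀ p, 0 ≤ G p := fun p => by simp only [hG]; positivity
  have hcol : ∀ r : Fin N, Summable (fun q : ℤ => G (q, r)) := fun r => (sB ((y - ((r : ℕ) : ℝ)) / N)).1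
  have hGs : Summable G := by
    refine (summable_prod_of_nonneg hGn).mpr ⟨fun x => (hasSum_fintype _).summable, ?_⟩
    simp only [tsum_fintype]
    exact summable_sum (fun r _ => hcol r)
  have hFs' : Summable (fun p => F ((Int.divModEquiv N).symm p)) :=
    Summable.of_nonneg_of_le (fun p => by simp only [hF]; positivity) hle hGs
  have hFs : Summable F := ((Int.divModEquiv N).symm.summable_iff (f := F)).mp hFs'
  refine ⟨hFs, ?_⟩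
  calc ∑' k : ℤ, F k = ∑' p, F ((Int.divModEquiv N).symm p) := ((Int.divModEquiv N).symm.tsum_eq F).symm
    _ ≤ ∑' p, G p := hFs'.tsum_le_tsum hle hGs
    _ = ∑' q : ℤ, ∑' r : Fin N, G (q, r) := hGs.tsum_prod
    _ = ∑' q : ℤ, ∑ r : Fin N, G (q, r) := by simp only [tsum_fintype]
    _ = ∑ r : Fin N, ∑' q : ℤ, G (q, r) := Summable.tsum_finsetSum (fun r _ => hcol r)
    _ ≤ ∑ r : Fin N, 4 * S := Finset.sum_le_sum (fun r _ => (sB ((y - ((r : ℕ) : ℝ)) / N)).2)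
    _ = N * (4 * S) := by simp
    _ ≤ (2 * L) * (4 * S) := by
        apply mul_le_mul_of_nonneg_right _ (by positivity)
        linarith
    _ = _ := by ring

/-- termwise bound -/
private lemma term_le {n : ℕ} {β H σ t₀ R : ℝ} (hn : 8 ≤ n) (hH : 1 ≤ H) (hσ : 0 < σ) (hσ1 : σ ≤ 1) (ht : |t₀| ≤ 6)
    (hR : 1 ≤ R) (c : ℝ × ℝ) (m : ℤ × ℤ) :
    ((1 + |Del β R t₀ c m| / σ) ^ n)⁻¹ * ((1 + H * |Psi β R c m|) ^ n)⁻¹ ≤
      7 ^ 8 * R ^ 2 * (((1 + |(m.1 : ℝ) - c.1|) ^ 2)⁻¹ * ((1 + |zt β c m / (2 * R)|) ^ 2)⁻¹) := by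
  set D := |Del β R t₀ c m| with hD
  set P := |Psi β R c m| with hP
  set x := zt β c m / (2 * R) with hx
  set ξ := (m.1 : ℝ) - c.1 with hξ
  have hD0 : 0 ≤ D := abs_nonneg _
  have hP0 : 0 ≤ P := abs_nonneg _
  have hR0 : 0 < R := by linarith
  have hDel : Del β R t₀ c m = x - t₀ := rfl
  have hPsi : Psi β R c m = ξ + R * x ^ 2 := by
    simp only [Psi, hx, hξ]
    field_simp
    ring
  have h1 : 1 + |x| ≤ 7 * (1 + D) := by
    have h2 : |x| ≤ D + |t₀| := by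
      rw [hD, hDel]
      have := abs_add_le (x - t₀) t₀
      rwa [sub_add_cancel] at this
    linarith
  have h3 : 1 + |ξ| ≤ (1 + P) * (R * (1 + |x|) ^ 2) := by
    have h4 : |ξ| ≤ P + R * x ^ 2 := by
      have h5 : ξ = Psi β R c m - R * x ^ 2 := by rw [hPsi]; ring
      have h6 : |ξ| ≤ |Psi β R c m| + |R * x ^ 2| := by
        conv_lhs => rw [h5]
        exact abs_sub _ _
      rwa [abs_of_nonneg (by positivity : 0 ≤ R * x ^ 2)] at h6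
    have h7 : 1 + R * x ^ 2 ≤ R * (1 + |x|) ^ 2 := by
      have h8 : x ^ 2 = |x| ^ 2 := (sq_abs x).symm
      rw [h8]
      have h9 := abs_nonneg x
      nlinarith
    calc 1 + |ξ| ≤ 1 + (P + R * x ^ 2) := by linarith
      _ ≤ (1 + P) * (1 + R * x ^ 2) := by
          have : 0 ≤ P * (R * x ^ 2) := by positivity
          linarith
      _ ≤ _ := mul_le_mul_of_nonneg_left h7 (by linarith)
  have hA : (1 + D) ^ 8 ≤ (1 + D / σ) ^ n := by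
    have h10 : D ≤ D / σ := by
      rw [le_div_iff₀ hσ]
      nlinarith
    calc (1 + D) ^ 8 ≤ (1 + D) ^ n := pow_le_pow_right₀ (by linarith) hn
      _ ≤ _ := pow_le_pow_left₀ (by linarith) (by linarith) n
  have hB : (1 + P) ^ 2 ≤ (1 + H * P) ^ n := by
    calc (1 + P) ^ 2 ≤ (1 + P) ^ n := pow_le_pow_right₀ (by linarith) (by omega)
      _ ≤ _ := pow_le_pow_left₀ (by linarith) (by nlinarith) n
  have hx0 := abs_nonneg x
  have hξ0 := abs_nonneg ξ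
  have key : (1 + |ξ|) ^ 2 * (1 + |x|) ^ 2 ≤ 7 ^ 8 * R ^ 2 * ((1 + D / σ) ^ n * (1 + H * P) ^ n) := by
    calc (1 + |ξ|) ^ 2 * (1 + |x|) ^ 2 ≤ ((1 + P) * (R * (1 + |x|) ^ 2)) ^ 2 * (1 + |x|) ^ 4 := by
          apply mul_le_mul (pow_le_pow_left₀ (by positivity) h3 2) (pow_le_pow_right₀ (by linarith) (by norm_num))
            (by positivity) (by positivity)
      _ = R ^ 2 * (1 + |x|) ^ 8 * (1 + P) ^ 2 := by ring
      _ ≤ R ^ 2 * (7 * (1 + D)) ^ 8 * (1 + P) ^ 2 := by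
          gcongr
      _ = 7 ^ 8 * R ^ 2 * ((1 + D) ^ 8 * (1 + P) ^ 2) := by ring
      _ ≤ _ := by
          gcongr
  have hp1 : 0 < (1 + |ξ|) ^ 2 * (1 + |x|) ^ 2 := by positivity
  have hp2 : 0 < (1 + D / σ) ^ n * (1 + H * P) ^ n := by positivity
  rw [← mul_inv, ← mul_inv, inv_eq_one_div, ← div_eq_mul_inv, div_le_div_iff₀ hp2 hp1]
  linarith

theorem dual_sum : ∃ C : ℝ, 0 < C ∧ ∀ (n : ℕ) (β H σ t₀ R : ℝ), 8 ≤ n → |β| ≤ 1 / 2 → 1 ≤ H → 0 < σ → σ ≤ 1 → |t₀| ≤ 6 →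
    1 ≤ R → ∀ c : ℝ × ℝ,
      Summable (fun m : ℤ × ℤ => ((1 + |Del β R t₀ c m| / σ) ^ n)⁻¹ * ((1 + H * |Psi β R c m|) ^ n)⁻¹) ∧
      ∑' m : ℤ × ℤ, ((1 + |Del β R t₀ c m| / σ) ^ n)⁻¹ * ((1 + H * |Psi β R c m|) ^ n)⁻¹ ≤ C * R ^ 3 := by
  set S : ℝ := ∑' j : ℤ, ((1 + |(j : ℝ)|) ^ 2)⁻¹ with hS
  have hS0 : 0 < S := by
    have h := sA.le_tsum 0 (fun j _ => by positivity)
    norm_num at h
    linarith
  refine ⟨7 ^ 8 * (16 * S * (4 * S)), by positivity, ?_⟩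
  intro n β H σ t₀ R hn hβ hH hσ hσ1 ht hR c
  have hR0 : 0 < R := by linarith
  set T : ℤ × ℤ → ℝ := fun m => ((1 + |Del β R t₀ c m| / σ) ^ n)⁻¹ * ((1 + H * |Psi β R c m|) ^ n)⁻¹ with hT
  set U : ℤ × ℤ → ℝ := fun m => ((1 + |(m.1 : ℝ) - c.1|) ^ 2)⁻¹ * ((1 + |zt β c m / (2 * R)|) ^ 2)⁻¹ with hU
  have hTU : ∀ m, T m ≤ 7 ^ 8 * R ^ 2 * U m := fun m => term_le hn hH hσ hσ1 ht hR c m
  have hU0 : ∀ m, 0 ≤ U m := fun m => by simp only [hU]; positivity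
  have hrow : ∀ a : ℤ, Summable (fun b : ℤ => ((1 + |zt β c (a, b) / (2 * R)|) ^ 2)⁻¹) ∧
      ∑' b : ℤ, ((1 + |zt β c (a, b) / (2 * R)|) ^ 2)⁻¹ ≤ 8 * (2 * R) * S := by
    intro a
    have h := sC (L := 2 * R) (by linarith) (c.2 + β * ((a : ℝ) - c.1))
    have he : ∀ b : ℤ, zt β c (a, b) = (b : ℝ) - (c.2 + β * ((a : ℝ) - c.1)) := by
      intro b
      simp only [zt]
      ring
    simp only [he]
    exact h
  have hrow1 : ∀ a : ℤ, Summable (fun b : ℤ => U (a, b)) := by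
    intro a
    simp only [hU]
    exact (hrow a).1.mul_left _
  have hrow2 : ∀ a : ℤ, ∑' b : ℤ, U (a, b) ≤ ((1 + |(a : ℝ) - c.1|) ^ 2)⁻¹ * (8 * (2 * R) * S) := by
    intro a
    simp only [hU]
    rw [tsum_mul_left]
    exact mul_le_mul_of_nonneg_left (hrow a).2 (by positivity)
  have hcol := sB c.1
  have hU1 : Summable (fun a : ℤ => ∑' b : ℤ, U (a, b)) :=
    Summable.of_nonneg_of_le (fun a => tsum_nonneg (fun b => hU0 _)) hrow2 (hcol.1.mul_right _)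
  have hUs : Summable U := (summable_prod_of_nonneg hU0).mpr ⟨hrow1, hU1⟩
  have hUle : ∑' m, U m ≤ 16 * S * (4 * S) * R := by
    rw [hUs.tsum_prod]
    calc ∑' a : ℤ, ∑' b : ℤ, U (a, b) ≤ ∑' a : ℤ, ((1 + |(a : ℝ) - c.1|) ^ 2)⁻¹ * (8 * (2 * R) * S) :=
          hU1.tsum_le_tsum hrow2 (hcol.1.mul_right _)
      _ = (∑' a : ℤ, ((1 + |(a : ℝ) - c.1|) ^ 2)⁻¹) * (8 * (2 * R) * S) := tsum_mul_right
      _ ≤ (4 * S) * (8 * (2 * R) * S) := mul_le_mul_of_nonneg_right hcol.2 (by positivity)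
      _ = _ := by ring
  have hTs : Summable T :=
    Summable.of_nonneg_of_le (fun m => by simp only [hT]; positivity) hTU (hUs.mul_left _)
  refine ⟨hTs, ?_⟩
  calc ∑' m, T m ≤ ∑' m, 7 ^ 8 * R ^ 2 * U m := hTs.tsum_le_tsum hTU (hUs.mul_left _)
    _ = 7 ^ 8 * R ^ 2 * ∑' m, U m := tsum_mul_left
    _ ≤ 7 ^ 8 * R ^ 2 * (16 * S * (4 * S) * R) := mul_le_mul_of_nonneg_left hUle (by positivity)
    _ = _ := by ring

theorem near_fin {β R : ℝ} (hR : 0 < R) (t₀ s d : ℝ) (c : ℝ × ℝ) : (near β R t₀ s d c).Finite := by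
  set Z : ℝ := 2 * R * (s + |t₀|) with hZ
  set X : ℝ := d + Z ^ 2 / (4 * R) with hX
  set Y : ℝ := Z + |β| * X with hY
  have hsub : near β R t₀ s d c ⊆ Set.Icc ⌊c.1 - X⌋ ⌈c.1 + X⌉ ×ˢ Set.Icc ⌊c.2 - Y⌋ ⌈c.2 + Y⌉ := by
    rintro ⟨a, b⟩ ⟨h1, h2⟩
    have hz : |zt β c (a, b)| ≤ Z := by
      have h3 : |zt β c (a, b) / (2 * R)| ≤ s + |t₀| := by
        have h4 := abs_add_le (Del β R t₀ c (a, b)) t₀
        simp only [Del, sub_add_cancel] at h4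
        simp only [Del] at h1
        linarith
      rw [abs_div, abs_of_pos (by positivity : (0 : ℝ) < 2 * R), div_le_iff₀ (by positivity)] at h3
      rw [hZ]
      linarith
    have hξ : |(a : ℝ) - c.1| ≤ X := by
      have h5 : (a : ℝ) - c.1 = Psi β R c (a, b) - zt β c (a, b) ^ 2 / (4 * R) := by
        simp only [Psi]
        ring
      have h6 : zt β c (a, b) ^ 2 ≤ Z ^ 2 := by
        rw [← sq_abs]
        exact pow_le_pow_left₀ (abs_nonneg _) hz 2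
      have h7 : |zt β c (a, b) ^ 2 / (4 * R)| ≤ Z ^ 2 / (4 * R) := by
        rw [abs_of_nonneg (by positivity)]
        exact div_le_div_of_nonneg_right h6 (by positivity)
      rw [h5]
      have h8 := abs_sub (Psi β R c (a, b)) (zt β c (a, b) ^ 2 / (4 * R))
      rw [hX]
      linarith
    have hη : |(b : ℝ) - c.2| ≤ Y := by
      have h5 : (b : ℝ) - c.2 = zt β c (a, b) + β * ((a : ℝ) - c.1) := by
        simp only [zt]
        ring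
      rw [h5]
      have h8 := abs_add_le (zt β c (a, b)) (β * ((a : ℝ) - c.1))
      have h9 : |β * ((a : ℝ) - c.1)| ≤ |β| * X := by
        rw [abs_mul]
        exact mul_le_mul_of_nonneg_left hξ (abs_nonneg _)
      rw [hY]
      linarith
    rw [abs_le] at hξ hη
    refine ⟨⟨?_, ?_⟩, ⟨?_, ?_⟩⟩
    · have h := Int.floor_le (c.1 - X)
      have h' : ((⌊c.1 - X⌋ : ℤ) : ℝ) ≤ (a : ℝ) := by linarith [hξ.1]
      exact_mod_cast h'
    · have h := Int.le_ceil (c.1 + X)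
      have h' : (a : ℝ) ≤ ((⌈c.1 + X⌉ : ℤ) : ℝ) := by linarith [hξ.2]
      exact_mod_cast h'
    · have h := Int.floor_le (c.2 - Y)
      have h' : ((⌊c.2 - Y⌋ : ℤ) : ℝ) ≤ (b : ℝ) := by linarith [hη.1]
      exact_mod_cast h'
    · have h := Int.le_ceil (c.2 + Y)
      have h' : (b : ℝ) ≤ ((⌈c.2 + Y⌉ : ℤ) : ℝ) := by linarith [hη.2]
      exact_mod_cast h'
  exact ((Set.finite_Icc _ _).prod (Set.finite_Icc _ _)).subset hsub

end Pool.Agent.Helper92.GC
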