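import Pool.Agent.Helper92.GC.N1
import Pool.Agent.Helper92.GC.W5

/-!
# GC-N4: sets in general position

PROOF of `gen_card`. Sort the points of `U` by `ζ = zt β c` (injective on `near` by `near_sep`/`near_diff`). For three consecutive points `m, m₁, m₂` (`0 < z_a < z_b`, `a = m₁ - m`, `b = m₂ - m`) `dd a b ≠ 0` is an
integer within `1/1000` of `z_a z_b (z_b - z_a)/(4R) > 0` (`near_area'`), so `z_a z_b (z_b - z_a) ≥ 4R · 0.999`, and `z_a (z_b - z_a) ≤ z_b²/4` gives `z_b³ ≥ 15.9 R ≥ ρ`. So among the sorted points every third is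
at distance at least `ρ^(1/3)` and all are within `4Rs ≤ 16ρs`: `(card - 2)/2 · ρ^(1/3)`... precisely `⌊(card - 1)/2⌋ ρ^(1/3) ≤ 16 ρ s`, so `card ≤ 2 + 32 ρ^(2/3) s`. (In Lean: e.g. the map `U → ℤ`,
`m ↦ ⌊(zt β c m - ζ_min)/ρ^(1/3)⌋`: every value is attained by at most two elements - three points in an interval of length `< ρ^(1/3)` would contradict the estimate - and there are at most
`16ρ^(2/3)s + 1` values.)
PROOF of `gen_quad`. `quad` is finite (`near_fin`). For every 4-element subset of `U`, sorted `m < m₁ < m₂ < m₃` in `ζ`, the quadruple `(m, (m₁ - m, m₂ - m, m₃ - m))` is in `quad`: all four determinants are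
non zero (general position; `dd (b - a) (e - a) = dd (m₂ - m₁) (m₃ - m₁)`) and positive by `near_area'` (the exact area is positive, the error `< 1`). So `(card choose 4) ≤ ncard quad`, and
`n⁴ ≤ 256 (n choose 4)` for `n ≥ 4`.
-/

open MeasureTheory Real Set Filter Topology

set_option autoImplicit false

namespace Pool.Agent.Helper92.GC

open Pool.Agent.Helper22.AE
open Pool.Agent.Helper22.AC (n6 IsWt mu)

/-- sorted quadruples in general position (difference vectors) -/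
def QQ (β : ℝ) (a b e : ℤ × ℤ) : Prop :=
  0 < zz β a ∧ zz β a < zz β b ∧ zz β b < zz β e ∧ 0 < dd a b ∧ 0 < dd a e ∧ 0 < dd b e ∧ 0 < dd (b - a) (e - a)

/-- quadruples of lattice points near the arc -/
def quad (β R t₀ s d : ℝ) (c : ℝ × ℝ) : Set ((ℤ × ℤ) × (ℤ × ℤ) × (ℤ × ℤ) × (ℤ × ℤ)) :=
  {q | q.1 ∈ near β R t₀ s d c ∧ q.1 + q.2.1 ∈ near β R t₀ s d c ∧ q.1 + q.2.2.1 ∈ near β R t₀ s d c ∧
    q.1 + q.2.2.2 ∈ near β R t₀ s d c ∧ QQ β q.2.1 q.2.2.1 q.2.2.2}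

private theorem Rpos56 {β ρ t₀ s d R : ℝ} (h : Par β ρ t₀ s d) (h1 : ρ / 2 ≤ R) : 0 < R := by
  have := h.hρ
  linarith

private theorem area56 {β ρ t₀ s d R : ℝ} (h : Par β ρ t₀ s d) (h1 : ρ / 2 ≤ R) (h2 : R ≤ 4 * ρ)
    {c : ℝ × ℝ} {m m₁ m₂ : ℤ × ℤ} (hm : m ∈ near β R t₀ s d c) (hm₁ : m₁ ∈ near β R t₀ s d c)
    (hm₂ : m₂ ∈ near β R t₀ s d c) (hz1 : zt β c m < zt β c m₁) (hz2 : zt β c m₁ < zt β c m₂)
    (hdd : dd (m₁ - m) (m₂ - m) ≠ 0) :
    0 < dd (m₁ - m) (m₂ - m) ∧ ρ < (zt β c m₂ - zt β c m) ^ 3 := by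
  have hR := Rpos56 h h1
  have ha := near_area' h h1 h2 hm hm₁ hm₂
  rw [(near_diff hR hm hm₁).1, (near_diff hR hm hm₂).1] at ha
  obtain ⟨p, hp⟩ : ∃ p : ℝ, p = zt β c m₁ - zt β c m := ⟨_, rfl⟩
  obtain ⟨q, hq⟩ : ∃ q : ℝ, q = zt β c m₂ - zt β c m := ⟨_, rfl⟩
  rw [← hp, ← hq] at ha
  rw [← hq]
  have hp0 : 0 < p := by linarith
  have hpq : p < q := by linarith
  have hq0 : 0 < q := by linarith
  have hpos : 0 < p * q * (q - p) / (4 * R) :=
    div_pos (mul_pos (mul_pos hp0 hq0) (by linarith)) (by linarith)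
  have ha2 := abs_le.1 ha
  have hd1 : (-1 : ℝ) < (dd (m₁ - m) (m₂ - m) : ℝ) := by linarith [ha2.1]
  have hd2 : (-1 : ℤ) < dd (m₁ - m) (m₂ - m) := by exact_mod_cast hd1
  have hd3 : 0 < dd (m₁ - m) (m₂ - m) := by omega
  refine ⟨hd3, ?_⟩
  have hd4 : (1 : ℝ) ≤ (dd (m₁ - m) (m₂ - m) : ℝ) := by exact_mod_cast hd3
  have h3 : 999 / 1000 ≤ p * q * (q - p) / (4 * R) := by linarith [ha2.2]
  rw [le_div_iff₀ (by linarith)] at h3
  have h4 : p * (q - p) ≤ q ^ 2 / 4 := by linarith [sq_nonneg (q - 2 * p)]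
  have h5 : p * q * (q - p) ≤ q ^ 3 / 4 := by
    have := mul_le_mul_of_nonneg_left h4 hq0.le
    linarith
  have hρ := h.hρ
  linarith

private theorem inj56 {β ρ t₀ s d R : ℝ} (h : Par β ρ t₀ s d) (hR : 0 < R)
    {c : ℝ × ℝ} {m m' : ℤ × ℤ} (hm : m ∈ near β R t₀ s d c) (hm' : m' ∈ near β R t₀ s d c)
    (hne : m ≠ m') : zt β c m ≠ zt β c m' := by
  intro he
  have h1 := near_sep h hR hm hm' hne
  rw [(near_diff hR hm hm').1, he, sub_self, abs_zero] at h1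
  norm_num at h1

private theorem cube56 {ρ : ℝ} (hρ : 1 ≤ ρ) : ∃ x : ℝ, 0 < x ∧ x ^ 3 = ρ ∧
    ρ ^ (2 / 3 : ℝ) = x ^ 2 := by
  have h0 : 0 < ρ := by linarith
  refine ⟨ρ ^ (1 / 3 : ℝ), Real.rpow_pos_of_pos h0 _, ?_, ?_⟩
  · rw [← Real.rpow_natCast, ← Real.rpow_mul h0.le]
    norm_num
  · rw [← Real.rpow_natCast, ← Real.rpow_mul h0.le]
    norm_num

theorem gen_card {β ρ t₀ s d R : ℝ} (h : Par β ρ t₀ s d) (h1 : ρ / 2 ≤ R) (h2 : R ≤ 4 * ρ) {c : ℝ × ℝ} (U : Finset (ℤ × ℤ))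
    (hU : ∀ m ∈ U, m ∈ near β R t₀ s d c)
    (hg : ∀ m ∈ U, ∀ m₁ ∈ U, ∀ m₂ ∈ U, m ≠ m₁ → m ≠ m₂ → m₁ ≠ m₂ → dd (m₁ - m) (m₂ - m) ≠ 0) :
    (U.card : ℝ) ≤ 2 + 32 * (ρ ^ (2 / 3 : ℝ) * s) := by
  classical
  have hR := Rpos56 h h1
  have hs := h.hs
  obtain ⟨x, hx0, hx3, hx2⟩ := cube56 h.hρ
  rw [hx2]
  rcases U.eq_empty_or_nonempty with rfl | hne
  · rw [Finset.card_empty, Nat.cast_zero]
    positivity
  obtain ⟨m₀, hm₀, hmin⟩ := Finset.exists_min_image U (zt β c) hne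
  have hf0 : ∀ m ∈ U, 0 ≤ (zt β c m - zt β c m₀) / x := fun m hm =>
    div_nonneg (by linarith [hmin m hm]) hx0.le
  have hfle : ∀ m ∈ U, (zt β c m - zt β c m₀) / x ≤ 16 * (x ^ 2 * s) := by
    intro m hm
    have h3 := near_diff hR (hU m₀ hm₀) (hU m hm)
    have h4 := h3.2.1
    rw [h3.1] at h4
    have h5 := (abs_le.1 h4).2
    rw [div_le_iff₀ hx0]
    have h6 : R * s ≤ 4 * x ^ 3 * s := by
      rw [hx3]
      exact mul_le_mul_of_nonneg_right h2 hs.le
    linarith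
  have hfib : ∀ y ∈ Finset.range (⌊16 * (x ^ 2 * s)⌋₊ + 1),
      (U.filter (fun m => ⌊(zt β c m - zt β c m₀) / x⌋₊ = y)).card ≤ 2 := by
    intro y _
    by_contra hcon
    rw [not_le, Finset.two_lt_card] at hcon
    obtain ⟨a, ha, b, hb, e, he, hab, hae, hbe⟩ := hcon
    rw [Finset.mem_filter] at ha hb he
    have hclose : ∀ m m' : ℤ × ℤ, m ∈ U → m' ∈ U →
        ⌊(zt β c m - zt β c m₀) / x⌋₊ = y → ⌊(zt β c m' - zt β c m₀) / x⌋₊ = y →
        zt β c m' - zt β c m < x := by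
      intro m m' hm hm' e1 e2
      have h3 := Nat.floor_le (hf0 m hm)
      have h4 := Nat.lt_floor_add_one ((zt β c m' - zt β c m₀) / x)
      rw [e1] at h3
      rw [e2] at h4
      have h5 : (zt β c m' - zt β c m₀) / x < (zt β c m - zt β c m₀) / x + 1 := by linarith
      rw [div_add_one hx0.ne', div_lt_div_iff_of_pos_right hx0] at h5
      linarith
    have hthree : ∀ m m₁ m₂ : ℤ × ℤ, (m ∈ U ∧ ⌊(zt β c m - zt β c m₀) / x⌋₊ = y) →
        (m₁ ∈ U ∧ ⌊(zt β c m₁ - zt β c m₀) / x⌋₊ = y) →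
        (m₂ ∈ U ∧ ⌊(zt β c m₂ - zt β c m₀) / x⌋₊ = y) → zt β c m < zt β c m₁ →
        zt β c m₁ < zt β c m₂ → False := by
      intro m m₁ m₂ hm hm₁ hm₂ hz1 hz2
      have n1 : m ≠ m₁ := by
        rintro rfl
        exact lt_irrefl _ hz1
      have n2 : m₁ ≠ m₂ := by
        rintro rfl
        exact lt_irrefl _ hz2
      have n3 : m ≠ m₂ := by
        rintro rfl
        exact lt_irrefl _ (hz1.trans hz2)
      have h3 := (area56 h h1 h2 (hU m hm.1) (hU m₁ hm₁.1) (hU m₂ hm₂.1) hz1 hz2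
        (hg m hm.1 m₁ hm₁.1 m₂ hm₂.1 n1 n3 n2)).2
      have h4 := hclose m m₂ hm.1 hm₂.1 hm.2 hm₂.2
      rw [← hx3] at h3
      have h5 := pow_le_pow_left₀ (by linarith : 0 ≤ zt β c m₂ - zt β c m) h4.le 3
      linarith
    have i1 := inj56 h hR (hU a ha.1) (hU b hb.1) hab
    have i2 := inj56 h hR (hU a ha.1) (hU e he.1) hae
    have i3 := inj56 h hR (hU b hb.1) (hU e he.1) hbe
    rcases lt_or_gt_of_ne i1 with j1 | j1
    · rcases lt_or_gt_of_ne i2 with j2 | j2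
      · rcases lt_or_gt_of_ne i3 with j3 | j3
        · exact hthree a b e ha hb he j1 j3
        · exact hthree a e b ha he hb j2 j3
      · exact hthree e a b he ha hb j2 j1
    · rcases lt_or_gt_of_ne i2 with j2 | j2
      · exact hthree b a e hb ha he j1 j2
      · rcases lt_or_gt_of_ne i3 with j3 | j3
        · exact hthree b e a hb he ha j3 j2
        · exact hthree e b a he hb ha j3 j1
  have hmaps : ∀ m ∈ U, ⌊(zt β c m - zt β c m₀) / x⌋₊ ∈
      Finset.range (⌊16 * (x ^ 2 * s)⌋₊ + 1) := by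
    intro m hm
    rw [Finset.mem_range, Nat.lt_succ_iff]
    exact Nat.floor_mono (hfle m hm)
  have hcard := Finset.card_le_mul_card_image_of_maps_to hmaps 2 hfib
  rw [Finset.card_range] at hcard
  have hcardR : (U.card : ℝ) ≤ 2 * ((⌊16 * (x ^ 2 * s)⌋₊ : ℝ) + 1) := by exact_mod_cast hcard
  have hfl := Nat.floor_le (by positivity : 0 ≤ 16 * (x ^ 2 * s))
  linarith

theorem quad_fin {β R : ℝ} (hR : 0 < R) (t₀ s d : ℝ) (c : ℝ × ℝ) : (quad β R t₀ s d c).Finite := by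
  have hN := near_fin (β := β) hR t₀ s d c
  have hinj : Function.Injective (fun q : (ℤ × ℤ) × (ℤ × ℤ) × (ℤ × ℤ) × (ℤ × ℤ) =>
      (q.1, q.1 + q.2.1, q.1 + q.2.2.1, q.1 + q.2.2.2)) := by
    rintro ⟨a, b, e, f⟩ ⟨a', b', e', f'⟩ he
    simp only [Prod.mk.injEq] at he
    obtain ⟨rfl, h2, h3, h4⟩ := he
    rw [add_left_cancel h2, add_left_cancel h3, add_left_cancel h4]
  refine (Set.Finite.preimage hinj.injOn (hN.prod (hN.prod (hN.prod hN)))).subset ?_
  rintro q ⟨h1, h2, h3, h4, -⟩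
  exact ⟨h1, h2, h3, h4⟩

private theorem choose56 {n : ℕ} (h : 4 ≤ n) : n ^ 4 ≤ 256 * n.choose 4 := by
  obtain ⟨k, rfl⟩ : ∃ k, n = k + 4 := ⟨n - 4, by omega⟩
  have h1 : (k + 4).descFactorial 4 = Nat.factorial 4 * (k + 4).choose 4 :=
    Nat.descFactorial_eq_factorial_mul_choose _ _
  have h2 : (k + 4).descFactorial 4 = (k + 1) * ((k + 2) * ((k + 3) * (k + 4))) := by
    simp [Nat.descFactorial]
  have h3 : Nat.factorial 4 = 24 := by decide
  rw [h2, h3] at h1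
  linarith [sq_nonneg k, pow_two_nonneg (k : ℤ), Nat.zero_le (k ^ 3), Nat.zero_le (k ^ 4)]

theorem gen_quad {β ρ t₀ s d R : ℝ} (h : Par β ρ t₀ s d) (h1 : ρ / 2 ≤ R) (h2 : R ≤ 4 * ρ) {c : ℝ × ℝ} (U : Finset (ℤ × ℤ))
    (hU : ∀ m ∈ U, m ∈ near β R t₀ s d c)
    (hg : ∀ m ∈ U, ∀ m₁ ∈ U, ∀ m₂ ∈ U, m ≠ m₁ → m ≠ m₂ → m₁ ≠ m₂ → dd (m₁ - m) (m₂ - m) ≠ 0) (h4 : 4 ≤ U.card) :
    (U.card : ℝ) ^ 4 ≤ 256 * ((quad β R t₀ s d c).ncard : ℝ) := by
  classical
  have hR := Rpos56 h h1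
  have hinj : Set.InjOn (zt β c) (U : Set (ℤ × ℤ)) := by
    intro a ha b hb hab
    by_contra hne
    exact inj56 h hR (hU a ha) (hU b hb) hne hab
  have hcard : (U.image (zt β c)).card = U.card := Finset.card_image_of_injOn hinj
  have hex : ∀ i : Fin U.card, ∃ m ∈ U, zt β c m = (U.image (zt β c)).orderEmbOfFin hcard i :=
    fun i => Finset.mem_image.1 (Finset.orderEmbOfFin_mem _ hcard i)
  choose e he1 he2 using hex
  have hmono : ∀ i j : Fin U.card, i < j → zt β c (e i) < zt β c (e j) := by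
    intro i j hij
    rw [he2, he2]
    exact ((U.image (zt β c)).orderEmbOfFin hcard).strictMono hij
  have einj : Function.Injective e := by
    intro i j hij
    by_contra hne
    rcases lt_or_gt_of_ne hne with hlt | hlt
    · have := hmono i j hlt
      rw [hij] at this
      exact lt_irrefl _ this
    · have := hmono j i hlt
      rw [hij] at this
      exact lt_irrefl _ this
  have hpos : ∀ i j k : Fin U.card, i < j → j < k → 0 < dd (e j - e i) (e k - e i) := by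
    intro i j k hij hjk
    exact (area56 h h1 h2 (hU _ (he1 i)) (hU _ (he1 j)) (hU _ (he1 k)) (hmono i j hij)
      (hmono j k hjk) (hg _ (he1 i) _ (he1 j) _ (he1 k) (fun h => hij.ne (einj h))
        (fun h => (hij.trans hjk).ne (einj h)) (fun h => hjk.ne (einj h)))).1
  have hQ : ∀ f : Fin 4 ↪o Fin U.card, (e (f 0), e (f 1) - e (f 0), e (f 2) - e (f 0),
      e (f 3) - e (f 0)) ∈ quad β R t₀ s d c := by
    intro f
    have h01 : f 0 < f 1 := f.strictMono (by decide)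
    have h12 : f 1 < f 2 := f.strictMono (by decide)
    have h23 : f 2 < f 3 := f.strictMono (by decide)
    have z := fun i => near_diff hR (hU _ (he1 (f 0))) (hU _ (he1 (f i)))
    refine ⟨hU _ (he1 _), ?_, ?_, ?_, ?_, ?_, ?_, ?_, ?_, ?_, ?_⟩
    · show e (f 0) + (e (f 1) - e (f 0)) ∈ _
      rw [add_sub_cancel]
      exact hU _ (he1 _)
    · show e (f 0) + (e (f 2) - e (f 0)) ∈ _
      rw [add_sub_cancel]
      exact hU _ (he1 _)
    · show e (f 0) + (e (f 3) - e (f 0)) ∈ _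
      rw [add_sub_cancel]
      exact hU _ (he1 _)
    · show 0 < zz β (e (f 1) - e (f 0))
      rw [(z 1).1]
      linarith [hmono _ _ h01]
    · show zz β (e (f 1) - e (f 0)) < zz β (e (f 2) - e (f 0))
      rw [(z 1).1, (z 2).1]
      linarith [hmono _ _ h12]
    · show zz β (e (f 2) - e (f 0)) < zz β (e (f 3) - e (f 0))
      rw [(z 2).1, (z 3).1]
      linarith [hmono _ _ h23]
    · exact hpos _ _ _ h01 h12
    · exact hpos _ _ _ h01 (h12.trans h23)
    · exact hpos _ _ _ (h01.trans h12) h23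
    · show 0 < dd (e (f 2) - e (f 0) - (e (f 1) - e (f 0))) (e (f 3) - e (f 0) - (e (f 1) - e (f 0)))
      rw [sub_sub_sub_cancel_right, sub_sub_sub_cancel_right]
      exact hpos _ _ _ h12 h23
  have hfin : Finite (quad β R t₀ s d c) := quad_fin hR t₀ s d c
  have hle : Nat.card (Fin 4 ↪o Fin U.card) ≤ Nat.card (quad β R t₀ s d c) := by
    refine Nat.card_le_card_of_injective (fun f => ⟨_, hQ f⟩) ?_
    intro f g hfg
    have h5 := congrArg Subtype.val hfg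
    simp only [Prod.mk.injEq] at h5
    obtain ⟨h6, h7, h8, h9⟩ := h5
    rw [h6] at h7 h8 h9
    have e0 := einj h6
    have e1 := einj (sub_left_injective h7)
    have e2 := einj (sub_left_injective h8)
    have e3 := einj (sub_left_injective h9)
    apply RelEmbedding.ext
    intro i
    fin_cases i
    · exact e0
    · exact e1
    · exact e2
    · exact e3
  rw [Nat.card_congr Set.powersetCard.ofFinEmbEquiv, Set.powersetCard.card, Nat.card_fin,
    Nat.card_coe_set_eq] at hle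
  have h5 := (choose56 h4).trans (Nat.mul_le_mul_left 256 hle)
  exact_mod_cast h5

end Pool.Agent.Helper92.GC
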