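import Pool.Agent.Helper92.GC.N3
import Pool.Agent.Helper92.GC.N4

/-!
# GC-N5: the pointwise inequality

PROOF of `pw_free`. `U = near` (finite, `near_fin`): by `col_dir` no three points are collinear (a collinear triple would give an `IsDir` vector). Let `n = card`. If `n ≤ 3`: `n^6 ≤ 729 n` (`n ≥ 1`, or `0`).
If `n ≥ 4`: `n^6 = n² n⁴ ≤ (2 + 32 ρ^(2/3) s)² · 256 T₄ ≤ 2^18 (1 + ρ^(2/3)s)² T₄`·(adjust the constant) by `gen_card`, `gen_quad`.
PROOF of `pw_dir`. `g` is the only `IsDir` vector (`dir_unique`). Call two points equivalent if `dd (m' - m) g = 0` (an equivalence relation on `near`); choose one point of every class: a set `U ⊆ near`. `U` has no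
collinear triple: by `col_dir` such a triple would be on a line of direction `g`, so equivalent. At most one class has `≥ 3` elements (`one_line`); let `n₃` be its size (or `0`). Then
`n ≤ 2 card U + n₃`, `n^6 ≤ 32 (64 (card U)^6 + n₃^6)`; `(card U)^6` as before (`≤ 729 n + ...`), and `n₃^6 ≤ C (dρ)³ z^(-6) (1 + |θ|/d)^(-3)` by `line_count`, where `θ = th β R c g m₀` is the value of
`R tg² - (n - (c.1 g.2 - c.2 g.1))/z` for the integer `n = dd m₀ g`, one term of the (summable, non negative) series.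
-/

open MeasureTheory Real Set Filter Topology

set_option autoImplicit false

namespace Pool.Agent.Helper92.GC

open Pool.Agent.Helper22.AE
open Pool.Agent.Helper22.AC (n6 IsWt mu)

private lemma gen6_47 {β ρ t₀ s d R : ℝ} (h : Par β ρ t₀ s d) (h1 : ρ / 2 ≤ R) (h2 : R ≤ 4 * ρ) {c : ℝ × ℝ} (U : Finset (ℤ × ℤ))
    (hU : ∀ m ∈ U, m ∈ near β R t₀ s d c)
    (hg : ∀ m ∈ U, ∀ m₁ ∈ U, ∀ m₂ ∈ U, m ≠ m₁ → m ≠ m₂ → m₁ ≠ m₂ → dd (m₁ - m) (m₂ - m) ≠ 0) :
    (U.card : ℝ) ^ 6 ≤ 2 ^ 18 * (U.card + (1 + ρ ^ (2 / 3 : ℝ) * s) ^ 2 * (quad β R t₀ s d c).ncard) := by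
  have hρ := h.hρ
  have hs := h.hs
  have hx : 0 ≤ ρ ^ (2 / 3 : ℝ) * s := by positivity
  have e0 : (0 : ℝ) ≤ U.card := by positivity
  by_cases h4 : 4 ≤ U.card
  · have e1 := gen_card h h1 h2 U hU hg
    have e2 := gen_quad h h1 h2 U hU hg h4
    have e3 : (U.card : ℝ) ^ 2 ≤ (32 * (1 + ρ ^ (2 / 3 : ℝ) * s)) ^ 2 := by
      apply pow_le_pow_left₀ (by positivity)
      linarith
    calc (U.card : ℝ) ^ 6 = (U.card : ℝ) ^ 2 * (U.card : ℝ) ^ 4 := by ring
      _ ≤ (32 * (1 + ρ ^ (2 / 3 : ℝ) * s)) ^ 2 * (256 * ((quad β R t₀ s d c).ncard : ℝ)) := by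
          apply mul_le_mul e3 e2 (by positivity) (by positivity)
      _ = 2 ^ 18 * ((1 + ρ ^ (2 / 3 : ℝ) * s) ^ 2 * (quad β R t₀ s d c).ncard) := by ring
      _ ≤ _ := by
          have : (0 : ℝ) ≤ 2 ^ 18 * (U.card : ℝ) := by positivity
          rw [mul_add]
          linarith
  · push Not at h4
    have e1 : (U.card : ℝ) ≤ 3 := by exact_mod_cast Nat.lt_succ_iff.mp h4
    have e2 : (U.card : ℝ) ^ 6 ≤ 243 * U.card := by
      have : (U.card : ℝ) ^ 5 ≤ 3 ^ 5 := pow_le_pow_left₀ e0 e1 5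
      calc (U.card : ℝ) ^ 6 = (U.card : ℝ) ^ 5 * (U.card : ℝ) := by ring
        _ ≤ 3 ^ 5 * (U.card : ℝ) := by apply mul_le_mul_of_nonneg_right this e0
        _ = _ := by norm_num
    have : 0 ≤ (1 + ρ ^ (2 / 3 : ℝ) * s) ^ 2 * ((quad β R t₀ s d c).ncard : ℝ) := by positivity
    rw [mul_add]
    nlinarith

theorem pw_free : ∃ C : ℝ, 0 < C ∧ ∀ β ρ t₀ s d R : ℝ, Par β ρ t₀ s d → ρ / 2 ≤ R → R ≤ 4 * ρ → (∀ g, ¬ IsDir β ρ t₀ s d g) →
    ∀ c : ℝ × ℝ, ((near β R t₀ s d c).ncard : ℝ) ^ 6 ≤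
      C * ((near β R t₀ s d c).ncard + (1 + ρ ^ (2 / 3 : ℝ) * s) ^ 2 * (quad β R t₀ s d c).ncard) := by
  refine ⟨2 ^ 18, by norm_num, ?_⟩
  intro β ρ t₀ s d R h h1 h2 hno c
  have hR : 0 < R := by have := h.hρ; linarith
  have hf := near_fin (β := β) hR t₀ s d c
  have key := gen6_47 h h1 h2 (c := c) hf.toFinset (fun m hm => by simpa using hm) (by
    intro m hm m₁ hm₁ m₂ hm₂ h01 h02 h12 h0
    obtain ⟨g, hg, -, -⟩ := col_dir h h1 h2 (by simpa using hm) (by simpa using hm₁) (by simpa using hm₂) h01 h02 h12 h0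
    exact hno g hg)
  rw [Set.ncard_eq_toFinset_card _ hf]
  exact key

private lemma dd_sub47 (a b g : ℤ × ℤ) : dd (a - b) g = dd a g - dd b g := by
  unfold dd
  simp only [Prod.fst_sub, Prod.snd_sub]
  ring

private lemma summ47 (A B z d : ℝ) (hz : 0 < z) (hd : 0 < d) :
    Summable (fun n : ℤ => ((1 + |A - ((n : ℝ) - B) / z| / d) ^ 3)⁻¹) := by
  set w := A * z + B with hw
  set q := z * d with hq
  have hq0 : 0 < q := by positivity
  set E := 1 + |w| + q with hE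
  have hE0 : 0 < E := by positivity
  have hS : Summable (fun n : ℤ => E ^ 3 * (1 / (n : ℝ) ^ 2 + if n = 0 then 1 else 0)) := by
    apply Summable.mul_left
    apply Summable.add
    · exact (Real.summable_one_div_int_pow (p := 2)).mpr (by norm_num)
    · exact (hasSum_ite_eq (0 : ℤ) (1 : ℝ)).summable
  refine Summable.of_nonneg_of_le (fun n => by positivity) (fun n => ?_) hS
  have e1 : |A - ((n : ℝ) - B) / z| / d = |w - n| / q := by
    have : A - ((n : ℝ) - B) / z = (w - n) / z := by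
      rw [hw]
      field_simp
      ring
    rw [this, abs_div, abs_of_pos hz, hq, div_div]
  rw [e1]
  have e2 : 1 + |(n : ℝ)| ≤ E * (1 + |w - n| / q) := by
    have h1 : |(n : ℝ)| ≤ |w| + |w - n| := by
      have := abs_sub_abs_le_abs_sub (n : ℝ) w
      rw [abs_sub_comm] at this
      linarith
    have h2 : q * (|w - n| / q) = |w - n| := by field_simp
    have h3 : 0 ≤ |w - n| / q := by positivity
    have h4 : 0 ≤ (1 + |w|) * (|w - n| / q) := by positivity
    calc 1 + |(n : ℝ)| ≤ 1 + |w| + |w - n| := by linarith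
      _ ≤ (1 + |w|) + (1 + |w|) * (|w - n| / q) + q + q * (|w - n| / q) := by linarith
      _ = E * (1 + |w - n| / q) := by rw [hE]; ring
  have e3 : (1 + |(n : ℝ)|) ^ 3 ≤ E ^ 3 * (1 + |w - n| / q) ^ 3 := by
    rw [← mul_pow]
    exact pow_le_pow_left₀ (by positivity) e2 3
  have e4 : ((1 + |w - n| / q) ^ 3)⁻¹ ≤ E ^ 3 * ((1 + |(n : ℝ)|) ^ 3)⁻¹ := by
    rw [← div_eq_mul_inv, le_div_iff₀ (by positivity), inv_mul_le_iff₀ (by positivity)]
    linarith
  refine e4.trans ?_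
  apply mul_le_mul_of_nonneg_left _ (by positivity)
  by_cases hn : n = 0
  · subst hn
    simp
  · rw [if_neg hn, add_zero]
    have hn1 : (1 : ℝ) ≤ |(n : ℝ)| := by
      rw [← Int.cast_abs]
      exact_mod_cast Int.one_le_abs hn
    rw [one_div]
    apply inv_anti₀ (by positivity)
    rw [← sq_abs]
    have : |(n : ℝ)| ^ 2 ≤ |(n : ℝ)| ^ 3 := pow_le_pow_right₀ hn1 (by norm_num)
    have h5 : |(n : ℝ)| ^ 3 ≤ (1 + |(n : ℝ)|) ^ 3 := pow_le_pow_left₀ (by positivity) (by linarith) 3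
    linarith

private lemma fin47 {C n u v Qn X : ℝ} (hC : 0 ≤ C) (hu0 : 0 ≤ u) (hv0 : 0 ≤ v) (hN' : n ≤ 2 * u + v) (hUle' : u ≤ n)
    (hQ0 : 0 ≤ Qn) (hX0 : 0 ≤ X) (gen : u ^ 6 ≤ 2 ^ 18 * (u + Qn)) (hN3b : v ^ 6 ≤ C * X) :
    n ^ 6 ≤ 32 * (64 * 2 ^ 18 + C) * (n + Qn + X) := by
  have hn0 : 0 ≤ n := hu0.trans hUle'
  have e5 : n ^ 6 ≤ 32 * ((2 * u) ^ 6 + v ^ 6) := by
    calc n ^ 6 ≤ (2 * u + v) ^ 6 := pow_le_pow_left₀ hn0 hN' 6
      _ ≤ 2 ^ (6 - 1) * ((2 * u) ^ 6 + v ^ 6) := add_pow_le (by positivity) hv0 6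
      _ = _ := by norm_num
  have e6 : (2 * u) ^ 6 = 64 * u ^ 6 := by ring
  rw [e6] at e5
  have t1 : 0 ≤ C * (n + Qn) := by positivity
  have t2 : 0 ≤ (64 * 2 ^ 18 : ℝ) * X := by positivity
  have e8 : 32 * (64 * 2 ^ 18 + C) * (n + Qn + X) =
      32 * (64 * (2 ^ 18 * (n + Qn)) + C * X) + 32 * (C * (n + Qn)) + 32 * ((64 * 2 ^ 18 : ℝ) * X) := by ring
  rw [e8]
  linarith

theorem pw_dir : ∃ C : ℝ, 0 < C ∧ ∀ β ρ t₀ s d R : ℝ, Par β ρ t₀ s d → ρ / 2 ≤ R → R ≤ 4 * ρ → ∀ g, IsDir β ρ t₀ s d g →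
    64 * d ^ 2 * ρ < zz β g → ∀ c : ℝ × ℝ, ((near β R t₀ s d c).ncard : ℝ) ^ 6 ≤
      C * ((near β R t₀ s d c).ncard + (1 + ρ ^ (2 / 3 : ℝ) * s) ^ 2 * (quad β R t₀ s d c).ncard +
        (d * ρ) ^ 3 / zz β g ^ 6 *
          ∑' n : ℤ, ((1 + |R * tg β g ^ 2 - ((n : ℝ) - (c.1 * g.2 - c.2 * g.1)) / zz β g| / d) ^ 3)⁻¹) := by
  obtain ⟨C, hC, hline⟩ := line_count
  refine ⟨32 * (64 * 2 ^ 18 + C), by positivity, ?_⟩
  intro β ρ t₀ s d R h h1 h2 g hg hz c
  have hR : 0 < R := by have := h.hρ; linarith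
  have hρ := h.hρ
  have hs := h.hs
  have hd := h.hd
  have hz0 := hg.pos
  have hf := near_fin (β := β) hR t₀ s d c
  classical
  set S := hf.toFinset with hS
  have memS : ∀ m, m ∈ S ↔ m ∈ near β R t₀ s d c := fun m => by simp [hS]
  set key : ℤ × ℤ → ℤ := fun m => dd m g with hkey
  set K := S.image key with hK
  have hex : ∀ k ∈ K, ∃ m ∈ S, key m = k := fun k hk => by simpa [hK] using hk
  choose! f hfS hfk using hex
  set U := K.image f with hU
  have hinj : Set.InjOn f (K : Set ℤ) := by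
    intro k hk k' hk' he
    have e1 := hfk k (by simpa using hk)
    have e2 := hfk k' (by simpa using hk')
    rw [← e1, ← e2, he]
  have hcardU : U.card = K.card := Finset.card_image_of_injOn hinj
  have hUS : U ⊆ S := by
    intro m hm
    rw [hU, Finset.mem_image] at hm
    obtain ⟨k, hk, rfl⟩ := hm
    exact hfS k hk
  have hUle : U.card ≤ S.card := Finset.card_le_card hUS
  have hkeyU : ∀ m ∈ U, ∀ m' ∈ U, key m = key m' → m = m' := by
    intro m hm m' hm' he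
    rw [hU, Finset.mem_image] at hm hm'
    obtain ⟨k, hk, rfl⟩ := hm
    obtain ⟨k', hk', rfl⟩ := hm'
    rw [hfk k hk, hfk k' hk'] at he
    rw [he]
  have gen := gen6_47 h h1 h2 (c := c) U (fun m hm => (memS m).mp (hUS hm)) (by
    intro m hm m₁ hm₁ m₂ hm₂ h01 h02 h12 h0
    obtain ⟨g', hg', e1, -⟩ := col_dir h h1 h2 ((memS m).mp (hUS hm)) ((memS m₁).mp (hUS hm₁))
      ((memS m₂).mp (hUS hm₂)) h01 h02 h12 h0
    have e2 := dir_unique h hg hg'
    rw [← e2, dd_sub47, sub_eq_zero] at e1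
    exact h01 (hkeyU m₁ hm₁ m hm e1).symm)
  -- the fibres
  have hfib : ∀ k ∈ K, ({m ∈ near β R t₀ s d c | dd (m - f k) g = 0}.ncard) = (S.filter (fun m => key m = k)).card := by
    intro k hk
    rw [← Set.ncard_coe_finset]
    congr 1
    ext m
    simp only [Set.mem_ofPred_eq, Finset.coe_filter, memS, dd_sub47, sub_eq_zero]
    have := hfk k hk
    simp only [hkey] at this ⊢
    rw [this]
  have hsum : S.card = ∑ k ∈ K, (S.filter (fun m => key m = k)).card :=
    Finset.card_eq_sum_card_image key S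
  set T := ∑' n : ℤ, ((1 + |R * tg β g ^ 2 - ((n : ℝ) - (c.1 * g.2 - c.2 * g.1)) / zz β g| / d) ^ 3)⁻¹ with hT
  have hsm := summ47 (R * tg β g ^ 2) (c.1 * g.2 - c.2 * g.1) (zz β g) d hz0 hd
  have hT0 : 0 ≤ T := tsum_nonneg (fun n => by positivity)
  set N3 : ℕ := S.card - 2 * K.card with hN3
  have hN : S.card ≤ 2 * K.card + N3 := by omega
  have hN3b : ((N3 : ℕ) : ℝ) ^ 6 ≤ C * ((d * ρ) ^ 3 / zz β g ^ 6 * T) := by
    by_cases hb : ∃ k ∈ K, 3 ≤ (S.filter (fun m => key m = k)).card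
    · obtain ⟨k, hk, h3⟩ := hb
      have hoth : ∀ k' ∈ K, k' ≠ k → (S.filter (fun m => key m = k')).card ≤ 2 := by
        intro k' hk' hne
        by_contra hcon
        push Not at hcon
        have e := one_line h h1 h2 (c := c) (m₀ := f k) (m₁ := f k') hg hz (by rw [hfib k hk]; exact h3)
          (by rw [hfib k' hk']; omega)
        rw [dd_sub47, sub_eq_zero] at e
        have e1 := hfk k hk
        have e2 := hfk k' hk'
        simp only [hkey] at e1 e2
        rw [e1, e2] at e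
        exact hne e
      have hle : S.card ≤ (S.filter (fun m => key m = k)).card + 2 * (K.card - 1) := by
        rw [hsum, ← Finset.add_sum_erase K _ hk]
        have : ∑ k' ∈ K.erase k, (S.filter (fun m => key m = k')).card ≤ ∑ k' ∈ K.erase k, 2 :=
          Finset.sum_le_sum (fun k' hk' => hoth k' (Finset.mem_of_mem_erase hk') (Finset.ne_of_mem_erase hk'))
        rw [Finset.sum_const, Finset.card_erase_of_mem hk] at this
        simp only [smul_eq_mul] at this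
        omega
      have hN3le : N3 ≤ (S.filter (fun m => key m = k)).card := by omega
      obtain ⟨-, -, hc6⟩ := hline β ρ t₀ s d R h h1 h2 c g (f k) hg.cop hz0 (by rw [hfib k hk]; exact h3)
      rw [hfib k hk] at hc6
      have e3 : ((N3 : ℕ) : ℝ) ^ 6 ≤ ((S.filter (fun m => key m = k)).card : ℝ) ^ 6 :=
        pow_le_pow_left₀ (by positivity) (by exact_mod_cast hN3le) 6
      have e4 : ((1 + |th β R c g (f k)| / d) ^ 3)⁻¹ ≤ T :=
        hsm.le_tsum (dd (f k) g) (fun n _ => by positivity)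
      calc ((N3 : ℕ) : ℝ) ^ 6 ≤ _ := e3
        _ ≤ _ := hc6
        _ ≤ C * (d * ρ) ^ 3 / zz β g ^ 6 * T := by
            apply mul_le_mul_of_nonneg_left e4 (by positivity)
        _ = _ := by ring
    · push Not at hb
      have : S.card ≤ 2 * K.card := by
        rw [hsum]
        have : ∑ k ∈ K, (S.filter (fun m => key m = k)).card ≤ ∑ k ∈ K, 2 :=
          Finset.sum_le_sum (fun k hk => by have := hb k hk; omega)
        rw [Finset.sum_const] at this
        simp only [smul_eq_mul] at this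
        omega
      have : N3 = 0 := by omega
      rw [this]
      simp only [Nat.cast_zero, ne_eq, OfNat.ofNat_ne_zero, not_false_eq_true, zero_pow]
      positivity
  have hncard : (near β R t₀ s d c).ncard = S.card := Set.ncard_eq_toFinset_card _ hf
  rw [hncard]
  have hN' : (S.card : ℝ) ≤ 2 * (U.card : ℝ) + (N3 : ℝ) := by
    rw [hcardU]
    exact_mod_cast hN
  have hUle' : (U.card : ℝ) ≤ S.card := by exact_mod_cast hUle
  exact fin47 hC.le (by positivity) (by positivity) hN' hUle' (by positivity)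
    (mul_nonneg (by positivity) hT0) gen hN3b

end Pool.Agent.Helper92.GC
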