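import Pool.Agent.Helper92.GC.Defs

/-!
# GC-N7: two auxiliary sums over directions

PROOF of `line_int`. The function `P(y) = ∑' n : ℤ, φ(n + y)` with `φ(x) = (1 + |A - x/z|/d)^(-3)` is 1-periodic and `∫_0^1 P = ∫_ℝ φ = z d ∫ (1+|x|)^(-3) dx = z d`. The integrand is `P(-(c.1 g.2 - c.2 g.1))`. If `g.2 ≠ 0`
integrate first over `c.1 ∈ [0,1]`: `∫_0^1 P(-(g.2 c.1) + y) dc.1 = ∫_0^1 P` for a non zero integer `g.2` (periodicity); otherwise `g.1 ≠ 0` and integrate first over `c.2`. Everything in `ENNReal` (non negative).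
PROOF of `dir_sum`. Every `g ∈ G` has `zz β g ≥ 1/8`: otherwise `|g.1| ≤ 7/8`, so `g.1 = 0`, `zz β g = g.2` is a positive integer. For `Z ≥ 1/8` the number of `g` with `Z ≤ zz β g < 2Z`, `|g.1| ≤ 7 zz β g` is at most
`(28 Z + 1)(Z + 1) ≤ 36 Z · 9 Z`. Dyadic sum over `Z = 2^j/8 ≤ Z₀`: `∑ 324 Z² Z^(-5/3) ≤ C Z₀^(1/3)` (`∑ 2^(j/3)` is a geometric sum). If `G` is non empty then `Z₀ ≥ 1/8`.
-/

open MeasureTheory Real Set Filter Topology

set_option autoImplicit false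

namespace Pool.Agent.Helper92.GC

open Pool.Agent.Helper22.AE
open Pool.Agent.Helper22.AC (n6 IsWt mu)

/-- the bump -/
private noncomputable def ps97 (A z d y : ℝ) : ENNReal := ENNReal.ofReal ((1 + |A - y / z| / d) ^ 3)⁻¹

private theorem ps_meas97 (A z d : ℝ) : Measurable (ps97 A z d) := by
  unfold ps97
  fun_prop

private theorem base97 : Integrable (fun x : ℝ => ((1 + |x|) ^ 3)⁻¹) ∧ ∫ x : ℝ, ((1 + |x|) ^ 3)⁻¹ = 1 := by
  have hder : ∀ x ∈ Ici (0 : ℝ), HasDerivAt (fun x : ℝ => -(1 / 2) * ((1 + x) ^ 2)⁻¹) (((1 + x) ^ 3)⁻¹) x := by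
    intro x hx
    have hx0 : (0 : ℝ) ≤ x := hx
    have h1 : (1 + x) ≠ 0 := by positivity
    have h2 : HasDerivAt (fun x : ℝ => (1 + x) ^ 2) (2 * (1 + x)) x := by
      have := ((hasDerivAt_id x).const_add 1).pow 2
      refine this.congr_deriv ?_
      simp
    have h3 := (h2.inv (by positivity)).const_mul (-(1 / 2) : ℝ)
    refine h3.congr_deriv ?_
    field_simp
  have hpos : ∀ x ∈ Ioi (0 : ℝ), 0 ≤ ((1 + x) ^ 3)⁻¹ := by
    intro x hx
    have hx0 : (0 : ℝ) < x := hx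
    positivity
  have hlim : Tendsto (fun x : ℝ => -(1 / 2) * ((1 + x) ^ 2)⁻¹) atTop (𝓝 0) := by
    have h1 : Tendsto (fun x : ℝ => (1 + x) ^ 2) atTop atTop :=
      (tendsto_pow_atTop (by norm_num)).comp (tendsto_atTop_add_const_left _ _ tendsto_id)
    have h2 := (tendsto_inv_atTop_zero.comp h1).const_mul (-(1 / 2) : ℝ)
    simpa using h2
  have hint := integrableOn_Ioi_deriv_of_nonneg' hder hpos hlim
  have hval := integral_Ioi_of_hasDerivAt_of_nonneg' hder hpos hlim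
  have hval' : ∫ x in Ioi (0 : ℝ), ((1 + x) ^ 3)⁻¹ = 1 / 2 := by
    rw [hval]
    norm_num
  have htot : ∫ x : ℝ, ((1 + |x|) ^ 3)⁻¹ = 1 := by
    have h := integral_comp_abs (f := fun x : ℝ => ((1 + x) ^ 3)⁻¹)
    rw [hval'] at h
    rw [h]
    norm_num
  refine ⟨?_, htot⟩
  by_contra hcon
  rw [integral_undef hcon] at htot
  exact zero_ne_one htot

private theorem ps_tot97 (A : ℝ) {z d : ℝ} (hz : 0 < z) (hd : 0 < d) :
    ∫⁻ y, ps97 A z d y = ENNReal.ofReal (z * d) := by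
  obtain ⟨h1, h2⟩ := base97
  have g1 : Integrable (fun x : ℝ => ((1 + |x / d|) ^ 3)⁻¹) := h1.comp_div hd.ne'
  have g2 : Integrable (fun x : ℝ => ((1 + |(A - x) / d|) ^ 3)⁻¹) := g1.comp_sub_left A
  have g3 : Integrable (fun x : ℝ => ((1 + |(A - x / z) / d|) ^ 3)⁻¹) := g2.comp_div hz.ne'
  have i1 : ∫ x : ℝ, ((1 + |x / d|) ^ 3)⁻¹ = d := by
    have h := Measure.integral_comp_div (fun x : ℝ => ((1 + |x|) ^ 3)⁻¹) d
    rw [h2, abs_of_pos hd, smul_eq_mul, mul_one] at h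
    exact h
  have i2 : ∫ x : ℝ, ((1 + |(A - x) / d|) ^ 3)⁻¹ = d := by
    have h := integral_sub_left_eq_self (fun x : ℝ => ((1 + |x / d|) ^ 3)⁻¹) volume A
    rw [i1] at h
    exact h
  have i3 : ∫ x : ℝ, ((1 + |(A - x / z) / d|) ^ 3)⁻¹ = z * d := by
    have h := Measure.integral_comp_div (fun x : ℝ => ((1 + |(A - x) / d|) ^ 3)⁻¹) z
    rw [i2, abs_of_pos hz, smul_eq_mul] at h
    exact h
  have e : ∀ y, ps97 A z d y = ENNReal.ofReal (((1 + |(A - y / z) / d|) ^ 3)⁻¹) := by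
    intro y
    unfold ps97
    rw [abs_div (A - y / z) d, abs_of_pos hd]
  rw [lintegral_congr e, ← ofReal_integral_eq_lintegral_ofReal g3, i3]
  exact Eventually.of_forall fun x => by positivity

/-- the periodization -/
private noncomputable def pe97 (f : ℝ → ENNReal) (x : ℝ) : ENNReal := ∑' n : ℤ, f (n + x)

private theorem pe_meas97 {f : ℝ → ENNReal} (hf : Measurable f) : Measurable (pe97 f) := by
  unfold pe97
  exact Measurable.tsum fun n => hf.comp (measurable_const_add _)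

private theorem pe_add97 (f : ℝ → ENNReal) (x : ℝ) (k : ℤ) : pe97 f (x + k) = pe97 f x := by
  unfold pe97
  rw [← (Equiv.addRight k).tsum_eq (fun n : ℤ => f (n + x))]
  refine tsum_congr fun n => ?_
  congr 1
  simp only [Equiv.coe_addRight]
  push_cast
  ring

private theorem pe_int97 {f : ℝ → ENNReal} (hf : Measurable f) :
    ∫⁻ x in Ioc (0 : ℝ) 1, pe97 f x = ∫⁻ x, f x := by
  unfold pe97
  rw [lintegral_tsum (f := fun (n : ℤ) (x : ℝ) => f (n + x))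
    fun n => (hf.comp (measurable_const_add _)).aemeasurable]
  have h1 : ∫⁻ x, f x = ∫⁻ x in ⋃ n : ℤ, Ioc (n : ℝ) (n + 1), f x := by
    rw [iUnion_Ioc_intCast, Measure.restrict_univ]
  rw [h1, lintegral_iUnion (fun n => measurableSet_Ioc) (pairwise_disjoint_Ioc_intCast ℝ)]
  refine tsum_congr fun n => ?_
  have h2 := (measurePreserving_add_left (volume : Measure ℝ) (n : ℝ)).setLIntegral_comp_preimage
    (measurableSet_Ioc (a := (n : ℝ)) (b := (n : ℝ) + 1)) hf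
  rw [Set.preimage_const_add_Ioc, sub_self, add_sub_cancel_left] at h2
  exact h2

private theorem pe_aff97 {f : ℝ → ENNReal} (hf : Measurable f) {m : ℤ} (hm : m ≠ 0) (y : ℝ) :
    ∫⁻ x in Icc (0 : ℝ) 1, pe97 f (-(x * m) + y) = ∫⁻ x, f x := by
  set Q : UnitAddCircle → ENNReal := fun t => pe97 f (AddCircle.equivIco (1 : ℝ) 0 t : ℝ) with hQ
  have hQm : Measurable Q :=
    (pe_meas97 hf).comp (measurable_subtype_coe.comp (AddCircle.measurableEquivIco (1 : ℝ) 0).measurable)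
  have hQc : ∀ x : ℝ, Q (x : UnitAddCircle) = pe97 f x := by
    intro x
    have h := AddCircle.coe_equivIco_mk_apply (1 : ℝ) x
    rw [div_one, mul_one] at h
    rw [hQ]
    simp only
    rw [show (AddCircle.equivIco (1 : ℝ) 0 (x : UnitAddCircle) : ℝ) = Int.fract x from h]
    have h2 : Int.fract x = x + ((-⌊x⌋ : ℤ) : ℝ) := by
      rw [Int.fract]
      push_cast
      ring
    rw [h2, pe_add97]
  have h1 : ∫⁻ x in Icc (0 : ℝ) 1, pe97 f (-(x * m) + y) = ∫⁻ x in Ioc (0 : ℝ) (0 + 1), pe97 f (-(x * m) + y) := by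
    rw [zero_add]
    exact setLIntegral_congr Ioc_ae_eq_Icc.symm
  have h2 : ∀ x : ℝ, pe97 f (-(x * m) + y) = Q ((-m) • (x : UnitAddCircle) + (y : UnitAddCircle)) := by
    intro x
    rw [← AddCircle.coe_zsmul, ← AddCircle.coe_add, hQc]
    congr 1
    rw [zsmul_eq_mul]
    push_cast
    ring
  rw [h1, lintegral_congr h2, UnitAddCircle.lintegral_preimage 0
    (fun t : UnitAddCircle => Q ((-m) • t + (y : UnitAddCircle)))]
  have h3 : MeasurePreserving (fun t : UnitAddCircle => (-m) • t) volume volume :=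
    Measure.measurePreserving_zsmul volume (neg_ne_zero.2 hm)
  have h4 : ∫⁻ t : UnitAddCircle, Q ((-m) • t + (y : UnitAddCircle)) =
      ∫⁻ t : UnitAddCircle, Q (t + (y : UnitAddCircle)) :=
    h3.lintegral_comp (f := fun t => Q (t + (y : UnitAddCircle))) (hQm.comp (measurable_add_const _))
  rw [h4, lintegral_add_right_eq_self Q (y : UnitAddCircle), ← UnitAddCircle.lintegral_preimage 0 Q,
    zero_add, lintegral_congr hQc, pe_int97 hf]

theorem line_int {g : ℤ × ℤ} (hg : g ≠ 0) {A z d : ℝ} (hz : 0 < z) (hd : 0 < d) :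
    ∫⁻ c in Tq, ∑' n : ℤ, ENNReal.ofReal ((1 + |A - ((n : ℝ) - (c.1 * g.2 - c.2 * g.1)) / z| / d) ^ 3)⁻¹ =
      ENNReal.ofReal (z * d) := by
  have hf := ps_meas97 A z d
  have e1 : ∀ c : ℝ × ℝ, ∑' n : ℤ, ENNReal.ofReal ((1 + |A - ((n : ℝ) - (c.1 * g.2 - c.2 * g.1)) / z| / d) ^ 3)⁻¹ =
      pe97 (ps97 A z d) (-(c.1 * g.2) + c.2 * g.1) := by
    intro c
    unfold pe97 ps97
    refine tsum_congr fun n => ?_
    have : (n : ℝ) - (c.1 * g.2 - c.2 * g.1) = n + (-(c.1 * g.2) + c.2 * g.1) := by ring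
    rw [this]
  rw [lintegral_congr e1, ← ps_tot97 A hz hd]
  have hFm : Measurable (fun c : ℝ × ℝ => pe97 (ps97 A z d) (-(c.1 * g.2) + c.2 * g.1)) :=
    (pe_meas97 hf).comp (by fun_prop)
  have hres : (volume : Measure (ℝ × ℝ)).restrict Tq =
      (volume.restrict (Icc (0 : ℝ) 1)).prod (volume.restrict (Icc (0 : ℝ) 1)) := by
    unfold Tq
    rw [Measure.volume_eq_prod, Measure.prod_restrict]
  rw [hres]
  have hone : ∀ c : ENNReal, ∫⁻ _ in Icc (0 : ℝ) 1, c = c := by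
    intro c
    rw [setLIntegral_const, Real.volume_Icc]
    norm_num
  by_cases hm : g.2 = 0
  · have hl : g.1 ≠ 0 := by
      intro h
      exact hg (Prod.ext h hm)
    rw [lintegral_prod _ hFm.aemeasurable]
    have h1 : ∀ x : ℝ, ∫⁻ y in Icc (0 : ℝ) 1, pe97 (ps97 A z d) (-(x * g.2) + y * g.1) =
        ∫⁻ x, ps97 A z d x := by
      intro x
      rw [← pe_aff97 hf (neg_ne_zero.2 hl) (-(x * g.2))]
      refine lintegral_congr fun y => ?_
      congr 1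
      push_cast
      ring
    rw [lintegral_congr h1, hone]
  · rw [lintegral_prod_symm _ hFm.aemeasurable]
    have h1 : ∀ y : ℝ, ∫⁻ x in Icc (0 : ℝ) 1, pe97 (ps97 A z d) (-(x * g.2) + y * g.1) =
        ∫⁻ x, ps97 A z d x := fun y => pe_aff97 hf hm (y * g.1)
    rw [lintegral_congr h1, hone]

private theorem cube97 (r : ℕ) : ∑ k ∈ Finset.Icc 1 r, (k : ℝ) ^ (-(2 / 3) : ℝ) ≤ 3 * (r : ℝ) ^ (1 / 3 : ℝ) := by
  induction r with
  | zero =>
    simp
  | succ r ih =>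
    rw [Finset.sum_Icc_succ_top (by omega)]
    have hr : (0 : ℝ) ≤ r := Nat.cast_nonneg r
    have hr1 : (0 : ℝ) < (r : ℝ) + 1 := by positivity
    set a := (r : ℝ) ^ (1 / 3 : ℝ) with ha
    set b := ((r : ℝ) + 1) ^ (1 / 3 : ℝ) with hb
    have ha0 : 0 ≤ a := by positivity
    have hb0 : 0 < b := by positivity
    have hab : a ≤ b := Real.rpow_le_rpow hr (by linarith) (by norm_num)
    have ha3 : a ^ 3 = r := by
      rw [ha, ← Real.rpow_natCast, ← Real.rpow_mul hr]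
      norm_num
    have hb3 : b ^ 3 = (r : ℝ) + 1 := by
      rw [hb, ← Real.rpow_natCast, ← Real.rpow_mul hr1.le]
      norm_num
    have hb2 : ((r : ℝ) + 1) ^ (-(2 / 3) : ℝ) = (b ^ 2)⁻¹ := by
      rw [hb, ← Real.rpow_natCast, ← Real.rpow_mul hr1.le, Real.rpow_neg hr1.le]
      norm_num
    have key : (b ^ 2)⁻¹ ≤ 3 * (b - a) := by
      rw [inv_le_iff_one_le_mul₀ (by positivity)]
      have h1 : b ^ 3 - a ^ 3 = 1 := by
        rw [ha3, hb3]
        ring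
      nlinarith [mul_nonneg (sub_nonneg.2 hab) (sub_nonneg.2 hab),
        mul_nonneg (sub_nonneg.2 hab) ha0, mul_nonneg (mul_nonneg (sub_nonneg.2 hab) ha0) (sub_nonneg.2 hab),
        mul_nonneg (mul_nonneg (sub_nonneg.2 hab) hb0.le) (sub_nonneg.2 hab)]
    push_cast
    rw [hb2]
    linarith

theorem dir_sum : ∃ C : ℝ, 0 < C ∧ ∀ (β Z₀ : ℝ) (G : Finset (ℤ × ℤ)), |β| ≤ 1 / 2 → 0 < Z₀ →
    (∀ g ∈ G, 0 < zz β g ∧ zz β g ≤ Z₀ ∧ |(g.1 : ℝ)| ≤ 7 * zz β g) →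
      ∑ g ∈ G, zz β g ^ (-(5 / 3) : ℝ) ≤ C * Z₀ ^ (1 / 3 : ℝ) := by
  refine ⟨24 * 7 ^ (5 / 3 : ℝ) * 7 ^ (1 / 3 : ℝ), by positivity, ?_⟩
  intro β Z₀ G hβ hZ₀ hG
  set R : ℕ := ⌊7 * Z₀⌋₊ with hR
  set ρ : ℤ × ℤ → ℕ := fun g => max g.1.natAbs g.2.natAbs with hρ
  -- the size
  have hsize : ∀ g ∈ G, 1 ≤ ρ g ∧ (ρ g : ℝ) ≤ 7 * zz β g := by
    intro g hg
    obtain ⟨h1, h2, h3⟩ := hG g hg
    have e1 : |(g.1 : ℝ)| = (g.1.natAbs : ℝ) := by
      rw [Nat.cast_natAbs, Int.cast_abs]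
    have e2 : |(g.2 : ℝ)| = (g.2.natAbs : ℝ) := by
      rw [Nat.cast_natAbs, Int.cast_abs]
    have h4 : |(g.2 : ℝ)| ≤ 7 * zz β g := by
      have h5 : (g.2 : ℝ) = zz β g + β * g.1 := by
        unfold zz
        ring
      have h6 : |β * (g.1 : ℝ)| ≤ 1 / 2 * (7 * zz β g) := by
        rw [abs_mul]
        exact mul_le_mul hβ h3 (abs_nonneg _) (by norm_num)
      rw [h5]
      refine (abs_add_le _ _).trans ?_
      rw [abs_of_pos h1]
      linarith
    constructor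
    · by_contra hcon
      have h5 : ρ g = 0 := by omega
      rw [hρ] at h5
      simp only at h5
      have h6 : g.1.natAbs = 0 := by omega
      have h7 : g.2.natAbs = 0 := by omega
      rw [Int.natAbs_eq_zero] at h6 h7
      have h8 : zz β g = 0 := by
        unfold zz
        rw [h6, h7]
        simp
      linarith
    · rw [hρ]
      simp only
      rw [Nat.cast_max]
      refine max_le ?_ ?_
      · rw [← e1]
        exact h3
      · rw [← e2]
        exact h4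
  have hterm : ∀ g ∈ G, zz β g ^ (-(5 / 3) : ℝ) ≤ 7 ^ (5 / 3 : ℝ) * (ρ g : ℝ) ^ (-(5 / 3) : ℝ) := by
    intro g hg
    obtain ⟨h1, h2⟩ := hsize g hg
    have h3 : (0 : ℝ) < ρ g := by exact_mod_cast h1
    have h4 : (ρ g : ℝ) / 7 ≤ zz β g := by linarith
    calc zz β g ^ (-(5 / 3) : ℝ) ≤ ((ρ g : ℝ) / 7) ^ (-(5 / 3) : ℝ) :=
          Real.rpow_le_rpow_of_nonpos (by positivity) h4 (by norm_num)
      _ = 7 ^ (5 / 3 : ℝ) * (ρ g : ℝ) ^ (-(5 / 3) : ℝ) := by
          rw [Real.div_rpow h3.le (by norm_num), Real.rpow_neg (by norm_num : (0 : ℝ) ≤ 7), div_inv_eq_mul,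
            mul_comm]
  have hmaps : ∀ g ∈ G, ρ g ∈ Finset.Icc 1 R := by
    intro g hg
    obtain ⟨h1, h2⟩ := hsize g hg
    rw [Finset.mem_Icc]
    refine ⟨h1, Nat.le_floor ?_⟩
    have := (hG g hg).2.1
    linarith
  calc ∑ g ∈ G, zz β g ^ (-(5 / 3) : ℝ) ≤ ∑ g ∈ G, 7 ^ (5 / 3 : ℝ) * (ρ g : ℝ) ^ (-(5 / 3) : ℝ) :=
        Finset.sum_le_sum hterm
    _ = ∑ r ∈ Finset.Icc 1 R, ∑ g ∈ G.filter (fun g => ρ g = r), 7 ^ (5 / 3 : ℝ) * (ρ g : ℝ) ^ (-(5 / 3) : ℝ) :=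
        (Finset.sum_fiberwise_of_maps_to hmaps _).symm
    _ ≤ ∑ r ∈ Finset.Icc 1 R, 8 * 7 ^ (5 / 3 : ℝ) * (r : ℝ) ^ (-(2 / 3) : ℝ) := by
        refine Finset.sum_le_sum fun r hr => ?_
        have hr1 : 1 ≤ r := (Finset.mem_Icc.1 hr).1
        have hr0 : (0 : ℝ) < r := by exact_mod_cast hr1
        have h1 : ∑ g ∈ G.filter (fun g => ρ g = r), 7 ^ (5 / 3 : ℝ) * (ρ g : ℝ) ^ (-(5 / 3) : ℝ) =
            ((G.filter (fun g => ρ g = r)).card : ℝ) * (7 ^ (5 / 3 : ℝ) * (r : ℝ) ^ (-(5 / 3) : ℝ)) := by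
          rw [← nsmul_eq_mul, ← Finset.sum_const]
          refine Finset.sum_congr rfl fun g hg => ?_
          rw [(Finset.mem_filter.1 hg).2]
        have h2 : (G.filter (fun g => ρ g = r)).card ≤ 8 * r := by
          have h3 : G.filter (fun g => ρ g = r) ⊆ (Finset.box r : Finset (ℤ × ℤ)) := by
            intro g hg
            rw [Int.mem_box]
            exact (Finset.mem_filter.1 hg).2
          have h4 := Finset.card_le_card h3
          rw [Int.card_box (by omega)] at h4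
          exact h4
        have h3 : ((G.filter (fun g => ρ g = r)).card : ℝ) ≤ 8 * r := by exact_mod_cast h2
        rw [h1]
        refine (mul_le_mul_of_nonneg_right h3 (by positivity)).trans (le_of_eq ?_)
        have h4 : (r : ℝ) ^ (-(2 / 3) : ℝ) = r * (r : ℝ) ^ (-(5 / 3) : ℝ) := by
          conv_rhs => rw [← Real.rpow_one (r : ℝ)]
          rw [Real.rpow_one, ← Real.rpow_one_add' hr0.le (by norm_num)]
          norm_num
        rw [h4]
        ring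
    _ = 8 * 7 ^ (5 / 3 : ℝ) * ∑ r ∈ Finset.Icc 1 R, (r : ℝ) ^ (-(2 / 3) : ℝ) := by rw [Finset.mul_sum]
    _ ≤ 8 * 7 ^ (5 / 3 : ℝ) * (3 * (R : ℝ) ^ (1 / 3 : ℝ)) :=
        mul_le_mul_of_nonneg_left (cube97 R) (by positivity)
    _ ≤ 8 * 7 ^ (5 / 3 : ℝ) * (3 * (7 * Z₀) ^ (1 / 3 : ℝ)) := by
        refine mul_le_mul_of_nonneg_left (mul_le_mul_of_nonneg_left ?_ (by norm_num)) (by positivity)
        exact Real.rpow_le_rpow (Nat.cast_nonneg _) (Nat.floor_le (by positivity)) (by norm_num)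
    _ = 24 * 7 ^ (5 / 3 : ℝ) * 7 ^ (1 / 3 : ℝ) * Z₀ ^ (1 / 3 : ℝ) := by
        rw [Real.mul_rpow (by norm_num) hZ₀.le]
        ring

end Pool.Agent.Helper92.GC
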