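import Pool.Agent.Helper92.GC.E1

/-!
# GC-E2: the sectors of small denominator

PROOF. For `k ∈ W` with `IsNd Q k n`, `n = (q, a)`, `q ≤ P`, `q ≤ Q` (`nd_range`), `0 ≤ a ≤ q`, coprime (`nd_coprime`): put `j = dd n k = q k.2 - a k.1`, `|j| ≤ k.1/Q ≤ 2K/Q`.
Given `n` and `j` the first coordinate `k.1 ∈ [K, 2K)` lies in a fixed residue class modulo `q` (`a k.1 ≡ -j`, `gcd(a, q) = 1`), so there are at most `K/q + 1 ≤ 2K/q` values
(`q ≤ Q ≤ K`), and `k.2` is determined by `k.1`. So at most `(4K/Q + 1)(2K/q) ≤ 10 K²/(Q q)` elements for every `n`, and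
`∑_{q ≤ P} ∑_{a ≤ q} 10 K²/(Q q) ≤ ∑_{q ≤ P} 20 K²/Q ≤ 20 K² P/Q`.
-/

open MeasureTheory Real Set Filter Topology

set_option autoImplicit false

namespace Pool.Agent.Helper92.GC

open Pool.Agent.Helper22.AE
open Pool.Agent.Helper22.AC (n6 IsWt mu)

open Classical in
private lemma card_sq65 (K Q : ℕ) (q a : ℕ) (hQ : 3 ≤ Q) (hQK : Q ≤ K) (hq : 1 ≤ q) (hqQ : q ≤ Q)
    (W : Finset (ℤ × ℤ)) (hW : ∀ k ∈ W, (K : ℤ) ≤ k.1 ∧ k.1 < 2 * K) :
    (((W.filter (fun k => IsCoprime (q : ℤ) (a : ℤ) ∧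
      |dd ((q : ℤ), (a : ℤ)) k| * Q ≤ k.1)).card : ℕ) : ℝ) ≤ 15 * (K : ℝ) ^ 2 / (Q * q) := by
  have hq0 : (0 : ℤ) < q := by exact_mod_cast hq
  have hQ0 : (0 : ℤ) < Q := by exact_mod_cast (by omega : 0 < Q)
  have h1 : (W.filter (fun k => IsCoprime (q : ℤ) (a : ℤ) ∧
      |dd ((q : ℤ), (a : ℤ)) k| * Q ≤ k.1)).card ≤
      ((Finset.Icc (-((2 * K / Q : ℕ) : ℤ)) ((2 * K / Q : ℕ) : ℤ)) ×ˢ
        (Finset.Icc (0 : ℤ) ((K / q + 1 : ℕ) : ℤ))).card := by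
    apply Finset.card_le_card_of_injOn (fun k => (dd ((q : ℤ), (a : ℤ)) k, k.1 / q - (K : ℤ) / q))
    · intro k hk
      rw [Finset.mem_coe, Finset.mem_filter] at hk
      obtain ⟨hkW, -, hk2⟩ := hk
      obtain ⟨hk3, hk4⟩ := hW k hkW
      rw [Finset.mem_coe, Finset.mem_product, Finset.mem_Icc, Finset.mem_Icc]
      have h2 : |dd ((q : ℤ), (a : ℤ)) k| ≤ ((2 * K / Q : ℕ) : ℤ) := by
        push_cast
        rw [Int.le_ediv_iff_mul_le hQ0]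
        linarith
      refine ⟨abs_le.1 h2, ?_, ?_⟩
      · have := Int.ediv_le_ediv hq0 hk3
        simp only
        linarith
      · have h5 : k.1 / (q : ℤ) < 2 * ((K : ℤ) / q) + 2 := by
          rw [Int.ediv_lt_iff_lt_mul hq0]
          have h6 : (K : ℤ) < ((K : ℤ) / q + 1) * q := Int.lt_ediv_add_one_mul_self _ hq0
          linarith
        simp only
        push_cast
        linarith
    · intro k hk k' hk' hkk
      rw [Finset.mem_coe, Finset.mem_filter] at hk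
      obtain ⟨-, hcop, -⟩ := hk
      simp only [Prod.mk.injEq, dd] at hkk
      obtain ⟨e1, e2⟩ := hkk
      have e3 : k.1 / (q : ℤ) = k'.1 / q := by linarith
      have e4 : (q : ℤ) ∣ a * (k.1 - k'.1) := ⟨k.2 - k'.2, by linarith⟩
      have e5 : (q : ℤ) ∣ k.1 - k'.1 := hcop.dvd_of_dvd_mul_left e4
      have e6 : k.1 % (q : ℤ) = k'.1 % q := Int.emod_eq_emod_iff_emod_sub_eq_zero.2
        (Int.emod_eq_zero_of_dvd e5)
      have e7 : k.1 = k'.1 := by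
        rw [← Int.mul_ediv_add_emod k.1 q, ← Int.mul_ediv_add_emod k'.1 q, e3, e6]
      have e8 : (q : ℤ) * k.2 = q * k'.2 := by
        rw [e7] at e1
        linarith
      exact Prod.ext e7 (mul_left_cancel₀ hq0.ne' e8)
  rw [Finset.card_product, Int.card_Icc, Int.card_Icc] at h1
  have hq0' : (0 : ℝ) < q := by exact_mod_cast hq
  have hQ0' : (0 : ℝ) < Q := by exact_mod_cast (by omega : 0 < Q)
  have hK0' : (0 : ℝ) < K := by exact_mod_cast (by omega : 0 < K)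
  have h3 : (((((2 * K / Q : ℕ) : ℤ) + 1 - -((2 * K / Q : ℕ) : ℤ)).toNat : ℕ) : ℝ) ≤ 5 * K / Q := by
    have h4 : (((2 * K / Q : ℕ) : ℤ) + 1 - -((2 * K / Q : ℕ) : ℤ)).toNat = 2 * (2 * K / Q) + 1 := by
      generalize 2 * K / Q = t
      omega
    rw [h4]
    push_cast
    have h5 : ((2 * K / Q : ℕ) : ℝ) ≤ 2 * K / Q := by
      have := Nat.cast_div_le (α := ℝ) (m := 2 * K) (n := Q)
      push_cast at this
      exact this
    have h6 : (1 : ℝ) ≤ K / Q := by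
      rw [le_div_iff₀ hQ0', one_mul]
      exact_mod_cast hQK
    have h7 : 5 * (K : ℝ) / Q = 2 * (2 * K / Q) + K / Q := by ring
    rw [h7]
    linarith
  have h4 : (((((K / q + 1 : ℕ) : ℤ) + 1 - 0).toNat : ℕ) : ℝ) ≤ 3 * K / q := by
    have h4 : (((K / q + 1 : ℕ) : ℤ) + 1 - 0).toNat = K / q + 2 := by
      generalize K / q = t
      omega
    rw [h4]
    push_cast
    have h5 : ((K / q : ℕ) : ℝ) ≤ K / q := Nat.cast_div_le
    have h6 : (1 : ℝ) ≤ K / q := by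
      rw [le_div_iff₀ hq0', one_mul]
      exact_mod_cast hqQ.trans hQK
    have h7 : 3 * (K : ℝ) / q = K / q + 2 * (K / q) := by ring
    rw [h7]
    linarith
  have h5 : (((W.filter (fun k => IsCoprime (q : ℤ) (a : ℤ) ∧
      |dd ((q : ℤ), (a : ℤ)) k| * Q ≤ k.1)).card : ℕ) : ℝ) ≤
      (((((2 * K / Q : ℕ) : ℤ) + 1 - -((2 * K / Q : ℕ) : ℤ)).toNat : ℕ) : ℝ) *
      (((((K / q + 1 : ℕ) : ℤ) + 1 - 0).toNat : ℕ) : ℝ) := by exact_mod_cast h1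
  refine h5.trans ((mul_le_mul h3 h4 (Nat.cast_nonneg _) (by positivity)).trans (le_of_eq ?_))
  field_simp
  ring

theorem small_q : ∃ C : ℝ, 0 < C ∧ ∀ (K Q : ℕ) (P : ℝ), 3 ≤ Q → Q ≤ K → 1 ≤ P → ∀ W : Finset (ℤ × ℤ),
    (∀ k ∈ W, (K : ℤ) ≤ k.1 ∧ k.1 < 2 * K ∧ 0 ≤ k.2 ∧ k.2 ≤ k.1 ∧ ∃ n, IsNd Q k n ∧ (n.1 : ℝ) ≤ P) →
      (W.card : ℝ) ≤ C * (K : ℝ) ^ 2 * P / Q := by
  classical
  refine ⟨30, by norm_num, fun K Q P hQ hQK hP W hW => ?_⟩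
  obtain ⟨N, hN⟩ : ∃ N : ℕ, N = min ⌊P⌋₊ Q := ⟨_, rfl⟩
  obtain ⟨S, hS⟩ : ∃ S : ℕ → ℕ → Finset (ℤ × ℤ), ∀ q a, S q a =
      W.filter (fun k => IsCoprime (q : ℤ) (a : ℤ) ∧ |dd ((q : ℤ), (a : ℤ)) k| * Q ≤ k.1) :=
    ⟨_, fun _ _ => rfl⟩
  have hsub : W ⊆ (Finset.Icc 1 N).biUnion (fun q => (Finset.range (q + 1)).biUnion (S q)) := by
    intro k hk
    obtain ⟨h1, h2, h3, h4, n, hn, hnP⟩ := hW k hk
    have hk1 : 1 ≤ k.1 := by
      have : (3 : ℤ) ≤ K := by exact_mod_cast hQ.trans hQK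
      linarith
    obtain ⟨r1, r2, r3⟩ := nd_range hQ hk1 h3 h4 hn
    have hcop := nd_coprime hn
    have hn1 := hn.1
    obtain ⟨q, hq⟩ : ∃ q : ℕ, (q : ℤ) = n.1 := ⟨n.1.toNat, Int.toNat_of_nonneg (by linarith)⟩
    obtain ⟨a, ha⟩ : ∃ a : ℕ, (a : ℤ) = n.2 := ⟨n.2.toNat, Int.toNat_of_nonneg r1⟩
    rw [Finset.mem_biUnion]
    refine ⟨q, ?_, ?_⟩
    · rw [Finset.mem_Icc, hN, le_min_iff]
      refine ⟨by omega, ?_, by omega⟩
      apply Nat.le_floor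
      have : ((q : ℤ) : ℝ) ≤ P := by rw [hq]; exact hnP
      exact_mod_cast this
    · rw [Finset.mem_biUnion]
      refine ⟨a, Finset.mem_range.2 (by omega), ?_⟩
      rw [hS, Finset.mem_filter, hq, ha]
      exact ⟨hk, hcop, hn.2.1⟩
  have h1 : (W.card : ℝ) ≤ ∑ q ∈ Finset.Icc 1 N, ∑ a ∈ Finset.range (q + 1), ((S q a).card : ℝ) := by
    have h2 : W.card ≤ ∑ q ∈ Finset.Icc 1 N, ∑ a ∈ Finset.range (q + 1), (S q a).card :=
      (Finset.card_le_card hsub).trans (Finset.card_biUnion_le.trans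
        (Finset.sum_le_sum fun q _ => Finset.card_biUnion_le))
    exact_mod_cast h2
  have hQ0' : (0 : ℝ) < Q := by exact_mod_cast (by omega : 0 < Q)
  have h2 : ∑ q ∈ Finset.Icc 1 N, ∑ a ∈ Finset.range (q + 1), ((S q a).card : ℝ) ≤
      ∑ q ∈ Finset.Icc 1 N, 30 * (K : ℝ) ^ 2 / Q := by
    apply Finset.sum_le_sum
    intro q hq
    rw [Finset.mem_Icc, hN, le_min_iff] at hq
    have hq0' : (1 : ℝ) ≤ q := by exact_mod_cast hq.1
    have h3 : ∑ a ∈ Finset.range (q + 1), ((S q a).card : ℝ) ≤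
        ∑ a ∈ Finset.range (q + 1), 15 * (K : ℝ) ^ 2 / (Q * q) := by
      apply Finset.sum_le_sum
      intro a _
      rw [hS]
      exact card_sq65 K Q q a hQ hQK hq.1 hq.2.2 W (fun k hk => ⟨(hW k hk).1, (hW k hk).2.1⟩)
    refine h3.trans ?_
    rw [Finset.sum_const, Finset.card_range, nsmul_eq_mul]
    push_cast
    rw [← mul_div_assoc, div_le_div_iff₀ (by positivity) hQ0']
    have h4 : (0 : ℝ) ≤ 15 * (K : ℝ) ^ 2 * Q := by positivity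
    nlinarith
  refine h1.trans (h2.trans ?_)
  rw [Finset.sum_const, Nat.card_Icc, nsmul_eq_mul]
  have h3 : ((N + 1 - 1 : ℕ) : ℝ) ≤ P := by
    have h4 : N + 1 - 1 ≤ ⌊P⌋₊ := by
      rw [hN]
      simp
    have h5 : ((N + 1 - 1 : ℕ) : ℝ) ≤ (⌊P⌋₊ : ℝ) := by exact_mod_cast h4
    exact h5.trans (Nat.floor_le (by linarith))
  have h4 : ((N + 1 - 1 : ℕ) : ℝ) * (30 * (K : ℝ) ^ 2 / Q) ≤ P * (30 * (K : ℝ) ^ 2 / Q) :=
    mul_le_mul_of_nonneg_right h3 (by positivity)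
  refine h4.trans (le_of_eq ?_)
  ring

end Pool.Agent.Helper92.GC
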