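import Pool.Agent.Helper92.GC.G2
import Pool.Agent.Helper92.GC.E2

/-!
# GC-G3: the sum over a sector

PROOF. `H = K A/Q`, `T = K/Q ≥ 1`. Let `S = {p | lc n p ∈ sec K Q n}` (finite, `lc n` is a bijection; `S = (sec K Q n).image` of the inverse), so
`bs (sec K Q n) K i R c = ∑_{p ∈ S} (K/nk (lc n p))^i ee (R nk (lc n p)) ee (dt (lc n p) c)` and `dt (lc n p) c = dt p c'` with `c' = (dt n c, dt (cmp n) c)`: it is
`tp S a c'` with `a p = (K/nk)^i ee (R nk (lc n p))`. If `S` is empty the claim is trivial. By `nik`, `‖·‖^6 ≤ card (S3 S) · m6 S a`. By `sec_coord` the elements of `S` satisfy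
`|p.2| ≤ 2T`, `H/2 ≤ u ≤ 6H`, `|p.1| = |u - bt n p.2| ≤ 6H + T ≤ 7H`; so `S3 S ⊆ {|j| ≤ 6T, |h| ≤ 21 H}` has at most `(12 T + 1)(42 H + 1) ≤ 13·43 T H` elements; `T H = K²A/Q²`.
`m6 S a`: by `local_const`, `weight_mul`, `mul_comp`, `m6_shift`: `m6 S a ≤ C m6 S (fun p => ee (R' ph b p))` .
Finally `S = (reg b H).filter (four conditions)`: (i) `S ⊆ reg b H`: `|b - bt n| ≤ 1/(QA)`, so `|uu b p - u| ≤ 2T/(QA) ≤ H/4`, `uu b p ∈ [H/4, 8H]`, `|p.2| = |t| u ≤ 2u ≤ 5 uu b p`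
(`u ≤ (4/3) uu b p`), and `|p.1|, |p.2| ≤ 40 H`. (ii) let `s₋`, `s₊` be the least and the largest slope `k.2/k.1` of the elements `k` of `sec K Q n`. Then
`k ∈ sec K Q n ↔ K ≤ k.1 ∧ k.1 < 2K ∧ s₋ k.1 ≤ k.2 ∧ k.2 ≤ s₊ k.1` (`nd_convex`, `0 ≤ s₋`, `s₊ ≤ 1`). For `k = lc n p` these are four half planes in `p` (`riesz_half`, `mul_half`,
with `K ≤ k.1`, `k.1 ≤ 2K - 1`; linear in `p`), so `m6 S a' ≤ 14^24 m6 (reg b H) a'` for `a' p = ee (R' ph b p)`.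
-/

open MeasureTheory Real Set Filter Topology

set_option autoImplicit false

namespace Pool.Agent.Helper92.GC

open Pool.Agent.Helper22.AE
open Pool.Agent.Helper22.AC (n6 IsWt mu)

open Classical in
/-- the octant `K ≤ k₁ < 2K`, `0 ≤ k₂ ≤ k₁` -/
noncomputable def oct (K : ℕ) : Finset (ℤ × ℤ) :=
  (box (2 * K)).filter (fun k => (K : ℤ) ≤ k.1 ∧ k.1 < 2 * K ∧ 0 ≤ k.2 ∧ k.2 ≤ k.1)

open Classical in
/-- the sector of `n` -/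
noncomputable def sec (K Q : ℕ) (n : ℤ × ℤ) : Finset (ℤ × ℤ) := (oct K).filter (fun k => IsNd Q k n)

/-- the weighted exponential sum over `S` -/
noncomputable def bs (S : Finset (ℤ × ℤ)) (K i : ℕ) (R : ℝ) (c : ℝ × ℝ) : ℂ :=
  ∑ k ∈ S, (((K : ℝ) / nk k : ℝ) : ℂ) ^ i * ee (R * nk k + dt k c)

private lemma bs_tp63 {n : ℤ × ℤ} (h : IsCoprime n.1 n.2) (W : Finset (ℤ × ℤ)) (K i : ℕ) (R : ℝ) (c : ℝ × ℝ) :
    bs W K i R c = tp (W.preimage (lc n) (lc_inj h).injOn)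
      (fun p => (((K : ℝ) / nk (lc n p) : ℝ) : ℂ) ^ i * ee (R * nk (lc n p))) (dt n c, dt (cmp n) c) := by
  have hb : Set.BijOn (lc n) (lc n ⁻¹' ↑W) ↑W := by
    refine ⟨fun x hx => hx, (lc_inj h).injOn, ?_⟩
    intro y hy
    obtain ⟨x, hx⟩ := lc_surj h y
    refine ⟨x, ?_, hx⟩
    simp only [Set.mem_preimage, hx]
    exact hy
  unfold bs tp
  rw [← Finset.sum_preimage_of_bij (lc n) W hb]
  refine Finset.sum_congr rfl ?_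
  intro p _
  rw [ee_add, ← mul_assoc]
  congr 2
  simp only [dt, lc]
  push_cast
  ring

private lemma s3_card63 {S : Finset (ℤ × ℤ)} {X Y : ℝ} (hX : 1 ≤ X) (hY : 1 ≤ Y)
    (h : ∀ p ∈ S, |(p.1 : ℝ)| ≤ X ∧ |(p.2 : ℝ)| ≤ Y) : ((S3 S).card : ℝ) ≤ 49 * (X * Y) := by
  have key : ∀ (Z : ℝ) (a b c : ℤ), |(a : ℝ)| ≤ Z → |(b : ℝ)| ≤ Z → |(c : ℝ)| ≤ Z →
      a + b + c ∈ Finset.Icc (-⌊3 * Z⌋) ⌊3 * Z⌋ := by
    intro Z a b c ha hb hc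
    rw [abs_le] at ha hb hc
    rw [Finset.mem_Icc]
    constructor
    · rw [neg_le, Int.le_floor]
      push_cast
      linarith [ha.1, hb.1, hc.1]
    · rw [Int.le_floor]
      push_cast
      linarith [ha.2, hb.2, hc.2]
  have hsub : S3 S ⊆ Finset.Icc (-⌊3 * X⌋) ⌊3 * X⌋ ×ˢ Finset.Icc (-⌊3 * Y⌋) ⌊3 * Y⌋ := by
    intro l hl
    unfold S3 at hl
    rw [Finset.mem_image] at hl
    obtain ⟨k, hk, rfl⟩ := hl
    rw [Finset.mem_product, Finset.mem_product] at hk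
    obtain ⟨hk1, hk2, hk3⟩ := hk
    rw [Finset.mem_product]
    exact ⟨key X _ _ _ (h _ hk1).1 (h _ hk2).1 (h _ hk3).1, key Y _ _ _ (h _ hk1).2 (h _ hk2).2 (h _ hk3).2⟩
  have hcard : ∀ Z : ℝ, 1 ≤ Z → ((Finset.Icc (-⌊3 * Z⌋) ⌊3 * Z⌋).card : ℝ) ≤ 7 * Z := by
    intro Z hZ
    rw [Int.card_Icc]
    have h0 : 0 ≤ ⌊3 * Z⌋ := Int.floor_nonneg.mpr (by linarith)
    have h1 : ((⌊3 * Z⌋ + 1 - -⌊3 * Z⌋).toNat : ℤ) = ⌊3 * Z⌋ + 1 - -⌊3 * Z⌋ := Int.toNat_of_nonneg (by linarith)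
    have h2 : (((⌊3 * Z⌋ + 1 - -⌊3 * Z⌋).toNat : ℤ) : ℝ) = ((⌊3 * Z⌋ + 1 - -⌊3 * Z⌋ : ℤ) : ℝ) := by rw [h1]
    have h3 := Int.floor_le (3 * Z)
    have h4 : (((⌊3 * Z⌋ + 1 - -⌊3 * Z⌋).toNat : ℕ) : ℝ) = 2 * (⌊3 * Z⌋ : ℝ) + 1 := by
      have h5 : (((⌊3 * Z⌋ + 1 - -⌊3 * Z⌋).toNat : ℕ) : ℝ) = (((⌊3 * Z⌋ + 1 - -⌊3 * Z⌋).toNat : ℤ) : ℝ) := by
        push_cast
        rfl
      rw [h5, h2]
      push_cast
      ring
    rw [h4]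
    linarith
  have h1 := Finset.card_le_card hsub
  rw [Finset.card_product] at h1
  have h2 : ((S3 S).card : ℝ) ≤ ((Finset.Icc (-⌊3 * X⌋) ⌊3 * X⌋).card : ℝ) * ((Finset.Icc (-⌊3 * Y⌋) ⌊3 * Y⌋).card : ℝ) := by
    exact_mod_cast h1
  have h3 := mul_le_mul (hcard X hX) (hcard Y hY) (Nat.cast_nonneg _) (by linarith)
  linarith

private lemma half4_63 {S S' : Finset (ℤ × ℤ)} {x₁ y₁ z₁ x₂ y₂ z₂ x₃ y₃ z₃ x₄ y₄ z₄ : ℝ}
    (h : ∀ p : ℤ × ℤ, p ∈ S' ↔ p ∈ S ∧ z₁ ≤ x₁ * (p.1 : ℝ) + y₁ * (p.2 : ℝ) ∧ z₂ ≤ x₂ * (p.1 : ℝ) + y₂ * (p.2 : ℝ) ∧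
      z₃ ≤ x₃ * (p.1 : ℝ) + y₃ * (p.2 : ℝ) ∧ z₄ ≤ x₄ * (p.1 : ℝ) + y₄ * (p.2 : ℝ)) (a : ℤ × ℤ → ℂ) :
    m6 S' a ≤ (14 ^ 6) ^ 4 * m6 S a := by
  classical
  have h1 := riesz_half S a x₁ y₁ z₁
  set S1 := S.filter (fun k => z₁ ≤ x₁ * (k.1 : ℝ) + y₁ * (k.2 : ℝ)) with hS1
  have h2 := riesz_half S1 a x₂ y₂ z₂
  set S2 := S1.filter (fun k => z₂ ≤ x₂ * (k.1 : ℝ) + y₂ * (k.2 : ℝ)) with hS2
  have h3 := riesz_half S2 a x₃ y₃ z₃
  set S3' := S2.filter (fun k => z₃ ≤ x₃ * (k.1 : ℝ) + y₃ * (k.2 : ℝ)) with hS3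
  have h4 := riesz_half S3' a x₄ y₄ z₄
  set S4 := S3'.filter (fun k => z₄ ≤ x₄ * (k.1 : ℝ) + y₄ * (k.2 : ℝ)) with hS4
  have he : S' = S4 := by
    ext p
    rw [h p, hS4, hS3, hS2, hS1]
    simp only [Finset.mem_filter]
    tauto
  rw [he]
  have h0 : (0 : ℝ) ≤ 14 ^ 6 := by positivity
  calc m6 S4 a ≤ 14 ^ 6 * m6 S3' a := h4
    _ ≤ 14 ^ 6 * (14 ^ 6 * m6 S2 a) := mul_le_mul_of_nonneg_left h3 h0
    _ ≤ 14 ^ 6 * (14 ^ 6 * (14 ^ 6 * m6 S1 a)) := by gcongr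
    _ ≤ 14 ^ 6 * (14 ^ 6 * (14 ^ 6 * (14 ^ 6 * m6 S a))) := by gcongr
    _ = (14 ^ 6) ^ 4 * m6 S a := by ring

private lemma mem_sec63 {K Q : ℕ} {n k : ℤ × ℤ} (h : k ∈ sec K Q n) :
    (K : ℤ) ≤ k.1 ∧ k.1 < 2 * K ∧ 0 ≤ k.2 ∧ k.2 ≤ k.1 ∧ IsNd Q k n := by
  classical
  unfold sec oct at h
  simp only [Finset.mem_filter] at h
  exact ⟨h.1.2.1, h.1.2.2.1, h.1.2.2.2.1, h.1.2.2.2.2, h.2⟩

private lemma sec_mem63 {K Q : ℕ} {n k : ℤ × ℤ} (h1 : (K : ℤ) ≤ k.1) (h2 : k.1 < 2 * K) (h3 : 0 ≤ k.2) (h4 : k.2 ≤ k.1)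
    (h5 : IsNd Q k n) : k ∈ sec K Q n := by
  classical
  unfold sec oct
  simp only [Finset.mem_filter]
  refine ⟨⟨?_, h1, h2, h3, h4⟩, h5⟩
  unfold box
  rw [Finset.mem_product, Finset.mem_Icc, Finset.mem_Icc]
  push_cast
  refine ⟨⟨?_, ?_⟩, ?_, ?_⟩ <;> omega

/-- the sector is given by four linear inequalities -/
private lemma sec_iff63 {K Q : ℕ} {n : ℤ × ℤ} (hK : 1 ≤ K) (hQ : 3 ≤ Q) (hne : (sec K Q n).Nonempty) :
    ∃ k₁ ∈ sec K Q n, ∃ k₂ ∈ sec K Q n, ∀ k : ℤ × ℤ, k ∈ sec K Q n ↔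
      (K : ℤ) ≤ k.1 ∧ k.1 < 2 * K ∧ k₁.2 * k.1 ≤ k.2 * k₁.1 ∧ k.2 * k₂.1 ≤ k₂.2 * k.1 := by
  obtain ⟨k₁, hk₁, h1⟩ := Finset.exists_min_image (sec K Q n) (fun k => ((k.2 : ℝ) / (k.1 : ℝ))) hne
  obtain ⟨k₂, hk₂, h2⟩ := Finset.exists_max_image (sec K Q n) (fun k => ((k.2 : ℝ) / (k.1 : ℝ))) hne
  have hpos : ∀ k ∈ sec K Q n, (1 : ℤ) ≤ k.1 := by
    intro k hk
    have := (mem_sec63 hk).1
    omega
  have hcr : ∀ k ∈ sec K Q n, ∀ l ∈ sec K Q n, (k.2 : ℝ) / (k.1 : ℝ) ≤ (l.2 : ℝ) / (l.1 : ℝ) → k.2 * l.1 ≤ l.2 * k.1 := by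
    intro k hk l hl hkl
    have h3 : (0 : ℝ) < (k.1 : ℝ) := by exact_mod_cast (hpos k hk)
    have h4 : (0 : ℝ) < (l.1 : ℝ) := by exact_mod_cast (hpos l hl)
    rw [div_le_div_iff₀ h3 h4] at hkl
    exact_mod_cast hkl
  refine ⟨k₁, hk₁, k₂, hk₂, ?_⟩
  intro k
  constructor
  · intro hk
    obtain ⟨h3, h4, h5, h6, h7⟩ := mem_sec63 hk
    exact ⟨h3, h4, hcr k₁ hk₁ k hk (h1 k hk), hcr k hk k₂ hk₂ (h2 k hk)⟩
  · rintro ⟨h3, h4, h5, h6⟩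
    have hk1 : (1 : ℤ) ≤ k.1 := by omega
    have ha := hpos k₁ hk₁
    have hb := hpos k₂ hk₂
    obtain ⟨a1, a2, a3, a4, a5⟩ := mem_sec63 hk₁
    obtain ⟨b1, b2, b3, b4, b5⟩ := mem_sec63 hk₂
    refine sec_mem63 h3 h4 ?_ ?_ ?_
    · by_contra hc
      push Not at hc
      nlinarith
    · by_contra hc
      push Not at hc
      nlinarith
    · exact nd_convex hQ (k₁ := k₁) (k₂ := k) (k₃ := k₂) ha hk1 hb a5 b5 h5 h6

theorem sector_bound (C₀ : ℝ) : ∃ C : ℝ, 0 < C ∧ ∀ (K Q : ℕ) (A R R' b : ℝ) (n : ℤ × ℤ), 8 ≤ Q → Q ≤ K → 1 ≤ A →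
    A ^ 4 ≤ (Q : ℝ) ^ 3 → 0 < R → R * K ≤ C₀ * (Q : ℝ) ^ 5 → (Q : ℝ) ^ 5 ≤ C₀ * (R * K) → Good (Q / A) n →
    |Rn R n - R'| ≤ A * Q / K → |bt n - b| ≤ 1 / (Q * A) → ∀ i : ℕ, (i = 1 ∨ i = 2) → ∀ c : ℝ × ℝ,
      ‖bs (sec K Q n) K i R c‖ ^ 6 ≤ C * ((K : ℝ) ^ 2 * A / (Q : ℝ) ^ 2) *
        m6 (reg b (K * A / Q)) (fun p => ee (R' * ph b p)) := by
  classical
  obtain ⟨C₁, hC₁, hloc⟩ := local_const C₀
  obtain ⟨C₂, hC₂, hwt⟩ := weight_mul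
  refine ⟨686 * ((C₂ * C₁) ^ 6 * (14 ^ 6) ^ 4), by positivity, ?_⟩
  intro K Q A R R' b n hQ hQK hA hA4 hR hRK hQ5 hn hRn hbt i hi c
  have hK : 1 ≤ K := by omega
  have hKr : (1 : ℝ) ≤ K := by exact_mod_cast hK
  have hQr : (8 : ℝ) ≤ Q := by exact_mod_cast hQ
  have hQKr : (Q : ℝ) ≤ K := by exact_mod_cast hQK
  have hQ0 : (0 : ℝ) < Q := by linarith
  have hA0 : 0 < A := by linarith
  have hK0 : (0 : ℝ) < K := by linarith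
  set H : ℝ := K * A / Q with hH
  have hT : 1 ≤ (K : ℝ) / Q := by rw [le_div_iff₀ hQ0]; linarith
  have hTH : (K : ℝ) / Q ≤ H := by
    rw [hH, div_le_div_iff_of_pos_right hQ0]
    nlinarith
  have hH1 : 1 ≤ H := hT.trans hTH
  have hmn : 0 ≤ m6 (reg b H) (fun p => ee (R' * ph b p)) := m6_nonneg _ _
  rcases (sec K Q n).eq_empty_or_nonempty with he | hne
  · rw [he]
    unfold bs
    rw [Finset.sum_empty, norm_zero]
    have : (0 : ℝ) ≤ 686 * ((C₂ * C₁) ^ 6 * (14 ^ 6) ^ 4) * ((K : ℝ) ^ 2 * A / (Q : ℝ) ^ 2) *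
        m6 (reg b H) (fun p => ee (R' * ph b p)) := by positivity
    simpa using this
  rw [bs_tp63 hn.cop]
  set S := (sec K Q n).preimage (lc n) (lc_inj hn.cop).injOn with hS
  have hmem : ∀ p, p ∈ S ↔ lc n p ∈ sec K Q n := by
    intro p
    rw [hS, Finset.mem_preimage]
  -- coordinates
  have hco : ∀ p ∈ S, K * A / (2 * Q) ≤ uu (bt n) p ∧ uu (bt n) p ≤ 6 * (K * A / Q) ∧ |tt (bt n) p| ≤ 2 / A ∧
      |(p.2 : ℝ)| ≤ 2 * K / Q := by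
    intro p hp
    obtain ⟨h1, h2, h3, h4, h5⟩ := mem_sec63 ((hmem p).1 hp)
    exact sec_coord hA (by omega) hn h1 h2 h3 h4 hK h5
  have hHh : K * A / (2 * Q) = H / 2 := by
    rw [hH]
    field_simp
  have hup : ∀ p ∈ S, 0 < uu (bt n) p := by
    intro p hp
    have := (hco p hp).1
    rw [hHh] at this
    linarith
  have hbl := bt_le hn.cop
  have hp2 : ∀ p ∈ S, |(p.2 : ℝ)| ≤ 2 * ((K : ℝ) / Q) := by
    intro p hp
    have := (hco p hp).2.2.2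
    rwa [mul_div_assoc] at this
  have hp1 : ∀ p ∈ S, |(p.1 : ℝ)| ≤ 7 * H := by
    intro p hp
    have h1 : (p.1 : ℝ) = uu (bt n) p - bt n * (p.2 : ℝ) := by
      unfold uu
      ring
    have h2 : |bt n * (p.2 : ℝ)| ≤ 1 / 2 * (2 * ((K : ℝ) / Q)) := by
      rw [abs_mul]
      exact mul_le_mul hbl (hp2 p hp) (abs_nonneg _) (by norm_num)
    have h3 := (hco p hp).2.1
    have h4 : |uu (bt n) p| ≤ 6 * H := by
      rw [abs_of_pos (hup p hp)]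
      exact h3
    rw [h1]
    have h5 := abs_sub (uu (bt n) p) (bt n * (p.2 : ℝ))
    linarith
  -- Nikolskii
  have hcard : ((S3 S).card : ℝ) ≤ 686 * ((K : ℝ) ^ 2 * A / (Q : ℝ) ^ 2) := by
    have h1 := s3_card63 (S := S) (X := 7 * H) (Y := 2 * ((K : ℝ) / Q)) (by linarith) (by linarith)
      (fun p hp => ⟨hp1 p hp, hp2 p hp⟩)
    refine h1.trans (le_of_eq ?_)
    rw [hH]
    field_simp
    ring
  have hnik := nik S (fun p => (((K : ℝ) / nk (lc n p) : ℝ) : ℂ) ^ i * ee (R * nk (lc n p))) (dt n c, dt (cmp n) c)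
  -- local constancy
  obtain ⟨c₀, b', hb', hee⟩ := hloc K Q A R R' b n hK hQ hA hA4 hR hRK hQ5 hn hRn hbt S
    (fun p hp => ⟨hup p hp, (hco p hp).2.1, (hco p hp).2.2.1⟩)
  have hw := hwt K Q A n hK hQ hA hn S (fun p hp => ⟨(hco p hp).1, (hco p hp).2.1, (hco p hp).2.2.1⟩) i hi
  have hm1 : m6 S (fun p => (((K : ℝ) / nk (lc n p) : ℝ) : ℂ) ^ i * ee (R * nk (lc n p))) ≤
      (C₂ * C₁) ^ 6 * m6 S (fun p => ee (R' * ph b p)) := by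
    have h1 := (mul_comp hw hb').2 (fun p => ee (dt p c₀) * ee (R' * ph b p))
    rw [m6_shift] at h1
    refine le_trans (le_of_eq ?_) h1
    refine m6_congr ?_
    intro p hp
    dsimp only
    rw [hee p hp]
    ring
  -- the region
  have hreg : ∀ p ∈ S, p ∈ reg b H := by
    intro p hp
    have e1 := (hco p hp).1
    have e2 := (hco p hp).2.1
    have e3 := (hco p hp).2.2.1
    rw [hHh] at e1
    have hu := hup p hp
    have e4 : uu b p - uu (bt n) p = (b - bt n) * (p.2 : ℝ) := by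
      unfold uu
      ring
    have e5 : |uu b p - uu (bt n) p| ≤ H / 4 := by
      rw [e4, abs_mul, abs_sub_comm]
      have h1 : |bt n - b| * |(p.2 : ℝ)| ≤ 1 / (Q * A) * (2 * ((K : ℝ) / Q)) :=
        mul_le_mul hbt (hp2 p hp) (abs_nonneg _) (by positivity)
      refine h1.trans ?_
      rw [hH]
      have h2 : 1 / (Q * A) * (2 * ((K : ℝ) / Q)) = 2 * K / (Q * A * Q) := by
        field_simp
      rw [h2, div_div, div_le_div_iff₀ (by positivity) (by positivity)]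
      have h3' : 1 ≤ A * A := by nlinarith
      have h3 : (8 : ℝ) ≤ Q * A * A := by nlinarith
      have h4 : (0 : ℝ) ≤ K * Q := by positivity
      nlinarith [mul_le_mul_of_nonneg_right h3 h4]
    rw [abs_le] at e5
    have e6 : |(p.2 : ℝ)| ≤ 2 * uu (bt n) p := by
      have h1 : (p.2 : ℝ) = tt (bt n) p * uu (bt n) p := by
        unfold tt
        rw [div_mul_cancel₀ _ hu.ne']
      rw [h1, abs_mul, abs_of_pos hu]
      have h2 : 2 / A ≤ 2 := by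
        rw [div_le_iff₀ hA0]
        linarith
      exact mul_le_mul_of_nonneg_right (e3.trans h2) hu.le
    have e7 := hp1 p hp
    have e8 := hp2 p hp
    have hceil := Nat.le_ceil (40 * H)
    have hbox : p ∈ box ⌈40 * H⌉₊ := by
      have f1 : |(p.1 : ℝ)| ≤ (⌈40 * H⌉₊ : ℝ) := by linarith
      have f2 : |(p.2 : ℝ)| ≤ (⌈40 * H⌉₊ : ℝ) := by linarith
      rw [abs_le] at f1 f2
      unfold box
      rw [Finset.mem_product, Finset.mem_Icc, Finset.mem_Icc]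
      refine ⟨⟨?_, ?_⟩, ?_, ?_⟩
      · exact_mod_cast f1.1
      · exact_mod_cast f1.2
      · exact_mod_cast f2.1
      · exact_mod_cast f2.2
    unfold reg
    rw [Finset.mem_filter]
    refine ⟨hbox, ?_, ?_, ?_⟩
    · linarith
    · linarith
    · linarith
  -- the half planes
  have hm2 : m6 S (fun p => ee (R' * ph b p)) ≤ (14 ^ 6) ^ 4 * m6 (reg b H) (fun p => ee (R' * ph b p)) := by
    obtain ⟨k₁, hk₁, k₂, hk₂, hiff⟩ := sec_iff63 (n := n) hK (show 3 ≤ Q by omega) hne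
    refine half4_63 (S := reg b H) (S' := S) (x₁ := n.1) (y₁ := (cmp n).1) (z₁ := K)
      (x₂ := -n.1) (y₂ := -(cmp n).1) (z₂ := -(2 * K - 1))
      (x₃ := k₁.1 * n.2 - k₁.2 * n.1) (y₃ := k₁.1 * (cmp n).2 - k₁.2 * (cmp n).1) (z₃ := 0)
      (x₄ := k₂.2 * n.1 - k₂.1 * n.2) (y₄ := k₂.2 * (cmp n).1 - k₂.1 * (cmp n).2) (z₄ := 0) ?_ _
    intro p
    have g1 : ((K : ℝ) ≤ n.1 * (p.1 : ℝ) + (cmp n).1 * (p.2 : ℝ)) ↔ (K : ℤ) ≤ (lc n p).1 := by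
      have : ((lc n p).1 : ℝ) = n.1 * (p.1 : ℝ) + (cmp n).1 * (p.2 : ℝ) := by
        simp only [lc]
        push_cast
        ring
      rw [← this]
      exact_mod_cast Iff.rfl
    have g2 : (-(2 * (K : ℝ) - 1) ≤ -n.1 * (p.1 : ℝ) + -(cmp n).1 * (p.2 : ℝ)) ↔ (lc n p).1 < 2 * K := by
      have : -n.1 * (p.1 : ℝ) + -(cmp n).1 * (p.2 : ℝ) = -((lc n p).1 : ℝ) := by
        simp only [lc]
        push_cast
        ring
      rw [this, neg_le_neg_iff]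
      constructor
      · intro h
        have h' : (lc n p).1 ≤ 2 * K - 1 := by exact_mod_cast h
        omega
      · intro h
        have h' : (lc n p).1 ≤ 2 * K - 1 := by omega
        exact_mod_cast h'
    have g3 : ((0 : ℝ) ≤ (k₁.1 * n.2 - k₁.2 * n.1) * (p.1 : ℝ) + (k₁.1 * (cmp n).2 - k₁.2 * (cmp n).1) * (p.2 : ℝ)) ↔
        k₁.2 * (lc n p).1 ≤ (lc n p).2 * k₁.1 := by
      have : ((k₁.1 : ℝ) * n.2 - k₁.2 * n.1) * (p.1 : ℝ) + (k₁.1 * (cmp n).2 - k₁.2 * (cmp n).1) * (p.2 : ℝ) =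
          (((lc n p).2 * k₁.1 - k₁.2 * (lc n p).1 : ℤ) : ℝ) := by
        simp only [lc]
        push_cast
        ring
      rw [this]
      constructor
      · intro h
        have h' : 0 ≤ (lc n p).2 * k₁.1 - k₁.2 * (lc n p).1 := by exact_mod_cast h
        linarith
      · intro h
        have h' : 0 ≤ (lc n p).2 * k₁.1 - k₁.2 * (lc n p).1 := by linarith
        exact_mod_cast h'
    have g4 : ((0 : ℝ) ≤ (k₂.2 * n.1 - k₂.1 * n.2) * (p.1 : ℝ) + (k₂.2 * (cmp n).1 - k₂.1 * (cmp n).2) * (p.2 : ℝ)) ↔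
        (lc n p).2 * k₂.1 ≤ k₂.2 * (lc n p).1 := by
      have : ((k₂.2 : ℝ) * n.1 - k₂.1 * n.2) * (p.1 : ℝ) + (k₂.2 * (cmp n).1 - k₂.1 * (cmp n).2) * (p.2 : ℝ) =
          ((k₂.2 * (lc n p).1 - (lc n p).2 * k₂.1 : ℤ) : ℝ) := by
        simp only [lc]
        push_cast
        ring
      rw [this]
      constructor
      · intro h
        have h' : 0 ≤ k₂.2 * (lc n p).1 - (lc n p).2 * k₂.1 := by exact_mod_cast h
        linarith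
      · intro h
        have h' : 0 ≤ k₂.2 * (lc n p).1 - (lc n p).2 * k₂.1 := by linarith
        exact_mod_cast h'
    rw [g1, g2, g3, g4]
    constructor
    · intro hp
      exact ⟨hreg p hp, (hiff _).1 ((hmem p).1 hp)⟩
    · rintro ⟨-, h⟩
      exact (hmem p).2 ((hiff _).2 h)
  have hm3 := hm1.trans (mul_le_mul_of_nonneg_left hm2 (by positivity))
  refine hnik.trans ?_
  calc ((S3 S).card : ℝ) * m6 S (fun p => (((K : ℝ) / nk (lc n p) : ℝ) : ℂ) ^ i * ee (R * nk (lc n p)))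
      ≤ (686 * ((K : ℝ) ^ 2 * A / (Q : ℝ) ^ 2)) *
        ((C₂ * C₁) ^ 6 * ((14 ^ 6) ^ 4 * m6 (reg b H) (fun p => ee (R' * ph b p)))) :=
        mul_le_mul hcard hm3 (m6_nonneg _ _) (by positivity)
    _ = 686 * ((C₂ * C₁) ^ 6 * (14 ^ 6) ^ 4) * ((K : ℝ) ^ 2 * A / (Q : ℝ) ^ 2) *
        m6 (reg b H) (fun p => ee (R' * ph b p)) := by ring

end Pool.Agent.Helper92.GC
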