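import Pool.Agent.Helper92.GC.Defs

/-!
# GC-R0: trigonometric polynomials on the torus

Elementary facts about `tp` and `m6`. `tp S a` is a finite sum of continuous functions of norm `‖a k‖` and `Tq` is compact of measure 1.
PROOFS. `tp_filter`: `Finset.sum_filter`. `m6_congr`: `Finset.sum_congr`. `m6_smul`: `‖z w‖^6 = ‖z‖^6 ‖w‖^6` and `integral_const_mul`.
`m6_eq` (Parseval for the cube): `tp S a c ^ 3 = ∑ l ∈ S + S + S, cub S a l * ee (dt l c)` (expand the product, group by the sum of the three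
frequencies; `ee` is additive, `dt` is additive in `k`), `‖tp‖^6 = tp^3 * conj (tp^3)`, and `∫ c in Tq, ee (dt k c) = if k = 0 then 1 else 0` (`ee_int`;
for `k ≠ 0` see `char_int` in Helper22.AC.B4: the integral of `ee (m x)` over `[0,1]` is zero for an integer `m ≠ 0`; the set integral over the
product `Tq` is the product of the two integrals: `Measure.volume_eq_prod`, `Measure.prod_restrict`, `integral_prod_mul`).
`m6_shift`: by `m6_eq`: `ee (dt k c₀)` is additive in `k`, so `cub` is multiplied by `ee (dt l c₀)` of norm one.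
`nik` (Nikolskii): `‖tp S a c‖^6 = ‖∑ l, cub l * ee (dt l c)‖^2 ≤ card (S + S + S) * ∑ ‖cub l‖^2` (Cauchy-Schwarz, `sq_sum_le_card_mul_sum_sq`).
`m6_add` (Minkowski): `(∫ ‖f + g‖^6)^(1/6) ≤ (∫ ‖f‖^6)^(1/6) + (∫ ‖g‖^6)^(1/6)`: `eLpNorm_add_le` (with `p = 6`) on the finite measure
`volume.restrict Tq`, `eLpNorm` of a bounded continuous function in terms of the integral, or the real version
`MeasureTheory.integral_Lp_add_le`-like lemma if you find one (`NNReal`/`ENNReal.lintegral_Lp_add_le`).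
-/

open MeasureTheory Real Set Filter Topology

set_option autoImplicit false

namespace Pool.Agent.Helper92.GC

open Pool.Agent.Helper22.AE
open Pool.Agent.Helper22.AC (n6 IsWt mu)

theorem dt_add (k l : ℤ × ℤ) (c : ℝ × ℝ) : dt (k + l) c = dt k c + dt l c := by
  unfold dt
  rw [Prod.fst_add, Prod.snd_add]
  push_cast
  ring

private theorem dt_cont_h54 (k : ℤ × ℤ) : Continuous (dt k) := by
  unfold dt
  fun_prop

theorem tp_cont (S : Finset (ℤ × ℤ)) (a : ℤ × ℤ → ℂ) : Continuous (tp S a) := by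
  unfold tp
  exact continuous_finsetSum _ fun k _ => continuous_const.mul (ee_cont.comp (dt_cont_h54 k))

theorem tp_norm_le (S : Finset (ℤ × ℤ)) (a : ℤ × ℤ → ℂ) (c : ℝ × ℝ) : ‖tp S a c‖ ≤ ∑ k ∈ S, ‖a k‖ := by
  unfold tp
  refine (norm_sum_le _ _).trans (le_of_eq (Finset.sum_congr rfl fun k _ => ?_))
  rw [norm_mul, ee_norm, mul_one]

private theorem ee_int_h54 (m : ℤ) : ee ((m : ℝ)) = 1 := by
  unfold ee
  have h : (((2 * π * (m : ℝ) : ℝ) : ℂ) * Complex.I) = ((m : ℤ) : ℂ) * (2 * π * Complex.I) := by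
    push_cast
    ring
  rw [h]
  exact Complex.exp_int_mul_two_pi_mul_I _

private theorem int01_h54 (m : ℤ) :
    ∫ x in Icc (0 : ℝ) 1, ee ((m : ℝ) * x) = if m = 0 then 1 else 0 := by
  by_cases hm : m = 0
  · rw [if_pos hm, hm]
    simp only [Int.cast_zero, zero_mul, ee_zero]
    rw [setIntegral_const, Measure.real, Real.volume_Icc]
    simp
  rw [if_neg hm, integral_Icc_eq_integral_Ioc, ← intervalIntegral.integral_of_le zero_le_one]
  have hm' : (2 * π * Complex.I * (m : ℂ)) ≠ 0 := by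
    have h1 : (m : ℂ) ≠ 0 := by exact_mod_cast hm
    exact mul_ne_zero Complex.two_pi_I_ne_zero h1
  have hd : ∀ x ∈ uIcc (0 : ℝ) 1, HasDerivAt
      (fun x : ℝ => ee ((m : ℝ) * x) / (2 * π * Complex.I * (m : ℂ))) (ee ((m : ℝ) * x)) x := by
    intro x _
    have h1 : HasDerivAt (fun x : ℝ => (m : ℝ) * x) (m : ℝ) x := by
      have h0 := (hasDerivAt_id x).const_mul (m : ℝ)
      rw [mul_one] at h0
      exact h0
    have h2 := (HasDerivAt.scomp x (ee_hasDerivAt ((m : ℝ) * x)) h1).div_const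
      (2 * π * Complex.I * (m : ℂ))
    refine h2.congr_deriv ?_
    rw [Complex.real_smul]
    push_cast
    rw [div_eq_iff hm']
    ring
  rw [intervalIntegral.integral_eq_sub_of_hasDerivAt hd]
  · simp only [mul_one, mul_zero, ee_zero]
    rw [ee_int_h54, sub_self]
  · apply Continuous.intervalIntegrable
    exact ee_cont.comp (by fun_prop)

theorem ee_int (k : ℤ × ℤ) : ∫ c in Tq, ee (dt k c) = if k = 0 then 1 else 0 := by
  have h1 : ∀ c : ℝ × ℝ, ee (dt k c) = ee ((k.1 : ℝ) * c.1) * ee ((k.2 : ℝ) * c.2) := fun c => by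
    unfold dt
    rw [ee_add]
  simp only [h1]
  unfold Tq
  rw [Measure.volume_eq_prod, setIntegral_prod_mul (fun x : ℝ => ee ((k.1 : ℝ) * x))
    (fun x : ℝ => ee ((k.2 : ℝ) * x)), int01_h54, int01_h54]
  by_cases h2 : k = 0
  · rw [if_pos h2, if_pos (by rw [h2]; rfl), if_pos (by rw [h2]; rfl), mul_one]
  · rw [if_neg h2]
    by_cases h3 : k.1 = 0
    · rw [if_neg (fun h4 : k.2 = 0 => h2 (Prod.ext h3 h4)), mul_zero]
    · rw [if_neg h3, zero_mul]

theorem m6_nonneg (S : Finset (ℤ × ℤ)) (a : ℤ × ℤ → ℂ) : 0 ≤ m6 S a :=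
  integral_nonneg fun _ => by positivity

theorem m6_congr {S : Finset (ℤ × ℤ)} {a b : ℤ × ℤ → ℂ} (h : ∀ k ∈ S, a k = b k) : m6 S a = m6 S b := by
  have h1 : tp S a = tp S b := by
    funext c
    exact Finset.sum_congr rfl fun k hk => by rw [h k hk]
  unfold m6
  rw [h1]

open Classical in
theorem m6_filter (S : Finset (ℤ × ℤ)) (p : ℤ × ℤ → Prop) (a : ℤ × ℤ → ℂ) :
    m6 (S.filter p) a = m6 S (fun k => (if p k then 1 else 0) * a k) := by
  have h1 : tp (S.filter p) a = tp S (fun k => (if p k then 1 else 0) * a k) := by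
    funext c
    unfold tp
    rw [Finset.sum_filter]
    refine Finset.sum_congr rfl fun k _ => ?_
    simp only
    by_cases hp : p k
    · rw [if_pos hp, if_pos hp, one_mul]
    · rw [if_neg hp, if_neg hp, zero_mul, zero_mul]
  unfold m6
  rw [h1]

theorem m6_smul (S : Finset (ℤ × ℤ)) (z : ℂ) (a : ℤ × ℤ → ℂ) : m6 S (fun k => z * a k) = ‖z‖ ^ 6 * m6 S a := by
  have h1 : ∀ c, ‖tp S (fun k => z * a k) c‖ ^ 6 = ‖z‖ ^ 6 * ‖tp S a c‖ ^ 6 := by
    intro c
    have h2 : tp S (fun k => z * a k) c = z * tp S a c := by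
      unfold tp
      rw [Finset.mul_sum]
      exact Finset.sum_congr rfl fun k _ => by ring
    rw [h2, norm_mul, mul_pow]
  unfold m6
  simp only [h1]
  rw [integral_const_mul]

open Classical in
/-- the Fourier coefficient of the cube -/
noncomputable def cub (S : Finset (ℤ × ℤ)) (a : ℤ × ℤ → ℂ) (l : ℤ × ℤ) : ℂ :=
  ∑ k ∈ (S ×ˢ S ×ˢ S).filter (fun k => k.1 + k.2.1 + k.2.2 = l), a k.1 * a k.2.1 * a k.2.2

/-- the support of the cube -/
def S3 (S : Finset (ℤ × ℤ)) : Finset (ℤ × ℤ) := (S ×ˢ S ×ˢ S).image (fun k => k.1 + k.2.1 + k.2.2)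

private theorem tp_cube_h54 (S : Finset (ℤ × ℤ)) (a : ℤ × ℤ → ℂ) (c : ℝ × ℝ) :
    tp S a c ^ 3 = tp (S3 S) (cub S a) c := by
  classical
  have h1 : tp S a c ^ 3 = ∑ k ∈ S ×ˢ S ×ˢ S, a k.1 * a k.2.1 * a k.2.2 *
      ee (dt (k.1 + k.2.1 + k.2.2) c) := by
    rw [Finset.sum_product]
    simp only [Finset.sum_product]
    have h2 : tp S a c ^ 3 = tp S a c * (tp S a c * tp S a c) := by ring
    rw [h2]
    unfold tp
    rw [Finset.sum_mul_sum, Finset.sum_mul_sum]
    refine Finset.sum_congr rfl fun k _ => ?_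
    refine Finset.sum_congr rfl fun l _ => ?_
    rw [Finset.mul_sum]
    refine Finset.sum_congr rfl fun m _ => ?_
    rw [dt_add, dt_add, ee_add, ee_add]
    ring
  rw [h1, ← Finset.sum_fiberwise_of_maps_to (s := S ×ˢ S ×ˢ S) (t := S3 S)
    (g := fun k => k.1 + k.2.1 + k.2.2) (fun k hk => Finset.mem_image_of_mem _ hk)]
  unfold tp cub
  refine Finset.sum_congr rfl fun l _ => ?_
  rw [Finset.sum_mul]
  refine Finset.sum_congr ?_ fun k hk => ?_
  · congr
  · rw [(Finset.mem_filter.1 hk).2]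

private theorem fin_h54 : IsFiniteMeasure (volume.restrict Tq) := by
  have h1 : IsCompact Tq := isCompact_Icc.prod isCompact_Icc
  exact ⟨by rw [Measure.restrict_apply_univ]; exact h1.measure_lt_top⟩

private theorem intb_h54 {E : Type} [NormedAddCommGroup E] {f : ℝ × ℝ → E} (hf : Continuous f) :
    Integrable f (volume.restrict Tq) := by
  have h1 : IsCompact Tq := isCompact_Icc.prod isCompact_Icc
  exact hf.continuousOn.integrableOn_compact h1

private theorem parseval_h54 (T : Finset (ℤ × ℤ)) (b : ℤ × ℤ → ℂ) :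
    ∫ c in Tq, ‖tp T b c‖ ^ 2 = ∑ l ∈ T, ‖b l‖ ^ 2 := by
  have h1 : ∀ c, ((‖tp T b c‖ ^ 2 : ℝ) : ℂ) = ∑ k ∈ T, ∑ l ∈ T, b k * (starRingEnd ℂ) (b l) *
      ee (dt (k - l) c) := by
    intro c
    rw [← Complex.normSq_eq_norm_sq, ← Complex.mul_conj]
    unfold tp
    rw [map_sum, Finset.sum_mul_sum]
    refine Finset.sum_congr rfl fun k _ => Finset.sum_congr rfl fun l _ => ?_
    have h2 : ee (dt (k - l) c) = ee (dt k c) * (starRingEnd ℂ) (ee (dt l c)) := by
      rw [← ee_neg, ← ee_add]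
      congr 1
      unfold dt
      rw [Prod.fst_sub, Prod.snd_sub]
      push_cast
      ring
    rw [h2, map_mul]
    ring
  have h2 : ((∫ c in Tq, ‖tp T b c‖ ^ 2 : ℝ) : ℂ) = ((∑ l ∈ T, ‖b l‖ ^ 2 : ℝ) : ℂ) := by
    rw [← integral_complex_ofReal]
    simp only [h1]
    have hI : ∀ k l : ℤ × ℤ, Integrable (fun c : ℝ × ℝ => b k * (starRingEnd ℂ) (b l) *
        ee (dt (k - l) c)) (volume.restrict Tq) := fun k l =>
      intb_h54 (continuous_const.mul (ee_cont.comp (dt_cont_h54 _)))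
    rw [integral_finsetSum _ fun k _ => integrable_finsetSum _ fun l _ => hI k l]
    push_cast
    refine Finset.sum_congr rfl fun k hk => ?_
    rw [integral_finsetSum _ fun l _ => hI k l]
    rw [Finset.sum_eq_single k]
    · rw [integral_const_mul, ee_int, if_pos (sub_self k), mul_one, Complex.mul_conj,
        Complex.normSq_eq_norm_sq]
      push_cast
      rfl
    · intro l _ hl
      rw [integral_const_mul, ee_int, if_neg (fun h => hl (sub_eq_zero.1 h).symm), mul_zero]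
    · intro h
      exact absurd hk h
  exact_mod_cast h2

theorem m6_eq (S : Finset (ℤ × ℤ)) (a : ℤ × ℤ → ℂ) : m6 S a = ∑ l ∈ S3 S, ‖cub S a l‖ ^ 2 := by
  rw [← parseval_h54]
  unfold m6
  refine integral_congr_ae (Eventually.of_forall fun c => ?_)
  simp only
  rw [← tp_cube_h54, norm_pow]
  ring

theorem m6_shift (S : Finset (ℤ × ℤ)) (a : ℤ × ℤ → ℂ) (c₀ : ℝ × ℝ) : m6 S (fun k => ee (dt k c₀) * a k) = m6 S a := by
  rw [m6_eq, m6_eq]
  refine Finset.sum_congr rfl fun l _ => ?_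
  have h1 : cub S (fun k => ee (dt k c₀) * a k) l = ee (dt l c₀) * cub S a l := by
    unfold cub
    rw [Finset.mul_sum]
    refine Finset.sum_congr rfl fun k hk => ?_
    rw [← (Finset.mem_filter.1 hk).2, dt_add, dt_add, ee_add, ee_add]
    ring
  rw [h1, norm_mul, ee_norm, one_mul]

theorem nik (S : Finset (ℤ × ℤ)) (a : ℤ × ℤ → ℂ) (c : ℝ × ℝ) : ‖tp S a c‖ ^ 6 ≤ ((S3 S).card : ℝ) * m6 S a := by
  have h1 : ‖tp S a c‖ ^ 6 = ‖tp (S3 S) (cub S a) c‖ ^ 2 := by
    rw [← tp_cube_h54, norm_pow]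
    ring
  rw [h1, m6_eq]
  calc ‖tp (S3 S) (cub S a) c‖ ^ 2 ≤ (∑ l ∈ S3 S, ‖cub S a l‖) ^ 2 :=
        pow_le_pow_left₀ (norm_nonneg _) (tp_norm_le _ _ _) 2
    _ ≤ ((S3 S).card : ℝ) * ∑ l ∈ S3 S, ‖cub S a l‖ ^ 2 := sq_sum_le_card_mul_sum_sq

private theorem m6_pow_h54 (S : Finset (ℤ × ℤ)) (a : ℤ × ℤ → ℂ) :
    MemLp (tp S a) 6 (volume.restrict Tq) ∧
      m6 S a ^ (1 / 6 : ℝ) = (eLpNorm (tp S a) 6 (volume.restrict Tq)).toReal := by
  have := fin_h54
  have h1 : MemLp (tp S a) 6 (volume.restrict Tq) :=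
    MemLp.of_bound (tp_cont S a).aestronglyMeasurable (∑ k ∈ S, ‖a k‖)
      (Eventually.of_forall fun c => tp_norm_le S a c)
  refine ⟨h1, ?_⟩
  rw [h1.eLpNorm_eq_integral_rpow_norm (by norm_num) (by norm_num)]
  have h2 : (6 : ENNReal).toReal = 6 := by norm_num
  rw [h2, ENNReal.toReal_ofReal (by
    apply Real.rpow_nonneg
    exact integral_nonneg fun _ => by positivity)]
  unfold m6
  rw [one_div]
  congr 1
  refine integral_congr_ae (Eventually.of_forall fun c => ?_)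
  simp only
  rw [← Real.rpow_natCast]
  norm_num

theorem m6_add (S : Finset (ℤ × ℤ)) (a b : ℤ × ℤ → ℂ) :
    m6 S (fun k => a k + b k) ^ (1 / 6 : ℝ) ≤ m6 S a ^ (1 / 6 : ℝ) + m6 S b ^ (1 / 6 : ℝ) := by
  obtain ⟨ha, ea⟩ := m6_pow_h54 S a
  obtain ⟨hb, eb⟩ := m6_pow_h54 S b
  obtain ⟨-, eab⟩ := m6_pow_h54 S (fun k => a k + b k)
  rw [ea, eb, eab]
  have h1 : tp S (fun k => a k + b k) = tp S a + tp S b := by
    funext c
    rw [Pi.add_apply]
    unfold tp
    rw [← Finset.sum_add_distrib]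
    exact Finset.sum_congr rfl fun k _ => by ring
  rw [h1, ← ENNReal.toReal_add ha.eLpNorm_ne_top hb.eLpNorm_ne_top]
  exact ENNReal.toReal_mono (ENNReal.add_ne_top.2 ⟨ha.eLpNorm_ne_top, hb.eLpNorm_ne_top⟩)
    (eLpNorm_add_le ha.aestronglyMeasurable hb.aestronglyMeasurable (by norm_num))

end Pool.Agent.Helper92.GC
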