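import Pool.Agent.Helper22.AC.B1

/-!
# GC-Q1: weights with rapid decay

PROOF: the construction of `exists_wt` (Helper22.AC.B1: `v R = (1/Y) w (u₀ + (R - R₁ - X/2)/Y)`, `Y = X/(2r)`, `w` from `Helper92.EO.exists_ker_smooth`; copy the proof) and in addition: with `u` the argument of `w`,
`|R - R₁|/X ≤ (Y |u| + Y |u₀| + X/2)/X ≤ (|u| + |u₀|)/(2r) + 1/2`, so `(|R - R₁|/X)^n w(u) ≤ C_n` by `|u|^m w u ≤ C_m` (`m = 0, n`; `(x + y)^n ≤ 2^n (x^n + y^n)`), and `1/Y ≤ 1/X`.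
`dw_tail`: with `y = |R - R₁|/X`: `v y^n (1 + y²) ≤ (Cd n + Cd (n+2))/X`, and `∫ (1 + y²)⁻¹ dR = π X` (`integral_univ_inv_one_add_sq`).
(This file imports only Helper22.AC.B1; the namespace is that of GC.)
-/

open MeasureTheory Real Set Filter Topology

set_option autoImplicit false

namespace Pool.Agent.Helper92.GC

open Pool.Agent.Helper22.AE
open Pool.Agent.Helper22.AC (n6 IsWt mu)

/-- a weight of scale `X` at `R₁` with rapid decay -/
structure IsDw (X R₁ : ℝ) (v : ℝ → ℝ) (c₀ : ℝ) (Cd : ℕ → ℝ) : Prop where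
  wt : IsWt X v
  low : ∀ R ∈ Icc R₁ (R₁ + X), c₀ / X ≤ v R
  dec : ∀ (n : ℕ) (R : ℝ), v R * (|R - R₁| / X) ^ n ≤ Cd n / X

private theorem ee_add63 (x y : ℝ) : ee (x + y) = ee x * ee y := by
  unfold ee
  rw [← Complex.exp_add]
  congr 1
  push_cast
  ring

theorem exists_dw : ∃ c₀ : ℝ, 0 < c₀ ∧ ∃ Cd : ℕ → ℝ, ∀ X : ℝ, 0 < X → ∀ R₁ : ℝ, ∃ v : ℝ → ℝ, IsDw X R₁ v c₀ Cd := by
  obtain ⟨w, W, hwc, hw0, _, hdec, _, hw1, hwW, _, hWz, _, _⟩ := Pool.Agent.Helper92.EO.exists_ker_smooth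
  choose D hD using hdec
  have hD0 : ∀ n, 0 ≤ D n := fun n => (mul_nonneg (pow_nonneg (abs_nonneg 0) n) (hw0 0)).trans (hD n 0)
  obtain ⟨u₀, hu₀⟩ : ∃ u, 0 < w u := by
    by_contra hcon
    push Not at hcon
    have h : w = fun _ => 0 := funext fun u => le_antisymm (hcon u) (hw0 u)
    rw [h, integral_zero] at hw1
    exact zero_ne_one hw1
  obtain ⟨r, hr, hr2, hwr⟩ : ∃ r : ℝ, 0 < r ∧ r ≤ 1 / 2 ∧ ∀ u, |u - u₀| ≤ r → w u₀ / 2 ≤ w u := by
    have h1 : ∀ᶠ u in 𝓝 u₀, w u₀ / 2 < w u := hwc.continuousAt.eventually (lt_mem_nhds (half_lt_self hu₀))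
    obtain ⟨ε, hε, h2⟩ := Metric.eventually_nhds_iff.1 h1
    refine ⟨min (ε / 2) (1 / 2), by positivity, min_le_right _ _, fun u hu => (h2 ?_).le⟩
    rw [Real.dist_eq]
    exact lt_of_le_of_lt (hu.trans (min_le_left _ _)) (half_lt_self hε)
  obtain ⟨s, hs⟩ : ∃ s : ℝ, s = |u₀| / (2 * r) + 1 / 2 := ⟨_, rfl⟩
  have hs0 : 0 ≤ s := by
    rw [hs]
    positivity
  refine ⟨2 * r * (w u₀ / 2), by positivity,
    fun n => 2 ^ (n - 1) * ((1 / (2 * r)) ^ n * D n + s ^ n * D 0), fun X hX R₁ => ?_⟩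
  obtain ⟨Y, hY⟩ : ∃ Y : ℝ, Y = X / (2 * r) := ⟨_, rfl⟩
  have hYpos : 0 < Y := by
    rw [hY]
    positivity
  have hXY : X ≤ Y := by
    rw [hY, le_div_iff₀ (by positivity)]
    nlinarith
  obtain ⟨a, ha⟩ : ∃ a : ℝ, a = u₀ - (R₁ + X / 2) / Y := ⟨_, rfl⟩
  refine ⟨fun R => 1 / Y * w (R / Y + a), ⟨⟨?_, ?_, ?_, ?_⟩, ?_, ?_⟩⟩
  · exact continuous_const.mul (hwc.comp (by fun_prop))
  · intro R
    exact mul_nonneg (by positivity) (hw0 _)
  · rw [integral_const_mul, Measure.integral_comp_div (fun u => w (u + a)) Y,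
      integral_add_right_eq_self w a, hw1, abs_of_pos hYpos, smul_eq_mul, mul_one]
    exact one_div_mul_cancel hYpos.ne'
  · intro ξ hξ
    obtain ⟨g, hg⟩ : ∃ g : ℝ → ℂ, g = fun u : ℝ => ((1 / Y : ℝ) : ℂ) * ee (ξ * Y * a) *
          (((w (u + a) : ℝ) : ℂ) * ee (-(ξ * Y * (u + a)))) := ⟨_, rfl⟩
    have h1 : (fun R : ℝ => (((1 / Y * w (R / Y + a) : ℝ)) : ℂ) * ee (-(ξ * R))) =
        fun R : ℝ => g (R / Y) := by
      funext R
      have h2 : ee (-(ξ * R)) = ee (ξ * Y * a) * ee (-(ξ * Y * (R / Y + a))) := by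
        rw [← ee_add63]
        congr 1
        field_simp
        ring
      rw [h2, hg]
      push_cast
      ring
    have h3 : ∫ u : ℝ, g u = 0 := by
      rw [hg, integral_const_mul,
        integral_add_right_eq_self (fun u : ℝ => ((w u : ℝ) : ℂ) * ee (-(ξ * Y * u))) a, hwW, hWz,
        Complex.ofReal_zero, mul_zero]
      rw [abs_mul, abs_of_pos hYpos]
      calc (1 : ℝ) = 1 / X * X := by field_simp
        _ ≤ |ξ| * Y := mul_le_mul hξ hXY hX.le (abs_nonneg _)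
    rw [h1, Measure.integral_comp_div g Y, h3, smul_zero]
  · intro R hR
    have h1 : |R / Y + a - u₀| ≤ r := by
      have h2 : R / Y + a - u₀ = (R - R₁ - X / 2) / Y := by
        rw [ha]
        ring
      have h3 : r * Y = X / 2 := by
        rw [hY]
        field_simp
      rw [h2, abs_div, abs_of_pos hYpos, div_le_iff₀ hYpos, h3, abs_le]
      constructor <;> linarith [hR.1, hR.2]
    have h4 := hwr _ h1
    have h5 : 2 * r * (w u₀ / 2) / X = 1 / Y * (w u₀ / 2) := by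
      rw [hY]
      field_simp
    rw [h5]
    exact mul_le_mul_of_nonneg_left h4 (by positivity)
  · intro n R
    obtain ⟨u, hu⟩ : ∃ u : ℝ, u = R / Y + a := ⟨_, rfl⟩
    have h1 : R - R₁ = Y * (u - u₀) + X / 2 := by
      rw [hu, ha]
      field_simp
      ring
    have h2 : |R - R₁| / X ≤ 1 / (2 * r) * |u| + s := by
      rw [div_le_iff₀ hX, h1]
      have h3 : |Y * (u - u₀) + X / 2| ≤ Y * (|u| + |u₀|) + X / 2 := by
        refine (abs_add_le _ _).trans ?_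
        rw [abs_mul, abs_of_pos hYpos, abs_of_pos (by positivity : 0 < X / 2)]
        have h4 : |u - u₀| ≤ |u| + |u₀| := abs_sub u u₀
        have h5 := mul_le_mul_of_nonneg_left h4 hYpos.le
        linarith
      refine h3.trans (le_of_eq ?_)
      rw [hs, hY]
      field_simp
      ring
    have h3 : (|R - R₁| / X) ^ n ≤ 2 ^ (n - 1) * ((1 / (2 * r)) ^ n * |u| ^ n + s ^ n) := by
      refine (pow_le_pow_left₀ (by positivity) h2 n).trans ?_
      refine (add_pow_le (by positivity) hs0 n).trans (le_of_eq ?_)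
      rw [mul_pow]
    have h4 : w u * (|R - R₁| / X) ^ n ≤ 2 ^ (n - 1) * ((1 / (2 * r)) ^ n * D n + s ^ n * D 0) := by
      refine (mul_le_mul_of_nonneg_left h3 (hw0 u)).trans ?_
      have h5 := hD n u
      have h6 := hD 0 u
      rw [pow_zero, one_mul] at h6
      have h7 : w u * (2 ^ (n - 1) * ((1 / (2 * r)) ^ n * |u| ^ n + s ^ n)) =
          2 ^ (n - 1) * ((1 / (2 * r)) ^ n * (|u| ^ n * w u) + s ^ n * w u) := by ring
      rw [h7]
      refine mul_le_mul_of_nonneg_left (add_le_add ?_ ?_) (by positivity)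
      · exact mul_le_mul_of_nonneg_left h5 (by positivity)
      · exact mul_le_mul_of_nonneg_left h6 (by positivity)
    have h8 : 0 ≤ 2 ^ (n - 1) * ((1 / (2 * r)) ^ n * D n + s ^ n * D 0) := by
      have := hD0 n
      have := hD0 0
      positivity
    calc 1 / Y * w (R / Y + a) * (|R - R₁| / X) ^ n = 1 / Y * (w u * (|R - R₁| / X) ^ n) := by
          rw [hu]
          ring
      _ ≤ 1 / Y * (2 ^ (n - 1) * ((1 / (2 * r)) ^ n * D n + s ^ n * D 0)) :=
          mul_le_mul_of_nonneg_left h4 (by positivity)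
      _ ≤ 1 / X * (2 ^ (n - 1) * ((1 / (2 * r)) ^ n * D n + s ^ n * D 0)) :=
          mul_le_mul_of_nonneg_right (one_div_le_one_div_of_le hX hXY) h8
      _ = 2 ^ (n - 1) * ((1 / (2 * r)) ^ n * D n + s ^ n * D 0) / X := by ring

theorem dw_tail {X R₁ : ℝ} {v : ℝ → ℝ} {c₀ : ℝ} {Cd : ℕ → ℝ} (hX : 0 < X) (h : IsDw X R₁ v c₀ Cd) (n : ℕ) :
    Integrable (fun R => v R * (|R - R₁| / X) ^ n) ∧
      ∫ R, v R * (|R - R₁| / X) ^ n ≤ π * (Cd n + Cd (n + 2)) := by
  have hv0 := h.wt.nonneg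
  have h1 : Integrable (fun R : ℝ => (1 + ((R - R₁) / X) ^ 2)⁻¹) :=
    (integrable_inv_one_add_sq.comp_div hX.ne').comp_sub_right R₁
  have h2 : ∫ R : ℝ, (1 + ((R - R₁) / X) ^ 2)⁻¹ = X * π := by
    rw [integral_sub_right_eq_self (fun R : ℝ => (1 + (R / X) ^ 2)⁻¹) R₁,
      Measure.integral_comp_div (fun u : ℝ => (1 + u ^ 2)⁻¹) X, integral_univ_inv_one_add_sq, abs_of_pos hX, smul_eq_mul]
  have h3 : ∀ R, v R * (|R - R₁| / X) ^ n ≤ (Cd n + Cd (n + 2)) / X * (1 + ((R - R₁) / X) ^ 2)⁻¹ := by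
    intro R
    rw [← div_eq_mul_inv, le_div_iff₀ (by positivity)]
    have h4 := h.dec n R
    have h5 := h.dec (n + 2) R
    have h6 : ((R - R₁) / X) ^ 2 = (|R - R₁| / X) ^ 2 := by
      rw [div_pow, div_pow, sq_abs]
    have h7 : v R * (|R - R₁| / X) ^ n * (1 + ((R - R₁) / X) ^ 2) =
        v R * (|R - R₁| / X) ^ n + v R * (|R - R₁| / X) ^ (n + 2) := by
      rw [h6, pow_add]
      ring
    rw [h7, add_div]
    exact add_le_add h4 h5
  have h4 : Integrable (fun R => v R * (|R - R₁| / X) ^ n) := by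
    refine (h1.const_mul ((Cd n + Cd (n + 2)) / X)).mono' ?_ ?_
    · have hc : Continuous fun R => v R * (|R - R₁| / X) ^ n := by
        have := h.wt.cont
        fun_prop
      exact hc.aestronglyMeasurable
    · refine Eventually.of_forall fun R => ?_
      rw [norm_eq_abs, abs_of_nonneg (mul_nonneg (hv0 R) (by positivity))]
      exact h3 R
  refine ⟨h4, ?_⟩
  refine (integral_mono h4 (h1.const_mul _) h3).trans (le_of_eq ?_)
  rw [integral_const_mul, h2]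
  field_simp

end Pool.Agent.Helper92.GC
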