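import Pool.Agent.Helper92.GC.R1

/-!
# GC-R2: half planes

PROOF of `riesz_half`. If `S.filter p` (`p k : z ≤ x k.1 + y k.2`) is `S`, then the claim is clear (`14^6 ≥ 1`, `m6_nonneg`). Otherwise order `ℤ × ℤ` totally:
`P k := 0 < x k.1 + y k.2 ∨ (x k.1 + y k.2 = 0 ∧ (0 < k.1 ∨ (k.1 = 0 ∧ 0 < k.2)))` is `IsPos`. Let `k₀` be the maximal element (for `P`) of the finite
non-empty set `{k ∈ S, ¬ p k}` (`Finset.exists_max_image` for the function `k ↦ toLex (x k.1 + y k.2, toLex (k.1, k.2))` in `ℝ ×ₗ (ℤ ×ₗ ℤ)` or by hand);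
then for `k ∈ S`: `p k ↔ P (k - k₀)`: if `p k` then `x k.1 + y k.2 ≥ z > x k₀.1 + y k₀.2`, so `P (k - k₀)`; if `¬ p k` then `k - k₀` is not positive by
maximality. The shift `k ↦ k - k₀` of the frequencies does not change `m6` (`‖tp‖` is unchanged: `tp (S.image (· - k₀)) (a (· + k₀)) c = ee (-(dt k₀ c)) tp S a c`),
so the claim follows from `riesz_pos`.
`IsMul` lemmas: `mul_half` is `riesz_half` with `m6_filter`; `mul_half_lt` (strict inequality): `{x k.1 + y k.2 > z} = {x k.1 + y k.2 ≥ z'}` on the finite set `S` for some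
`z' > z`. `cut_t`: for `uu β k > 0`: `z ≤ tt β k ↔ 0 ≤ (-z) k.1 + (1 - z β) k.2`. `mul_comp`: two steps. `mul_add`: `m6_add` (sixth powers and roots),
`mul_const`: `m6_smul`. `mul_mono`: `m6` of `S' ⊆ S` is `m6 S` with coefficients multiplied by the indicator of `S'` (`m6_filter`). `mul_weaken`: monotone in `C`.
`mul_lim`: `m6 S` is a continuous function of the finitely many values of the coefficients on `S` (for fixed `a`, `b ↦ m6 S (b a)`; dominated convergence
or `tendsto_integral...`; or by `m6_eq`, which is a polynomial expression), pass to the limit in the inequality.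
-/

open MeasureTheory Real Set Filter Topology

set_option autoImplicit false

namespace Pool.Agent.Helper92.GC

open Pool.Agent.Helper22.AE
open Pool.Agent.Helper22.AC (n6 IsWt mu)

private def PP_h12 (x y : ℝ) (k : ℤ × ℤ) : Prop :=
  0 < x * (k.1 : ℝ) + y * (k.2 : ℝ) ∨
    (x * (k.1 : ℝ) + y * (k.2 : ℝ) = 0 ∧ (0 < k.1 ∨ (k.1 = 0 ∧ 0 < k.2)))

private lemma pos_h12 (x y : ℝ) : IsPos (PP_h12 x y) where
  zero := by
    intro h
    rcases h with h | ⟨_, h | ⟨_, h⟩⟩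
    · simp at h
    · exact lt_irrefl _ h
    · exact lt_irrefl _ h
  add := by
    intro k l hk hl
    have e : x * ((k + l).1 : ℝ) + y * ((k + l).2 : ℝ) =
        (x * (k.1 : ℝ) + y * (k.2 : ℝ)) + (x * (l.1 : ℝ) + y * (l.2 : ℝ)) := by
      rw [Prod.fst_add, Prod.snd_add]
      push_cast
      ring
    unfold PP_h12 at *
    rw [e]
    rcases hk with hk | ⟨hk, hk'⟩
    · rcases hl with hl | ⟨hl, _⟩
      · exact Or.inl (add_pos hk hl)
      · exact Or.inl (by rw [hl, add_zero]; exact hk)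
    · rcases hl with hl | ⟨hl, hl'⟩
      · exact Or.inl (by rw [hk, zero_add]; exact hl)
      · refine Or.inr ⟨by rw [hk, hl, add_zero], ?_⟩
        rw [Prod.fst_add, Prod.snd_add]
        omega
  tri := by
    intro k hk
    have e : x * ((-k).1 : ℝ) + y * ((-k).2 : ℝ) = -(x * (k.1 : ℝ) + y * (k.2 : ℝ)) := by
      rw [Prod.fst_neg, Prod.snd_neg]
      push_cast
      ring
    unfold PP_h12
    rw [e, Prod.fst_neg, Prod.snd_neg]
    rcases lt_trichotomy (x * (k.1 : ℝ) + y * (k.2 : ℝ)) 0 with h | h | h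
    · exact Or.inr (Or.inl (by linarith))
    · have h1 : k.1 ≠ 0 ∨ k.2 ≠ 0 := by
        by_contra hcon
        push Not at hcon
        exact hk (Prod.ext hcon.1 hcon.2)
      rw [h]
      have h2 : (0 < k.1 ∨ (k.1 = 0 ∧ 0 < k.2)) ∨ (0 < -k.1 ∨ (-k.1 = 0 ∧ 0 < -k.2)) := by omega
      rcases h2 with h2 | h2
      · exact Or.inl (Or.inr ⟨rfl, h2⟩)
      · exact Or.inr (Or.inr ⟨neg_zero, h2⟩)
    · exact Or.inl (Or.inl h)

private lemma shift_h12 (S : Finset (ℤ × ℤ)) (a : ℤ × ℤ → ℂ) (k₀ : ℤ × ℤ) :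
    m6 (S.image (fun k => k - k₀)) (fun k => a (k + k₀)) = m6 S a := by
  unfold m6
  congr 1
  funext c
  have h1 : tp (S.image (fun k => k - k₀)) (fun k => a (k + k₀)) c = ee (dt (-k₀) c) * tp S a c := by
    unfold tp
    rw [Finset.sum_image (fun k _ l _ h => sub_left_injective h), Finset.mul_sum]
    refine Finset.sum_congr rfl fun k _ => ?_
    change a (k - k₀ + k₀) * ee (dt (k - k₀) c) = ee (dt (-k₀) c) * (a k * ee (dt k c))
    rw [sub_add_cancel, sub_eq_add_neg, dt_add, ee_add]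
    ring
  rw [h1, norm_mul, ee_norm, one_mul]

private lemma m6_filter'_h12 (S : Finset (ℤ × ℤ)) (p : ℤ × ℤ → Prop) [DecidablePred p]
    (a : ℤ × ℤ → ℂ) : m6 (S.filter p) a = m6 S (fun k => (if p k then 1 else 0) * a k) := by
  have h := m6_filter S p a
  have e1 : S.filter p = @Finset.filter _ p (fun k => Classical.propDecidable (p k)) S := by
    ext k
    simp only [Finset.mem_filter]
  rw [e1, h]
  refine m6_congr fun k _ => ?_
  by_cases hk : p k
  · rw [if_pos hk, if_pos hk]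
  · rw [if_neg hk, if_neg hk]

open Classical in
theorem riesz_half (S : Finset (ℤ × ℤ)) (a : ℤ × ℤ → ℂ) (x y z : ℝ) :
    m6 (S.filter (fun k => z ≤ x * (k.1 : ℝ) + y * (k.2 : ℝ))) a ≤ 14 ^ 6 * m6 S a := by
  by_cases hall : ∀ k ∈ S, z ≤ x * (k.1 : ℝ) + y * (k.2 : ℝ)
  · rw [Finset.filter_true_of_mem hall]
    have := m6_nonneg S a
    linarith
  · push Not at hall
    obtain ⟨k₁, hk₁, hk₁'⟩ := hall
    obtain ⟨k₀, hk₀, hmax⟩ := Finset.exists_max_image
      (S.filter (fun k => x * (k.1 : ℝ) + y * (k.2 : ℝ) < z))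
      (fun k : ℤ × ℤ => toLex (x * (k.1 : ℝ) + y * (k.2 : ℝ), toLex (k.1, k.2)))
      ⟨k₁, Finset.mem_filter.2 ⟨hk₁, hk₁'⟩⟩
    rw [Finset.mem_filter] at hk₀
    have key : ∀ k ∈ S, (z ≤ x * (k.1 : ℝ) + y * (k.2 : ℝ) ↔ PP_h12 x y (k - k₀)) := by
      intro k hk
      have e : x * ((k - k₀).1 : ℝ) + y * ((k - k₀).2 : ℝ) =
          (x * (k.1 : ℝ) + y * (k.2 : ℝ)) - (x * (k₀.1 : ℝ) + y * (k₀.2 : ℝ)) := by
        rw [Prod.fst_sub, Prod.snd_sub]
        push_cast
        ring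
      unfold PP_h12
      rw [e, Prod.fst_sub, Prod.snd_sub]
      constructor
      · intro h
        exact Or.inl (by linarith [hk₀.2])
      · intro h
        by_contra hcon
        push Not at hcon
        have h1 := hmax k (Finset.mem_filter.2 ⟨hk, hcon⟩)
        rw [Prod.Lex.toLex_le_toLex] at h1
        rcases h1 with h1 | ⟨h1, h2⟩
        · rcases h with h | ⟨h, _⟩
          · simp only at h1
            linarith
          · simp only at h1
            linarith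
        · simp only at h1 h2
          rw [Prod.Lex.toLex_le_toLex] at h2
          simp only at h2
          rcases h with h | ⟨_, h⟩
          · linarith
          · omega
    have h1 : m6 ((S.image (fun k => k - k₀)).filter (PP_h12 x y)) (fun k => a (k + k₀)) =
        m6 (S.filter (fun k => z ≤ x * (k.1 : ℝ) + y * (k.2 : ℝ))) a := by
      rw [← shift_h12 (S.filter (fun k => z ≤ x * (k.1 : ℝ) + y * (k.2 : ℝ))) a k₀]
      congr 1
      rw [Finset.filter_image]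
      congr 1
      exact Finset.filter_congr fun k hk => (key k hk).symm
    rw [← h1, ← shift_h12 S a k₀]
    exact riesz_pos (pos_h12 x y) _ _

open Classical in
theorem mul_half (S : Finset (ℤ × ℤ)) (x y z : ℝ) :
    IsMul S (fun k => if z ≤ x * (k.1 : ℝ) + y * (k.2 : ℝ) then 1 else 0) 14 := by
  refine ⟨by norm_num, fun a => ?_⟩
  have h1 := riesz_half S a x y z
  rw [m6_filter'_h12] at h1
  exact h1

theorem mul_const (S : Finset (ℤ × ℤ)) (z : ℂ) : IsMul S (fun _ => z) ‖z‖ :=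
  ⟨norm_nonneg z, fun a => le_of_eq (m6_smul S z a)⟩

theorem mul_comp {S : Finset (ℤ × ℤ)} {b b' : ℤ × ℤ → ℂ} {C C' : ℝ} (h : IsMul S b C) (h' : IsMul S b' C') :
    IsMul S (fun k => b k * b' k) (C * C') := by
  refine ⟨mul_nonneg h.1 h'.1, fun a => ?_⟩
  have h1 := h.2 (fun k => b' k * a k)
  have h2 := h'.2 a
  have h3 : m6 S (fun k => b k * b' k * a k) = m6 S (fun k => b k * (b' k * a k)) :=
    m6_congr fun k _ => mul_assoc _ _ _
  rw [h3]
  calc m6 S (fun k => b k * (b' k * a k)) ≤ C ^ 6 * m6 S (fun k => b' k * a k) := h1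
    _ ≤ C ^ 6 * (C' ^ 6 * m6 S a) := mul_le_mul_of_nonneg_left h2 (pow_nonneg h.1 6)
    _ = (C * C') ^ 6 * m6 S a := by ring

theorem mul_add {S : Finset (ℤ × ℤ)} {b b' : ℤ × ℤ → ℂ} {C C' : ℝ} (h : IsMul S b C) (h' : IsMul S b' C') :
    IsMul S (fun k => b k + b' k) (C + C') := by
  refine ⟨add_nonneg h.1 h'.1, fun a => ?_⟩
  have root : ∀ {D : ℝ} {b : ℤ × ℤ → ℂ}, IsMul S b D →
      m6 S (fun k => b k * a k) ^ (1 / 6 : ℝ) ≤ D * m6 S a ^ (1 / 6 : ℝ) := by
    intro D b hb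
    have h1 : m6 S (fun k => b k * a k) ^ (1 / 6 : ℝ) ≤ (D ^ 6 * m6 S a) ^ (1 / 6 : ℝ) :=
      rpow_le_rpow (m6_nonneg _ _) (hb.2 a) (by norm_num)
    refine h1.trans (le_of_eq ?_)
    rw [mul_rpow (pow_nonneg hb.1 6) (m6_nonneg _ _), ← rpow_natCast D 6, ← rpow_mul hb.1]
    norm_num
  have h3 : m6 S (fun k => (b k + b' k) * a k) = m6 S (fun k => b k * a k + b' k * a k) :=
    m6_congr fun k _ => add_mul _ _ _
  have h4 : m6 S (fun k => (b k + b' k) * a k) ^ (1 / 6 : ℝ) ≤ (C + C') * m6 S a ^ (1 / 6 : ℝ) := by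
    rw [h3]
    refine (m6_add S _ _).trans ?_
    have := root h
    have := root h'
    linarith
  have e : ∀ X : ℝ, 0 ≤ X → (X ^ (1 / 6 : ℝ)) ^ 6 = X := by
    intro X hX
    rw [← rpow_natCast, ← rpow_mul hX]
    norm_num
  calc m6 S (fun k => (b k + b' k) * a k)
      = (m6 S (fun k => (b k + b' k) * a k) ^ (1 / 6 : ℝ)) ^ 6 := (e _ (m6_nonneg _ _)).symm
    _ ≤ ((C + C') * m6 S a ^ (1 / 6 : ℝ)) ^ 6 :=
        pow_le_pow_left₀ (rpow_nonneg (m6_nonneg _ _) _) h4 6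
    _ = (C + C') ^ 6 * m6 S a := by rw [mul_pow, e _ (m6_nonneg _ _)]

theorem mul_weaken {S : Finset (ℤ × ℤ)} {b : ℤ × ℤ → ℂ} {C C' : ℝ} (h : IsMul S b C) (hC : C ≤ C') : IsMul S b C' :=
  ⟨h.1.trans hC, fun a => (h.2 a).trans
    (mul_le_mul_of_nonneg_right (pow_le_pow_left₀ h.1 hC 6) (m6_nonneg _ _))⟩

theorem mul_mono {S S' : Finset (ℤ × ℤ)} (hS : S' ⊆ S) {b : ℤ × ℤ → ℂ} {C : ℝ} (h : IsMul S b C) : IsMul S' b C := by
  classical
  refine ⟨h.1, fun a => ?_⟩
  have e : S.filter (fun k => k ∈ S') = S' := by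
    ext k
    rw [Finset.mem_filter]
    exact ⟨fun hk => hk.2, fun hk => ⟨hS hk, hk⟩⟩
  have h1 := h.2 (fun k => (if k ∈ S' then 1 else 0) * a k)
  have h2 : ∀ a : ℤ × ℤ → ℂ, m6 S' a = m6 S (fun k => (if k ∈ S' then 1 else 0) * a k) := by
    intro a
    have := m6_filter'_h12 S (fun k => k ∈ S') a
    rw [e] at this
    exact this
  rw [h2 a, h2 (fun k => b k * a k)]
  refine le_trans (le_of_eq (m6_congr fun k _ => ?_)) h1
  ring

theorem mul_congr {S : Finset (ℤ × ℤ)} {b b' : ℤ × ℤ → ℂ} (hb : ∀ k ∈ S, b k = b' k) {C : ℝ} (h : IsMul S b C) :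
    IsMul S b' C :=
  ⟨h.1, fun a => le_trans (le_of_eq (m6_congr fun k hk => by rw [hb k hk])) (h.2 a)⟩

private lemma exists_gt_h12 (S : Finset (ℤ × ℤ)) (s : ℤ × ℤ → ℝ) (z : ℝ) :
    ∃ z' : ℝ, z < z' ∧ ∀ k ∈ S, (z' ≤ s k ↔ z < s k) := by
  classical
  induction S using Finset.induction_on with
  | empty => exact ⟨z + 1, by linarith, fun k hk => absurd hk (Finset.notMem_empty k)⟩
  | insert l S hl ih =>
    obtain ⟨z', hz', h⟩ := ih
    by_cases hs : z < s l
    · refine ⟨min z' (s l), lt_min hz' hs, fun k hk => ?_⟩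
      rcases Finset.mem_insert.1 hk with rfl | hk
      · exact ⟨fun _ => hs, fun _ => min_le_right _ _⟩
      · exact ⟨fun h1 => lt_of_lt_of_le (lt_min hz' hs) h1,
          fun h1 => (min_le_left _ _).trans ((h k hk).2 h1)⟩
    · refine ⟨z', hz', fun k hk => ?_⟩
      rcases Finset.mem_insert.1 hk with rfl | hk
      · exact ⟨fun h1 => lt_of_lt_of_le hz' h1, fun h1 => absurd h1 hs⟩
      · exact h k hk

open Classical in
theorem mul_half_lt (S : Finset (ℤ × ℤ)) (x y z : ℝ) :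
    IsMul S (fun k => if z < x * (k.1 : ℝ) + y * (k.2 : ℝ) then 1 else 0) 14 := by
  obtain ⟨z', _, h⟩ := exists_gt_h12 S (fun k => x * (k.1 : ℝ) + y * (k.2 : ℝ)) z
  refine mul_congr (fun k hk => ?_) (mul_half S x y z')
  have h1 := h k hk
  by_cases h2 : z < x * (k.1 : ℝ) + y * (k.2 : ℝ)
  · rw [if_pos h2, if_pos (h1.2 h2)]
  · rw [if_neg h2, if_neg (fun h3 => h2 (h1.1 h3))]

open Classical in
theorem cut_u (S : Finset (ℤ × ℤ)) (β z : ℝ) : IsMul S (fun k => if z ≤ uu β k then 1 else 0) 14 := by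
  refine mul_congr (fun k _ => ?_) (mul_half S 1 β z)
  unfold uu
  rw [one_mul]

open Classical in
theorem cut_t {S : Finset (ℤ × ℤ)} {β : ℝ} (hS : ∀ k ∈ S, 0 < uu β k) (z : ℝ) :
    IsMul S (fun k => if z ≤ tt β k then 1 else 0) 14 := by
  refine mul_congr (fun k hk => ?_) (mul_half S (-z) (1 - z * β) 0)
  have h1 : 0 ≤ -z * (k.1 : ℝ) + (1 - z * β) * (k.2 : ℝ) ↔ z ≤ tt β k := by
    unfold tt
    rw [le_div_iff₀ (hS k hk)]
    unfold uu
    constructor
    · intro h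
      linarith
    · intro h
      linarith
  by_cases h2 : z ≤ tt β k
  · rw [if_pos h2, if_pos (h1.2 h2)]
  · rw [if_neg h2, if_neg (fun h3 => h2 (h1.1 h3))]

theorem mul_lim {S : Finset (ℤ × ℤ)} {b : ℕ → ℤ × ℤ → ℂ} {b' : ℤ × ℤ → ℂ} {C : ℝ} (h : ∀ n, IsMul S (b n) C)
    (hl : ∀ k ∈ S, Tendsto (fun n => b n k) atTop (𝓝 (b' k))) : IsMul S b' C := by
  refine ⟨(h 0).1, fun a => ?_⟩
  have h1 : Tendsto (fun n => m6 S (fun k => b n k * a k)) atTop (𝓝 (m6 S (fun k => b' k * a k))) := by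
    simp only [m6_eq]
    refine tendsto_finsetSum _ fun l _ => ?_
    refine Tendsto.pow (Tendsto.norm ?_) 2
    unfold cub
    refine tendsto_finsetSum _ fun k hk => ?_
    rw [Finset.mem_filter, Finset.mem_product, Finset.mem_product] at hk
    obtain ⟨⟨h2, h3, h4⟩, _⟩ := hk
    exact (((hl _ h2).mul_const _).mul ((hl _ h3).mul_const _)).mul ((hl _ h4).mul_const _)
  exact le_of_tendsto h1 (Eventually.of_forall fun n => (h n).2 a)

end Pool.Agent.Helper92.GC
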