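import Pool.Agent.Helper92.GC.N2
import Pool.Agent.Helper92.GC.N7

/-!
# GC-L1: arcs near rational directions with small denominators

Put `σ = 12/N`, `t_j = -6 + 12 (j + 1/2)/N`.
PROOF. `arc_mem`: `k ∈ arc β (reg β H) N j` iff `k ∈ reg β H` and `t_j - σ/2 ≤ tt β k < t_j + σ/2` (`tt + 6 ≥ 0` on `reg`; `Nat.floor_eq_iff`).
For `g = g_j` of the hypothesis, `z = zz β g`, `τ = tg β g`, and `k ∈ arc j`, `u = uu β k ∈ [H/4, 8H]`, `k.2 = u t`: `k.1 g.1 + k.2 g.2 = g.1 u + k.2 z = u z (t - τ)`, so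
`|k · g| ≤ 8H z (σ/2 + s + 2d/z) ≤ 8H (1.5 z s + 2d) ≤ 28 H d s/σ` (`σ ≤ s`, `z ≤ d/σ`). `line_arc`: the number of `k ∈ reg β H` with `|k · g| ≤ L` is at most `(2L + 1)(1 + 8H/z)`: for each integer `ν = k · g` the solutions
differ by multiples of `(-g.2, g.1)` (`g` primitive), for which `u` changes by multiples of `z`. As `z ≤ d/σ ≤ H`: at most `57 (1 + H d s/σ) · 9H/z`. For a fixed `g`, all the arcs `j ∈ J` with `g_j = g` are disjoint and
contained in this set, so `∑_{j : g_j = g} card^(5/3) ≤ (∑ card)^(5/3) ≤ (513 (1 + H d s/σ) H/z)^(5/3)`. Sum over the different `g`: `dir_sum` with `Z₀ = d/σ` (`|g.1| ≤ (6 + s) z + 2d` because `|t_j| ≤ 6`; `z ≥ 1/8`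
since otherwise `g.1 = 0` and `z = g.2` is a positive integer; so `|g.1| ≤ 7z`).
-/

open MeasureTheory Real Set Filter Topology

set_option autoImplicit false

namespace Pool.Agent.Helper92.GC

open Pool.Agent.Helper22.AE
open Pool.Agent.Helper22.AC (n6 IsWt mu)

private theorem regmem57 {β H : ℝ} {k : ℤ × ℤ} (hk : k ∈ reg β H) :
    H / 4 ≤ uu β k ∧ uu β k ≤ 8 * H ∧ |(k.2 : ℝ)| ≤ 5 * uu β k := by
  unfold reg at hk
  exact (Finset.mem_filter.1 hk).2

theorem arc_mem {β H : ℝ} {N j : ℕ} (hH : 0 < H) (hN : 1 ≤ N) (k : ℤ × ℤ) : k ∈ arc β (reg β H) N j ↔ k ∈ reg β H ∧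
    (-6 + 12 * ((j : ℝ) + 1 / 2) / N) - 12 / N / 2 ≤ tt β k ∧ tt β k < (-6 + 12 * ((j : ℝ) + 1 / 2) / N) + 12 / N / 2 := by
  unfold arc
  rw [Finset.mem_filter]
  refine and_congr_right fun hk => ?_
  obtain ⟨h1, h2, h3⟩ := regmem57 hk
  have hN0 : (0 : ℝ) < N := by exact_mod_cast hN
  have hu : 0 < uu β k := by linarith
  have ht : |tt β k| ≤ 5 := by
    unfold tt
    rw [abs_div, abs_of_pos hu, div_le_iff₀ hu]
    exact h3
  have ht0 : 0 ≤ tt β k + 6 := by linarith [(abs_le.1 ht).1]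
  rw [Nat.floor_eq_iff (by positivity)]
  have e1 : (-6 + 12 * ((j : ℝ) + 1 / 2) / N) - 12 / N / 2 = -6 + 12 * (j : ℝ) / N := by
    field_simp
    ring
  have e2 : (-6 + 12 * ((j : ℝ) + 1 / 2) / N) + 12 / N / 2 = -6 + 12 * ((j : ℝ) + 1) / N := by
    field_simp
    ring
  rw [e1, e2]
  constructor
  · rintro ⟨a, b⟩
    constructor
    · have : 12 * (j : ℝ) / N ≤ tt β k + 6 := by
        rw [div_le_iff₀ hN0]
        linarith
      linarith
    · have : tt β k + 6 < 12 * ((j : ℝ) + 1) / N := by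
        rw [lt_div_iff₀ hN0]
        linarith
      linarith
  · rintro ⟨a, b⟩
    constructor
    · have : 12 * (j : ℝ) / N ≤ tt β k + 6 := by linarith
      rw [div_le_iff₀ hN0] at this
      linarith
    · have : tt β k + 6 < 12 * ((j : ℝ) + 1) / N := by linarith
      rw [lt_div_iff₀ hN0] at this
      linarith

private theorem sep57 {ι : Type} (S : Finset ι) (f : ι → ℝ) {a L δ : ℝ} (hL : 0 ≤ L) (hδ : 0 < δ)
    (hf : ∀ i ∈ S, a ≤ f i ∧ f i ≤ a + L) (hs : ∀ i ∈ S, ∀ j ∈ S, i ≠ j → δ ≤ |f i - f j|) :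
    (S.card : ℝ) ≤ 1 + L / δ := by
  have key : ∀ i ∈ S, ∀ j ∈ S, f j ≤ f i → ⌊(f i - a) / δ⌋ = ⌊(f j - a) / δ⌋ → i = j := by
    intro i hi j hj hij h
    by_contra hne
    have h1 := hs i hi j hj hne
    rw [abs_of_nonneg (by linarith)] at h1
    have h2 : (f j - a) / δ + 1 ≤ (f i - a) / δ := by
      rw [← sub_nonneg]
      have h3 : (f i - a) / δ - ((f j - a) / δ + 1) = (f i - f j - δ) / δ := by
        field_simp
        ring
      rw [h3]
      exact div_nonneg (by linarith) hδ.le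
    have h3 := Int.floor_le_floor h2
    rw [Int.floor_add_one] at h3
    omega
  have hinj : Set.InjOn (fun i => ⌊(f i - a) / δ⌋) (S : Set ι) := by
    intro i hi j hj h
    rcases le_total (f j) (f i) with h1 | h1
    · exact key i hi j hj h1 h
    · exact (key j hj i hi h1 h.symm).symm
  have hmap : ∀ i ∈ S, (fun i => ⌊(f i - a) / δ⌋) i ∈ Finset.Icc (0 : ℤ) ⌊L / δ⌋ := by
    intro i hi
    obtain ⟨h1, h2⟩ := hf i hi
    rw [Finset.mem_Icc]
    constructor
    · exact Int.floor_nonneg.2 (div_nonneg (by linarith) hδ.le)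
    · exact Int.floor_le_floor (div_le_div_of_nonneg_right (by linarith) hδ.le)
  have hcard := Finset.card_le_card_of_injOn _ hmap hinj
  rw [Int.card_Icc] at hcard
  have h0 : (0 : ℤ) ≤ ⌊L / δ⌋ := Int.floor_nonneg.2 (by positivity)
  have h2 : (S.card : ℤ) ≤ ⌊L / δ⌋ + 1 := by omega
  have h3 : (S.card : ℝ) ≤ (⌊L / δ⌋ : ℝ) + 1 := by exact_mod_cast h2
  have h4 := Int.floor_le (L / δ)
  linarith

open Classical in
theorem line_arc {β H L : ℝ} (hH : 0 < H) (hL : 0 ≤ L) {g : ℤ × ℤ} (hg : IsCoprime g.1 g.2) (hz : 0 < zz β g) :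
    (((reg β H).filter (fun k => |((sp k g : ℤ) : ℝ)| ≤ L)).card : ℝ) ≤ (2 * L + 1) * (1 + 8 * H / zz β g) := by
  set S := (reg β H).filter (fun k => |((sp k g : ℤ) : ℝ)| ≤ L) with hS
  have hmap : (S : Set (ℤ × ℤ)).MapsTo (fun k => sp k g) (Finset.Icc (-⌊L⌋) ⌊L⌋ : Finset ℤ) := by
    intro k hk
    rw [Finset.mem_coe, hS, Finset.mem_filter] at hk
    have h1 := abs_le.1 hk.2
    rw [Finset.mem_coe, Finset.mem_Icc]
    constructor
    · have h2 : ((-(sp k g) : ℤ) : ℝ) ≤ L := by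
        push_cast
        linarith
      have h3 : -(sp k g) ≤ ⌊L⌋ := Int.le_floor.2 h2
      change -⌊L⌋ ≤ sp k g
      omega
    · exact Int.le_floor.2 h1.2
  rw [Finset.card_eq_sum_card_fiberwise hmap]
  push_cast
  have hfib : ∀ ν ∈ Finset.Icc (-⌊L⌋) ⌊L⌋, ((S.filter (fun k => sp k g = ν)).card : ℝ) ≤ 1 + 8 * H / zz β g := by
    intro ν _
    refine sep57 (S.filter (fun k => sp k g = ν)) (uu β) (a := 0) (by positivity) hz ?_ ?_
    · intro k hk
      rw [Finset.mem_filter, hS, Finset.mem_filter] at hk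
      obtain ⟨h1, h2, h3⟩ := regmem57 hk.1.1
      exact ⟨by linarith, by linarith⟩
    · intro k hk k' hk' hne
      rw [Finset.mem_filter] at hk hk'
      have h1 : sp k g = sp k' g := by rw [hk.2, hk'.2]
      unfold sp at h1
      -- the difference is a multiple of (-g.2, g.1)
      obtain ⟨x, y, hxy⟩ := hg
      have h2 : (k.1 - k'.1) * g.1 = -(k.2 - k'.2) * g.2 := by linear_combination h1
      set m : ℤ := x * (k.2 - k'.2) - y * (k.1 - k'.1) with hm
      have h3 : k.2 - k'.2 = m * g.1 := by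
        rw [hm]
        linear_combination (-(k.2 - k'.2)) * hxy + y * h2
      have h4 : k.1 - k'.1 = -(m * g.2) := by
        rw [hm]
        linear_combination (-(k.1 - k'.1)) * hxy + x * h2
      have hm0 : m ≠ 0 := by
        intro h0
        rw [h0] at h3 h4
        apply hne
        refine Prod.ext ?_ ?_
        · linarith
        · linarith
      have h3' : (k.2 : ℝ) - k'.2 = m * g.1 := by exact_mod_cast h3
      have h4' : (k.1 : ℝ) - k'.1 = -(m * g.2) := by exact_mod_cast h4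
      have e1 : uu β k - uu β k' = -(m * zz β g) := by
        unfold uu zz
        linear_combination h4' + β * h3'
      rw [e1, abs_neg, abs_mul, abs_of_pos hz]
      have h5 : (1 : ℝ) ≤ |(m : ℝ)| := by
        have := Int.one_le_abs hm0
        exact_mod_cast this
      nlinarith
  have h0 : (0 : ℤ) ≤ ⌊L⌋ := Int.floor_nonneg.2 hL
  have hpos : 0 ≤ 1 + 8 * H / zz β g := by positivity
  calc ∑ ν ∈ Finset.Icc (-⌊L⌋) ⌊L⌋, ((S.filter (fun k => sp k g = ν)).card : ℝ) ≤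
        ∑ _ν ∈ Finset.Icc (-⌊L⌋) ⌊L⌋, (1 + 8 * H / zz β g) := Finset.sum_le_sum hfib
    _ = ((Finset.Icc (-⌊L⌋) ⌊L⌋).card : ℝ) * (1 + 8 * H / zz β g) := by
        rw [Finset.sum_const, nsmul_eq_mul]
    _ ≤ (2 * L + 1) * (1 + 8 * H / zz β g) := by
        refine mul_le_mul_of_nonneg_right ?_ hpos
        rw [Int.card_Icc]
        have h2 : (((⌊L⌋ + 1 - -⌊L⌋).toNat : ℕ) : ℤ) = 2 * ⌊L⌋ + 1 := by
          rw [Int.toNat_of_nonneg (by omega)]
          ring
        have h3 : (((⌊L⌋ + 1 - -⌊L⌋).toNat : ℕ) : ℝ) = 2 * (⌊L⌋ : ℝ) + 1 := by exact_mod_cast h2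
        rw [h3]
        have := Int.floor_le L
        linarith

private theorem sumrpow57 {ι : Type*} (S : Finset ι) {x : ι → ℝ} (hx : ∀ i ∈ S, 0 ≤ x i) :
    ∑ i ∈ S, x i ^ (5 / 3 : ℝ) ≤ (∑ i ∈ S, x i) ^ (5 / 3 : ℝ) := by
  have h0 : 0 ≤ ∑ i ∈ S, x i := Finset.sum_nonneg hx
  have h1 : ∀ y : ℝ, 0 ≤ y → y ^ (5 / 3 : ℝ) = y * y ^ (2 / 3 : ℝ) := by
    intro y hy
    rcases hy.eq_or_lt with h | h
    · rw [← h, Real.zero_rpow (by norm_num), zero_mul]
    · rw [show (5 / 3 : ℝ) = 1 + 2 / 3 by norm_num, Real.rpow_add h, Real.rpow_one]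
  rw [h1 _ h0, Finset.sum_mul]
  refine Finset.sum_le_sum fun i hi => ?_
  rw [h1 _ (hx i hi)]
  refine mul_le_mul_of_nonneg_left ?_ (hx i hi)
  exact Real.rpow_le_rpow (hx i hi) (Finset.single_le_sum hx hi) (by norm_num)

/-- the vector `k` of the arc is nearly orthogonal to `g` -/
private theorem sp57 {β H s d σ tj : ℝ} {k g : ℤ × ℤ} (hu1 : 0 < uu β k) (hu2 : uu β k ≤ 8 * H)
    (ht : |tt β k - tj| ≤ σ / 2) (hσ : 0 < σ) (hσs : σ ≤ s) (hd : 0 < d) (hz : 0 < zz β g) (hz2 : zz β g ≤ d / σ)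
    (hg : |tg β g - tj| ≤ s + 2 * d / zz β g) : |((sp k g : ℤ) : ℝ)| ≤ 28 * (H * d * s / σ) := by
  have hk : (k.2 : ℝ) = uu β k * tt β k := by
    unfold tt
    rw [mul_div_cancel₀ _ hu1.ne']
  have hg1 : (g.1 : ℝ) = -(zz β g * tg β g) := by
    unfold tg
    field_simp
  have e1 : ((sp k g : ℤ) : ℝ) = uu β k * zz β g * (tt β k - tg β g) := by
    have e2 : ((sp k g : ℤ) : ℝ) = uu β k * g.1 + k.2 * zz β g := by
      unfold sp uu zz
      push_cast
      ring
    rw [e2, hk, hg1]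
    ring
  have h1 : |tt β k - tg β g| ≤ σ / 2 + (s + 2 * d / zz β g) := by
    have e2 : tt β k - tg β g = (tt β k - tj) - (tg β g - tj) := by ring
    rw [e2]
    exact (abs_sub _ _).trans (by linarith)
  have hs : 0 < s := by linarith
  have h2 : zz β g * (σ / 2 + (s + 2 * d / zz β g)) ≤ 7 / 2 * (d * s / σ) := by
    have e2 : zz β g * (σ / 2 + (s + 2 * d / zz β g)) = zz β g * (σ / 2 + s) + 2 * d := by
      field_simp
      ring
    have h3 : zz β g * (σ / 2 + s) ≤ d / σ * (3 / 2 * s) :=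
      mul_le_mul hz2 (by linarith) (by positivity) (by positivity)
    have h4 : d ≤ d * s / σ := by
      rw [le_div_iff₀ hσ]
      exact mul_le_mul_of_nonneg_left hσs hd.le
    have e3 : d / σ * (3 / 2 * s) = 3 / 2 * (d * s / σ) := by ring
    rw [e2]
    linarith
  have hH : 0 < 8 * H := by linarith
  rw [e1, abs_mul, abs_of_pos (by positivity)]
  calc uu β k * zz β g * |tt β k - tg β g| ≤ uu β k * zz β g * (σ / 2 + (s + 2 * d / zz β g)) :=
        mul_le_mul_of_nonneg_left h1 (by positivity)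
    _ = uu β k * (zz β g * (σ / 2 + (s + 2 * d / zz β g))) := by ring
    _ ≤ 8 * H * (7 / 2 * (d * s / σ)) := mul_le_mul hu2 h2 (by positivity) hH.le
    _ = 28 * (H * d * s / σ) := by ring

theorem ltype : ∃ C : ℝ, 0 < C ∧ ∀ (β H s d : ℝ) (N : ℕ) (J : Finset ℕ), |β| ≤ 1 / 2 → 1 ≤ H → 1 ≤ N → 12 / (N : ℝ) ≤ s →
    s ≤ 1 / 1000 → 0 < d → d ≤ 1 / 1000 → d ≤ 12 / (N : ℝ) * H → J ⊆ Finset.range N →
    (∀ j ∈ J, ∃ g : ℤ × ℤ, IsCoprime g.1 g.2 ∧ 0 < zz β g ∧ zz β g ≤ d / (12 / (N : ℝ)) ∧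
      |tg β g - (-6 + 12 * ((j : ℝ) + 1 / 2) / N)| ≤ s + 2 * d / zz β g) →
      ∑ j ∈ J, ((arc β (reg β H) N j).card : ℝ) ^ (5 / 3 : ℝ) ≤
        C * (1 + H * d * s / (12 / (N : ℝ))) ^ (5 / 3 : ℝ) * H ^ (5 / 3 : ℝ) * (d / (12 / (N : ℝ))) ^ (1 / 3 : ℝ) := by
  classical
  obtain ⟨C', hC', hdir⟩ := dir_sum
  refine ⟨513 ^ (5 / 3 : ℝ) * C', by positivity, ?_⟩
  intro β H s d N J hβ hH hN hσs hs hd hd1 hdH hJ hg
  have hN0 : (0 : ℝ) < N := by exact_mod_cast hN
  have hH0 : 0 < H := by linarith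
  set σ : ℝ := 12 / (N : ℝ) with hσdef
  have hσ : 0 < σ := by positivity
  have hs0 : 0 < s := by linarith
  have hch : ∀ j : ℕ, ∃ g : ℤ × ℤ, j ∈ J → IsCoprime g.1 g.2 ∧ 0 < zz β g ∧ zz β g ≤ d / σ ∧
      |tg β g - (-6 + 12 * ((j : ℝ) + 1 / 2) / N)| ≤ s + 2 * d / zz β g := by
    intro j
    by_cases hj : j ∈ J
    · obtain ⟨g, h⟩ := hg j hj
      exact ⟨g, fun _ => h⟩
    · exact ⟨0, fun h => absurd h hj⟩
  choose gg hgg using hch
  set X : ℝ := H * d * s / σ with hX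
  have hX0 : 0 < X := by positivity
  -- the total of the arcs of one direction
  have hone : ∀ g ∈ J.image gg, ∑ j ∈ J.filter (fun j => gg j = g), ((arc β (reg β H) N j).card : ℝ) ≤
      513 * (1 + X) * H / zz β g := by
    intro g hgJ
    rw [Finset.mem_image] at hgJ
    obtain ⟨j₀, hj₀, rfl⟩ := hgJ
    obtain ⟨c1, c2, c3, c4⟩ := hgg j₀ hj₀
    set g := gg j₀ with hgdef
    have hdisj : Set.PairwiseDisjoint (↑(J.filter (fun j => gg j = g)) : Set ℕ) (fun j => arc β (reg β H) N j) := by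
      intro i _ j _ hij
      change Disjoint (arc β (reg β H) N i) (arc β (reg β H) N j)
      rw [Finset.disjoint_left]
      intro k hk hk'
      unfold arc at hk hk'
      rw [Finset.mem_filter] at hk hk'
      exact hij (hk.2.symm.trans hk'.2)
    have h1 : ∑ j ∈ J.filter (fun j => gg j = g), ((arc β (reg β H) N j).card : ℝ) =
        (((J.filter (fun j => gg j = g)).biUnion (fun j => arc β (reg β H) N j)).card : ℝ) := by
      rw [Finset.card_biUnion hdisj]
      push_cast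
      rfl
    rw [h1]
    have h2 : (J.filter (fun j => gg j = g)).biUnion (fun j => arc β (reg β H) N j) ⊆
        (reg β H).filter (fun k => |((sp k g : ℤ) : ℝ)| ≤ 28 * X) := by
      intro k hk
      rw [Finset.mem_biUnion] at hk
      obtain ⟨j, hj, hk⟩ := hk
      rw [Finset.mem_filter] at hj
      obtain ⟨hjJ, hjg⟩ := hj
      rw [arc_mem hH0 hN] at hk
      obtain ⟨hkr, ht1, ht2⟩ := hk
      obtain ⟨u1, u2, u3⟩ := regmem57 hkr
      obtain ⟨-, -, -, c4'⟩ := hgg j hjJ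
      rw [hjg] at c4'
      rw [Finset.mem_filter]
      refine ⟨hkr, ?_⟩
      refine sp57 (tj := -6 + 12 * ((j : ℝ) + 1 / 2) / N) (by linarith) u2 ?_ hσ hσs hd c2 c3 c4'
      rw [abs_le]
      constructor
      · linarith
      · linarith
    have h3 := line_arc (β := β) (H := H) (L := 28 * X) hH0 (by positivity) c1 c2
    have h4 : (((J.filter (fun j => gg j = g)).biUnion (fun j => arc β (reg β H) N j)).card : ℝ) ≤
        (((reg β H).filter (fun k => |((sp k g : ℤ) : ℝ)| ≤ 28 * X)).card : ℝ) := by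
      exact_mod_cast Finset.card_le_card h2
    refine (h4.trans h3).trans ?_
    have h5 : zz β g ≤ H := by
      refine c3.trans ?_
      rw [div_le_iff₀ hσ]
      linarith
    have h6 : 1 ≤ H / zz β g := by
      rw [le_div_iff₀ c2]
      linarith
    have h7 : 1 + 8 * H / zz β g ≤ 9 * (H / zz β g) := by
      have : 8 * H / zz β g = 8 * (H / zz β g) := by ring
      rw [this]
      linarith
    calc (2 * (28 * X) + 1) * (1 + 8 * H / zz β g) ≤ (57 * (1 + X)) * (9 * (H / zz β g)) :=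
          mul_le_mul (by linarith) h7 (by positivity) (by positivity)
      _ = 513 * (1 + X) * H / zz β g := by ring
  have hone0 : ∀ g ∈ J.image gg, 0 < zz β g := by
    intro g hgJ
    rw [Finset.mem_image] at hgJ
    obtain ⟨j₀, hj₀, rfl⟩ := hgJ
    exact (hgg j₀ hj₀).2.1
  -- the directions
  have hG : ∀ g ∈ J.image gg, 0 < zz β g ∧ zz β g ≤ d / σ ∧ |(g.1 : ℝ)| ≤ 7 * zz β g := by
    intro g hgJ
    rw [Finset.mem_image] at hgJ
    obtain ⟨j, hj, rfl⟩ := hgJ
    obtain ⟨c1, c2, c3, c4⟩ := hgg j hj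
    refine ⟨c2, c3, ?_⟩
    set g := gg j with hgdef
    have hjN : j < N := Finset.mem_range.1 (hJ hj)
    have hjN' : (j : ℝ) + 1 ≤ N := by exact_mod_cast hjN
    have htj : |(-6 + 12 * ((j : ℝ) + 1 / 2) / N)| ≤ 6 := by
      have a1 : 0 ≤ 12 * ((j : ℝ) + 1 / 2) / N := by positivity
      have a2 : 12 * ((j : ℝ) + 1 / 2) / N ≤ 12 := by
        rw [div_le_iff₀ hN0]
        linarith
      rw [abs_le]
      constructor
      · linarith
      · linarith
    have h1 : |(g.1 : ℝ)| = zz β g * |tg β g| := by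
      unfold tg
      rw [abs_div, abs_neg, abs_of_pos c2]
      field_simp
    have h2 : |tg β g| ≤ 6 + (s + 2 * d / zz β g) := by
      have e : tg β g = (-6 + 12 * ((j : ℝ) + 1 / 2) / N) + (tg β g - (-6 + 12 * ((j : ℝ) + 1 / 2) / N)) := by ring
      rw [e]
      exact (abs_add_le _ _).trans (by linarith)
    have h3 : |(g.1 : ℝ)| ≤ zz β g * (6 + s) + 2 * d := by
      rw [h1]
      refine (mul_le_mul_of_nonneg_left h2 c2.le).trans (le_of_eq ?_)
      field_simp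
      ring
    have h4 : 1 / 8 ≤ zz β g := by
      by_contra hcon
      push Not at hcon
      have h5 : |(g.1 : ℝ)| < 1 := by nlinarith
      have h6 : g.1 = 0 := by
        have : |g.1| < 1 := by exact_mod_cast h5
        exact Int.abs_lt_one_iff.1 this
      have h7 : zz β g = g.2 := by
        unfold zz
        rw [h6]
        simp
      rw [h7] at c2 hcon
      have h8 : (0 : ℤ) < g.2 := by exact_mod_cast c2
      have h9 : (1 : ℝ) ≤ g.2 := by exact_mod_cast h8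
      linarith
    nlinarith
  have hsum := hdir β (d / σ) (J.image gg) hβ (by positivity) hG
  rw [← Finset.sum_fiberwise_of_maps_to (s := J) (t := J.image gg) (g := gg)
    (fun j hj => Finset.mem_image_of_mem gg hj)]
  calc ∑ g ∈ J.image gg, ∑ j ∈ J.filter (fun j => gg j = g), ((arc β (reg β H) N j).card : ℝ) ^ (5 / 3 : ℝ)
      ≤ ∑ g ∈ J.image gg, (513 * (1 + X) * H) ^ (5 / 3 : ℝ) * zz β g ^ (-(5 / 3) : ℝ) := by
        refine Finset.sum_le_sum fun g hgJ => ?_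
        have hz := hone0 g hgJ
        refine (sumrpow57 _ fun j _ => Nat.cast_nonneg _).trans ?_
        refine (Real.rpow_le_rpow (Finset.sum_nonneg fun j _ => Nat.cast_nonneg _) (hone g hgJ)
          (by norm_num)).trans (le_of_eq ?_)
        rw [Real.div_rpow (by positivity) hz.le, Real.rpow_neg hz.le, div_eq_mul_inv]
    _ = (513 * (1 + X) * H) ^ (5 / 3 : ℝ) * ∑ g ∈ J.image gg, zz β g ^ (-(5 / 3) : ℝ) := by
        rw [Finset.mul_sum]
    _ ≤ (513 * (1 + X) * H) ^ (5 / 3 : ℝ) * (C' * (d / σ) ^ (1 / 3 : ℝ)) :=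
        mul_le_mul_of_nonneg_left hsum (by positivity)
    _ = 513 ^ (5 / 3 : ℝ) * C' * (1 + X) ^ (5 / 3 : ℝ) * H ^ (5 / 3 : ℝ) * (d / σ) ^ (1 / 3 : ℝ) := by
        rw [Real.mul_rpow (by positivity) hH0.le, Real.mul_rpow (by norm_num) (by positivity)]
        ring

end Pool.Agent.Helper92.GC
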