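import Pool.Agent.Helper92.GC.N13

/-!
# GC-N15: a sum with greatest common divisors

PROOF. `gcd(x,y,w)² F(x,y,w) ≤ ∑_{g | x, y, w} g² F(x,y,w)` (`F ≥ 0`), so with `x = g x'` etc. the sum is at most `∑_{g ≤ N} g² ∑_{x', y', w' ≤ N/g, y' < x' + w'} F(g x', g y', g w')`,
`F = 1/max(x,y) + κ/Dl(x,y,w)`, `F(gx', gy', gw') = 1/(g max(x',y')) + κ/(g² Dl(x',y',w'))`.
First part: `∑_g g (N/g) ∑_{x', y' ≤ N/g} 1/max(x', y') ≤ ∑_g N · 2N/g ≤ 2N² (1 + log N)` (the number of `(x', y')` with maximum `m` is at most `2m`; there are at most `N/g` of `m`, and of `w'`).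
Second part: `κ ∑_g ∑ 1/√(x' w') · 1/√(y' (x' + w' - y'))`: `ang_sum`: `∑_{0 < j < n} 1/√(j (n - j)) ≤ 4` (`j ≤ n/2`: `1/√(j n/2)`, `∑_{j ≤ n/2} 1/√j ≤ 2√(n/2)`). For fixed `n = x' + w' ≤ 2N/g` the sum over `y'` and over
`(x', w')` is at most `16`: second part `≤ κ ∑_g 16 · 2N/g ≤ 32 κ N (1 + log N)`.
-/

open MeasureTheory Real Set Filter Topology

set_option autoImplicit false

namespace Pool.Agent.Helper92.GC

open Pool.Agent.Helper22.AE
open Pool.Agent.Helper22.AC (n6 IsWt mu)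

private theorem inv_sqrt_sum68 (m : ℕ) : ∑ j ∈ Finset.Icc 1 m, 1 / √(j : ℝ) ≤ 2 * √(m : ℝ) := by
  induction m with
  | zero => simp
  | succ m ih =>
    rw [Finset.sum_Icc_succ_top (by omega)]
    have h1 : (0 : ℝ) < √((m : ℝ) + 1) := Real.sqrt_pos.2 (by positivity)
    have h2 : √(m : ℝ) ≤ √((m : ℝ) + 1) := Real.sqrt_le_sqrt (by linarith)
    have h3 : √((m : ℝ) + 1) ^ 2 = m + 1 := Real.sq_sqrt (by positivity)
    have h4 : √(m : ℝ) ^ 2 = m := Real.sq_sqrt (by positivity)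
    have h5 : 1 / √((m : ℝ) + 1) ≤ 2 * (√((m : ℝ) + 1) - √(m : ℝ)) := by
      rw [div_le_iff₀ h1]
      nlinarith [Real.sqrt_nonneg (m : ℝ)]
    push_cast
    linarith

private theorem ang_term68 {a b : ℝ} (ha : 0 < a) (hb : 0 < b) :
    1 / √(a * b) ≤ (1 / √a + 1 / √b) / √(a + b) := by
  have h1 : 0 < √a := Real.sqrt_pos.2 ha
  have h2 : 0 < √b := Real.sqrt_pos.2 hb
  have h3 : 0 < √(a + b) := Real.sqrt_pos.2 (by linarith)
  have h4 : √(a + b) ≤ √a + √b := by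
    rw [Real.sqrt_le_left (by positivity)]
    nlinarith [Real.sq_sqrt ha.le, Real.sq_sqrt hb.le, mul_pos h1 h2]
  rw [Real.sqrt_mul ha.le, div_add_div _ _ h1.ne' h2.ne', div_div,
    div_le_div_iff₀ (by positivity) (by positivity)]
  have h5 := mul_le_mul_of_nonneg_left h4 (mul_pos h1 h2).le
  nlinarith

theorem ang_sum (n : ℕ) : ∑ j ∈ Finset.Ioo 0 n, 1 / √((j : ℝ) * ((n : ℝ) - j)) ≤ 4 := by
  rcases Nat.eq_zero_or_pos n with hn | hn
  · subst hn
    simp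
  · have hn0 : (0 : ℝ) < n := by exact_mod_cast hn
    have hs0 : 0 < √(n : ℝ) := Real.sqrt_pos.2 hn0
    have h1 : ∀ j ∈ Finset.Ioo 0 n, 1 / √((j : ℝ) * ((n : ℝ) - j)) ≤
        (1 / √(j : ℝ) + 1 / √((n : ℝ) - j)) / √(n : ℝ) := by
      intro j hj
      obtain ⟨hj1, hj2⟩ := Finset.mem_Ioo.1 hj
      have hj1' : (0 : ℝ) < j := by exact_mod_cast hj1
      have hj2' : (j : ℝ) < n := by exact_mod_cast hj2
      have h := ang_term68 hj1' (sub_pos.2 hj2')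
      rwa [add_sub_cancel] at h
    have h2 : ∑ j ∈ Finset.Ioo 0 n, 1 / √((n : ℝ) - j) = ∑ j ∈ Finset.Ioo 0 n, 1 / √(j : ℝ) := by
      refine Finset.sum_nbij' (fun j => n - j) (fun j => n - j) ?_ ?_ ?_ ?_ ?_
      · intro j hj
        rw [Finset.mem_Ioo] at hj ⊢
        omega
      · intro j hj
        rw [Finset.mem_Ioo] at hj ⊢
        omega
      · intro j hj
        rw [Finset.mem_Ioo] at hj
        omega
      · intro j hj
        rw [Finset.mem_Ioo] at hj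
        omega
      · intro j hj
        rw [Finset.mem_Ioo] at hj
        rw [Nat.cast_sub hj.2.le]
    have h3 : ∑ j ∈ Finset.Ioo 0 n, 1 / √(j : ℝ) ≤ 2 * √(n : ℝ) := by
      refine le_trans (Finset.sum_le_sum_of_subset_of_nonneg (t := Finset.Icc 1 n) ?_ ?_)
        (inv_sqrt_sum68 n)
      · intro j hj
        rw [Finset.mem_Ioo] at hj
        rw [Finset.mem_Icc]
        omega
      · intro j _ _
        positivity
    refine (Finset.sum_le_sum h1).trans ?_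
    rw [← Finset.sum_div, Finset.sum_add_distrib, h2, div_le_iff₀ hs0]
    linarith

/-- reindexing by multiples -/
private theorem reindex68 {g : ℕ} (hg : 1 ≤ g) (N : ℕ) (f : ℕ → ℝ) :
    ∑ x ∈ Finset.Icc 1 N, (if g ∣ x then f x else 0) = ∑ x ∈ Finset.Icc 1 (N / g), f (g * x) := by
  rw [← Finset.sum_filter]
  symm
  refine Finset.sum_nbij (fun x => g * x) ?_ ?_ ?_ ?_
  · intro x hx
    rw [Finset.mem_Icc] at hx
    rw [Finset.mem_filter, Finset.mem_Icc]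
    refine ⟨⟨Nat.mul_pos hg hx.1, ?_⟩, Dvd.intro _ rfl⟩
    exact (Nat.mul_le_mul_left g hx.2).trans (Nat.mul_div_le N g)
  · intro x _ y _ hxy
    exact Nat.eq_of_mul_eq_mul_left hg hxy
  · intro x hx
    obtain ⟨hx1, c, rfl⟩ := Finset.mem_filter.1 hx
    rw [Finset.mem_Icc] at hx1
    refine ⟨c, ?_, rfl⟩
    rw [Finset.mem_coe, Finset.mem_Icc]
    constructor
    · by_contra h
      have : c = 0 := by omega
      subst this
      simp at hx1
    · rw [Nat.le_div_iff_mul_le hg, mul_comm]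
      exact hx1.2
  · intro x _
    rfl

/-- the function of the sum -/
private noncomputable def GG68 (κ : ℝ) (x y w : ℕ) : ℝ :=
  if y < x + w then 1 / max (x : ℝ) y + κ / Dl x y w else 0

private theorem Dl_nonneg68 (x y w : ℝ) : 0 ≤ Dl x y w := Real.sqrt_nonneg _

private theorem GG_nonneg68 {κ : ℝ} (hκ : 0 ≤ κ) (x y w : ℕ) : 0 ≤ GG68 κ x y w := by
  unfold GG68
  split_ifs
  · have := Dl_nonneg68 (x : ℝ) y w
    positivity
  · exact le_rfl

private theorem Dl_scale68 {g : ℝ} (_hg : 0 ≤ g) (x y w : ℝ) :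
    Dl (g * x) (g * y) (g * w) = g ^ 2 * Dl x y w := by
  unfold Dl
  have h1 : g * x * (g * y) * (g * w) * (g * x + g * w - g * y) =
      (g ^ 2) ^ 2 * (x * y * w * (x + w - y)) := by ring
  rw [h1, Real.sqrt_mul (by positivity), Real.sqrt_sq (by positivity)]

private theorem GG_scale68 {κ : ℝ} {g : ℕ} (hg : 1 ≤ g) (x y w : ℕ) :
    (g : ℝ) ^ 2 * GG68 κ (g * x) (g * y) (g * w) =
      if y < x + w then (g : ℝ) / max (x : ℝ) y + κ / Dl x y w else 0 := by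
  have hg0 : (0 : ℝ) < g := by exact_mod_cast hg
  unfold GG68
  have h1 : g * y < g * x + g * w ↔ y < x + w := by
    rw [← Nat.mul_add]
    exact Nat.mul_lt_mul_left hg
  simp only [h1]
  split_ifs
  · push_cast
    rw [Dl_scale68 hg0.le, ← mul_max_of_nonneg _ _ hg0.le, mul_add]
    congr 1
    · rw [mul_one_div, mul_comm (g : ℝ) (max (x : ℝ) y), pow_two, ← div_div,
        mul_div_assoc, mul_div_right_comm, mul_comm]
      field_simp
    · rw [mul_div_assoc', mul_div_mul_left _ _ (by positivity)]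
  · rw [mul_zero]

private theorem max_le68 {x y : ℝ} (hx : 0 < x) (hy : 0 < y) :
    1 / max x y ≤ 1 / √x * (1 / √y) := by
  have h1 : 0 < √x := Real.sqrt_pos.2 hx
  have h2 : 0 < √y := Real.sqrt_pos.2 hy
  rw [one_div_mul_one_div]
  refine one_div_le_one_div_of_le (by positivity) ?_
  rw [← Real.sqrt_mul hx.le, Real.sqrt_le_left (by positivity)]
  nlinarith [le_max_left x y, le_max_right x y]

private theorem part1_68 (K : ℕ) :
    ∑ x ∈ Finset.Icc 1 K, ∑ y ∈ Finset.Icc 1 K, 1 / √(x : ℝ) * (1 / √(y : ℝ)) ≤ 4 * K := by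
  rw [← Finset.sum_mul_sum]
  have h1 := inv_sqrt_sum68 K
  have h2 : 0 ≤ ∑ j ∈ Finset.Icc 1 K, 1 / √(j : ℝ) := Finset.sum_nonneg fun j _ => by positivity
  have h3 : √(K : ℝ) ^ 2 = K := Real.sq_sqrt (Nat.cast_nonneg _)
  nlinarith [mul_le_mul h1 h1 h2 (by positivity)]

private theorem part2_68 (x w K : ℕ) (hx : 1 ≤ x) (hw : 1 ≤ w) :
    ∑ y ∈ Finset.Icc 1 K, (if y < x + w then 1 / Dl x y w else 0) ≤
      4 * (1 / √(x : ℝ) * (1 / √(w : ℝ))) := by
  have hx0 : (0 : ℝ) < x := by exact_mod_cast hx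
  have hw0 : (0 : ℝ) < w := by exact_mod_cast hw
  rw [← Finset.sum_filter]
  have h1 : ∑ y ∈ (Finset.Icc 1 K).filter (fun y => y < x + w), 1 / Dl x y w ≤
      ∑ y ∈ Finset.Ioo 0 (x + w), 1 / Dl x y w := by
    refine Finset.sum_le_sum_of_subset_of_nonneg ?_ ?_
    · intro y hy
      rw [Finset.mem_filter, Finset.mem_Icc] at hy
      rw [Finset.mem_Ioo]
      omega
    · intro y _ _
      have := Dl_nonneg68 (x : ℝ) y w
      positivity
  refine h1.trans ?_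
  have h2 : ∀ y ∈ Finset.Ioo 0 (x + w), 1 / Dl x y w =
      (1 / √(x : ℝ) * (1 / √(w : ℝ))) * (1 / √((y : ℝ) * (((x + w : ℕ) : ℝ) - y))) := by
    intro y hy
    unfold Dl
    have e1 : (x : ℝ) * y * w * (x + w - y) = x * w * ((y : ℝ) * (((x + w : ℕ) : ℝ) - y)) := by
      push_cast
      ring
    rw [e1, Real.sqrt_mul (by positivity), Real.sqrt_mul hx0.le, one_div_mul_one_div,
      one_div_mul_one_div]
  rw [Finset.sum_congr rfl h2, ← Finset.mul_sum, mul_comm]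
  exact mul_le_mul_of_nonneg_right (ang_sum (x + w)) (by positivity)

/-- the sum for one value of the divisor -/
private theorem slice68 {κ : ℝ} (hκ : 0 ≤ κ) (g K : ℕ) :
    ∑ x ∈ Finset.Icc 1 K, ∑ y ∈ Finset.Icc 1 K, ∑ w ∈ Finset.Icc 1 K,
      (if y < x + w then (g : ℝ) / max (x : ℝ) y + κ / Dl x y w else 0) ≤
      4 * g * (K : ℝ) ^ 2 + 16 * κ * K := by
  have h1 : ∀ x ∈ Finset.Icc 1 K, ∀ y ∈ Finset.Icc 1 K, ∀ w ∈ Finset.Icc 1 K,
      (if y < x + w then (g : ℝ) / max (x : ℝ) y + κ / Dl x y w else 0) ≤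
        g * (1 / √(x : ℝ) * (1 / √(y : ℝ))) + κ * (if y < x + w then 1 / Dl x y w else 0) := by
    intro x hx y hy w _
    rw [Finset.mem_Icc] at hx hy
    have hx0 : (0 : ℝ) < x := by exact_mod_cast hx.1
    have hy0 : (0 : ℝ) < y := by exact_mod_cast hy.1
    have h2 := max_le68 hx0 hy0
    have h3 := mul_le_mul_of_nonneg_left h2 (Nat.cast_nonneg g : (0 : ℝ) ≤ g)
    split_ifs
    · rw [mul_one_div] at h3
      rw [mul_one_div κ]
      exact add_le_add h3 le_rfl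
    · rw [mul_zero, add_zero]
      positivity
  have h2 : ∑ x ∈ Finset.Icc 1 K, ∑ y ∈ Finset.Icc 1 K, ∑ w ∈ Finset.Icc 1 K,
      (if y < x + w then (g : ℝ) / max (x : ℝ) y + κ / Dl x y w else 0) ≤
      ∑ x ∈ Finset.Icc 1 K, ∑ y ∈ Finset.Icc 1 K, ∑ w ∈ Finset.Icc 1 K,
        (g * (1 / √(x : ℝ) * (1 / √(y : ℝ))) + κ * (if y < x + w then 1 / Dl x y w else 0)) :=
    Finset.sum_le_sum fun x hx => Finset.sum_le_sum fun y hy => Finset.sum_le_sum fun w hw =>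
      h1 x hx y hy w hw
  refine h2.trans ?_
  simp only [Finset.sum_add_distrib]
  have h3 : ∑ x ∈ Finset.Icc 1 K, ∑ y ∈ Finset.Icc 1 K, ∑ _w ∈ Finset.Icc 1 K,
      (g : ℝ) * (1 / √(x : ℝ) * (1 / √(y : ℝ))) ≤ 4 * g * (K : ℝ) ^ 2 := by
    have e1 : ∀ x ∈ Finset.Icc 1 K, ∀ y ∈ Finset.Icc 1 K, ∑ _w ∈ Finset.Icc 1 K,
        (g : ℝ) * (1 / √(x : ℝ) * (1 / √(y : ℝ))) =
        (K : ℝ) * g * (1 / √(x : ℝ) * (1 / √(y : ℝ))) := by
      intro x _ y _
      rw [Finset.sum_const, Nat.card_Icc, nsmul_eq_mul, Nat.add_sub_cancel]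
      ring
    rw [Finset.sum_congr rfl fun x hx => Finset.sum_congr rfl fun y hy => e1 x hx y hy]
    simp only [← Finset.mul_sum]
    have h4 := part1_68 K
    simp only [← Finset.mul_sum] at h4
    have h5 := mul_le_mul_of_nonneg_left h4 (by positivity : (0 : ℝ) ≤ (K : ℝ) * g)
    nlinarith
  have h4 : ∑ x ∈ Finset.Icc 1 K, ∑ y ∈ Finset.Icc 1 K, ∑ w ∈ Finset.Icc 1 K,
      κ * (if y < x + w then 1 / Dl x y w else 0) ≤ 16 * κ * K := by
    have h5 : ∀ x ∈ Finset.Icc 1 K, ∑ y ∈ Finset.Icc 1 K, ∑ w ∈ Finset.Icc 1 K,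
        κ * (if y < x + w then 1 / Dl x y w else 0) ≤
        ∑ w ∈ Finset.Icc 1 K, 4 * κ * (1 / √(x : ℝ) * (1 / √(w : ℝ))) := by
      intro x hx
      rw [Finset.sum_comm]
      refine Finset.sum_le_sum fun w hw => ?_
      rw [Finset.mem_Icc] at hx hw
      rw [← Finset.mul_sum]
      have h6 := mul_le_mul_of_nonneg_left (part2_68 x w K hx.1 hw.1) hκ
      refine h6.trans (le_of_eq ?_)
      ring
    refine (Finset.sum_le_sum h5).trans ?_
    simp only [← Finset.mul_sum]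
    have h4 := part1_68 K
    simp only [← Finset.mul_sum] at h4
    have h5 := mul_le_mul_of_nonneg_left h4 (by positivity : (0 : ℝ) ≤ 4 * κ)
    nlinarith
  exact add_le_add h3 h4

private theorem dvd_sum68 {κ : ℝ} {g : ℕ} (hg : 1 ≤ g) (N : ℕ) :
    ∑ x ∈ Finset.Icc 1 N, ∑ y ∈ Finset.Icc 1 N, ∑ w ∈ Finset.Icc 1 N,
      (if g ∣ x then (if g ∣ y then (if g ∣ w then (g : ℝ) ^ 2 * GG68 κ x y w else 0) else 0)
        else 0) =
    ∑ x ∈ Finset.Icc 1 (N / g), ∑ y ∈ Finset.Icc 1 (N / g), ∑ w ∈ Finset.Icc 1 (N / g),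
      (if y < x + w then (g : ℝ) / max (x : ℝ) y + κ / Dl x y w else 0) := by
  have e1 : ∀ (P : Prop) [Decidable P] (f : ℕ → ℝ), ∑ y ∈ Finset.Icc 1 N, (if P then f y else 0) =
      if P then ∑ y ∈ Finset.Icc 1 N, f y else 0 := by
    intro P _ f
    split_ifs
    · rfl
    · exact Finset.sum_const_zero
  simp only [e1]
  rw [reindex68 hg]
  refine Finset.sum_congr rfl fun x _ => ?_
  rw [reindex68 hg]
  refine Finset.sum_congr rfl fun y _ => ?_
  rw [reindex68 hg]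
  refine Finset.sum_congr rfl fun w _ => ?_
  exact GG_scale68 hg x y w

theorem gcd_sum : ∃ C : ℝ, 0 < C ∧ ∀ (N : ℕ) (κ : ℝ), 1 ≤ N → 0 ≤ κ →
    ∑ x ∈ Finset.Icc 1 N, ∑ y ∈ Finset.Icc 1 N, ∑ w ∈ Finset.Icc 1 N,
      (if y < x + w then ((Nat.gcd x (Nat.gcd y w) : ℕ) : ℝ) ^ 2 * (1 + κ * max (x : ℝ) y / Dl x y w) / max (x : ℝ) y else 0) ≤
        C * (1 + log N) * ((N : ℝ) ^ 2 + κ * N) := by
  refine ⟨16, by norm_num, fun N κ hN hκ => ?_⟩
  have hN0 : (0 : ℝ) < N := by exact_mod_cast hN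
  -- the terms
  have h1 : ∀ x ∈ Finset.Icc 1 N, ∀ y ∈ Finset.Icc 1 N, ∀ w ∈ Finset.Icc 1 N,
      (if y < x + w then ((Nat.gcd x (Nat.gcd y w) : ℕ) : ℝ) ^ 2 *
        (1 + κ * max (x : ℝ) y / Dl x y w) / max (x : ℝ) y else 0) ≤
      ∑ g ∈ Finset.Icc 1 N, (if g ∣ x then (if g ∣ y then (if g ∣ w then
        (g : ℝ) ^ 2 * GG68 κ x y w else 0) else 0) else 0) := by
    intro x hx y hy w _
    rw [Finset.mem_Icc] at hx hy
    have hx0 : (0 : ℝ) < x := by exact_mod_cast hx.1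
    have hmax : (0 : ℝ) < max (x : ℝ) y := lt_max_of_lt_left hx0
    obtain ⟨g, hg⟩ : ∃ g, g = Nat.gcd x (Nat.gcd y w) := ⟨_, rfl⟩
    have hg1 : g ∣ x := by rw [hg]; exact Nat.gcd_dvd_left _ _
    have hg2 : g ∣ y := by
      rw [hg]
      exact (Nat.gcd_dvd_right _ _).trans (Nat.gcd_dvd_left _ _)
    have hg3 : g ∣ w := by
      rw [hg]
      exact (Nat.gcd_dvd_right _ _).trans (Nat.gcd_dvd_right _ _)
    have hgN : g ∈ Finset.Icc 1 N := by
      rw [Finset.mem_Icc]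
      exact ⟨Nat.pos_of_dvd_of_pos hg1 hx.1, (Nat.le_of_dvd hx.1 hg1).trans hx.2⟩
    have e1 : (if y < x + w then ((Nat.gcd x (Nat.gcd y w) : ℕ) : ℝ) ^ 2 *
        (1 + κ * max (x : ℝ) y / Dl x y w) / max (x : ℝ) y else 0) = (g : ℝ) ^ 2 * GG68 κ x y w := by
      rw [← hg]
      unfold GG68
      split_ifs
      · rw [mul_div_assoc]
        congr 1
        rw [add_div]
        congr 1
        rw [div_right_comm, mul_div_cancel_right₀ _ hmax.ne']
      · rw [mul_zero]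
    rw [e1]
    have e2 : (g : ℝ) ^ 2 * GG68 κ x y w = (if g ∣ x then (if g ∣ y then (if g ∣ w then
        (g : ℝ) ^ 2 * GG68 κ x y w else 0) else 0) else 0) := by
      rw [if_pos hg1, if_pos hg2, if_pos hg3]
    rw [e2]
    refine Finset.single_le_sum (f := fun g : ℕ => (if g ∣ x then (if g ∣ y then (if g ∣ w then
        (g : ℝ) ^ 2 * GG68 κ x y w else 0) else 0) else 0)) (fun g' _ => ?_) hgN
    have h0 := GG_nonneg68 hκ x y w
    split_ifs <;> positivity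
  have h2 := Finset.sum_le_sum fun x hx => Finset.sum_le_sum fun y hy =>
    Finset.sum_le_sum fun w hw => h1 x hx y hy w hw
  refine h2.trans ?_
  have h3 : ∑ x ∈ Finset.Icc 1 N, ∑ y ∈ Finset.Icc 1 N, ∑ w ∈ Finset.Icc 1 N,
      ∑ g ∈ Finset.Icc 1 N, (if g ∣ x then (if g ∣ y then (if g ∣ w then
        (g : ℝ) ^ 2 * GG68 κ x y w else 0) else 0) else 0) =
      ∑ g ∈ Finset.Icc 1 N, ∑ x ∈ Finset.Icc 1 N, ∑ y ∈ Finset.Icc 1 N, ∑ w ∈ Finset.Icc 1 N,
        (if g ∣ x then (if g ∣ y then (if g ∣ w then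
        (g : ℝ) ^ 2 * GG68 κ x y w else 0) else 0) else 0) := by
    have s1 : ∀ x : ℕ, ∑ y ∈ Finset.Icc 1 N, ∑ w ∈ Finset.Icc 1 N,
        ∑ g ∈ Finset.Icc 1 N, (if g ∣ x then (if g ∣ y then (if g ∣ w then
          (g : ℝ) ^ 2 * GG68 κ x y w else 0) else 0) else 0) =
        ∑ g ∈ Finset.Icc 1 N, ∑ y ∈ Finset.Icc 1 N, ∑ w ∈ Finset.Icc 1 N,
          (if g ∣ x then (if g ∣ y then (if g ∣ w then
          (g : ℝ) ^ 2 * GG68 κ x y w else 0) else 0) else 0) := by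
      intro x
      rw [Finset.sum_comm (s := Finset.Icc 1 N) (t := Finset.Icc 1 N)
        (f := fun g y => ∑ w ∈ Finset.Icc 1 N, (if g ∣ x then (if g ∣ y then (if g ∣ w then
          (g : ℝ) ^ 2 * GG68 κ x y w else 0) else 0) else 0))]
      exact Finset.sum_congr rfl fun y _ => Finset.sum_comm
    rw [Finset.sum_congr rfl fun x _ => s1 x]
    exact Finset.sum_comm
  rw [h3]
  have h4 : ∀ g ∈ Finset.Icc 1 N, ∑ x ∈ Finset.Icc 1 N, ∑ y ∈ Finset.Icc 1 N,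
      ∑ w ∈ Finset.Icc 1 N, (if g ∣ x then (if g ∣ y then (if g ∣ w then
        (g : ℝ) ^ 2 * GG68 κ x y w else 0) else 0) else 0) ≤
      16 * ((N : ℝ) ^ 2 + κ * N) * (g : ℝ)⁻¹ := by
    intro g hg
    rw [Finset.mem_Icc] at hg
    have hg0 : (0 : ℝ) < g := by exact_mod_cast hg.1
    rw [dvd_sum68 hg.1]
    refine (slice68 hκ g (N / g)).trans ?_
    have h5 : ((N / g : ℕ) : ℝ) ≤ N * (g : ℝ)⁻¹ := by
      rw [← div_eq_mul_inv]
      exact Nat.cast_div_le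
    have h6 : (0 : ℝ) ≤ ((N / g : ℕ) : ℝ) := Nat.cast_nonneg _
    have h7 : ((N / g : ℕ) : ℝ) ^ 2 ≤ (N * (g : ℝ)⁻¹) ^ 2 := pow_le_pow_left₀ h6 h5 2
    have h8 : 4 * (g : ℝ) * ((N / g : ℕ) : ℝ) ^ 2 ≤ 4 * (N : ℝ) ^ 2 * (g : ℝ)⁻¹ := by
      have h9 := mul_le_mul_of_nonneg_left h7 (by positivity : (0 : ℝ) ≤ 4 * g)
      refine h9.trans (le_of_eq ?_)
      field_simp
    have h10 : 16 * κ * ((N / g : ℕ) : ℝ) ≤ 16 * κ * (N * (g : ℝ)⁻¹) :=
      mul_le_mul_of_nonneg_left h5 (by positivity)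
    have h11 : 0 ≤ (N : ℝ) ^ 2 * (g : ℝ)⁻¹ := by positivity
    nlinarith
  refine (Finset.sum_le_sum h4).trans ?_
  rw [← Finset.mul_sum]
  have h5 : ∑ g ∈ Finset.Icc 1 N, (g : ℝ)⁻¹ ≤ 1 + log N := by
    have h6 := harmonic_le_one_add_log N
    rw [harmonic_eq_sum_Icc] at h6
    push_cast at h6
    exact h6
  have h6 := mul_le_mul_of_nonneg_left h5 (by positivity : (0 : ℝ) ≤ 16 * ((N : ℝ) ^ 2 + κ * N))
  refine h6.trans (le_of_eq ?_)
  ring

end Pool.Agent.Helper92.GC
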