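import Pool.Agent.Helper92.GC.N4

/-!
# GC-N9: admissible quadruples

`x = dd b e`, `y = dd a e`, `w = dd a b`, `x + w - y = dd (b - a) (e - a)`, all positive integers. Put `z_a = zz β a` etc., `r = 1/(4R)`, and the exact areas `x̄ = r z_b z_e (z_e - z_b)`, `ȳ = r z_a z_e (z_e - z_a)`,
`w̄ = r z_a z_b (z_b - z_a)`, `s̄ = r (z_b - z_a)(z_e - z_b)(z_e - z_a)`; by `near_area'` (base point `m`, for the last one base point `m + a`) the integers are within `1/1000` of the exact areas; being `≥ 1` they are within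
the factors `0.998` and `1.002` of them.
PROOF of the fields. `le`: `near_diff`, `4Rs ≤ 16ρs`. `low`: `near_sep`. `sl`: `near_eight`. `quad`: the vector identity `x a - y b + w e = 0` (`dd`-identity); first coordinates:
`u.1 = -z_u (2ζ + z_u) r + ε_u`, `|ε_u| ≤ 2d` (`near_diff`), and `x z_a - y z_b + w z_e = 0`, so `x z_a² - y z_b² + w z_e² = 4R (x ε_a - y ε_b + w ε_e)`, absolute value `≤ 4R · 2d (x+y+w) ≤ 32 ρ d (x + y + w)`.
`wy`: `w̄ ≤ ȳ` (`z_b (z_b - z_a) ≤ z_e (z_e - z_a)`), so `w ≤ y + 1/500`, integers. `ax`: `x̄ ≤ z_e³ r/4 ≤ (16ρs)³/(8ρ) = 512 ρ²s³` (`z_b (z_e - z_b) ≤ z_e²/4`, `R ≥ ρ/2`), same for `ȳ`.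
`vx`: `z_b z_e (z_e - z_b) = 4R x̄ ≥ 2ρ · 0.998 x ≥ ρ x`; `vy` similarly. `star`: exactly `w̄ x̄ (w̄ + x̄) = √(x̄ȳw̄s̄) · r z_b² (z_e + z_a - z_b)` because `w̄ + x̄ = r z_b (z_e - z_a)(z_e + z_a - z_b)` and
`√(x̄ȳw̄s̄) = r² z_a z_b z_e (z_b - z_a)(z_e - z_b)(z_e - z_a)`; `r (z_e + z_a - z_b) ≤ z_e/(4R) ≤ s` (`z_e ≤ 4Rs`), so `10 w x (w+x) ≤ 10 (1.002)³ w̄x̄(w̄+x̄) ≤ 11 s √(x̄ȳw̄s̄) z_b² ≤ 12 s √(xyws) z_b² ≤ √(xyws) z_b²`.
-/

open MeasureTheory Real Set Filter Topology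

set_option autoImplicit false

namespace Pool.Agent.Helper92.GC

open Pool.Agent.Helper22.AE
open Pool.Agent.Helper22.AC (n6 IsWt mu)

/-- the necessary conditions for a quadruple -/
structure Adq (β ρ s d : ℝ) (a b e : ℤ × ℤ) : Prop where
  qq : QQ β a b e
  le : zz β e ≤ 16 * ρ * s
  low : 1 / 8 ≤ zz β a
  sla : |(a.1 : ℝ)| ≤ 8 * zz β a
  slb : |(b.1 : ℝ)| ≤ 8 * zz β b
  quad : |(dd b e : ℝ) * zz β a ^ 2 - dd a e * zz β b ^ 2 + dd a b * zz β e ^ 2| ≤
    32 * ρ * d * ((dd b e : ℝ) + dd a e + dd a b)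
  wy : dd a b ≤ dd a e
  ax : (dd b e : ℝ) ≤ 520 * ρ ^ 2 * s ^ 3
  ay : (dd a e : ℝ) ≤ 520 * ρ ^ 2 * s ^ 3
  vx : ρ * dd b e ≤ zz β b * zz β e * (zz β e - zz β b)
  vy : ρ * dd a e ≤ zz β a * zz β e * (zz β e - zz β a)
  star : 10 * (dd a b : ℝ) * dd b e * ((dd a b : ℝ) + dd b e) ≤
    √((dd b e : ℝ) * dd a e * dd a b * ((dd b e : ℝ) + dd a b - dd a e)) * zz β b ^ 2

theorem dd_rel (a b e : ℤ × ℤ) : dd b e * a.1 - dd a e * b.1 + dd a b * e.1 = 0 ∧
    dd b e * a.2 - dd a e * b.2 + dd a b * e.2 = 0 ∧ dd (b - a) (e - a) = dd b e + dd a b - dd a e := by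
  simp only [dd, Prod.fst_sub, Prod.snd_sub]
  exact ⟨by ring, by ring, by ring⟩

private theorem zz_rel19 (β : ℝ) (a b e : ℤ × ℤ) :
    (dd b e : ℝ) * zz β a - dd a e * zz β b + dd a b * zz β e = 0 := by
  obtain ⟨h1, h2, -⟩ := dd_rel a b e
  have h1' : (dd b e : ℝ) * a.1 - dd a e * b.1 + dd a b * e.1 = 0 := by exact_mod_cast h1
  have h2' : (dd b e : ℝ) * a.2 - dd a e * b.2 + dd a b * e.2 = 0 := by exact_mod_cast h2
  simp only [zz]
  linear_combination h2' - β * h1'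

/-- an integer close to a real area -/
private theorem close19 {n : ℤ} {x : ℝ} (h : |(n : ℝ) - x| ≤ 1 / 1000) (hn : 0 < n) :
    999 / 1000 * (n : ℝ) ≤ x ∧ x ≤ 1001 / 1000 * (n : ℝ) ∧ (1 : ℝ) ≤ n := by
  have h1 : (1 : ℝ) ≤ n := by exact_mod_cast hn
  have h2 := abs_le.1 h
  exact ⟨by linarith [h2.1, h2.2], by linarith [h2.1, h2.2], h1⟩

/-- a quarter of the cube bounds the product -/
private theorem quart19 {p q : ℝ} (hq : 0 ≤ q) : p * q * (q - p) ≤ q ^ 3 / 4 := by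
  linarith [mul_nonneg hq (sq_nonneg (q - 2 * p))]

/-- upper bound of an area -/
private theorem areaub19 {ρ R s p q : ℝ} (hρ : 1 ≤ ρ) (h1 : ρ / 2 ≤ R) (hq : 0 < q) (hqs : q ≤ 16 * ρ * s)
    {n : ℤ} (hn : 999 / 1000 * (n : ℝ) ≤ p * q * (q - p) / (4 * R)) : (n : ℝ) ≤ 520 * ρ ^ 2 * s ^ 3 := by
  have hR : 0 < R := by linarith
  have hρ0 : 0 < ρ := by linarith
  have e1 : p * q * (q - p) / (4 * R) ≤ q ^ 3 / 4 / (2 * ρ) := by
    have hq3 : 0 ≤ q ^ 3 / 4 := by positivity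
    calc p * q * (q - p) / (4 * R) ≤ (q ^ 3 / 4) / (4 * R) :=
          div_le_div_of_nonneg_right (quart19 hq.le) (by positivity)
      _ ≤ q ^ 3 / 4 / (2 * ρ) := div_le_div_of_nonneg_left hq3 (by positivity) (by linarith)
  have e2 : q ^ 3 ≤ (16 * ρ * s) ^ 3 := pow_le_pow_left₀ hq.le hqs 3
  have e3 : q ^ 3 / 4 / (2 * ρ) ≤ 512 * ρ ^ 2 * s ^ 3 := by
    rw [div_le_iff₀ (by positivity)]
    linarith
  have hs3 : 0 ≤ ρ ^ 2 * s ^ 3 := by
    have : 0 < s := by
      by_contra hc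
      have : 16 * ρ * s ≤ 0 := mul_nonpos_of_nonneg_of_nonpos (by positivity) (not_lt.1 hc)
      linarith
    positivity
  linarith

/-- lower bound of the triple product -/
private theorem arealb19 {ρ R p q : ℝ} (hρ : 1 ≤ ρ) (h1 : ρ / 2 ≤ R)
    {n : ℤ} (hn1 : (1 : ℝ) ≤ n) (hn : 999 / 1000 * (n : ℝ) ≤ p * q * (q - p) / (4 * R)) :
    ρ * n ≤ p * q * (q - p) := by
  have hR : 0 < R := by linarith
  rw [le_div_iff₀ (by positivity)] at hn
  have h2 := mul_le_mul_of_nonneg_right h1 (show (0 : ℝ) ≤ n by linarith)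
  have h3 : 0 ≤ R * n := mul_nonneg hR.le (by linarith)
  linarith

private theorem star19 {R s p q t x y w v : ℝ} (hR : 0 < R) (hp : 0 < p) (hpq : p < q) (hqt : q < t)
    (hs : s ≤ 1 / 1000) (ht : t ≤ 4 * R * s) (hx1 : 1 ≤ x) (hy1 : 1 ≤ y) (hw1 : 1 ≤ w) (hv1 : 1 ≤ v)
    (hx : 999 / 1000 * x ≤ q * t * (t - q) / (4 * R)) (hx' : q * t * (t - q) / (4 * R) ≤ 1001 / 1000 * x)
    (hy' : p * t * (t - p) / (4 * R) ≤ 1001 / 1000 * y)
    (hw : 999 / 1000 * w ≤ p * q * (q - p) / (4 * R)) (hw' : p * q * (q - p) / (4 * R) ≤ 1001 / 1000 * w)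
    (hv' : (q - p) * (t - p) * (t - q) / (4 * R) ≤ 1001 / 1000 * v) :
    10 * w * x * (w + x) ≤ √(x * y * w * v) * q ^ 2 := by
  have hq : 0 < q := hp.trans hpq
  have ht0 : 0 < t := hq.trans hqt
  have a1 : 0 < q - p := by linarith
  have a2 : 0 < t - q := by linarith
  have a3 : 0 < t - p := by linarith
  obtain ⟨r, hr⟩ : ∃ r : ℝ, r = 1 / (4 * R) := ⟨_, rfl⟩
  have hr0 : 0 < r := by
    rw [hr]
    positivity
  have er : ∀ z : ℝ, z / (4 * R) = z * r := fun z => by rw [hr]; ring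
  rw [er] at hx hx' hy' hw hw' hv'
  obtain ⟨X, hX⟩ : ∃ X : ℝ, X = q * t * (t - q) * r := ⟨_, rfl⟩
  obtain ⟨Y, hY⟩ : ∃ Y : ℝ, Y = p * t * (t - p) * r := ⟨_, rfl⟩
  obtain ⟨W, hW⟩ : ∃ W : ℝ, W = p * q * (q - p) * r := ⟨_, rfl⟩
  obtain ⟨V, hV⟩ : ∃ V : ℝ, V = (q - p) * (t - p) * (t - q) * r := ⟨_, rfl⟩
  obtain ⟨P, hP⟩ : ∃ P : ℝ, P = r ^ 2 * (p * q * t * ((q - p) * (t - q) * (t - p))) := ⟨_, rfl⟩
  have hX0 : 0 < X := by rw [hX]; positivity
  have hY0 : 0 < Y := by rw [hY]; positivity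
  have hW0 : 0 < W := by rw [hW]; positivity
  have hV0 : 0 < V := by rw [hV]; positivity
  have hP0 : 0 < P := by rw [hP]; positivity
  rw [← hX] at hx hx'
  rw [← hY] at hy'
  rw [← hW] at hw hw'
  rw [← hV] at hv'
  have hPP : P ^ 2 = X * Y * W * V := by
    rw [hP, hX, hY, hW, hV]
    ring
  -- the root
  have hXY : X * Y ≤ (1001 / 1000 * x) * (1001 / 1000 * y) := mul_le_mul hx' hy' hY0.le (by positivity)
  have hXYW : X * Y * W ≤ (1001 / 1000 * x) * (1001 / 1000 * y) * (1001 / 1000 * w) :=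
    mul_le_mul hXY hw' hW0.le (by positivity)
  have hXYWV : X * Y * W * V ≤ (1001 / 1000 * x) * (1001 / 1000 * y) * (1001 / 1000 * w) * (1001 / 1000 * v) :=
    mul_le_mul hXYW hv' hV0.le (by positivity)
  have hpos : 0 < x * y * w * v := by positivity
  have hsq : P / 2 ≤ √(x * y * w * v) := by
    apply Real.le_sqrt_of_sq_le
    linarith
  -- the product
  have hWX : W * X * (W + X) = P * (r * (t + p - q)) * q ^ 2 := by
    rw [hP, hX, hW]
    ring
  have hrt : r * (t + p - q) ≤ 1 / 1000 := by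
    have h1 : r * (t + p - q) ≤ r * (4 * R * s) := mul_le_mul_of_nonneg_left (by linarith) hr0.le
    have h2 : r * (4 * R * s) = s := by
      rw [hr]
      field_simp
    linarith
  have hw2 : w ≤ 1001 / 999 * W := by linarith
  have hx2 : x ≤ 1001 / 999 * X := by linarith
  have hwx : w * x ≤ (1001 / 999 * W) * (1001 / 999 * X) := mul_le_mul hw2 hx2 (by positivity) (by positivity)
  have hwx2 : w * x * (w + x) ≤ (1001 / 999 * W) * (1001 / 999 * X) * (1001 / 999 * W + 1001 / 999 * X) :=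
    mul_le_mul hwx (by linarith) (by positivity) (by positivity)
  have h2 : w * x * (w + x) ≤ 2 * (W * X * (W + X)) := by
    have : 0 < W * X * (W + X) := by positivity
    linarith
  have h3 : W * X * (W + X) ≤ P * (1 / 1000) * q ^ 2 := by
    rw [hWX]
    exact mul_le_mul_of_nonneg_right (mul_le_mul_of_nonneg_left hrt hP0.le) (sq_nonneg q)
  have h4 : P * (1 / 1000) * q ^ 2 ≤ 1 / 500 * (√(x * y * w * v) * q ^ 2) := by
    have := mul_le_mul_of_nonneg_right hsq (sq_nonneg q)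
    linarith
  have h5 : 0 ≤ √(x * y * w * v) * q ^ 2 := by positivity
  linarith

theorem adq_of {β ρ t₀ s d R : ℝ} (h : Par β ρ t₀ s d) (h1 : ρ / 2 ≤ R) (h2 : R ≤ 4 * ρ) {c : ℝ × ℝ} {m a b e : ℤ × ℤ}
    (hq : (m, a, b, e) ∈ quad β R t₀ s d c) : Adq β ρ s d a b e := by
  obtain ⟨hm, ha, hb, he, hQ⟩ := hq
  simp only at hm ha hb he hQ
  have hρ := h.hρ
  have hR : 0 < R := by linarith
  have hs := h.hs
  have hd := h.hd
  have ea : m + a - m = a := add_sub_cancel_left m a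
  have eb : m + b - m = b := add_sub_cancel_left m b
  have ee' : m + e - m = e := add_sub_cancel_left m e
  obtain ⟨q1, q2, q3, q4, q5, q6, q7⟩ := hQ
  have hz2 : 0 < zz β b := q1.trans q2
  have hz3 : 0 < zz β e := hz2.trans q3
  -- areas
  have Aab := near_area' h h1 h2 hm ha hb
  have Aae := near_area' h h1 h2 hm ha he
  have Abe := near_area' h h1 h2 hm hb he
  have Abae := near_area' h h1 h2 ha hb he
  rw [ea, eb] at Aab
  rw [ea, ee'] at Aae
  rw [eb, ee'] at Abe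
  rw [add_sub_add_left_eq_sub, add_sub_add_left_eq_sub] at Abae
  have zba : zz β (b - a) = zz β b - zz β a := by
    simp only [zz, Prod.fst_sub, Prod.snd_sub, Int.cast_sub]
    ring
  have zea : zz β (e - a) = zz β e - zz β a := by
    simp only [zz, Prod.fst_sub, Prod.snd_sub, Int.cast_sub]
    ring
  rw [zba, zea] at Abae
  obtain ⟨w1, w2, w3⟩ := close19 Aab q4
  obtain ⟨y1, y2, y3⟩ := close19 Aae q5
  obtain ⟨x1, x2, x3⟩ := close19 Abe q6
  obtain ⟨v1, v2, v3⟩ := close19 Abae q7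
  -- differences
  obtain ⟨-, da2, ε1, hε1, da3⟩ := near_diff hR hm ha
  obtain ⟨-, db2, ε2, hε2, db3⟩ := near_diff hR hm hb
  obtain ⟨-, de2, ε3, hε3, de3⟩ := near_diff hR hm he
  rw [ea] at da2 da3
  rw [eb] at db2 db3
  rw [ee'] at de2 de3
  rw [abs_of_pos hz3] at de2
  have hle : zz β e ≤ 16 * ρ * s := by
    have := mul_le_mul_of_nonneg_right h2 hs.le
    linarith
  have hle1 : zz β e ≤ 16 * ρ * s := hle
  refine
    { qq := ⟨q1, q2, q3, q4, q5, q6, q7⟩
      le := hle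
      low := ?_
      sla := ?_
      slb := ?_
      quad := ?_
      wy := ?_
      ax := areaub19 hρ h1 hz3 hle x1
      ay := areaub19 hρ h1 hz3 hle y1
      vx := arealb19 hρ h1 x3 x1
      vy := arealb19 hρ h1 y3 y1
      star := ?_ }
  · have hne : m ≠ m + a := by
      intro hc
      have h0 : a = 0 := by simpa using hc
      rw [h0] at q1
      simp [zz] at q1
    have := near_sep h hR hm ha hne
    rw [ea, abs_of_pos q1] at this
    exact this
  · have := near_eight h hR hm ha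
    rw [ea, abs_of_pos q1] at this
    exact this
  · have := near_eight h hR hm hb
    rw [eb, abs_of_pos hz2] at this
    exact this
  · obtain ⟨r1, -, -⟩ := dd_rel a b e
    have r1' : (dd b e : ℝ) * a.1 - dd a e * b.1 + dd a b * e.1 = 0 := by exact_mod_cast r1
    have r2' := zz_rel19 β a b e
    have key : (dd b e : ℝ) * zz β a ^ 2 - dd a e * zz β b ^ 2 + dd a b * zz β e ^ 2 =
        4 * R * (dd b e * ε1 - dd a e * ε2 + dd a b * ε3) := by
      have da4 : 4 * R * (a.1 : ℝ) = -(zz β a * (2 * zt β c m + zz β a)) + 4 * R * ε1 := by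
        rw [da3]
        field_simp
      have db4 : 4 * R * (b.1 : ℝ) = -(zz β b * (2 * zt β c m + zz β b)) + 4 * R * ε2 := by
        rw [db3]
        field_simp
      have de4 : 4 * R * (e.1 : ℝ) = -(zz β e * (2 * zt β c m + zz β e)) + 4 * R * ε3 := by
        rw [de3]
        field_simp
      linear_combination (-4 * R) * r1' + (dd b e : ℝ) * da4 - dd a e * db4 + dd a b * de4 -
        2 * zt β c m * r2'
    rw [key, abs_mul, abs_of_pos (show (0 : ℝ) < 4 * R by positivity)]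
    have hx0 : (0 : ℝ) ≤ dd b e := by linarith
    have hy0 : (0 : ℝ) ≤ dd a e := by linarith
    have hw0 : (0 : ℝ) ≤ dd a b := by linarith
    have hb3 : |(dd b e : ℝ) * ε1 - dd a e * ε2 + dd a b * ε3| ≤
        2 * d * ((dd b e : ℝ) + dd a e + dd a b) := by
      have i1 := abs_le.1 hε1
      have i2 := abs_le.1 hε2
      have i3 := abs_le.1 hε3
      rw [abs_le]
      constructor
      · linarith [mul_le_mul_of_nonneg_left i1.1 hx0, mul_le_mul_of_nonneg_left i2.2 hy0,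
          mul_le_mul_of_nonneg_left i3.1 hw0]
      · linarith [mul_le_mul_of_nonneg_left i1.2 hx0, mul_le_mul_of_nonneg_left i2.1 hy0,
          mul_le_mul_of_nonneg_left i3.2 hw0]
    calc 4 * R * |(dd b e : ℝ) * ε1 - dd a e * ε2 + dd a b * ε3|
        ≤ 4 * R * (2 * d * ((dd b e : ℝ) + dd a e + dd a b)) :=
          mul_le_mul_of_nonneg_left hb3 (by positivity)
      _ ≤ 4 * (4 * ρ) * (2 * d * ((dd b e : ℝ) + dd a e + dd a b)) :=
          mul_le_mul_of_nonneg_right (by linarith) (by positivity)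
      _ = 32 * ρ * d * ((dd b e : ℝ) + dd a e + dd a b) := by ring
  · have hWY : zz β a * zz β b * (zz β b - zz β a) / (4 * R) ≤ zz β a * zz β e * (zz β e - zz β a) / (4 * R) := by
      apply div_le_div_of_nonneg_right _ (by positivity)
      have i1 : zz β a * zz β b ≤ zz β a * zz β e := mul_le_mul_of_nonneg_left q3.le q1.le
      exact mul_le_mul i1 (by linarith) (by linarith) (by positivity)
    have k1 := abs_le.1 Aab
    have k2 := abs_le.1 Aae
    have : (dd a b : ℝ) < dd a e + 1 := by linarith [k1.2, k2.1]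
    have h4 : dd a b < dd a e + 1 := by exact_mod_cast this
    omega
  · have hv : ((dd (b - a) (e - a) : ℤ) : ℝ) = (dd b e : ℝ) + dd a b - dd a e := by
      exact_mod_cast (dd_rel a b e).2.2
    rw [← hv]
    refine star19 hR q1 q2 q3 h.hs1 de2 x3 y3 w3 v3 x1 x2 y2 w1 w2 ?_
    have e1 : (zz β b - zz β a) * (zz β e - zz β a) * (zz β e - zz β b) / (4 * R) =
        (zz β b - zz β a) * (zz β e - zz β a) * (zz β e - zz β a - (zz β b - zz β a)) / (4 * R) := by
      ring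
    rw [e1]
    exact v2

end Pool.Agent.Helper92.GC
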