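import Pool.Agent.Helper92.GC.N8
import Pool.Agent.Helper92.GC.N9
import Pool.Agent.Helper92.GC.N10

/-!
# GC-N16: unfolding the quadruples

PROOF. Write `q = (a, b, e)`. For `R ∈ [ρ/2, 4ρ]`: `ncard (quad ..) = ∑'_q ∑'_m 1[(m, q) ∈ quad]` (`quad_fin`), and `(m, q) ∈ quad` implies `Adq .. q` (`adq_of`). By `unfold_T`
`∫⁻ c in Tq, ∑'_m 1[(m, q) ∈ quad] = volume {ξ | ξ, ξ + a, ξ + b, ξ + e ∈ Es β R t s d} (QQ)`. Let `(u, v) = (b, e)` if `dd b e ≥ dd a e`, otherwise `(a, e)`. The volume is at most the volume of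
`E_t = {ξ | |(ξ₂ - βξ₁)/(2R) - t| ≤ s} ∩ {ξ | |Ps ξ| ≤ d, |Ps (ξ + u)| ≤ d, |Ps (ξ + v)| ≤ d}`; the sum over `t ∈ T` of the indicator of the first set is at most `1 + 2s/σ` (`sep_card`: `T` is separated, the `t` are in an
interval of length `2s`). Integrate over `R`, `pair_vol`: `≤ (1 + 2s/σ) 2^15 d³ρ³/(z_u z_v (z_v - z_u))` and `z_u z_v (z_v - z_u) ≥ ρ max (dd b e) (dd a e)` (`Adq.vx`, `Adq.vy`). The interchange of `∫⁻ R` and `∑'_q`:
`lintegral_tsum`; measurability of `R ↦ volume {ξ | ...}`: section measures of a measurable set of the product (`measurable_measure_prodMk_left` or `_right`).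
-/

open MeasureTheory Real Set Filter Topology

set_option autoImplicit false

namespace Pool.Agent.Helper92.GC

open Pool.Agent.Helper22.AE
open Pool.Agent.Helper22.AC (n6 IsWt mu)

/-- all four points near the arc -/
private def E4_h55 (β R t s d : ℝ) (q : (ℤ × ℤ) × (ℤ × ℤ) × (ℤ × ℤ)) : Set (ℝ × ℝ) :=
  {ξ | ξ ∈ Es β R t s d ∧ (ξ.1 + q.1.1, ξ.2 + q.1.2) ∈ Es β R t s d ∧
    (ξ.1 + q.2.1.1, ξ.2 + q.2.1.2) ∈ Es β R t s d ∧ (ξ.1 + q.2.2.1, ξ.2 + q.2.2.2) ∈ Es β R t s d}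

private lemma E4_meas_h55 (β R t s d : ℝ) (q : (ℤ × ℤ) × (ℤ × ℤ) × (ℤ × ℤ)) :
    MeasurableSet (E4_h55 β R t s d q) := by
  have h : ∀ a : ℤ × ℤ, MeasurableSet {ξ : ℝ × ℝ | (ξ.1 + (a.1 : ℝ), ξ.2 + (a.2 : ℝ)) ∈ Es β R t s d} := by
    intro a
    have hf : Measurable (fun ξ : ℝ × ℝ => (ξ.1 + (a.1 : ℝ), ξ.2 + (a.2 : ℝ))) := by fun_prop
    exact hf (Es_meas β R t s d)
  exact (Es_meas β R t s d).inter ((h q.1).inter ((h q.2.1).inter (h q.2.2)))

private theorem ncard_tsum_h55 {ι : Type} {S : Set ι} (hS : S.Finite) :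
    (S.ncard : ENNReal) = ∑' i, S.indicator (fun _ => (1 : ENNReal)) i := by
  rw [tsum_eq_sum (s := hS.toFinset)]
  · rw [Finset.sum_congr rfl (fun i hi => Set.indicator_of_mem (hS.mem_toFinset.1 hi) _)]
    rw [Set.ncard_eq_toFinset_card S hS]
    simp
  · intro i hi
    exact Set.indicator_of_notMem (fun h => hi (hS.mem_toFinset.2 h)) _

open Classical in
private lemma quad_int_h55 {β R : ℝ} (hR : 0 < R) (t s d : ℝ) :
    ∫⁻ c in Tq, ((quad β R t s d c).ncard : ENNReal) =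
      ∑' q : (ℤ × ℤ) × (ℤ × ℤ) × (ℤ × ℤ), (if QQ β q.1 q.2.1 q.2.2 then volume (E4_h55 β R t s d q) else 0) := by
  have h1 : ∀ c : ℝ × ℝ, ((quad β R t s d c).ncard : ENNReal) =
      ∑' q : (ℤ × ℤ) × (ℤ × ℤ) × (ℤ × ℤ), ∑' m : ℤ × ℤ, (if QQ β q.1 q.2.1 q.2.2 then
        (E4_h55 β R t s d q).indicator (fun _ => (1 : ENNReal)) ((m.1 : ℝ) - c.1, (m.2 : ℝ) - c.2) else 0) := by
    intro c
    rw [ncard_tsum_h55 (quad_fin hR t s d c)]
    have hpr := ENNReal.tsum_prod (f := fun (m : ℤ × ℤ) (q : (ℤ × ℤ) × (ℤ × ℤ) × (ℤ × ℤ)) =>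
      (quad β R t s d c).indicator (fun _ => (1 : ENNReal)) (m, q))
    refine hpr.trans ?_
    rw [ENNReal.tsum_comm]
    refine tsum_congr fun q => tsum_congr fun m => ?_
    have key : (m, q) ∈ quad β R t s d c ↔
        ((((m.1 : ℝ) - c.1, (m.2 : ℝ) - c.2) : ℝ × ℝ) ∈ E4_h55 β R t s d q ∧ QQ β q.1 q.2.1 q.2.2) := by
      have h2 : ∀ a : ℤ × ℤ, m + a ∈ near β R t s d c ↔
          ((((m.1 : ℝ) - c.1) + (a.1 : ℝ), ((m.2 : ℝ) - c.2) + (a.2 : ℝ)) : ℝ × ℝ) ∈ Es β R t s d := by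
        intro a
        rw [near_iff]
        have e : (((((m + a).1 : ℤ) : ℝ) - c.1, (((m + a).2 : ℤ) : ℝ) - c.2) : ℝ × ℝ) =
            ((((m.1 : ℝ) - c.1) + (a.1 : ℝ), ((m.2 : ℝ) - c.2) + (a.2 : ℝ)) : ℝ × ℝ) := by
          apply Prod.ext
          · simp only [Prod.fst_add]
            push_cast
            ring
          · simp only [Prod.snd_add]
            push_cast
            ring
        rw [e]
      unfold quad E4_h55
      simp only [mem_setOf_eq]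
      rw [near_iff β R t s d c m, h2 q.1, h2 q.2.1, h2 q.2.2]
      tauto
    by_cases hQ : QQ β q.1 q.2.1 q.2.2
    · rw [if_pos hQ]
      by_cases hm : (m, q) ∈ quad β R t s d c
      · rw [Set.indicator_of_mem hm, Set.indicator_of_mem (key.1 hm).1]
      · rw [Set.indicator_of_notMem hm, Set.indicator_of_notMem (fun h => hm (key.2 ⟨h, hQ⟩))]
    · rw [if_neg hQ, Set.indicator_of_notMem (fun h => hQ (key.1 h).2)]
  simp only [h1]
  rw [lintegral_tsum]
  · refine tsum_congr fun q => ?_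
    by_cases hQ : QQ β q.1 q.2.1 q.2.2
    · simp only [hQ, if_true]
      exact unfold_T (E4_meas_h55 β R t s d q)
    · simp only [hQ, if_false, tsum_zero, lintegral_zero]
  · intro q
    refine (Measurable.ennreal_tsum fun m => ?_).aemeasurable
    by_cases hQ : QQ β q.1 q.2.1 q.2.2
    · simp only [hQ, if_true]
      have hf : Measurable (fun c : ℝ × ℝ => ((m.1 : ℝ) - c.1, (m.2 : ℝ) - c.2)) := by fun_prop
      exact (measurable_const.indicator (E4_meas_h55 β R t s d q)).comp hf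
    · simp only [hQ, if_false]
      exact measurable_const

/-- the three conditions without slope -/
private def B3_h55 (β R d : ℝ) (u v : ℤ × ℤ) : Set (ℝ × ℝ) :=
  {ξ : ℝ × ℝ | |Ps β R ξ| ≤ d ∧ |Ps β R (ξ.1 + u.1, ξ.2 + u.2)| ≤ d ∧ |Ps β R (ξ.1 + v.1, ξ.2 + v.2)| ≤ d}

private lemma B3_meas_h55 (β d : ℝ) (u v : ℤ × ℤ) : Measurable (fun R : ℝ => volume (B3_h55 β R d u v)) := by
  have hS : MeasurableSet {p : ℝ × (ℝ × ℝ) | p.2 ∈ B3_h55 β p.1 d u v} := by
    have h : ∀ x y : ℝ, MeasurableSet {p : ℝ × (ℝ × ℝ) | |Ps β p.1 (p.2.1 + x, p.2.2 + y)| ≤ d} := by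
      intro x y
      have hm : Measurable (fun p : ℝ × (ℝ × ℝ) => |Ps β p.1 (p.2.1 + x, p.2.2 + y)|) := by
        unfold Ps
        fun_prop
      exact measurableSet_le hm measurable_const
    have h0 : MeasurableSet {p : ℝ × (ℝ × ℝ) | |Ps β p.1 p.2| ≤ d} := by
      have hm : Measurable (fun p : ℝ × (ℝ × ℝ) => |Ps β p.1 p.2|) := by
        unfold Ps
        fun_prop
      exact measurableSet_le hm measurable_const
    exact h0.inter ((h u.1 u.2).inter (h v.1 v.2))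
  exact measurable_measure_prodMk_left hS

private lemma B3_meas'_h55 (β R d : ℝ) (u v : ℤ × ℤ) : MeasurableSet (B3_h55 β R d u v) := by
  have h : ∀ x y : ℝ, MeasurableSet {p : ℝ × ℝ | |Ps β R (p.1 + x, p.2 + y)| ≤ d} := by
    intro x y
    have hm : Measurable (fun p : ℝ × ℝ => |Ps β R (p.1 + x, p.2 + y)|) := by
      unfold Ps
      fun_prop
    exact measurableSet_le hm measurable_const
  have h0 : MeasurableSet {p : ℝ × ℝ | |Ps β R p| ≤ d} := by
    have hm : Measurable (fun p : ℝ × ℝ => |Ps β R p|) := by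
      unfold Ps
      fun_prop
    exact measurableSet_le hm measurable_const
  exact h0.inter ((h u.1 u.2).inter (h v.1 v.2))

private lemma sum_vol_h55 {β R s d σ : ℝ} (hs : 0 < s) (T : Finset ℝ) (hσ : 0 < σ)
    (hsep : ∀ t ∈ T, ∀ t' ∈ T, t ≠ t' → σ ≤ |t - t'|) (q : (ℤ × ℤ) × (ℤ × ℤ) × (ℤ × ℤ)) (u : ℤ × ℤ)
    (hu : u = q.1 ∨ u = q.2.1) :
    ∑ t ∈ T, volume (E4_h55 β R t s d q) ≤
      ENNReal.ofReal (1 + 2 * s / σ) * volume (B3_h55 β R d u q.2.2) := by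
  classical
  have hA : ∀ t : ℝ, MeasurableSet {ξ : ℝ × ℝ | |(ξ.2 - β * ξ.1) / (2 * R) - t| ≤ s} := by
    intro t
    have hm : Measurable (fun ξ : ℝ × ℝ => |(ξ.2 - β * ξ.1) / (2 * R) - t|) := by fun_prop
    exact measurableSet_le hm measurable_const
  have hsub : ∀ t : ℝ, E4_h55 β R t s d q ⊆
      {ξ : ℝ × ℝ | |(ξ.2 - β * ξ.1) / (2 * R) - t| ≤ s} ∩ B3_h55 β R d u q.2.2 := by
    rintro t ξ ⟨h1, h2, h3, h4⟩
    refine ⟨h1.1, h1.2, ?_, h4.2⟩
    rcases hu with rfl | rfl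
    · exact h2.2
    · exact h3.2
  have hstep : ∀ t : ℝ, volume (E4_h55 β R t s d q) ≤
      ∫⁻ ξ in B3_h55 β R d u q.2.2,
        {ξ : ℝ × ℝ | |(ξ.2 - β * ξ.1) / (2 * R) - t| ≤ s}.indicator (fun _ => (1 : ENNReal)) ξ := by
    intro t
    rw [lintegral_indicator (hA t), setLIntegral_one, Measure.restrict_apply (hA t)]
    exact measure_mono (hsub t)
  calc ∑ t ∈ T, volume (E4_h55 β R t s d q) ≤ ∑ t ∈ T, ∫⁻ ξ in B3_h55 β R d u q.2.2,
        {ξ : ℝ × ℝ | |(ξ.2 - β * ξ.1) / (2 * R) - t| ≤ s}.indicator (fun _ => (1 : ENNReal)) ξ :=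
        Finset.sum_le_sum fun t _ => hstep t
    _ = ∫⁻ ξ in B3_h55 β R d u q.2.2, ∑ t ∈ T,
        {ξ : ℝ × ℝ | |(ξ.2 - β * ξ.1) / (2 * R) - t| ≤ s}.indicator (fun _ => (1 : ENNReal)) ξ := by
        rw [lintegral_finsetSum]
        exact fun t _ => measurable_const.indicator (hA t)
    _ ≤ ∫⁻ _ in B3_h55 β R d u q.2.2, ENNReal.ofReal (1 + 2 * s / σ) := by
        refine lintegral_mono fun ξ => ?_
        have h1 : ∑ t ∈ T, {ξ : ℝ × ℝ | |(ξ.2 - β * ξ.1) / (2 * R) - t| ≤ s}.indicator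
            (fun _ => (1 : ENNReal)) ξ =
            ((T.filter (fun t => |(ξ.2 - β * ξ.1) / (2 * R) - t| ≤ s)).card : ENNReal) := by
          rw [Finset.card_filter]
          push_cast
          refine Finset.sum_congr rfl fun t _ => ?_
          by_cases h : |(ξ.2 - β * ξ.1) / (2 * R) - t| ≤ s
          · rw [Set.indicator_of_mem (by exact h), if_pos h]
          · rw [Set.indicator_of_notMem (by exact h), if_neg h]
        rw [h1]
        have h2 := sep_card (T.filter (fun t => |(ξ.2 - β * ξ.1) / (2 * R) - t| ≤ s)) (fun t => t)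
          (a := (ξ.2 - β * ξ.1) / (2 * R) - s) (L := 2 * s) (δ := σ) (by positivity) hσ
          (fun t ht => by
            have h3 := abs_le.1 (Finset.mem_filter.1 ht).2
            constructor <;> linarith [h3.1, h3.2])
          (fun t ht t' ht' hne => hsep t (Finset.mem_filter.1 ht).1 t' (Finset.mem_filter.1 ht').1 hne)
        rw [← ENNReal.ofReal_natCast]
        exact ENNReal.ofReal_le_ofReal h2
    _ = ENNReal.ofReal (1 + 2 * s / σ) * volume (B3_h55 β R d u q.2.2) := by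
        rw [setLIntegral_const]

open Classical in
theorem quad_unfold {β ρ s d σ : ℝ} (T : Finset ℝ) (hσ : 0 < σ) (hT : ∀ t ∈ T, Par β ρ t s d)
    (hsep : ∀ t ∈ T, ∀ t' ∈ T, t ≠ t' → σ ≤ |t - t'|) :
    ∑ t ∈ T, ∫⁻ R in Icc (ρ / 2) (4 * ρ), ∫⁻ c in Tq, ((quad β R t s d c).ncard : ENNReal) ≤
      ENNReal.ofReal (1 + 2 * s / σ) * ∑' q : (ℤ × ℤ) × (ℤ × ℤ) × (ℤ × ℤ), (if Adq β ρ s d q.1 q.2.1 q.2.2 then
        ENNReal.ofReal (2 ^ 15 * d ^ 3 * ρ ^ 2 / max (dd q.2.1 q.2.2 : ℝ) (dd q.1 q.2.2)) else 0) := by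
  rcases T.eq_empty_or_nonempty with rfl | ⟨t₁, ht₁⟩
  · simp
  have hP₁ := hT t₁ ht₁
  have hρ1 := hP₁.hρ
  have hs := hP₁.hs
  have hd := hP₁.hd
  obtain ⟨w, hw⟩ : ∃ w : (ℤ × ℤ) × (ℤ × ℤ) × (ℤ × ℤ) → ℤ × ℤ,
      w = fun q => if dd q.1 q.2.2 ≤ dd q.2.1 q.2.2 then q.2.1 else q.1 := ⟨_, rfl⟩
  have hw12 : ∀ q, w q = q.1 ∨ w q = q.2.1 := by
    intro q
    rw [hw]
    by_cases h : dd q.1 q.2.2 ≤ dd q.2.1 q.2.2
    · right
      simp only [h, if_true]
    · left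
      simp only [h, if_false]
  -- the sum over `t` under the integral
  have hsum : ∀ (S : Finset ℝ) (F : ℝ → ℝ → ENNReal),
      ∑ t ∈ S, ∫⁻ R in Icc (ρ / 2) (4 * ρ), F t R ≤ ∫⁻ R in Icc (ρ / 2) (4 * ρ), ∑ t ∈ S, F t R := by
    intro S F
    induction S using Finset.induction_on with
    | empty => simp
    | insert t S ht ih =>
      rw [Finset.sum_insert ht]
      refine (add_le_add_right ih _).trans ?_
      refine (le_lintegral_add _ _).trans (lintegral_mono fun R => ?_)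
      rw [Finset.sum_insert ht]
  refine (hsum T _).trans ?_
  have hpt : ∀ R ∈ Icc (ρ / 2) (4 * ρ), ∑ t ∈ T, ∫⁻ c in Tq, ((quad β R t s d c).ncard : ENNReal) ≤
      ENNReal.ofReal (1 + 2 * s / σ) * ∑' q : (ℤ × ℤ) × (ℤ × ℤ) × (ℤ × ℤ),
        (if Adq β ρ s d q.1 q.2.1 q.2.2 then volume (B3_h55 β R d (w q) q.2.2) else 0) := by
    intro R hR
    have hR0 : 0 < R := by linarith [hR.1]
    simp only [quad_int_h55 hR0]
    rw [← ENNReal.tsum_mul_left, ← Summable.tsum_finsetSum (fun _ _ => ENNReal.summable)]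
    refine ENNReal.tsum_le_tsum fun q => ?_
    by_cases hA : Adq β ρ s d q.1 q.2.1 q.2.2
    · rw [if_pos hA]
      refine le_trans ?_ (sum_vol_h55 (R := R) hs T hσ hsep q (w q) (hw12 q))
      refine Finset.sum_le_sum fun t _ => ?_
      split_ifs
      · exact le_rfl
      · exact bot_le
    · rw [if_neg hA, mul_zero]
      refine le_of_eq (Finset.sum_eq_zero fun t ht => ?_)
      by_cases hQ : QQ β q.1 q.2.1 q.2.2
      · rw [if_pos hQ]
        have hemp : E4_h55 β R t s d q = ∅ := by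
          rw [Set.eq_empty_iff_forall_notMem]
          rintro ξ ⟨h1, h2, h3, h4⟩
          apply hA
          refine adq_of (R := R) (t₀ := t) (hT t ht) hR.1 hR.2 (c := (-ξ.1, -ξ.2)) (m := 0) ?_
          have h5 : ∀ a : ℤ × ℤ, ((ξ.1 + (a.1 : ℝ), ξ.2 + (a.2 : ℝ)) : ℝ × ℝ) ∈ Es β R t s d →
              (0 + a) ∈ near β R t s d (-ξ.1, -ξ.2) := by
            intro a ha
            rw [near_iff]
            have e : (((((0 + a : ℤ × ℤ).1 : ℤ) : ℝ) - (-ξ.1, -ξ.2).1,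
                (((0 + a : ℤ × ℤ).2 : ℤ) : ℝ) - (-ξ.1, -ξ.2).2) : ℝ × ℝ) =
                ((ξ.1 + (a.1 : ℝ), ξ.2 + (a.2 : ℝ)) : ℝ × ℝ) := by
              apply Prod.ext
              · simp only [zero_add]
                ring
              · simp only [zero_add]
                ring
            rw [e]
            exact ha
          have h6 : (0 : ℤ × ℤ) ∈ near β R t s d (-ξ.1, -ξ.2) := by
            have h7 := h5 0 (by simpa using h1)
            simpa using h7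
          exact ⟨h6, h5 q.1 h2, h5 q.2.1 h3, h5 q.2.2 h4, hQ⟩
        rw [hemp, measure_empty]
      · rw [if_neg hQ]
  refine (setLIntegral_mono' measurableSet_Icc hpt).trans ?_
  have hmq : ∀ q : (ℤ × ℤ) × (ℤ × ℤ) × (ℤ × ℤ), Measurable (fun R : ℝ =>
      (if Adq β ρ s d q.1 q.2.1 q.2.2 then volume (B3_h55 β R d (w q) q.2.2) else 0)) := by
    intro q
    by_cases hA : Adq β ρ s d q.1 q.2.1 q.2.2
    · simp only [hA, if_true]
      exact B3_meas_h55 β d (w q) q.2.2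
    · simp only [hA, if_false]
      exact measurable_const
  rw [lintegral_const_mul _ (Measurable.ennreal_tsum hmq), lintegral_tsum (fun q => (hmq q).aemeasurable)]
  refine mul_le_mul_right (ENNReal.tsum_le_tsum fun q => ?_) _
  by_cases hA : Adq β ρ s d q.1 q.2.1 q.2.2
  · simp only [hA, if_true]
    have hQ := hA.qq
    obtain ⟨z1, z2, z3, -, d2, d3, -⟩ := hQ
    have hx := hA.vx
    have hy := hA.vy
    have hρ0 : 0 < ρ := by linarith
    by_cases h : dd q.1 q.2.2 ≤ dd q.2.1 q.2.2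
    · have hwq : w q = q.2.1 := by rw [hw]; simp only [h, if_true]
      rw [hwq]
      have h1 := pair_vol (β := β) (ρ := ρ) (d := d) hρ1 hd (u := q.2.1) (v := q.2.2) (z1.trans z2) z3
      refine h1.trans (ENNReal.ofReal_le_ofReal ?_)
      have h2 : ((dd q.1 q.2.2 : ℤ) : ℝ) ≤ dd q.2.1 q.2.2 := by exact_mod_cast h
      rw [max_eq_left h2]
      have h3 : (0 : ℝ) < dd q.2.1 q.2.2 := by exact_mod_cast d3
      have h4 : 0 < zz β q.2.1 * zz β q.2.2 * (zz β q.2.2 - zz β q.2.1) :=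
        mul_pos (mul_pos (z1.trans z2) ((z1.trans z2).trans z3)) (by linarith)
      rw [div_le_div_iff₀ h4 h3]
      calc 2 ^ 15 * d ^ 3 * ρ ^ 3 * (dd q.2.1 q.2.2 : ℝ) =
            2 ^ 15 * d ^ 3 * ρ ^ 2 * (ρ * dd q.2.1 q.2.2) := by ring
        _ ≤ _ := mul_le_mul_of_nonneg_left hx (by positivity)
    · have hwq : w q = q.1 := by rw [hw]; simp only [h, if_false]
      rw [hwq]
      have h1 := pair_vol (β := β) (ρ := ρ) (d := d) hρ1 hd (u := q.1) (v := q.2.2) z1 (z2.trans z3)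
      refine h1.trans (ENNReal.ofReal_le_ofReal ?_)
      have h2 : ((dd q.2.1 q.2.2 : ℤ) : ℝ) ≤ dd q.1 q.2.2 := by
        exact_mod_cast (not_le.1 h).le
      rw [max_eq_right h2]
      have h3 : (0 : ℝ) < dd q.1 q.2.2 := by exact_mod_cast d2
      have h4 : 0 < zz β q.1 * zz β q.2.2 * (zz β q.2.2 - zz β q.1) :=
        mul_pos (mul_pos z1 ((z1.trans z2).trans z3)) (by linarith)
      rw [div_le_div_iff₀ h4 h3]
      calc 2 ^ 15 * d ^ 3 * ρ ^ 3 * (dd q.1 q.2.2 : ℝ) =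
            2 ^ 15 * d ^ 3 * ρ ^ 2 * (ρ * dd q.1 q.2.2) := by ring
        _ ≤ _ := mul_le_mul_of_nonneg_left hy (by positivity)
  · simp only [hA, if_false, lintegral_zero]
    exact le_rfl

end Pool.Agent.Helper92.GC
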