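import Pool.Agent.Helper92.GC.N14
import Pool.Agent.Helper92.GC.N15
import Pool.Agent.Helper92.GC.N16

/-!
# GC-N17: the total number of quadruples

PROOF. `α = 520 ρ² s³`. If `T` is empty the left side is `0`. If `α < 1` there is no `Adq` triple (`1 ≤ dd b e ≤ α`) and the left side is `0` by `quad_unfold`. Let `N = ⌊α⌋₊ ≥ 1`. Bound the `∑'_q` in `quad_unfold` by finite sums
(`ENNReal.tsum_eq_iSup_sum`, `iSup_le`): for a finite set of `q` with `Adq` group by `(x, y, w) = (dd b e, dd a e, dd a b)`, all in `[1, N]`, `w ≤ y`, `y < x + w` (`dd_rel`); each group has by `quad_count` at most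
`C (1 + log ρ) gcd² (1 + ρ d max(x,y)/Dl)` elements, so the sum is at most `2^15 d³ρ² C (1 + log ρ) · (gcd_sum with κ = ρ d)`, `log N ≤ log (520 ρ²) ≤ 7 (1 + log ρ)` (`s ≤ 1`), `N ≤ α`.
-/

open MeasureTheory Real Set Filter Topology

set_option autoImplicit false

namespace Pool.Agent.Helper92.GC

open Pool.Agent.Helper22.AE
open Pool.Agent.Helper22.AC (n6 IsWt mu)

open Classical in
/-- the weighted sum over a finite set of admissible triples -/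
private theorem fin_sum32 : ∃ C : ℝ, 0 < C ∧ ∀ (β ρ s d : ℝ), |β| ≤ 1 / 2 → 1 ≤ ρ → 0 < s → s ≤ 1 → 0 < d →
    ∀ F : Finset ((ℤ × ℤ) × (ℤ × ℤ) × (ℤ × ℤ)), (∀ q ∈ F, Adq β ρ s d q.1 q.2.1 q.2.2) →
      ∑ q ∈ F, 2 ^ 15 * d ^ 3 * ρ ^ 2 / max (dd q.2.1 q.2.2 : ℝ) (dd q.1 q.2.2) ≤
        C * (1 + log ρ) ^ 2 * d ^ 3 * ρ ^ 2 *
          ((520 * ρ ^ 2 * s ^ 3) ^ 2 + ρ * d * (520 * ρ ^ 2 * s ^ 3)) := by
  obtain ⟨Cc, hCc, hc⟩ := quad_count
  obtain ⟨Cg, hCg, hg⟩ := gcd_sum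
  refine ⟨2 ^ 15 * Cc * Cg * 8, by positivity, ?_⟩
  intro β ρ s d hβ hρ hs hs1 hd F hF
  have hρ0 : 0 < ρ := by linarith
  have hlog : 0 ≤ log ρ := Real.log_nonneg hρ
  set α : ℝ := 520 * ρ ^ 2 * s ^ 3 with hα
  have hα0 : 0 < α := by positivity
  -- the areas
  have hpos : ∀ q ∈ F, (1 : ℤ) ≤ dd q.2.1 q.2.2 ∧ 1 ≤ dd q.1 q.2.2 ∧ 1 ≤ dd q.1 q.2.1 ∧
      dd q.1 q.2.2 < dd q.2.1 q.2.2 + dd q.1 q.2.1 := by
    intro q hq
    obtain ⟨_, _, _, h1, h2, h3, h4⟩ := (hF q hq).qq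
    have h5 := (dd_rel q.1 q.2.1 q.2.2).2.2
    refine ⟨h3, h2, h1, ?_⟩
    rw [h5] at h4
    linarith
  by_cases hα1 : α < 1
  · have hemp : F = ∅ := by
      rw [Finset.eq_empty_iff_forall_notMem]
      intro q hq
      have h1 := (hpos q hq).1
      have h2 := (hF q hq).ax
      have h3 : (1 : ℝ) ≤ (dd q.2.1 q.2.2 : ℝ) := by exact_mod_cast h1
      linarith
    rw [hemp, Finset.sum_empty]
    positivity
  rw [not_lt] at hα1
  obtain ⟨N, hN⟩ : ∃ N : ℕ, N = ⌊α⌋₊ := ⟨_, rfl⟩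
  have hN1 : 1 ≤ N := by
    rw [hN]
    exact Nat.floor_pos.2 hα1
  have hNα : (N : ℝ) ≤ α := by
    rw [hN]
    exact Nat.floor_le hα0.le
  have hkey : ∀ q ∈ F, ((dd q.2.1 q.2.2).toNat, (dd q.1 q.2.2).toNat, (dd q.1 q.2.1).toNat) ∈
      Finset.Icc 1 N ×ˢ Finset.Icc 1 N ×ˢ Finset.Icc 1 N := by
    intro q hq
    obtain ⟨h1, h2, h3, h4⟩ := hpos q hq
    have hA := hF q hq
    have hle : ∀ z : ℤ, 1 ≤ z → (z : ℝ) ≤ α → z.toNat ∈ Finset.Icc 1 N := by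
      intro z hz hzα
      rw [Finset.mem_Icc]
      refine ⟨by omega, ?_⟩
      rw [hN]
      refine Nat.le_floor ?_
      have h5 : ((z.toNat : ℤ) : ℝ) = (z : ℝ) := by
        rw [Int.toNat_of_nonneg (by omega)]
      have h6 : ((z.toNat : ℕ) : ℝ) = (z : ℝ) := by
        rw [← h5]
        push_cast
        rfl
      rw [h6]
      exact hzα
    rw [Finset.mem_product, Finset.mem_product]
    refine ⟨hle _ h1 hA.ax, hle _ h2 hA.ay, hle _ h3 ?_⟩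
    have h7 : ((dd q.1 q.2.1 : ℤ) : ℝ) ≤ ((dd q.1 q.2.2 : ℤ) : ℝ) := by exact_mod_cast hA.wy
    exact h7.trans hA.ay
  rw [← Finset.sum_fiberwise_of_maps_to hkey]
  set κ : ℝ := ρ * d with hκ
  have hκ0 : 0 ≤ κ := by positivity
  set A : ℝ := 2 ^ 15 * d ^ 3 * ρ ^ 2 with hA
  have hA0 : 0 < A := by positivity
  have hfib : ∀ p ∈ Finset.Icc 1 N ×ˢ Finset.Icc 1 N ×ˢ Finset.Icc 1 N,
      ∑ q ∈ F with ((dd q.2.1 q.2.2).toNat, (dd q.1 q.2.2).toNat, (dd q.1 q.2.1).toNat) = p,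
        A / max (dd q.2.1 q.2.2 : ℝ) (dd q.1 q.2.2) ≤
      A * (Cc * (1 + log ρ)) * (if p.2.1 < p.1 + p.2.2 then
        ((Nat.gcd p.1 (Nat.gcd p.2.1 p.2.2) : ℕ) : ℝ) ^ 2 *
          (1 + κ * max (p.1 : ℝ) p.2.1 / Dl p.1 p.2.1 p.2.2) / max (p.1 : ℝ) p.2.1 else 0) := by
    rintro ⟨x, y, w⟩ hp
    rw [Finset.mem_product, Finset.mem_product, Finset.mem_Icc, Finset.mem_Icc, Finset.mem_Icc] at hp
    obtain ⟨⟨hx, _⟩, ⟨hy, _⟩, ⟨hw, _⟩⟩ := hp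
    dsimp only at hx hy hw ⊢
    have hmem : ∀ q ∈ F.filter (fun q => ((dd q.2.1 q.2.2).toNat, (dd q.1 q.2.2).toNat,
        (dd q.1 q.2.1).toNat) = (x, y, w)), Adq β ρ s d q.1 q.2.1 q.2.2 ∧ dd q.2.1 q.2.2 = x ∧
        dd q.1 q.2.2 = y ∧ dd q.1 q.2.1 = w := by
      intro q hq
      obtain ⟨hq, he⟩ := Finset.mem_filter.1 hq
      obtain ⟨h1, h2, h3, _⟩ := hpos q hq
      rw [Prod.mk.injEq, Prod.mk.injEq] at he
      exact ⟨hF q hq, by omega, by omega, by omega⟩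
    by_cases hlt : y < x + w
    · rw [if_pos hlt]
      have hcard := hc β ρ s d hβ hρ hs hs1 hd x y w hx hy hw hlt _ hmem
      have hsum : ∑ q ∈ F with ((dd q.2.1 q.2.2).toNat, (dd q.1 q.2.2).toNat,
          (dd q.1 q.2.1).toNat) = (x, y, w), A / max (dd q.2.1 q.2.2 : ℝ) (dd q.1 q.2.2) =
          ((F.filter (fun q => ((dd q.2.1 q.2.2).toNat, (dd q.1 q.2.2).toNat,
          (dd q.1 q.2.1).toNat) = (x, y, w))).card : ℝ) * (A / max (x : ℝ) y) := by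
        rw [← nsmul_eq_mul, ← Finset.sum_const]
        refine Finset.sum_congr rfl fun q hq => ?_
        obtain ⟨_, e1, e2, _⟩ := hmem q hq
        rw [e1, e2]
        push_cast
        rfl
      rw [hsum]
      have hmax : 0 < max (x : ℝ) y := lt_max_of_lt_left (by exact_mod_cast hx)
      refine (mul_le_mul_of_nonneg_right hcard (by positivity)).trans (le_of_eq ?_)
      ring
    · rw [if_neg hlt, mul_zero]
      have hemp : F.filter (fun q => ((dd q.2.1 q.2.2).toNat, (dd q.1 q.2.2).toNat,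
          (dd q.1 q.2.1).toNat) = (x, y, w)) = ∅ := by
        rw [Finset.eq_empty_iff_forall_notMem]
        intro q hq
        obtain ⟨_, e1, e2, e3⟩ := hmem q hq
        have h4 := (hpos q (Finset.mem_filter.1 hq).1).2.2.2
        omega
      rw [hemp, Finset.sum_empty]
  have hgs := hg N κ hN1 hκ0
  have hprod : ∑ p ∈ Finset.Icc 1 N ×ˢ Finset.Icc 1 N ×ˢ Finset.Icc 1 N,
      (if p.2.1 < p.1 + p.2.2 then ((Nat.gcd p.1 (Nat.gcd p.2.1 p.2.2) : ℕ) : ℝ) ^ 2 *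
          (1 + κ * max (p.1 : ℝ) p.2.1 / Dl p.1 p.2.1 p.2.2) / max (p.1 : ℝ) p.2.1 else 0) ≤
      Cg * (1 + log N) * ((N : ℝ) ^ 2 + κ * N) := by
    refine le_trans (le_of_eq ?_) hgs
    rw [Finset.sum_product]
    refine Finset.sum_congr rfl fun x _ => ?_
    rw [Finset.sum_product]
  have hlogN : 1 + log N ≤ 8 * (1 + log ρ) := by
    have h1 : log (N : ℝ) ≤ log (520 * ρ ^ 2) := by
      apply Real.log_le_log (by exact_mod_cast hN1)
      refine hNα.trans ?_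
      rw [hα]
      have h2 : s ^ 3 ≤ 1 := pow_le_one₀ hs.le hs1
      have h3 : 0 < 520 * ρ ^ 2 := by positivity
      nlinarith
    have h2 : log (520 * ρ ^ 2) = log 520 + 2 * log ρ := by
      rw [Real.log_mul (by norm_num) (by positivity), Real.log_pow]
      push_cast
      ring
    have h3 : log 520 ≤ 7 := by
      have h4 : log 520 ≤ log ((2 : ℝ) ^ 10) := Real.log_le_log (by norm_num) (by norm_num)
      rw [Real.log_pow] at h4
      have h5 := Real.log_two_lt_d9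
      push_cast at h4
      linarith
    linarith
  calc ∑ p ∈ Finset.Icc 1 N ×ˢ Finset.Icc 1 N ×ˢ Finset.Icc 1 N,
        ∑ q ∈ F with ((dd q.2.1 q.2.2).toNat, (dd q.1 q.2.2).toNat, (dd q.1 q.2.1).toNat) = p,
          A / max (dd q.2.1 q.2.2 : ℝ) (dd q.1 q.2.2)
      ≤ ∑ p ∈ Finset.Icc 1 N ×ˢ Finset.Icc 1 N ×ˢ Finset.Icc 1 N,
          A * (Cc * (1 + log ρ)) * (if p.2.1 < p.1 + p.2.2 then
            ((Nat.gcd p.1 (Nat.gcd p.2.1 p.2.2) : ℕ) : ℝ) ^ 2 *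
              (1 + κ * max (p.1 : ℝ) p.2.1 / Dl p.1 p.2.1 p.2.2) / max (p.1 : ℝ) p.2.1 else 0) :=
        Finset.sum_le_sum hfib
    _ = A * (Cc * (1 + log ρ)) * ∑ p ∈ Finset.Icc 1 N ×ˢ Finset.Icc 1 N ×ˢ Finset.Icc 1 N,
          (if p.2.1 < p.1 + p.2.2 then ((Nat.gcd p.1 (Nat.gcd p.2.1 p.2.2) : ℕ) : ℝ) ^ 2 *
            (1 + κ * max (p.1 : ℝ) p.2.1 / Dl p.1 p.2.1 p.2.2) / max (p.1 : ℝ) p.2.1 else 0) := by
        rw [Finset.mul_sum]
    _ ≤ A * (Cc * (1 + log ρ)) * (Cg * (1 + log N) * ((N : ℝ) ^ 2 + κ * N)) :=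
        mul_le_mul_of_nonneg_left hprod (by positivity)
    _ ≤ A * (Cc * (1 + log ρ)) * (Cg * (8 * (1 + log ρ)) * (α ^ 2 + κ * α)) := by
        refine mul_le_mul_of_nonneg_left ?_ (by positivity)
        refine mul_le_mul (mul_le_mul_of_nonneg_left hlogN hCg.le) ?_ (by positivity) (by positivity)
        exact add_le_add (pow_le_pow_left₀ (by positivity) hNα 2) (mul_le_mul_of_nonneg_left hNα hκ0)
    _ = _ := by
        rw [hA]
        ring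

theorem quad_total : ∃ C : ℝ, 0 < C ∧ ∀ (β ρ s d σ : ℝ) (T : Finset ℝ), 0 < σ → (∀ t ∈ T, Par β ρ t s d) →
    (∀ t ∈ T, ∀ t' ∈ T, t ≠ t' → σ ≤ |t - t'|) →
      ∑ t ∈ T, ∫⁻ R in Icc (ρ / 2) (4 * ρ), ∫⁻ c in Tq, ((quad β R t s d c).ncard : ENNReal) ≤
        ENNReal.ofReal (C * (1 + s / σ) * (1 + log ρ) ^ 2 * d ^ 3 * ρ ^ 2 *
          ((520 * ρ ^ 2 * s ^ 3) ^ 2 + ρ * d * (520 * ρ ^ 2 * s ^ 3))) := by
  classical
  obtain ⟨C, hC, hfs⟩ := fin_sum32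
  refine ⟨2 * C, by positivity, ?_⟩
  intro β ρ s d σ T hσ hT hsep
  rcases T.eq_empty_or_nonempty with rfl | ⟨t, ht⟩
  · rw [Finset.sum_empty]
    exact zero_le
  have hP := hT t ht
  have hρ := hP.hρ
  have hs := hP.hs
  have hs1 := hP.hs1
  have hd := hP.hd
  have hρ0 : 0 < ρ := by linarith
  have hlog : 0 ≤ log ρ := Real.log_nonneg hρ
  refine (quad_unfold T hσ hT hsep).trans ?_
  obtain ⟨B, hB⟩ : ∃ B : ℝ, B = C * (1 + log ρ) ^ 2 * d ^ 3 * ρ ^ 2 *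
      ((520 * ρ ^ 2 * s ^ 3) ^ 2 + ρ * d * (520 * ρ ^ 2 * s ^ 3)) := ⟨_, rfl⟩
  have hB0 : 0 ≤ B := by
    rw [hB]
    positivity
  have hsum : ∑' q : (ℤ × ℤ) × (ℤ × ℤ) × (ℤ × ℤ), (if Adq β ρ s d q.1 q.2.1 q.2.2 then
      ENNReal.ofReal (2 ^ 15 * d ^ 3 * ρ ^ 2 / max (dd q.2.1 q.2.2 : ℝ) (dd q.1 q.2.2)) else 0) ≤
      ENNReal.ofReal B := by
    rw [ENNReal.tsum_eq_iSup_sum]
    refine iSup_le fun F => ?_
    rw [← Finset.sum_filter]
    have hpos : ∀ q ∈ F.filter (fun q => Adq β ρ s d q.1 q.2.1 q.2.2),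
        0 ≤ 2 ^ 15 * d ^ 3 * ρ ^ 2 / max (dd q.2.1 q.2.2 : ℝ) (dd q.1 q.2.2) := by
      intro q hq
      obtain ⟨_, _, _, _, _, h3, _⟩ := (Finset.mem_filter.1 hq).2.qq
      have h4 : (0 : ℝ) < (dd q.2.1 q.2.2 : ℝ) := by exact_mod_cast h3
      have h5 : 0 < max (dd q.2.1 q.2.2 : ℝ) (dd q.1 q.2.2) := lt_max_of_lt_left h4
      positivity
    rw [← ENNReal.ofReal_sum_of_nonneg hpos]
    refine ENNReal.ofReal_le_ofReal ?_
    rw [hB]
    exact hfs β ρ s d hP.hβ hρ hs (by linarith) hd _ (fun q hq => (Finset.mem_filter.1 hq).2)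
  refine (mul_le_mul_right hsum _).trans ?_
  rw [← ENNReal.ofReal_mul (by positivity)]
  refine ENNReal.ofReal_le_ofReal ?_
  have h1 : 1 + 2 * s / σ ≤ 2 * (1 + s / σ) := by
    have h2 : 2 * s / σ = 2 * (s / σ) := by ring
    linarith
  calc (1 + 2 * s / σ) * B ≤ (2 * (1 + s / σ)) * B := mul_le_mul_of_nonneg_right h1 hB0
    _ = _ := by
        rw [hB]
        ring

end Pool.Agent.Helper92.GC
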