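import Pool.Agent.Helper92.GC.N5
import Pool.Agent.Helper92.GC.N7
import Pool.Agent.Helper92.GC.N17

/-!
# GC-N18: the total count

PROOF. Write `F_t = ∫∫ ncard near`, `Q_t = ∫∫ ncard quad` (over `R ∈ [ρ/2, 4ρ]`, `c ∈ Tq`). For each `t ∈ T`: if there is no `IsDir β ρ t s d g`, `pw_free` gives `I6 t ≤ C (F_t + (1+ρ^(2/3)s)² Q_t)`. Otherwise let `g = g_t` be the
direction (`dir_unique`), `z = zz β g ≥ d/σ > 64 d²ρ`, and `pw_dir`, `line_int` (`∫⁻ c` of the series is `z d`; then `∫ dR ≤ 4ρ`) give in addition `C (dρ)³ z^(-6) · 4ρ z d = 4C d⁴ρ⁴ z^(-5)`.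
(`ncard^6` of the hypotheses in `ℝ` is converted by `ENNReal.ofReal`; splitting of `∫⁻` of a sum: measurability by `near_meas`, `quad_meas` on `R > 0`, the series is measurable in `c`.)
Cube root: `(A + B)^(1/3) ≤ A^(1/3) + B^(1/3)` (`ENNReal.rpow_add_le_add_rpow`). `∑_t (F_t + L Q_t)^(1/3) ≤ (card T)^(2/3) (∑_t (F_t + L Q_t))^(1/3)` (Hölder / `ENNReal.inner_le_Lp_mul_Lq` or
`ENNReal.rpow_sum_le_const_mul_sum_rpow`-like), `L = (1+ρ^(2/3)s)²`, `card T ≤ 13/σ`, `∑_t F_t ≤ card T · 64ρ²sd ≤ 13 · 64 ρ² d s/σ` (`near_int`), `∑_t Q_t` by `quad_total`.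
Directions: `∑_t (d⁴ρ⁴ z_t^(-5))^(1/3) = (dρ)^(4/3) ∑_g #{t : g_t = g} zz β g^(-5/3)`; `|tg β g - t| ≤ s + 2d/z ≤ s + 2σ`, so by `sep_card` `#{t : g_t = g} ≤ 1 + (2s + 4σ)/σ = 5 + 2s/σ`; the set of all the `g_t` satisfies the
hypotheses of `dir_sum` with `Z₀ = √(48 d ρ)`: `|g.1| ≤ (6 + s) z + 2d` (from `close`, `|t| ≤ 6`); if `z < 1/8` this is `< 1`, so `g.1 = 0`, `z = g.2` is a positive integer, contradiction; so `z ≥ 1/8` and
`|g.1| ≤ 6.001 z + 0.002 ≤ 7z`. So `∑_g ≤ C (48dρ)^(1/6)`, total `≤ C (5 + 2s/σ) (dρ)^(3/2)`.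
-/

open MeasureTheory Real Set Filter Topology

set_option autoImplicit false

namespace Pool.Agent.Helper92.GC

open Pool.Agent.Helper22.AE
open Pool.Agent.Helper22.AC (n6 IsWt mu)

/-- the sixth moment of the number of lattice points near the arc -/
noncomputable def I6 (β ρ t₀ s d : ℝ) : ENNReal :=
  ∫⁻ R in Icc (ρ / 2) (4 * ρ), ∫⁻ c in Tq, ((near β R t₀ s d c).ncard : ENNReal) ^ 6

private theorem cube36 {S : ENNReal} {M : ℝ} (hM : 0 ≤ M) (h : S ^ (3 : ℝ) ≤ ENNReal.ofReal (M ^ 3)) :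
    S ≤ ENNReal.ofReal M := by
  have h2 : ENNReal.ofReal (M ^ 3) = ENNReal.ofReal M ^ (3 : ℝ) := by
    rw [ENNReal.ofReal_rpow_of_nonneg hM (by norm_num)]
    congr 1
    norm_num
  rw [h2] at h
  exact (ENNReal.rpow_le_rpow_iff (by norm_num)).1 h

private theorem nf_meas36 (β t₀ s d : ℝ) {ρ : ℝ} (hρ : 0 < ρ) :
    AEMeasurable (fun R => ∫⁻ c in Tq, ((near β R t₀ s d c).ncard : ENNReal)) (volume.restrict (Icc (ρ / 2) (4 * ρ))) := by
  have h1 := (near_meas β t₀ s d).lintegral_prod_left' (μ := (volume.restrict Tq : Measure (ℝ × ℝ)))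
  refine ⟨_, h1, ?_⟩
  refine (ae_restrict_iff' measurableSet_Icc).2 (Filter.Eventually.of_forall fun R hR => ?_)
  have : 0 < R := lt_of_lt_of_le (by positivity) hR.1
  simp only [this, if_true]

private theorem nr_meas36 (β t₀ s d : ℝ) {R : ℝ} (hR : 0 < R) :
    Measurable (fun c => ((near β R t₀ s d c).ncard : ENNReal)) := by
  have h1 := (near_meas β t₀ s d).comp (measurable_id.prodMk (measurable_const (a := R)))
  have h2 : (fun c => ((near β R t₀ s d c).ncard : ENNReal)) =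
      (fun q : (ℝ × ℝ) × ℝ => if 0 < q.2 then ((near β q.2 t₀ s d q.1).ncard : ENNReal) else 0) ∘ (fun c => (id c, R)) := by
    funext c
    simp [hR]
  rw [h2]
  exact h1

private theorem stepA36 {β ρ t₀ s d : ℝ} (h : Par β ρ t₀ s d) {Cf L K : ℝ} (hK : 0 ≤ K)
    (ser : ℝ → ℝ × ℝ → ENNReal) (hm : ∀ R, Measurable (ser R))
    (hi : ∀ R, ∫⁻ c in Tq, ser R c ≤ ENNReal.ofReal K)
    (hp : ∀ R ∈ Icc (ρ / 2) (4 * ρ), ∀ c : ℝ × ℝ, ((near β R t₀ s d c).ncard : ENNReal) ^ 6 ≤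
      ENNReal.ofReal Cf * ((near β R t₀ s d c).ncard + (ser R c + ENNReal.ofReal L * (quad β R t₀ s d c).ncard))) :
    I6 β ρ t₀ s d ≤ ENNReal.ofReal Cf * ((∫⁻ R in Icc (ρ / 2) (4 * ρ), ∫⁻ c in Tq, ((near β R t₀ s d c).ncard : ENNReal)) +
      ENNReal.ofReal L * (∫⁻ R in Icc (ρ / 2) (4 * ρ), ∫⁻ c in Tq, ((quad β R t₀ s d c).ncard : ENNReal)) +
      ENNReal.ofReal (4 * ρ * K)) := by
  have hρ : 0 < ρ := lt_of_lt_of_le one_pos h.hρ
  have hLf : ENNReal.ofReal L ≠ ⊤ := ENNReal.ofReal_ne_top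
  have hCf : ENNReal.ofReal Cf ≠ ⊤ := ENNReal.ofReal_ne_top
  have hin : ∀ R ∈ Icc (ρ / 2) (4 * ρ), ∫⁻ c in Tq, ((near β R t₀ s d c).ncard : ENNReal) ^ 6 ≤
      ENNReal.ofReal Cf * ((∫⁻ c in Tq, ((near β R t₀ s d c).ncard : ENNReal)) + (ENNReal.ofReal K +
        ENNReal.ofReal L * ∫⁻ c in Tq, ((quad β R t₀ s d c).ncard : ENNReal))) := by
    intro R hR
    have hR0 : 0 < R := lt_of_lt_of_le (by positivity) hR.1
    calc ∫⁻ c in Tq, ((near β R t₀ s d c).ncard : ENNReal) ^ 6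
        ≤ ∫⁻ c in Tq, ENNReal.ofReal Cf * ((near β R t₀ s d c).ncard + (ser R c + ENNReal.ofReal L * (quad β R t₀ s d c).ncard)) :=
          lintegral_mono fun c => hp R hR c
      _ = ENNReal.ofReal Cf * ((∫⁻ c in Tq, ((near β R t₀ s d c).ncard : ENNReal)) + ((∫⁻ c in Tq, ser R c) +
        ENNReal.ofReal L * ∫⁻ c in Tq, ((quad β R t₀ s d c).ncard : ENNReal))) := by
          rw [lintegral_const_mul' _ _ hCf, lintegral_add_left (nr_meas36 β t₀ s d hR0), lintegral_add_left (hm R),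
            lintegral_const_mul' _ _ hLf]
      _ ≤ _ := by
          gcongr
          exact hi R
  unfold I6
  calc ∫⁻ R in Icc (ρ / 2) (4 * ρ), ∫⁻ c in Tq, ((near β R t₀ s d c).ncard : ENNReal) ^ 6
      ≤ ∫⁻ R in Icc (ρ / 2) (4 * ρ), ENNReal.ofReal Cf * ((∫⁻ c in Tq, ((near β R t₀ s d c).ncard : ENNReal)) + (ENNReal.ofReal K +
        ENNReal.ofReal L * ∫⁻ c in Tq, ((quad β R t₀ s d c).ncard : ENNReal))) :=
        setLIntegral_mono' measurableSet_Icc hin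
    _ = ENNReal.ofReal Cf * ((∫⁻ R in Icc (ρ / 2) (4 * ρ), ∫⁻ c in Tq, ((near β R t₀ s d c).ncard : ENNReal)) +
        ((∫⁻ _ in Icc (ρ / 2) (4 * ρ), ENNReal.ofReal K) +
        ENNReal.ofReal L * ∫⁻ R in Icc (ρ / 2) (4 * ρ), ∫⁻ c in Tq, ((quad β R t₀ s d c).ncard : ENNReal))) := by
          rw [lintegral_const_mul' _ _ hCf, lintegral_add_left' (nf_meas36 β t₀ s d hρ), lintegral_add_left measurable_const,
            lintegral_const_mul' _ _ hLf]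
    _ ≤ _ := by
        have h1 : (∫⁻ _ in Icc (ρ / 2) (4 * ρ), ENNReal.ofReal K) ≤ ENNReal.ofReal (4 * ρ * K) := by
          rw [setLIntegral_const, Real.volume_Icc, ← ENNReal.ofReal_mul hK]
          apply ENNReal.ofReal_le_ofReal
          nlinarith
        rw [add_assoc, add_comm (∫⁻ _ in Icc (ρ / 2) (4 * ρ), ENNReal.ofReal K)]
        gcongr

private theorem conv36 {n q : ℕ} {C L P : ℝ} (hC : 0 ≤ C) (hL : 0 ≤ L) (hP : 0 ≤ P) {f : ℤ → ℝ} (hf : ∀ i, 0 ≤ f i)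
    (h : (n : ℝ) ^ 6 ≤ C * (n + L * q + P * ∑' i, f i)) :
    (n : ENNReal) ^ 6 ≤ ENNReal.ofReal C * (n + (ENNReal.ofReal P * (∑' i, ENNReal.ofReal (f i)) + ENNReal.ofReal L * q)) := by
  have h1 : (n : ENNReal) ^ 6 = ENNReal.ofReal ((n : ℝ) ^ 6) := by
    rw [ENNReal.ofReal_pow (by positivity), ENNReal.ofReal_natCast]
  have h2 : ENNReal.ofReal (∑' i, f i) ≤ ∑' i, ENNReal.ofReal (f i) := by
    by_cases hs : Summable f
    · rw [ENNReal.ofReal_tsum_of_nonneg hf hs]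
    · rw [tsum_eq_zero_of_not_summable hs]
      simp
  have h3 : 0 ≤ ∑' i, f i := tsum_nonneg hf
  rw [h1]
  calc ENNReal.ofReal ((n : ℝ) ^ 6) ≤ ENNReal.ofReal (C * (n + L * q + P * ∑' i, f i)) := ENNReal.ofReal_le_ofReal h
    _ = ENNReal.ofReal C * (n + (ENNReal.ofReal P * ENNReal.ofReal (∑' i, f i) + ENNReal.ofReal L * q)) := by
        rw [ENNReal.ofReal_mul hC, ENNReal.ofReal_add (by positivity) (by positivity),
          ENNReal.ofReal_add (by positivity) (by positivity), ENNReal.ofReal_mul hL, ENNReal.ofReal_mul hP,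
          ENNReal.ofReal_natCast, ENNReal.ofReal_natCast, add_assoc, add_comm (ENNReal.ofReal L * _)]
    _ ≤ _ := by gcongr

private theorem mom36 : ∃ C : ℝ, 1 ≤ C ∧ ∀ β ρ t₀ s d : ℝ, Par β ρ t₀ s d →
    ((∀ g, ¬ IsDir β ρ t₀ s d g) → I6 β ρ t₀ s d ≤ ENNReal.ofReal C *
      ((∫⁻ R in Icc (ρ / 2) (4 * ρ), ∫⁻ c in Tq, ((near β R t₀ s d c).ncard : ENNReal)) +
      ENNReal.ofReal ((1 + ρ ^ (2 / 3 : ℝ) * s) ^ 2) *
        (∫⁻ R in Icc (ρ / 2) (4 * ρ), ∫⁻ c in Tq, ((quad β R t₀ s d c).ncard : ENNReal)))) ∧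
    (∀ g, IsDir β ρ t₀ s d g → 64 * d ^ 2 * ρ < zz β g → I6 β ρ t₀ s d ≤ ENNReal.ofReal C *
      ((∫⁻ R in Icc (ρ / 2) (4 * ρ), ∫⁻ c in Tq, ((near β R t₀ s d c).ncard : ENNReal)) +
      ENNReal.ofReal ((1 + ρ ^ (2 / 3 : ℝ) * s) ^ 2) *
        (∫⁻ R in Icc (ρ / 2) (4 * ρ), ∫⁻ c in Tq, ((quad β R t₀ s d c).ncard : ENNReal)) +
      ENNReal.ofReal (4 * (d * ρ) ^ 4 / zz β g ^ 5))) := by
  obtain ⟨C1, hC1, h1⟩ := pw_free
  obtain ⟨C2, hC2, h2⟩ := pw_dir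
  refine ⟨C1 + C2 + 1, by linarith, ?_⟩
  intro β ρ t₀ s d h
  have hρ : 0 < ρ := lt_of_lt_of_le one_pos h.hρ
  have hs := h.hs
  have hd := h.hd
  have hL : 0 ≤ (1 + ρ ^ (2 / 3 : ℝ) * s) ^ 2 := by positivity
  constructor
  · intro hno
    have := stepA36 h (Cf := C1) (L := (1 + ρ ^ (2 / 3 : ℝ) * s) ^ 2) (K := 0) le_rfl (fun _ _ => 0)
      (fun _ => measurable_const) (fun R => by simp) (fun R hR c => by
        have h3 := h1 β ρ t₀ s d R h hR.1 hR.2 hno c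
        have h4 := conv36 (n := (near β R t₀ s d c).ncard) (q := (quad β R t₀ s d c).ncard) hC1.le hL le_rfl (P := 0)
          (f := fun _ => 0) (fun _ => le_rfl) (by simpa using h3)
        simpa using h4)
    refine this.trans ?_
    simp only [mul_zero, ENNReal.ofReal_zero, add_zero]
    gcongr
    linarith
  · intro g hg hz
    have hz0 := hg.pos
    have hg0 : g ≠ 0 := by
      rintro rfl
      have := hg.pos
      simp [zz] at this
    have hP : 0 ≤ (d * ρ) ^ 3 / zz β g ^ 6 := by positivity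
    have hfn : ∀ (R : ℝ) (c : ℝ × ℝ) (n : ℤ),
        0 ≤ ((1 + |R * tg β g ^ 2 - ((n : ℝ) - (c.1 * g.2 - c.2 * g.1)) / zz β g| / d) ^ 3)⁻¹ := by
      intro R c n
      positivity
    have := stepA36 h (Cf := C2) (L := (1 + ρ ^ (2 / 3 : ℝ) * s) ^ 2) (K := (d * ρ) ^ 3 / zz β g ^ 6 * (zz β g * d)) (by positivity)
      (fun R c => ENNReal.ofReal ((d * ρ) ^ 3 / zz β g ^ 6) * ∑' n : ℤ,
        ENNReal.ofReal ((1 + |R * tg β g ^ 2 - ((n : ℝ) - (c.1 * g.2 - c.2 * g.1)) / zz β g| / d) ^ 3)⁻¹)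
      (fun R => by
        refine Measurable.const_mul (Measurable.tsum fun n => ?_) _
        fun_prop)
      (fun R => by
        rw [lintegral_const_mul' _ _ ENNReal.ofReal_ne_top, line_int hg0 hz0 hd, ← ENNReal.ofReal_mul hP])
      (fun R hR c => by
        have h3 := h2 β ρ t₀ s d R h hR.1 hR.2 g hg hz c
        exact conv36 (n := (near β R t₀ s d c).ncard) (q := (quad β R t₀ s d c).ncard) hC2.le hL hP (hfn R c) h3)
    refine this.trans ?_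
    have e : 4 * ρ * ((d * ρ) ^ 3 / zz β g ^ 6 * (zz β g * d)) = 4 * (d * ρ) ^ 4 / zz β g ^ 5 := by
      field_simp
    rw [e]
    gcongr
    linarith

private theorem cuberoot36 {x z : ℝ} (hx : 0 ≤ x) (hz : 0 < z) :
    ENNReal.ofReal (4 * x ^ 4 / z ^ 5) ^ (1 / 3 : ℝ) ≤ ENNReal.ofReal (2 * x ^ (4 / 3 : ℝ) * z ^ (-(5 / 3) : ℝ)) := by
  rw [ENNReal.ofReal_rpow_of_nonneg (by positivity) (by norm_num)]
  apply ENNReal.ofReal_le_ofReal
  have e : 4 * x ^ 4 / z ^ 5 = 4 * x ^ 4 * (z ^ 5)⁻¹ := by rw [div_eq_mul_inv]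
  rw [e, Real.mul_rpow (by positivity) (by positivity), Real.mul_rpow (by norm_num) (by positivity)]
  have e1 : (x ^ 4) ^ (1 / 3 : ℝ) = x ^ (4 / 3 : ℝ) := by
    rw [← Real.rpow_natCast x 4, ← Real.rpow_mul hx]
    norm_num
  have e2 : ((z ^ 5)⁻¹) ^ (1 / 3 : ℝ) = z ^ (-(5 / 3) : ℝ) := by
    rw [← Real.rpow_natCast z 5, ← Real.rpow_neg hz.le, ← Real.rpow_mul hz.le]
    norm_num
  rw [e1, e2]
  have e3 : (4 : ℝ) ^ (1 / 3 : ℝ) ≤ 2 := by
    have : (4 : ℝ) ^ (1 / 3 : ℝ) ≤ 8 ^ (1 / 3 : ℝ) := by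
      apply Real.rpow_le_rpow (by norm_num) (by norm_num) (by norm_num)
    have e8 : (8 : ℝ) ^ (1 / 3 : ℝ) = 2 := by
      rw [show (8 : ℝ) = 2 ^ (3 : ℝ) by norm_num, ← Real.rpow_mul (by norm_num)]
      norm_num
    rwa [e8] at this
  gcongr

/-- Hölder over the set of the arcs: if `∑ X ≤ A B² Y` with `B ≥ 1`, `card T ≤ 13/σ` -/
private theorem holder36 (T : Finset ℝ) (X : ℝ → ENNReal) {σ A B Y : ℝ} (hσ : 0 < σ) (hT : (T.card : ℝ) * σ ≤ 13)
    (hA : 1 ≤ A) (hB : 1 ≤ B) (hY : 0 ≤ Y) (hX : ∑ t ∈ T, X t ≤ ENNReal.ofReal (A * B ^ 2 * Y)) :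
    ∑ t ∈ T, X t ^ (1 / 3 : ℝ) ≤ ENNReal.ofReal (13 * A * B * (σ ^ (-(2 / 3) : ℝ) * Y ^ (1 / 3 : ℝ))) := by
  apply cube36 (by positivity)
  have h1 := ENNReal.rpow_sum_le_const_mul_sum_rpow T (fun t => X t ^ (1 / 3 : ℝ)) (p := 3) (by norm_num)
  refine h1.trans ?_
  have h2 : ∀ t ∈ T, (X t ^ (1 / 3 : ℝ)) ^ (3 : ℝ) = X t := by
    intro t _
    rw [← ENNReal.rpow_mul]
    norm_num
  rw [Finset.sum_congr rfl h2]
  have h3 : (T.card : ENNReal) ^ ((3 : ℝ) - 1) ≤ ENNReal.ofReal (13 ^ 2 * (σ ^ 2)⁻¹) := by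
    have e : ((3 : ℝ) - 1) = ((2 : ℕ) : ℝ) := by norm_num
    rw [e, ENNReal.rpow_natCast]
    have e2 : (T.card : ENNReal) ^ 2 = ENNReal.ofReal ((T.card : ℝ) ^ 2) := by
      rw [ENNReal.ofReal_pow (by positivity), ENNReal.ofReal_natCast]
    rw [e2]
    apply ENNReal.ofReal_le_ofReal
    have h4 : (T.card : ℝ) ≤ 13 / σ := by rwa [le_div_iff₀ hσ]
    have h5 : (T.card : ℝ) ^ 2 ≤ (13 / σ) ^ 2 := by
      gcongr
    rw [div_pow, div_eq_mul_inv] at h5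
    exact h5
  have e3 : (σ ^ (-(2 / 3) : ℝ)) ^ 3 = (σ ^ 2)⁻¹ := by
    rw [← Real.rpow_natCast, ← Real.rpow_mul hσ.le, ← Real.rpow_natCast σ 2, ← Real.rpow_neg hσ.le]
    norm_num
  have e4 : (Y ^ (1 / 3 : ℝ)) ^ 3 = Y := by
    rw [← Real.rpow_natCast, ← Real.rpow_mul hY]
    norm_num
  calc (T.card : ENNReal) ^ ((3 : ℝ) - 1) * ∑ t ∈ T, X t
      ≤ ENNReal.ofReal (13 ^ 2 * (σ ^ 2)⁻¹) * ENNReal.ofReal (A * B ^ 2 * Y) := by gcongr
    _ = ENNReal.ofReal (13 ^ 2 * (σ ^ 2)⁻¹ * (A * B ^ 2 * Y)) := by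
        rw [← ENNReal.ofReal_mul (by positivity)]
    _ ≤ ENNReal.ofReal ((13 * A * B * (σ ^ (-(2 / 3) : ℝ) * Y ^ (1 / 3 : ℝ))) ^ 3) := by
        apply ENNReal.ofReal_le_ofReal
        have e5 : (13 * A * B * (σ ^ (-(2 / 3) : ℝ) * Y ^ (1 / 3 : ℝ))) ^ 3 =
            13 ^ 3 * A ^ 3 * B ^ 3 * ((σ ^ 2)⁻¹ * Y) := by
          rw [mul_pow, mul_pow, mul_pow, mul_pow, e3, e4]
        rw [e5]
        have h6 : 0 ≤ (σ ^ 2)⁻¹ * Y := by positivity
        have h7 : (13 : ℝ) ^ 2 * A * B ^ 2 ≤ 13 ^ 3 * A ^ 3 * B ^ 3 := by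
          have a1 : A ≤ A ^ 3 := by nlinarith [sq_nonneg (A - 1)]
          have a2 : B ^ 2 ≤ B ^ 3 := by nlinarith [sq_nonneg B]
          have a3 : A * B ^ 2 ≤ A ^ 3 * B ^ 3 := by gcongr
          have a4 : 0 ≤ A ^ 3 * B ^ 3 := by positivity
          linarith
        calc 13 ^ 2 * (σ ^ 2)⁻¹ * (A * B ^ 2 * Y) = (13 ^ 2 * A * B ^ 2) * ((σ ^ 2)⁻¹ * Y) := by ring
          _ ≤ _ := by gcongr

open Classical in
/-- the sum over the directions -/
private theorem dirs36 : ∃ C : ℝ, 0 < C ∧ ∀ (β ρ s d σ : ℝ) (T : Finset ℝ) (gt : ℝ → ℤ × ℤ), 0 < σ → σ ≤ s →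
    0 < d → 0 < ρ → (∀ t ∈ T, Par β ρ t s d) → (∀ t ∈ T, ∀ t' ∈ T, t ≠ t' → σ ≤ |t - t'|) →
    (∀ t ∈ T, IsDir β ρ t s d (gt t) ∧ d / σ ≤ zz β (gt t)) →
      ∑ t ∈ T, 2 * (d * ρ) ^ (4 / 3 : ℝ) * zz β (gt t) ^ (-(5 / 3) : ℝ) ≤ C * (1 + s / σ) * (d * ρ) ^ (3 / 2 : ℝ) := by
  obtain ⟨C, hC, hds⟩ := dir_sum
  refine ⟨20 * C, by positivity, ?_⟩
  intro β ρ s d σ T gt hσ hσs hd0 hρ0 hP hsep hg
  rcases T.eq_empty_or_nonempty with hT | ⟨t₁, ht₁⟩
  · subst hT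
    simp only [Finset.sum_empty]
    have hs : 0 < s := lt_of_lt_of_le hσ hσs
    positivity
  have h := hP t₁ ht₁
  have hρ : 0 < ρ := lt_of_lt_of_le one_pos h.hρ
  have hs := h.hs
  have hd := h.hd
  set w : ℤ × ℤ → ℝ := fun g => zz β g ^ (-(5 / 3) : ℝ) with hw
  have h1 : ∑ t ∈ T, w (gt t) = ∑ g ∈ T.image gt, ((T.filter (fun t => gt t = g)).card : ℝ) * w g := by
    rw [Finset.sum_comp w gt]
    simp [nsmul_eq_mul]
  have hfib : ∀ g ∈ T.image gt, ((T.filter (fun t => gt t = g)).card : ℝ) ≤ 5 * (1 + s / σ) := by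
    intro g hgi
    have h2 := sep_card (T.filter (fun t => gt t = g)) (fun t => t) (a := tg β g - (s + 2 * σ)) (L := 2 * (s + 2 * σ)) (δ := σ)
      (by positivity) hσ (by
        intro t ht
        rw [Finset.mem_filter] at ht
        obtain ⟨htT, rfl⟩ := ht
        obtain ⟨h3, h4⟩ := hg t htT
        have h5 := h3.close
        have h6 : 2 * d / zz β (gt t) ≤ 2 * σ := by
          rw [div_le_iff₀ h3.pos]
          rw [div_le_iff₀ hσ] at h4
          linarith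
        have h7 := abs_le.1 (h5.trans (add_le_add_right h6 s))
        constructor <;> linarith [h7.1, h7.2]) (by
        intro t ht t' ht' hne
        rw [Finset.mem_filter] at ht ht'
        exact hsep t ht.1 t' ht'.1 hne)
    refine h2.trans ?_
    have : 2 * (s + 2 * σ) / σ = 2 * (s / σ) + 4 := by
      field_simp
      ring
    rw [this]
    have : 0 ≤ s / σ := by positivity
    linarith
  have hw0 : ∀ g ∈ T.image gt, 0 ≤ w g := by
    intro g hgi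
    obtain ⟨t, ht, rfl⟩ := Finset.mem_image.1 hgi
    exact Real.rpow_nonneg (hg t ht).1.pos.le _
  have hsum : ∑ g ∈ T.image gt, w g ≤ C * √(48 * d * ρ) ^ (1 / 3 : ℝ) := by
    apply hds β (√(48 * d * ρ)) (T.image gt) h.hβ (by positivity)
    intro g hgi
    obtain ⟨t, ht, rfl⟩ := Finset.mem_image.1 hgi
    have h3 := (hg t ht).1
    have hPt := hP t ht
    refine ⟨h3.pos, h3.le, ?_⟩
    generalize gt t = g at h3
    have hz := h3.pos
    have hc := h3.close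
    have ht6 := hPt.ht
    have hs1 := hPt.hs1
    have hd1 := hPt.hd1
    have hβ := hPt.hβ
    have hg1 : |(g.1 : ℝ)| ≤ (6 + s) * zz β g + 2 * d := by
      have e1 : (g.1 : ℝ) = -(tg β g * zz β g) := by
        unfold tg
        field_simp
      have e2 : |tg β g| ≤ 6 + (s + 2 * d / zz β g) := by
        have : |tg β g| ≤ |tg β g - t| + |t| := by
          have := abs_add_le (tg β g - t) t
          simpa using this
        linarith
      rw [e1, abs_neg, abs_mul, abs_of_pos hz]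
      calc |tg β g| * zz β g ≤ (6 + (s + 2 * d / zz β g)) * zz β g := by gcongr
        _ = _ := by field_simp; ring
    have hz8 : 1 / 8 ≤ zz β g := by
      by_contra hcon
      push Not at hcon
      have h4 : |(g.1 : ℝ)| < 1 := by nlinarith
      have h5 : g.1 = 0 := by
        have : |g.1| < 1 := by exact_mod_cast h4
        exact Int.abs_lt_one_iff.1 this
      have h6 : zz β g = g.2 := by
        unfold zz
        rw [h5]
        simp
      rw [h6] at hz hcon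
      have h7 : (0 : ℤ) < g.2 := by exact_mod_cast hz
      have h8 : (1 : ℝ) ≤ g.2 := by exact_mod_cast h7
      linarith
    nlinarith
  have h48 : √(48 * d * ρ) ^ (1 / 3 : ℝ) ≤ 2 * (d * ρ) ^ (1 / 6 : ℝ) := by
    rw [Real.sqrt_eq_rpow, ← Real.rpow_mul (by positivity), show 48 * d * ρ = 48 * (d * ρ) by ring,
      Real.mul_rpow (by norm_num) (by positivity)]
    have e6 : (1 / 2 : ℝ) * (1 / 3) = 1 / 6 := by norm_num
    rw [e6]
    have e3 : (48 : ℝ) ^ (1 / 6 : ℝ) ≤ 2 := by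
      have : (48 : ℝ) ^ (1 / 6 : ℝ) ≤ 64 ^ (1 / 6 : ℝ) := by
        apply Real.rpow_le_rpow (by norm_num) (by norm_num) (by norm_num)
      have e8 : (64 : ℝ) ^ (1 / 6 : ℝ) = 2 := by
        rw [show (64 : ℝ) = 2 ^ (6 : ℝ) by norm_num, ← Real.rpow_mul (by norm_num)]
        norm_num
      rwa [e8] at this
    gcongr
  have hmain : ∑ t ∈ T, w (gt t) ≤ 5 * (1 + s / σ) * (C * (2 * (d * ρ) ^ (1 / 6 : ℝ))) := by
    rw [h1]
    calc ∑ g ∈ T.image gt, ((T.filter (fun t => gt t = g)).card : ℝ) * w g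
        ≤ ∑ g ∈ T.image gt, 5 * (1 + s / σ) * w g :=
          Finset.sum_le_sum fun g hgi => mul_le_mul_of_nonneg_right (hfib g hgi) (hw0 g hgi)
      _ = 5 * (1 + s / σ) * ∑ g ∈ T.image gt, w g := by rw [Finset.mul_sum]
      _ ≤ _ := by
          gcongr
          refine hsum.trans ?_
          gcongr
  have hexp : (d * ρ) ^ (4 / 3 : ℝ) * (d * ρ) ^ (1 / 6 : ℝ) = (d * ρ) ^ (3 / 2 : ℝ) := by
    rw [← Real.rpow_add (by positivity)]
    norm_num
  rw [← Finset.mul_sum]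
  calc 2 * (d * ρ) ^ (4 / 3 : ℝ) * ∑ t ∈ T, w (gt t)
      ≤ 2 * (d * ρ) ^ (4 / 3 : ℝ) * (5 * (1 + s / σ) * (C * (2 * (d * ρ) ^ (1 / 6 : ℝ)))) := by gcongr
    _ = 20 * C * (1 + s / σ) * ((d * ρ) ^ (4 / 3 : ℝ) * (d * ρ) ^ (1 / 6 : ℝ)) := by ring
    _ = _ := by rw [hexp]

theorem count_total : ∃ C : ℝ, 0 < C ∧ ∀ (β ρ s d σ : ℝ) (T : Finset ℝ), 0 < σ → σ ≤ s → 64 * d * ρ * σ < 1 →
    (∀ t ∈ T, Par β ρ t s d) → (∀ t ∈ T, ∀ t' ∈ T, t ≠ t' → σ ≤ |t - t'|) → (T.card : ℝ) * σ ≤ 13 →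
    (∀ t ∈ T, ∀ g, IsDir β ρ t s d g → d / σ ≤ zz β g) →
      ∑ t ∈ T, I6 β ρ t s d ^ (1 / 3 : ℝ) ≤ ENNReal.ofReal (C * (1 + s / σ) * (1 + log ρ) *
        (σ ^ (-(2 / 3) : ℝ) * (ρ ^ 2 * d * (s / σ) + (1 + ρ ^ (2 / 3 : ℝ) * s) ^ 2 * (d ^ 3 * ρ ^ 2 *
          ((520 * ρ ^ 2 * s ^ 3) ^ 2 + ρ * d * (520 * ρ ^ 2 * s ^ 3)))) ^ (1 / 3 : ℝ) + (d * ρ) ^ (3 / 2 : ℝ))) := by
  obtain ⟨C1, hC1, hmom⟩ := mom36
  obtain ⟨Cq, hCq, hqt⟩ := quad_total
  obtain ⟨Cd, hCd, hdirs⟩ := dirs36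
  refine ⟨C1 * (13 * (832 + Cq) + Cd), by positivity, ?_⟩
  intro β ρ s d σ T hσ hσs hdρσ hP hsep hcard hdir
  rcases T.eq_empty_or_nonempty with hT | ⟨t₁, ht₁⟩
  · subst hT
    simp
  have h := hP t₁ ht₁
  have hρ1 := h.hρ
  have hρ : 0 < ρ := lt_of_lt_of_le one_pos hρ1
  have hs := h.hs
  have hd := h.hd
  have hlog : 0 ≤ log ρ := Real.log_nonneg hρ1
  have hsσ : 0 ≤ s / σ := by positivity
  classical
  set L : ℝ := (1 + ρ ^ (2 / 3 : ℝ) * s) ^ 2 with hL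
  have hL0 : 0 ≤ L := by positivity
  set F : ℝ → ENNReal := fun t =>
    ∫⁻ R in Icc (ρ / 2) (4 * ρ), ∫⁻ c in Tq, ((near β R t s d c).ncard : ENNReal) with hF
  set Q : ℝ → ENNReal := fun t =>
    ∫⁻ R in Icc (ρ / 2) (4 * ρ), ∫⁻ c in Tq, ((quad β R t s d c).ncard : ENNReal) with hQ
  set W : ℝ := d ^ 3 * ρ ^ 2 * ((520 * ρ ^ 2 * s ^ 3) ^ 2 + ρ * d * (520 * ρ ^ 2 * s ^ 3)) with hW
  have hW0 : 0 ≤ W := by positivity
  set Y : ℝ := ρ ^ 2 * d * (s / σ) + L * W with hY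
  have hY0 : 0 ≤ Y := by positivity
  -- the directions
  let gt : ℝ → ℤ × ℤ := fun t => if h : ∃ g, IsDir β ρ t s d g then h.choose else 0
  have hgt : ∀ t ∈ T.filter (fun t => ∃ g, IsDir β ρ t s d g), IsDir β ρ t s d (gt t) ∧ d / σ ≤ zz β (gt t) := by
    intro t ht
    rw [Finset.mem_filter] at ht
    have e : gt t = ht.2.choose := by
      simp only [gt, ht.2, dite_true]
    have h2 : IsDir β ρ t s d (gt t) := by
      rw [e]
      exact ht.2.choose_spec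
    exact ⟨h2, hdir t ht.1 _ h2⟩
  have hterm : ∀ t ∈ T, I6 β ρ t s d ^ (1 / 3 : ℝ) ≤ ENNReal.ofReal C1 * ((F t + ENNReal.ofReal L * Q t) ^ (1 / 3 : ℝ) +
      (if ∃ g, IsDir β ρ t s d g then
        ENNReal.ofReal (2 * (d * ρ) ^ (4 / 3 : ℝ) * zz β (gt t) ^ (-(5 / 3) : ℝ)) else 0)) := by
    intro t ht
    obtain ⟨m1, m2⟩ := hmom β ρ t s d (hP t ht)
    have hC1' : ENNReal.ofReal C1 ^ (1 / 3 : ℝ) ≤ ENNReal.ofReal C1 := by
      have h1 : (1 : ENNReal) ≤ ENNReal.ofReal C1 := by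
        rw [← ENNReal.ofReal_one]
        exact ENNReal.ofReal_le_ofReal hC1
      calc ENNReal.ofReal C1 ^ (1 / 3 : ℝ) ≤ ENNReal.ofReal C1 ^ (1 : ℝ) :=
            ENNReal.rpow_le_rpow_of_exponent_le h1 (by norm_num)
        _ = _ := ENNReal.rpow_one _
    by_cases hex : ∃ g, IsDir β ρ t s d g
    · obtain ⟨h2, h3⟩ := hgt t (Finset.mem_filter.2 ⟨ht, hex⟩)
      have hz : 64 * d ^ 2 * ρ < zz β (gt t) := by
        refine lt_of_lt_of_le ?_ h3
        rw [lt_div_iff₀ hσ]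
        nlinarith
      have h4 := m2 (gt t) h2 hz
      rw [if_pos hex]
      calc I6 β ρ t s d ^ (1 / 3 : ℝ)
          ≤ (ENNReal.ofReal C1 * ((F t + ENNReal.ofReal L * Q t) + ENNReal.ofReal (4 * (d * ρ) ^ 4 / zz β (gt t) ^ 5))) ^ (1 / 3 : ℝ) :=
            ENNReal.rpow_le_rpow h4 (by norm_num)
        _ = ENNReal.ofReal C1 ^ (1 / 3 : ℝ) * ((F t + ENNReal.ofReal L * Q t) +
            ENNReal.ofReal (4 * (d * ρ) ^ 4 / zz β (gt t) ^ 5)) ^ (1 / 3 : ℝ) :=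
            ENNReal.mul_rpow_of_nonneg _ _ (by norm_num)
        _ ≤ ENNReal.ofReal C1 * ((F t + ENNReal.ofReal L * Q t) ^ (1 / 3 : ℝ) +
            ENNReal.ofReal (4 * (d * ρ) ^ 4 / zz β (gt t) ^ 5) ^ (1 / 3 : ℝ)) := by
            gcongr
            exact ENNReal.rpow_add_le_add_rpow _ _ (by norm_num) (by norm_num)
        _ ≤ _ := by
            gcongr
            exact cuberoot36 (by positivity) h2.pos
    · rw [if_neg hex, add_zero]
      push Not at hex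
      have h4 := m1 hex
      calc I6 β ρ t s d ^ (1 / 3 : ℝ)
          ≤ (ENNReal.ofReal C1 * (F t + ENNReal.ofReal L * Q t)) ^ (1 / 3 : ℝ) :=
            ENNReal.rpow_le_rpow h4 (by norm_num)
        _ = ENNReal.ofReal C1 ^ (1 / 3 : ℝ) * (F t + ENNReal.ofReal L * Q t) ^ (1 / 3 : ℝ) :=
            ENNReal.mul_rpow_of_nonneg _ _ (by norm_num)
        _ ≤ _ := by gcongr
  -- the two sums
  have hB : 1 ≤ (1 + s / σ) * (1 + log ρ) := by nlinarith
  have hS1 : ∑ t ∈ T, (F t + ENNReal.ofReal L * Q t) ^ (1 / 3 : ℝ) ≤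
      ENNReal.ofReal (13 * (832 + Cq) * ((1 + s / σ) * (1 + log ρ)) * (σ ^ (-(2 / 3) : ℝ) * Y ^ (1 / 3 : ℝ))) := by
    apply holder36 T (fun t => F t + ENNReal.ofReal L * Q t) hσ hcard (by linarith) hB hY0
    rw [Finset.sum_add_distrib, ← Finset.mul_sum]
    have hFs : ∑ t ∈ T, F t ≤ ENNReal.ofReal (832 * (ρ ^ 2 * d * (s / σ))) := by
      calc ∑ t ∈ T, F t ≤ ∑ t ∈ T, ENNReal.ofReal (64 * ρ ^ 2 * s * d) :=
            Finset.sum_le_sum fun t ht => near_int (hP t ht)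
        _ = ENNReal.ofReal (T.card * (64 * ρ ^ 2 * s * d)) := by
            rw [Finset.sum_const, nsmul_eq_mul, ENNReal.ofReal_mul (p := (T.card : ℝ)) (by positivity), ENNReal.ofReal_natCast]
        _ ≤ _ := by
            apply ENNReal.ofReal_le_ofReal
            have e : 832 * (ρ ^ 2 * d * (s / σ)) = 13 / σ * (64 * ρ ^ 2 * s * d) := by
              field_simp
              norm_num
            rw [e]
            have : (T.card : ℝ) ≤ 13 / σ := by rwa [le_div_iff₀ hσ]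
            gcongr
    have hQs : ENNReal.ofReal L * ∑ t ∈ T, Q t ≤ ENNReal.ofReal (Cq * (1 + s / σ) * (1 + log ρ) ^ 2 * (L * W)) := by
      calc ENNReal.ofReal L * ∑ t ∈ T, Q t ≤ ENNReal.ofReal L * ENNReal.ofReal (Cq * (1 + s / σ) * (1 + log ρ) ^ 2 * d ^ 3 * ρ ^ 2 *
          ((520 * ρ ^ 2 * s ^ 3) ^ 2 + ρ * d * (520 * ρ ^ 2 * s ^ 3))) := by
            gcongr
            exact hqt β ρ s d σ T hσ hP hsep
        _ = _ := by
            rw [← ENNReal.ofReal_mul hL0, hW]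
            congr 1
            ring
    calc ∑ t ∈ T, F t + ENNReal.ofReal L * ∑ t ∈ T, Q t
        ≤ ENNReal.ofReal (832 * (ρ ^ 2 * d * (s / σ))) + ENNReal.ofReal (Cq * (1 + s / σ) * (1 + log ρ) ^ 2 * (L * W)) := by gcongr
      _ = ENNReal.ofReal (832 * (ρ ^ 2 * d * (s / σ)) + Cq * (1 + s / σ) * (1 + log ρ) ^ 2 * (L * W)) := by
          rw [ENNReal.ofReal_add (by positivity) (by positivity)]
      _ ≤ _ := by
          apply ENNReal.ofReal_le_ofReal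
          rw [hY]
          have ha : 0 ≤ ρ ^ 2 * d * (s / σ) := by positivity
          have hb : 0 ≤ L * W := by positivity
          generalize ρ ^ 2 * d * (s / σ) = a at ha
          generalize L * W = b at hb
          have hu : 1 ≤ 1 + s / σ := by linarith
          have hv : 1 ≤ 1 + log ρ := by linarith
          generalize 1 + s / σ = u at hu
          generalize 1 + log ρ = v at hv
          have u2 : u ≤ u ^ 2 := by nlinarith
          have v2 : 1 ≤ v ^ 2 := by nlinarith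
          have k1 : 1 ≤ u ^ 2 * v ^ 2 := by nlinarith
          have k2 : u * v ^ 2 ≤ u ^ 2 * v ^ 2 := by gcongr
          have k3 : 832 * a ≤ 832 * (u ^ 2 * v ^ 2 * a) := by nlinarith
          have k4 : Cq * u * v ^ 2 * b ≤ Cq * (u ^ 2 * v ^ 2 * b) := by
            calc Cq * u * v ^ 2 * b = Cq * ((u * v ^ 2) * b) := by ring
              _ ≤ _ := by gcongr
          have k5 : 0 ≤ 832 * (u ^ 2 * v ^ 2 * b) := by positivity
          have k6 : 0 ≤ Cq * (u ^ 2 * v ^ 2 * a) := by positivity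
          calc 832 * a + Cq * u * v ^ 2 * b ≤ 832 * (u ^ 2 * v ^ 2 * a) + Cq * (u ^ 2 * v ^ 2 * b) := by linarith
            _ ≤ (832 + Cq) * (u * v) ^ 2 * (a + b) := by linarith
  have hS2 : ∑ t ∈ T, (if ∃ g, IsDir β ρ t s d g then
        ENNReal.ofReal (2 * (d * ρ) ^ (4 / 3 : ℝ) * zz β (gt t) ^ (-(5 / 3) : ℝ)) else 0) ≤
      ENNReal.ofReal (Cd * (1 + s / σ) * (d * ρ) ^ (3 / 2 : ℝ)) := by
    rw [← Finset.sum_filter, ← ENNReal.ofReal_sum_of_nonneg]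
    · apply ENNReal.ofReal_le_ofReal
      exact hdirs β ρ s d σ (T.filter (fun t => ∃ g, IsDir β ρ t s d g)) gt hσ hσs hd hρ
        (fun t ht => hP t (Finset.mem_filter.1 ht).1)
        (fun t ht t' ht' => hsep t (Finset.mem_filter.1 ht).1 t' (Finset.mem_filter.1 ht').1) hgt
    · intro t ht
      have := (hgt t ht).1.pos
      positivity
  calc ∑ t ∈ T, I6 β ρ t s d ^ (1 / 3 : ℝ)
      ≤ ∑ t ∈ T, ENNReal.ofReal C1 * ((F t + ENNReal.ofReal L * Q t) ^ (1 / 3 : ℝ) +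
      (if ∃ g, IsDir β ρ t s d g then
        ENNReal.ofReal (2 * (d * ρ) ^ (4 / 3 : ℝ) * zz β (gt t) ^ (-(5 / 3) : ℝ)) else 0)) := Finset.sum_le_sum hterm
    _ = ENNReal.ofReal C1 * (∑ t ∈ T, (F t + ENNReal.ofReal L * Q t) ^ (1 / 3 : ℝ) +
      ∑ t ∈ T, (if ∃ g, IsDir β ρ t s d g then
        ENNReal.ofReal (2 * (d * ρ) ^ (4 / 3 : ℝ) * zz β (gt t) ^ (-(5 / 3) : ℝ)) else 0)) := by
        rw [← Finset.mul_sum, Finset.sum_add_distrib]
    _ ≤ ENNReal.ofReal C1 * (ENNReal.ofReal (13 * (832 + Cq) * ((1 + s / σ) * (1 + log ρ)) * (σ ^ (-(2 / 3) : ℝ) * Y ^ (1 / 3 : ℝ))) +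
        ENNReal.ofReal (Cd * (1 + s / σ) * (d * ρ) ^ (3 / 2 : ℝ))) := by gcongr
    _ = ENNReal.ofReal (C1 * (13 * (832 + Cq) * ((1 + s / σ) * (1 + log ρ)) * (σ ^ (-(2 / 3) : ℝ) * Y ^ (1 / 3 : ℝ)) +
        Cd * (1 + s / σ) * (d * ρ) ^ (3 / 2 : ℝ))) := by
        rw [← ENNReal.ofReal_add (by positivity) (by positivity), ← ENNReal.ofReal_mul (by positivity)]
    _ ≤ _ := by
        apply ENNReal.ofReal_le_ofReal
        have ha : 0 ≤ σ ^ (-(2 / 3) : ℝ) * Y ^ (1 / 3 : ℝ) := by positivity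
        have hb : 0 ≤ (d * ρ) ^ (3 / 2 : ℝ) := by positivity
        generalize σ ^ (-(2 / 3) : ℝ) * Y ^ (1 / 3 : ℝ) = a at ha
        generalize (d * ρ) ^ (3 / 2 : ℝ) = b at hb
        have hu : 1 ≤ 1 + s / σ := by linarith
        have hv : 1 ≤ 1 + log ρ := by linarith
        generalize 1 + s / σ = u at hu
        generalize 1 + log ρ = v at hv
        have hu0 : 0 ≤ u := by linarith
        have hv0 : 0 ≤ v := by linarith
        have k1 : u * b ≤ u * v * b := by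
          have : u * 1 ≤ u * v := by gcongr
          nlinarith
        have k2 : 0 ≤ u * v * a := by positivity
        have k3 : 0 ≤ u * v * b := by positivity
        calc C1 * (13 * (832 + Cq) * (u * v) * a + Cd * u * b) ≤ C1 * (13 * (832 + Cq) * (u * v * a) + Cd * (u * v * b)) := by
              have : Cd * u * b ≤ Cd * (u * v * b) := by
                calc Cd * u * b = Cd * (u * b) := by ring
                  _ ≤ _ := by gcongr
              have h1 : 13 * (832 + Cq) * (u * v) * a = 13 * (832 + Cq) * (u * v * a) := by ring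
              rw [h1]
              gcongr
          _ ≤ C1 * ((13 * (832 + Cq) + Cd) * (u * v * a) + (13 * (832 + Cq) + Cd) * (u * v * b)) := by
              have k4 : 13 * (832 + Cq) ≤ 13 * (832 + Cq) + Cd := by linarith
              have k5 : Cd ≤ 13 * (832 + Cq) + Cd := by linarith
              gcongr
          _ = C1 * (13 * (832 + Cq) + Cd) * u * v * (a + b) := by ring

end Pool.Agent.Helper92.GC
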