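import Pool.Agent.Helper92.GC.W4
import Pool.Agent.Helper92.GC.W5
import Pool.Agent.Helper88.BD.PoissonDecay

/-!
# GC-W6: Poisson summation for the smooth arc sum

PROOF of `wp`. `p = 3n + 3 ≥ 1`. `Helper88.BD.poisson_decay` for `d = Fin 2` and `f y = wf β H σ t₀ R p (y 0) (y 1) * ee (c.1 y 0 + c.2 y 1)` (continuous, decay `wf_decay`): as in the proof of
`poisson_c` (Helper22.AC.D1a: `Helper52.Circle.chr_eq`, `volume_preserving_finTwoArrow`, `finTwoArrowEquiv`), the Fourier coefficient at `m` is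
`∫ q, wf q.1 q.2 * ee (-((m.1 - c.1) q.1 + (m.2 - c.2) q.2)) = H² σ Jf p Y (Del β R t₀ c m/σ) (H Psi β R c m)` (`wf_four` with `ξ = m - c`; `zt`, `Psi`, `Del` are defined accordingly), of norm at most
`C H² σ (2RHσ²)^(-1/2) (..)^(-n) (..)^(-n) = C H^(3/2) (2R)^(-1/2) (...)` by `J_bound`, summable by `dual_sum` (`n ≥ 8`). The value at the lattice points is `wt * ee (R ph) * ee (dt k c)` (`wf_lat`), so
`Ft = ∑' m (coefficient)` and the norm is at most the sum of the norms. `Ft_summable`: `wf_decay` at the lattice points.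
PROOF of `wp_near`. Given `ε`, let `n ≥ 8 + 12/ε` and `C₁` from `wp`. The terms with `m ∈ near β R t₀ (σ H^ε) (H^(ε-1)) c` are `≤ 1` each: total `≤ ncard`. For the other `m`: `|Del|/σ > H^ε` or `H |Psi| > H^ε`, so the
term with exponent `n` is at most `H^(-ε(n-8))` times the term with exponent `8`; sum `≤ H^(-12) C R³ ≤ C' H^(-3)` (`R ≤ 4 H³`), times `C₁ √(H³/R) ≤ C₁ H^(3/2)`: bounded by a constant.
-/

open MeasureTheory Real Set Filter Topology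

set_option autoImplicit false

namespace Pool.Agent.Helper92.GC

open Pool.Agent.Helper22.AE
open Pool.Agent.Helper22.AC (n6 IsWt mu)

/-- the Fourier coefficient -/
private noncomputable def cf71 (β H σ t₀ R : ℝ) (p : ℕ) (c : ℝ × ℝ) (m : ℤ × ℤ) : ℂ :=
  ((H ^ 2 * σ : ℝ) : ℂ) * Jf p (2 * R * H * σ ^ 2) (Del β R t₀ c m / σ) (H * Psi β R c m)

private lemma amp71 {H σ R : ℝ} (hH : 0 < H) (hσ : 0 < σ) (hR : 0 < R) :
    H ^ 2 * σ * (2 * R * H * σ ^ 2) ^ (-(1 / 2) : ℝ) ≤ √(H ^ 3 / R) := by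
  have hY : 0 < 2 * R * H * σ ^ 2 := by positivity
  apply Real.le_sqrt_of_sq_le
  rw [mul_pow, ← Real.rpow_natCast ((2 * R * H * σ ^ 2) ^ (-(1 / 2) : ℝ)) 2, ← Real.rpow_mul hY.le]
  have e1 : (-(1 / 2) : ℝ) * ((2 : ℕ) : ℝ) = -1 := by norm_num
  rw [e1, Real.rpow_neg_one]
  rw [mul_pow, ← div_eq_mul_inv, div_le_div_iff₀ hY hR]
  have e2 : 0 ≤ H ^ 4 * σ ^ 2 * R := by positivity
  nlinarith

private lemma far71 {a b x M : ℝ} {k : ℕ} (ha : 1 ≤ a) (hb : 1 ≤ b) (hx : 0 ≤ x) (hM : 0 < M)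
    (h : x ≤ a ∨ x ≤ b) (hxM : M ≤ x ^ k) :
    (a ^ (8 + k))⁻¹ * (b ^ (8 + k))⁻¹ ≤ M⁻¹ * ((a ^ 8)⁻¹ * (b ^ 8)⁻¹) := by
  have ha0 : 0 < a := by linarith
  have hb0 : 0 < b := by linarith
  have h1 : M ≤ a ^ k * b ^ k := by
    rcases h with h | h
    · calc M ≤ x ^ k := hxM
        _ ≤ a ^ k := pow_le_pow_left₀ hx h k
        _ = a ^ k * 1 := (mul_one _).symm
        _ ≤ a ^ k * b ^ k := by gcongr; exact one_le_pow₀ hb
    · calc M ≤ x ^ k := hxM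
        _ ≤ b ^ k := pow_le_pow_left₀ hx h k
        _ = 1 * b ^ k := (one_mul _).symm
        _ ≤ a ^ k * b ^ k := by gcongr; exact one_le_pow₀ ha
  rw [← mul_inv, ← mul_inv, ← mul_inv]
  apply inv_anti₀ (by positivity)
  calc M * (a ^ 8 * b ^ 8) ≤ (a ^ k * b ^ k) * (a ^ 8 * b ^ 8) := by gcongr
    _ = a ^ (8 + k) * b ^ (8 + k) := by rw [pow_add, pow_add]; ring

private lemma coef71 {β H σ t₀ R : ℝ} {p : ℕ} (hH : 0 < H) (hσ : 0 < σ) (hp : 1 ≤ p) (hR : 0 < R)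
    (c : ℝ × ℝ) (m : ℤ × ℤ) :
    ∫ q : ℝ × ℝ, ee (-((m.1 : ℝ) * q.1 + (m.2 : ℝ) * q.2)) *
      (wf β H σ t₀ R p q.1 q.2 * ee (c.1 * q.1 + c.2 * q.2)) = cf71 β H σ t₀ R p c m := by
  have h := wf_four (β := β) (t₀ := t₀) hH hσ hp hR (((m.1 : ℝ) - c.1, (m.2 : ℝ) - c.2) : ℝ × ℝ)
  unfold cf71 Del Psi zt
  simp only at h
  rw [← h]
  congr 1
  funext q
  have e1 : -(((m.1 : ℝ) - c.1) * q.1 + ((m.2 : ℝ) - c.2) * q.2) =
      -((m.1 : ℝ) * q.1 + (m.2 : ℝ) * q.2) + (c.1 * q.1 + c.2 * q.2) := by ring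
  rw [e1, ee_add (-((m.1 : ℝ) * q.1 + (m.2 : ℝ) * q.2))]
  ring

private lemma poisson71 {β H σ t₀ R : ℝ} {p : ℕ} (hH : 0 < H) (hσ : 0 < σ) (hp : 1 ≤ p) (hR : 0 < R)
    (c : ℝ × ℝ) (hcs : Summable (fun m : ℤ × ℤ => cf71 β H σ t₀ R p c m)) :
    ∑' m : ℤ × ℤ, cf71 β H σ t₀ R p c m = Ft β H σ t₀ p R c := by
  obtain ⟨C, hC⟩ := wf_decay (β := β) (t₀ := t₀) (R := R) hH hσ hp
  set f : (Fin 2 → ℝ) → ℂ := fun y => wf β H σ t₀ R p (y 0) (y 1) * ee (c.1 * y 0 + c.2 * y 1) with hf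
  have hfc : Continuous f := by
    rw [hf]
    apply Continuous.mul
    · have h1 : Continuous (fun y : Fin 2 → ℝ => ((y 0, y 1) : ℝ × ℝ)) := by fun_prop
      exact (wf_cont (β := β) (t₀ := t₀) (R := R) hH hσ hp).comp h1
    · apply ee_cont.comp
      fun_prop
  have hfd : ∀ y : Fin 2 → ℝ, ‖f y‖ ≤ C * ∏ i, (1 + y i ^ 2)⁻¹ := by
    intro y
    rw [hf, Fin.prod_univ_two]
    simp only
    rw [norm_mul, ee_norm, mul_one]
    exact hC _ _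
  have hcoef : ∀ k : Fin 2 → ℤ, ∫ y, Helper52.Circle.chr k y * f y = cf71 β H σ t₀ R p c (k 0, k 1) := by
    intro k
    rw [← coef71 hH hσ hp hR c (k 0, k 1)]
    have hmp := (volume_preserving_finTwoArrow ℝ).integral_comp' (f := MeasurableEquiv.finTwoArrow)
      (fun q : ℝ × ℝ => ee (-(((k 0, k 1).1 : ℝ) * q.1 + ((k 0, k 1).2 : ℝ) * q.2)) *
        (wf β H σ t₀ R p q.1 q.2 * ee (c.1 * q.1 + c.2 * q.2)))
    rw [← hmp]
    congr 1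
    funext y
    rw [hf]
    have e1 : (MeasurableEquiv.finTwoArrow y : ℝ × ℝ) = (y 0, y 1) := rfl
    rw [e1, Helper52.Circle.chr_eq]
    have e2 : Complex.exp (-(2 * Real.pi * Complex.I * ∑ i, (k i : ℂ) * (y i : ℂ))) =
        ee (-((k 0 : ℝ) * y 0 + (k 1 : ℝ) * y 1)) := by
      unfold ee
      congr 1
      rw [Fin.sum_univ_two]
      push_cast
      ring
    rw [e2]
  have hs : Summable (fun k : Fin 2 → ℤ => ∫ y, Helper52.Circle.chr k y * f y) := by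
    simp_rw [hcoef]
    exact (finTwoArrowEquiv ℤ).summable_iff.mpr hcs
  have hP := Pool.Agent.Helper88.BD.poisson_decay f hfc hfd hs
  simp_rw [hcoef] at hP
  have h2 : (∑' v : Fin 2 → ℤ, f (Helper52.Circle.toR v)) = Ft β H σ t₀ p R c := by
    unfold Ft
    have h3 : ∀ k : ℤ × ℤ, (wt β H σ t₀ p k : ℂ) * ee (R * ph β k) * ee (dt k c) =
        wf β H σ t₀ R p (k.1 : ℝ) (k.2 : ℝ) * ee (c.1 * (k.1 : ℝ) + c.2 * (k.2 : ℝ)) := by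
      intro k
      rw [wf_lat]
      unfold dt
      rw [mul_comm c.1, mul_comm c.2]
    simp_rw [h3]
    exact (finTwoArrowEquiv ℤ).tsum_eq (fun k : ℤ × ℤ =>
      wf β H σ t₀ R p (k.1 : ℝ) (k.2 : ℝ) * ee (c.1 * (k.1 : ℝ) + c.2 * (k.2 : ℝ)))
  rw [h2] at hP
  have hP2 : HasSum ((fun m : ℤ × ℤ => cf71 β H σ t₀ R p c m) ∘ (finTwoArrowEquiv ℤ)) (Ft β H σ t₀ p R c) := hP
  exact ((finTwoArrowEquiv ℤ).hasSum_iff.mp hP2).tsum_eq

theorem Ft_summable {β H σ t₀ R : ℝ} {p : ℕ} (hH : 0 < H) (hσ : 0 < σ) (hp : 1 ≤ p) (c : ℝ × ℝ) :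
    Summable (fun k : ℤ × ℤ => ‖(wt β H σ t₀ p k : ℂ) * ee (R * ph β k) * ee (dt k c)‖) := by
  obtain ⟨C, hC⟩ := wf_decay (β := β) (t₀ := t₀) (R := R) hH hσ hp
  have hs := Pool.Agent.Helper88.BD.PDecay.summable_inv_sq
  have h1 : Summable (fun k : ℤ × ℤ => (1 + (k.1 : ℝ) ^ 2)⁻¹ * (1 + (k.2 : ℝ) ^ 2)⁻¹) :=
    hs.mul_of_nonneg hs (fun n => by positivity) (fun n => by positivity)
  refine Summable.of_nonneg_of_le (fun k => norm_nonneg _) (fun k => ?_) (h1.mul_left C)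
  rw [norm_mul, ee_norm, mul_one, ← wf_lat]
  exact hC _ _

theorem wp {n : ℕ} (hn : 8 ≤ n) : ∃ C : ℝ, 0 < C ∧ ∀ β H σ t₀ R : ℝ, |β| ≤ 1 / 2 → 1 ≤ H → 0 < σ → σ ≤ 1 → |t₀| ≤ 6 →
    1 ≤ R → 1 ≤ 2 * R * H * σ ^ 2 → ∀ c : ℝ × ℝ,
      ‖Ft β H σ t₀ (3 * n + 3) R c‖ ≤ C * √(H ^ 3 / R) *
        ∑' m : ℤ × ℤ, ((1 + |Del β R t₀ c m| / σ) ^ n)⁻¹ * ((1 + H * |Psi β R c m|) ^ n)⁻¹ := by
  obtain ⟨C, hC, hJ⟩ := J_bound n
  obtain ⟨D, hD, hdual⟩ := dual_sum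
  refine ⟨C, hC, fun β H σ t₀ R hβ hH hσ hσ1 ht hR hY c => ?_⟩
  have hH0 : 0 < H := by linarith
  have hR0 : 0 < R := by linarith
  have hsum := (hdual n β H σ t₀ R hn hβ hH hσ hσ1 ht hR c).1
  have hp : 1 ≤ 3 * n + 3 := by omega
  -- the coefficients
  have hcb : ∀ m : ℤ × ℤ, ‖cf71 β H σ t₀ R (3 * n + 3) c m‖ ≤ C * √(H ^ 3 / R) *
      (((1 + |Del β R t₀ c m| / σ) ^ n)⁻¹ * ((1 + H * |Psi β R c m|) ^ n)⁻¹) := by
    intro m
    unfold cf71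
    have h1 := hJ (2 * R * H * σ ^ 2) (Del β R t₀ c m / σ) (H * Psi β R c m) hY
    rw [abs_div, abs_of_pos hσ, abs_mul, abs_of_pos hH0] at h1
    rw [norm_mul, Complex.norm_real, Real.norm_of_nonneg (by positivity)]
    have h2 := amp71 hH0 hσ hR0
    set A := ((1 + |Del β R t₀ c m| / σ) ^ n)⁻¹ with hA
    set B := ((1 + H * |Psi β R c m|) ^ n)⁻¹ with hB
    have hA0 : 0 ≤ A := by rw [hA]; positivity
    have hB0 : 0 ≤ B := by rw [hB]; positivity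
    calc H ^ 2 * σ * ‖Jf (3 * n + 3) (2 * R * H * σ ^ 2) (Del β R t₀ c m / σ) (H * Psi β R c m)‖
        ≤ H ^ 2 * σ * (C * (2 * R * H * σ ^ 2) ^ (-(1 / 2) : ℝ) * A * B) :=
          mul_le_mul_of_nonneg_left h1 (by positivity)
      _ = C * (H ^ 2 * σ * (2 * R * H * σ ^ 2) ^ (-(1 / 2) : ℝ)) * (A * B) := by ring
      _ ≤ C * √(H ^ 3 / R) * (A * B) := by gcongr
  have hcs : Summable (fun m : ℤ × ℤ => cf71 β H σ t₀ R (3 * n + 3) c m) :=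
    Summable.of_norm_bounded (hsum.mul_left (C * √(H ^ 3 / R))) hcb
  have hF := poisson71 (β := β) (t₀ := t₀) hH0 hσ hp hR0 c hcs
  rw [← hF, ← tsum_mul_left]
  exact tsum_of_norm_bounded (hsum.mul_left (C * √(H ^ 3 / R))).hasSum hcb

theorem wp_near {ε : ℝ} (hε : 0 < ε) : ∃ p : ℕ, 1 ≤ p ∧ ∃ C : ℝ, 0 < C ∧ ∀ β H σ t₀ R : ℝ, |β| ≤ 1 / 2 → 1 ≤ H → 0 < σ →
    σ ≤ 1 → |t₀| ≤ 6 → 1 ≤ R → R ≤ 4 * H ^ 3 → 1 ≤ 2 * R * H * σ ^ 2 → ∀ c : ℝ × ℝ,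
      ‖Ft β H σ t₀ p R c‖ ≤ C * √(H ^ 3 / R) * ((near β R t₀ (σ * H ^ ε) (H ^ (ε - 1)) c).ncard : ℝ) + C := by
  obtain ⟨k, hk⟩ := exists_nat_ge (12 / ε)
  obtain ⟨C₁, hC₁, hwp⟩ := wp (n := 8 + k) (by omega)
  obtain ⟨D, hD, hdual⟩ := dual_sum
  refine ⟨3 * (8 + k) + 3, by omega, C₁ + 64 * C₁ * D, by positivity, ?_⟩
  intro β H σ t₀ R hβ hH hσ hσ1 ht hR hRH hY c
  have hH0 : 0 < H := by linarith
  have hR0 : 0 < R := by linarith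
  have h1 := hwp β H σ t₀ R hβ hH hσ hσ1 ht hR hY c
  obtain ⟨s1, -⟩ := hdual (8 + k) β H σ t₀ R (by omega) hβ hH hσ hσ1 ht hR c
  obtain ⟨s2, t2⟩ := hdual 8 β H σ t₀ R le_rfl hβ hH hσ hσ1 ht hR c
  have hfin : (near β R t₀ (σ * H ^ ε) (H ^ (ε - 1)) c).Finite := near_fin hR0 _ _ _ _
  set S := near β R t₀ (σ * H ^ ε) (H ^ (ε - 1)) c with hS
  have hpow : H ^ (12 : ℕ) ≤ (H ^ ε) ^ k := by
    rw [← Real.rpow_natCast (H ^ ε), ← Real.rpow_mul hH0.le, ← Real.rpow_natCast]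
    apply Real.rpow_le_rpow_of_exponent_le hH
    rw [div_le_iff₀ hε] at hk
    push_cast
    linarith
  have hterm : ∀ m : ℤ × ℤ, ((1 + |Del β R t₀ c m| / σ) ^ (8 + k))⁻¹ * ((1 + H * |Psi β R c m|) ^ (8 + k))⁻¹ ≤
      S.indicator (fun _ => (1 : ℝ)) m + (H ^ (12 : ℕ))⁻¹ *
        (((1 + |Del β R t₀ c m| / σ) ^ 8)⁻¹ * ((1 + H * |Psi β R c m|) ^ 8)⁻¹) := by
    intro m
    have ha : 1 ≤ 1 + |Del β R t₀ c m| / σ := by
      have : 0 ≤ |Del β R t₀ c m| / σ := by positivity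
      linarith
    have hb : 1 ≤ 1 + H * |Psi β R c m| := by
      have : 0 ≤ H * |Psi β R c m| := by positivity
      linarith
    by_cases hm : m ∈ S
    · rw [Set.indicator_of_mem hm]
      have e1 : ((1 + |Del β R t₀ c m| / σ) ^ (8 + k))⁻¹ ≤ 1 := inv_le_one_of_one_le₀ (one_le_pow₀ ha)
      have e2 : ((1 + H * |Psi β R c m|) ^ (8 + k))⁻¹ ≤ 1 := inv_le_one_of_one_le₀ (one_le_pow₀ hb)
      have e3 : 0 ≤ ((1 + H * |Psi β R c m|) ^ (8 + k))⁻¹ := by positivity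
      have e4 : (0 : ℝ) ≤ (H ^ (12 : ℕ))⁻¹ *
        (((1 + |Del β R t₀ c m| / σ) ^ 8)⁻¹ * ((1 + H * |Psi β R c m|) ^ 8)⁻¹) := by positivity
      have e5 := mul_le_mul e1 e2 e3 zero_le_one
      linarith
    · rw [Set.indicator_of_notMem hm, zero_add]
      refine far71 (x := H ^ ε) ha hb (by positivity) (by positivity) ?_ hpow
      rw [hS] at hm
      unfold near at hm
      rw [Set.mem_ofPred_eq, not_and_or, not_le, not_le] at hm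
      rcases hm with hm | hm
      · left
        have : H ^ ε ≤ |Del β R t₀ c m| / σ := by
          rw [le_div_iff₀ hσ]
          linarith
        linarith
      · right
        have e1 : H * H ^ (ε - 1) = H ^ ε := by
          rw [mul_comm, ← Real.rpow_add_one hH0.ne']
          congr 1
          ring
        have e2 := mul_le_mul_of_nonneg_left hm.le hH0.le
        rw [e1] at e2
        linarith
  have hind : Summable (S.indicator (fun _ => (1 : ℝ))) :=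
    summable_of_hasFiniteSupport (hfin.subset Set.support_indicator_subset)
  have hindsum : ∑' m, S.indicator (fun _ => (1 : ℝ)) m = (S.ncard : ℝ) := by
    rw [tsum_eq_sum (s := hfin.toFinset) (fun m hm => by
      rw [Set.indicator_of_notMem]
      intro h
      exact hm (hfin.mem_toFinset.2 h))]
    rw [Finset.sum_congr rfl (fun m hm => Set.indicator_of_mem (hfin.mem_toFinset.1 hm) _),
      Finset.sum_const, nsmul_eq_mul, mul_one, Set.ncard_eq_toFinset_card S hfin]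
  have h2 : ∑' m : ℤ × ℤ, ((1 + |Del β R t₀ c m| / σ) ^ (8 + k))⁻¹ * ((1 + H * |Psi β R c m|) ^ (8 + k))⁻¹ ≤
      (S.ncard : ℝ) + (H ^ (12 : ℕ))⁻¹ * (D * R ^ 3) := by
    calc ∑' m : ℤ × ℤ, ((1 + |Del β R t₀ c m| / σ) ^ (8 + k))⁻¹ * ((1 + H * |Psi β R c m|) ^ (8 + k))⁻¹
        ≤ ∑' m : ℤ × ℤ, (S.indicator (fun _ => (1 : ℝ)) m + (H ^ (12 : ℕ))⁻¹ *
        (((1 + |Del β R t₀ c m| / σ) ^ 8)⁻¹ * ((1 + H * |Psi β R c m|) ^ 8)⁻¹)) :=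
          s1.tsum_le_tsum hterm (hind.add (s2.mul_left _))
      _ = (S.ncard : ℝ) + (H ^ (12 : ℕ))⁻¹ *
        ∑' m : ℤ × ℤ, (((1 + |Del β R t₀ c m| / σ) ^ 8)⁻¹ * ((1 + H * |Psi β R c m|) ^ 8)⁻¹) := by
          rw [hind.tsum_add (s2.mul_left _), hindsum, tsum_mul_left]
      _ ≤ (S.ncard : ℝ) + (H ^ (12 : ℕ))⁻¹ * (D * R ^ 3) := by
          gcongr
  have hsq : √(H ^ 3 / R) * (H ^ (12 : ℕ))⁻¹ * (D * R ^ 3) ≤ 64 * D := by
    have e1 : √(H ^ 3 / R) ≤ H ^ 3 := by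
      rw [Real.sqrt_le_left (by positivity)]
      rw [div_le_iff₀ hR0]
      have : 1 ≤ H ^ 3 := one_le_pow₀ hH
      nlinarith [mul_le_mul this hR zero_le_one (by positivity)]
    have e2 : R ^ 3 ≤ 64 * H ^ 9 := by
      calc R ^ 3 ≤ (4 * H ^ 3) ^ 3 := pow_le_pow_left₀ hR0.le hRH 3
        _ = 64 * H ^ 9 := by ring
    calc √(H ^ 3 / R) * (H ^ (12 : ℕ))⁻¹ * (D * R ^ 3) ≤ H ^ 3 * (H ^ (12 : ℕ))⁻¹ * (D * (64 * H ^ 9)) := by
          gcongr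
      _ = 64 * D := by
          field_simp
  have hn0 : (0 : ℝ) ≤ (S.ncard : ℝ) := Nat.cast_nonneg _
  calc ‖Ft β H σ t₀ (3 * (8 + k) + 3) R c‖ ≤ C₁ * √(H ^ 3 / R) *
        ∑' m : ℤ × ℤ, ((1 + |Del β R t₀ c m| / σ) ^ (8 + k))⁻¹ * ((1 + H * |Psi β R c m|) ^ (8 + k))⁻¹ := h1
    _ ≤ C₁ * √(H ^ 3 / R) * ((S.ncard : ℝ) + (H ^ (12 : ℕ))⁻¹ * (D * R ^ 3)) := by gcongr
    _ = C₁ * √(H ^ 3 / R) * (S.ncard : ℝ) + C₁ * (√(H ^ 3 / R) * (H ^ (12 : ℕ))⁻¹ * (D * R ^ 3)) := by ring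
    _ ≤ C₁ * √(H ^ 3 / R) * (S.ncard : ℝ) + C₁ * (64 * D) := by gcongr
    _ ≤ (C₁ + 64 * C₁ * D) * √(H ^ 3 / R) * (S.ncard : ℝ) + (C₁ + 64 * C₁ * D) := by
        have e1 : 0 ≤ 64 * C₁ * D * √(H ^ 3 / R) * (S.ncard : ℝ) := by positivity
        nlinarith

end Pool.Agent.Helper92.GC
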