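import Pool.Agent.Helper92.GC.R4
import Pool.Agent.Helper92.GC.W6

/-!
# GC-W7: a sharp arc is dominated by the smooth arc

PROOF. Let `S = (reg β H).filter (t₀ - σ/2 ≤ t < t₀ + σ/2)`, `a k = ee (R ph β k)`, `w k = wt β H σ t₀ p k`; `w k > 0` on `S`. For `k ∈ S`: `a k = b₁ k b₂ k (w k a k)` with
`b₁ k = (u/H)^(-p) exp(p u/H)`, `u/H ∈ [1/4, 8]`, and `b₂ k = exp(π((t - t₀)/σ)²)`, `|t - t₀| ≤ σ/2`. `mul_lip` (`cut_u`, `cut_t`): `b₁` and `b₂` are multipliers on `S` of norm at most a constant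
depending on `p` (`m(u) = (u/H)^(-p) e^(pu/H)` has Lipschitz constant `≤ C_p/H` on `[H/4, 8H]`; `e^(π((t-t₀)/σ)²)` has Lipschitz constant `≤ C/σ` on the interval of length `σ`). So
`m6 S a ≤ C m6 S (w a)`. For every finite `S' ⊇ S` contained in `{uu β k > 0}`: `S` is obtained from `S'` by four half planes: `H/4 ≤ uu β k`, `uu β k ≤ 8H`, `t₀ - σ/2 ≤ tt β k`, `tt β k < t₀ + σ/2`
provided these conditions imply `|k.2| ≤ 5 uu β k`, i.e. add the two half planes `k.2 ≤ 5 uu β k`, `-k.2 ≤ 5 uu β k` as well (and then the box condition of `reg` is automatic: `|k.2| ≤ 40 H`,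
`|k.1| ≤ 8H + 20H`, `|β| ≤ 1/2`). So `m6 S (w a) ≤ 14^36 m6 S' (w a)` (`mul_half`, `mul_half_lt`, `mul_comp`, `m6_filter`). Let `S' = (box N).filter (0 < uu β k)`, `N → ∞`: since `wt = 0` where `uu β k ≤ 0` and
by `Ft_summable`, `tp S' (w a) c → Ft β H σ t₀ p R c` uniformly in `c` (`‖ee (dt k c)‖ = 1`), so `m6 S' (w a) → ∫_{Tq} ‖Ft‖^6` (dominated convergence). `Ft_cont`: continuity in `c`: uniform limit.
-/

open MeasureTheory Real Set Filter Topology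

set_option autoImplicit false

namespace Pool.Agent.Helper92.GC

open Pool.Agent.Helper22.AE
open Pool.Agent.Helper22.AC (n6 IsWt mu)

private lemma lipc65 (g g' : ℝ → ℝ) {α γ : ℝ} (h12 : α ≤ γ)
    (hg : ∀ x ∈ Icc α γ, HasDerivAt g (g' x) x) (hg' : ContinuousOn g' (Icc α γ)) :
    ∃ K : ℝ, 0 ≤ K ∧ ∀ x ∈ Icc α γ, ∀ y ∈ Icc α γ, |g x - g y| ≤ K * |x - y| := by
  obtain ⟨K, hK⟩ := isCompact_Icc.exists_bound_of_continuousOn hg'
  refine ⟨K, (norm_nonneg _).trans (hK α (left_mem_Icc.2 h12)), fun x hx y hy => ?_⟩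
  exact (convex_Icc α γ).norm_image_sub_le_of_norm_hasDerivWithin_le
    (fun x hx => (hg x hx).hasDerivWithinAt) (fun x hx => hK x hx) hy hx

open Classical in
private lemma mulg65 {S : Finset (ℤ × ℤ)} {φ : ℤ × ℤ → ℝ} {A : ℝ}
    (hcut : ∀ z : ℝ, IsMul S (fun k => if z ≤ φ k then 1 else 0) A) (g : ℝ → ℝ) {α γ K x0 s : ℝ}
    (hs : 0 < s) (h12 : α ≤ γ) (hφ : ∀ k ∈ S, α ≤ (φ k - x0) / s ∧ (φ k - x0) / s ≤ γ)
    (hL : ∀ x ∈ Icc α γ, ∀ y ∈ Icc α γ, |g x - g y| ≤ K * |x - y|) :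
    IsMul S (fun k => ((g ((φ k - x0) / s) : ℝ) : ℂ)) (|g α| + 1 + A * (K * (γ - α))) := by
  have h1 := mul_lip (S := S) (φ := φ) (A := A) hcut
    (m := fun x => ((g ((x - x0) / s) : ℝ) : ℂ)) (x₁ := x0 + s * α) (x₂ := x0 + s * γ)
    (L := K / s) (B := |g α| + 1) (by
      have := mul_le_mul_of_nonneg_left h12 hs.le
      linarith) (fun k hk => by
      obtain ⟨h1, h2⟩ := hφ k hk
      rw [le_div_iff₀ hs] at h1
      rw [div_le_iff₀ hs] at h2
      constructor <;> linarith) (by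
      have e1 : (x0 + s * α - x0) / s = α := by
        field_simp
        ring
      simp only [e1]
      rw [Complex.norm_real, Real.norm_eq_abs]
      linarith) (by
      intro x hx y hy
      have e1 : ∀ v ∈ Icc (x0 + s * α) (x0 + s * γ), (v - x0) / s ∈ Icc α γ := by
        intro v hv
        rw [mem_Icc, le_div_iff₀ hs, div_le_iff₀ hs]
        constructor <;> linarith [hv.1, hv.2]
      have e2 := hL _ (e1 x hx) _ (e1 y hy)
      rw [← Complex.ofReal_sub, Complex.norm_real, Real.norm_eq_abs]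
      refine e2.trans (le_of_eq ?_)
      have e3 : (x - x0) / s - (y - x0) / s = (x - y) / s := by ring
      rw [e3, abs_div, abs_of_pos hs]
      ring)
  refine mul_weaken h1 (le_of_eq ?_)
  have e1 : x0 + s * γ - (x0 + s * α) = s * (γ - α) := by ring
  rw [e1]
  field_simp

private lemma wt_term65 {β H σ t₀ R : ℝ} {p : ℕ} (c : ℝ × ℝ) (k : ℤ × ℤ) :
    ‖(wt β H σ t₀ p k : ℂ) * ee (R * ph β k) * ee (dt k c)‖ =
      ‖(wt β H σ t₀ p k : ℂ) * ee (R * ph β k) * ee (dt k 0)‖ := by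
  rw [norm_mul, norm_mul, norm_mul, norm_mul, ee_norm, ee_norm, ee_norm]

theorem Ft_cont {β H σ t₀ R : ℝ} {p : ℕ} (hH : 0 < H) (hσ : 0 < σ) (hp : 1 ≤ p) : Continuous (Ft β H σ t₀ p R) := by
  unfold Ft
  apply continuous_tsum (u := fun k => ‖(wt β H σ t₀ p k : ℂ) * ee (R * ph β k) * ee (dt k 0)‖)
  · intro k
    apply continuous_const.mul
    apply ee_cont.comp
    unfold dt
    fun_prop
  · exact Ft_summable hH hσ hp 0
  · intro k c
    exact le_of_eq (wt_term65 c k)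

private lemma m6_filter65 (S : Finset (ℤ × ℤ)) (p : ℤ × ℤ → Prop) [DecidablePred p] (a : ℤ × ℤ → ℂ) :
    m6 (S.filter p) a = m6 S (fun k => (if p k then 1 else 0) * a k) := by
  have h1 : tp (S.filter p) a = tp S (fun k => (if p k then 1 else 0) * a k) := by
    funext c
    unfold tp
    rw [Finset.sum_filter]
    refine Finset.sum_congr rfl fun k _ => ?_
    by_cases hp : p k
    · simp only [if_pos hp, one_mul]
    · simp only [if_neg hp, zero_mul]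
  unfold m6
  rw [h1]

private lemma ite_mul65 (a b : Prop) [Decidable a] [Decidable b] :
    (if a then (1 : ℂ) else 0) * (if b then 1 else 0) = if a ∧ b then 1 else 0 := by
  by_cases ha : a <;> by_cases hb : b <;> simp [ha, hb]

open Classical in
private lemma limit65 {β H σ t₀ R : ℝ} {p : ℕ} (hH : 0 < H) (hσ : 0 < σ) (hp : 1 ≤ p) :
    Tendsto (fun N : ℕ => m6 ((box N).filter (fun k => 0 < uu β k))
      (fun k => (wt β H σ t₀ p k : ℂ) * ee (R * ph β k))) atTop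
      (𝓝 (∫ c in Tq, ‖Ft β H σ t₀ p R c‖ ^ 6)) := by
  have hsum : ∀ (N : ℕ) (c : ℝ × ℝ), tp ((box N).filter (fun k => 0 < uu β k))
      (fun k => (wt β H σ t₀ p k : ℂ) * ee (R * ph β k)) c =
      ∑ k ∈ box N, (wt β H σ t₀ p k : ℂ) * ee (R * ph β k) * ee (dt k c) := by
    intro N c
    unfold tp
    apply Finset.sum_subset (Finset.filter_subset _ _)
    intro k hk hk'
    have h1 : ¬ 0 < uu β k := fun h => hk' (Finset.mem_filter.2 ⟨hk, h⟩)
    have h2 : wt β H σ t₀ p k = 0 := by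
      unfold wt
      rw [if_neg h1]
    simp [h2]
  have hT : IsCompact Tq := isCompact_Icc.prod isCompact_Icc
  have hbox : Tendsto box atTop atTop := by
    apply tendsto_atTop_finset_of_monotone
    · intro a b hab k hk
      unfold box at hk ⊢
      rw [Finset.mem_product, Finset.mem_Icc, Finset.mem_Icc] at hk ⊢
      omega
    · intro k
      refine ⟨max k.1.natAbs k.2.natAbs, ?_⟩
      unfold box
      rw [Finset.mem_product, Finset.mem_Icc, Finset.mem_Icc]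
      omega
  unfold m6
  apply tendsto_integral_of_dominated_convergence
    (fun _ => (∑' k, ‖(wt β H σ t₀ p k : ℂ) * ee (R * ph β k) * ee (dt k 0)‖) ^ 6)
  · intro N
    exact ((tp_cont _ _).norm.pow 6).aestronglyMeasurable
  · exact continuous_const.continuousOn.integrableOn_compact hT
  · intro N
    refine Eventually.of_forall fun c => ?_
    rw [Real.norm_eq_abs, abs_of_nonneg (by positivity)]
    apply pow_le_pow_left₀ (norm_nonneg _)
    rw [hsum]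
    refine (norm_sum_le _ _).trans ?_
    rw [Finset.sum_congr rfl fun k _ => wt_term65 c k]
    exact (Ft_summable hH hσ hp 0).sum_le_tsum _ fun _ _ => norm_nonneg _
  · refine Eventually.of_forall fun c => ?_
    apply Tendsto.pow
    apply Tendsto.norm
    simp only [hsum]
    have h1 : HasSum (fun k : ℤ × ℤ => (wt β H σ t₀ p k : ℂ) * ee (R * ph β k) * ee (dt k c))
        (Ft β H σ t₀ p R c) := (Ft_summable hH hσ hp c).of_norm.hasSum
    exact h1.comp hbox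

open Classical in
private lemma half65 {β H σ t₀ R : ℝ} {p : ℕ} (hβ : |β| ≤ 1 / 2) (hH : 1 ≤ H) (hσ : 0 < σ) (hp : 1 ≤ p) :
    m6 ((reg β H).filter (fun k => t₀ - σ / 2 ≤ tt β k ∧ tt β k < t₀ + σ / 2))
      (fun k => (wt β H σ t₀ p k : ℂ) * ee (R * ph β k)) ≤
      (14 ^ 6) ^ 6 * ∫ c in Tq, ‖Ft β H σ t₀ p R c‖ ^ 6 := by
  obtain ⟨w, hw⟩ : ∃ w : ℤ × ℤ → ℂ, w = fun k => (wt β H σ t₀ p k : ℂ) * ee (R * ph β k) := ⟨_, rfl⟩
  rw [← hw]
  have hlim := (limit65 (β := β) (H := H) (σ := σ) (t₀ := t₀) (R := R) (p := p) (by linarith) hσ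
    hp).const_mul (((14 : ℝ) ^ 6) ^ 6)
  refine ge_of_tendsto hlim ?_
  filter_upwards [eventually_ge_atTop ⌈40 * H⌉₊] with N hN
  rw [← hw]
  obtain ⟨T, hT⟩ : ∃ T, T = (box N).filter (fun k => 0 < uu β k) := ⟨_, rfl⟩
  rw [← hT]
  have hTpos : ∀ k ∈ T, 0 < uu β k := by
    intro k hk
    rw [hT, Finset.mem_filter] at hk
    exact hk.2
  have hset : (reg β H).filter (fun k => t₀ - σ / 2 ≤ tt β k ∧ tt β k < t₀ + σ / 2) =
      T.filter (fun k => H / 4 ≤ uu β k ∧ uu β k ≤ 8 * H ∧ t₀ - σ / 2 ≤ tt β k ∧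
        tt β k < t₀ + σ / 2 ∧ (k.2 : ℝ) ≤ 5 * uu β k ∧ -(k.2 : ℝ) ≤ 5 * uu β k) := by
    ext k
    rw [hT]
    unfold reg
    rw [Finset.mem_filter, Finset.mem_filter, Finset.mem_filter, Finset.mem_filter]
    constructor
    · rintro ⟨⟨h1, h2, h3, h4⟩, h5, h6⟩
      refine ⟨⟨?_, by linarith⟩, h2, h3, h5, h6, (abs_le.1 h4).2, by linarith [(abs_le.1 h4).1]⟩
      unfold box at h1 ⊢
      rw [Finset.mem_product, Finset.mem_Icc, Finset.mem_Icc] at h1 ⊢
      omega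
    · rintro ⟨⟨h0, h1⟩, h2, h3, h5, h6, h7, h8⟩
      have h9 : |(k.2 : ℝ)| ≤ 5 * uu β k := abs_le.2 ⟨by linarith, h7⟩
      refine ⟨⟨?_, h2, h3, h9⟩, h5, h6⟩
      have h10 : |(k.2 : ℝ)| ≤ 40 * H := by linarith
      have h11 : |(k.1 : ℝ)| ≤ 40 * H := by
        have e1 : (k.1 : ℝ) = uu β k - β * k.2 := by
          unfold uu
          ring
        have e2 : |β * (k.2 : ℝ)| ≤ 1 / 2 * (40 * H) := by
          rw [abs_mul]
          exact mul_le_mul hβ h10 (abs_nonneg _) (by norm_num)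
        rw [e1]
        have e3 := abs_sub (uu β k) (β * (k.2 : ℝ))
        rw [abs_of_pos h1] at e3
        linarith
      have h12 : (⌈40 * H⌉₊ : ℝ) ≥ 40 * H := Nat.le_ceil _
      unfold box
      rw [Finset.mem_product, Finset.mem_Icc, Finset.mem_Icc]
      have h13 : ∀ j : ℤ, |(j : ℝ)| ≤ 40 * H → -((⌈40 * H⌉₊ : ℕ) : ℤ) ≤ j ∧ j ≤ (⌈40 * H⌉₊ : ℕ) := by
        intro j hj
        rw [← abs_le]
        have : ((|j| : ℤ) : ℝ) ≤ (((⌈40 * H⌉₊ : ℕ) : ℤ) : ℝ) := by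
          push_cast
          linarith
        exact_mod_cast this
      exact ⟨h13 _ h11, h13 _ h10⟩
  rw [hset, m6_filter65]
  have hmul : IsMul T (fun k => if H / 4 ≤ uu β k ∧ uu β k ≤ 8 * H ∧ t₀ - σ / 2 ≤ tt β k ∧
        tt β k < t₀ + σ / 2 ∧ (k.2 : ℝ) ≤ 5 * uu β k ∧ -(k.2 : ℝ) ≤ 5 * uu β k then 1 else 0)
        (14 ^ 6) := by
    have m1 := cut_u T β (H / 4)
    have m2 : IsMul T (fun k => if uu β k ≤ 8 * H then 1 else 0) 14 := by
      refine mul_congr (fun k _ => ?_) (mul_half T (-1) (-β) (-(8 * H)))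
      have e1 : -(8 * H) ≤ -1 * (k.1 : ℝ) + -β * (k.2 : ℝ) ↔ uu β k ≤ 8 * H := by
        unfold uu
        constructor <;> intro h <;> linarith
      simp only [e1]
    have m3 := cut_t hTpos (t₀ - σ / 2)
    have m4 : IsMul T (fun k => if tt β k < t₀ + σ / 2 then 1 else 0) 14 := by
      refine mul_congr (fun k hk => ?_) (mul_half_lt T (t₀ + σ / 2) ((t₀ + σ / 2) * β - 1) 0)
      have e1 : 0 < (t₀ + σ / 2) * (k.1 : ℝ) + ((t₀ + σ / 2) * β - 1) * (k.2 : ℝ) ↔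
          tt β k < t₀ + σ / 2 := by
        unfold tt
        rw [div_lt_iff₀ (hTpos k hk)]
        unfold uu
        constructor <;> intro h <;> linarith
      simp only [e1]
    have m5 : IsMul T (fun k => if (k.2 : ℝ) ≤ 5 * uu β k then 1 else 0) 14 := by
      refine mul_congr (fun k _ => ?_) (mul_half T 5 (5 * β - 1) 0)
      have e1 : 0 ≤ 5 * (k.1 : ℝ) + (5 * β - 1) * (k.2 : ℝ) ↔ (k.2 : ℝ) ≤ 5 * uu β k := by
        unfold uu
        constructor <;> intro h <;> linarith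
      simp only [e1]
    have m6' : IsMul T (fun k => if -(k.2 : ℝ) ≤ 5 * uu β k then 1 else 0) 14 := by
      refine mul_congr (fun k _ => ?_) (mul_half T 5 (5 * β + 1) 0)
      have e1 : 0 ≤ 5 * (k.1 : ℝ) + (5 * β + 1) * (k.2 : ℝ) ↔ -(k.2 : ℝ) ≤ 5 * uu β k := by
        unfold uu
        constructor <;> intro h <;> linarith
      simp only [e1]
    refine mul_weaken (mul_congr (fun k _ => ?_)
      (mul_comp m1 (mul_comp m2 (mul_comp m3 (mul_comp m4 (mul_comp m5 m6')))))) (by norm_num)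
    simp only [ite_mul65]
  exact hmul.2 w

open Classical in
theorem arc_le_Ft {p : ℕ} (hp : 1 ≤ p) : ∃ C : ℝ, 0 < C ∧ ∀ β H σ t₀ R : ℝ, |β| ≤ 1 / 2 → 1 ≤ H → 0 < σ → σ ≤ 1 → |t₀| ≤ 6 →
    m6 ((reg β H).filter (fun k => t₀ - σ / 2 ≤ tt β k ∧ tt β k < t₀ + σ / 2)) (fun k => ee (R * ph β k)) ≤
      C * ∫ c in Tq, ‖Ft β H σ t₀ p R c‖ ^ 6 := by
  obtain ⟨g₁, hg₁⟩ : ∃ g : ℝ → ℝ, g = fun v => (v ^ p)⁻¹ * exp (p * v) := ⟨_, rfl⟩
  obtain ⟨g₂, hg₂⟩ : ∃ g : ℝ → ℝ, g = fun v => exp (π * v ^ 2) := ⟨_, rfl⟩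
  obtain ⟨K₁, hK₁, hL₁⟩ := lipc65 g₁ (fun v => (-(p * v ^ (p - 1)) / (v ^ p) ^ 2) * exp (p * v) +
    (v ^ p)⁻¹ * (exp (p * v) * p)) (α := 1 / 4) (γ := 8) (by norm_num) (by
      intro v hv
      have hv0 : 0 < v := by linarith [hv.1]
      rw [hg₁]
      have h1 : HasDerivAt (fun v : ℝ => v ^ p) (p * v ^ (p - 1)) v := hasDerivAt_pow p v
      have h2 := h1.inv (by positivity)
      have h3 : HasDerivAt (fun v : ℝ => (p : ℝ) * v) p v := by
        have := (hasDerivAt_id v).const_mul (p : ℝ)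
        rw [mul_one] at this
        exact this
      exact h2.mul h3.exp) (by
      have h0 : ∀ v ∈ Icc (1 / 4 : ℝ) 8, v ^ p ≠ 0 := by
        intro v hv
        have hv0 : 0 < v := by linarith [hv.1]
        positivity
      apply ContinuousOn.add
      · apply ContinuousOn.mul
        · apply ContinuousOn.div
          · fun_prop
          · fun_prop
          · intro v hv
            exact pow_ne_zero 2 (h0 v hv)
        · fun_prop
      · apply ContinuousOn.mul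
        · apply ContinuousOn.inv₀
          · fun_prop
          · exact h0
        · fun_prop)
  obtain ⟨K₂, hK₂, hL₂⟩ := lipc65 g₂ (fun v => exp (π * v ^ 2) * (π * (2 * v))) (α := -(1 / 2))
    (γ := 1 / 2) (by norm_num) (by
      intro v _
      rw [hg₂]
      have h1 : HasDerivAt (fun v : ℝ => v ^ 2) (2 * v) v := by
        have := hasDerivAt_pow 2 v
        simpa using this
      exact (h1.const_mul π).exp) (by fun_prop)
  refine ⟨(|g₁ (1 / 4)| + 1 + 14 * (K₁ * (8 - 1 / 4))) ^ 6 *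
    (|g₂ (-(1 / 2))| + 1 + 14 * (K₂ * (1 / 2 - -(1 / 2)))) ^ 6 * (14 ^ 6) ^ 6, by
      have e1 : 0 ≤ 14 * (K₁ * (8 - 1 / 4)) := by
        apply mul_nonneg (by norm_num) (mul_nonneg hK₁ (by norm_num))
      have e2 : 0 ≤ 14 * (K₂ * (1 / 2 - -(1 / 2))) := by
        apply mul_nonneg (by norm_num) (mul_nonneg hK₂ (by norm_num))
      have e3 := abs_nonneg (g₁ (1 / 4))
      have e4 := abs_nonneg (g₂ (-(1 / 2)))
      positivity, ?_⟩
  intro β H σ t₀ R hβ hH hσ hσ1 ht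
  have hH0 : 0 < H := by linarith
  obtain ⟨S, hS⟩ : ∃ S, S = (reg β H).filter (fun k => t₀ - σ / 2 ≤ tt β k ∧ tt β k < t₀ + σ / 2) :=
    ⟨_, rfl⟩
  have hhalf := half65 (β := β) (H := H) (σ := σ) (t₀ := t₀) (R := R) (p := p) hβ hH hσ hp
  rw [← hS] at hhalf ⊢
  have hSm : ∀ k ∈ S, (H / 4 ≤ uu β k ∧ uu β k ≤ 8 * H) ∧ t₀ - σ / 2 ≤ tt β k ∧ tt β k < t₀ + σ / 2 := by
    intro k hk
    rw [hS, Finset.mem_filter] at hk
    unfold reg at hk
    rw [Finset.mem_filter] at hk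
    exact ⟨⟨hk.1.2.1, hk.1.2.2.1⟩, hk.2⟩
  have hSpos : ∀ k ∈ S, 0 < uu β k := fun k hk => by linarith [(hSm k hk).1.1]
  have b1 := mulg65 (S := S) (φ := uu β) (A := 14) (cut_u S β) g₁ (α := 1 / 4) (γ := 8) (K := K₁)
    (x0 := 0) (s := H) hH0 (by norm_num) (fun k hk => by
      rw [sub_zero, le_div_iff₀ hH0, div_le_iff₀ hH0]
      have := (hSm k hk).1
      constructor <;> linarith [this.1, this.2]) hL₁
  have b2 := mulg65 (S := S) (φ := tt β) (A := 14) (cut_t hSpos) g₂ (α := -(1 / 2)) (γ := 1 / 2)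
    (K := K₂) (x0 := t₀) (s := σ) hσ (by norm_num) (fun k hk => by
      rw [le_div_iff₀ hσ, div_le_iff₀ hσ]
      have := (hSm k hk).2
      constructor <;> linarith [this.1, this.2]) hL₂
  obtain ⟨C₁, hC₁⟩ : ∃ C, C = |g₁ (1 / 4)| + 1 + 14 * (K₁ * (8 - 1 / 4)) := ⟨_, rfl⟩
  obtain ⟨C₂, hC₂⟩ : ∃ C, C = |g₂ (-(1 / 2))| + 1 + 14 * (K₂ * (1 / 2 - -(1 / 2))) := ⟨_, rfl⟩
  rw [← hC₁] at b1 ⊢
  rw [← hC₂] at b2 ⊢
  have e1 : m6 S (fun k => ee (R * ph β k)) = m6 S (fun k => ((g₁ ((uu β k - 0) / H) : ℝ) : ℂ) *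
      (((g₂ ((tt β k - t₀) / σ) : ℝ) : ℂ) * ((wt β H σ t₀ p k : ℂ) * ee (R * ph β k)))) := by
    apply m6_congr
    intro k hk
    have hu : 0 < uu β k / H := div_pos (hSpos k hk) hH0
    have h1 : g₁ ((uu β k - 0) / H) * (g₂ ((tt β k - t₀) / σ) * wt β H σ t₀ p k) = 1 := by
      unfold wt
      rw [if_pos (hSpos k hk), hg₁, hg₂, sub_zero]
      simp only
      have h2 : exp (p * (uu β k / H)) * exp (-(p * (uu β k / H))) = 1 := by
        rw [← Real.exp_add, add_neg_cancel, Real.exp_zero]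
      have h3 : exp (π * ((tt β k - t₀) / σ) ^ 2) * exp (-(π * ((tt β k - t₀) / σ) ^ 2)) = 1 := by
        rw [← Real.exp_add, add_neg_cancel, Real.exp_zero]
      have h4 : ((uu β k / H) ^ p)⁻¹ * (uu β k / H) ^ p = 1 := inv_mul_cancel₀ (by positivity)
      calc ((uu β k / H) ^ p)⁻¹ * exp (p * (uu β k / H)) * (exp (π * ((tt β k - t₀) / σ) ^ 2) *
            ((uu β k / H) ^ p * exp (-(p * (uu β k / H))) * exp (-(π * ((tt β k - t₀) / σ) ^ 2)))) =
          (((uu β k / H) ^ p)⁻¹ * (uu β k / H) ^ p) *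
          (exp (p * (uu β k / H)) * exp (-(p * (uu β k / H)))) *
          (exp (π * ((tt β k - t₀) / σ) ^ 2) * exp (-(π * ((tt β k - t₀) / σ) ^ 2))) := by ring
        _ = 1 := by rw [h2, h3, h4]; norm_num
    have h2 : ((g₁ ((uu β k - 0) / H) : ℝ) : ℂ) * (((g₂ ((tt β k - t₀) / σ) : ℝ) : ℂ) *
        (wt β H σ t₀ p k : ℂ)) = 1 := by exact_mod_cast h1
    calc ee (R * ph β k) = 1 * ee (R * ph β k) := by rw [one_mul]
      _ = _ := by rw [← h2]; ring
  rw [e1]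
  have h1 := b1.2 (fun k => ((g₂ ((tt β k - t₀) / σ) : ℝ) : ℂ) *
    ((wt β H σ t₀ p k : ℂ) * ee (R * ph β k)))
  have h2 := b2.2 (fun k => (wt β H σ t₀ p k : ℂ) * ee (R * ph β k))
  have hC1 : 0 ≤ C₁ ^ 6 := by positivity
  have hC2 : 0 ≤ C₂ ^ 6 := by positivity
  calc m6 S (fun k => ((g₁ ((uu β k - 0) / H) : ℝ) : ℂ) *
      (((g₂ ((tt β k - t₀) / σ) : ℝ) : ℂ) * ((wt β H σ t₀ p k : ℂ) * ee (R * ph β k)))) ≤
      C₁ ^ 6 * m6 S (fun k => ((g₂ ((tt β k - t₀) / σ) : ℝ) : ℂ) *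
        ((wt β H σ t₀ p k : ℂ) * ee (R * ph β k))) := h1
    _ ≤ C₁ ^ 6 * (C₂ ^ 6 * m6 S (fun k => (wt β H σ t₀ p k : ℂ) * ee (R * ph β k))) :=
        mul_le_mul_of_nonneg_left h2 hC1
    _ ≤ C₁ ^ 6 * (C₂ ^ 6 * ((14 ^ 6) ^ 6 * ∫ c in Tq, ‖Ft β H σ t₀ p R c‖ ^ 6)) :=
        mul_le_mul_of_nonneg_left (mul_le_mul_of_nonneg_left hhalf hC2) hC1
    _ = _ := by ring

end Pool.Agent.Helper92.GC
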