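import Pool.Agent.Helper92.GC.T1
import Pool.Agent.Helper92.GC.W7
import Pool.Agent.Helper92.GC.N18
import Pool.Agent.Helper92.GC.L1
import Pool.Agent.Helper92.GC.Q1

/-!
# GC-Q2: the arc sum is controlled by the lattice points near the arc

PROOF of `reg_card`: `reg β H ⊆ box ⌈40 H⌉₊`, `card ≤ (2(40H + 1) + 1)² ≤ (83 H)²`. `m6_card`: `‖tp‖ ≤ card` (`tp_norm_le`), `volume Tq = 1`.
PROOF of `arc_n6`. Put `σ = 12/N`, `t₀ = -6 + 12 (j + 1/2)/N`, `s = σ H^ε`, `d = H^(ε-1)`, `X = ρ H^(-ε)`, `S = arc ..`, `K = H³/ρ ≥ 1`. By `arc_mem` `S` is the set of `arc_le_Ft`. `n6_slice`: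
`n6³ = ∫ R, v R * m6 S (ee (R ph))`. (1) `R ∈ [ρ/2, 4ρ]`: `arc_le_Ft` and `wp_near` (with the `p` of `wp_near`; `1 ≤ R ≤ 4H³`, `2RHσ² ≥ ρHσ² ≥ 1`, `σ ≤ 1`):
`m6 ≤ C ∫_{c ∈ Tq} (C √(H³/R) n + C)^6 ≤ C' (K³ ∫⁻ n^6 + 1)`, `n = ncard near`, (`H³/R ≤ 2K`; work with `ENNReal.ofReal` because of measurability: the upper integral of `(A n + B)^6 ≤ 32 (A^6 n^6 + B^6)`).
`v R ≤ Cd 0/X` and `∫ v = 1`: this part is at most `C'' (K³ I6/X + 1)`. (2) other `R`: `|R - R₁| ≥ ρ/2`, so `1 ≤ (2 H^(-ε) |R - R₁|/X)^n`; `m6 ≤ (card)^6 ≤ (10^4 H²)^6`; with a natural number `n ≥ 12/ε` and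
`dw_tail`: at most `(10^4 H²)^6 2^n H^(-ε n) π (Cd n + Cd (n+2)) ≤ C`. Total `n6³ ≤ C (K³ H^ε/ρ I6 + 1)`; take the cube root (`(x + y)^(1/3) ≤ x^(1/3) + y^(1/3)`).
-/

open MeasureTheory Real Set Filter Topology

set_option autoImplicit false

namespace Pool.Agent.Helper92.GC

open Pool.Agent.Helper22.AE
open Pool.Agent.Helper22.AC (n6 IsWt mu)

private theorem card_box78 (N : ℕ) : (box N).card = (2 * N + 1) ^ 2 := by
  unfold box
  rw [Finset.card_product, Int.card_Icc]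
  have h : ((N : ℤ) + 1 - -(N : ℤ)).toNat = 2 * N + 1 := by omega
  rw [h]
  ring

theorem reg_card {β H : ℝ} (hH : 1 ≤ H) : ((reg β H).card : ℝ) ≤ 10 ^ 4 * H ^ 2 := by
  classical
  have h1 : (reg β H).card ≤ (2 * ⌈40 * H⌉₊ + 1) ^ 2 := by
    rw [← card_box78]
    unfold reg
    exact Finset.card_filter_le _ _
  have h2 : ((reg β H).card : ℝ) ≤ (2 * (⌈40 * H⌉₊ : ℝ) + 1) ^ 2 := by exact_mod_cast h1
  have h3 : (⌈40 * H⌉₊ : ℝ) ≤ 40 * H + 1 := (Nat.ceil_lt_add_one (by positivity)).le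
  have h4 : (2 * (⌈40 * H⌉₊ : ℝ) + 1) ^ 2 ≤ (83 * H) ^ 2 :=
    pow_le_pow_left₀ (by positivity) (by linarith) 2
  linarith [h2, h4]

private theorem tq78 : IsProbabilityMeasure ((volume : Measure (ℝ × ℝ)).restrict Tq) := by
  constructor
  unfold Tq
  rw [Measure.restrict_apply_univ, Measure.volume_eq_prod, Measure.prod_prod, Real.volume_Icc,
    sub_zero, ENNReal.ofReal_one, mul_one]

theorem m6_card (S : Finset (ℤ × ℤ)) {a : ℤ × ℤ → ℂ} (ha : ∀ k, ‖a k‖ ≤ 1) : m6 S a ≤ (S.card : ℝ) ^ 6 := by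
  have := tq78
  have h1 : ∀ c, ‖tp S a c‖ ≤ (S.card : ℝ) := fun c => by
    refine (tp_norm_le S a c).trans ?_
    refine (Finset.sum_le_sum fun k _ => ha k).trans ?_
    rw [Finset.sum_const, nsmul_eq_mul, mul_one]
  unfold m6
  refine (integral_mono_of_nonneg (Eventually.of_forall fun c => by positivity)
    (integrable_const ((S.card : ℝ) ^ 6))
    (Eventually.of_forall fun c => pow_le_pow_left₀ (norm_nonneg _) (h1 c) 6)).trans ?_
  rw [integral_const, probReal_univ, one_smul]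

private theorem pow6_78 {x y : ℝ} (hx : 0 ≤ x) (hy : 0 ≤ y) : (x + y) ^ 6 ≤ 32 * (x ^ 6 + y ^ 6) := by
  have := add_pow_le hx hy 6
  norm_num at this
  exact this

private theorem lin78 {α : Type*} [MeasurableSpace α] (μ : Measure α) (f : α → ENNReal) (A B : ENNReal) (hA : A ≠ ⊤) :
    ∫⁻ x, (A * f x + B) ∂μ = A * ∫⁻ x, f x ∂μ + B * μ univ := by
  rw [lintegral_add_right _ measurable_const, lintegral_const_mul' _ _ hA, lintegral_const]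

private theorem near_part78 {β H σ t₀ R ρ s d C₁ C₂ : ℝ} {p : ℕ} (hp : 1 ≤ p) (hH : 0 < H) (hσ : 0 < σ) (hρ : 0 < ρ)
    (hR : ρ / 2 ≤ R) (hC₁ : 0 < C₁) (hC₂ : 0 < C₂)
    (hw : ∀ c : ℝ × ℝ, ‖Ft β H σ t₀ p R c‖ ≤ C₂ * √(H ^ 3 / R) * ((near β R t₀ s d c).ncard : ℝ) + C₂)
    {m : ℝ} (hm : m ≤ C₁ * ∫ c in Tq, ‖Ft β H σ t₀ p R c‖ ^ 6) :
    ENNReal.ofReal m ≤ ENNReal.ofReal (C₁ * (256 * C₂ ^ 6 * (H ^ 3 / ρ) ^ 3)) *
      (∫⁻ c in Tq, ((near β R t₀ s d c).ncard : ENNReal) ^ 6) + ENNReal.ofReal (C₁ * (32 * C₂ ^ 6)) := by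
  have hP := tq78
  have hR0 : 0 < R := by linarith
  have hK : H ^ 3 / R ≤ 2 * (H ^ 3 / ρ) := by
    rw [div_le_iff₀ hR0]
    have h1 : 2 * (H ^ 3 / ρ) * (ρ / 2) ≤ 2 * (H ^ 3 / ρ) * R := mul_le_mul_of_nonneg_left hR (by positivity)
    have h2 : 2 * (H ^ 3 / ρ) * (ρ / 2) = H ^ 3 := by
      field_simp
    linarith
  have h1 : ∀ c : ℝ × ℝ, ENNReal.ofReal (‖Ft β H σ t₀ p R c‖ ^ 6) ≤
      ENNReal.ofReal (256 * C₂ ^ 6 * (H ^ 3 / ρ) ^ 3) * ((near β R t₀ s d c).ncard : ENNReal) ^ 6 +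
        ENNReal.ofReal (32 * C₂ ^ 6) := by
    intro c
    have e1 : ((near β R t₀ s d c).ncard : ENNReal) ^ 6 =
        ENNReal.ofReal (((near β R t₀ s d c).ncard : ℝ) ^ 6) := by
      rw [ENNReal.ofReal_pow (Nat.cast_nonneg _), ENNReal.ofReal_natCast]
    rw [e1, ← ENNReal.ofReal_mul (by positivity), ← ENNReal.ofReal_add (by positivity) (by positivity)]
    refine ENNReal.ofReal_le_ofReal ?_
    refine (pow_le_pow_left₀ (norm_nonneg _) (hw c) 6).trans ?_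
    refine (pow6_78 (by positivity) hC₂.le).trans ?_
    have e2 : (C₂ * √(H ^ 3 / R) * ((near β R t₀ s d c).ncard : ℝ)) ^ 6 =
        C₂ ^ 6 * (H ^ 3 / R) ^ 3 * ((near β R t₀ s d c).ncard : ℝ) ^ 6 := by
      have e3 : √(H ^ 3 / R) ^ 6 = (H ^ 3 / R) ^ 3 := by
        rw [show (6 : ℕ) = 2 * 3 by norm_num, pow_mul, Real.sq_sqrt (by positivity)]
      rw [mul_pow, mul_pow, e3]
    have e4 : (H ^ 3 / R) ^ 3 ≤ 8 * (H ^ 3 / ρ) ^ 3 := by
      refine (pow_le_pow_left₀ (by positivity) hK 3).trans (le_of_eq ?_)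
      ring
    rw [e2]
    have e5 := mul_le_mul_of_nonneg_left e4
      (by positivity : 0 ≤ 32 * C₂ ^ 6 * ((near β R t₀ s d c).ncard : ℝ) ^ 6)
    linarith
  have hfc : Continuous fun c : ℝ × ℝ => ‖Ft β H σ t₀ p R c‖ ^ 6 := (Ft_cont hH hσ hp).norm.pow 6
  have hfi : Integrable (fun c : ℝ × ℝ => ‖Ft β H σ t₀ p R c‖ ^ 6) (volume.restrict Tq) := by
    refine hfc.continuousOn.integrableOn_compact ?_
    exact isCompact_Icc.prod isCompact_Icc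
  have h2 : ENNReal.ofReal (∫ c in Tq, ‖Ft β H σ t₀ p R c‖ ^ 6) ≤
      ENNReal.ofReal (256 * C₂ ^ 6 * (H ^ 3 / ρ) ^ 3) *
      (∫⁻ c in Tq, ((near β R t₀ s d c).ncard : ENNReal) ^ 6) + ENNReal.ofReal (32 * C₂ ^ 6) := by
    rw [ofReal_integral_eq_lintegral_ofReal hfi (Eventually.of_forall fun c => by positivity)]
    refine (lintegral_mono h1).trans (le_of_eq ?_)
    rw [lin78 _ _ _ _ ENNReal.ofReal_ne_top, measure_univ, mul_one]
  refine (ENNReal.ofReal_le_ofReal hm).trans ?_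
  rw [ENNReal.ofReal_mul hC₁.le]
  refine (mul_le_mul_right h2 _).trans (le_of_eq ?_)
  rw [_root_.mul_add, ← mul_assoc, ← ENNReal.ofReal_mul hC₁.le, ← ENNReal.ofReal_mul hC₁.le]

private theorem split78 {X R₁ c₀ : ℝ} {v : ℝ → ℝ} {Cd : ℕ → ℝ} (hX : 0 < X) (hv : IsDw X R₁ v c₀ Cd) {m : ℝ → ℝ}
    (hm : ∀ R, 0 ≤ m R) (hint : Integrable fun R => v R * m R) {I : Set ℝ} (hI : MeasurableSet I) {L : ℝ → ENNReal}
    {A B D κ : ℝ} (hA : 0 ≤ A) (hB : 0 ≤ B) (hD : 0 ≤ D) (hκ : 0 ≤ κ)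
    (hnear : ∀ R ∈ I, ENNReal.ofReal (m R) ≤ ENNReal.ofReal A * L R + ENNReal.ofReal B)
    (hfar : ∀ R, m R ≤ D) (n : ℕ) (hdist : ∀ R, R ∉ I → 1 ≤ κ * (|R - R₁| / X))
    (hL : ∫⁻ R in I, L R ≠ ⊤) :
    ∫ R, v R * m R ≤ Cd 0 / X * A * (∫⁻ R in I, L R).toReal + B + D * κ ^ n * (π * (Cd n + Cd (n + 2))) := by
  have hv0 := hv.wt.nonneg
  have hvi : Integrable v := by
    by_contra hcon
    have h2 := hv.wt.int_one
    rw [integral_undef hcon] at h2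
    exact zero_ne_one h2
  have hvc : ∀ R, v R ≤ Cd 0 / X := fun R => by
    have := hv.dec 0 R
    rwa [pow_zero, mul_one] at this
  have hC0 : 0 ≤ Cd 0 / X := (hv0 0).trans (hvc 0)
  have hlv : ∫⁻ R, ENNReal.ofReal (v R) = 1 := by
    rw [← ofReal_integral_eq_lintegral_ofReal hvi (Eventually.of_forall hv0), hv.wt.int_one, ENNReal.ofReal_one]
  have hp1 : ∫ R in I, v R * m R ≤ Cd 0 / X * A * (∫⁻ R in I, L R).toReal + B := by
    have h1 : ENNReal.ofReal (∫ R in I, v R * m R) ≤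
        ENNReal.ofReal (Cd 0 / X * A * (∫⁻ R in I, L R).toReal + B) := by
      rw [ofReal_integral_eq_lintegral_ofReal hint.integrableOn
        (Eventually.of_forall fun R => mul_nonneg (hv0 R) (hm R))]
      have h2 : ∫⁻ R in I, ENNReal.ofReal (v R * m R) ≤
          ∫⁻ R in I, (ENNReal.ofReal (Cd 0 / X) * ENNReal.ofReal A * L R + ENNReal.ofReal B * ENNReal.ofReal (v R)) := by
        refine setLIntegral_mono' hI fun R hR => ?_
        rw [ENNReal.ofReal_mul (hv0 R)]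
        calc ENNReal.ofReal (v R) * ENNReal.ofReal (m R)
            ≤ ENNReal.ofReal (v R) * (ENNReal.ofReal A * L R + ENNReal.ofReal B) := mul_le_mul_right (hnear R hR) _
          _ = ENNReal.ofReal (v R) * (ENNReal.ofReal A * L R) + ENNReal.ofReal B * ENNReal.ofReal (v R) := by ring
          _ ≤ ENNReal.ofReal (Cd 0 / X) * (ENNReal.ofReal A * L R) + ENNReal.ofReal B * ENNReal.ofReal (v R) :=
            add_le_add_left (mul_le_mul_left (ENNReal.ofReal_le_ofReal (hvc R)) _) _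
          _ = _ := by ring
      refine h2.trans ?_
      have hvm : Measurable fun R => ENNReal.ofReal B * ENNReal.ofReal (v R) :=
        measurable_const.mul hv.wt.cont.measurable.ennreal_ofReal
      rw [lintegral_add_right _ hvm,
        lintegral_const_mul' _ _ (ENNReal.mul_ne_top ENNReal.ofReal_ne_top ENNReal.ofReal_ne_top),
        lintegral_const_mul' _ _ ENNReal.ofReal_ne_top]
      have h3 : ∫⁻ R in I, ENNReal.ofReal (v R) ≤ 1 := by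
        rw [← hlv]
        exact setLIntegral_le_lintegral _ _
      rw [ENNReal.ofReal_add (by positivity) hB, ENNReal.ofReal_mul (by positivity), ENNReal.ofReal_mul hC0,
        ENNReal.ofReal_toReal hL]
      refine add_le_add_right ?_ _
      calc ENNReal.ofReal B * ∫⁻ R in I, ENNReal.ofReal (v R) ≤ ENNReal.ofReal B * 1 := mul_le_mul_right h3 _
        _ = _ := mul_one _
    exact (ENNReal.ofReal_le_ofReal_iff (by positivity)).1 h1
  obtain ⟨hG, hG2⟩ := dw_tail hX hv n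
  have hp2 : ∫ R in Iᶜ, v R * m R ≤ D * κ ^ n * (π * (Cd n + Cd (n + 2))) := by
    have h1 : ∫ R in Iᶜ, v R * m R ≤ ∫ R in Iᶜ, D * κ ^ n * (v R * (|R - R₁| / X) ^ n) := by
      refine setIntegral_mono_on hint.integrableOn (hG.const_mul _).integrableOn hI.compl fun R hR => ?_
      have h2 : 1 ≤ (κ * (|R - R₁| / X)) ^ n := one_le_pow₀ (hdist R hR)
      rw [mul_pow] at h2
      have h3 : v R * m R ≤ v R * D := mul_le_mul_of_nonneg_left (hfar R) (hv0 R)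
      have h4 : v R * D ≤ v R * D * (κ ^ n * (|R - R₁| / X) ^ n) :=
        le_mul_of_one_le_right (mul_nonneg (hv0 R) hD) h2
      refine (h3.trans h4).trans (le_of_eq ?_)
      ring
    refine h1.trans ((setIntegral_le_integral (hG.const_mul _) (Eventually.of_forall fun R => ?_)).trans ?_)
    · exact mul_nonneg (by positivity) (mul_nonneg (hv0 R) (by positivity))
    · rw [integral_const_mul]
      exact mul_le_mul_of_nonneg_left hG2 (by positivity)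
  rw [← integral_add_compl hI hint]
  linarith

private theorem cube78 {x C K Y : ℝ} (hx : 0 ≤ x) (hC : 1 ≤ C) (hK : 0 ≤ K) (hY : 0 ≤ Y)
    (h : x ^ 3 ≤ C * (K ^ 3 * Y + 1)) : x ≤ C * (K * Y ^ (1 / 3 : ℝ) + 1) := by
  have hy : (Y ^ (1 / 3 : ℝ)) ^ 3 = Y := by
    rw [← Real.rpow_natCast, ← Real.rpow_mul hY]
    norm_num
  set y := Y ^ (1 / 3 : ℝ) with hy'
  have hy0 : 0 ≤ y := by positivity
  have h1 : x ^ 3 ≤ (C * (K * y + 1)) ^ 3 := by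
    refine h.trans ?_
    rw [← hy, ← mul_pow, mul_pow C]
    have h2 : (K * y) ^ 3 + 1 ≤ (K * y + 1) ^ 3 := by
      have : 0 ≤ K * y := mul_nonneg hK hy0
      linarith [mul_nonneg this this]
    have h3 : C ≤ C ^ 3 := by
      calc C = C ^ 1 := (pow_one C).symm
        _ ≤ C ^ 3 := pow_le_pow_right₀ hC (by norm_num)
    exact mul_le_mul h3 h2 (by positivity) (by positivity)
  exact (pow_le_pow_iff_left₀ hx (by positivity) (by norm_num : (3 : ℕ) ≠ 0)).1 h1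

theorem arc_n6 {ε : ℝ} (hε : 0 < ε) (c₀ : ℝ) (Cd : ℕ → ℝ) : ∃ C : ℝ, 0 < C ∧ ∀ (β H ρ R₁ : ℝ) (v : ℝ → ℝ) (N j : ℕ),
    |β| ≤ 1 / 2 → 1 ≤ H → 2 ≤ ρ → ρ ≤ H ^ 3 → ρ ≤ R₁ → R₁ ≤ 2 * ρ → IsDw (ρ * H ^ (-ε)) R₁ v c₀ Cd → 12 ≤ N → j < N →
    1 ≤ ρ * H * (12 / (N : ℝ)) ^ 2 →
    I6 β ρ (-6 + 12 * ((j : ℝ) + 1 / 2) / N) (12 / (N : ℝ) * H ^ ε) (H ^ (ε - 1)) ≠ ⊤ →
      n6 (mu v) (gs (arc β (reg β H) N j) (fun _ => 1) (ph β)) ≤ C * (H ^ 3 / ρ * (H ^ ε / ρ *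
        (I6 β ρ (-6 + 12 * ((j : ℝ) + 1 / 2) / N) (12 / (N : ℝ) * H ^ ε) (H ^ (ε - 1))).toReal) ^ (1 / 3 : ℝ) + 1) := by
  classical
  obtain ⟨p, hp, C₂, hC₂, hwn⟩ := wp_near hε
  obtain ⟨C₁, hC₁, hFt⟩ := arc_le_Ft hp
  obtain ⟨n, hn⟩ := exists_nat_ge (12 / ε)
  obtain ⟨E, hE⟩ : ∃ E : ℝ, E = 10 ^ 24 * 2 ^ n * (π * (|Cd n| + |Cd (n + 2)|)) := ⟨_, rfl⟩
  have hE0 : 0 ≤ E := by rw [hE]; positivity
  refine ⟨C₁ * (256 * C₂ ^ 6) * |Cd 0| + C₁ * (32 * C₂ ^ 6) + E + 1, by positivity, ?_⟩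
  intro β H ρ R₁ v N j hβ hH hρ2 hρH hR₁ hR₁' hv hN hj hbig hI
  have hH0 : 0 < H := by linarith
  have hρ0 : 0 < ρ := by linarith
  have hNR : (12 : ℝ) ≤ N := by exact_mod_cast hN
  have hN0 : (0 : ℝ) < N := by linarith
  have hjR : (j : ℝ) + 1 ≤ N := by exact_mod_cast hj
  obtain ⟨σ, hσ⟩ : ∃ σ : ℝ, σ = 12 / (N : ℝ) := ⟨_, rfl⟩
  obtain ⟨t₀, ht₀⟩ : ∃ t₀ : ℝ, t₀ = -6 + 12 * ((j : ℝ) + 1 / 2) / N := ⟨_, rfl⟩
  have hσ0 : 0 < σ := by rw [hσ]; positivity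
  have hσ1 : σ ≤ 1 := by
    rw [hσ, div_le_one hN0]
    exact hNR
  have ht6 : |t₀| ≤ 6 := by
    have h1 : 0 ≤ 12 * ((j : ℝ) + 1 / 2) / N := by positivity
    have h2 : 12 * ((j : ℝ) + 1 / 2) / N ≤ 12 := by
      rw [div_le_iff₀ hN0]
      linarith
    rw [abs_le, ht₀]
    constructor <;> linarith
  have harc : arc β (reg β H) N j =
      (reg β H).filter (fun k => t₀ - σ / 2 ≤ tt β k ∧ tt β k < t₀ + σ / 2) := by
    ext k
    rw [arc_mem hH0 (by omega), Finset.mem_filter, ht₀, hσ]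
  rw [← hσ, ← ht₀] at hI
  rw [← hσ] at hbig
  rw [← hσ, ← ht₀]
  obtain ⟨X, hX⟩ : ∃ X : ℝ, X = ρ * H ^ (-ε) := ⟨_, rfl⟩
  have hX0 : 0 < X := by rw [hX]; positivity
  rw [← hX] at hv
  obtain ⟨m, hm⟩ : ∃ m : ℝ → ℝ, m = fun R => m6 (arc β (reg β H) N j) (fun k => 1 * ee (R * ph β k)) := ⟨_, rfl⟩
  have hmR : ∀ R, m R = m6 (arc β (reg β H) N j) (fun k => 1 * ee (R * ph β k)) := fun R => by rw [hm]
  have hm0 : ∀ R, 0 ≤ m R := fun R => by
    rw [hmR]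
    exact m6_nonneg _ _
  have hcube : n6 (mu v) (gs (arc β (reg β H) N j) (fun _ => 1) (ph β)) ^ 3 = ∫ R, v R * m R := by
    rw [n6_slice hv.wt]
    refine integral_congr_ae (Eventually.of_forall fun R => ?_)
    simp only [hmR]
  have hn0 := Pool.Agent.Helper22.AC.n6_nonneg (mu v) (gs (arc β (reg β H) N j) (fun _ => 1) (ph β))
  have hHe : 0 < H ^ ε := by positivity
  have hHe' : H ^ (-ε) = (H ^ ε)⁻¹ := Real.rpow_neg hH0.le ε
  refine cube78 hn0 (by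
    have : 0 ≤ C₁ * (256 * C₂ ^ 6) * |Cd 0| + C₁ * (32 * C₂ ^ 6) + E := by positivity
    linarith) (by positivity) (by positivity) ?_
  rw [hcube]
  by_cases hint : Integrable fun R => v R * m R
  swap
  · rw [integral_undef hint]
    positivity
  have hDw : ∀ i, Cd i ≤ |Cd i| := fun i => le_abs_self _
  have hcard : ∀ R, m R ≤ (10 ^ 4 * H ^ 2) ^ 6 := by
    intro R
    rw [hmR]
    refine (m6_card _ fun k => ?_).trans (pow_le_pow_left₀ (by positivity) ?_ 6)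
    · rw [one_mul, ee_norm]
    · refine le_trans ?_ (reg_card (β := β) hH)
      have : (arc β (reg β H) N j).card ≤ (reg β H).card := by
        rw [harc]
        exact Finset.card_filter_le _ _
      exact_mod_cast this
  have hnear : ∀ R ∈ Icc (ρ / 2) (4 * ρ), ENNReal.ofReal (m R) ≤
      ENNReal.ofReal (C₁ * (256 * C₂ ^ 6 * (H ^ 3 / ρ) ^ 3)) *
        (∫⁻ c in Tq, ((near β R t₀ (σ * H ^ ε) (H ^ (ε - 1)) c).ncard : ENNReal) ^ 6) +
        ENNReal.ofReal (C₁ * (32 * C₂ ^ 6)) := by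
    intro R hR
    refine near_part78 (β := β) (σ := σ) (t₀ := t₀) hp hH0 hσ0 hρ0 hR.1 hC₁ hC₂ (fun c => ?_) ?_
    · refine hwn β H σ t₀ R hβ hH hσ0 hσ1 ht6 (by linarith [hR.1]) (by linarith [hR.2]) ?_ c
      have h1 : ρ * (H * σ ^ 2) ≤ 2 * R * (H * σ ^ 2) :=
        mul_le_mul_of_nonneg_right (by linarith [hR.1]) (by positivity)
      linarith
    · rw [hmR]
      refine le_trans (le_of_eq ?_) (hFt β H σ t₀ R hβ hH hσ0 hσ1 ht6)
      rw [harc]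
      refine m6_congr fun k _ => ?_
      rw [one_mul]
  have hfar : ∀ R, R ∉ Icc (ρ / 2) (4 * ρ) → 1 ≤ 2 * H ^ (-ε) * (|R - R₁| / X) := by
    intro R hR
    have h1 : ρ / 2 ≤ |R - R₁| := by
      rw [mem_Icc, not_and_or, not_le, not_le] at hR
      rcases hR with h | h
      · rw [abs_sub_comm]
        refine le_trans ?_ (le_abs_self _)
        linarith
      · refine le_trans ?_ (le_abs_self _)
        linarith
    have h2 : (1 : ℝ) = 2 * H ^ (-ε) * (ρ / 2 / X) := by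
      rw [hX]
      field_simp
    have h3 : ρ / 2 / X ≤ |R - R₁| / X := div_le_div_of_nonneg_right h1 hX0.le
    rw [h2]
    exact mul_le_mul_of_nonneg_left h3 (by positivity)
  have hmain := split78 hX0 hv hm0 hint measurableSet_Icc (by positivity) (by positivity) (by positivity)
    (by positivity) hnear hcard n hfar hI
  refine hmain.trans ?_
  obtain ⟨I, hIe⟩ : ∃ I : ℝ, I = (I6 β ρ t₀ (σ * H ^ ε) (H ^ (ε - 1))).toReal := ⟨_, rfl⟩
  have hI0 : 0 ≤ I := by rw [hIe]; positivity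
  have hIe' : (∫⁻ R in Icc (ρ / 2) (4 * ρ), ∫⁻ c in Tq,
      ((near β R t₀ (σ * H ^ ε) (H ^ (ε - 1)) c).ncard : ENNReal) ^ 6).toReal = I := by
    rw [hIe]
    rfl
  rw [hIe', ← hIe]
  have hY0 : 0 ≤ (H ^ 3 / ρ) ^ 3 * (H ^ ε / ρ * I) := by positivity
  have e1 : Cd 0 / X * (C₁ * (256 * C₂ ^ 6 * (H ^ 3 / ρ) ^ 3)) * I ≤
      C₁ * (256 * C₂ ^ 6) * |Cd 0| * ((H ^ 3 / ρ) ^ 3 * (H ^ ε / ρ * I)) := by
    have h1 : Cd 0 / X * (C₁ * (256 * C₂ ^ 6 * (H ^ 3 / ρ) ^ 3)) * I =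
        C₁ * (256 * C₂ ^ 6) * Cd 0 * ((H ^ 3 / ρ) ^ 3 * (H ^ ε / ρ * I)) := by
      rw [hX, hHe']
      field_simp
    rw [h1]
    exact mul_le_mul_of_nonneg_right (mul_le_mul_of_nonneg_left (hDw 0) (by positivity)) hY0
  have e2 : (10 ^ 4 * H ^ 2) ^ 6 * (2 * H ^ (-ε)) ^ n * (π * (Cd n + Cd (n + 2))) ≤ E := by
    have h1 : H ^ 12 * (H ^ (-ε)) ^ n ≤ 1 := by
      have h2 : H ^ 12 * (H ^ (-ε)) ^ n = H ^ (12 - ε * n) := by
        rw [← Real.rpow_natCast (H ^ (-ε)), ← Real.rpow_mul hH0.le, ← Real.rpow_natCast H, ← Real.rpow_add hH0]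
        congr 1
        push_cast
        ring
      rw [h2]
      refine Real.rpow_le_one_of_one_le_of_nonpos hH ?_
      rw [div_le_iff₀ hε] at hn
      linarith
    have h3 : (10 ^ 4 * H ^ 2) ^ 6 * (2 * H ^ (-ε)) ^ n * (π * (Cd n + Cd (n + 2))) ≤
        (10 ^ 4 * H ^ 2) ^ 6 * (2 * H ^ (-ε)) ^ n * (π * (|Cd n| + |Cd (n + 2)|)) := by
      refine mul_le_mul_of_nonneg_left (mul_le_mul_of_nonneg_left ?_ Real.pi_pos.le) (by positivity)
      linarith [hDw n, hDw (n + 2)]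
    refine h3.trans ?_
    have h4 : (10 ^ 4 * H ^ 2) ^ 6 * (2 * H ^ (-ε)) ^ n * (π * (|Cd n| + |Cd (n + 2)|)) =
        E * (H ^ 12 * (H ^ (-ε)) ^ n) := by
      rw [hE, mul_pow, mul_pow]
      ring
    rw [h4]
    exact mul_le_of_le_one_right hE0 h1
  have e3 : 0 ≤ (C₁ * (32 * C₂ ^ 6) + E + 1) * ((H ^ 3 / ρ) ^ 3 * (H ^ ε / ρ * I)) := by positivity
  have e4 : 0 ≤ C₁ * (256 * C₂ ^ 6) * |Cd 0| := by positivity
  linarith [e1, e2, e3, e4]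

end Pool.Agent.Helper92.GC
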