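import Pool.Agent.Helper92.GC.R2
import Pool.Agent.Helper22.AC.B1
import Pool.Agent.Helper22.AC.B4
import Pool.Agent.Helper22.AC.A1

/-!
# GC-T1: exponential sums in (c, R)

PROOFS (adaptations of Helper22.AC.B4, C1 from the phases `Fk γ` to an arbitrary phase `f : ℤ × ℤ → ℝ`, and with `+` instead of `-` in the exponent; replace a weight by its conjugate or
`f` by `-f`, `k` by `-k`, or copy the proofs).
`gs_cont`, `gs_norm_le`: finite sums. `gs_slice`: for fixed `R`: `gs S a f (c, R) = tp S (fun k => a k * ee (R f k)) c`.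
`n6_slice`: `n6 (mu v) (gs S a f) ^ 3 = ∫ q, ‖gs‖^6 d(mu v) = ∫ R, v R * m6 S (fun k => a k * ee (R f k))` (`n6_cube` (AC.A1), `integral_prod` (second variable outside: `integral_prod_symm`),
`integral_withDensity_eq_integral_toReal_smul`; everything is bounded and continuous).
`n6_mul`: pointwise in `R` apply `IsMul` to the coefficients `a k * ee (R f k)`, integrate with `v R ≥ 0`, take cube roots (`n6 ≥ 0`).
`n6_le_of_m6`: the same for two different sums. `n6_gs_card`: as `n6_card` (AC.C1): `∫ ‖gs‖^6 ≤ card^4 ∫ ‖gs‖^2 ≤ card^5` (Parseval in `c`).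
`orth_gs`: as `orth_int` (AC.B4): expand into characters `ee (dt k c + R ξ)`; the integral of such a character over `mu v` vanishes if `k ≠ 0` or `|ξ| ≥ 1/X`.
-/

open MeasureTheory Real Set Filter Topology

set_option autoImplicit false

namespace Pool.Agent.Helper92.GC

open Pool.Agent.Helper22.AE
open Pool.Agent.Helper22.AC (n6 IsWt mu)

theorem gs_cont (S : Finset (ℤ × ℤ)) (a : ℤ × ℤ → ℂ) (f : ℤ × ℤ → ℝ) : Continuous (gs S a f) := by
  unfold gs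
  refine continuous_finsetSum _ fun k _ => continuous_const.mul (ee_cont.comp ?_)
  unfold dt
  fun_prop

theorem gs_norm_le (S : Finset (ℤ × ℤ)) (a : ℤ × ℤ → ℂ) (f : ℤ × ℤ → ℝ) (q : (ℝ × ℝ) × ℝ) :
    ‖gs S a f q‖ ≤ ∑ k ∈ S, ‖a k‖ := by
  unfold gs
  refine (norm_sum_le _ _).trans (le_of_eq (Finset.sum_congr rfl fun k _ => ?_))
  rw [norm_mul, ee_norm, mul_one]

theorem gs_slice (S : Finset (ℤ × ℤ)) (a : ℤ × ℤ → ℂ) (f : ℤ × ℤ → ℝ) (c : ℝ × ℝ) (R : ℝ) :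
    gs S a f (c, R) = tp S (fun k => a k * ee (R * f k)) c := by
  unfold gs tp
  refine Finset.sum_congr rfl fun k _ => ?_
  change a k * ee (dt k c + R * f k) = _
  rw [ee_add]
  ring

private theorem h99_prob {X : ℝ} {v : ℝ → ℝ} (hv : IsWt X v) :
    IsProbabilityMeasure ((volume : Measure ℝ).withDensity fun R => ENNReal.ofReal (v R)) := by
  have hint : Integrable v := by
    by_contra hcon
    have h2 := hv.int_one
    rw [integral_undef hcon] at h2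
    exact zero_ne_one h2
  constructor
  rw [withDensity_apply _ MeasurableSet.univ, Measure.restrict_univ,
    ← ofReal_integral_eq_lintegral_ofReal hint (Eventually.of_forall hv.nonneg), hv.int_one,
    ENNReal.ofReal_one]

private theorem h99_int {X : ℝ} {v : ℝ → ℝ} (hv : IsWt X v) (S : Finset (ℤ × ℤ)) (a : ℤ × ℤ → ℂ)
    (f : ℤ × ℤ → ℝ) : Integrable (fun q => ‖gs S a f q‖ ^ 6) (mu v) := by
  have := Pool.Agent.Helper22.AC.mu_prob hv
  refine Integrable.of_bound (C := (∑ k ∈ S, ‖a k‖) ^ 6) ((gs_cont S a f).norm.pow 6).aestronglyMeasurable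
    (Eventually.of_forall fun q => ?_)
  rw [Real.norm_of_nonneg (by positivity)]
  exact pow_le_pow_left₀ (norm_nonneg _) (gs_norm_le S a f q) 6

private theorem h99_slice {X : ℝ} {v : ℝ → ℝ} (hv : IsWt X v) (S : Finset (ℤ × ℤ)) (a : ℤ × ℤ → ℂ)
    (f : ℤ × ℤ → ℝ) :
    n6 (mu v) (gs S a f) ^ 3 = ∫ R, m6 S (fun k => a k * ee (R * f k))
      ∂((volume : Measure ℝ).withDensity fun R => ENNReal.ofReal (v R)) ∧
    Integrable (fun R => m6 S (fun k => a k * ee (R * f k)))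
      ((volume : Measure ℝ).withDensity fun R => ENNReal.ofReal (v R)) := by
  have hp := h99_prob hv
  have hint := h99_int hv S a f
  have e : (fun R => m6 S (fun k => a k * ee (R * f k))) = fun R =>
      ∫ c, ‖gs S a f (c, R)‖ ^ 6 ∂(volume.restrict (Icc (0 : ℝ) 1 ×ˢ Icc (0 : ℝ) 1)) := by
    funext R
    unfold m6 Tq
    refine integral_congr_ae (Eventually.of_forall fun c => ?_)
    simp only
    rw [gs_slice]
  rw [Pool.Agent.Helper22.AC.n6_cube, e]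
  unfold mu at hint ⊢
  exact ⟨integral_prod_symm _ hint, hint.integral_prod_right⟩

theorem n6_slice {X : ℝ} {v : ℝ → ℝ} (hv : IsWt X v) (S : Finset (ℤ × ℤ)) (a : ℤ × ℤ → ℂ) (f : ℤ × ℤ → ℝ) :
    n6 (mu v) (gs S a f) ^ 3 = ∫ R, v R * m6 S (fun k => a k * ee (R * f k)) := by
  rw [(h99_slice hv S a f).1, integral_withDensity_eq_integral_toReal_smul
    (hv.cont.measurable.ennreal_ofReal) (Filter.Eventually.of_forall fun _ => ENNReal.ofReal_lt_top)]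
  refine integral_congr_ae (Eventually.of_forall fun R => ?_)
  simp only
  rw [ENNReal.toReal_ofReal (hv.nonneg R), smul_eq_mul]

theorem n6_le_of_m6 {X : ℝ} {v : ℝ → ℝ} (hv : IsWt X v) {S S' : Finset (ℤ × ℤ)} {a a' : ℤ × ℤ → ℂ} {f : ℤ × ℤ → ℝ} {C : ℝ}
    (hC : 0 ≤ C) (h : ∀ R : ℝ, m6 S (fun k => a k * ee (R * f k)) ≤ C ^ 6 * m6 S' (fun k => a' k * ee (R * f k))) :
    n6 (mu v) (gs S a f) ≤ C ^ 2 * n6 (mu v) (gs S' a' f) := by
  obtain ⟨h1, h2⟩ := h99_slice hv S a f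
  obtain ⟨h3, h4⟩ := h99_slice hv S' a' f
  have h5 : n6 (mu v) (gs S a f) ^ 3 ≤ (C ^ 2 * n6 (mu v) (gs S' a' f)) ^ 3 := by
    have e : (C ^ 2 * n6 (mu v) (gs S' a' f)) ^ 3 = C ^ 6 * n6 (mu v) (gs S' a' f) ^ 3 := by ring
    rw [e, h1, h3, ← integral_const_mul]
    exact integral_mono h2 (h4.const_mul _) h
  exact (pow_le_pow_iff_left₀ (Pool.Agent.Helper22.AC.n6_nonneg _ _)
    (mul_nonneg (by positivity) (Pool.Agent.Helper22.AC.n6_nonneg _ _)) (by norm_num : (3 : ℕ) ≠ 0)).1 h5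

theorem n6_mul {X : ℝ} {v : ℝ → ℝ} (hv : IsWt X v) {S : Finset (ℤ × ℤ)} {b : ℤ × ℤ → ℂ} {C : ℝ} (hb : IsMul S b C)
    (a : ℤ × ℤ → ℂ) (f : ℤ × ℤ → ℝ) : n6 (mu v) (gs S (fun k => b k * a k) f) ≤ C ^ 2 * n6 (mu v) (gs S a f) := by
  refine n6_le_of_m6 hv hb.1 fun R => ?_
  have h := hb.2 (fun k => a k * ee (R * f k))
  refine le_trans (le_of_eq (m6_congr fun k _ => ?_)) h
  ring

private theorem h99_tq : IsProbabilityMeasure ((volume : Measure (ℝ × ℝ)).restrict Tq) := by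
  constructor
  unfold Tq
  rw [Measure.restrict_apply_univ, Measure.volume_eq_prod, Measure.prod_prod, Real.volume_Icc,
    sub_zero, ENNReal.ofReal_one, mul_one]

private theorem h99_dt_cont (k : ℤ × ℤ) : Continuous (fun c : ℝ × ℝ => ee (dt k c)) := by
  refine ee_cont.comp ?_
  unfold dt
  fun_prop

private theorem h99_dt_neg (k : ℤ × ℤ) (c : ℝ × ℝ) : dt (-k) c = -dt k c := by
  unfold dt
  rw [Prod.fst_neg, Prod.snd_neg]
  push_cast
  ring

private theorem h99_l2 (S : Finset (ℤ × ℤ)) (b : ℤ × ℤ → ℂ) :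
    ∫ c in Tq, ‖tp S b c‖ ^ 2 = ∑ k ∈ S, ‖b k‖ ^ 2 := by
  have := h99_tq
  have hE : ∀ (z : ℂ) (k : ℤ × ℤ), Integrable (fun c => z * ee (dt k c)) (volume.restrict Tq) := by
    intro z k
    refine Integrable.of_bound (C := ‖z‖) (continuous_const.mul (h99_dt_cont k)).aestronglyMeasurable
      (Filter.Eventually.of_forall fun q => ?_)
    rw [norm_mul, ee_norm, mul_one]
  have e1 : ∀ c, (((‖tp S b c‖ ^ 2 : ℝ)) : ℂ) =
      ∑ k ∈ S, ∑ k' ∈ S, (b k * (starRingEnd ℂ) (b k')) * ee (dt (k - k') c) := by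
    intro c
    rw [← Complex.normSq_eq_norm_sq, ← Complex.mul_conj]
    unfold tp
    rw [map_sum, Finset.sum_mul_sum]
    refine Finset.sum_congr rfl fun k _ => Finset.sum_congr rfl fun k' _ => ?_
    rw [map_mul, sub_eq_add_neg, dt_add, h99_dt_neg, ee_add, ee_neg]
    ring
  have e2 : ((∫ c in Tq, ‖tp S b c‖ ^ 2 : ℝ) : ℂ) = ((∑ k ∈ S, ‖b k‖ ^ 2 : ℝ) : ℂ) := by
    have e0 : ((∫ c in Tq, ‖tp S b c‖ ^ 2 : ℝ) : ℂ) = ∫ c in Tq, ((‖tp S b c‖ ^ 2 : ℝ) : ℂ) :=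
      integral_complex_ofReal.symm
    have e3 : ∫ c in Tq, ((‖tp S b c‖ ^ 2 : ℝ) : ℂ) = ∫ c in Tq, (∑ k ∈ S, ∑ k' ∈ S,
        (b k * (starRingEnd ℂ) (b k')) * ee (dt (k - k') c)) :=
      integral_congr_ae (Filter.Eventually.of_forall fun q => e1 q)
    refine e0.trans (e3.trans ?_)
    rw [integral_finsetSum]
    · rw [Complex.ofReal_sum]
      refine Finset.sum_congr rfl fun k hk => ?_
      rw [integral_finsetSum]
      · rw [Finset.sum_eq_single_of_mem k hk]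
        · rw [integral_const_mul, ee_int, sub_self, if_pos rfl, mul_one, Complex.mul_conj,
            Complex.normSq_eq_norm_sq]
        · intro k' _ hne
          rw [integral_const_mul, ee_int, if_neg (sub_ne_zero.2 (Ne.symm hne)), mul_zero]
      · intro k' _
        exact hE _ _
    · intro k _
      exact integrable_finsetSum _ fun k' _ => hE _ _
  exact_mod_cast e2

private theorem h99_m6_card (S : Finset (ℤ × ℤ)) {b : ℤ × ℤ → ℂ} (hb : ∀ k, ‖b k‖ ≤ 1) :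
    m6 S b ≤ (S.card : ℝ) ^ 5 := by
  have := h99_tq
  have hn : ∀ c, ‖tp S b c‖ ≤ (S.card : ℝ) := by
    intro c
    refine (tp_norm_le S b c).trans ?_
    refine (Finset.sum_le_card_nsmul _ _ 1 fun k _ => hb k).trans (by simp)
  have hint : Integrable (fun c => ‖tp S b c‖ ^ 2) (volume.restrict Tq) := by
    refine Integrable.of_bound (C := (S.card : ℝ) ^ 2)
      ((tp_cont S b).norm.pow 2).aestronglyMeasurable (Filter.Eventually.of_forall fun c => ?_)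
    rw [Real.norm_of_nonneg (by positivity)]
    exact pow_le_pow_left₀ (norm_nonneg _) (hn c) 2
  have h1 : ∫ c in Tq, ‖tp S b c‖ ^ 2 ≤ (S.card : ℝ) := by
    rw [h99_l2]
    refine (Finset.sum_le_card_nsmul _ _ 1 fun k _ => ?_).trans (by simp)
    exact pow_le_one₀ (norm_nonneg _) (hb k)
  unfold m6
  have h3 : ∫ c in Tq, ‖tp S b c‖ ^ 6 ≤ ∫ c in Tq, (S.card : ℝ) ^ 4 * ‖tp S b c‖ ^ 2 := by
    refine integral_mono_of_nonneg (Filter.Eventually.of_forall fun q => by positivity)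
      (hint.const_mul _) (Filter.Eventually.of_forall fun c => ?_)
    have h4 : ‖tp S b c‖ ^ 6 = ‖tp S b c‖ ^ 4 * ‖tp S b c‖ ^ 2 := by ring
    change ‖tp S b c‖ ^ 6 ≤ _
    rw [h4]
    exact mul_le_mul_of_nonneg_right (pow_le_pow_left₀ (norm_nonneg _) (hn c) 4) (by positivity)
  rw [integral_const_mul] at h3
  refine h3.trans ?_
  have h5 : (S.card : ℝ) ^ 5 = (S.card : ℝ) ^ 4 * S.card := by ring
  rw [h5]
  exact mul_le_mul_of_nonneg_left h1 (by positivity)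

theorem n6_gs_card {X : ℝ} {v : ℝ → ℝ} (hv : IsWt X v) (S : Finset (ℤ × ℤ)) {a : ℤ × ℤ → ℂ} (ha : ∀ k, ‖a k‖ ≤ 1)
    (f : ℤ × ℤ → ℝ) : n6 (mu v) (gs S a f) ≤ (S.card : ℝ) ^ (5 / 3 : ℝ) := by
  have hp := h99_prob hv
  obtain ⟨h1, h2⟩ := h99_slice hv S a f
  have h3 : n6 (mu v) (gs S a f) ^ 3 ≤ (S.card : ℝ) ^ 5 := by
    rw [h1]
    refine (integral_mono h2 (integrable_const ((S.card : ℝ) ^ 5)) fun R => ?_).trans ?_
    · refine h99_m6_card S fun k => ?_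
      rw [norm_mul, ee_norm, mul_one]
      exact ha k
    · rw [integral_const, probReal_univ, one_smul]
  have h0 := Pool.Agent.Helper22.AC.n6_nonneg (mu v) (gs S a f)
  have h4 := Real.rpow_le_rpow (by positivity) h3 (by norm_num : (0 : ℝ) ≤ 1 / 3)
  have e1 : (n6 (mu v) (gs S a f) ^ 3) ^ (1 / 3 : ℝ) = n6 (mu v) (gs S a f) := by
    rw [← Real.rpow_natCast, ← Real.rpow_mul h0]
    norm_num
  rw [e1] at h4
  refine h4.trans (le_of_eq ?_)
  rw [← Real.rpow_natCast, ← Real.rpow_mul (by positivity)]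
  norm_num

/-- the character -/
private noncomputable def h99_E (k : ℤ × ℤ) (ξ : ℝ) (q : (ℝ × ℝ) × ℝ) : ℂ := ee (dt k q.1 + q.2 * ξ)

private theorem h99_char {X : ℝ} {v : ℝ → ℝ} (hv : IsWt X v) (k : ℤ × ℤ) (ξ : ℝ)
    (h : k ≠ 0 ∨ 1 / X ≤ |ξ|) : ∫ q, h99_E k ξ q ∂(mu v) = 0 := by
  have h0 := Pool.Agent.Helper22.AC.char_int hv (-k) (-ξ)
    (h.imp (fun h1 => neg_ne_zero.2 h1) (fun h1 => by rw [abs_neg]; exact h1))
  rw [← h0]
  refine integral_congr_ae (Eventually.of_forall fun q => ?_)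
  simp only
  unfold h99_E dt
  congr 1
  rw [Prod.fst_neg, Prod.snd_neg]
  push_cast
  ring

/-- bounded continuous -/
private def h99_BC (g : (ℝ × ℝ) × ℝ → ℂ) : Prop := Continuous g ∧ ∃ B : ℝ, ∀ q, ‖g q‖ ≤ B

private theorem h99_BC_mul {f g : (ℝ × ℝ) × ℝ → ℂ} (hf : h99_BC f) (hg : h99_BC g) :
    h99_BC (fun q => f q * g q) := by
  obtain ⟨hf1, B, hB⟩ := hf
  obtain ⟨hg1, B', hB'⟩ := hg
  refine ⟨hf1.mul hg1, B * B', fun q => ?_⟩
  rw [norm_mul]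
  exact mul_le_mul (hB q) (hB' q) (norm_nonneg _) ((norm_nonneg _).trans (hB q))

private theorem h99_BC_conj {f : (ℝ × ℝ) × ℝ → ℂ} (hf : h99_BC f) :
    h99_BC (fun q => (starRingEnd ℂ) (f q)) := by
  obtain ⟨hf1, B, hB⟩ := hf
  refine ⟨Complex.continuous_conj.comp hf1, B, fun q => ?_⟩
  rw [RCLike.norm_conj]
  exact hB q

private theorem h99_BC_gs (S : Finset (ℤ × ℤ)) (a : ℤ × ℤ → ℂ) (f : ℤ × ℤ → ℝ) :
    h99_BC (gs S a f) := ⟨gs_cont S a f, _, gs_norm_le S a f⟩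

private theorem h99_BC_E (k : ℤ × ℤ) (ξ : ℝ) : h99_BC (h99_E k ξ) := by
  refine ⟨?_, 1, fun q => (ee_norm _).le⟩
  unfold h99_E dt
  exact ee_cont.comp (by fun_prop)

private theorem h99_BC_int {X : ℝ} {v : ℝ → ℝ} (hv : IsWt X v) {f : (ℝ × ℝ) × ℝ → ℂ}
    (hf : h99_BC f) : Integrable f (mu v) := by
  have := Pool.Agent.Helper22.AC.mu_prob hv
  obtain ⟨hf1, B, hB⟩ := hf
  exact Integrable.of_bound hf1.aestronglyMeasurable B (Filter.Eventually.of_forall hB)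

private theorem h99_E_mul (k y : ℤ × ℤ) (ξ η : ℝ) (q : (ℝ × ℝ) × ℝ) :
    h99_E k ξ q * h99_E y η q = h99_E (k + y) (ξ + η) q := by
  unfold h99_E
  rw [← ee_add, dt_add]
  congr 1
  ring

private theorem h99_E_conj (y : ℤ × ℤ) (η : ℝ) (q : (ℝ × ℝ) × ℝ) :
    (starRingEnd ℂ) (h99_E y η q) = h99_E (-y) (-η) q := by
  unfold h99_E
  rw [← ee_neg, h99_dt_neg]
  congr 1
  ring

private theorem h99_step {X : ℝ} {v : ℝ → ℝ} (hv : IsWt X v) {G : (ℝ × ℝ) × ℝ → ℂ} (hG : h99_BC G)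
    {C : ℤ × ℤ → ℝ → Prop} (hC : ∀ k ξ, C k ξ → ∫ q, h99_E k ξ q * G q ∂(mu v) = 0)
    (B : Finset (ℤ × ℤ)) (a : ℤ × ℤ → ℂ) (f : ℤ × ℤ → ℝ) (k : ℤ × ℤ) (ξ : ℝ)
    (h : ∀ y ∈ B, C (k + y) (ξ + f y)) :
    ∫ q, h99_E k ξ q * (gs B a f q * G q) ∂(mu v) = 0 := by
  have e1 : (fun q => h99_E k ξ q * (gs B a f q * G q)) =
      fun q => ∑ y ∈ B, a y * (h99_E (k + y) (ξ + f y) q * G q) := by
    funext q
    have h1 : gs B a f q = ∑ y ∈ B, a y * h99_E y (f y) q := rfl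
    rw [h1, Finset.sum_mul, Finset.mul_sum]
    refine Finset.sum_congr rfl fun y _ => ?_
    rw [← h99_E_mul]
    ring
  rw [e1, integral_finsetSum]
  · refine Finset.sum_eq_zero fun y hy => ?_
    rw [integral_const_mul, hC _ _ (h y hy), mul_zero]
  · intro y _
    exact (h99_BC_int hv (h99_BC_mul (h99_BC_E _ _) hG)).const_mul _

private theorem h99_stepc {X : ℝ} {v : ℝ → ℝ} (hv : IsWt X v) {G : (ℝ × ℝ) × ℝ → ℂ} (hG : h99_BC G)
    {C : ℤ × ℤ → ℝ → Prop} (hC : ∀ k ξ, C k ξ → ∫ q, h99_E k ξ q * G q ∂(mu v) = 0)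
    (B : Finset (ℤ × ℤ)) (a : ℤ × ℤ → ℂ) (f : ℤ × ℤ → ℝ) (k : ℤ × ℤ) (ξ : ℝ)
    (h : ∀ y ∈ B, C (k - y) (ξ - f y)) :
    ∫ q, h99_E k ξ q * ((starRingEnd ℂ) (gs B a f q) * G q) ∂(mu v) = 0 := by
  have e1 : (fun q => h99_E k ξ q * ((starRingEnd ℂ) (gs B a f q) * G q)) =
      fun q => ∑ y ∈ B, (starRingEnd ℂ) (a y) * (h99_E (k - y) (ξ - f y) q * G q) := by
    funext q
    have h1 : gs B a f q = ∑ y ∈ B, a y * h99_E y (f y) q := rfl
    rw [h1, map_sum, Finset.sum_mul, Finset.mul_sum]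
    refine Finset.sum_congr rfl fun y _ => ?_
    rw [map_mul, h99_E_conj, sub_eq_add_neg, sub_eq_add_neg, ← h99_E_mul]
    ring
  rw [e1, integral_finsetSum]
  · refine Finset.sum_eq_zero fun y hy => ?_
    rw [integral_const_mul, hC _ _ (h y hy), mul_zero]
  · intro y _
    exact (h99_BC_int hv (h99_BC_mul (h99_BC_E _ _) hG)).const_mul _

theorem orth_gs {X : ℝ} {v : ℝ → ℝ} (hv : IsWt X v) {B₁ B₂ J : Finset (ℤ × ℤ)} {a : ℤ × ℤ → ℂ} {f : ℤ × ℤ → ℝ}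
    (hne : ∀ x ∈ B₁, ∀ x' ∈ B₂, ∀ y₁ ∈ J, ∀ y₂ ∈ J, ∀ y₃ ∈ J, ∀ y₄ ∈ J, x - x' + y₁ + y₂ - y₃ - y₄ = 0 →
      1 / X ≤ |f x - f x' + f y₁ + f y₂ - f y₃ - f y₄|) :
    ∫ q, gs B₁ a f q * (starRingEnd ℂ) (gs B₂ a f q) * ((‖gs J a f q‖ ^ 4 : ℝ) : ℂ) ∂(mu v) = 0 := by
  have hJ := h99_BC_gs J a f
  have hJc := h99_BC_conj hJ
  have hB2 := h99_BC_conj (h99_BC_gs B₂ a f)
  have b0 : h99_BC (fun _ => 1) := ⟨continuous_const, 1, fun q => by rw [norm_one]⟩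
  have h0 : ∀ (k : ℤ × ℤ) (ξ : ℝ), (k ≠ 0 ∨ 1 / X ≤ |ξ|) →
      ∫ q, h99_E k ξ q * (fun _ => (1 : ℂ)) q ∂(mu v) = 0 := by
    intro k ξ h
    simp only [mul_one]
    exact h99_char hv k ξ h
  have b1 := h99_BC_mul hJc b0
  have h1 := h99_stepc hv b0 (C := fun k ξ => k ≠ 0 ∨ 1 / X ≤ |ξ|) h0 J a f
  have b2 := h99_BC_mul hJc b1
  have h2 := h99_stepc hv b1 h1 J a f
  have b3 := h99_BC_mul hJ b2
  have h3 := h99_step hv b2 h2 J a f
  have b4 := h99_BC_mul hJ b3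
  have h4 := h99_step hv b3 h3 J a f
  have b5 := h99_BC_mul hB2 b4
  have h5 := h99_stepc hv b4 h4 B₂ a f
  have h6 := h99_step hv b5 h5 B₁ a f 0 0
  rw [← h6]
  · congr 1
    funext q
    have hE : h99_E 0 0 q = 1 := by
      unfold h99_E dt
      simp [ee_zero]
    have hz : ((‖gs J a f q‖ ^ 4 : ℝ) : ℂ) = gs J a f q * (gs J a f q *
        ((starRingEnd ℂ) (gs J a f q) * (starRingEnd ℂ) (gs J a f q))) := by
      have h7 : gs J a f q * (starRingEnd ℂ) (gs J a f q) = ((‖gs J a f q‖ ^ 2 : ℝ) : ℂ) := by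
        rw [Complex.mul_conj, Complex.normSq_eq_norm_sq]
      have h8 : ((‖gs J a f q‖ ^ 4 : ℝ) : ℂ) =
          ((‖gs J a f q‖ ^ 2 : ℝ) : ℂ) * ((‖gs J a f q‖ ^ 2 : ℝ) : ℂ) := by
        push_cast
        ring
      rw [h8, ← h7]
      ring
    rw [hE, hz]
    ring
  · intro x hx x' hx' y₁ hy₁ y₂ hy₂ y₃ hy₃ y₄ hy₄
    by_cases hk : x - x' + y₁ + y₂ - y₃ - y₄ = 0
    · right
      have h9 := hne x hx x' hx' y₁ hy₁ y₂ hy₂ y₃ hy₃ y₄ hy₄ hk
      rw [zero_add]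
      exact h9
    · left
      rw [zero_add]
      exact hk

end Pool.Agent.Helper92.GC
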