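import Pool.Agent.Helper92.GC.Defs
import Pool.Agent.Helper22.AC.D1b
import Pool.Agent.Helper22.AE.P1

/-!
# GC-D1: the disc as a domain with support function 1

PROOFS. `dcnt_eq`: `∀ θ, x cos θ + y sin θ ≤ R · 1` iff `x² + y² ≤ R²` for `R ≥ 0` (Cauchy-Schwarz in one direction; in the other take `θ = arg (x + i y)`).
`area_one`: `dom (fun _ => 1)` is the closed unit disc (same equivalence with `R = 1`); its area is `π` (Mathlib: `EuclideanSpace.volume_ball`/`Complex.volume_ball`,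
`MeasureTheory.Measure.addHaar...`, `volume_closedBall`; the plane `ℝ × ℝ` is measure isomorphic to `ℂ` by `Complex.measurableEquivRealProd`, `Complex.volume_preserving_equiv_real_prod`),
as in the files on MP_fb29e9_nt.
`supp_const`: derivatives of a constant.
`dcnt_bdd`: all `k` satisfy `|k.1 - c.1| ≤ R₂`, `|k.2 - c.2| ≤ R₂`: at most `(2R₂ + 1)²` (number of integers in an interval of length `2R₂`), for every centre `c`.
-/

open MeasureTheory Real Set Filter Topology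

set_option autoImplicit false

namespace Pool.Agent.Helper92.GC

open Pool.Agent.Helper22.AE
open Pool.Agent.Helper22.AC (n6 IsWt mu)

open Pool.Agent.Helper22.AC (cntc)

/-- lattice points in the disc with centre `c` and radius `R` -/
noncomputable def dcnt (c : ℝ × ℝ) (R : ℝ) : ℝ :=
  (Nat.card {k : ℤ × ℤ // ((k.1 : ℝ) - c.1) ^ 2 + ((k.2 : ℝ) - c.2) ^ 2 ≤ R ^ 2} : ℝ)

private theorem disc_iff69 (x y r : ℝ) (hr : 0 ≤ r) :
    (∀ θ : ℝ, x * cos θ + y * sin θ ≤ r) ↔ x ^ 2 + y ^ 2 ≤ r ^ 2 := by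
  constructor
  · intro h
    obtain ⟨z, hz⟩ : ∃ z : ℂ, z = ⟨x, y⟩ := ⟨_, rfl⟩
    have h1 := h z.arg
    have h2 : ‖z‖ * cos z.arg = x := by rw [Complex.norm_mul_cos_arg, hz]
    have h3 : ‖z‖ * sin z.arg = y := by rw [Complex.norm_mul_sin_arg, hz]
    have h4 : x ^ 2 + y ^ 2 = ‖z‖ ^ 2 := by
      rw [Complex.sq_norm, Complex.normSq_apply, hz]
      ring
    have h5 : x * cos z.arg + y * sin z.arg = ‖z‖ := by
      rw [← h2, ← h3]
      have h6 : cos z.arg ^ 2 + sin z.arg ^ 2 = 1 := by rw [add_comm]; exact sin_sq_add_cos_sq _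
      calc ‖z‖ * cos z.arg * cos z.arg + ‖z‖ * sin z.arg * sin z.arg
          = ‖z‖ * (cos z.arg ^ 2 + sin z.arg ^ 2) := by ring
        _ = ‖z‖ := by rw [h6, mul_one]
    rw [h5] at h1
    rw [h4]
    exact pow_le_pow_left₀ (norm_nonneg _) h1 2
  · intro h θ
    by_contra hcon
    push Not at hcon
    have h1 : r ^ 2 < (x * cos θ + y * sin θ) ^ 2 := pow_lt_pow_left₀ hcon hr two_ne_zero
    have h2 := sin_sq_add_cos_sq θ
    have h3 : (x * cos θ + y * sin θ) ^ 2 + (x * sin θ - y * cos θ) ^ 2 = x ^ 2 + y ^ 2 := by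
      linear_combination (x ^ 2 + y ^ 2) * h2
    nlinarith [sq_nonneg (x * sin θ - y * cos θ)]

theorem dcnt_eq {R : ℝ} (hR : 0 ≤ R) (c : ℝ × ℝ) : dcnt c R = cntc (fun _ => 1) c R := by
  unfold dcnt cntc
  congr 1
  refine Nat.card_congr (Equiv.subtypeEquivRight fun k => ?_)
  simp only [mul_one]
  exact (disc_iff69 _ _ _ hR).symm

theorem area_one : area (fun _ => 1) = π := by
  unfold area
  have h1 : dom (fun _ => 1) = {p : ℝ × ℝ | p.1 ^ 2 + p.2 ^ 2 ≤ 1} := by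
    ext p
    have h := disc_iff69 p.1 p.2 1 zero_le_one
    rw [one_pow] at h
    exact h
  have hm : MeasurableSet {p : ℝ × ℝ | p.1 ^ 2 + p.2 ^ 2 ≤ 1} :=
    measurableSet_le (by fun_prop) measurable_const
  have h2 : Complex.measurableEquivRealProd ⁻¹' {p : ℝ × ℝ | p.1 ^ 2 + p.2 ^ 2 ≤ 1} =
      Metric.closedBall (0 : ℂ) 1 := by
    ext z
    rw [mem_closedBall_zero_iff]
    change z.re ^ 2 + z.im ^ 2 ≤ 1 ↔ _
    have h3 : z.re ^ 2 + z.im ^ 2 = ‖z‖ ^ 2 := by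
      rw [Complex.sq_norm, Complex.normSq_apply]
      ring
    rw [h3]
    constructor
    · intro h
      nlinarith [norm_nonneg z]
    · intro h
      exact pow_le_one₀ (norm_nonneg _) h
  rw [h1, ← Complex.volume_preserving_equiv_real_prod.measure_preimage hm.nullMeasurableSet, h2,
    Complex.volume_closedBall]
  simp

theorem supp_const {r : ℝ} (hr : 0 < r) : IsSupp (fun _ => r) where
  smooth := contDiff_const
  per := fun _ => rfl
  pos := fun _ => hr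
  rho_pos := fun θ => by
    have h1 : deriv (fun _ : ℝ => r) = fun _ => 0 := by
      funext x
      exact deriv_const x r
    rw [h1, deriv_const, add_zero]
    exact hr

private theorem card_Icc69 (a R : ℝ) (hR : 0 ≤ R) :
    (((Finset.Icc ⌈a - R⌉ ⌊a + R⌋).card : ℕ) : ℝ) ≤ 2 * R + 1 := by
  rw [Int.card_Icc]
  rcases le_or_gt 0 (⌊a + R⌋ + 1 - ⌈a - R⌉) with h4 | h4
  · have h5 : (((⌊a + R⌋ + 1 - ⌈a - R⌉).toNat : ℕ) : ℝ) = ((⌊a + R⌋ + 1 - ⌈a - R⌉ : ℤ) : ℝ) := by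
      exact_mod_cast congrArg (Int.cast : ℤ → ℝ) (Int.toNat_of_nonneg h4)
    rw [h5]
    push_cast
    have h6 := Int.floor_le (a + R)
    have h7 := Int.le_ceil (a - R)
    linarith
  · rw [Int.toNat_of_nonpos h4.le]
    push_cast
    linarith

theorem dcnt_bdd (R₂ : ℝ) : ∃ C : ℝ, ∀ R : ℝ, 1 ≤ R → R ≤ R₂ → ∀ c : ℝ × ℝ, |dcnt c R - π * R ^ 2| ≤ C := by
  refine ⟨(2 * R₂ + 1) ^ 2 + π * R₂ ^ 2, fun R hR hR2 c => ?_⟩
  have hR20 : 0 ≤ R₂ := by linarith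
  have h0 : 0 ≤ dcnt c R := by unfold dcnt; positivity
  have h1 : dcnt c R ≤ (2 * R₂ + 1) ^ 2 := by
    have hsub : {k : ℤ × ℤ | ((k.1 : ℝ) - c.1) ^ 2 + ((k.2 : ℝ) - c.2) ^ 2 ≤ R ^ 2} ⊆
        ((Finset.Icc ⌈c.1 - R₂⌉ ⌊c.1 + R₂⌋ ×ˢ Finset.Icc ⌈c.2 - R₂⌉ ⌊c.2 + R₂⌋ : Finset (ℤ × ℤ)) :
          Set (ℤ × ℤ)) := by
      rintro ⟨k, l⟩ hk
      have hk' : ((k : ℝ) - c.1) ^ 2 + ((l : ℝ) - c.2) ^ 2 ≤ R ^ 2 := hk
      have ha : |(k : ℝ) - c.1| ≤ R₂ := by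
        refine (abs_le_of_sq_le_sq (a := (k : ℝ) - c.1) (b := R) ?_ (by linarith)).trans hR2
        nlinarith [sq_nonneg ((l : ℝ) - c.2)]
      have hb : |(l : ℝ) - c.2| ≤ R₂ := by
        refine (abs_le_of_sq_le_sq (a := (l : ℝ) - c.2) (b := R) ?_ (by linarith)).trans hR2
        nlinarith [sq_nonneg ((k : ℝ) - c.1)]
      rw [abs_le] at ha hb
      rw [Finset.mem_coe, Finset.mem_product, Finset.mem_Icc, Finset.mem_Icc]
      refine ⟨⟨Int.ceil_le.2 ?_, Int.le_floor.2 ?_⟩, ⟨Int.ceil_le.2 ?_, Int.le_floor.2 ?_⟩⟩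
      · change c.1 - R₂ ≤ (k : ℝ)
        linarith [ha.1]
      · change (k : ℝ) ≤ c.1 + R₂
        linarith [ha.2]
      · change c.2 - R₂ ≤ (l : ℝ)
        linarith [hb.1]
      · change (l : ℝ) ≤ c.2 + R₂
        linarith [hb.2]
    have h2 := Set.ncard_le_ncard hsub (Finset.finite_toSet _)
    rw [Set.ncard_coe_finset, Finset.card_product] at h2
    have h3 : dcnt c R = ({k : ℤ × ℤ | ((k.1 : ℝ) - c.1) ^ 2 + ((k.2 : ℝ) - c.2) ^ 2 ≤ R ^ 2}.ncard : ℝ) := rfl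
    rw [h3]
    have h4 := card_Icc69 c.1 R₂ hR20
    have h5 := card_Icc69 c.2 R₂ hR20
    calc ({k : ℤ × ℤ | ((k.1 : ℝ) - c.1) ^ 2 + ((k.2 : ℝ) - c.2) ^ 2 ≤ R ^ 2}.ncard : ℝ)
        ≤ (((Finset.Icc ⌈c.1 - R₂⌉ ⌊c.1 + R₂⌋).card * (Finset.Icc ⌈c.2 - R₂⌉ ⌊c.2 + R₂⌋).card : ℕ) : ℝ) := by
          exact_mod_cast h2
      _ ≤ (2 * R₂ + 1) * (2 * R₂ + 1) := by
          push_cast
          exact mul_le_mul h4 h5 (Nat.cast_nonneg _) (by linarith)
      _ = (2 * R₂ + 1) ^ 2 := by ring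
  have h2 : π * R ^ 2 ≤ π * R₂ ^ 2 :=
    mul_le_mul_of_nonneg_left (pow_le_pow_left₀ (by linarith) hR2 2) pi_pos.le
  have h3 : 0 ≤ π * R ^ 2 := by positivity
  rw [abs_le]
  constructor
  · nlinarith [sq_nonneg (2 * R₂ + 1)]
  · linarith

end Pool.Agent.Helper92.GC
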