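import Pool.Agent.Helper92.GC.R3

/-!
# GC-R4: the multipliers exp(u χ(t)) and weights

PROOF of `mul_exp`. `b₁ k = uu β k / U` : `mul_lip` with `φ = uu β` (`cut_u`), `m x = x / U`, `[x₁, x₂] = [0, U]`, `B = 0`, `L = 1/U`, `A = 14`: norm `14`.
`b₂ k = U χ(tt β k)`: `mul_lip` with `φ = tt β` (`cut_t`), norm `≤ B + 14 B = 15 B`. So `b k = uu β k * χ (tt β k) = b₁ b₂` has norm `≤ 210 B`, and
`z ↦ 2 π i b` norm `≤ 210 · 2π B ≤ 1320 B` (`2π ≤ 6.2832`, `210 · 6.2832 = 1319.5`). The partial sums of the exponential series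
`∑_{j ≤ n} (2 π i b)^j / j!` have norm `≤ ∑ (1320 B)^j / j! ≤ exp (1320 B)` (`mul_comp`, `mul_add`, `mul_const`; powers by induction) and converge pointwise to
`ee (uu β k * χ (tt β k))`; `mul_lim`. (`B ≥ 0` follows from `hχ` if `t₁ ≤ t₂`.)
-/

open MeasureTheory Real Set Filter Topology

set_option autoImplicit false

namespace Pool.Agent.Helper92.GC

open Pool.Agent.Helper22.AE
open Pool.Agent.Helper22.AC (n6 IsWt mu)

private lemma mul_pow64 {S : Finset (ℤ × ℤ)} {w : ℤ × ℤ → ℂ} {C : ℝ} (h : IsMul S w C) (j : ℕ) :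
    IsMul S (fun k => w k ^ j) (C ^ j) := by
  induction j with
  | zero =>
    have h1 := mul_const S 1
    rw [norm_one] at h1
    simpa using h1
  | succ j ih =>
    have h1 := mul_comp ih h
    simpa only [pow_succ] using h1

private lemma mul_psum64 {S : Finset (ℤ × ℤ)} {w : ℤ × ℤ → ℂ} {C : ℝ} (h : IsMul S w C) (n : ℕ) :
    IsMul S (fun k => ∑ j ∈ Finset.range n, w k ^ j / (j.factorial : ℂ))
      (∑ j ∈ Finset.range n, C ^ j / (j.factorial : ℝ)) := by
  induction n with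
  | zero =>
    have h1 := mul_const S 0
    rw [norm_zero] at h1
    simpa using h1
  | succ n ih =>
    have h1 := mul_comp (mul_pow64 h n) (mul_const S (1 / (n.factorial : ℂ)))
    have h2 : ‖(1 / (n.factorial : ℂ))‖ = 1 / (n.factorial : ℝ) := by
      rw [norm_div, norm_one, Complex.norm_natCast]
    rw [h2] at h1
    have h3 := mul_add ih h1
    simp only [Finset.sum_range_succ]
    simp only [mul_one_div] at h3
    exact h3

theorem mul_exp {S : Finset (ℤ × ℤ)} {β U : ℝ} (hU : 0 < U) {t₁ t₂ B : ℝ} (h12 : t₁ ≤ t₂)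
    (hS : ∀ k ∈ S, 0 < uu β k ∧ uu β k ≤ U ∧ t₁ ≤ tt β k ∧ tt β k ≤ t₂) {χ : ℝ → ℝ}
    (hχ : ∀ t ∈ Icc t₁ t₂, |χ t| ≤ B / U)
    (hL : ∀ x ∈ Icc t₁ t₂, ∀ y ∈ Icc t₁ t₂, |χ x - χ y| * (t₂ - t₁) ≤ B / U * |x - y|) :
    IsMul S (fun k => ee (uu β k * χ (tt β k))) (exp (1320 * B)) := by
  have hB : 0 ≤ B := by
    have h1 := (abs_nonneg _).trans (hχ t₁ ⟨le_rfl, h12⟩)
    have h2 := mul_nonneg h1 hU.le
    rwa [div_mul_cancel₀ _ hU.ne'] at h2
  -- the first factor
  have hb1 : IsMul S (fun k => ((uu β k / U : ℝ) : ℂ)) 14 := by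
    have h1 := mul_lip (S := S) (φ := uu β) (A := 14) (fun z => cut_u S β z) (m := fun x => ((x / U : ℝ) : ℂ)) (x₁ := 0) (x₂ := U)
      (L := 1 / U) (B := 0) hU.le (fun k hk => ⟨(hS k hk).1.le, (hS k hk).2.1⟩) (by simp) (by
        intro x _ y _
        rw [← Complex.ofReal_sub, Complex.norm_real, norm_eq_abs, ← sub_div, abs_div, abs_of_pos hU]
        apply le_of_eq
        ring)
    refine mul_weaken h1 ?_
    rw [sub_zero, one_div, inv_mul_cancel₀ hU.ne']
    norm_num
  -- the second factor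
  have hb2 : IsMul S (fun k => ((U * χ (tt β k) : ℝ) : ℂ)) (15 * B) := by
    have h1 := mul_lip (S := S) (φ := tt β) (A := 14) (fun z => cut_t (fun k hk => (hS k hk).1) z) (m := fun x => ((U * χ x : ℝ) : ℂ))
      (x₁ := t₁) (x₂ := t₂) (L := B / (t₂ - t₁)) (B := B) h12 (fun k hk => ⟨(hS k hk).2.2.1, (hS k hk).2.2.2⟩) (by
        rw [Complex.norm_real, norm_eq_abs, abs_mul, abs_of_pos hU]
        have h2 := mul_le_mul_of_nonneg_left (hχ t₁ ⟨le_rfl, h12⟩) hU.le
        rwa [mul_div_cancel₀ _ hU.ne'] at h2) (by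
        intro x hx y hy
        rw [← Complex.ofReal_sub, Complex.norm_real, norm_eq_abs, ← mul_sub, abs_mul, abs_of_pos hU]
        rcases h12.eq_or_lt with h3 | h3
        · have h4 : x = y := by
            have := hx.1; have := hx.2; have := hy.1; have := hy.2
            linarith
          rw [h4]
          simp
        · have h4 : 0 < t₂ - t₁ := by linarith
          rw [div_mul_eq_mul_div, le_div_iff₀ h4, mul_assoc]
          have h5 := mul_le_mul_of_nonneg_left (hL x hx y hy) hU.le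
          have h6 : U * (B / U * |x - y|) = B * |x - y| := by field_simp
          linarith)
    refine mul_weaken h1 ?_
    have h2 : B / (t₂ - t₁) * (t₂ - t₁) ≤ B := by
      rcases h12.eq_or_lt with h3 | h3
      · rw [h3]
        simpa using hB
      · rw [div_mul_cancel₀ _ (by linarith)]
    linarith
  -- the exponent
  have hw : IsMul S (fun k => (2 * π * Complex.I) * ((uu β k / U : ℝ) * (U * χ (tt β k) : ℝ))) (1320 * B) := by
    have h1 := mul_comp (mul_const S (2 * π * Complex.I)) (mul_comp hb1 hb2)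
    refine mul_weaken h1 ?_
    have h2 : ‖(2 * π * Complex.I : ℂ)‖ = 2 * π := by
      rw [norm_mul, norm_mul, Complex.norm_I, Complex.norm_real, norm_eq_abs, abs_of_pos pi_pos]
      norm_num
    rw [h2]
    have h3 := pi_lt_d4
    nlinarith
  refine mul_lim (fun n => mul_weaken (mul_psum64 hw n) (Real.sum_le_exp_of_nonneg (by positivity) n)) ?_
  intro k hk
  have h1 := (NormedSpace.expSeries_div_hasSum_exp ((2 * π * Complex.I) * (((uu β k / U : ℝ) : ℂ) * ((U * χ (tt β k) : ℝ) : ℂ)))).tendsto_sum_nat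
  rw [← Complex.exp_eq_exp_ℂ] at h1
  have h2 : ee (uu β k * χ (tt β k)) = Complex.exp ((2 * π * Complex.I) * (((uu β k / U : ℝ) : ℂ) * ((U * χ (tt β k) : ℝ) : ℂ))) := by
    unfold ee
    congr 1
    have h3 : ((U : ℝ) : ℂ) ≠ 0 := by exact_mod_cast hU.ne'
    push_cast
    field_simp
  rw [h2]
  exact h1

end Pool.Agent.Helper92.GC
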