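import Pool.Agent.Helper92.GC.G1
import Pool.Agent.Helper92.GC.R4

/-!
# GC-G2: local constancy

PROOF of `local_const`. `N = nn n`, `q² ≤ N ≤ 2q²`, `P = Q/A`, `P/2 < q ≤ P`, so `P²/4 ≤ N ≤ 2P²`; `β = bt n`, `γ = b - β`, `|γ| ≤ 1/(QA)`. For `p ∈ S`, `u = uu β p`, `t = tt β p`, `j = p.2 = t u`:
`uu b p = u + γ j = u (1 + γ t)` with `|γ t| ≤ 2/(Q A²) ≤ 1/4`, and by `lc_nk`
`R nk (lc n p) = R √N u + u R √N (√(1 + t²/N²) - 1)`, `R' ph b p = R' j²/(u (1 + γ t)) = u R' t²/(1 + γ t)`. The linear part is `R √N (h + β j) = dt p c₀`,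
`c₀ = (R √N, R √N β)`. So with `χ(t) = R √N (√(1 + t²/N²) - 1) - R' t²/(1 + γ t)` the identity holds with `b' p = ee (u χ(t))`, and `mul_exp` applies with
`U = 6 K A/Q`, `[t₁, t₂] = [-2/A, 2/A]`. It remains to bound `U |χ|` and `U (4/A) |χ(x) - χ(y)|/|x - y|` by a constant `B(C₀)`. Write `χ = χ₁ + χ₂ + χ₃`:
`χ₁ = R √N (√(1 + t²/N²) - 1 - t²/(2N²))`, `χ₂ = (R/(2 N^(3/2)) - R') t²`, `χ₃ = R' (t² - t²/(1 + γ t)) = R' γ t³/(1 + γ t)`.
`χ₂`: `|χ₂| ≤ (AQ/K)(4/A²)`, times `U`: `24`; difference: `|x² - y²| ≤ (4/A)|x - y|`, times `U (4/A)(AQ/K)`: `96`.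
`R' ≤ R/(2 N^(3/2)) + AQ/K ≤ 4R/P³ + AQ/K = 4 R A³/Q³ + AQ/K ≤ (4 + C₀) R A³/Q³` (`Q^4·Q ≤ C₀ R K Q`... : `A Q/K = (A/(Q³)) Q⁴/K ≤ (A/Q³) C₀ R` since `Q⁴ ≤ Q⁵ ≤ C₀ R K`),
also `|R'| ≤` the same. `χ₃`: `U |χ₃| ≤ 6 (KA/Q) (4 + C₀)(R A³/Q³) (1/(QA)) (8/A³)(4/3) ≤ 64 (4 + C₀) R K/Q⁵ ≤ 64 (4 + C₀) C₀`; difference: the derivative of `t³/(1 + γ t)` is at most
`3t²(4/3) + |t|³|γ|(16/9) ≤ C/A²`, same bound up to a constant.
`χ₁`: with `x = t²/N² ≤ 1`... `|√(1+x) - 1 - x/2| ≤ x²/8`, `|χ₁| ≤ R √N t⁴/(8 N⁴) ≤ R · 16 A^(-4)/(8 N^(7/2)) ≤ 2 R A^(-4) · 2^7/P^7`, times `U`: `≤ 1536 R K A^4/Q^8 ≤ 1536 C₀ A^4/Q^3 ≤ 1536 C₀`;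
derivative of `√(1 + t²/N²) - 1 - t²/(2N²)` is `(t/N²)(1/√(1 + x) - 1)`, at most `|t|³/(2N⁴)`: same bound up to a constant.
(`|f(x) - f(y)| ≤ sup|f'| |x - y|`: `Convex.norm_image_sub_le_of_norm_deriv_le` on the interval, or algebraically.)
PROOF of `weight_mul`. `K/nk = (K/(√N u)) · (1/√(1 + t²/N²))`: product of two multipliers by `mul_lip` (`cut_u`, `cut_t`): `m(u) = K/(√N u)` on `[KA/(2Q), 6KA/Q]`: at the left end
`K · 2Q/(√N K A) = 2P/√N ≤ 4`, Lipschitz constant `K/(√N u²) ≤ 4 · 2Q/(KA)`, times the length `≤ 48`. `m(t) = 1/√(1 + t²/N²)` on `[-2/A, 2/A]`: value `≤ 1`, Lipschitz constant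
`≤ |t|/N² ≤ 2`, times the length `4/A ≤ 4`. For `i = 2` use `mul_comp`.
-/

open MeasureTheory Real Set Filter Topology

set_option autoImplicit false

namespace Pool.Agent.Helper92.GC

open Pool.Agent.Helper22.AE
open Pool.Agent.Helper22.AC (n6 IsWt mu)

/-- the curvature parameter `R' = R / (2 |n|³)` -/
noncomputable def Rn (R : ℝ) (n : ℤ × ℤ) : ℝ := R / (2 * (nn n : ℝ) * √(nn n : ℝ))

private lemma good57 {P : ℝ} (hP : 0 < P) {n : ℤ × ℤ} (hn : Good P n) :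
    P ^ 2 / 4 ≤ (nn n : ℝ) ∧ 1 ≤ (nn n : ℝ) ∧ P / 2 ≤ √(nn n : ℝ) := by
  have h1 : (nn n : ℝ) = (n.1 : ℝ) ^ 2 + (n.2 : ℝ) ^ 2 := by
    unfold nn
    push_cast
    ring
  have h2 := hn.lo
  have h3 : P ^ 2 / 4 ≤ (nn n : ℝ) := by
    rw [h1]
    nlinarith [sq_nonneg (n.2 : ℝ)]
  refine ⟨h3, by exact_mod_cast nn_pos hn.cop, ?_⟩
  refine Real.le_sqrt_of_sq_le ?_
  calc (P / 2) ^ 2 = P ^ 2 / 4 := by ring
    _ ≤ _ := h3

/-- the quadratic part -/
private lemma sq57 {x y T : ℝ} (hx : |x| ≤ T) (hy : |y| ≤ T) : |x ^ 2 - y ^ 2| ≤ 2 * T * |x - y| := by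
  have h1 : x ^ 2 - y ^ 2 = (x + y) * (x - y) := by ring
  rw [h1, abs_mul]
  have h2 := abs_add_le x y
  exact mul_le_mul_of_nonneg_right (by linarith) (abs_nonneg _)

/-- the square root part -/
private noncomputable def g57 (N t : ℝ) : ℝ := √(1 + t ^ 2 / N ^ 2) - 1 - t ^ 2 / (2 * N ^ 2)

private lemma sqrt57 {x y T N : ℝ} (hN : 0 < N) (hx : |x| ≤ T) (hy : |y| ≤ T) :
    |g57 N x - g57 N y| ≤ T ^ 3 / (2 * N ^ 4) * |x - y| := by
  have hT : 0 ≤ T := (abs_nonneg x).trans hx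
  have hx2 : x ^ 2 ≤ T ^ 2 := sq_le_sq' (by linarith [(abs_le.1 hx).1]) (abs_le.1 hx).2
  have hy2 : y ^ 2 ≤ T ^ 2 := sq_le_sq' (by linarith [(abs_le.1 hy).1]) (abs_le.1 hy).2
  set s := x ^ 2 / N ^ 2 with hs
  set s' := y ^ 2 / N ^ 2 with hs'
  have hs0 : 0 ≤ s := by positivity
  have hs0' : 0 ≤ s' := by positivity
  set a := √(1 + s) with ha
  set b := √(1 + s') with hb
  have ha2 : a ^ 2 = 1 + s := Real.sq_sqrt (by linarith)
  have hb2 : b ^ 2 = 1 + s' := Real.sq_sqrt (by linarith)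
  have ha1 : 1 ≤ a := by
    rw [ha, Real.one_le_sqrt]
    linarith
  have hb1 : 1 ≤ b := by
    rw [hb, Real.one_le_sqrt]
    linarith
  have e1 : g57 N x - g57 N y = -((a - b) * ((a + b - 2) / 2)) := by
    have e2 : x ^ 2 / (2 * N ^ 2) = s / 2 := by
      rw [hs]
      field_simp
    have e3 : y ^ 2 / (2 * N ^ 2) = s' / 2 := by
      rw [hs']
      field_simp
    unfold g57
    rw [e2, e3]
    change a - 1 - s / 2 - (b - 1 - s' / 2) = _
    have e4 : s = a ^ 2 - 1 := by linarith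
    have e5 : s' = b ^ 2 - 1 := by linarith
    rw [e4, e5]
    ring
  have h1 : |a - b| ≤ |s - s'| / 2 := by
    have e2 : s - s' = (a - b) * (a + b) := by
      have e4 : s = a ^ 2 - 1 := by linarith
      have e5 : s' = b ^ 2 - 1 := by linarith
      rw [e4, e5]
      ring
    rw [e2, abs_mul, abs_of_pos (by linarith : 0 < a + b)]
    have := abs_nonneg (a - b)
    nlinarith
  have h2 : (a + b - 2) / 2 ≤ (s + s') / 4 := by nlinarith [sq_nonneg (a - 1), sq_nonneg (b - 1)]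
  have h3 : 0 ≤ (a + b - 2) / 2 := by linarith
  rw [e1, abs_neg, abs_mul, abs_of_nonneg h3]
  have h4 : |s - s'| ≤ 2 * T * |x - y| / N ^ 2 := by
    have e2 : s - s' = (x ^ 2 - y ^ 2) / N ^ 2 := by rw [hs, hs', sub_div]
    rw [e2, abs_div, abs_of_pos (by positivity : (0 : ℝ) < N ^ 2)]
    exact div_le_div_of_nonneg_right (sq57 hx hy) (by positivity)
  have h5 : s + s' ≤ 2 * T ^ 2 / N ^ 2 := by
    rw [hs, hs', ← add_div]
    exact div_le_div_of_nonneg_right (by linarith) (by positivity)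
  calc |a - b| * ((a + b - 2) / 2) ≤ (|s - s'| / 2) * ((s + s') / 4) :=
        mul_le_mul h1 h2 h3 (by positivity)
    _ ≤ (2 * T * |x - y| / N ^ 2 / 2) * (2 * T ^ 2 / N ^ 2 / 4) :=
        mul_le_mul (by linarith) (by linarith) (by linarith) (by positivity)
    _ = T ^ 3 / (2 * N ^ 4) * |x - y| := by
        field_simp
        ring

/-- the cubic part -/
private lemma cub57 {x y T γ : ℝ} (hx : |x| ≤ T) (hy : |y| ≤ T) (hgx : |γ * x| ≤ 1 / 4)
    (hgy : |γ * y| ≤ 1 / 4) :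
    |x ^ 3 / (1 + γ * x) - y ^ 3 / (1 + γ * y)| ≤ 25 / 4 * T ^ 2 * |x - y| := by
  have hT : 0 ≤ T := (abs_nonneg x).trans hx
  have h1 : 3 / 4 ≤ 1 + γ * x := by linarith [(abs_le.1 hgx).1]
  have h2 : 3 / 4 ≤ 1 + γ * y := by linarith [(abs_le.1 hgy).1]
  have e1 : x ^ 3 / (1 + γ * x) - y ^ 3 / (1 + γ * y) =
      ((x ^ 2 + x * y + y ^ 2 + (γ * x) * y * (x + y)) / ((1 + γ * x) * (1 + γ * y))) * (x - y) := by
    have h3 : 1 + γ * x ≠ 0 := by linarith
    have h4 : 1 + γ * y ≠ 0 := by linarith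
    rw [div_sub_div _ _ h3 h4, div_mul_eq_mul_div]
    congr 1
    ring
  rw [e1, abs_mul]
  refine mul_le_mul_of_nonneg_right ?_ (abs_nonneg _)
  rw [abs_div, abs_of_pos (by nlinarith : 0 < (1 + γ * x) * (1 + γ * y)),
    div_le_iff₀ (by nlinarith : 0 < (1 + γ * x) * (1 + γ * y))]
  have hxx : x ^ 2 ≤ T ^ 2 := sq_le_sq' (by linarith [(abs_le.1 hx).1]) (abs_le.1 hx).2
  have hyy : y ^ 2 ≤ T ^ 2 := sq_le_sq' (by linarith [(abs_le.1 hy).1]) (abs_le.1 hy).2
  have hxy : |x * y| ≤ T ^ 2 := by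
    rw [abs_mul, sq]
    exact mul_le_mul hx hy (abs_nonneg _) hT
  have h5 : |x + y| ≤ 2 * T := (abs_add_le x y).trans (by linarith)
  have h6 : |(γ * x) * y * (x + y)| ≤ 1 / 4 * T * (2 * T) := by
    rw [abs_mul, abs_mul (γ * x) y]
    exact mul_le_mul (mul_le_mul hgx hy (abs_nonneg _) (by norm_num)) h5 (abs_nonneg _) (by positivity)
  have h7 : |x ^ 2 + x * y + y ^ 2 + (γ * x) * y * (x + y)| ≤ 7 / 2 * T ^ 2 := by
    rw [abs_le] at hxy h6 ⊢
    constructor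
    · nlinarith [sq_nonneg x, sq_nonneg y]
    · nlinarith [sq_nonneg x, sq_nonneg y]
  have h8 : (9 : ℝ) / 16 ≤ (1 + γ * x) * (1 + γ * y) := by nlinarith
  have h9 : 25 / 4 * T ^ 2 * (9 / 16) ≤ 25 / 4 * T ^ 2 * ((1 + γ * x) * (1 + γ * y)) :=
    mul_le_mul_of_nonneg_left h8 (by positivity)
  nlinarith [sq_nonneg T]

theorem local_const (C₀ : ℝ) : ∃ C : ℝ, 0 < C ∧ ∀ (K Q : ℕ) (A R R' b : ℝ) (n : ℤ × ℤ), 1 ≤ K → 8 ≤ Q → 1 ≤ A →
    A ^ 4 ≤ (Q : ℝ) ^ 3 → 0 < R → R * K ≤ C₀ * (Q : ℝ) ^ 5 → (Q : ℝ) ^ 5 ≤ C₀ * (R * K) → Good (Q / A) n →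
    |Rn R n - R'| ≤ A * Q / K → |bt n - b| ≤ 1 / (Q * A) → ∀ S : Finset (ℤ × ℤ),
      (∀ p ∈ S, 0 < uu (bt n) p ∧ uu (bt n) p ≤ 6 * (K * A / Q) ∧ |tt (bt n) p| ≤ 2 / A) →
        ∃ c₀ : ℝ × ℝ, ∃ b' : ℤ × ℤ → ℂ, IsMul S b' C ∧
          ∀ p ∈ S, ee (R * nk (lc n p)) = ee (dt p c₀) * ee (R' * ph b p) * b' p := by
  refine ⟨exp (1320 * (12288 * C₀ + 96 + 600 * (4 + C₀) * C₀)), exp_pos _, ?_⟩
  intro K Q A R R' b n hK hQ hA hAQ hR h1 h2 hn hRR hbb S hS
  have hKr : (1 : ℝ) ≤ K := by exact_mod_cast hK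
  have hQr : (8 : ℝ) ≤ Q := by exact_mod_cast hQ
  have hK0 : (0 : ℝ) < K := by linarith
  have hQ0 : (0 : ℝ) < Q := by linarith
  have hA0 : 0 < A := by linarith
  have hC₀ : 0 < C₀ := by
    by_contra hcon
    push Not at hcon
    have h3 : C₀ * (Q : ℝ) ^ 5 ≤ 0 := mul_nonpos_of_nonpos_of_nonneg hcon (by positivity)
    have h4 : 0 < R * K := by positivity
    linarith
  have hP : 0 < (Q : ℝ) / A := by positivity
  obtain ⟨hN1, hN2, hN3⟩ := good57 hP hn
  set N : ℝ := (nn n : ℝ) with hNdef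
  set w : ℝ := √N with hw
  have hw0 : 0 < w := by
    have : 0 < (Q : ℝ) / A / 2 := by positivity
    linarith
  have hw2 : N = w ^ 2 := (Real.sq_sqrt (by linarith)).symm
  have hN0 : 0 < N := by linarith
  set β : ℝ := bt n with hβ
  set γ : ℝ := b - β with hγ
  have hγ1 : |γ| ≤ 1 / (Q * A) := by
    rw [hγ, abs_sub_comm]
    exact hbb
  have hγt : ∀ t : ℝ, |t| ≤ 2 / A → |γ * t| ≤ 1 / 4 := by
    intro t ht
    rw [abs_mul]
    calc |γ| * |t| ≤ 1 / (Q * A) * (2 / A) := mul_le_mul hγ1 ht (abs_nonneg _) (by positivity)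
      _ = 2 / (Q * A ^ 2) := by
          field_simp
      _ ≤ 1 / 4 := by
          rw [div_le_div_iff₀ (by positivity) (by norm_num)]
          have : (8 : ℝ) * 1 ≤ Q * A ^ 2 := mul_le_mul hQr (one_le_pow₀ hA) (by norm_num) (by positivity)
          linarith
  set χ : ℝ → ℝ := fun t => R * w * g57 N t + (Rn R n - R') * t ^ 2 + R' * γ * (t ^ 3 / (1 + γ * t)) with hχ
  have hRn : Rn R n = R / (2 * w ^ 3) := by
    unfold Rn
    rw [← hNdef, ← hw, hw2]
    congr 1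
    ring
  -- the size of the parameter
  have hQK : (Q : ℝ) / K ≤ C₀ * R / (Q : ℝ) ^ 4 := by
    rw [div_le_div_iff₀ hK0 (by positivity)]
    calc (Q : ℝ) * (Q : ℝ) ^ 4 = (Q : ℝ) ^ 5 := by ring
      _ ≤ C₀ * (R * K) := h2
      _ = C₀ * R * K := by ring
  have hRQ : R / (Q : ℝ) ^ 4 ≤ C₀ * Q / K := by
    rw [div_le_div_iff₀ (by positivity) hK0]
    calc R * K ≤ C₀ * (Q : ℝ) ^ 5 := h1
      _ = C₀ * Q * (Q : ℝ) ^ 4 := by ring
  have hR' : |R'| ≤ (4 + C₀) * (R * A ^ 3 / (Q : ℝ) ^ 3) := by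
    have h3 : Rn R n ≤ 4 * (R * A ^ 3 / (Q : ℝ) ^ 3) := by
      rw [hRn]
      have h4 : ((Q : ℝ) / A / 2) ^ 3 ≤ w ^ 3 := pow_le_pow_left₀ (by positivity) hN3 3
      calc R / (2 * w ^ 3) ≤ R / (2 * ((Q : ℝ) / A / 2) ^ 3) :=
            div_le_div_of_nonneg_left hR.le (by positivity) (by linarith)
        _ = 4 * (R * A ^ 3 / (Q : ℝ) ^ 3) := by
            field_simp
            ring
    have h4 : 0 < Rn R n := by
      rw [hRn]
      positivity
    have h5 : A * Q / K ≤ C₀ * (R * A ^ 3 / (Q : ℝ) ^ 3) := by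
      calc A * Q / K = A * ((Q : ℝ) / K) := by ring
        _ ≤ A * (C₀ * R / (Q : ℝ) ^ 4) := mul_le_mul_of_nonneg_left hQK hA0.le
        _ = C₀ * R / (Q : ℝ) ^ 3 * (A * (1 / Q)) := by
            field_simp
        _ ≤ C₀ * R / (Q : ℝ) ^ 3 * (A ^ 3 * 1) := by
            refine mul_le_mul_of_nonneg_left (mul_le_mul ?_ ?_ (by positivity) (by positivity)) (by positivity)
            · calc A = A ^ 1 := (pow_one A).symm
                _ ≤ A ^ 3 := pow_le_pow_right₀ hA (by norm_num)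
            · rw [div_le_one hQ0]
              linarith
        _ = C₀ * (R * A ^ 3 / (Q : ℝ) ^ 3) := by ring
    have h6 : |R'| ≤ |Rn R n| + |Rn R n - R'| := by
      have := abs_sub_abs_le_abs_sub R' (Rn R n)
      rw [abs_sub_comm R' (Rn R n)] at this
      linarith
    rw [abs_of_pos h4] at h6
    linarith
  -- the Lipschitz bound
  have hLip : ∀ x ∈ Icc (-(2 / A)) (2 / A), ∀ y ∈ Icc (-(2 / A)) (2 / A),
      |χ x - χ y| * (2 / A - -(2 / A)) ≤
        (12288 * C₀ + 96 + 600 * (4 + C₀) * C₀) / (6 * (K * A / Q)) * |x - y| := by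
    intro x hx y hy
    have hx' : |x| ≤ 2 / A := abs_le.2 hx
    have hy' : |y| ≤ 2 / A := abs_le.2 hy
    have k1 := sqrt57 hN0 hx' hy'
    have k2 := sq57 hx' hy'
    have k3 := cub57 hx' hy' (hγt x hx') (hγt y hy')
    have e1 : χ x - χ y = R * w * (g57 N x - g57 N y) + (Rn R n - R') * (x ^ 2 - y ^ 2) +
        R' * γ * (x ^ 3 / (1 + γ * x) - y ^ 3 / (1 + γ * y)) := by
      simp only [hχ]
      ring
    have hd : 0 ≤ |x - y| := abs_nonneg _
    have m1 : |R * w * (g57 N x - g57 N y)| ≤ R * w * ((2 / A) ^ 3 / (2 * N ^ 4)) * |x - y| := by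
      rw [abs_mul, abs_of_pos (by positivity : 0 < R * w), mul_assoc (R * w)]
      exact mul_le_mul_of_nonneg_left k1 (by positivity)
    have m2 : |(Rn R n - R') * (x ^ 2 - y ^ 2)| ≤ A * Q / K * (2 * (2 / A)) * |x - y| := by
      rw [abs_mul, mul_assoc (A * Q / K)]
      exact mul_le_mul hRR k2 (abs_nonneg _) (by positivity)
    have m3 : |R' * γ * (x ^ 3 / (1 + γ * x) - y ^ 3 / (1 + γ * y))| ≤
        (4 + C₀) * (R * A ^ 3 / (Q : ℝ) ^ 3) * (1 / (Q * A)) * (25 / 4 * (2 / A) ^ 2) * |x - y| := by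
      rw [abs_mul, abs_mul R' γ, mul_assoc _ _ |x - y|]
      exact mul_le_mul (mul_le_mul hR' hγ1 (abs_nonneg _) (by positivity)) k3 (abs_nonneg _) (by positivity)
    have n1 : R * w * ((2 / A) ^ 3 / (2 * N ^ 4)) * (4 / A) ≤ 2048 * C₀ * (Q / (K * A)) := by
      have h3 : ((Q : ℝ) / A / 2) ^ 7 ≤ w ^ 7 := pow_le_pow_left₀ (by positivity) hN3 7
      calc R * w * ((2 / A) ^ 3 / (2 * N ^ 4)) * (4 / A) = 16 * R / (A ^ 4 * w ^ 7) := by
            rw [hw2]
            field_simp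
            ring
        _ ≤ 16 * R / (A ^ 4 * ((Q : ℝ) / A / 2) ^ 7) :=
            div_le_div_of_nonneg_left (by positivity) (by positivity)
              (mul_le_mul_of_nonneg_left h3 (by positivity))
        _ = 2048 * (R / (Q : ℝ) ^ 4) * (A ^ 4 / (Q : ℝ) ^ 3) * (1 / A) := by
            field_simp
            ring
        _ ≤ 2048 * (C₀ * Q / K) * 1 * (1 / A) := by
            refine mul_le_mul_of_nonneg_right (mul_le_mul ?_ ?_ (by positivity) (by positivity)) (by positivity)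
            · linarith
            · rw [div_le_one (by positivity)]
              exact hAQ
        _ = 2048 * C₀ * (Q / (K * A)) := by
            field_simp
    have n2 : A * Q / K * (2 * (2 / A)) * (4 / A) = 16 * (Q / (K * A)) := by
      field_simp
      ring
    have n3 : (4 + C₀) * (R * A ^ 3 / (Q : ℝ) ^ 3) * (1 / (Q * A)) * (25 / 4 * (2 / A) ^ 2) * (4 / A) ≤
        100 * (4 + C₀) * C₀ * (Q / (K * A)) := by
      calc (4 + C₀) * (R * A ^ 3 / (Q : ℝ) ^ 3) * (1 / (Q * A)) * (25 / 4 * (2 / A) ^ 2) * (4 / A) =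
            100 * (4 + C₀) * (R / (Q : ℝ) ^ 4) * (1 / A) := by
              field_simp
              ring
        _ ≤ 100 * (4 + C₀) * (C₀ * Q / K) * (1 / A) :=
            mul_le_mul_of_nonneg_right (mul_le_mul_of_nonneg_left hRQ (by positivity)) (by positivity)
        _ = 100 * (4 + C₀) * C₀ * (Q / (K * A)) := by
            field_simp
    have hsum : |χ x - χ y| ≤ (R * w * ((2 / A) ^ 3 / (2 * N ^ 4)) + A * Q / K * (2 * (2 / A)) +
        (4 + C₀) * (R * A ^ 3 / (Q : ℝ) ^ 3) * (1 / (Q * A)) * (25 / 4 * (2 / A) ^ 2)) * |x - y| := by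
      rw [e1]
      have a1 := abs_add_le (R * w * (g57 N x - g57 N y) + (Rn R n - R') * (x ^ 2 - y ^ 2))
        (R' * γ * (x ^ 3 / (1 + γ * x) - y ^ 3 / (1 + γ * y)))
      have a2 := abs_add_le (R * w * (g57 N x - g57 N y)) ((Rn R n - R') * (x ^ 2 - y ^ 2))
      rw [add_mul, add_mul]
      linarith
    have e2 : 2 / A - -(2 / A) = 4 / A := by ring
    have e3 : (12288 * C₀ + 96 + 600 * (4 + C₀) * C₀) / (6 * (K * A / Q)) =
        2048 * C₀ * (Q / (K * A)) + 16 * (Q / (K * A)) + 100 * (4 + C₀) * C₀ * (Q / (K * A)) := by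
      field_simp
      ring
    rw [e2, e3]
    calc |χ x - χ y| * (4 / A) ≤ ((R * w * ((2 / A) ^ 3 / (2 * N ^ 4)) + A * Q / K * (2 * (2 / A)) +
        (4 + C₀) * (R * A ^ 3 / (Q : ℝ) ^ 3) * (1 / (Q * A)) * (25 / 4 * (2 / A) ^ 2)) * |x - y|) * (4 / A) :=
          mul_le_mul_of_nonneg_right hsum (by positivity)
      _ = (R * w * ((2 / A) ^ 3 / (2 * N ^ 4)) * (4 / A) + A * Q / K * (2 * (2 / A)) * (4 / A) +
        (4 + C₀) * (R * A ^ 3 / (Q : ℝ) ^ 3) * (1 / (Q * A)) * (25 / 4 * (2 / A) ^ 2) * (4 / A)) * |x - y| := by ring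
      _ ≤ _ := mul_le_mul_of_nonneg_right (by linarith) hd
  have hT0 : 0 < 2 / A := by positivity
  have hχ0 : χ 0 = 0 := by
    simp [hχ, g57]
  have hU : (0 : ℝ) < 6 * (K * A / Q) := by positivity
  have hB0 : 0 < 12288 * C₀ + 96 + 600 * (4 + C₀) * C₀ := by positivity
  have hmul := mul_exp (S := S) (β := β) (U := 6 * (K * A / Q)) hU (t₁ := -(2 / A)) (t₂ := 2 / A)
    (B := 12288 * C₀ + 96 + 600 * (4 + C₀) * C₀) (by linarith)
    (fun k hk => by
      obtain ⟨a1, a2, a3⟩ := hS k hk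
      rw [abs_le] at a3
      exact ⟨a1, a2, a3.1, a3.2⟩) (χ := χ)
    (fun t ht => by
      have h3 := hLip t ht 0 ⟨by linarith, hT0.le⟩
      rw [hχ0, sub_zero, sub_zero] at h3
      have h4 : |t| ≤ 2 / A := abs_le.2 ht
      have h5 : |χ t| * (2 / A - -(2 / A)) ≤
          (12288 * C₀ + 96 + 600 * (4 + C₀) * C₀) / (6 * (K * A / Q)) * (2 / A) :=
        h3.trans (mul_le_mul_of_nonneg_left h4 (by positivity))
      have h6 : |χ t| * (2 * (2 / A)) ≤
          (12288 * C₀ + 96 + 600 * (4 + C₀) * C₀) / (6 * (K * A / Q)) * (2 / A) := by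
        calc |χ t| * (2 * (2 / A)) = |χ t| * (2 / A - -(2 / A)) := by ring
          _ ≤ _ := h5
      have h7 : (|χ t| * 2) * (2 / A) ≤
          (12288 * C₀ + 96 + 600 * (4 + C₀) * C₀) / (6 * (K * A / Q)) * (2 / A) := by
        calc (|χ t| * 2) * (2 / A) = |χ t| * (2 * (2 / A)) := by ring
          _ ≤ _ := h6
      have h8 := le_of_mul_le_mul_right h7 hT0
      have h9 := abs_nonneg (χ t)
      linarith)
    hLip
  refine ⟨(R * w, R * w * β), fun p => ee (uu β p * χ (tt β p)), hmul, ?_⟩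
  intro p hp
  obtain ⟨a1, a2, a3⟩ := hS p hp
  set u := uu β p with hu
  set t := tt β p with ht
  have hj : (p.2 : ℝ) = t * u := by
    rw [ht]
    unfold tt
    rw [div_mul_cancel₀ _ a1.ne']
  have hg := hγt t a3
  have hg1 : 0 < 1 + γ * t := by linarith [(abs_le.1 hg).1]
  have hub : uu b p = u * (1 + γ * t) := by
    have e1 : uu b p = u + γ * (p.2 : ℝ) := by
      rw [hu, hγ]
      unfold uu
      ring
    rw [e1, hj]
    ring
  have e1 : dt p (R * w, R * w * β) = R * w * u := by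
    rw [hu]
    unfold dt uu
    ring
  have e2 : ph b p = u * t ^ 2 / (1 + γ * t) := by
    unfold ph
    rw [hub, hj]
    field_simp
  rw [← ee_add, ← ee_add]
  congr 1
  rw [lc_nk hn.cop a1, ← hNdef, ← hw, e1, e2]
  change R * (w * u * √(1 + t ^ 2 / N ^ 2)) = R * w * u + R' * (u * t ^ 2 / (1 + γ * t)) +
    u * (R * w * g57 N t + (Rn R n - R') * t ^ 2 + R' * γ * (t ^ 3 / (1 + γ * t)))
  have hD : t ^ 2 / (1 + γ * t) = t ^ 2 - γ * (t ^ 3 / (1 + γ * t)) := by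
    rw [eq_sub_iff_add_eq, ← mul_div_assoc, ← add_div, div_eq_iff hg1.ne']
    ring
  rw [mul_div_assoc u, hD, hRn]
  unfold g57
  rw [hw2]
  generalize √(1 + t ^ 2 / (w ^ 2) ^ 2) = r
  generalize t ^ 3 / (1 + γ * t) = z
  field_simp
  ring

theorem weight_mul : ∃ C : ℝ, 0 < C ∧ ∀ (K Q : ℕ) (A : ℝ) (n : ℤ × ℤ), 1 ≤ K → 8 ≤ Q → 1 ≤ A → Good (Q / A) n →
    ∀ S : Finset (ℤ × ℤ),
      (∀ p ∈ S, K * A / (2 * Q) ≤ uu (bt n) p ∧ uu (bt n) p ≤ 6 * (K * A / Q) ∧ |tt (bt n) p| ≤ 2 / A) →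
        ∀ i : ℕ, (i = 1 ∨ i = 2) → IsMul S (fun p => (((K : ℝ) / nk (lc n p) : ℝ) : ℂ) ^ i) C := by
  refine ⟨76388 * 76388, by norm_num, ?_⟩
  intro K Q A n hK hQ hA hn S hS i hi
  have hKr : (1 : ℝ) ≤ K := by exact_mod_cast hK
  have hQr : (8 : ℝ) ≤ Q := by exact_mod_cast hQ
  have hK0 : (0 : ℝ) < K := by linarith
  have hQ0 : (0 : ℝ) < Q := by linarith
  have hA0 : 0 < A := by linarith
  have hP : 0 < (Q : ℝ) / A := by positivity
  obtain ⟨hN1, hN2, hN3⟩ := good57 hP hn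
  set N : ℝ := (nn n : ℝ) with hNdef
  set w : ℝ := √N with hw
  have hw0 : 0 < w := by
    have : 0 < (Q : ℝ) / A / 2 := by positivity
    linarith
  have hN0 : 0 < N := by linarith
  have hx1 : 0 < (K : ℝ) * A / (2 * Q) := by positivity
  have hpos : ∀ p ∈ S, 0 < uu (bt n) p := fun p hp => lt_of_lt_of_le hx1 (hS p hp).1
  -- the factor of the first coordinate
  have b1 : IsMul S (fun p => (((K : ℝ) / (w * uu (bt n) p) : ℝ) : ℂ)) 676 := by
    have hB : (K : ℝ) / (w * (K * A / (2 * Q))) ≤ 4 := by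
      calc (K : ℝ) / (w * (K * A / (2 * Q))) ≤ K / ((Q / A / 2) * (K * A / (2 * Q))) :=
            div_le_div_of_nonneg_left hK0.le (by positivity)
              (mul_le_mul_of_nonneg_right hN3 hx1.le)
        _ = 4 := by
            field_simp
            norm_num
    have h1 := mul_lip (S := S) (φ := uu (bt n)) (A := 14) (fun z => cut_u S (bt n) z)
      (m := fun x => (((K : ℝ) / (w * x) : ℝ) : ℂ)) (x₁ := K * A / (2 * Q)) (x₂ := 6 * (K * A / Q))
      (L := 4 / (K * A / (2 * Q))) (B := 4)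
      (by
        have : 6 * ((K : ℝ) * A / Q) = 12 * (K * A / (2 * Q)) := by
          field_simp
          norm_num
        rw [this]
        linarith)
      (fun p hp => ⟨(hS p hp).1, (hS p hp).2.1⟩)
      (by
        rw [Complex.norm_real, norm_eq_abs, abs_of_pos (by positivity)]
        exact hB)
      (by
        intro x hx y hy
        have hx0 : 0 < x := lt_of_lt_of_le hx1 hx.1
        have hy0 : 0 < y := lt_of_lt_of_le hx1 hy.1
        rw [← Complex.ofReal_sub, Complex.norm_real, norm_eq_abs]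
        have e1 : (K : ℝ) / (w * x) - K / (w * y) = K / (w * x) * (1 / y) * (y - x) := by
          field_simp
        rw [e1, abs_mul, abs_of_pos (by positivity), abs_sub_comm y x]
        refine mul_le_mul_of_nonneg_right ?_ (abs_nonneg _)
        have h3 : (K : ℝ) / (w * x) ≤ 4 :=
          (div_le_div_of_nonneg_left hK0.le (by positivity)
            (mul_le_mul_of_nonneg_left hx.1 hw0.le)).trans hB
        have h4 : 1 / y ≤ 1 / (K * A / (2 * Q)) := one_div_le_one_div_of_le hx1 hy.1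
        calc (K : ℝ) / (w * x) * (1 / y) ≤ 4 * (1 / (K * A / (2 * Q))) :=
              mul_le_mul h3 h4 (by positivity) (by norm_num)
          _ = 4 / (K * A / (2 * Q)) := by ring)
    refine mul_weaken h1 ?_
    have h3 : 4 / ((K : ℝ) * A / (2 * Q)) * (6 * (K * A / Q) - K * A / (2 * Q)) = 44 := by
      field_simp
      norm_num
    rw [h3]
    norm_num
  -- the factor of the slope
  have b2 : IsMul S (fun p => (((1 : ℝ) / √(1 + tt (bt n) p ^ 2 / N ^ 2) : ℝ) : ℂ)) 113 := by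
    have h1 := mul_lip (S := S) (φ := tt (bt n)) (A := 14) (fun z => cut_t hpos z)
      (m := fun x => (((1 : ℝ) / √(1 + x ^ 2 / N ^ 2) : ℝ) : ℂ)) (x₁ := -(2 / A)) (x₂ := 2 / A)
      (L := 2) (B := 1)
      (by
        have : 0 < 2 / A := by positivity
        linarith)
      (fun p hp => abs_le.1 (hS p hp).2.2)
      (by
        rw [Complex.norm_real, norm_eq_abs, abs_of_nonneg (by positivity)]
        rw [div_le_one (by positivity)]
        rw [Real.one_le_sqrt]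
        have : 0 ≤ (-(2 / A)) ^ 2 / N ^ 2 := by positivity
        linarith)
      (by
        intro x hx y hy
        have hx' : |x| ≤ 2 / A := abs_le.2 hx
        have hy' : |y| ≤ 2 / A := abs_le.2 hy
        rw [← Complex.ofReal_sub, Complex.norm_real, norm_eq_abs]
        set s := x ^ 2 / N ^ 2 with hs
        set s' := y ^ 2 / N ^ 2 with hs'
        have hs0 : 0 ≤ s := by positivity
        have hs0' : 0 ≤ s' := by positivity
        set a := √(1 + s) with ha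
        set c := √(1 + s') with hc
        have ha2 : a ^ 2 = 1 + s := Real.sq_sqrt (by linarith)
        have hc2 : c ^ 2 = 1 + s' := Real.sq_sqrt (by linarith)
        have ha1 : 1 ≤ a := by
          rw [ha, Real.one_le_sqrt]
          linarith
        have hc1 : 1 ≤ c := by
          rw [hc, Real.one_le_sqrt]
          linarith
        have e1 : 1 / a - 1 / c = (c - a) / (a * c) := by
          field_simp
        rw [e1, abs_div, abs_of_pos (by positivity : 0 < a * c)]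
        have h3 : |c - a| / (a * c) ≤ |c - a| := by
          refine div_le_self (abs_nonneg _) ?_
          nlinarith
        refine h3.trans ?_
        have h4 : |c - a| * 2 ≤ |s' - s| := by
          have e2 : s' - s = (c - a) * (c + a) := by
            have e4 : s = a ^ 2 - 1 := by linarith
            have e5 : s' = c ^ 2 - 1 := by linarith
            rw [e4, e5]
            ring
          rw [e2, abs_mul, abs_of_pos (by linarith : 0 < c + a)]
          have := abs_nonneg (c - a)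
          nlinarith
        have h5 : |s' - s| ≤ 4 * |x - y| := by
          have e2 : s' - s = (y ^ 2 - x ^ 2) / N ^ 2 := by rw [hs, hs', sub_div]
          rw [e2, abs_div, abs_of_pos (by positivity : (0 : ℝ) < N ^ 2), abs_sub_comm]
          have h6 := sq57 hx' hy'
          have h7 : |x ^ 2 - y ^ 2| / N ^ 2 ≤ |x ^ 2 - y ^ 2| :=
            div_le_self (abs_nonneg _) (one_le_pow₀ hN2)
          have h8 : 2 / A ≤ 2 := div_le_self (by norm_num) hA
          have h9 := mul_le_mul_of_nonneg_right h8 (abs_nonneg (x - y))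
          linarith
        linarith)
    refine mul_weaken h1 ?_
    have h3 : 2 / A ≤ 2 := div_le_self (by norm_num) hA
    linarith
  have b3 := mul_comp b1 b2
  have b4 : IsMul S (fun p => (((K : ℝ) / nk (lc n p) : ℝ) : ℂ)) 76388 := by
    refine mul_weaken (mul_congr (fun p hp => ?_) b3) (by norm_num)
    rw [← Complex.ofReal_mul]
    congr 1
    rw [lc_nk hn.cop (hpos p hp), ← hNdef, ← hw]
    have h3 := hpos p hp
    have h4 : 0 < √(1 + tt (bt n) p ^ 2 / N ^ 2) := by positivity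
    field_simp
  rcases hi with hi | hi
  · subst hi
    simp only [pow_one]
    exact mul_weaken b4 (by norm_num)
  · subst hi
    simp only [pow_two]
    exact mul_comp b4 b4

end Pool.Agent.Helper92.GC
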