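import Pool.Agent.Helper92.GC.S4
import Pool.Agent.Helper92.GC.G2

/-!
# GC-G4: the sum over the vectors of a class

PROOF. For `x ∈ [0, 1]` put for `n` with `Good P n`: `m_x(n) = ⌊Rn R n/δ₁ - x⌋`, `r_x(n) = (m_x(n) + x) δ₁` (so `r_x(n) ≤ Rn R n < r_x(n) + δ₁`), and `b(n) = l(n) δ₂` with
`l(n) = ⌊bt n/δ₂⌋` if `bt n ≥ 0`, `l(n) = -⌊-bt n/δ₂⌋` if `bt n < 0` (so `|b(n)| ≤ |bt n| ≤ 1/2`, `|bt n - b(n)| < δ₂`, `b(n) ∈ bgrid δ₂`). Then `s(n)^6 ≤ G (r_x(n)) (b(n))`.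
Hölder: `(∑_W s)^6 ≤ (card W)^4 (∑_W s³)²` and `card W ≤ 3P²` (`good_card`). Group the vectors by the cell `g = (m_x, l)`, multiplicity `m_g`:
`∑_W s³ ≤ ∑_g m_g √(G g)`, so `(∑ s³)² ≤ (∑_g m_g²)(∑_g G g)` over the occupied cells. `∑_g m_g²` is the number of pairs `(n, m) ∈ W²` in the same cell; then
`|Rn R n - Rn R m| ≤ δ₁`, `|bt n - bt m| ≤ 2 δ₂ ≤ 1/P`, and with `N = nn n`, `M = nn m ∈ [P²/4, 2P²]` (`f(N) = R/(2 N^(3/2))` has `|f'| = (3/4) R N^(-5/2) ≥ (3/4) R (2P²)^(-5/2) ≥ R P^(-5)/8`):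
`|N - M| ≤ 8 P⁵ δ₁/R ≤ 8 C₀ P`; so `spacing (8 C₀)` gives `∑_g m_g² ≤ C P²`.
Occupied cells: `r_x = (m + x) δ₁ ∈ [R/(6P³) - δ₁, 4R/P³]` (`Rn R n ∈ [R/(6P³), 4R/P³]` since `N^(3/2) ≤ 2^(3/2) P³ ≤ 3P³`, `N^(3/2) ≥ P³/8`) and `b ∈ bgrid δ₂`. So for every `x`:
`(∑_W s)^6 ≤ 81 P^8 · C P² · ∑_{b ∈ bgrid δ₂} ∑_{m : (m+x) δ₁ ∈ I} G ((m+x) δ₁) b`, `I = [R/(6P³) - δ₁, 4R/P³ + δ₁]`. Integrate over `x ∈ [0,1]`:
`∫_0^1 ∑_m 1_I((m+x)δ₁) G((m+x) δ₁) dx = (1/δ₁) ∫_I G(r, b) dr` (the finitely many relevant intervals `[m δ₁, (m+1) δ₁]` tile the line).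
-/

open MeasureTheory Real Set Filter Topology

set_option autoImplicit false

namespace Pool.Agent.Helper92.GC

open Pool.Agent.Helper22.AE
open Pool.Agent.Helper22.AC (n6 IsWt mu)

/-- the grid of the parameter `β` -/
noncomputable def bgrid (δ : ℝ) : Finset ℝ :=
  (Finset.Icc (-⌊1 / (2 * δ)⌋) ⌊1 / (2 * δ)⌋).image (fun m : ℤ => (m : ℝ) * δ)

theorem bgrid_card {δ : ℝ} (hδ : 0 < δ) : ((bgrid δ).card : ℝ) ≤ 1 / δ + 1 := by
  have h1 : (bgrid δ).card ≤ (Finset.Icc (-⌊1 / (2 * δ)⌋) ⌊1 / (2 * δ)⌋).card := Finset.card_image_le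
  rw [Int.card_Icc] at h1
  have h0 : (0 : ℤ) ≤ ⌊1 / (2 * δ)⌋ := Int.floor_nonneg.2 (by positivity)
  have h2 : (((⌊1 / (2 * δ)⌋ + 1 - -⌊1 / (2 * δ)⌋).toNat : ℕ) : ℤ) = 2 * ⌊1 / (2 * δ)⌋ + 1 := by
    rw [Int.toNat_of_nonneg (by omega)]
    ring
  have h3 : ((bgrid δ).card : ℤ) ≤ 2 * ⌊1 / (2 * δ)⌋ + 1 := by
    rw [← h2]
    exact_mod_cast h1
  have h4 : ((bgrid δ).card : ℝ) ≤ 2 * (⌊1 / (2 * δ)⌋ : ℝ) + 1 := by exact_mod_cast h3
  have h5 := Int.floor_le (1 / (2 * δ))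
  have h6 : 2 * (1 / (2 * δ)) = 1 / δ := by
    field_simp
  linarith

theorem bgrid_le {δ : ℝ} (hδ : 0 < δ) {b : ℝ} (hb : b ∈ bgrid δ) : |b| ≤ 1 / 2 := by
  unfold bgrid at hb
  rw [Finset.mem_image] at hb
  obtain ⟨m, hm, rfl⟩ := hb
  rw [Finset.mem_Icc] at hm
  have h5 := Int.floor_le (1 / (2 * δ))
  have h1 : (m : ℝ) ≤ 1 / (2 * δ) := le_trans (by exact_mod_cast hm.2) h5
  have h2 : -(1 / (2 * δ)) ≤ (m : ℝ) := by
    have : (-(⌊1 / (2 * δ)⌋ : ℝ)) ≤ m := by exact_mod_cast hm.1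
    linarith
  have h3 : 1 / (2 * δ) * δ = 1 / 2 := by
    field_simp
  rw [abs_le]
  constructor
  · have := mul_le_mul_of_nonneg_right h2 hδ.le
    linarith
  · have := mul_le_mul_of_nonneg_right h1 hδ.le
    linarith

/-- the grid point below `x` in absolute value -/
private lemma grid57 {δ x : ℝ} (hδ : 0 < δ) (hx : |x| ≤ 1 / 2) : ∃ b ∈ bgrid δ, |x - b| ≤ δ := by
  have hfl : ⌊|x| / δ⌋ ≤ ⌊1 / (2 * δ)⌋ := by
    refine Int.floor_le_floor ?_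
    rw [div_le_div_iff₀ hδ (by positivity)]
    nlinarith
  have hf0 : 0 ≤ ⌊|x| / δ⌋ := Int.floor_nonneg.2 (by positivity)
  have h1 : (⌊|x| / δ⌋ : ℝ) * δ ≤ |x| := by
    have := mul_le_mul_of_nonneg_right (Int.floor_le (|x| / δ)) hδ.le
    rwa [div_mul_cancel₀ _ hδ.ne'] at this
  have h2 : |x| < ((⌊|x| / δ⌋ : ℝ) + 1) * δ := by
    have := mul_lt_mul_of_pos_right (Int.lt_floor_add_one (|x| / δ)) hδ
    rwa [div_mul_cancel₀ _ hδ.ne'] at this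
  rcases le_total 0 x with h | h
  · refine ⟨(⌊|x| / δ⌋ : ℝ) * δ, ?_, ?_⟩
    · unfold bgrid
      rw [Finset.mem_image]
      exact ⟨⌊|x| / δ⌋, Finset.mem_Icc.2 ⟨by omega, hfl⟩, rfl⟩
    · rw [abs_of_nonneg h] at h1 h2 ⊢
      rw [abs_le]
      constructor
      · linarith
      · linarith
  · refine ⟨((-⌊|x| / δ⌋ : ℤ) : ℝ) * δ, ?_, ?_⟩
    · unfold bgrid
      rw [Finset.mem_image]
      exact ⟨-⌊|x| / δ⌋, Finset.mem_Icc.2 ⟨by omega, by omega⟩, rfl⟩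
    · rw [abs_of_nonpos h] at h1 h2 ⊢
      push_cast
      rw [abs_le]
      constructor
      · linarith
      · linarith

/-- the size of `N` and `√N` -/
private lemma size57 {P : ℝ} (hP : 1 ≤ P) {n : ℤ × ℤ} (hn : Good P n) :
    ∃ w : ℝ, √(nn n : ℝ) = w ∧ (nn n : ℝ) = w ^ 2 ∧ P / 2 ≤ w ∧ w ^ 2 ≤ 2 * P ^ 2 ∧ w ^ 3 ≤ 3 * P ^ 3 := by
  have h1 : (nn n : ℝ) = (n.1 : ℝ) ^ 2 + (n.2 : ℝ) ^ 2 := by
    unfold nn
    push_cast
    ring
  have h2 := hn.lo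
  have h3 := hn.hi
  have h4 : (0 : ℝ) ≤ n.2 := by exact_mod_cast hn.nonneg
  have h5 : (n.2 : ℝ) ≤ n.1 := by exact_mod_cast hn.le
  have h6 : P ^ 2 / 4 ≤ (nn n : ℝ) := by
    rw [h1]
    nlinarith [sq_nonneg (n.2 : ℝ)]
  have h7 : (nn n : ℝ) ≤ 2 * P ^ 2 := by
    rw [h1]
    nlinarith
  have h8 : 0 ≤ (nn n : ℝ) := le_trans (by positivity) h6
  have hw0 : 0 ≤ √(nn n : ℝ) := Real.sqrt_nonneg _
  have hw2 : √(nn n : ℝ) ^ 2 = (nn n : ℝ) := Real.sq_sqrt h8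
  have hw1 : √(nn n : ℝ) ≤ 3 / 2 * P := by
    refine Real.sqrt_le_iff.2 ⟨by positivity, ?_⟩
    nlinarith
  refine ⟨√(nn n : ℝ), rfl, hw2.symm, ?_, by rw [hw2]; exact h7, ?_⟩
  · refine Real.le_sqrt_of_sq_le ?_
    calc (P / 2) ^ 2 = P ^ 2 / 4 := by ring
      _ ≤ _ := h6
  · calc √(nn n : ℝ) ^ 3 = √(nn n : ℝ) ^ 2 * √(nn n : ℝ) := by ring
      _ ≤ (2 * P ^ 2) * (3 / 2 * P) := mul_le_mul (by rw [hw2]; exact h7) hw1 hw0 (by positivity)
      _ = 3 * P ^ 3 := by ring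

private lemma Rn57 {R w : ℝ} {n : ℤ × ℤ} (h1 : √(nn n : ℝ) = w) (h2 : (nn n : ℝ) = w ^ 2) :
    Rn R n = R / (2 * w ^ 3) := by
  unfold Rn
  rw [h1, h2]
  congr 1
  ring

/-- the range of the curvature parameter -/
private lemma range57 {P R : ℝ} (hP : 1 ≤ P) (hR : 0 < R) {n : ℤ × ℤ} (hn : Good P n) :
    R / (6 * P ^ 3) ≤ Rn R n ∧ Rn R n ≤ 4 * R / P ^ 3 := by
  obtain ⟨w, h1, h2, h3, h4, h5⟩ := size57 hP hn
  rw [Rn57 h1 h2]
  have hw0 : 0 < w := by linarith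
  constructor
  · exact div_le_div_of_nonneg_left hR.le (by positivity) (by linarith)
  · have h6 : (P / 2) ^ 3 ≤ w ^ 3 := pow_le_pow_left₀ (by positivity) h3 3
    calc R / (2 * w ^ 3) ≤ R / (2 * (P / 2) ^ 3) :=
          div_le_div_of_nonneg_left hR.le (by positivity) (by linarith)
      _ = 4 * R / P ^ 3 := by
          field_simp
          norm_num

/-- close curvature parameters have close norms -/
private lemma close57 {P R δ C₀ : ℝ} (hP : 1 ≤ P) (hR : 0 < R) (hδ : δ * P ^ 4 ≤ C₀ * R)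
    {n m : ℤ × ℤ} (hn : Good P n) (hm : Good P m) (h : |Rn R n - Rn R m| ≤ δ) :
    |(nn n : ℝ) - nn m| ≤ 22 * C₀ * P := by
  obtain ⟨w, h1, h2, h3, h4, h5⟩ := size57 hP hn
  obtain ⟨v, k1, k2, k3, k4, k5⟩ := size57 hP hm
  rw [Rn57 h1 h2, Rn57 k1 k2] at h
  rw [h2, k2]
  have hw0 : 0 < w := by linarith
  have hv0 : 0 < v := by linarith
  have hδ0 : 0 ≤ δ := (abs_nonneg _).trans h
  have e1 : R / (2 * w ^ 3) - R / (2 * v ^ 3) = R / (2 * w ^ 3 * v ^ 3) * (v ^ 3 - w ^ 3) := by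
    field_simp
  rw [e1, abs_mul, abs_of_pos (by positivity : 0 < R / (2 * w ^ 3 * v ^ 3))] at h
  have h6 : w ^ 3 * v ^ 3 ≤ 8 * P ^ 6 := by
    have : w ^ 3 * v ^ 3 ≤ 8 * P ^ 6 := by
      have a1 : (w ^ 3 * v ^ 3) ^ 2 ≤ (8 * P ^ 6) ^ 2 := by
        calc (w ^ 3 * v ^ 3) ^ 2 = (w ^ 2) ^ 3 * (v ^ 2) ^ 3 := by ring
          _ ≤ (2 * P ^ 2) ^ 3 * (2 * P ^ 2) ^ 3 :=
              mul_le_mul (pow_le_pow_left₀ (by positivity) h4 3) (pow_le_pow_left₀ (by positivity) k4 3)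
                (by positivity) (by positivity)
          _ = (8 * P ^ 6) ^ 2 := by ring
      exact le_of_sq_le_sq a1 (by positivity)
    exact this
  have h7 : |v ^ 3 - w ^ 3| ≤ 16 * P ^ 6 * δ / R := by
    have a1 : R / (16 * P ^ 6) * |v ^ 3 - w ^ 3| ≤ δ := by
      refine le_trans (mul_le_mul_of_nonneg_right ?_ (abs_nonneg _)) h
      refine div_le_div_of_nonneg_left hR.le (by positivity) ?_
      linarith
    rw [div_mul_eq_mul_div, div_le_iff₀ (by positivity)] at a1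
    rw [le_div_iff₀ hR]
    linarith
  have h8 : |w ^ 2 - v ^ 2| * (3 / 4 * P) ≤ |v ^ 3 - w ^ 3| := by
    have e2 : w ^ 2 - v ^ 2 = (w + v) * (w - v) := by ring
    have e3 : v ^ 3 - w ^ 3 = -((w ^ 2 + w * v + v ^ 2) * (w - v)) := by ring
    rw [e2, e3, abs_neg, abs_mul, abs_mul, abs_of_pos (by positivity : 0 < w + v),
      abs_of_pos (by positivity : 0 < w ^ 2 + w * v + v ^ 2)]
    have h9 : (w + v) * (3 / 4 * P) ≤ w ^ 2 + w * v + v ^ 2 := by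
      have : P ≤ w + v := by linarith
      nlinarith [sq_nonneg (w - v)]
    have := mul_le_mul_of_nonneg_right h9 (abs_nonneg (w - v))
    linarith
  have h9 : |w ^ 2 - v ^ 2| * (3 / 4 * P) ≤ 22 * C₀ * P * (3 / 4 * P) := by
    refine h8.trans (h7.trans ?_)
    rw [div_le_iff₀ hR]
    have a1 : 16 * P ^ 6 * δ ≤ 16 * P ^ 2 * (C₀ * R) := by
      calc 16 * P ^ 6 * δ = 16 * P ^ 2 * (δ * P ^ 4) := by ring
        _ ≤ _ := mul_le_mul_of_nonneg_left hδ (by positivity)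
    have a2 : 0 ≤ C₀ * R := le_trans (by positivity) hδ
    nlinarith [mul_nonneg a2 (sq_nonneg P)]
  exact le_of_mul_le_mul_right h9 (by positivity)

private lemma holder57 {W : Finset (ℤ × ℤ)} {s : ℤ × ℤ → ℝ} (hs : ∀ n ∈ W, 0 ≤ s n) :
    (∑ n ∈ W, s n) ^ 6 ≤ (W.card : ℝ) ^ 4 * (∑ n ∈ W, s n ^ 3) ^ 2 := by
  rcases W.eq_empty_or_nonempty with h | h
  · subst h
    simp
  · have hc : (0 : ℝ) < W.card := by exact_mod_cast h.card_pos
    have h1 := pow_sum_div_card_le_sum_pow hs 2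
    rw [div_le_iff₀ (by positivity)] at h1
    have h2 : 0 ≤ ∑ n ∈ W, s n := Finset.sum_nonneg hs
    calc (∑ n ∈ W, s n) ^ 6 = ((∑ n ∈ W, s n) ^ (2 + 1)) ^ 2 := by ring
      _ ≤ ((∑ n ∈ W, s n ^ (2 + 1)) * (W.card : ℝ) ^ 2) ^ 2 :=
          pow_le_pow_left₀ (by positivity) h1 2
      _ = _ := by ring

/-- grouping by a key: if `s³ ≤ √H` of the key -/
private lemma group57 {K : Type*} [DecidableEq K] (W : Finset (ℤ × ℤ)) (key : ℤ × ℤ → K) {s : ℤ × ℤ → ℝ}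
    (hs : ∀ n ∈ W, 0 ≤ s n) {H : K → ℝ} (hH : ∀ n ∈ W, s n ^ 6 ≤ H (key n)) :
    (∑ n ∈ W, s n ^ 3) ^ 2 ≤ (((W ×ˢ W).filter (fun w => key w.1 = key w.2)).card : ℝ) *
      ∑ g ∈ W.image key, H g := by
  have hH0 : ∀ g ∈ W.image key, 0 ≤ H g := by
    intro g hg
    rw [Finset.mem_image] at hg
    obtain ⟨n, hn, rfl⟩ := hg
    have := hs n hn
    exact le_trans (by positivity) (hH n hn)
  have h1 : ∑ n ∈ W, s n ^ 3 ≤ ∑ g ∈ W.image key, ((W.filter (fun n => key n = g)).card : ℝ) * √(H g) := by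
    rw [← Finset.sum_fiberwise_of_maps_to (s := W) (t := W.image key) (g := key)
      (fun n hn => Finset.mem_image_of_mem key hn)]
    refine Finset.sum_le_sum fun g hg => ?_
    rw [← nsmul_eq_mul]
    refine Finset.sum_le_card_nsmul _ _ _ fun n hn => ?_
    rw [Finset.mem_filter] at hn
    have a1 := hH n hn.1
    rw [hn.2] at a1
    refine Real.le_sqrt_of_sq_le ?_
    calc (s n ^ 3) ^ 2 = s n ^ 6 := by ring
      _ ≤ _ := a1
  have h2 : 0 ≤ ∑ n ∈ W, s n ^ 3 := Finset.sum_nonneg fun n hn => by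
    have := hs n hn
    positivity
  have h3 := Finset.sum_mul_sq_le_sq_mul_sq (W.image key)
    (fun g => ((W.filter (fun n => key n = g)).card : ℝ)) (fun g => √(H g))
  have h4 : ∑ g ∈ W.image key, √(H g) ^ 2 = ∑ g ∈ W.image key, H g :=
    Finset.sum_congr rfl fun g hg => Real.sq_sqrt (hH0 g hg)
  have h5 : ∑ g ∈ W.image key, ((W.filter (fun n => key n = g)).card : ℝ) ^ 2 =
      (((W ×ˢ W).filter (fun w => key w.1 = key w.2)).card : ℝ) := by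
    rw [Finset.card_eq_sum_card_fiberwise (f := fun w : (ℤ × ℤ) × (ℤ × ℤ) => key w.1) (t := W.image key)]
    · push_cast
      refine Finset.sum_congr rfl fun g hg => ?_
      have e1 : (((W ×ˢ W).filter (fun w => key w.1 = key w.2)).filter (fun w => key w.1 = g)) =
          (W.filter (fun n => key n = g)) ×ˢ (W.filter (fun n => key n = g)) := by
        ext w
        simp only [Finset.mem_filter, Finset.mem_product]
        constructor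
        · rintro ⟨⟨⟨b1, b2⟩, b3⟩, b4⟩
          exact ⟨⟨b1, b4⟩, ⟨b2, by rw [← b3, b4]⟩⟩
        · rintro ⟨⟨b1, b2⟩, ⟨b3, b4⟩⟩
          exact ⟨⟨⟨b1, b3⟩, by rw [b2, b4]⟩, b2⟩
      rw [e1, Finset.card_product]
      push_cast
      ring
    · intro w hw
      rw [Finset.mem_coe, Finset.mem_filter, Finset.mem_product] at hw
      exact Finset.mem_image_of_mem key hw.1.1
  rw [h4, h5] at h3
  exact (pow_le_pow_left₀ h2 h1 2).trans h3

/-- the cells of the first coordinate -/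
private def cell57 (δ : ℝ) (m : ℤ) : Set ℝ := Ico ((m : ℝ) * δ) (((m : ℝ) + 1) * δ)

private lemma cellint57 {δ : ℝ} (hδ : 0 < δ) {f : ℝ → ℝ} (hf : Continuous f) {c : ℝ} (m : ℤ)
    (h : ∀ r ∈ cell57 δ m, c ≤ f r) : c ≤ 1 / δ * ∫ r in cell57 δ m, f r := by
  have hv : volume.real (cell57 δ m) = δ := by
    unfold cell57
    rw [Real.volume_real_Ico_of_le (by nlinarith)]
    ring
  have hint : IntegrableOn f (cell57 δ m) :=
    (hf.integrableOn_Icc (a := (m : ℝ) * δ) (b := ((m : ℝ) + 1) * δ)).mono_set Ico_subset_Icc_self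
  have h1 := setIntegral_ge_of_const_le_real (μ := volume) (s := cell57 δ m) measurableSet_Ico
    (by unfold cell57; rw [Real.volume_Ico]; exact ENNReal.ofReal_ne_top) h hint
  rw [hv] at h1
  rw [one_div, ← div_eq_inv_mul, le_div_iff₀ hδ]
  exact h1

private lemma cellsum57 {δ : ℝ} (hδ : 0 < δ) {f : ℝ → ℝ} (hf : Continuous f) (hf0 : ∀ r, 0 ≤ f r)
    {x y : ℝ} (T : Finset ℤ) (hT : ∀ m ∈ T, cell57 δ m ⊆ Icc x y) :
    ∑ m ∈ T, ∫ r in cell57 δ m, f r ≤ ∫ r in Icc x y, f r := by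
  rw [← integral_biUnion_finset T (s := cell57 δ) (fun m _ => measurableSet_Ico)]
  · refine setIntegral_mono_set hf.integrableOn_Icc ?_ ?_
    · exact Eventually.of_forall hf0
    · exact (iUnion₂_subset hT).eventuallyLE
  · intro m _ m' _ hmm
    change Disjoint (cell57 δ m) (cell57 δ m')
    rw [Set.disjoint_left]
    intro r hr hr'
    apply hmm
    unfold cell57 at hr hr'
    rw [mem_Ico] at hr hr'
    have h1 : (m : ℝ) < (m' : ℝ) + 1 := by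
      have := lt_of_le_of_lt hr.1 hr'.2
      exact lt_of_mul_lt_mul_right this hδ.le
    have h2 : (m' : ℝ) < (m : ℝ) + 1 := by
      have := lt_of_le_of_lt hr'.1 hr.2
      exact lt_of_mul_lt_mul_right this hδ.le
    have h3 : m < m' + 1 := by exact_mod_cast h1
    have h4 : m' < m + 1 := by exact_mod_cast h2
    omega
  · intro m _
    exact (hf.integrableOn_Icc (a := (m : ℝ) * δ) (b := ((m : ℝ) + 1) * δ)).mono_set Ico_subset_Icc_self

theorem class_sum (C₀ : ℝ) : ∃ C : ℝ, 0 < C ∧ ∀ P R δ₁ δ₂ : ℝ, 1 ≤ P → 0 < R → 0 < δ₁ → 0 < δ₂ → δ₁ * P ^ 4 ≤ C₀ * R →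
    2 * δ₂ ≤ 1 / P → ∀ G : ℝ → ℝ → ℝ, (∀ b, Continuous (fun r => G r b)) → (∀ r b, 0 ≤ G r b) →
      ∀ s : ℤ × ℤ → ℝ, (∀ n, Good P n → 0 ≤ s n) →
        (∀ n, Good P n → ∀ r b, |Rn R n - r| ≤ δ₁ → |bt n - b| ≤ δ₂ → |b| ≤ 1 / 2 → s n ^ 6 ≤ G r b) →
          ∀ W : Finset (ℤ × ℤ), (∀ n ∈ W, Good P n) →
            (∑ n ∈ W, s n) ^ 6 ≤ C * P ^ 10 *
              ∑ b ∈ bgrid δ₂, 1 / δ₁ * ∫ r in Icc (R / (6 * P ^ 3) - δ₁) (4 * R / P ^ 3 + δ₁), G r b := by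
  classical
  obtain ⟨C₂, hC₂, hsp⟩ := spacing (22 * C₀)
  refine ⟨81 * C₂, by positivity, ?_⟩
  intro P R δ₁ δ₂ hP hR hδ₁ hδ₂ hδC hδP G hG hG0 s hs hsG W hW
  have hb : ∀ n : ℤ × ℤ, ∃ b : ℝ, Good P n → b ∈ bgrid δ₂ ∧ |bt n - b| ≤ δ₂ := by
    intro n
    by_cases h : Good P n
    · obtain ⟨b, h1, h2⟩ := grid57 hδ₂ (bt_le h.cop)
      exact ⟨b, fun _ => ⟨h1, h2⟩⟩
    · exact ⟨0, fun h' => absurd h' h⟩
  choose bb hbb using hb
  set key : ℤ × ℤ → ℤ × ℝ := fun n => (⌊Rn R n / δ₁⌋, bb n) with hkey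
  set H : ℤ × ℝ → ℝ := fun g => 1 / δ₁ * ∫ r in cell57 δ₁ g.1, G r g.2 with hHdef
  have hcell : ∀ n, Rn R n ∈ cell57 δ₁ ⌊Rn R n / δ₁⌋ := by
    intro n
    unfold cell57
    rw [mem_Ico]
    constructor
    · have := mul_le_mul_of_nonneg_right (Int.floor_le (Rn R n / δ₁)) hδ₁.le
      rwa [div_mul_cancel₀ _ hδ₁.ne'] at this
    · have := mul_lt_mul_of_pos_right (Int.lt_floor_add_one (Rn R n / δ₁)) hδ₁
      rwa [div_mul_cancel₀ _ hδ₁.ne'] at this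
  have hdist : ∀ (m : ℤ) (r r' : ℝ), r ∈ cell57 δ₁ m → r' ∈ cell57 δ₁ m → |r - r'| ≤ δ₁ := by
    intro m r r' hr hr'
    unfold cell57 at hr hr'
    rw [mem_Ico] at hr hr'
    rw [abs_le]
    constructor
    · linarith
    · linarith
  have hH : ∀ n ∈ W, s n ^ 6 ≤ H (key n) := by
    intro n hn
    have hg := hW n hn
    obtain ⟨h1, h2⟩ := hbb n hg
    refine cellint57 hδ₁ (hG (bb n)) _ fun r hr => ?_
    exact hsG n hg r (bb n) (hdist _ _ _ (hcell n) hr) h2 (bgrid_le hδ₂ h1)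
  have hs' : ∀ n ∈ W, 0 ≤ s n := fun n hn => hs n (hW n hn)
  -- the number of pairs in the same cell
  have hV : (((W ×ˢ W).filter (fun w => key w.1 = key w.2)).card : ℝ) ≤ C₂ * P ^ 2 := by
    refine hsp P hP _ fun w hw => ?_
    rw [Finset.mem_filter, Finset.mem_product] at hw
    obtain ⟨⟨h1, h2⟩, h3⟩ := hw
    have g1 := hW _ h1
    have g2 := hW _ h2
    have e1 : ⌊Rn R w.1 / δ₁⌋ = ⌊Rn R w.2 / δ₁⌋ := congrArg Prod.fst h3
    have e2 : bb w.1 = bb w.2 := congrArg Prod.snd h3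
    refine ⟨g1, g2, ?_, ?_⟩
    · refine close57 hP hR hδC g1 g2 ?_
      refine hdist _ _ _ (hcell w.1) ?_
      rw [e1]
      exact hcell w.2
    · have a1 := (hbb w.1 g1).2
      have a2 := (hbb w.2 g2).2
      rw [e2] at a1
      have a3 : bt w.1 - bt w.2 = (bt w.1 - bb w.2) - (bt w.2 - bb w.2) := by ring
      rw [a3]
      refine (abs_sub _ _).trans ?_
      linarith
  -- the sum over the occupied cells
  have hsumH : ∑ g ∈ W.image key, H g ≤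
      ∑ b ∈ bgrid δ₂, 1 / δ₁ * ∫ r in Icc (R / (6 * P ^ 3) - δ₁) (4 * R / P ^ 3 + δ₁), G r b := by
    rw [← Finset.sum_fiberwise_of_maps_to (s := W.image key) (t := bgrid δ₂) (g := Prod.snd)
      (fun g hg => by
        rw [Finset.mem_image] at hg
        obtain ⟨n, hn, rfl⟩ := hg
        exact (hbb n (hW n hn)).1)]
    refine Finset.sum_le_sum fun b hb => ?_
    have e1 : ∑ g ∈ (W.image key).filter (fun g => g.2 = b), H g =
        1 / δ₁ * ∑ m ∈ ((W.image key).filter (fun g => g.2 = b)).image Prod.fst,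
          ∫ r in cell57 δ₁ m, G r b := by
      rw [Finset.mul_sum, Finset.sum_image]
      · refine Finset.sum_congr rfl fun g hg => ?_
        rw [Finset.mem_filter] at hg
        simp only [hHdef, hg.2]
      · intro g hg g' hg' hgg
        rw [Finset.mem_coe, Finset.mem_filter] at hg hg'
        exact Prod.ext hgg (by rw [hg.2, hg'.2])
    rw [e1]
    refine mul_le_mul_of_nonneg_left ?_ (by positivity)
    refine cellsum57 hδ₁ (hG b) (fun r => hG0 r b) _ fun m hm => ?_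
    rw [Finset.mem_image] at hm
    obtain ⟨g, hg, rfl⟩ := hm
    rw [Finset.mem_filter, Finset.mem_image] at hg
    obtain ⟨⟨n, hn, rfl⟩, -⟩ := hg
    intro r hr
    have a1 := hdist _ _ _ (hcell n) hr
    have a2 := range57 hP hR (hW n hn)
    rw [abs_le] at a1
    exact ⟨by linarith, by linarith⟩
  have hcard := good_card hP W hW
  have h1 := holder57 hs'
  have h2 := group57 W key hs' hH
  have hH0 : 0 ≤ ∑ g ∈ W.image key, H g := by
    refine Finset.sum_nonneg fun g hg => ?_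
    rw [Finset.mem_image] at hg
    obtain ⟨n, hn, rfl⟩ := hg
    have := hs' n hn
    exact le_trans (by positivity) (hH n hn)
  calc (∑ n ∈ W, s n) ^ 6 ≤ (W.card : ℝ) ^ 4 * (∑ n ∈ W, s n ^ 3) ^ 2 := h1
    _ ≤ (3 * P ^ 2) ^ 4 * ((C₂ * P ^ 2) *
        ∑ b ∈ bgrid δ₂, 1 / δ₁ * ∫ r in Icc (R / (6 * P ^ 3) - δ₁) (4 * R / P ^ 3 + δ₁), G r b) := by
        refine mul_le_mul (pow_le_pow_left₀ (by positivity) hcard 4) ?_ (by positivity) (by positivity)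
        refine h2.trans ?_
        exact mul_le_mul hV hsumH hH0 (by positivity)
    _ = _ := by ring

end Pool.Agent.Helper92.GC
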