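import Pool.Agent.Helper92.GC.R0

/-!
# GC-Q3: pairs of almost parallel frequencies

PROOF. All `k ∈ reg β H` satisfy `0 < |k|`, `H/8 ≤ |k| := max |k.1| |k.2| ≤ 41 H`: `u = k.1 + β k.2 ≥ H/4` gives `|k.1| + |k.2|/2 ≥ H/4`, so `|k| ≥ H/8`. Let `g = gcd(k.1, k.2) ≥ 1`, `k = g k₀`, `k₀` primitive,
`|k₀| ≥ H/(8g)`. For fixed `k` the integer `dd k k'` is a multiple of `g`, so it takes at most `2T/g + 1` values; for a given value the `k'` differ by multiples of `k₀`, and lie in the box `|k'| ≤ 41H`, so their number is at most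
`1 + 82H/|k₀| ≤ 1 + 656 g ≤ 657 g`. So for fixed `k` at most `(2T/g + 1) 657 g ≤ 1314 g (T + 1)`. Finally `∑_{k ∈ reg} gcd(k.1, k.2) ≤ ∑_{g ≤ 41H} g #{k in the box |k| ≤ 41H, g | k, k ≠ 0} ≤ ∑_g g (83H/g + 1)² ≤ C H² (1 + log H)`
(for `g ≤ 41 H`: `83H/g + 1 ≤ 85·H/g·2`).
-/

open MeasureTheory Real Set Filter Topology

set_option autoImplicit false

namespace Pool.Agent.Helper92.GC

open Pool.Agent.Helper22.AE
open Pool.Agent.Helper22.AC (n6 IsWt mu)

/-- integers of an interval in one residue class -/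
private lemma q3_res {a : ℤ} (ha : a ≠ 0) {B : ℕ} {S : Finset ℤ} (hS : ∀ x ∈ S, -(B : ℤ) ≤ x ∧ x ≤ B)
    (hd : ∀ x ∈ S, ∀ y ∈ S, a ∣ x - y) : (S.card : ℝ) ≤ 2 * B / |(a : ℝ)| + 2 := by
  obtain ⟨m, hm⟩ : ∃ m : ℤ, m = |a| := ⟨_, rfl⟩
  have hm0 : 0 < m := by rw [hm]; exact abs_pos.2 ha
  have hmr : |(a : ℝ)| = (m : ℝ) := by rw [hm, Int.cast_abs]
  have hmr0 : (0 : ℝ) < m := by exact_mod_cast hm0
  have h1 : S.card ≤ (Finset.Icc ((-(B : ℤ)) / m) ((B : ℤ) / m)).card := by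
    refine Finset.card_le_card_of_injOn (fun x => x / m) ?_ ?_
    · intro x hx
      have h2 := hS x hx
      rw [Finset.mem_coe, Finset.mem_Icc]
      exact ⟨Int.ediv_le_ediv hm0 h2.1, Int.ediv_le_ediv hm0 h2.2⟩
    · intro x hx y hy hxy
      have h2 : m ∣ x - y := by
        rw [hm, abs_dvd]
        exact hd x hx y hy
      have h3 : x / m = y / m := hxy
      have h5 : x % m = y % m :=
        Int.emod_eq_emod_iff_emod_sub_eq_zero.2 (Int.emod_eq_zero_of_dvd h2)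
      rw [← Int.mul_ediv_add_emod x m, ← Int.mul_ediv_add_emod y m, h3, h5]
  rw [Int.card_Icc] at h1
  have h6 : ((-(B : ℤ)) / m) ≤ 0 := Int.ediv_nonpos_of_nonpos_of_neg (by omega) hm0
  have h7 : 0 ≤ ((B : ℤ)) / m := Int.ediv_nonneg (by omega) hm0.le
  have h8 : ((B : ℤ) / m) * m ≤ B := Int.ediv_mul_le _ hm0.ne'
  have h9 : -(B : ℤ) < ((-(B : ℤ)) / m + 1) * m := Int.lt_ediv_add_one_mul_self _ hm0
  have h10 : (S.card : ℤ) ≤ (B : ℤ) / m + 1 - (-(B : ℤ)) / m := by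
    have h11 : (((B : ℤ) / m + 1 - (-(B : ℤ)) / m).toNat : ℤ) = (B : ℤ) / m + 1 - (-(B : ℤ)) / m :=
      Int.toNat_of_nonneg (by omega)
    rw [← h11]
    exact_mod_cast h1
  have h12 : (S.card : ℝ) ≤ (((B : ℤ) / m : ℤ) : ℝ) + 1 - (((-(B : ℤ)) / m : ℤ) : ℝ) := by
    exact_mod_cast h10
  have h13 : (((B : ℤ) / m : ℤ) : ℝ) ≤ B / m := by
    rw [le_div_iff₀ hmr0]
    exact_mod_cast h8
  have h14 : -((B : ℝ) / m) ≤ (((-(B : ℤ)) / m : ℤ) : ℝ) + 1 := by
    rw [← neg_div, div_le_iff₀ hmr0]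
    exact_mod_cast h9.le
  rw [hmr]
  have h15 : 2 * (B : ℝ) / m = B / m + B / m := by ring
  rw [h15]
  linarith

/-- lattice points of a box on a line -/
private lemma q3_line {a b e : ℤ} (h : IsCoprime a b) (ha : a ≠ 0) (B : ℕ) :
    (((box B).filter (fun k : ℤ × ℤ => a * k.2 - b * k.1 = e)).card : ℝ) ≤ 2 * B / |(a : ℝ)| + 2 := by
  classical
  set F := (box B).filter (fun k : ℤ × ℤ => a * k.2 - b * k.1 = e) with hF
  have h1 : (F.image Prod.fst).card = F.card := by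
    refine Finset.card_image_of_injOn ?_
    intro k hk l hl hkl
    rw [Finset.mem_coe, hF, Finset.mem_filter] at hk hl
    have h2 : k.1 = l.1 := hkl
    have h3 : a * k.2 = a * l.2 := by
      have h4 := hk.2
      have h5 := hl.2
      rw [h2] at h4
      linarith
    exact Prod.ext h2 (mul_left_cancel₀ ha h3)
  rw [← h1]
  refine q3_res ha ?_ ?_
  · intro x hx
    obtain ⟨k, hk, rfl⟩ := Finset.mem_image.1 hx
    rw [hF, Finset.mem_filter, box, Finset.mem_product, Finset.mem_Icc] at hk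
    exact hk.1.1
  · intro x hx y hy
    obtain ⟨k, hk, rfl⟩ := Finset.mem_image.1 hx
    obtain ⟨l, hl, rfl⟩ := Finset.mem_image.1 hy
    rw [hF, Finset.mem_filter] at hk hl
    refine h.dvd_of_dvd_mul_left ?_
    exact ⟨k.2 - l.2, by linarith [hk.2, hl.2]⟩

private lemma q3_line' {a b e : ℤ} (h : IsCoprime a b) (hb : b ≠ 0) (B : ℕ) :
    (((box B).filter (fun k : ℤ × ℤ => a * k.2 - b * k.1 = e)).card : ℝ) ≤ 2 * B / |(b : ℝ)| + 2 := by
  classical
  set F := (box B).filter (fun k : ℤ × ℤ => a * k.2 - b * k.1 = e) with hF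
  have h1 : (F.image Prod.snd).card = F.card := by
    refine Finset.card_image_of_injOn ?_
    intro k hk l hl hkl
    rw [Finset.mem_coe, hF, Finset.mem_filter] at hk hl
    have h2 : k.2 = l.2 := hkl
    have h3 : b * k.1 = b * l.1 := by
      have h4 := hk.2
      have h5 := hl.2
      rw [h2] at h4
      linarith
    exact Prod.ext (mul_left_cancel₀ hb h3) h2
  rw [← h1]
  refine q3_res hb ?_ ?_
  · intro x hx
    obtain ⟨k, hk, rfl⟩ := Finset.mem_image.1 hx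
    rw [hF, Finset.mem_filter, box, Finset.mem_product, Finset.mem_Icc, Finset.mem_Icc] at hk
    exact hk.1.2
  · intro x hx y hy
    obtain ⟨k, hk, rfl⟩ := Finset.mem_image.1 hx
    obtain ⟨l, hl, rfl⟩ := Finset.mem_image.1 hy
    rw [hF, Finset.mem_filter] at hk hl
    refine h.symm.dvd_of_dvd_mul_left ?_
    exact ⟨k.1 - l.1, by linarith [hk.2, hl.2]⟩

/-- the partners of a fixed vector -/
private lemma q3_row {H T : ℝ} (hH : 1 ≤ H) (hT : 0 ≤ T) {B : ℕ} (hB : (B : ℝ) ≤ 41 * H) {k : ℤ × ℤ}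
    (hk : H / 8 ≤ |(k.1 : ℝ)| ∨ H / 8 ≤ |(k.2 : ℝ)|) :
    (((box B).filter (fun l : ℤ × ℤ => |((dd k l : ℤ) : ℝ)| ≤ T)).card : ℝ) ≤
      1316 * (Int.gcd k.1 k.2 : ℝ) * (T + 1) := by
  classical
  have hg0 : 0 < Int.gcd k.1 k.2 := by
    rw [Int.gcd_pos_iff]
    rcases hk with h | h
    · left
      intro h0
      rw [h0, Int.cast_zero, abs_zero] at h
      linarith
    · right
      intro h0
      rw [h0, Int.cast_zero, abs_zero] at h
      linarith
  obtain ⟨g, hg⟩ : ∃ g : ℕ, g = Int.gcd k.1 k.2 := ⟨_, rfl⟩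
  rw [← hg] at hg0 ⊢
  have hgr : (1 : ℝ) ≤ g := by exact_mod_cast hg0
  obtain ⟨a, ha⟩ : ∃ a : ℤ, a = k.1 / g := ⟨_, rfl⟩
  obtain ⟨b, hb⟩ : ∃ b : ℤ, b = k.2 / g := ⟨_, rfl⟩
  have hga : (g : ℤ) ∣ k.1 := by rw [hg]; exact Int.gcd_dvd_left ..
  have hgb : (g : ℤ) ∣ k.2 := by rw [hg]; exact Int.gcd_dvd_right ..
  have hka : k.1 = g * a := by rw [ha, Int.mul_ediv_cancel' hga]
  have hkb : k.2 = g * b := by rw [hb, Int.mul_ediv_cancel' hgb]
  have hcop : IsCoprime a b := by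
    rw [ha, hb, hg]
    refine Int.isCoprime_iff_gcd_eq_one.2 ?_
    exact Int.gcd_div_gcd_div_gcd (by rw [← hg]; exact hg0)
  -- fibres
  have hfib : ∀ e : ℤ, (((box B).filter (fun l : ℤ × ℤ => a * l.2 - b * l.1 = e)).card : ℝ) ≤
      658 * g := by
    intro e
    have key : ∀ c : ℤ, H / 8 ≤ (g : ℝ) * |(c : ℝ)| → c ≠ 0 ∧ 2 * (B : ℝ) / |(c : ℝ)| + 2 ≤ 658 * g := by
      intro c hc
      have hc0 : 0 < |(c : ℝ)| := by
        by_contra h0
        have h1 : |(c : ℝ)| = 0 := le_antisymm (not_lt.1 h0) (abs_nonneg _)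
        rw [h1, mul_zero] at hc
        linarith
      refine ⟨by intro h0; rw [h0, Int.cast_zero, abs_zero] at hc0; exact lt_irrefl _ hc0, ?_⟩
      have h1 : 2 * (B : ℝ) / |(c : ℝ)| ≤ 656 * g := by
        rw [div_le_iff₀ hc0]
        nlinarith
      linarith
    rcases hk with h | h
    · have h1 : |(k.1 : ℝ)| = g * |(a : ℝ)| := by
        rw [hka, Int.cast_mul, abs_mul, Int.cast_natCast, Nat.abs_cast]
      rw [h1] at h
      obtain ⟨h2, h3⟩ := key a h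
      exact (q3_line hcop h2 B).trans h3
    · have h1 : |(k.2 : ℝ)| = g * |(b : ℝ)| := by
        rw [hkb, Int.cast_mul, abs_mul, Int.cast_natCast, Nat.abs_cast]
      rw [h1] at h
      obtain ⟨h2, h3⟩ := key b h
      exact (q3_line' hcop h2 B).trans h3
  obtain ⟨n, hn⟩ : ∃ n : ℕ, n = ⌊T / g⌋₊ := ⟨_, rfl⟩
  have hnT : (n : ℝ) ≤ T / g := by rw [hn]; exact Nat.floor_le (by positivity)
  have hmaps : ∀ l ∈ (box B).filter (fun l : ℤ × ℤ => |((dd k l : ℤ) : ℝ)| ≤ T),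
      a * l.2 - b * l.1 ∈ Finset.Icc (-(n : ℤ)) n := by
    intro l hl
    have h1 := (Finset.mem_filter.1 hl).2
    have h2 : dd k l = g * (a * l.2 - b * l.1) := by
      rw [dd, hka, hkb]; ring
    rw [h2, Int.cast_mul, abs_mul, Int.cast_natCast, Nat.abs_cast, ← le_div_iff₀' (by linarith)] at h1
    have h3 : ((a * l.2 - b * l.1).natAbs : ℝ) ≤ T / g := by
      rw [Nat.cast_natAbs, Int.cast_abs]
      exact h1
    have h4 : (a * l.2 - b * l.1).natAbs ≤ n := by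
      rw [hn]
      exact Nat.le_floor h3
    rw [Finset.mem_Icc]
    omega
  rw [Finset.card_eq_sum_card_fiberwise (f := fun l : ℤ × ℤ => a * l.2 - b * l.1)
    (t := Finset.Icc (-(n : ℤ)) n) hmaps, Nat.cast_sum]
  have h5 : ∀ e ∈ Finset.Icc (-(n : ℤ)) (n : ℤ),
      (((((box B).filter (fun l : ℤ × ℤ => |((dd k l : ℤ) : ℝ)| ≤ T)).filter
        (fun l : ℤ × ℤ => a * l.2 - b * l.1 = e)).card : ℕ) : ℝ) ≤ 658 * g := by
    intro e _
    refine le_trans ?_ (hfib e)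
    rw [Nat.cast_le]
    refine Finset.card_le_card ?_
    intro l hl
    rw [Finset.mem_filter, Finset.mem_filter] at hl
    exact Finset.mem_filter.2 ⟨hl.1.1, hl.2⟩
  refine (Finset.sum_le_card_nsmul _ _ _ h5).trans ?_
  rw [nsmul_eq_mul, Int.card_Icc]
  have h6 : (((n : ℤ) + 1 - -(n : ℤ)).toNat : ℝ) = 2 * n + 1 := by
    rw [show (n : ℤ) + 1 - -(n : ℤ) = ((2 * n + 1 : ℕ) : ℤ) by push_cast; ring, Int.toNat_natCast]
    push_cast
    ring
  rw [h6]
  have h7 : (n : ℝ) * g ≤ T := by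
    rw [← le_div_iff₀ (by linarith)]
    exact hnT
  nlinarith

/-- sum of the greatest common divisors -/
private lemma q3_gcd {B : ℕ} (S : Finset (ℤ × ℤ)) (hS : ∀ k ∈ S, k ∈ box B ∧ k ≠ 0) :
    ∑ k ∈ S, (Int.gcd k.1 k.2 : ℝ) ≤ 9 * (B : ℝ) ^ 2 * (1 + log B) := by
  classical
  have h1 : ∀ k ∈ S, (Int.gcd k.1 k.2 : ℝ) ≤ ∑ g ∈ Finset.Icc 1 B,
      if ((g : ℤ) ∣ k.1 ∧ (g : ℤ) ∣ k.2) then (g : ℝ) else 0 := by
    intro k hk
    obtain ⟨h2, h3⟩ := hS k hk
    rw [box, Finset.mem_product, Finset.mem_Icc, Finset.mem_Icc] at h2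
    have hg0 : 0 < Int.gcd k.1 k.2 := by
      rw [Int.gcd_pos_iff]
      by_contra h
      push Not at h
      exact h3 (Prod.ext h.1 h.2)
    have hgB : Int.gcd k.1 k.2 ≤ B := by
      by_cases h4 : k.1 = 0
      · have h5 : k.2 ≠ 0 := fun h => h3 (Prod.ext h4 h)
        have h6 := Int.gcd_le_natAbs_right k.1 h5
        omega
      · have h6 := Int.gcd_le_natAbs_left k.2 h4
        omega
    have h7 : Int.gcd k.1 k.2 ∈ Finset.Icc 1 B := Finset.mem_Icc.2 ⟨hg0, hgB⟩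
    have h8 := Finset.single_le_sum (s := Finset.Icc 1 B) (f := fun g : ℕ =>
      if ((g : ℤ) ∣ k.1 ∧ (g : ℤ) ∣ k.2) then (g : ℝ) else 0) (by
        intro g _
        split_ifs
        · positivity
        · exact le_refl _) h7
    refine le_trans ?_ h8
    have h9 : ((Int.gcd k.1 k.2 : ℤ) ∣ k.1 ∧ (Int.gcd k.1 k.2 : ℤ) ∣ k.2) :=
      ⟨Int.gcd_dvd_left .., Int.gcd_dvd_right ..⟩
    rw [if_pos h9]
  refine (Finset.sum_le_sum h1).trans ?_
  rw [Finset.sum_comm]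
  have h2 : ∀ g ∈ Finset.Icc 1 B, (∑ k ∈ S, if ((g : ℤ) ∣ k.1 ∧ (g : ℤ) ∣ k.2) then (g : ℝ) else 0) ≤
      9 * (B : ℝ) ^ 2 * ((g : ℝ))⁻¹ := by
    intro g hg
    rw [Finset.mem_Icc] at hg
    have hg1 : (1 : ℝ) ≤ g := by exact_mod_cast hg.1
    rw [← Finset.sum_filter, Finset.sum_const, nsmul_eq_mul]
    have h3 : ((S.filter (fun k : ℤ × ℤ => (g : ℤ) ∣ k.1 ∧ (g : ℤ) ∣ k.2)).card : ℝ) ≤
        (3 * (B / g)) ^ 2 := by
      have h4 : (S.filter (fun k : ℤ × ℤ => (g : ℤ) ∣ k.1 ∧ (g : ℤ) ∣ k.2)).card ≤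
          (Finset.Icc (-((B / g : ℕ) : ℤ)) ((B / g : ℕ) : ℤ) ×ˢ
            Finset.Icc (-((B / g : ℕ) : ℤ)) ((B / g : ℕ) : ℤ)).card := by
        refine Finset.card_le_card_of_injOn (fun k => (k.1 / g, k.2 / g)) ?_ ?_
        · intro k hk
          rw [Finset.mem_coe, Finset.mem_filter] at hk
          obtain ⟨hk1, ⟨x, hx⟩, ⟨y, hy⟩⟩ := hk
          have h5 := (hS k hk1).1
          rw [box, Finset.mem_product, Finset.mem_Icc, Finset.mem_Icc] at h5
          have hgz : (0 : ℤ) < g := by exact_mod_cast hg.1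
          have hb : ∀ z : ℤ, -(B : ℤ) ≤ g * z → g * z ≤ B → -((B / g : ℕ) : ℤ) ≤ z ∧
              z ≤ ((B / g : ℕ) : ℤ) := by
            intro z h6 h7
            rw [Int.natCast_div]
            constructor
            · have h8 : -z ≤ (B : ℤ) / g := by
                rw [Int.le_ediv_iff_mul_le hgz]
                linarith [mul_comm (g : ℤ) z]
              linarith
            · rw [Int.le_ediv_iff_mul_le hgz]
              linarith [mul_comm (g : ℤ) z]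
          rw [Finset.mem_coe, Finset.mem_product, Finset.mem_Icc, Finset.mem_Icc]
          simp only
          rw [hx, hy, Int.mul_ediv_cancel_left _ hgz.ne', Int.mul_ediv_cancel_left _ hgz.ne']
          rw [hx, hy] at h5
          exact ⟨hb x h5.1.1 h5.1.2, hb y h5.2.1 h5.2.2⟩
        · intro k hk l hl hkl
          rw [Finset.mem_coe, Finset.mem_filter] at hk hl
          simp only [Prod.mk.injEq] at hkl
          refine Prod.ext ?_ ?_
          · rw [← Int.mul_ediv_cancel' hk.2.1, ← Int.mul_ediv_cancel' hl.2.1, hkl.1]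
          · rw [← Int.mul_ediv_cancel' hk.2.2, ← Int.mul_ediv_cancel' hl.2.2, hkl.2]
      rw [Finset.card_product, Int.card_Icc] at h4
      have h5 : (((B / g : ℕ) : ℤ) + 1 - -((B / g : ℕ) : ℤ)).toNat = 2 * (B / g) + 1 := by
        omega
      rw [h5] at h4
      have h6 : ((2 * (B / g) + 1 : ℕ) : ℝ) ≤ 3 * ((B : ℝ) / g) := by
        have h7 : ((B / g : ℕ) : ℝ) ≤ (B : ℝ) / g := Nat.cast_div_le
        have h8 : 1 ≤ (B : ℝ) / g := by
          rw [le_div_iff₀ (by linarith), one_mul]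
          exact_mod_cast hg.2
        push_cast
        linarith
      calc ((S.filter (fun k : ℤ × ℤ => (g : ℤ) ∣ k.1 ∧ (g : ℤ) ∣ k.2)).card : ℝ) ≤
            (((2 * (B / g) + 1) * (2 * (B / g) + 1) : ℕ) : ℝ) := by exact_mod_cast h4
        _ = ((2 * (B / g) + 1 : ℕ) : ℝ) ^ 2 := by push_cast; ring
        _ ≤ (3 * ((B : ℝ) / g)) ^ 2 := by
            apply pow_le_pow_left₀ (by positivity) h6
    calc ((S.filter (fun k : ℤ × ℤ => (g : ℤ) ∣ k.1 ∧ (g : ℤ) ∣ k.2)).card : ℝ) * g ≤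
          (3 * (B / g)) ^ 2 * g := mul_le_mul_of_nonneg_right h3 (by linarith)
      _ = 9 * (B : ℝ) ^ 2 * ((g : ℝ))⁻¹ := by
          have : (g : ℝ) ≠ 0 := by linarith
          field_simp
          ring
  refine (Finset.sum_le_sum h2).trans ?_
  rw [← Finset.mul_sum]
  refine mul_le_mul_of_nonneg_left ?_ (by positivity)
  have h3 := harmonic_le_one_add_log B
  rw [harmonic_eq_sum_Icc] at h3
  push_cast at h3
  exact h3

open Classical in
theorem reg_pairs : ∃ C : ℝ, 0 < C ∧ ∀ β H T : ℝ, |β| ≤ 1 / 2 → 1 ≤ H → 0 ≤ T →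
    (((reg β H ×ˢ reg β H).filter (fun q => |((dd q.1 q.2 : ℤ) : ℝ)| ≤ T)).card : ℝ) ≤
      C * H ^ 2 * (1 + log H) * (1 + T) := by
  refine ⟨1316 * 9 * 41 ^ 2 * 41, by norm_num, fun β H T hβ hH hT => ?_⟩
  obtain ⟨B, hBdef⟩ : ∃ B : ℕ, B = ⌈40 * H⌉₊ := ⟨_, rfl⟩
  have hB41 : (B : ℝ) ≤ 41 * H := by
    have := Nat.ceil_lt_add_one (show 0 ≤ 40 * H by linarith)
    rw [← hBdef] at this
    linarith
  have hB1 : (1 : ℝ) ≤ B := by
    have := Nat.le_ceil (40 * H)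
    rw [← hBdef] at this
    linarith
  have hreg : ∀ k ∈ reg β H, k ∈ box B ∧ (H / 8 ≤ |(k.1 : ℝ)| ∨ H / 8 ≤ |(k.2 : ℝ)|) := by
    intro k hk
    rw [reg, ← hBdef, Finset.mem_filter] at hk
    refine ⟨hk.1, ?_⟩
    by_contra h
    push Not at h
    have h1 := hk.2.1
    rw [uu] at h1
    have h2 : (k.1 : ℝ) ≤ |(k.1 : ℝ)| := le_abs_self _
    have h3 : β * (k.2 : ℝ) ≤ 1 / 2 * |(k.2 : ℝ)| := by
      calc β * (k.2 : ℝ) ≤ |β * (k.2 : ℝ)| := le_abs_self _
        _ = |β| * |(k.2 : ℝ)| := abs_mul _ _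
        _ ≤ 1 / 2 * |(k.2 : ℝ)| := mul_le_mul_of_nonneg_right hβ (abs_nonneg _)
    linarith [h.1, h.2]
  have hne : ∀ k ∈ reg β H, k ∈ box B ∧ k ≠ 0 := by
    intro k hk
    refine ⟨(hreg k hk).1, ?_⟩
    rintro rfl
    rcases (hreg _ hk).2 with h | h
    · simp only [Prod.fst_zero, Int.cast_zero, abs_zero] at h
      linarith
    · simp only [Prod.snd_zero, Int.cast_zero, abs_zero] at h
      linarith
  have h1 : (((reg β H ×ˢ reg β H).filter (fun q => |((dd q.1 q.2 : ℤ) : ℝ)| ≤ T)).card : ℝ) =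
      ∑ k ∈ reg β H, (((reg β H).filter (fun l => |((dd k l : ℤ) : ℝ)| ≤ T)).card : ℝ) := by
    simp only [Finset.card_filter, Nat.cast_sum]
    rw [Finset.sum_product]
  rw [h1]
  have h2 : ∀ k ∈ reg β H, (((reg β H).filter (fun l => |((dd k l : ℤ) : ℝ)| ≤ T)).card : ℝ) ≤
      1316 * (Int.gcd k.1 k.2 : ℝ) * (T + 1) := by
    intro k hk
    refine le_trans ?_ (q3_row hH hT hB41 (hreg k hk).2)
    rw [Nat.cast_le]
    refine Finset.card_le_card ?_
    intro l hl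
    rw [Finset.mem_filter] at hl
    exact Finset.mem_filter.2 ⟨(hreg l hl.1).1, hl.2⟩
  refine (Finset.sum_le_sum h2).trans ?_
  rw [← Finset.sum_mul, ← Finset.mul_sum]
  have h3 := q3_gcd (B := B) (reg β H) hne
  have h4 : log B ≤ 40 + log H := by
    have h5 : log B ≤ log (41 * H) := Real.log_le_log (by linarith) hB41
    have h6 : log (41 * H) = log 41 + log H := Real.log_mul (by norm_num) (by linarith)
    have h7 : log (41 : ℝ) ≤ 41 - 1 := Real.log_le_sub_one_of_pos (by norm_num)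
    linarith
  have h5 : 0 ≤ log H := Real.log_nonneg hH
  have h6 : 9 * (B : ℝ) ^ 2 * (1 + log B) ≤ 9 * (41 * H) ^ 2 * (41 * (1 + log H)) := by
    have h7 : (B : ℝ) ^ 2 ≤ (41 * H) ^ 2 := pow_le_pow_left₀ (by linarith) hB41 2
    have h8 : 0 ≤ log B := Real.log_nonneg hB1
    have h9 : 1 + log B ≤ 41 * (1 + log H) := by linarith
    refine mul_le_mul ?_ h9 (by linarith) (by positivity)
    linarith
  calc 1316 * (∑ k ∈ reg β H, (Int.gcd k.1 k.2 : ℝ)) * (T + 1) ≤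
        1316 * (9 * (41 * H) ^ 2 * (41 * (1 + log H))) * (T + 1) := by
        refine mul_le_mul_of_nonneg_right ?_ (by linarith)
        exact mul_le_mul_of_nonneg_left (h3.trans h6) (by norm_num)
    _ = 1316 * 9 * 41 ^ 2 * 41 * H ^ 2 * (1 + log H) * (1 + T) := by ring

end Pool.Agent.Helper92.GC
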