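import Pool.Agent.Helper92.GC.S3

/-!
# GC-S4: perfect spacing of the points (R(n), β(n))

PROOF. For `w = (n, m) ∈ W` let `U(w) = (a, b, c, d)` be the matrix of `umat` for `n, cmp n, m, cmp m`. `nn n, nn m ∈ [P²/4, 2 P²]`, so
`a²+b²+c²+d² ≤ 8 + 8 + (2P²)² (1/P)² = 16 + 4 P² ≤ 20 P²`. The pair is determined by `(n, U)` (`m = U n`), and `|U n|² - |n|² = nn m - nn n`, `|..| ≤ C₁ P`.
Non orthogonal `U` (`D = a²+b²+c²+d² - 2 ≥ 1`; note `a²+b²+c²+d² ≥ 2` always since `1 = ad - bc ≤ (a²+d²+b²+c²)/2`): by `window` at most `C₂ (1 + P/√D)` pairs for each.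
Sum over `U` in dyadic shells `4^i ≤ D < 4^(i+1)`, `0 ≤ i ≤ I` with `4^I ≤ 20 P²`: at most `C F²` matrices with `F² = 4^(i+1) + 2 ≤ 6 · 4^i`
(`sl_count`): `∑_i C 6 · 4^i C₂ (1 + P/2^i) ≤ C' (4^I + P 2^I) ≤ C'' P²`. Orthogonal `U` (`a²+b²+c²+d² = 2`, at most `C·2` matrices by `sl_count` with `F² = 2`): for each at
most `3 P²` pairs (`good_card`).
-/

open MeasureTheory Real Set Filter Topology

set_option autoImplicit false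

namespace Pool.Agent.Helper92.GC

open Pool.Agent.Helper22.AE
open Pool.Agent.Helper22.AC (n6 IsWt mu)

private def dD72 (u : ℤ × ℤ × ℤ × ℤ) : ℤ := u.1 ^ 2 + u.2.1 ^ 2 + u.2.2.1 ^ 2 + u.2.2.2 ^ 2 - 2

private lemma nn_bd72 {P : ℝ} (hP : 1 ≤ P) {n : ℤ × ℤ} (h : Good P n) :
    P ^ 2 / 4 ≤ (nn n : ℝ) ∧ (nn n : ℝ) ≤ 2 * P ^ 2 := by
  have h1 := h.lo
  have h2 := h.hi
  have h3 : (0 : ℝ) ≤ n.2 := by exact_mod_cast h.nonneg
  have h4 : (n.2 : ℝ) ≤ n.1 := by exact_mod_cast h.le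
  unfold nn
  push_cast
  constructor <;> nlinarith

private lemma fib72 (C₁ : ℝ) : ∃ Cw : ℝ, 0 < Cw ∧ ∀ P : ℝ, 1 ≤ P → ∀ u : ℤ × ℤ × ℤ × ℤ,
    u.1 * u.2.2.2 - u.2.1 * u.2.2.1 = 1 → ∀ V : Finset ((ℤ × ℤ) × (ℤ × ℤ)),
      (∀ w ∈ V, Good P w.1 ∧ |(nn w.1 : ℝ) - nn w.2| ≤ C₁ * P ∧ u.1 * w.1.1 + u.2.1 * w.1.2 = w.2.1 ∧
        u.2.2.1 * w.1.1 + u.2.2.2 * w.1.2 = w.2.2) →
      (V.card : ℝ) ≤ 3 * P ^ 2 ∧ (1 ≤ dD72 u → (V.card : ℝ) ≤ Cw * (1 + P / √(dD72 u : ℝ))) := by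
  classical
  obtain ⟨Cw, hCw, hw⟩ := window C₁
  refine ⟨Cw, hCw, fun P hP u hu V hV => ?_⟩
  have hinj : Set.InjOn Prod.fst (V : Set ((ℤ × ℤ) × (ℤ × ℤ))) := by
    intro x hx y hy hxy
    obtain ⟨-, -, h1, h2⟩ := hV x hx
    obtain ⟨-, -, h3, h4⟩ := hV y hy
    refine Prod.ext hxy ?_
    rw [← hxy] at h3 h4
    exact Prod.ext (h1.symm.trans h3) (h2.symm.trans h4)
  have hcard : (V.image Prod.fst).card = V.card := Finset.card_image_of_injOn hinj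
  have hG : ∀ n ∈ V.image Prod.fst, Good P n := by
    intro n hn
    obtain ⟨w, hwV, rfl⟩ := Finset.mem_image.1 hn
    exact (hV w hwV).1
  rw [← hcard]
  refine ⟨good_card hP _ hG, fun hD => ?_⟩
  refine hw P hP u.1 u.2.1 u.2.2.1 u.2.2.2 hu hD _ (fun n hn => ⟨hG n hn, ?_⟩)
  obtain ⟨w, hwV, rfl⟩ := Finset.mem_image.1 hn
  obtain ⟨-, h2, h3, h4⟩ := hV w hwV
  rw [h3, h4]
  have h5 : ((w.2.1 ^ 2 + w.2.2 ^ 2 - nn w.1 : ℤ) : ℝ) = -((nn w.1 : ℝ) - nn w.2) := by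
    unfold nn
    push_cast
    ring
  rw [h5, abs_neg]
  exact h2

private lemma shell72 {Cs : ℝ} (hsl : ∀ F : ℝ, 1 ≤ F → ∀ W : Finset (ℤ × ℤ × ℤ × ℤ),
    (∀ w ∈ W, w.1 * w.2.2.2 - w.2.1 * w.2.2.1 = 1 ∧
      ((w.1 ^ 2 + w.2.1 ^ 2 + w.2.2.1 ^ 2 + w.2.2.2 ^ 2 : ℤ) : ℝ) ≤ F ^ 2) → (W.card : ℝ) ≤ Cs * F ^ 2)
    (x : ℝ) (hx : 0 ≤ x) (V : Finset (ℤ × ℤ × ℤ × ℤ)) (hV : ∀ u ∈ V, u.1 * u.2.2.2 - u.2.1 * u.2.2.1 = 1 ∧
      (dD72 u : ℝ) ≤ x) : (V.card : ℝ) ≤ Cs * (x + 2) := by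
  have h1 : (√(x + 2)) ^ 2 = x + 2 := Real.sq_sqrt (by linarith)
  have h2 : 1 ≤ √(x + 2) := by
    rw [Real.one_le_sqrt]
    linarith
  have h3 := hsl (√(x + 2)) h2 V (fun u hu => ⟨(hV u hu).1, ?_⟩)
  · rwa [h1] at h3
  · rw [h1]
    have h4 := (hV u hu).2
    unfold dD72 at h4
    push_cast at h4 ⊢
    linarith

private lemma dy72 {Cs P : ℝ} (hCs : 0 < Cs) (hP : 1 ≤ P) (hsl : ∀ F : ℝ, 1 ≤ F → ∀ W : Finset (ℤ × ℤ × ℤ × ℤ),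
    (∀ w ∈ W, w.1 * w.2.2.2 - w.2.1 * w.2.2.1 = 1 ∧
      ((w.1 ^ 2 + w.2.1 ^ 2 + w.2.2.1 ^ 2 + w.2.2.2 ^ 2 : ℤ) : ℝ) ≤ F ^ 2) → (W.card : ℝ) ≤ Cs * F ^ 2)
    (A : Finset (ℤ × ℤ × ℤ × ℤ)) (hA : ∀ u ∈ A, u.1 * u.2.2.2 - u.2.1 * u.2.2.1 = 1 ∧ 1 ≤ dD72 u ∧
      (dD72 u : ℝ) ≤ 20 * P ^ 2) : ∑ u ∈ A, (1 + P / √(dD72 u : ℝ)) ≤ 300 * Cs * P ^ 2 := by
  classical
  have hP0 : 0 < P := by linarith
  obtain ⟨I, hI⟩ : ∃ I : ℕ, I = Nat.log 4 ⌊20 * P ^ 2⌋₊ := ⟨_, rfl⟩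
  have hfl : ⌊20 * P ^ 2⌋₊ ≠ 0 := by
    have h1 : 1 ≤ ⌊20 * P ^ 2⌋₊ := Nat.le_floor (by push_cast; nlinarith)
    omega
  have h4I : (4 : ℝ) ^ I ≤ 20 * P ^ 2 := by
    have h1 : 4 ^ I ≤ ⌊20 * P ^ 2⌋₊ := hI ▸ Nat.pow_log_le_self 4 hfl
    have h2 : ((4 ^ I : ℕ) : ℝ) ≤ (⌊20 * P ^ 2⌋₊ : ℝ) := by exact_mod_cast h1
    have h3 := Nat.floor_le (by positivity : 0 ≤ 20 * P ^ 2)
    push_cast at h2
    linarith
  have h2I : (2 : ℝ) ^ I ≤ 5 * P := by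
    refine le_of_sq_le_sq ?_ (by positivity)
    have h1 : ((2 : ℝ) ^ I) ^ 2 = 4 ^ I := by
      rw [← pow_mul, mul_comm, pow_mul]
      norm_num
    rw [h1]
    nlinarith
  have hmaps : ∀ u ∈ A, Nat.log 4 (dD72 u).toNat ∈ Finset.range (I + 1) := by
    intro u hu
    obtain ⟨-, h2, h3⟩ := hA u hu
    rw [Finset.mem_range, Nat.lt_succ_iff, hI]
    apply Nat.log_mono_right
    apply Nat.le_floor
    have h4 : (((dD72 u).toNat : ℤ)) = dD72 u := Int.toNat_of_nonneg (by omega)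
    have h5 : (((dD72 u).toNat : ℕ) : ℝ) = (dD72 u : ℝ) := by exact_mod_cast h4
    rw [h5]
    exact h3
  rw [← Finset.sum_fiberwise_of_maps_to hmaps]
  have hterm : ∀ i ∈ Finset.range (I + 1),
      ∑ u ∈ A.filter (fun u => Nat.log 4 (dD72 u).toNat = i), (1 + P / √(dD72 u : ℝ)) ≤
        6 * Cs * (4 ^ i + P * 2 ^ i) := by
    intro i _
    have hmem : ∀ u ∈ A.filter (fun u => Nat.log 4 (dD72 u).toNat = i),
        (4 : ℝ) ^ i ≤ (dD72 u : ℝ) ∧ (dD72 u : ℝ) ≤ 4 ^ (i + 1) := by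
      intro u hu
      obtain ⟨huA, hui⟩ := Finset.mem_filter.1 hu
      obtain ⟨-, h2, h3⟩ := hA u huA
      have h4 : (((dD72 u).toNat : ℤ)) = dD72 u := Int.toNat_of_nonneg (by omega)
      have h5 : (((dD72 u).toNat : ℕ) : ℝ) = (dD72 u : ℝ) := by exact_mod_cast h4
      have h6 : (dD72 u).toNat ≠ 0 := by omega
      have h7 := Nat.pow_log_le_self 4 h6
      have h8 := Nat.lt_pow_succ_log_self (by norm_num : 1 < 4) (dD72 u).toNat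
      rw [hui] at h7 h8
      rw [← h5]
      constructor
      · exact_mod_cast h7
      · exact_mod_cast h8.le
    have hcard : ((A.filter (fun u => Nat.log 4 (dD72 u).toNat = i)).card : ℝ) ≤ Cs * (4 ^ (i + 1) + 2) :=
      shell72 hsl _ (by positivity) _ (fun u hu => ⟨(hA u (Finset.mem_filter.1 hu).1).1, (hmem u hu).2⟩)
    have h1i : (1 : ℝ) ≤ 4 ^ i := one_le_pow₀ (by norm_num)
    have h22 : (4 : ℝ) ^ i = 2 ^ i * 2 ^ i := by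
      rw [← mul_pow]
      norm_num
    have h2p : (0 : ℝ) < 2 ^ i := by positivity
    calc ∑ u ∈ A.filter (fun u => Nat.log 4 (dD72 u).toNat = i), (1 + P / √(dD72 u : ℝ))
        ≤ ∑ u ∈ A.filter (fun u => Nat.log 4 (dD72 u).toNat = i), (1 + P / 2 ^ i) := by
          refine Finset.sum_le_sum fun u hu => ?_
          have h9 : (2 : ℝ) ^ i ≤ √(dD72 u : ℝ) := by
            apply Real.le_sqrt_of_sq_le
            rw [pow_two, ← h22]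
            exact (hmem u hu).1
          have h10 : P / √(dD72 u : ℝ) ≤ P / 2 ^ i := div_le_div_of_nonneg_left hP0.le h2p h9
          linarith
      _ = ((A.filter (fun u => Nat.log 4 (dD72 u).toNat = i)).card : ℝ) * (1 + P / 2 ^ i) := by
          rw [Finset.sum_const, nsmul_eq_mul]
      _ ≤ (Cs * (4 ^ (i + 1) + 2)) * (1 + P / 2 ^ i) :=
          mul_le_mul_of_nonneg_right hcard (by positivity)
      _ ≤ (Cs * (6 * 4 ^ i)) * (1 + P / 2 ^ i) := by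
          refine mul_le_mul_of_nonneg_right (mul_le_mul_of_nonneg_left ?_ hCs.le) (by positivity)
          rw [pow_succ]
          linarith
      _ = 6 * Cs * (4 ^ i + P * 2 ^ i) := by
          rw [h22]
          field_simp
  refine (Finset.sum_le_sum hterm).trans ?_
  rw [← Finset.mul_sum, Finset.sum_add_distrib, ← Finset.mul_sum]
  have hg4 : ∑ i ∈ Finset.range (I + 1), (4 : ℝ) ^ i ≤ 2 * 4 ^ I := by
    rw [geom_sum_eq (by norm_num), pow_succ, div_le_iff₀ (by norm_num)]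
    have : (1 : ℝ) ≤ 4 ^ I := one_le_pow₀ (by norm_num)
    linarith
  have hg2 : ∑ i ∈ Finset.range (I + 1), (2 : ℝ) ^ i ≤ 2 * 2 ^ I := by
    rw [geom_sum_eq (by norm_num), pow_succ, div_le_iff₀ (by norm_num)]
    linarith
  have hg2' : P * ∑ i ∈ Finset.range (I + 1), (2 : ℝ) ^ i ≤ 10 * P ^ 2 := by
    calc P * ∑ i ∈ Finset.range (I + 1), (2 : ℝ) ^ i ≤ P * (2 * (5 * P)) :=
          mul_le_mul_of_nonneg_left (hg2.trans (by linarith)) hP0.le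
      _ = 10 * P ^ 2 := by ring
  calc 6 * Cs * (∑ i ∈ Finset.range (I + 1), (4 : ℝ) ^ i + P * ∑ i ∈ Finset.range (I + 1), (2 : ℝ) ^ i)
      ≤ 6 * Cs * (50 * P ^ 2) := mul_le_mul_of_nonneg_left (by linarith) (by linarith)
    _ = 300 * Cs * P ^ 2 := by ring

theorem spacing (C₁ : ℝ) : ∃ C₂ : ℝ, 0 < C₂ ∧ ∀ P : ℝ, 1 ≤ P → ∀ W : Finset ((ℤ × ℤ) × (ℤ × ℤ)),
    (∀ w ∈ W, Good P w.1 ∧ Good P w.2 ∧ |(nn w.1 : ℝ) - nn w.2| ≤ C₁ * P ∧ |bt w.1 - bt w.2| ≤ 1 / P) →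
      (W.card : ℝ) ≤ C₂ * P ^ 2 := by
  classical
  obtain ⟨Cs, hCs, hsl⟩ := sl_count
  obtain ⟨Cw, hCw, hfib⟩ := fib72 C₁
  refine ⟨6 * Cs + 300 * Cs * Cw, by positivity, fun P hP W hW => ?_⟩
  have hP0 : 0 < P := by linarith
  have hex : ∀ w ∈ W, ∃ u : ℤ × ℤ × ℤ × ℤ, u.1 * u.2.2.2 - u.2.1 * u.2.2.1 = 1 ∧
      u.1 * w.1.1 + u.2.1 * w.1.2 = w.2.1 ∧ u.2.2.1 * w.1.1 + u.2.2.2 * w.1.2 = w.2.2 ∧
        (dD72 u : ℝ) ≤ 20 * P ^ 2 := by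
    intro w hw
    obtain ⟨hg1, hg2, -, hb⟩ := hW w hw
    obtain ⟨a, b, c, d, h1, h2, h3, h4⟩ := umat (cmp_spec hg1.cop) (cmp_spec hg2.cop) (nn_pos hg1.cop) (nn_pos hg2.cop)
    refine ⟨(a, b, c, d), h1, h2, h3, ?_⟩
    obtain ⟨h5, h6⟩ := nn_bd72 hP hg1
    obtain ⟨h7, h8⟩ := nn_bd72 hP hg2
    have hP2 : 0 < P ^ 2 := by positivity
    have hN : (0 : ℝ) < nn w.1 := by linarith
    have hM : (0 : ℝ) < nn w.2 := by linarith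
    have e1 : (nn w.2 : ℝ) / nn w.1 ≤ 8 := by
      rw [div_le_iff₀ hN]
      linarith
    have e2 : (nn w.1 : ℝ) / nn w.2 ≤ 8 := by
      rw [div_le_iff₀ hM]
      linarith
    have e3 : ((sp w.1 (cmp w.1) : ℝ) / nn w.1 - (sp w.2 (cmp w.2) : ℝ) / nn w.2) ^ 2 ≤ 1 / P ^ 2 := by
      have h9 : (bt w.1 - bt w.2) ^ 2 ≤ (1 / P) ^ 2 := by
        rw [← sq_abs]
        exact pow_le_pow_left₀ (abs_nonneg _) hb 2
      have h10 : (1 / P) ^ 2 = 1 / P ^ 2 := by rw [div_pow, one_pow]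
      rw [h10] at h9
      exact h9
    have e4 : (nn w.1 : ℝ) * nn w.2 * ((sp w.1 (cmp w.1) : ℝ) / nn w.1 - (sp w.2 (cmp w.2) : ℝ) / nn w.2) ^ 2 ≤
        4 * P ^ 2 := by
      calc _ ≤ (2 * P ^ 2) * (2 * P ^ 2) * (1 / P ^ 2) :=
            mul_le_mul (mul_le_mul h6 h8 hM.le (by positivity)) e3 (sq_nonneg _) (by positivity)
        _ = 4 * P ^ 2 := by field_simp; ring
    have e5 : (dD72 (a, b, c, d) : ℝ) = ((a ^ 2 + b ^ 2 + c ^ 2 + d ^ 2 : ℤ) : ℝ) - 2 := by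
      unfold dD72
      push_cast
      ring
    rw [e5, h4]
    have e6 : 1 ≤ P ^ 2 := one_le_pow₀ hP
    linarith
  choose! U hU using hex
  have hdn : ∀ u ∈ W.image U, u.1 * u.2.2.2 - u.2.1 * u.2.2.1 = 1 ∧ 0 ≤ dD72 u ∧ (dD72 u : ℝ) ≤ 20 * P ^ 2 := by
    intro u hu
    obtain ⟨w, hw, rfl⟩ := Finset.mem_image.1 hu
    obtain ⟨h1, -, -, h4⟩ := hU w hw
    refine ⟨h1, ?_, h4⟩
    unfold dD72
    nlinarith [sq_nonneg ((U w).1 - (U w).2.2.2), sq_nonneg ((U w).2.1 + (U w).2.2.1)]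
  have hfibU : ∀ u ∈ W.image U, ((W.filter (fun w => U w = u)).card : ℝ) ≤ 3 * P ^ 2 ∧
      (1 ≤ dD72 u → ((W.filter (fun w => U w = u)).card : ℝ) ≤ Cw * (1 + P / √(dD72 u : ℝ))) := by
    intro u hu
    refine hfib P hP u (hdn u hu).1 _ (fun w hw => ?_)
    obtain ⟨hwW, hwu⟩ := Finset.mem_filter.1 hw
    obtain ⟨-, h2, h3, -⟩ := hU w hwW
    rw [hwu] at h2 h3
    exact ⟨(hW w hwW).1, (hW w hwW).2.2.1, h2, h3⟩
  have hsum : (W.card : ℝ) = ∑ u ∈ W.image U, ((W.filter (fun w => U w = u)).card : ℝ) := by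
    exact_mod_cast Finset.card_eq_sum_card_image U W
  rw [hsum, ← Finset.sum_filter_add_sum_filter_not (W.image U) (fun u => 1 ≤ dD72 u)]
  have hA : ∑ u ∈ (W.image U).filter (fun u => 1 ≤ dD72 u), ((W.filter (fun w => U w = u)).card : ℝ) ≤
      Cw * (300 * Cs * P ^ 2) := by
    calc _ ≤ ∑ u ∈ (W.image U).filter (fun u => 1 ≤ dD72 u), Cw * (1 + P / √(dD72 u : ℝ)) := by
          refine Finset.sum_le_sum fun u hu => ?_
          obtain ⟨h1, h2⟩ := Finset.mem_filter.1 hu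
          exact (hfibU u h1).2 h2
      _ = Cw * ∑ u ∈ (W.image U).filter (fun u => 1 ≤ dD72 u), (1 + P / √(dD72 u : ℝ)) := by
          rw [Finset.mul_sum]
      _ ≤ _ := by
          refine mul_le_mul_of_nonneg_left (dy72 hCs hP hsl _ (fun u hu => ?_)) hCw.le
          obtain ⟨h1, h2⟩ := Finset.mem_filter.1 hu
          exact ⟨(hdn u h1).1, h2, (hdn u h1).2.2⟩
  have hB : ∑ u ∈ (W.image U).filter (fun u => ¬ 1 ≤ dD72 u), ((W.filter (fun w => U w = u)).card : ℝ) ≤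
      (Cs * (0 + 2)) * (3 * P ^ 2) := by
    calc _ ≤ ∑ u ∈ (W.image U).filter (fun u => ¬ 1 ≤ dD72 u), (3 * P ^ 2) := by
          refine Finset.sum_le_sum fun u hu => ?_
          exact (hfibU u (Finset.mem_filter.1 hu).1).1
      _ = (((W.image U).filter (fun u => ¬ 1 ≤ dD72 u)).card : ℝ) * (3 * P ^ 2) := by
          rw [Finset.sum_const, nsmul_eq_mul]
      _ ≤ _ := by
          refine mul_le_mul_of_nonneg_right (shell72 hsl 0 le_rfl _ (fun u hu => ?_)) (by positivity)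
          obtain ⟨h1, h2⟩ := Finset.mem_filter.1 hu
          refine ⟨(hdn u h1).1, ?_⟩
          have h3 : dD72 u ≤ 0 := by omega
          exact_mod_cast h3
  calc _ ≤ Cw * (300 * Cs * P ^ 2) + (Cs * (0 + 2)) * (3 * P ^ 2) := add_le_add hA hB
    _ = (6 * Cs + 300 * Cs * Cw) * P ^ 2 := by ring

end Pool.Agent.Helper92.GC
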