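import Pool.Agent.Helper92.GC.T1
import Pool.Agent.Helper92.GC.Q1

/-!
# GC-Q4: from the windows to the dyadic interval

PROOF of `win`: `n6_slice`: `n6³ = ∫ v m6 ≥ ∫_{[R₁, R₁+X]} v m6 ≥ (c₀/X) ∫_{[R₁, R₁+X]} m6` (`m6 ≥ 0`, `m6` is bounded and measurable (continuous) in `R`, `v` integrable).
PROOF of `cover`: `[ρ, 2ρ]` is covered by the windows `[R_i, R_i + X]`, `R_i = ρ + i X`, `0 ≤ i < ⌈ρ/X⌉₊` (`R_i ≤ 2ρ`), each contributes at most `(X/c₀) K`; `⌈ρ/X⌉₊ ≤ 2ρ/X` as `X ≤ ρ`.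
-/

open MeasureTheory Real Set Filter Topology

set_option autoImplicit false

namespace Pool.Agent.Helper92.GC

open Pool.Agent.Helper22.AE
open Pool.Agent.Helper22.AC (n6 IsWt mu)

private theorem m6_cont56 (S : Finset (ℤ × ℤ)) (f : ℤ × ℤ → ℝ) :
    Continuous (fun R : ℝ => m6 S (fun k => ee (R * f k))) := by
  have hcomp : IsCompact Tq := isCompact_Icc.prod isCompact_Icc
  unfold m6
  refine continuous_parametric_integral_of_continuous
    (f := fun (R : ℝ) (c : ℝ × ℝ) => ‖tp S (fun k => ee (R * f k)) c‖ ^ 6) ?_ hcomp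
  have h1 : Continuous (fun q : ℝ × (ℝ × ℝ) => tp S (fun k => ee (q.1 * f k)) q.2) := by
    unfold tp dt
    refine continuous_finsetSum _ fun k _ => ?_
    refine Continuous.mul (ee_cont.comp (by fun_prop)) (ee_cont.comp (by fun_prop))
  exact h1.norm.pow 6

private theorem m6_le56 (S : Finset (ℤ × ℤ)) {b : ℤ × ℤ → ℂ} (hb : ∀ k, ‖b k‖ ≤ 1) :
    m6 S b ≤ (S.card : ℝ) ^ 6 := by
  have hp : IsProbabilityMeasure ((volume : Measure (ℝ × ℝ)).restrict Tq) := by
    constructor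
    unfold Tq
    rw [Measure.restrict_apply_univ, Measure.volume_eq_prod, Measure.prod_prod, Real.volume_Icc,
      sub_zero, ENNReal.ofReal_one, mul_one]
  have hn : ∀ c, ‖tp S b c‖ ≤ (S.card : ℝ) := by
    intro c
    refine (tp_norm_le S b c).trans ?_
    refine (Finset.sum_le_card_nsmul _ _ 1 fun k _ => hb k).trans (by simp)
  unfold m6
  have h1 : ∫ c in Tq, ‖tp S b c‖ ^ 6 ≤ ∫ _c in Tq, (S.card : ℝ) ^ 6 := by
    refine integral_mono_of_nonneg (Filter.Eventually.of_forall fun q => by positivity)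
      (integrable_const _) (Filter.Eventually.of_forall fun c => ?_)
    exact pow_le_pow_left₀ (norm_nonneg _) (hn c) 6
  refine h1.trans (le_of_eq ?_)
  rw [integral_const, probReal_univ, one_smul]

private theorem wt_int56 {X : ℝ} {v : ℝ → ℝ} (hv : IsWt X v) : Integrable v := by
  by_contra hcon
  have h2 := hv.int_one
  rw [integral_undef hcon] at h2
  exact zero_ne_one h2

theorem win {X R₁ : ℝ} {v : ℝ → ℝ} {c₀ : ℝ} {Cd : ℕ → ℝ} (hX : 0 < X) (hc : 0 < c₀) (h : IsDw X R₁ v c₀ Cd)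
    (S : Finset (ℤ × ℤ)) (f : ℤ × ℤ → ℝ) :
    ∫ R in Icc R₁ (R₁ + X), m6 S (fun k => ee (R * f k)) ≤ X / c₀ * n6 (mu v) (gs S (fun _ => 1) f) ^ 3 := by
  have hg := m6_cont56 S f
  have hg0 : ∀ R : ℝ, 0 ≤ m6 S (fun k => ee (R * f k)) := fun R => m6_nonneg S _
  have hgb : ∀ R : ℝ, m6 S (fun k => ee (R * f k)) ≤ (S.card : ℝ) ^ 6 := fun R =>
    m6_le56 S fun k => (ee_norm _).le
  have hs := n6_slice h.wt S (fun _ => 1) f
  simp only [one_mul] at hs
  have hint : Integrable (fun R => v R * m6 S (fun k => ee (R * f k))) := by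
    refine (wt_int56 h.wt).mul_bdd (c := (S.card : ℝ) ^ 6) hg.aestronglyMeasurable
      (Filter.Eventually.of_forall fun R => ?_)
    rw [Real.norm_of_nonneg (hg0 R)]
    exact hgb R
  have h1 : ∫ R in Icc R₁ (R₁ + X), c₀ / X * m6 S (fun k => ee (R * f k)) ≤
      ∫ R in Icc R₁ (R₁ + X), v R * m6 S (fun k => ee (R * f k)) := by
    refine setIntegral_mono_on ?_ hint.integrableOn measurableSet_Icc fun R hR => ?_
    · exact (continuous_const.mul hg).continuousOn.integrableOn_compact isCompact_Icc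
    · exact mul_le_mul_of_nonneg_right (h.low R hR) (hg0 R)
  have h2 : ∫ R in Icc R₁ (R₁ + X), v R * m6 S (fun k => ee (R * f k)) ≤
      ∫ R, v R * m6 S (fun k => ee (R * f k)) :=
    setIntegral_le_integral hint (Filter.Eventually.of_forall fun R =>
      mul_nonneg (h.wt.nonneg R) (hg0 R))
  rw [integral_const_mul] at h1
  rw [hs]
  have h3 := h1.trans h2
  have h4 := mul_le_mul_of_nonneg_left h3 (by positivity : 0 ≤ X / c₀)
  refine le_trans (le_of_eq ?_) h4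
  field_simp

theorem cover {X ρ K : ℝ} {c₀ : ℝ} {Cd : ℕ → ℝ} (hX : 0 < X) (hXρ : X ≤ ρ) (hc : 0 < c₀) (S : Finset (ℤ × ℤ))
    (f : ℤ × ℤ → ℝ) (h : ∀ R₁ ∈ Icc ρ (2 * ρ), ∃ v : ℝ → ℝ, IsDw X R₁ v c₀ Cd ∧ n6 (mu v) (gs S (fun _ => 1) f) ^ 3 ≤ K) :
    ∫ R in Icc ρ (2 * ρ), m6 S (fun k => ee (R * f k)) ≤ 2 * ρ / c₀ * K := by
  have hρ : 0 < ρ := hX.trans_le hXρ
  have hg := m6_cont56 S f
  have hg0 : ∀ R : ℝ, 0 ≤ m6 S (fun k => ee (R * f k)) := fun R => m6_nonneg S _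
  have hK : 0 ≤ K := by
    obtain ⟨v, -, hv2⟩ := h ρ ⟨le_rfl, by linarith⟩
    exact (pow_nonneg (Pool.Agent.Helper22.AC.n6_nonneg _ _) 3).trans hv2
  obtain ⟨N, hN⟩ : ∃ N : ℕ, N = ⌈ρ / X⌉₊ := ⟨_, rfl⟩
  have hN1 : ρ / X ≤ N := by
    rw [hN]
    exact Nat.le_ceil _
  have hN2 : (N : ℝ) < ρ / X + 1 := by
    rw [hN]
    exact Nat.ceil_lt_add_one (by positivity)
  have hNX : ρ ≤ N * X := by rwa [div_le_iff₀ hX] at hN1
  have hNX2 : (N : ℝ) * X ≤ 2 * ρ := by
    have h1 : (N : ℝ) * X < (ρ / X + 1) * X := mul_lt_mul_of_pos_right hN2 hX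
    have h2 : (ρ / X + 1) * X = ρ + X := by
      field_simp
    rw [h2] at h1
    linarith
  have hii : ∀ a b : ℝ, IntervalIntegrable (fun R => m6 S (fun k => ee (R * f k))) volume a b :=
    fun a b => hg.intervalIntegrable a b
  have hsum := intervalIntegral.sum_integral_adjacent_intervals
    (f := fun R => m6 S (fun k => ee (R * f k))) (μ := volume)
    (a := fun i : ℕ => ρ + i * X) (n := N) (fun k _ => hii _ _)
  have hA : ∫ R in Icc ρ (2 * ρ), m6 S (fun k => ee (R * f k)) ≤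
      ∫ R in (ρ + ((0 : ℕ) : ℝ) * X)..(ρ + (N : ℝ) * X), m6 S (fun k => ee (R * f k)) := by
    rw [Nat.cast_zero, zero_mul, add_zero, intervalIntegral.integral_of_le (by linarith),
      ← integral_Icc_eq_integral_Ioc]
    refine setIntegral_mono_set ?_ (Filter.Eventually.of_forall fun R => hg0 R) ?_
    · exact hg.continuousOn.integrableOn_compact isCompact_Icc
    · exact (Icc_subset_Icc_right (by linarith)).eventuallyLE
  refine hA.trans ?_
  rw [← hsum]
  have hB : ∀ i ∈ Finset.range N, ∫ R in (ρ + (i : ℝ) * X)..(ρ + ((i + 1 : ℕ) : ℝ) * X),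
      m6 S (fun k => ee (R * f k)) ≤ X / c₀ * K := by
    intro i hi
    have hiN : (i : ℝ) + 1 ≤ N := by
      have := Finset.mem_range.1 hi
      exact_mod_cast this
    have hi0 : (0 : ℝ) ≤ (i : ℝ) * X := by positivity
    have hiX : (i : ℝ) * X ≤ ρ := by
      have h1 : (i : ℝ) * X ≤ ρ / X * X := mul_le_mul_of_nonneg_right (by linarith) hX.le
      rwa [div_mul_cancel₀ _ hX.ne'] at h1
    obtain ⟨v, hv1, hv2⟩ := h (ρ + i * X) ⟨by linarith, by linarith⟩
    have h2 := win hX hc hv1 S f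
    have e : ρ + ((i + 1 : ℕ) : ℝ) * X = ρ + (i : ℝ) * X + X := by
      push_cast
      ring
    rw [e, intervalIntegral.integral_of_le (by linarith), ← integral_Icc_eq_integral_Ioc]
    exact h2.trans (mul_le_mul_of_nonneg_left hv2 (by positivity))
  refine (Finset.sum_le_sum hB).trans ?_
  rw [Finset.sum_const, Finset.card_range, nsmul_eq_mul]
  have h3 : (N : ℝ) * (X / c₀ * K) = ((N : ℝ) * X) / c₀ * K := by ring
  rw [h3]
  refine mul_le_mul_of_nonneg_right ?_ hK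
  exact div_le_div_of_nonneg_right hNX2 hc.le

end Pool.Agent.Helper92.GC
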