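import Pool.Agent.Helper92.GC.T5
import Pool.Agent.Helper92.GC.Q2
import Pool.Agent.Helper92.GC.Q3
import Pool.Agent.Helper92.GC.Q4

/-!
# GC-Q5: the outer shell

PROOF of `arc_pairs`: every pair of elements of one arc satisfies `dd k k' = u u' (t' - t)` (`u = uu β k`, `t = tt β k`, `u' , t'` similarly), so `|dd k k'| ≤ 64 H² · 12/N`; and `card^(5/3) ≤ card²` for natural numbers;
so `∑_j card^(5/3) ≤ ∑_j card² ≤ #{(k, k') : |dd k k'| ≤ 768 H²/N}` (the arcs are disjoint), `reg_pairs`.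
PROOF of `shellA`. WLOG `ε ≤ 1`. `exists_dw`; `X = ρ`; `M`, `N₁`, `C₁` from `dec` with `ε₀ = ε/16`. Let `m` be the largest natural number with `M^(N₁ m) ≤ H^(2 - ε/16)`, `N = M^(N₁ m) ≥ M^(-N₁) H^(2-ε/16)`. Conditions of `dec`:
`N² ≤ H^(4 - ε/8) ≤ H ρ ≤ 144 H X`, `N ≤ H³`. For `R₁ ∈ [ρ, 2ρ]`, `v` from `exists_dw`: `n6 (gs reg) ≤ C₁ H^(ε/16) ∑_j n6 (arc j) ≤ C₁ H^(ε/16) ∑_j card^(5/3)` (`n6_gs_card`) `≤ C H^(ε/16) H² (1 + log H)(1 + H^(ε/16))`,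
`1 + log H ≤ C H^(ε/16)`: `n6³ ≤ C H^(6 + 9ε/16)`. `cover`.
-/

open MeasureTheory Real Set Filter Topology

set_option autoImplicit false

namespace Pool.Agent.Helper92.GC

open Pool.Agent.Helper22.AE
open Pool.Agent.Helper22.AC (n6 IsWt mu)

private lemma q5_reg {β H : ℝ} {k : ℤ × ℤ} (hk : k ∈ reg β H) :
    H / 4 ≤ uu β k ∧ uu β k ≤ 8 * H ∧ |(k.2 : ℝ)| ≤ 5 * uu β k := by
  classical
  unfold reg at hk
  rw [Finset.mem_filter] at hk
  exact hk.2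

private lemma q5_arc {β H : ℝ} {N j : ℕ} (hH : 1 ≤ H) (hN : 1 ≤ N) {k k' : ℤ × ℤ}
    (hk : k ∈ arc β (reg β H) N j) (hk' : k' ∈ arc β (reg β H) N j) :
    |((dd k k' : ℤ) : ℝ)| ≤ 768 * H ^ 2 / N := by
  classical
  unfold arc at hk hk'
  rw [Finset.mem_filter] at hk hk'
  obtain ⟨h1, h2, h3⟩ := q5_reg hk.1
  obtain ⟨h1', h2', h3'⟩ := q5_reg hk'.1
  have hu : 0 < uu β k := by linarith
  have hu' : 0 < uu β k' := by linarith
  have hN0 : (0 : ℝ) < N := by exact_mod_cast hN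
  have ht : |tt β k| ≤ 5 := by
    unfold tt
    rw [abs_div, abs_of_pos hu, div_le_iff₀ hu]
    exact h3
  have ht' : |tt β k'| ≤ 5 := by
    unfold tt
    rw [abs_div, abs_of_pos hu', div_le_iff₀ hu']
    exact h3'
  have a1 := (abs_le.1 ht).1
  have a2 := (abs_le.1 ht').1
  have f1 := (Nat.floor_eq_iff (by
    have : 0 ≤ (tt β k + 6) / 12 := by linarith
    positivity)).1 hk.2
  have f2 := (Nat.floor_eq_iff (by
    have : 0 ≤ (tt β k' + 6) / 12 := by linarith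
    positivity)).1 hk'.2
  have hd : |tt β k' - tt β k| ≤ 12 / N := by
    have h7 : |tt β k' - tt β k| * N = |(tt β k' - tt β k) * N| := by rw [abs_mul, abs_of_pos hN0]
    rw [le_div_iff₀ hN0, h7, abs_le]
    constructor <;> linarith [f1.1, f1.2, f2.1, f2.2]
  have e1 : (k.2 : ℝ) = tt β k * uu β k := by
    unfold tt
    rw [div_mul_cancel₀ _ hu.ne']
  have e1' : (k'.2 : ℝ) = tt β k' * uu β k' := by
    unfold tt
    rw [div_mul_cancel₀ _ hu'.ne']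
  have e2 : (k.1 : ℝ) = uu β k - β * k.2 := by
    unfold uu
    ring
  have e2' : (k'.1 : ℝ) = uu β k' - β * k'.2 := by
    unfold uu
    ring
  have e : ((dd k k' : ℤ) : ℝ) = uu β k * uu β k' * (tt β k' - tt β k) := by
    unfold dd
    push_cast
    rw [e2, e2']
    have : (uu β k - β * (k.2 : ℝ)) * (k'.2 : ℝ) - (k.2 : ℝ) * (uu β k' - β * (k'.2 : ℝ)) =
      uu β k * (k'.2 : ℝ) - (k.2 : ℝ) * uu β k' := by ring
    rw [this, e1, e1']
    ring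
  rw [e, abs_mul, abs_mul, abs_of_pos hu, abs_of_pos hu']
  calc uu β k * uu β k' * |tt β k' - tt β k| ≤ (8 * H) * (8 * H) * (12 / N) := by gcongr
    _ = 768 * H ^ 2 / N := by ring

theorem arc_pairs : ∃ C : ℝ, 0 < C ∧ ∀ (β H : ℝ) (N : ℕ), |β| ≤ 1 / 2 → 1 ≤ H → 1 ≤ N →
    ∑ j ∈ Finset.range N, ((arc β (reg β H) N j).card : ℝ) ^ (5 / 3 : ℝ) ≤ C * H ^ 2 * (1 + log H) * (1 + H ^ 2 / N) := by
  classical
  obtain ⟨C, hC, hp⟩ := reg_pairs
  refine ⟨768 * C, by positivity, fun β H N hβ hH hN => ?_⟩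
  have hN0 : (0 : ℝ) < N := by exact_mod_cast hN
  have hlog : 0 ≤ log H := log_nonneg hH
  have h1 := hp β H (768 * H ^ 2 / N) hβ hH (by positivity)
  have h2 : ∑ j ∈ Finset.range N, ((arc β (reg β H) N j).card : ℝ) ^ (5 / 3 : ℝ) ≤
      ∑ j ∈ Finset.range N, ((arc β (reg β H) N j ×ˢ arc β (reg β H) N j).card : ℝ) := by
    refine Finset.sum_le_sum fun j _ => ?_
    rw [Finset.card_product]
    push_cast
    rcases Nat.eq_zero_or_pos (arc β (reg β H) N j).card with h | h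
    · rw [h]
      norm_num
    · have h3 : (1 : ℝ) ≤ ((arc β (reg β H) N j).card : ℝ) := by exact_mod_cast h
      calc ((arc β (reg β H) N j).card : ℝ) ^ (5 / 3 : ℝ) ≤ ((arc β (reg β H) N j).card : ℝ) ^ (2 : ℝ) :=
            rpow_le_rpow_of_exponent_le h3 (by norm_num)
        _ = _ := by
            rw [rpow_two]
            ring
  have h3 : ∑ j ∈ Finset.range N, ((arc β (reg β H) N j ×ˢ arc β (reg β H) N j).card : ℝ) ≤
      (((reg β H ×ˢ reg β H).filter (fun q => |((dd q.1 q.2 : ℤ) : ℝ)| ≤ 768 * H ^ 2 / N)).card : ℝ) := by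
    have h4 : ((Finset.range N).biUnion fun j => arc β (reg β H) N j ×ˢ arc β (reg β H) N j).card =
        ∑ j ∈ Finset.range N, (arc β (reg β H) N j ×ˢ arc β (reg β H) N j).card := by
      refine Finset.card_biUnion fun i _ j _ hij => ?_
      refine Finset.disjoint_left.2 ?_
      rintro ⟨k, k'⟩ h5 h6
      have h7 := (Finset.mem_product.1 h5).1
      have h8 := (Finset.mem_product.1 h6).1
      unfold arc at h7 h8
      rw [Finset.mem_filter] at h7 h8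
      exact hij (h7.2.symm.trans h8.2)
    have h5 : ((Finset.range N).biUnion fun j => arc β (reg β H) N j ×ˢ arc β (reg β H) N j) ⊆
        (reg β H ×ˢ reg β H).filter (fun q => |((dd q.1 q.2 : ℤ) : ℝ)| ≤ 768 * H ^ 2 / N) := by
      intro q hq
      rw [Finset.mem_biUnion] at hq
      obtain ⟨j, -, hj⟩ := hq
      have h7 := (Finset.mem_product.1 hj).1
      have h8 := (Finset.mem_product.1 hj).2
      rw [Finset.mem_filter]
      refine ⟨Finset.mem_product.2 ⟨?_, ?_⟩, q5_arc hH hN h7 h8⟩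
      · unfold arc at h7
        exact (Finset.mem_filter.1 h7).1
      · unfold arc at h8
        exact (Finset.mem_filter.1 h8).1
    have h6 := Finset.card_le_card h5
    rw [h4] at h6
    exact_mod_cast h6
  refine (h2.trans h3).trans (h1.trans ?_)
  have h4 : 1 + 768 * H ^ 2 / N ≤ 768 * (1 + H ^ 2 / N) := by
    have : 768 * H ^ 2 / N = 768 * (H ^ 2 / N) := by ring
    rw [this]
    linarith
  calc C * H ^ 2 * (1 + log H) * (1 + 768 * H ^ 2 / N) ≤ C * H ^ 2 * (1 + log H) * (768 * (1 + H ^ 2 / N)) :=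
        mul_le_mul_of_nonneg_left h4 (by positivity)
    _ = _ := by ring

private lemma q5_m6_nonneg (S : Finset (ℤ × ℤ)) (a : ℤ × ℤ → ℂ) : 0 ≤ m6 S a := by
  unfold m6
  exact integral_nonneg fun c => by positivity

private lemma q5_big {ε : ℝ} (hε : 6 ≤ ε) : ∃ C : ℝ, 0 < C ∧ ∀ H ρ β : ℝ, 1 ≤ H → H ^ (3 - ε / 8) ≤ ρ → |β| ≤ 1 / 2 →
    ∫ r in Icc ρ (2 * ρ), m6 (reg β H) (fun k => ee (r * ph β k)) ≤ C * H ^ ε * ρ * H ^ 6 := by
  refine ⟨(10 ^ 4) ^ 6, by positivity, fun H ρ β hH hρ _ => ?_⟩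
  have hH0 : 0 < H := by linarith
  have hρ0 : 0 < ρ := lt_of_lt_of_le (rpow_pos_of_pos hH0 _) hρ
  have h1 : ∀ r ∈ Icc ρ (2 * ρ), ‖m6 (reg β H) (fun k => ee (r * ph β k))‖ ≤ (10 ^ 4) ^ 6 * H ^ ε * H ^ 6 := by
    intro r _
    rw [Real.norm_of_nonneg (q5_m6_nonneg _ _)]
    refine (m6_card _ (fun k => (ee_norm _).le)).trans ?_
    calc ((reg β H).card : ℝ) ^ 6 ≤ (10 ^ 4 * H ^ 2) ^ 6 := pow_le_pow_left₀ (by positivity) (reg_card hH) 6
      _ = (10 ^ 4) ^ 6 * H ^ 6 * H ^ 6 := by ring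
      _ ≤ (10 ^ 4) ^ 6 * H ^ ε * H ^ 6 := by
        have : H ^ 6 ≤ H ^ ε := by
          rw [← rpow_natCast H 6]
          exact rpow_le_rpow_of_exponent_le hH (by push_cast; exact hε)
        gcongr
  have h2 := norm_setIntegral_le_of_norm_le_const (μ := volume) (s := Icc ρ (2 * ρ))
    (by rw [Real.volume_Icc]; exact ENNReal.ofReal_lt_top) h1
  refine (le_norm_self _).trans (h2.trans (le_of_eq ?_))
  rw [Measure.real, Real.volume_Icc, ENNReal.toReal_ofReal (by linarith)]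
  ring

theorem shellA {ε : ℝ} (hε : 0 < ε) : ∃ C : ℝ, 0 < C ∧ ∀ H ρ β : ℝ, 1 ≤ H → H ^ (3 - ε / 8) ≤ ρ → |β| ≤ 1 / 2 →
    ∫ r in Icc ρ (2 * ρ), m6 (reg β H) (fun k => ee (r * ph β k)) ≤ C * H ^ ε * ρ * H ^ 6 := by
  rcases le_or_gt 6 ε with h6 | h6
  · exact q5_big h6
  obtain ⟨c₀, hc₀, Cd, hdw⟩ := exists_dw
  obtain ⟨M, N₁, hM, hN₁, C₁, hC₁, hdec⟩ := dec (ε := ε / 16) (by positivity)
  obtain ⟨C₂, hC₂, hpairs⟩ := arc_pairs
  have hM0 : (1 : ℝ) < M := by exact_mod_cast (by omega : 1 < M)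
  have hb : (1 : ℝ) < (M : ℝ) ^ N₁ := one_lt_pow₀ hM0 (by omega)
  have hb0 : (0 : ℝ) < (M : ℝ) ^ N₁ := by linarith
  refine ⟨2 / c₀ * (C₁ * (C₂ * (1 + 16 / ε) * (2 * (M : ℝ) ^ N₁))) ^ 3, by positivity, fun H ρ β hH hρ hβ => ?_⟩
  have hH0 : 0 < H := by linarith
  have hρ0 : 0 < ρ := lt_of_lt_of_le (rpow_pos_of_pos hH0 _) hρ
  have hA1 : 1 ≤ H ^ (ε / 16) := one_le_rpow hH (by positivity)
  have hlog : 1 + log H ≤ (1 + 16 / ε) * H ^ (ε / 16) := by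
    have h1 := log_le_rpow_div hH0.le (show 0 < ε / 16 by positivity)
    have h2 : H ^ (ε / 16) / (ε / 16) = 16 / ε * H ^ (ε / 16) := by field_simp
    rw [h2] at h1
    linarith
  have hlog0 : 0 ≤ log H := log_nonneg hH
  obtain ⟨m, hm1, hm2⟩ := exists_nat_pow_near (one_le_rpow hH (show (0 : ℝ) ≤ 2 - ε / 16 by linarith)) hb
  have hcast : ((M ^ (N₁ * m) : ℕ) : ℝ) = ((M : ℝ) ^ N₁) ^ m := by
    push_cast
    rw [pow_mul]
  have hpos : (0 : ℝ) < ((M : ℝ) ^ N₁) ^ m := by positivity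
  have hN1 : 1 ≤ M ^ (N₁ * m) := Nat.one_le_pow _ _ (by omega)
  -- the ratio
  have hratio : H ^ 2 / ((M ^ (N₁ * m) : ℕ) : ℝ) ≤ (M : ℝ) ^ N₁ * H ^ (ε / 16) := by
    rw [hcast, div_le_iff₀ hpos]
    have h1 : H ^ 2 = H ^ (2 - ε / 16) * H ^ (ε / 16) := by
      rw [← rpow_add hH0, ← rpow_natCast H 2]
      congr 1
      push_cast
      ring
    rw [h1]
    have h2 : H ^ (2 - ε / 16) ≤ ((M : ℝ) ^ N₁) ^ m * (M : ℝ) ^ N₁ := by
      rw [← pow_succ]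
      exact hm2.le
    calc H ^ (2 - ε / 16) * H ^ (ε / 16) ≤ (((M : ℝ) ^ N₁) ^ m * (M : ℝ) ^ N₁) * H ^ (ε / 16) :=
          mul_le_mul_of_nonneg_right h2 (by positivity)
      _ = _ := by ring
  have hc1 : (M : ℝ) ^ (2 * (N₁ * m)) ≤ 144 * (H * ρ) := by
    have h1 : (M : ℝ) ^ (2 * (N₁ * m)) = (((M : ℝ) ^ N₁) ^ m) ^ 2 := by
      rw [← pow_mul, ← pow_mul]
      congr 1
      ring
    have h2 : (((M : ℝ) ^ N₁) ^ m) ^ 2 ≤ (H ^ (2 - ε / 16)) ^ 2 := pow_le_pow_left₀ hpos.le hm1 2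
    have h3 : (H ^ (2 - ε / 16)) ^ 2 = H * H ^ (3 - ε / 8) := by
      have h8 : H * H ^ (3 - ε / 8) = H ^ (1 + (3 - ε / 8)) := by rw [rpow_add hH0, rpow_one]
      rw [h8, ← rpow_natCast (H ^ (2 - ε / 16)) 2, ← rpow_mul hH0.le]
      congr 1
      push_cast
      ring
    have h4 : H * H ^ (3 - ε / 8) ≤ H * ρ := mul_le_mul_of_nonneg_left hρ hH0.le
    have h5 : 0 < H * ρ := by positivity
    rw [h1]
    linarith
  have hc2 : (M : ℝ) ^ (N₁ * m) ≤ H ^ 3 := by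
    rw [pow_mul]
    refine hm1.trans ?_
    rw [← rpow_natCast H 3]
    exact rpow_le_rpow_of_exponent_le hH (by push_cast; linarith)
  have key : ∀ v : ℝ → ℝ, IsWt ρ v → n6 (mu v) (gs (reg β H) (fun _ => 1) (ph β)) ≤
      C₁ * (C₂ * (1 + 16 / ε) * (2 * (M : ℝ) ^ N₁)) * H ^ (2 + 3 * (ε / 16)) := by
    intro v hv
    have h1 := hdec m β H ρ v (fun _ => 1) hH hρ0 hv hc1 hc2
    have h2 : ∑ r ∈ Finset.range (M ^ (N₁ * m)), n6 (mu v) (gs (arc β (reg β H) (M ^ (N₁ * m)) r) (fun _ => 1) (ph β)) ≤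
        ∑ r ∈ Finset.range (M ^ (N₁ * m)), ((arc β (reg β H) (M ^ (N₁ * m)) r).card : ℝ) ^ (5 / 3 : ℝ) :=
      Finset.sum_le_sum fun r _ => n6_gs_card hv _ (fun _ => by rw [norm_one]) _
    have h3 := hpairs β H (M ^ (N₁ * m)) hβ hH hN1
    have h4 : C₂ * H ^ 2 * (1 + log H) * (1 + H ^ 2 / ((M ^ (N₁ * m) : ℕ) : ℝ)) ≤
        C₂ * H ^ 2 * ((1 + 16 / ε) * H ^ (ε / 16)) * (2 * (M : ℝ) ^ N₁ * H ^ (ε / 16)) := by
      have h5 : 1 + H ^ 2 / ((M ^ (N₁ * m) : ℕ) : ℝ) ≤ 2 * (M : ℝ) ^ N₁ * H ^ (ε / 16) := by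
        have h6 : 1 ≤ (M : ℝ) ^ N₁ * H ^ (ε / 16) := one_le_mul_of_one_le_of_one_le hb.le hA1
        linarith
      have h7 : 0 ≤ 1 + H ^ 2 / ((M ^ (N₁ * m) : ℕ) : ℝ) := by positivity
      have h8 : 0 ≤ 1 + log H := by linarith
      gcongr
    have h5 : H ^ (2 + 3 * (ε / 16)) = H ^ (ε / 16) * (H ^ 2 * H ^ (ε / 16) * H ^ (ε / 16)) := by
      rw [← rpow_natCast H 2, ← rpow_add hH0, ← rpow_add hH0, ← rpow_add hH0]
      congr 1
      push_cast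
      ring
    calc n6 (mu v) (gs (reg β H) (fun _ => 1) (ph β)) ≤ C₁ * H ^ (ε / 16) *
          (C₂ * H ^ 2 * ((1 + 16 / ε) * H ^ (ε / 16)) * (2 * (M : ℝ) ^ N₁ * H ^ (ε / 16))) :=
          h1.trans (mul_le_mul_of_nonneg_left (h2.trans (h3.trans h4)) (by positivity))
      _ = _ := by
        rw [h5]
        ring
  have hn0 : ∀ v : ℝ → ℝ, 0 ≤ n6 (mu v) (gs (reg β H) (fun _ => 1) (ph β)) := fun v => by
    unfold n6
    exact rpow_nonneg (integral_nonneg fun _ => by positivity) _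
  have hcov := cover (X := ρ) (ρ := ρ) (K := (C₁ * (C₂ * (1 + 16 / ε) * (2 * (M : ℝ) ^ N₁)) * H ^ (2 + 3 * (ε / 16))) ^ 3)
    (Cd := Cd) hρ0 le_rfl hc₀ (reg β H) (ph β) (fun R₁ _ => by
      obtain ⟨v, hv⟩ := hdw ρ hρ0 R₁
      exact ⟨v, hv, pow_le_pow_left₀ (hn0 v) (key v hv.wt) 3⟩)
  refine hcov.trans ?_
  have h9 : (H ^ (2 + 3 * (ε / 16))) ^ 3 ≤ H ^ ε * H ^ 6 := by
    rw [← rpow_natCast (H ^ (2 + 3 * (ε / 16))) 3, ← rpow_mul hH0.le, ← rpow_natCast H 6, ← rpow_add hH0]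
    exact rpow_le_rpow_of_exponent_le hH (by push_cast; linarith)
  rw [mul_pow]
  calc 2 * ρ / c₀ * ((C₁ * (C₂ * (1 + 16 / ε) * (2 * (M : ℝ) ^ N₁))) ^ 3 * (H ^ (2 + 3 * (ε / 16))) ^ 3) ≤
        2 * ρ / c₀ * ((C₁ * (C₂ * (1 + 16 / ε) * (2 * (M : ℝ) ^ N₁))) ^ 3 * (H ^ ε * H ^ 6)) := by
        gcongr
    _ = _ := by ring

end Pool.Agent.Helper92.GC
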