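import Pool.Agent.Helper92.GC.S1

/-!
# GC-E1: the sectors

`IsNd Q k n`: `n = (q, a)` has the least `q ≥ 1` with `|q k₂ - a k₁| Q ≤ k₁`, i.e. `|k₂/k₁ - a/q| ≤ 1/(qQ)`.
PROOFS. `nd_exists`: Dirichlet (`Real.exists_int_int_abs_mul_sub_le` with `n = Q - 1`... or with `n = Q`: `|q s - a| ≤ 1/(Q+1) ≤ 1/Q`, `1 ≤ q ≤ Q`) gives some `n'` with
`1 ≤ n'.1 ≤ Q`; take the least first coordinate (`Nat.find` or well-foundedness). `nd_coprime`: if `n = g n''` with `g ≥ 2` then `n''` satisfies `|dd n'' k| Q ≤ |dd n k| Q ≤ k.1`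
with smaller first coordinate. `0 ≤ n.2 ≤ n.1`: `|q s - a| ≤ 1/Q < 1` with `0 ≤ q s ≤ q` gives `-1 < a < q + 1`.
`nd_unique`: same first coordinate `q` by minimality; `|a - a'| k.1 = |dd n k - dd n' k| ≤ 2 k.1/Q < k.1` as `Q ≥ 3`.
`nd_convex`: Let `s_i = k_i.2/k_i.1`, `s₁ ≤ s₂ ≤ s₃`. `|q s₂ - a| ≤ 1/Q` by convexity (integer form: `dd n k / k.1 = q s - a` is monotone in `s`).
Let `n' = (q', a')` with `1 ≤ q' < q` and `|q' s₂ - a'| ≤ 1/Q`. By minimality `|q' s₁ - a'| > 1/Q` and `|q' s₃ - a'| > 1/Q`; as `q' s - a'` is increasing in `s` this means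
`q' s₁ - a' < -1/Q` and `q' s₃ - a' > 1/Q`, so `s₃ - s₁ > 2/(q' Q) > 2/(q Q) ≥ s₃ - s₁`, a contradiction.
-/

open MeasureTheory Real Set Filter Topology

set_option autoImplicit false

namespace Pool.Agent.Helper92.GC

open Pool.Agent.Helper22.AE
open Pool.Agent.Helper22.AC (n6 IsWt mu)

private theorem dir81 {Q : ℕ} (hQ : 3 ≤ Q) {k : ℤ × ℤ} (h1 : 1 ≤ k.1) :
    ∃ q a : ℤ, 1 ≤ q ∧ q ≤ Q ∧ |dd (q, a) k| * Q ≤ k.1 := by
  obtain ⟨a, q, hq0, hqQ, hqa⟩ := Real.exists_int_int_abs_mul_sub_le ((k.2 : ℝ) / k.1)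
    (n := Q) (by omega)
  refine ⟨q, a, by omega, hqQ, ?_⟩
  have hk : (0 : ℝ) < k.1 := by exact_mod_cast (by omega : 0 < k.1)
  have hQ0 : (0 : ℝ) ≤ Q := Nat.cast_nonneg Q
  have h2 : |((dd (q, a) k : ℤ) : ℝ)| = |(q : ℝ) * ((k.2 : ℝ) / k.1) - a| * k.1 := by
    rw [← abs_of_pos hk, ← abs_mul, abs_of_pos hk]
    congr 1
    unfold dd
    push_cast
    field_simp
  have h3 : ((|dd (q, a) k| * Q : ℤ) : ℝ) ≤ ((k.1 : ℤ) : ℝ) := by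
    push_cast
    rw [h2]
    have h4 : |(q : ℝ) * ((k.2 : ℝ) / k.1) - a| * Q ≤ 1 := by
      calc |(q : ℝ) * ((k.2 : ℝ) / k.1) - a| * Q ≤ 1 / ((Q : ℝ) + 1) * Q :=
            mul_le_mul_of_nonneg_right hqa hQ0
        _ ≤ 1 := by
            rw [div_mul_eq_mul_div, one_mul, div_le_one (by positivity)]
            linarith
    nlinarith
  exact_mod_cast h3

theorem nd_exists {Q : ℕ} (hQ : 3 ≤ Q) {k : ℤ × ℤ} (h1 : 1 ≤ k.1) (h2 : 0 ≤ k.2) (h3 : k.2 ≤ k.1) :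
    ∃ n, IsNd Q k n ∧ n.1 ≤ Q := by
  classical
  obtain ⟨q, a, hq1, hqQ, hqa⟩ := dir81 hQ h1
  have hex : ∃ m : ℕ, 1 ≤ m ∧ ∃ b : ℤ, |dd ((m : ℤ), b) k| * Q ≤ k.1 :=
    ⟨q.toNat, by omega, a, by rw [Int.toNat_of_nonneg (by omega)]; exact hqa⟩
  obtain ⟨hm1, b, hb⟩ := Nat.find_spec hex
  have hmin : ∀ n' : ℤ × ℤ, 1 ≤ n'.1 → |dd n' k| * Q ≤ k.1 → ((Nat.find hex : ℕ) : ℤ) ≤ n'.1 := by
    intro n' hn1 hn2
    have h4 : Nat.find hex ≤ n'.1.toNat := by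
      apply Nat.find_min' hex
      refine ⟨by omega, n'.2, ?_⟩
      rw [Int.toNat_of_nonneg (by omega)]
      exact hn2
    omega
  have hm1' : (1 : ℤ) ≤ ((Nat.find hex : ℕ) : ℤ) := by exact_mod_cast hm1
  refine ⟨((Nat.find hex : ℤ), b), ⟨hm1', hb, hmin⟩, ?_⟩
  exact (hmin (q, a) hq1 hqa).trans hqQ

theorem nd_coprime {Q : ℕ} {k n : ℤ × ℤ} (h : IsNd Q k n) : IsCoprime n.1 n.2 := by
  obtain ⟨h1, h2, h3⟩ := h
  rw [Int.isCoprime_iff_gcd_eq_one]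
  by_contra hg
  obtain ⟨g, hgdef⟩ : ∃ g : ℕ, g = Int.gcd n.1 n.2 := ⟨_, rfl⟩
  rw [← hgdef] at hg
  have hg0 : g ≠ 0 := by
    intro h0
    rw [h0] at hgdef
    have := (Int.gcd_eq_zero_iff.1 hgdef.symm).1
    omega
  have hg2 : 2 ≤ g := by omega
  obtain ⟨u, hu⟩ : (g : ℤ) ∣ n.1 := by rw [hgdef]; exact Int.gcd_dvd_left ..
  obtain ⟨v, hv⟩ : (g : ℤ) ∣ n.2 := by rw [hgdef]; exact Int.gcd_dvd_right ..
  have hgZ : (2 : ℤ) ≤ (g : ℤ) := by exact_mod_cast hg2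
  have hu1 : 1 ≤ u := by
    by_contra hu0
    have hu0' : u ≤ 0 := by omega
    have : (g : ℤ) * u ≤ 0 := mul_nonpos_of_nonneg_of_nonpos (by omega) hu0'
    omega
  have hdd : dd n k = g * dd (u, v) k := by
    unfold dd
    rw [hu, hv]
    ring
  have hle : |dd (u, v) k| ≤ |dd n k| := by
    rw [hdd, abs_mul]
    have h4 : |(g : ℤ)| = g := abs_of_nonneg (by omega)
    rw [h4]
    have h5 := abs_nonneg (dd (u, v) k)
    nlinarith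
  have h6 := h3 (u, v) hu1 ((mul_le_mul_of_nonneg_right hle (by positivity)).trans h2)
  have h7 : n.1 ≤ u := h6
  rw [hu] at h7
  nlinarith

theorem nd_range {Q : ℕ} (hQ : 3 ≤ Q) {k n : ℤ × ℤ} (h1 : 1 ≤ k.1) (h2 : 0 ≤ k.2) (h3 : k.2 ≤ k.1) (h : IsNd Q k n) :
    0 ≤ n.2 ∧ n.2 ≤ n.1 ∧ n.1 ≤ Q := by
  obtain ⟨hn1, hn2, hn3⟩ := h
  have hQZ : (3 : ℤ) ≤ (Q : ℤ) := by exact_mod_cast hQ
  have hlt : |dd n k| < k.1 := by
    by_contra hc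
    rw [not_lt] at hc
    nlinarith
  rw [abs_lt] at hlt
  unfold dd at hlt
  obtain ⟨hl, hr⟩ := hlt
  refine ⟨?_, ?_, ?_⟩
  · by_contra hc
    have hc' : n.2 ≤ -1 := by omega
    have h4 : n.2 * k.1 ≤ -1 * k.1 := mul_le_mul_of_nonneg_right hc' (by omega)
    have h5 : 0 ≤ n.1 * k.2 := mul_nonneg (by omega) h2
    linarith
  · by_contra hc
    have hc' : n.1 + 1 ≤ n.2 := by omega
    have h4 : (n.1 + 1) * k.1 ≤ n.2 * k.1 := mul_le_mul_of_nonneg_right hc' (by omega)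
    have h5 : n.1 * k.2 ≤ n.1 * k.1 := mul_le_mul_of_nonneg_left h3 (by omega)
    linarith
  · obtain ⟨q, a, hq1, hqQ, hqa⟩ := dir81 hQ h1
    exact (hn3 (q, a) hq1 hqa).trans hqQ

theorem nd_unique {Q : ℕ} (hQ : 3 ≤ Q) {k n n' : ℤ × ℤ} (h1 : 1 ≤ k.1) (h : IsNd Q k n) (h' : IsNd Q k n') : n = n' := by
  obtain ⟨hn1, hn2, hn3⟩ := h
  obtain ⟨hn1', hn2', hn3'⟩ := h'
  have hQZ : (3 : ℤ) ≤ (Q : ℤ) := by exact_mod_cast hQ
  have e1 : n.1 = n'.1 := le_antisymm (hn3 n' hn1' hn2') (hn3' n hn1 hn2)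
  have e2 : n.2 = n'.2 := by
    have h4 : dd n' k - dd n k = (n.2 - n'.2) * k.1 := by
      unfold dd
      rw [e1]
      ring
    have h5 : |n.2 - n'.2| * k.1 ≤ |dd n' k| + |dd n k| := by
      calc |n.2 - n'.2| * k.1 = |(n.2 - n'.2) * k.1| := by
            rw [abs_mul, abs_of_nonneg (by omega : 0 ≤ k.1)]
        _ = |dd n' k - dd n k| := by rw [h4]
        _ ≤ |dd n' k| + |dd n k| := abs_sub _ _
    have h6 : |n.2 - n'.2| * k.1 * Q ≤ 2 * k.1 := by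
      calc |n.2 - n'.2| * k.1 * Q ≤ (|dd n' k| + |dd n k|) * Q :=
            mul_le_mul_of_nonneg_right h5 (by omega)
        _ = |dd n' k| * Q + |dd n k| * Q := by ring
        _ ≤ 2 * k.1 := by linarith
    by_contra hne
    have h7 : 1 ≤ |n.2 - n'.2| := by
      have h8 : 0 < |n.2 - n'.2| := abs_pos.2 (sub_ne_zero.2 hne)
      omega
    have h8 : 1 * k.1 ≤ |n.2 - n'.2| * k.1 := mul_le_mul_of_nonneg_right h7 (by omega)
    have h9 : 3 * (1 * k.1) ≤ Q * (|n.2 - n'.2| * k.1) :=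
      mul_le_mul hQZ h8 (by omega) (by omega)
    nlinarith
  exact Prod.ext e1 e2

/-- monotonicity of the slopes, integer form -/
private theorem mono81 {k l n : ℤ × ℤ} (hn : 0 ≤ n.1) (h : k.2 * l.1 ≤ l.2 * k.1) :
    dd n k * l.1 ≤ dd n l * k.1 := by
  have h1 : dd n l * k.1 - dd n k * l.1 = n.1 * (l.2 * k.1 - k.2 * l.1) := by
    unfold dd
    ring
  have h2 : 0 ≤ n.1 * (l.2 * k.1 - k.2 * l.1) := mul_nonneg hn (by linarith)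
  linarith

/-- an upper bound moves to the left -/
private theorem up81 {k l n : ℤ × ℤ} {Q : ℤ} (hQ : 0 ≤ Q) (hn : 0 ≤ n.1) (hk : 1 ≤ k.1) (hl : 1 ≤ l.1)
    (h : k.2 * l.1 ≤ l.2 * k.1) (hu : dd n l * Q ≤ l.1) : dd n k * Q ≤ k.1 := by
  have h1 := mono81 hn h
  have h2 : dd n k * Q * l.1 ≤ k.1 * l.1 := by
    calc dd n k * Q * l.1 = dd n k * l.1 * Q := by ring
      _ ≤ dd n l * k.1 * Q := mul_le_mul_of_nonneg_right h1 hQ
      _ = dd n l * Q * k.1 := by ring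
      _ ≤ l.1 * k.1 := mul_le_mul_of_nonneg_right hu (by omega)
      _ = k.1 * l.1 := by ring
  exact le_of_mul_le_mul_right h2 (by omega)

/-- a lower bound moves to the right -/
private theorem lo81 {k l n : ℤ × ℤ} {Q : ℤ} (hQ : 0 ≤ Q) (hn : 0 ≤ n.1) (hk : 1 ≤ k.1) (hl : 1 ≤ l.1)
    (h : k.2 * l.1 ≤ l.2 * k.1) (hu : -k.1 ≤ dd n k * Q) : -l.1 ≤ dd n l * Q := by
  have h1 := mono81 hn h
  have h2 : -l.1 * k.1 ≤ dd n l * Q * k.1 := by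
    calc -l.1 * k.1 = -k.1 * l.1 := by ring
      _ ≤ dd n k * Q * l.1 := mul_le_mul_of_nonneg_right hu (by omega)
      _ = dd n k * l.1 * Q := by ring
      _ ≤ dd n l * k.1 * Q := mul_le_mul_of_nonneg_right h1 hQ
      _ = dd n l * Q * k.1 := by ring
  exact le_of_mul_le_mul_right h2 (by omega)

private theorem abs_iff81 {x Q y : ℤ} (hQ : 0 ≤ Q) : |x| * Q ≤ y ↔ -y ≤ x * Q ∧ x * Q ≤ y := by
  have h1 : |x| * Q = |x * Q| := by rw [abs_mul, abs_of_nonneg hQ]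
  rw [h1, abs_le]

theorem nd_convex {Q : ℕ} (hQ : 3 ≤ Q) {k₁ k₂ k₃ n : ℤ × ℤ} (h1 : 1 ≤ k₁.1) (h2 : 1 ≤ k₂.1) (h3 : 1 ≤ k₃.1)
    (hn1 : IsNd Q k₁ n) (hn3 : IsNd Q k₃ n) (hl : k₁.2 * k₂.1 ≤ k₂.2 * k₁.1) (hr : k₂.2 * k₃.1 ≤ k₃.2 * k₂.1) :
    IsNd Q k₂ n := by
  obtain ⟨hq, ha1, hm1⟩ := hn1
  obtain ⟨-, ha3, hm3⟩ := hn3
  have hQ0 : (0 : ℤ) ≤ (Q : ℤ) := by positivity
  have hQ1 : (0 : ℤ) < (Q : ℤ) := by exact_mod_cast (by omega : 0 < Q)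
  rw [abs_iff81 hQ0] at ha1 ha3
  refine ⟨hq, ?_, ?_⟩
  · rw [abs_iff81 hQ0]
    exact ⟨lo81 hQ0 (by omega) h1 h2 hl ha1.1, up81 hQ0 (by omega) h2 h3 hr ha3.2⟩
  · intro n' hn' hd
    rw [abs_iff81 hQ0] at hd
    by_contra hlt
    rw [not_le] at hlt
    have hno1 : ¬ |dd n' k₁| * Q ≤ k₁.1 := fun h => absurd (hm1 n' hn' h) (not_le.2 hlt)
    have hno3 : ¬ |dd n' k₃| * Q ≤ k₃.1 := fun h => absurd (hm3 n' hn' h) (not_le.2 hlt)
    rw [abs_iff81 hQ0] at hno1 hno3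
    have u1 : dd n' k₁ * Q ≤ k₁.1 := up81 hQ0 (by omega) h1 h2 hl hd.2
    have l3 : -k₃.1 ≤ dd n' k₃ * Q := lo81 hQ0 (by omega) h2 h3 hr hd.1
    have hl1 : dd n' k₁ * Q < -k₁.1 := by
      by_contra hc
      exact hno1 ⟨not_lt.1 hc, u1⟩
    have hl3 : k₃.1 < dd n' k₃ * Q := by
      by_contra hc
      exact hno3 ⟨l3, not_lt.1 hc⟩
    set X : ℤ := k₃.2 * k₁.1 - k₁.2 * k₃.1 with hX
    have e1 : dd n k₃ * k₁.1 - dd n k₁ * k₃.1 = n.1 * X := by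
      unfold dd
      rw [hX]
      ring
    have e2 : dd n' k₃ * k₁.1 - dd n' k₁ * k₃.1 = n'.1 * X := by
      unfold dd
      rw [hX]
      ring
    have a1 : n'.1 * X * Q > 2 * (k₁.1 * k₃.1) := by
      have b1 : k₃.1 * k₁.1 < dd n' k₃ * Q * k₁.1 := mul_lt_mul_of_pos_right hl3 (by omega)
      have b2 : dd n' k₁ * Q * k₃.1 < -k₁.1 * k₃.1 := mul_lt_mul_of_pos_right hl1 (by omega)
      have b3 : n'.1 * X * Q = dd n' k₃ * Q * k₁.1 - dd n' k₁ * Q * k₃.1 := by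
        rw [← e2]
        ring
      rw [b3]
      nlinarith
    have a2 : n.1 * X * Q ≤ 2 * (k₁.1 * k₃.1) := by
      have b1 : dd n k₃ * Q * k₁.1 ≤ k₃.1 * k₁.1 := mul_le_mul_of_nonneg_right ha3.2 (by omega)
      have b2 : -k₁.1 * k₃.1 ≤ dd n k₁ * Q * k₃.1 := mul_le_mul_of_nonneg_right ha1.1 (by omega)
      have b3 : n.1 * X * Q = dd n k₃ * Q * k₁.1 - dd n k₁ * Q * k₃.1 := by
        rw [← e1]
        ring
      rw [b3]
      nlinarith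
    have hXQ : 0 < X * Q := by
      by_contra hc
      have hc' : X * Q ≤ 0 := not_lt.1 hc
      have h4 : n'.1 * (X * Q) ≤ 0 := mul_nonpos_of_nonneg_of_nonpos (by omega) hc'
      have h5 : 0 < k₁.1 * k₃.1 := mul_pos (by omega) (by omega)
      nlinarith
    have h6 : n'.1 * (X * Q) < n.1 * (X * Q) := mul_lt_mul_of_pos_right hlt hXQ
    nlinarith

end Pool.Agent.Helper92.GC
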