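import Pool.Agent.Helper92.GC.S1

/-!
# GC-S2: the number of matrices of SL₂(ℤ) of bounded norm

PROOF. For `w = (a, b, c, d)` with `a d - b c = 1` the column `(a, c)` is non zero and has norm at most `F`: at most `(2F+1)² ≤ 9 F²` choices. Given `(a, c)`, two solutions
`(b, d)`, `(b', d')` differ by `m (a, c)` for an integer `m` (coprimality), and `|m| |(a, c)| ≤ 2 F`, so there are at most `4 F / |(a,c)| + 1 ≤ 5 F/|(a,c)|` of them
(`|(a,c)| ≤ F`). Sum: `∑_{0 < |v| ≤ F} 5 F / |v| ≤ C F²`: with `|v| ≥ max(|a|,|c|) = r`, at most `8 r` vectors for each `r ≤ F`: `∑_{r ≤ F} 8 r · 5 F / r ≤ 40 F²`.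
`good_card`: `q` and `a` are integers with `P/2 < q ≤ P`, `0 ≤ a ≤ q`: at most `(P/2 + 1)(P + 1) ≤ 3 P²`.
-/

open MeasureTheory Real Set Filter Topology

set_option autoImplicit false

namespace Pool.Agent.Helper92.GC

open Pool.Agent.Helper22.AE
open Pool.Agent.Helper22.AC (n6 IsWt mu)

private lemma card_Icc_neg64 {K : ℤ} (hK : 0 ≤ K) : ((Finset.Icc (-K) K).card : ℝ) = 2 * K + 1 := by
  rw [Int.card_Icc]
  have h1 : ((K + 1 - -K).toNat : ℤ) = 2 * K + 1 := by omega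
  exact_mod_cast h1

private lemma fib64 {F : ℝ} {a c : ℤ} (ha : a ≠ 0) (haF : |(a : ℝ)| ≤ F) (T : Finset (ℤ × ℤ × ℤ × ℤ))
    (hT : ∀ w ∈ T, w.1 = a ∧ w.2.2.1 = c ∧ w.1 * w.2.2.2 - w.2.1 * w.2.2.1 = 1 ∧ |(w.2.1 : ℝ)| ≤ F) :
    (T.card : ℝ) ≤ 5 * F / |(a : ℝ)| := by
  have hapos : 0 < |(a : ℝ)| := abs_pos.mpr (by exact_mod_cast ha)
  have hF0 : 0 ≤ F := hapos.le.trans haF
  rcases T.eq_empty_or_nonempty with h0 | ⟨w₀, hw₀⟩
  · rw [h0]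
    simp only [Finset.card_empty, Nat.cast_zero]
    positivity
  obtain ⟨e1, e2, e3, e4⟩ := hT w₀ hw₀
  set K : ℤ := ⌊2 * F / |(a : ℝ)|⌋ with hK
  have hK0 : 0 ≤ K := Int.floor_nonneg.mpr (by positivity)
  have hdvd : ∀ w ∈ T, a ∣ w.2.1 - w₀.2.1 := by
    intro w hw
    obtain ⟨f1, f2, f3, f4⟩ := hT w hw
    rw [f1, f2] at f3
    rw [e1, e2] at e3
    have h1 : a ∣ (w.2.1 - w₀.2.1) * c := ⟨w.2.2.2 - w₀.2.2.2, by linear_combination e3 - f3⟩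
    have h2 : IsCoprime a c := ⟨w.2.2.2, -w.2.1, by linear_combination f3⟩
    exact h2.dvd_of_dvd_mul_right h1
  have hcard : T.card ≤ (Finset.Icc (-K) K).card := by
    refine Finset.card_le_card_of_injOn (fun w => (w.2.1 - w₀.2.1) / a) ?_ ?_
    · intro w hw
      have hw' : w ∈ T := hw
      obtain ⟨f1, f2, f3, f4⟩ := hT w hw'
      have h1 : a * ((w.2.1 - w₀.2.1) / a) = w.2.1 - w₀.2.1 := Int.mul_ediv_cancel' (hdvd w hw')
      have h2 : |(((w.2.1 - w₀.2.1) / a : ℤ) : ℝ)| ≤ 2 * F / |(a : ℝ)| := by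
        rw [le_div_iff₀ hapos, ← abs_mul]
        have h3 : (((w.2.1 - w₀.2.1) / a : ℤ) : ℝ) * (a : ℝ) = (w.2.1 : ℝ) - w₀.2.1 := by
          rw [mul_comm]
          exact_mod_cast h1
        rw [h3]
        calc |(w.2.1 : ℝ) - w₀.2.1| ≤ |(w.2.1 : ℝ)| + |(w₀.2.1 : ℝ)| := abs_sub _ _
          _ ≤ 2 * F := by linarith
      have h3 := abs_le.mp h2
      simp only [Finset.coe_Icc, Set.mem_Icc]
      constructor
      · have h4 : -((w.2.1 - w₀.2.1) / a) ≤ K := by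
          rw [hK]
          apply Int.le_floor.mpr
          push_cast
          linarith [h3.1]
        linarith
      · exact Int.le_floor.mpr h3.2
    · intro w hw w' hw' hww
      have hw1 : w ∈ T := hw
      have hw2 : w' ∈ T := hw'
      obtain ⟨f1, f2, f3, f4⟩ := hT w hw1
      obtain ⟨g1, g2, g3, g4⟩ := hT w' hw2
      have h1 : a * ((w.2.1 - w₀.2.1) / a) = w.2.1 - w₀.2.1 := Int.mul_ediv_cancel' (hdvd w hw1)
      have h2 : a * ((w'.2.1 - w₀.2.1) / a) = w'.2.1 - w₀.2.1 := Int.mul_ediv_cancel' (hdvd w' hw2)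
      have h3 : (w.2.1 - w₀.2.1) / a = (w'.2.1 - w₀.2.1) / a := hww
      rw [h3] at h1
      have h4 : w.2.1 = w'.2.1 := by linarith
      have h5 : w.2.2.2 = w'.2.2.2 := by
        rw [f1, f2, h4] at f3
        rw [g1, g2] at g3
        have h6 : a * w.2.2.2 = a * w'.2.2.2 := by linarith
        exact mul_left_cancel₀ ha h6
      refine Prod.ext (f1.trans g1.symm) (Prod.ext h4 (Prod.ext (f2.trans g2.symm) h5))
  have hcard' : (T.card : ℝ) ≤ 2 * K + 1 := by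
    rw [← card_Icc_neg64 hK0]
    exact_mod_cast hcard
  have h5 : (K : ℝ) ≤ 2 * F / |(a : ℝ)| := Int.floor_le _
  have h6 : 1 ≤ F / |(a : ℝ)| := by
    rw [le_div_iff₀ hapos, one_mul]
    exact haF
  have h7 : 2 * F / |(a : ℝ)| = 2 * (F / |(a : ℝ)|) := by ring
  have h8 : 5 * F / |(a : ℝ)| = 5 * (F / |(a : ℝ)|) := by ring
  rw [h7] at h5
  rw [h8]
  linarith

private lemma half64 {F : ℝ} (hF : 1 ≤ F) (W : Finset (ℤ × ℤ × ℤ × ℤ))
    (hW : ∀ w ∈ W, w.1 * w.2.2.2 - w.2.1 * w.2.2.1 = 1 ∧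
      ((w.1 ^ 2 + w.2.1 ^ 2 + w.2.2.1 ^ 2 + w.2.2.2 ^ 2 : ℤ) : ℝ) ≤ F ^ 2) (hle : ∀ w ∈ W, |w.2.2.1| ≤ |w.1|) :
    (W.card : ℝ) ≤ 30 * F ^ 2 := by
  classical
  have hF0 : 0 ≤ F := by linarith
  have hb : ∀ w ∈ W, |(w.1 : ℝ)| ≤ F ∧ |(w.2.1 : ℝ)| ≤ F := by
    intro w hw
    have h1 := (hW w hw).2
    push_cast at h1
    constructor
    · apply abs_le_of_sq_le_sq _ hF0
      nlinarith [sq_nonneg (w.2.1 : ℝ), sq_nonneg (w.2.2.1 : ℝ), sq_nonneg (w.2.2.2 : ℝ)]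
    · apply abs_le_of_sq_le_sq _ hF0
      nlinarith [sq_nonneg (w.1 : ℝ), sq_nonneg (w.2.2.1 : ℝ), sq_nonneg (w.2.2.2 : ℝ)]
  have ha0 : ∀ w ∈ W, w.1 ≠ 0 := by
    intro w hw h0
    have h1 := hle w hw
    rw [h0, abs_zero] at h1
    have h2 : w.2.2.1 = 0 := abs_eq_zero.mp (le_antisymm h1 (abs_nonneg _))
    have h3 := (hW w hw).1
    rw [h0, h2] at h3
    simp at h3
  -- step A
  have hA : ∀ a : ℤ, a ≠ 0 → |(a : ℝ)| ≤ F → (((W.filter fun w => w.1 = a).card : ℕ) : ℝ) ≤ 15 * F := by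
    intro a ha haF
    have hapos : 0 < |(a : ℝ)| := abs_pos.mpr (by exact_mod_cast ha)
    have ha1 : 1 ≤ |(a : ℝ)| := by
      have h1 : 1 ≤ |a| := Int.one_le_abs ha
      exact_mod_cast h1
    have h1 := Finset.card_le_mul_card_image_of_maps_to (s := W.filter fun w => w.1 = a) (t := Finset.Icc (-|a|) |a|)
      (f := fun w : ℤ × ℤ × ℤ × ℤ => w.2.2.1) (by
        intro w hw
        rw [Finset.mem_filter] at hw
        have h2 := hle w hw.1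
        rw [hw.2] at h2
        exact Finset.mem_Icc.mpr (abs_le.mp h2)) ⌊5 * F / |(a : ℝ)|⌋₊ (by
        intro c _
        apply Nat.le_floor
        refine fib64 (c := c) ha haF _ ?_
        intro w hw
        rw [Finset.mem_filter, Finset.mem_filter] at hw
        exact ⟨hw.1.2, hw.2, (hW w hw.1.1).1, (hb w hw.1.1).2⟩)
    have h2 : (((W.filter fun w => w.1 = a).card : ℕ) : ℝ) ≤ (⌊5 * F / |(a : ℝ)|⌋₊ : ℝ) * ((Finset.Icc (-|a|) |a|).card : ℝ) := by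
      exact_mod_cast h1
    rw [card_Icc_neg64 (abs_nonneg a)] at h2
    have h3 : (⌊5 * F / |(a : ℝ)|⌋₊ : ℝ) ≤ 5 * F / |(a : ℝ)| := Nat.floor_le (by positivity)
    have h4 : (2 * ((|a| : ℤ) : ℝ) + 1) ≤ 3 * |(a : ℝ)| := by
      rw [Int.cast_abs]
      linarith
    calc (((W.filter fun w => w.1 = a).card : ℕ) : ℝ) ≤ (⌊5 * F / |(a : ℝ)|⌋₊ : ℝ) * (2 * ((|a| : ℤ) : ℝ) + 1) := h2
      _ ≤ 5 * F / |(a : ℝ)| * (3 * |(a : ℝ)|) := by
          apply mul_le_mul h3 h4 _ (by positivity)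
          positivity
      _ = 15 * F := by
          field_simp
          ring
  -- step B
  set M : ℤ := ⌊F⌋ with hM
  have hM0 : 0 ≤ M := Int.floor_nonneg.mpr hF0
  have h1 := Finset.card_le_mul_card_image_of_maps_to (s := W) (t := (Finset.Icc (-M) M).erase 0)
      (f := fun w : ℤ × ℤ × ℤ × ℤ => w.1) (by
        intro w hw
        rw [Finset.mem_erase, Finset.mem_Icc]
        have h2 := abs_le.mp (hb w hw).1
        refine ⟨ha0 w hw, ?_, Int.le_floor.mpr h2.2⟩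
        have h3 : -w.1 ≤ M := Int.le_floor.mpr (by push_cast; linarith [h2.1])
        linarith) ⌊15 * F⌋₊ (by
        intro a ha
        rw [Finset.mem_erase, Finset.mem_Icc] at ha
        apply Nat.le_floor
        apply hA a ha.1
        have h2 : |a| ≤ M := abs_le.mpr ha.2
        have h3 : ((|a| : ℤ) : ℝ) ≤ F := (by exact_mod_cast h2 : ((|a| : ℤ) : ℝ) ≤ (M : ℝ)).trans (Int.floor_le F)
        rwa [Int.cast_abs] at h3)
  have h2 : (((Finset.Icc (-M) M).erase 0).card : ℝ) = 2 * M := by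
    have h3 : (0 : ℤ) ∈ Finset.Icc (-M) M := Finset.mem_Icc.mpr ⟨by omega, hM0⟩
    have h4 := Finset.card_erase_add_one h3
    have h5 := card_Icc_neg64 hM0
    rw [← h4] at h5
    push_cast at h5
    linarith
  have h3 : (W.card : ℝ) ≤ (⌊15 * F⌋₊ : ℝ) * (((Finset.Icc (-M) M).erase 0).card : ℝ) := by exact_mod_cast h1
  rw [h2] at h3
  have h4 : (⌊15 * F⌋₊ : ℝ) ≤ 15 * F := Nat.floor_le (by positivity)
  have h5 : (M : ℝ) ≤ F := Int.floor_le F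
  have h6 : (0 : ℝ) ≤ M := by exact_mod_cast hM0
  calc (W.card : ℝ) ≤ (⌊15 * F⌋₊ : ℝ) * (2 * M) := h3
    _ ≤ 15 * F * (2 * F) := by
        apply mul_le_mul h4 _ (by positivity) (by positivity)
        linarith
    _ = 30 * F ^ 2 := by ring

theorem sl_count : ∃ C : ℝ, 0 < C ∧ ∀ F : ℝ, 1 ≤ F → ∀ W : Finset (ℤ × ℤ × ℤ × ℤ),
    (∀ w ∈ W, w.1 * w.2.2.2 - w.2.1 * w.2.2.1 = 1 ∧
      ((w.1 ^ 2 + w.2.1 ^ 2 + w.2.2.1 ^ 2 + w.2.2.2 ^ 2 : ℤ) : ℝ) ≤ F ^ 2) → (W.card : ℝ) ≤ C * F ^ 2 := by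
  classical
  refine ⟨60, by norm_num, fun F hF W hW => ?_⟩
  have h1 := half64 hF (W.filter fun w => |w.2.2.1| ≤ |w.1|) (fun w hw => hW w (Finset.mem_filter.mp hw).1)
    fun w hw => (Finset.mem_filter.mp hw).2
  let τ : ℤ × ℤ × ℤ × ℤ → ℤ × ℤ × ℤ × ℤ := fun w => (w.2.2.1, w.2.2.2, -w.1, -w.2.1)
  have hτ : Function.Injective τ := by
    rintro ⟨a, b, c, d⟩ ⟨a', b', c', d'⟩ h
    simp only [τ, Prod.mk.injEq, neg_inj] at h
    obtain ⟨h1, h2, h3, h4⟩ := h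
    rw [h1, h2, h3, h4]
  have h2 := half64 hF ((W.filter fun w => ¬ |w.2.2.1| ≤ |w.1|).image τ) (by
    intro w hw
    obtain ⟨w', hw', rfl⟩ := Finset.mem_image.mp hw
    obtain ⟨e1, e2⟩ := hW w' (Finset.mem_filter.mp hw').1
    constructor
    · simp only [τ]
      linear_combination e1
    · simp only [τ]
      push_cast at e2 ⊢
      linarith) (by
    intro w hw
    obtain ⟨w', hw', rfl⟩ := Finset.mem_image.mp hw
    have h3 := (Finset.mem_filter.mp hw').2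
    simp only [τ, abs_neg]
    exact (not_le.mp h3).le)
  rw [Finset.card_image_of_injective _ hτ] at h2
  have h3 := Finset.card_filter_add_card_filter_not (s := W) (fun w : ℤ × ℤ × ℤ × ℤ => |w.2.2.1| ≤ |w.1|)
  have h4 : (W.card : ℝ) = ((W.filter fun w => |w.2.2.1| ≤ |w.1|).card : ℝ) + ((W.filter fun w => ¬ |w.2.2.1| ≤ |w.1|).card : ℝ) := by
    exact_mod_cast h3.symm
  linarith

theorem good_card {P : ℝ} (hP : 1 ≤ P) (W : Finset (ℤ × ℤ)) (hW : ∀ n ∈ W, Good P n) : (W.card : ℝ) ≤ 3 * P ^ 2 := by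
  have hsub : W ⊆ Finset.Ioc ⌊P / 2⌋ ⌊P⌋ ×ˢ Finset.Icc 0 ⌊P⌋ := by
    intro n hn
    have h := hW n hn
    rw [Finset.mem_product, Finset.mem_Ioc, Finset.mem_Icc]
    have h1 : n.1 ≤ ⌊P⌋ := Int.le_floor.mpr h.hi
    exact ⟨⟨Int.floor_lt.mpr h.lo, h1⟩, h.nonneg, h.le.trans h1⟩
  have h1 := Finset.card_le_card hsub
  rw [Finset.card_product, Int.card_Ioc, Int.card_Icc] at h1
  have h2 : (W.card : ℝ) ≤ ((⌊P⌋ - ⌊P / 2⌋).toNat : ℝ) * ((⌊P⌋ + 1 - 0).toNat : ℝ) := by exact_mod_cast h1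
  have h3 : ((⌊P⌋ - ⌊P / 2⌋).toNat : ℝ) ≤ P / 2 + 1 := by
    have h4 : ⌊P / 2⌋ ≤ ⌊P⌋ := Int.floor_le_floor (by linarith)
    have h5 : ((⌊P⌋ - ⌊P / 2⌋).toNat : ℤ) = ⌊P⌋ - ⌊P / 2⌋ := Int.toNat_of_nonneg (by linarith)
    have h6 : ((⌊P⌋ - ⌊P / 2⌋).toNat : ℝ) = (⌊P⌋ : ℝ) - ⌊P / 2⌋ := by exact_mod_cast h5
    rw [h6]
    linarith [Int.floor_le P, Int.lt_floor_add_one (P / 2)]
  have h4 : ((⌊P⌋ + 1 - 0).toNat : ℝ) ≤ P + 1 := by
    have h4 : 0 ≤ ⌊P⌋ := Int.floor_nonneg.mpr (by linarith)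
    have h5 : ((⌊P⌋ + 1 - 0).toNat : ℤ) = ⌊P⌋ + 1 := by omega
    have h6 : ((⌊P⌋ + 1 - 0).toNat : ℝ) = (⌊P⌋ : ℝ) + 1 := by exact_mod_cast h5
    rw [h6]
    linarith [Int.floor_le P]
  calc (W.card : ℝ) ≤ ((⌊P⌋ - ⌊P / 2⌋).toNat : ℝ) * ((⌊P⌋ + 1 - 0).toNat : ℝ) := h2
    _ ≤ (P / 2 + 1) * (P + 1) := mul_le_mul h3 h4 (by positivity) (by linarith)
    _ ≤ 3 * P ^ 2 := by nlinarith

end Pool.Agent.Helper92.GC
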