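import Pool.Agent.Helper22.AE.Defs
import Pool.Agent.Helper22.AC.Defs

/-!
# Project GC (MP_fb29e9_nt): exponent 62/99 for the circle problem. Definitions

Plan: /team-store/h92_GC_plan.md. `ee x = exp (2 π i x)` (AE.Defs), `n6`, `IsWt`, `mu`, `Sys` (AC.Defs).
-/

open MeasureTheory Real Set Filter Topology

set_option autoImplicit false

namespace Pool.Agent.Helper92.GC

open Pool.Agent.Helper22.AE
open Pool.Agent.Helper22.AC (n6 IsWt mu)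

/-- scalar product of a frequency and a point -/
noncomputable def dt (k : ℤ × ℤ) (c : ℝ × ℝ) : ℝ := (k.1 : ℝ) * c.1 + (k.2 : ℝ) * c.2

/-- trigonometric polynomial with frequencies in `S` -/
noncomputable def tp (S : Finset (ℤ × ℤ)) (a : ℤ × ℤ → ℂ) (c : ℝ × ℝ) : ℂ := ∑ k ∈ S, a k * ee (dt k c)

/-- the unit square -/
def Tq : Set (ℝ × ℝ) := Icc (0 : ℝ) 1 ×ˢ Icc (0 : ℝ) 1

/-- the sixth moment of a trigonometric polynomial -/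
noncomputable def m6 (S : Finset (ℤ × ℤ)) (a : ℤ × ℤ → ℂ) : ℝ := ∫ c in Tq, ‖tp S a c‖ ^ 6

/-- `b` is a multiplier of norm at most `C` for the `L⁶` norm of polynomials with frequencies in `S` -/
def IsMul (S : Finset (ℤ × ℤ)) (b : ℤ × ℤ → ℂ) (C : ℝ) : Prop :=
  0 ≤ C ∧ ∀ a : ℤ × ℤ → ℂ, m6 S (fun k => b k * a k) ≤ C ^ 6 * m6 S a

/-- the positive cone of a total order of the group `ℤ × ℤ` -/
structure IsPos (P : ℤ × ℤ → Prop) : Prop where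
  zero : ¬ P 0
  add : ∀ k l, P k → P l → P (k + l)
  tri : ∀ k, k ≠ 0 → P k ∨ P (-k)

/-- the coordinate `u = h + β j` -/
noncomputable def uu (β : ℝ) (k : ℤ × ℤ) : ℝ := (k.1 : ℝ) + β * (k.2 : ℝ)

/-- the slope `t = j / u` -/
noncomputable def tt (β : ℝ) (k : ℤ × ℤ) : ℝ := (k.2 : ℝ) / uu β k

/-- the phase `j² / u` -/
noncomputable def ph (β : ℝ) (k : ℤ × ℤ) : ℝ := (k.2 : ℝ) ^ 2 / uu β k

open Classical in
/-- the region `H/4 ≤ u ≤ 8H`, `|t| ≤ 5` -/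
noncomputable def reg (β H : ℝ) : Finset (ℤ × ℤ) :=
  (box ⌈40 * H⌉₊).filter (fun k => H / 4 ≤ uu β k ∧ uu β k ≤ 8 * H ∧ |(k.2 : ℝ)| ≤ 5 * uu β k)

open Classical in
/-- the part of `S` in the arc number `j` of `N` equal arcs of `t ∈ [-6, 6)` -/
noncomputable def arc (β : ℝ) (S : Finset (ℤ × ℤ)) (N j : ℕ) : Finset (ℤ × ℤ) :=
  S.filter (fun k => ⌊(N : ℝ) * ((tt β k + 6) / 12)⌋₊ = j)

/-- the exponential sum in the variables `(c, R)` -/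
noncomputable def gs (S : Finset (ℤ × ℤ)) (a : ℤ × ℤ → ℂ) (f : ℤ × ℤ → ℝ) (q : (ℝ × ℝ) × ℝ) : ℂ :=
  ∑ k ∈ S, a k * ee (dt k q.1 + q.2 * f k)

/-- the smooth weight of the arc at `t₀` -/
noncomputable def wt (β H σ t₀ : ℝ) (p : ℕ) (k : ℤ × ℤ) : ℝ :=
  if 0 < uu β k then (uu β k / H) ^ p * exp (-(p * (uu β k / H))) * exp (-(π * ((tt β k - t₀) / σ) ^ 2)) else 0

/-- the smooth sum of the arc at `t₀` -/
noncomputable def Ft (β H σ t₀ : ℝ) (p : ℕ) (R : ℝ) (c : ℝ × ℝ) : ℂ :=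
  ∑' k : ℤ × ℤ, (wt β H σ t₀ p k : ℂ) * ee (R * ph β k) * ee (dt k c)

/-- dual coordinate `ζ = ξ₂ - β ξ₁`, `ξ = m - c` -/
noncomputable def zt (β : ℝ) (c : ℝ × ℝ) (m : ℤ × ℤ) : ℝ := ((m.2 : ℝ) - c.2) - β * ((m.1 : ℝ) - c.1)

/-- distance from the dual parabola: `Ψ = ξ₁ + ζ² / (4R)` -/
noncomputable def Psi (β R : ℝ) (c : ℝ × ℝ) (m : ℤ × ℤ) : ℝ := ((m.1 : ℝ) - c.1) + zt β c m ^ 2 / (4 * R)

/-- distance from the arc: `Δ = ζ / (2R) - t₀` -/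
noncomputable def Del (β R t₀ : ℝ) (c : ℝ × ℝ) (m : ℤ × ℤ) : ℝ := zt β c m / (2 * R) - t₀

/-- the lattice points near the arc of the parabola -/
def near (β R t₀ s d : ℝ) (c : ℝ × ℝ) : Set (ℤ × ℤ) := {m | |Del β R t₀ c m| ≤ s ∧ |Psi β R c m| ≤ d}

/-- `z`-coordinate of a difference vector -/
noncomputable def zz (β : ℝ) (a : ℤ × ℤ) : ℝ := (a.2 : ℝ) - β * (a.1 : ℝ)

/-- determinant -/
def dd (a b : ℤ × ℤ) : ℤ := a.1 * b.2 - a.2 * b.1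

/-- squared length -/
def nn (n : ℤ × ℤ) : ℤ := n.1 ^ 2 + n.2 ^ 2

/-- scalar product of integer vectors -/
def sp (a b : ℤ × ℤ) : ℤ := a.1 * b.1 + a.2 * b.2

/-- a reduced complement: `dd n n' = 1`, `2 |n · n'| ≤ |n|²` -/
def IsCmp (n n' : ℤ × ℤ) : Prop := dd n n' = 1 ∧ 2 * |sp n n'| ≤ nn n

/-- the vector `(q, a)` of the fraction `a / q` of least denominator `q` with `|k₂ / k₁ - a / q| ≤ 1 / (q Q)` -/
def IsNd (Q : ℕ) (k n : ℤ × ℤ) : Prop :=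
  1 ≤ n.1 ∧ |dd n k| * Q ≤ k.1 ∧ ∀ n' : ℤ × ℤ, 1 ≤ n'.1 → |dd n' k| * Q ≤ k.1 → n.1 ≤ n'.1

end Pool.Agent.Helper92.GC
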