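import Pool.Agent.Helper92.GC.N4

/-!
# GC-N6: unfolding the torus

PROOF of `unfold_T`: exchange sum and integral (`lintegral_tsum`), translate (`m - c` for `c ∈ Tq` runs through the squares `m - Tq`, which tile the plane up to a null set); reflection `ξ = m - c` preserves the
measure. (Or `MeasureTheory.IsAddFundamentalDomain`, `lintegral_eq_tsum`; e.g. `Helper52.Circle.integral_unfold` is the version for integrals on `Fin 2 → ℝ`.)
`near_iff`: definitions. `Es_meas`: closed set. `Es_vol`: the shear `(ξ₁, ξ₂) ↦ (ξ₁, ξ₂ - β ξ₁)` preserves the measure; for `ζ` with `|ζ/(2R) - t₀| ≤ s` (an interval of length `4Rs`) the section in `ξ₁` is an interval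
of length `2d` (Tonelli): `8 R s d`.
`near_tsum`: the cardinality of a finite set (`near_fin`) is the sum of the indicator. `near_meas`: on `{0 < q.2}` the function is a countable sum of indicator functions of measurable sets (the functions `Del`,
`Psi` are measurable in `(c, R)` jointly; division is measurable); `quad_meas`: the same over `(m, a, b, e)` with `quad_fin`.
`near_int`: `∫_{ρ/2}^{4ρ} 8Rsd dR = 4sd(16ρ² - ρ²/4) ≤ 64 ρ² s d`.
-/

open MeasureTheory Real Set Filter Topology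

set_option autoImplicit false

namespace Pool.Agent.Helper92.GC

open Pool.Agent.Helper22.AE
open Pool.Agent.Helper22.AC (n6 IsWt mu)

/-- the neighbourhood of the arc in the plane of `ξ` -/
def Es (β R t₀ s d : ℝ) : Set (ℝ × ℝ) :=
  {ξ | |(ξ.2 - β * ξ.1) / (2 * R) - t₀| ≤ s ∧ |ξ.1 + (ξ.2 - β * ξ.1) ^ 2 / (4 * R)| ≤ d}

theorem unfold_T {E : Set (ℝ × ℝ)} (hE : MeasurableSet E) :
    ∫⁻ c in Tq, ∑' m : ℤ × ℤ, E.indicator (fun _ => (1 : ENNReal)) ((m.1 : ℝ) - c.1, (m.2 : ℝ) - c.2) = volume E := by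
  have hmf : ∀ m : ℤ × ℤ, Measurable (fun c : ℝ × ℝ => ((m.1 : ℝ) - c.1, (m.2 : ℝ) - c.2)) := fun m => by fun_prop
  have hind : Measurable (E.indicator (fun _ => (1 : ENNReal))) := measurable_const.indicator hE
  have hmeas : ∀ m : ℤ × ℤ, AEMeasurable
      (fun c : ℝ × ℝ => E.indicator (fun _ => (1 : ENNReal)) ((m.1 : ℝ) - c.1, (m.2 : ℝ) - c.2))
      (volume.restrict Tq) := fun m => (hind.comp (hmf m)).aemeasurable
  rw [lintegral_tsum hmeas]
  have hT : (Tq : Set (ℝ × ℝ)) =ᵐ[volume] (Ico (0 : ℝ) 1 ×ˢ Ico (0 : ℝ) 1 : Set (ℝ × ℝ)) := by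
    rw [Measure.volume_eq_prod]
    exact Measure.set_prod_ae_eq Ico_ae_eq_Icc.symm Ico_ae_eq_Icc.symm
  let B : ℤ × ℤ → Set (ℝ × ℝ) := fun m => Ioc ((m.1 : ℝ) - 1) m.1 ×ˢ Ioc ((m.2 : ℝ) - 1) m.2
  have hB : ∀ m, MeasurableSet (B m) := fun m => measurableSet_Ioc.prod measurableSet_Ioc
  have hmp : ∀ m : ℤ × ℤ, MeasurePreserving (fun c : ℝ × ℝ => ((m.1 : ℝ) - c.1, (m.2 : ℝ) - c.2)) volume volume := by
    intro m
    exact (Measure.measurePreserving_sub_left (volume : Measure ℝ) (m.1 : ℝ)).prod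
      (Measure.measurePreserving_sub_left (volume : Measure ℝ) (m.2 : ℝ))
  have hpre : ∀ m : ℤ × ℤ, (fun c : ℝ × ℝ => ((m.1 : ℝ) - c.1, (m.2 : ℝ) - c.2)) ⁻¹' (B m) =
      (Ico (0 : ℝ) 1 ×ˢ Ico (0 : ℝ) 1 : Set (ℝ × ℝ)) := by
    intro m
    ext c
    simp only [B, mem_preimage, mem_prod, mem_Ioc, mem_Ico]
    constructor
    · rintro ⟨⟨h1, h2⟩, h3, h4⟩
      exact ⟨⟨by linarith, by linarith⟩, by linarith, by linarith⟩
    · rintro ⟨⟨h1, h2⟩, h3, h4⟩
      exact ⟨⟨by linarith, by linarith⟩, by linarith, by linarith⟩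
  have h1 : ∀ m : ℤ × ℤ, ∫⁻ c in Tq, E.indicator (fun _ => (1 : ENNReal)) ((m.1 : ℝ) - c.1, (m.2 : ℝ) - c.2) =
      ∫⁻ ξ in B m, E.indicator (fun _ => (1 : ENNReal)) ξ := by
    intro m
    rw [setLIntegral_congr hT, ← (hmp m).setLIntegral_comp_preimage (hB m) hind, hpre m]
  simp only [h1]
  have hdisj : Pairwise (Function.onFun Disjoint B) := by
    intro m m' hne
    rw [Function.onFun, Set.disjoint_left]
    rintro ⟨x, y⟩ ⟨⟨a1, a2⟩, a3, a4⟩ ⟨⟨b1, b2⟩, b3, b4⟩
    apply hne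
    simp only at a1 a2 a3 a4 b1 b2 b3 b4
    have e1 : m.1 = m'.1 := by
      have c1 : (m.1 : ℝ) < m'.1 + 1 := by linarith
      have c2 : (m'.1 : ℝ) < m.1 + 1 := by linarith
      have d1 : m.1 < m'.1 + 1 := by exact_mod_cast c1
      have d2 : m'.1 < m.1 + 1 := by exact_mod_cast c2
      omega
    have e2 : m.2 = m'.2 := by
      have c1 : (m.2 : ℝ) < m'.2 + 1 := by linarith
      have c2 : (m'.2 : ℝ) < m.2 + 1 := by linarith
      have d1 : m.2 < m'.2 + 1 := by exact_mod_cast c1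
      have d2 : m'.2 < m.2 + 1 := by exact_mod_cast c2
      omega
    exact Prod.ext e1 e2
  rw [← lintegral_iUnion hB hdisj]
  have huniv : (⋃ m, B m) = univ := by
    refine eq_univ_of_forall fun ξ => mem_iUnion.2 ⟨(⌈ξ.1⌉, ⌈ξ.2⌉), ?_⟩
    have a1 := Int.ceil_lt_add_one ξ.1
    have a2 := Int.le_ceil ξ.1
    have a3 := Int.ceil_lt_add_one ξ.2
    have a4 := Int.le_ceil ξ.2
    exact ⟨⟨by simp only; linarith, a2⟩, by simp only; linarith, a4⟩
  rw [huniv, Measure.restrict_univ, lintegral_indicator hE, setLIntegral_one]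

theorem near_iff (β R t₀ s d : ℝ) (c : ℝ × ℝ) (m : ℤ × ℤ) :
    m ∈ near β R t₀ s d c ↔ ((m.1 : ℝ) - c.1, (m.2 : ℝ) - c.2) ∈ Es β R t₀ s d := Iff.rfl

theorem Es_meas (β R t₀ s d : ℝ) : MeasurableSet (Es β R t₀ s d) := by
  have h1 : Measurable (fun ξ : ℝ × ℝ => |(ξ.2 - β * ξ.1) / (2 * R) - t₀|) := by fun_prop
  have h2 : Measurable (fun ξ : ℝ × ℝ => |ξ.1 + (ξ.2 - β * ξ.1) ^ 2 / (4 * R)|) := by fun_prop
  exact (measurableSet_le h1 measurable_const).inter (measurableSet_le h2 measurable_const)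

theorem Es_vol {β R t₀ s d : ℝ} (hR : 0 < R) (hs : 0 ≤ s) (hd : 0 ≤ d) :
    volume (Es β R t₀ s d) = ENNReal.ofReal (8 * R * s * d) := by
  have hmp : MeasurePreserving (fun p : ℝ × ℝ => (p.1, p.2 - β * p.1)) volume volume := by
    have hg : Measurable (Function.uncurry (fun x y : ℝ => y - β * x)) := by
      unfold Function.uncurry
      fun_prop
    exact (MeasurePreserving.id (volume : Measure ℝ)).skew_product hg
      (Filter.Eventually.of_forall fun x => (measurePreserving_sub_right (volume : Measure ℝ) (β * x)).map_eq)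
  have hpre : Es β R t₀ s d = (fun p : ℝ × ℝ => (p.1, p.2 - β * p.1)) ⁻¹' (Es 0 R t₀ s d) := by
    ext ξ
    simp only [Es, mem_preimage, mem_setOf_eq, zero_mul, sub_zero]
  rw [hpre, hmp.measure_preimage (Es_meas 0 R t₀ s d).nullMeasurableSet, Measure.volume_eq_prod,
    Measure.prod_apply_symm (Es_meas 0 R t₀ s d)]
  have h1 : ∀ z : ℝ, volume ((fun x : ℝ => (x, z)) ⁻¹' (Es 0 R t₀ s d)) =
      (Icc (2 * R * (t₀ - s)) (2 * R * (t₀ + s))).indicator (fun _ => ENNReal.ofReal (2 * d)) z := by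
    intro z
    by_cases hz : z ∈ Icc (2 * R * (t₀ - s)) (2 * R * (t₀ + s))
    · rw [Set.indicator_of_mem hz]
      have e : (fun x : ℝ => (x, z)) ⁻¹' (Es 0 R t₀ s d) = Icc (-(z ^ 2 / (4 * R)) - d) (-(z ^ 2 / (4 * R)) + d) := by
        ext x
        simp only [Es, mem_preimage, mem_setOf_eq, zero_mul, sub_zero, mem_Icc, abs_le]
        constructor
        · rintro ⟨-, h2, h3⟩
          exact ⟨by linarith, by linarith⟩
        · rintro ⟨h2, h3⟩
          refine ⟨⟨?_, ?_⟩, by linarith, by linarith⟩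
          · have : t₀ - s ≤ z / (2 * R) := by
              rw [le_div_iff₀ (by positivity)]
              linarith [hz.1]
            linarith
          · have : z / (2 * R) ≤ t₀ + s := by
              rw [div_le_iff₀ (by positivity)]
              linarith [hz.2]
            linarith
      rw [e, Real.volume_Icc]
      congr 1
      ring
    · rw [Set.indicator_of_notMem hz]
      have e : (fun x : ℝ => (x, z)) ⁻¹' (Es 0 R t₀ s d) = ∅ := by
        rw [Set.eq_empty_iff_forall_notMem]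
        intro x hx
        simp only [Es, mem_preimage, mem_setOf_eq, zero_mul, sub_zero, abs_le] at hx
        apply hz
        constructor
        · have : t₀ - s ≤ z / (2 * R) := by linarith [hx.1.1]
          rw [le_div_iff₀ (by positivity)] at this
          linarith
        · have : z / (2 * R) ≤ t₀ + s := by linarith [hx.1.2]
          rw [div_le_iff₀ (by positivity)] at this
          linarith
      rw [e, measure_empty]
  simp only [h1]
  rw [lintegral_indicator measurableSet_Icc, setLIntegral_const, Real.volume_Icc, ← ENNReal.ofReal_mul (by positivity)]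
  congr 1
  ring

private theorem ncard_tsum {ι : Type} {S : Set ι} (hS : S.Finite) :
    (S.ncard : ENNReal) = ∑' i, S.indicator (fun _ => (1 : ENNReal)) i := by
  rw [tsum_eq_sum (s := hS.toFinset)]
  · rw [Finset.sum_congr rfl (fun i hi => Set.indicator_of_mem (hS.mem_toFinset.1 hi) _)]
    rw [Set.ncard_eq_toFinset_card S hS]
    simp
  · intro i hi
    exact Set.indicator_of_notMem (fun h => hi (hS.mem_toFinset.2 h)) _

private theorem meas_ncard {ι : Type} [Countable ι] (S : (ℝ × ℝ) × ℝ → Set ι)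
    (hS : ∀ i, MeasurableSet {q | i ∈ S q}) (hfin : ∀ q : (ℝ × ℝ) × ℝ, 0 < q.2 → (S q).Finite) :
    Measurable (fun q : (ℝ × ℝ) × ℝ => if 0 < q.2 then ((S q).ncard : ENNReal) else 0) := by
  have hP : MeasurableSet {q : (ℝ × ℝ) × ℝ | 0 < q.2} := measurableSet_lt measurable_const measurable_snd
  have e : (fun q : (ℝ × ℝ) × ℝ => if 0 < q.2 then ((S q).ncard : ENNReal) else 0) =
      fun q => ∑' i, ({q : (ℝ × ℝ) × ℝ | 0 < q.2} ∩ {q | i ∈ S q}).indicator (fun _ => (1 : ENNReal)) q := by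
    funext q
    by_cases hq : 0 < q.2
    · rw [if_pos hq, ncard_tsum (hfin q hq)]
      refine tsum_congr fun i => ?_
      by_cases hi : i ∈ S q
      · rw [Set.indicator_of_mem hi, Set.indicator_of_mem (show q ∈ {q : (ℝ × ℝ) × ℝ | 0 < q.2} ∩ {q | i ∈ S q} from ⟨hq, hi⟩)]
      · rw [Set.indicator_of_notMem hi, Set.indicator_of_notMem (fun h => hi h.2)]
    · rw [if_neg hq]
      symm
      rw [ENNReal.tsum_eq_zero]
      intro i
      exact Set.indicator_of_notMem (fun h => hq h.1) _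
  rw [e]
  exact Measurable.ennreal_tsum fun i => measurable_const.indicator (hP.inter (hS i))

private theorem near_mem_meas (β t₀ s d : ℝ) (m : ℤ × ℤ) :
    MeasurableSet {q : (ℝ × ℝ) × ℝ | m ∈ near β q.2 t₀ s d q.1} := by
  have h1 : Measurable (fun q : (ℝ × ℝ) × ℝ => |Del β q.2 t₀ q.1 m|) := by
    unfold Del zt
    fun_prop
  have h2 : Measurable (fun q : (ℝ × ℝ) × ℝ => |Psi β q.2 q.1 m|) := by
    unfold Psi zt
    fun_prop
  exact (measurableSet_le h1 measurable_const).inter (measurableSet_le h2 measurable_const)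

theorem near_tsum {β R : ℝ} (hR : 0 < R) (t₀ s d : ℝ) (c : ℝ × ℝ) :
    ((near β R t₀ s d c).ncard : ENNReal) =
      ∑' m : ℤ × ℤ, (Es β R t₀ s d).indicator (fun _ => (1 : ENNReal)) ((m.1 : ℝ) - c.1, (m.2 : ℝ) - c.2) := by
  rw [ncard_tsum (near_fin hR t₀ s d c)]
  refine tsum_congr fun m => ?_
  by_cases hm : m ∈ near β R t₀ s d c
  · rw [Set.indicator_of_mem hm, Set.indicator_of_mem ((near_iff β R t₀ s d c m).1 hm)]
  · rw [Set.indicator_of_notMem hm, Set.indicator_of_notMem (fun h => hm ((near_iff β R t₀ s d c m).2 h))]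

theorem near_meas (β t₀ s d : ℝ) :
    Measurable (fun q : (ℝ × ℝ) × ℝ => if 0 < q.2 then ((near β q.2 t₀ s d q.1).ncard : ENNReal) else 0) :=
  meas_ncard (fun q => near β q.2 t₀ s d q.1) (fun m => near_mem_meas β t₀ s d m)
    (fun q hq => near_fin hq t₀ s d q.1)

theorem quad_meas (β t₀ s d : ℝ) :
    Measurable (fun q : (ℝ × ℝ) × ℝ => if 0 < q.2 then ((quad β q.2 t₀ s d q.1).ncard : ENNReal) else 0) :=
  meas_ncard (fun q => quad β q.2 t₀ s d q.1)
    (fun i => (near_mem_meas β t₀ s d i.1).inter ((near_mem_meas β t₀ s d (i.1 + i.2.1)).inter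
      ((near_mem_meas β t₀ s d (i.1 + i.2.2.1)).inter ((near_mem_meas β t₀ s d (i.1 + i.2.2.2)).inter
        (MeasurableSet.const _)))))
    (fun q hq => quad_fin hq t₀ s d q.1)

theorem near_int {β ρ t₀ s d : ℝ} (h : Par β ρ t₀ s d) :
    ∫⁻ R in Icc (ρ / 2) (4 * ρ), ∫⁻ c in Tq, ((near β R t₀ s d c).ncard : ENNReal) ≤
      ENNReal.ofReal (64 * ρ ^ 2 * s * d) := by
  have hρ : 0 < ρ := lt_of_lt_of_le one_pos h.hρ
  have hs := h.hs
  have hd := h.hd
  have h1 : ∀ R ∈ Icc (ρ / 2) (4 * ρ), ∫⁻ c in Tq, ((near β R t₀ s d c).ncard : ENNReal) =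
      ENNReal.ofReal (8 * R * s * d) := by
    intro R hR
    have hR0 : 0 < R := by linarith [hR.1]
    simp only [near_tsum hR0 t₀ s d]
    rw [unfold_T (Es_meas β R t₀ s d), Es_vol hR0 hs.le hd.le]
  rw [setLIntegral_congr_fun measurableSet_Icc h1]
  have hc : ContinuousOn (fun R : ℝ => 8 * R * s * d) (Icc (ρ / 2) (4 * ρ)) := by fun_prop
  rw [← ofReal_integral_eq_lintegral_ofReal (hc.integrableOn_Icc)]
  · apply ENNReal.ofReal_le_ofReal
    rw [integral_Icc_eq_integral_Ioc, ← intervalIntegral.integral_of_le (by linarith)]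
    have e : ∀ R : ℝ, 8 * R * s * d = (8 * s * d) * R := fun R => by ring
    simp only [e]
    rw [intervalIntegral.integral_const_mul, integral_id]
    have hp : 0 < ρ ^ 2 * s * d := by positivity
    nlinarith
  · refine (ae_restrict_iff' measurableSet_Icc).2 (Filter.Eventually.of_forall fun R hR => ?_)
    have hR0 : 0 < R := by linarith [hR.1]
    simp only [Pi.zero_apply]
    positivity

end Pool.Agent.Helper92.GC
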