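import Pool.Agent.Helper92.GC.D2
import Pool.Agent.Helper92.GC.G3

/-!
# GC-D4: reduction to the octant

PROOF. The eight maps `σ(k) = (±k.1, ±k.2), (±k.2, ±k.1)` preserve `nk` and `dt (σ k) c = dt k (σᵗ c)`. `∑_σ bs (σ (oct K)) = ∑_{k ∈ sqa K} m(k) w(k)` where `m(k) = 1` if
`k.1, k.2 ≠ 0`, `|k.1| ≠ |k.2|`, and `m(k) = 2` otherwise; there are at most `8 K` vectors of the second kind in `sqa K`, and `|w(k)| ≤ 1` (`K/nk k ≤ 1`). Hence
`‖bs (sqa K) K i R c‖ ≤ ∑_σ ‖bs (oct K) K i R (σᵗ c)‖ + 8K`. (A convenient way: write `sqa K` as the disjoint union of the eight open octants and the axis/diagonal points.)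
`sqa_triv`: at most `(4K+1)² ≤ 25K²` vectors, each term of norm `≤ 1`.
-/

open MeasureTheory Real Set Filter Topology

set_option autoImplicit false

namespace Pool.Agent.Helper92.GC

open Pool.Agent.Helper22.AE
open Pool.Agent.Helper22.AC (n6 IsWt mu)

private lemma h99_nk (k : ℤ × ℤ) : nk k = sqrt ((k.1 : ℝ) ^ 2 + (k.2 : ℝ) ^ 2) := by
  unfold nk cz
  rw [Complex.norm_def, Complex.normSq_mk]
  congr 1
  ring

private lemma h99_nk_ge {K : ℕ} {k : ℤ × ℤ} (h : (K : ℤ) ≤ |k.1| ∨ (K : ℤ) ≤ |k.2|) :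
    (K : ℝ) ≤ nk k := by
  rw [h99_nk]
  apply Real.le_sqrt_of_sq_le
  rcases h with h | h
  · have h1 : (K : ℝ) ≤ |(k.1 : ℝ)| := by exact_mod_cast h
    have h2 : (K : ℝ) ^ 2 ≤ |(k.1 : ℝ)| ^ 2 := pow_le_pow_left₀ (by positivity) h1 2
    rw [sq_abs] at h2
    nlinarith [sq_nonneg (k.2 : ℝ)]
  · have h1 : (K : ℝ) ≤ |(k.2 : ℝ)| := by exact_mod_cast h
    have h2 : (K : ℝ) ^ 2 ≤ |(k.2 : ℝ)| ^ 2 := pow_le_pow_left₀ (by positivity) h1 2
    rw [sq_abs] at h2
    nlinarith [sq_nonneg (k.1 : ℝ)]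

private lemma h99_mem_oct {K : ℕ} {k : ℤ × ℤ} :
    k ∈ oct K ↔ (K : ℤ) ≤ k.1 ∧ k.1 < 2 * K ∧ 0 ≤ k.2 ∧ k.2 ≤ k.1 := by
  unfold oct
  rw [Finset.mem_filter]
  refine ⟨fun h => h.2, fun h => ⟨?_, h⟩⟩
  unfold box
  rw [Finset.mem_product, Finset.mem_Icc, Finset.mem_Icc]
  push_cast
  refine ⟨⟨?_, ?_⟩, ?_, ?_⟩ <;> omega

private lemma h99_mem_sqa {K : ℕ} {k : ℤ × ℤ} :
    k ∈ sqa K ↔ (k.1 ≤ -(K : ℤ) ∨ (K : ℤ) ≤ k.1 ∨ k.2 ≤ -(K : ℤ) ∨ (K : ℤ) ≤ k.2) ∧
      -(2 * (K : ℤ)) < k.1 ∧ k.1 < 2 * K ∧ -(2 * (K : ℤ)) < k.2 ∧ k.2 < 2 * K := by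
  unfold sqa
  rw [Finset.mem_filter, le_abs', le_abs', abs_lt, abs_lt]
  constructor
  · rintro ⟨-, h1, h2, h3⟩
    refine ⟨?_, h2.1, h2.2, h3.1, h3.2⟩
    omega
  · rintro ⟨h1, h2, h3, h4, h5⟩
    refine ⟨?_, ?_, ⟨h2, h3⟩, h4, h5⟩
    · unfold box
      rw [Finset.mem_product, Finset.mem_Icc, Finset.mem_Icc]
      push_cast
      refine ⟨⟨?_, ?_⟩, ?_, ?_⟩ <;> omega
    · omega

/-- the terms -/
private noncomputable def h99_w (K i : ℕ) (R : ℝ) (c : ℝ × ℝ) (k : ℤ × ℤ) : ℂ :=
  (((K : ℝ) / nk k : ℝ) : ℂ) ^ i * ee (R * nk k + dt k c)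

private lemma h99_w_norm {K i : ℕ} {R : ℝ} {c : ℝ × ℝ} {k : ℤ × ℤ} (hK : 1 ≤ K)
    (h : (K : ℝ) ≤ nk k) : ‖h99_w K i R c k‖ ≤ 1 := by
  have hK' : (1 : ℝ) ≤ K := by exact_mod_cast hK
  have hn : 0 < nk k := by linarith
  unfold h99_w
  rw [norm_mul, ee_norm, mul_one, norm_pow, Complex.norm_real, Real.norm_eq_abs,
    abs_of_nonneg (by positivity)]
  exact pow_le_one₀ (by positivity) ((div_le_one hn).2 h)

private lemma h99_piece {K i : ℕ} {R S : ℝ} (hK : 1 ≤ K) (h : ∀ c : ℝ × ℝ, ‖bs (oct K) K i R c‖ ≤ S)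
    (c c' : ℝ × ℝ) (P : Finset (ℤ × ℤ)) (f g : ℤ × ℤ → ℤ × ℤ) (hfg : ∀ k, f (g k) = k)
    (hgf : ∀ k, g (f k) = k) (hnk : ∀ k, nk (f k) = nk k) (hdt : ∀ k, dt (f k) c = dt k c')
    (h1 : ∀ k ∈ P, g k ∈ oct K) (h2 : ∀ k ∈ oct K, k.2 ≠ 0 → k.2 ≠ k.1 → f k ∈ P) :
    ‖∑ k ∈ P, h99_w K i R c k‖ ≤ S + 2 * K := by
  classical
  have e1 : ∑ k ∈ P, h99_w K i R c k =
      ∑ k ∈ (oct K).filter (fun k => f k ∈ P), h99_w K i R c (f k) := by
    refine Finset.sum_bij' (fun k _ => g k) (fun k _ => f k) ?_ ?_ ?_ ?_ ?_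
    · intro k hk
      rw [Finset.mem_filter, hfg]
      exact ⟨h1 k hk, hk⟩
    · intro k hk
      exact (Finset.mem_filter.1 hk).2
    · intro k _
      exact hfg k
    · intro k _
      exact hgf k
    · intro k _
      rw [hfg]
  have e2 : bs (oct K) K i R c' = ∑ k ∈ oct K, h99_w K i R c (f k) := by
    unfold bs
    refine Finset.sum_congr rfl fun k _ => ?_
    unfold h99_w
    rw [hnk, hdt]
  have e3 := Finset.sum_filter_add_sum_filter_not (oct K) (fun k => f k ∈ P)
    (fun k => h99_w K i R c (f k))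
  have e4 : ‖∑ k ∈ (oct K).filter (fun k => ¬ f k ∈ P), h99_w K i R c (f k)‖ ≤ 2 * K := by
    have c1 : (oct K).filter (fun k => ¬ f k ∈ P) ⊆
        (Finset.Ico (K : ℤ) (2 * K)).image (fun j => (j, (0 : ℤ))) ∪
          (Finset.Ico (K : ℤ) (2 * K)).image (fun j => (j, j)) := by
      intro k hk
      rw [Finset.mem_filter] at hk
      obtain ⟨hk1, hk2⟩ := hk
      have hk3 := h99_mem_oct.1 hk1
      rw [Finset.mem_union, Finset.mem_image, Finset.mem_image]
      by_cases hz : k.2 = 0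
      · left
        refine ⟨k.1, Finset.mem_Ico.2 ⟨hk3.1, hk3.2.1⟩, ?_⟩
        ext
        · rfl
        · exact hz.symm
      · by_cases hd : k.2 = k.1
        · right
          refine ⟨k.1, Finset.mem_Ico.2 ⟨hk3.1, hk3.2.1⟩, ?_⟩
          ext
          · rfl
          · exact hd.symm
        · exact absurd (h2 k hk1 hz hd) hk2
    have c2 : ((oct K).filter (fun k => ¬ f k ∈ P)).card ≤ 2 * K := by
      refine (Finset.card_le_card c1).trans ((Finset.card_union_le _ _).trans ?_)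
      have d1 := Finset.card_image_le (s := Finset.Ico (K : ℤ) (2 * K)) (f := fun j => (j, (0 : ℤ)))
      have d2 := Finset.card_image_le (s := Finset.Ico (K : ℤ) (2 * K)) (f := fun j => (j, j))
      rw [Int.card_Ico] at d1 d2
      omega
    refine (norm_sum_le _ _).trans ?_
    refine (Finset.sum_le_card_nsmul _ _ 1 fun k hk => ?_).trans ?_
    · refine h99_w_norm hK ?_
      rw [hnk]
      have hk3 := h99_mem_oct.1 (Finset.mem_filter.1 hk).1
      exact h99_nk_ge (Or.inl (hk3.1.trans (le_abs_self _)))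
    · rw [nsmul_eq_mul, mul_one]
      exact_mod_cast c2
  rw [e1]
  have e5 : ∑ k ∈ (oct K).filter (fun k => f k ∈ P), h99_w K i R c (f k) =
      bs (oct K) K i R c' - ∑ k ∈ (oct K).filter (fun k => ¬ f k ∈ P), h99_w K i R c (f k) := by
    rw [e2, ← e3]
    ring
  rw [e5]
  exact (norm_sub_le _ _).trans (add_le_add (h c') e4)

private lemma h99_split (s : Finset (ℤ × ℤ)) (p : ℤ × ℤ → Prop) [DecidablePred p] (w : ℤ × ℤ → ℂ) {a b : ℝ}
    (h1 : ‖∑ k ∈ s.filter p, w k‖ ≤ a) (h2 : ‖∑ k ∈ s.filter (fun k => ¬ p k), w k‖ ≤ b) :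
    ‖∑ k ∈ s, w k‖ ≤ a + b := by
  rw [← Finset.sum_filter_add_sum_filter_not s p w]
  exact (norm_add_le _ _).trans (add_le_add h1 h2)

theorem sqa_oct {K i : ℕ} {R S : ℝ} (hK : 1 ≤ K) (h : ∀ c : ℝ × ℝ, ‖bs (oct K) K i R c‖ ≤ S) (c : ℝ × ℝ) :
    ‖bs (sqa K) K i R c‖ ≤ 8 * S + 16 * K := by
  classical
  have e0 : bs (sqa K) K i R c = ∑ k ∈ sqa K, h99_w K i R c k := rfl
  rw [e0]
  have key : ‖∑ k ∈ sqa K, h99_w K i R c k‖ ≤
      (((S + 2 * K) + (S + 2 * K)) + ((S + 2 * K) + (S + 2 * K))) +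
      (((S + 2 * K) + (S + 2 * K)) + ((S + 2 * K) + (S + 2 * K))) := by
    refine h99_split _ (fun k => (-k.1 ≤ k.2 ∧ k.2 ≤ k.1) ∨ (k.1 ≤ k.2 ∧ k.2 ≤ -k.1)) _ ?_ ?_
    · refine h99_split _ (fun k => 0 < k.1) _ ?_ ?_
      · refine h99_split _ (fun k => 0 ≤ k.2) _ ?_ ?_
        · refine h99_piece hK h c c _ (fun k => k) (fun k => k) (fun k => rfl) (fun k => rfl)
            (fun k => rfl) (fun k => rfl) ?_ ?_
          · intro k hk
            simp only [Finset.mem_filter, h99_mem_sqa, h99_mem_oct] at hk ⊢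
            omega
          · intro k hk h1 h2
            simp only [Finset.mem_filter, h99_mem_sqa, h99_mem_oct] at hk ⊢
            omega
        · refine h99_piece hK h c (c.1, -c.2) _ (fun k => (k.1, -k.2)) (fun k => (k.1, -k.2))
            (fun k => by simp) (fun k => by simp)
            (fun k => by rw [h99_nk, h99_nk]; push_cast; congr 1; ring)
            (fun k => by unfold dt; push_cast; ring) ?_ ?_
          · intro k hk
            simp only [Finset.mem_filter, h99_mem_sqa, h99_mem_oct] at hk ⊢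
            omega
          · intro k hk h1 h2
            simp only [Finset.mem_filter, h99_mem_sqa, h99_mem_oct] at hk ⊢
            omega
      · refine h99_split _ (fun k => 0 ≤ k.2) _ ?_ ?_
        · refine h99_piece hK h c (-c.1, c.2) _ (fun k => (-k.1, k.2)) (fun k => (-k.1, k.2))
            (fun k => by simp) (fun k => by simp)
            (fun k => by rw [h99_nk, h99_nk]; push_cast; congr 1; ring)
            (fun k => by unfold dt; push_cast; ring) ?_ ?_
          · intro k hk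
            simp only [Finset.mem_filter, h99_mem_sqa, h99_mem_oct] at hk ⊢
            omega
          · intro k hk h1 h2
            simp only [Finset.mem_filter, h99_mem_sqa, h99_mem_oct] at hk ⊢
            omega
        · refine h99_piece hK h c (-c.1, -c.2) _ (fun k => (-k.1, -k.2)) (fun k => (-k.1, -k.2))
            (fun k => by simp) (fun k => by simp)
            (fun k => by rw [h99_nk, h99_nk]; push_cast; congr 1; ring)
            (fun k => by unfold dt; push_cast; ring) ?_ ?_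
          · intro k hk
            simp only [Finset.mem_filter, h99_mem_sqa, h99_mem_oct] at hk ⊢
            omega
          · intro k hk h1 h2
            simp only [Finset.mem_filter, h99_mem_sqa, h99_mem_oct] at hk ⊢
            omega
    · refine h99_split _ (fun k => 0 < k.2) _ ?_ ?_
      · refine h99_split _ (fun k => 0 ≤ k.1) _ ?_ ?_
        · refine h99_piece hK h c (c.2, c.1) _ (fun k => (k.2, k.1)) (fun k => (k.2, k.1))
            (fun k => by simp) (fun k => by simp)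
            (fun k => by rw [h99_nk, h99_nk]; push_cast; congr 1; ring)
            (fun k => by unfold dt; push_cast; ring) ?_ ?_
          · intro k hk
            simp only [Finset.mem_filter, h99_mem_sqa, h99_mem_oct] at hk ⊢
            omega
          · intro k hk h1 h2
            simp only [Finset.mem_filter, h99_mem_sqa, h99_mem_oct] at hk ⊢
            omega
        · refine h99_piece hK h c (c.2, -c.1) _ (fun k => (-k.2, k.1)) (fun k => (k.2, -k.1))
            (fun k => by simp) (fun k => by simp)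
            (fun k => by rw [h99_nk, h99_nk]; push_cast; congr 1; ring)
            (fun k => by unfold dt; push_cast; ring) ?_ ?_
          · intro k hk
            simp only [Finset.mem_filter, h99_mem_sqa, h99_mem_oct] at hk ⊢
            omega
          · intro k hk h1 h2
            simp only [Finset.mem_filter, h99_mem_sqa, h99_mem_oct] at hk ⊢
            omega
      · refine h99_split _ (fun k => 0 ≤ k.1) _ ?_ ?_
        · refine h99_piece hK h c (-c.2, c.1) _ (fun k => (k.2, -k.1)) (fun k => (-k.2, k.1))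
            (fun k => by simp) (fun k => by simp)
            (fun k => by rw [h99_nk, h99_nk]; push_cast; congr 1; ring)
            (fun k => by unfold dt; push_cast; ring) ?_ ?_
          · intro k hk
            simp only [Finset.mem_filter, h99_mem_sqa, h99_mem_oct] at hk ⊢
            omega
          · intro k hk h1 h2
            simp only [Finset.mem_filter, h99_mem_sqa, h99_mem_oct] at hk ⊢
            omega
        · refine h99_piece hK h c (-c.2, -c.1) _ (fun k => (-k.2, -k.1)) (fun k => (-k.2, -k.1))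
            (fun k => by simp) (fun k => by simp)
            (fun k => by rw [h99_nk, h99_nk]; push_cast; congr 1; ring)
            (fun k => by unfold dt; push_cast; ring) ?_ ?_
          · intro k hk
            simp only [Finset.mem_filter, h99_mem_sqa, h99_mem_oct] at hk ⊢
            omega
          · intro k hk h1 h2
            simp only [Finset.mem_filter, h99_mem_sqa, h99_mem_oct] at hk ⊢
            omega
  linarith

theorem sqa_triv {K i : ℕ} {R : ℝ} (hK : 1 ≤ K) (c : ℝ × ℝ) : ‖bs (sqa K) K i R c‖ ≤ 25 * (K : ℝ) ^ 2 := by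
  have e0 : bs (sqa K) K i R c = ∑ k ∈ sqa K, h99_w K i R c k := rfl
  rw [e0]
  refine (norm_sum_le _ _).trans ?_
  refine (Finset.sum_le_card_nsmul _ _ 1 fun k hk => ?_).trans ?_
  · refine h99_w_norm hK (h99_nk_ge ?_)
    exact (Finset.mem_filter.1 hk).2.1
  · rw [nsmul_eq_mul, mul_one]
    have h1 : (sqa K).card ≤ (box (2 * K)).card := Finset.card_le_card (Finset.filter_subset _ _)
    have h2 : (box (2 * K)).card = (4 * K + 1) * (4 * K + 1) := by
      unfold box
      rw [Finset.card_product, Int.card_Icc]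
      have : ((2 * K : ℕ) : ℤ) + 1 - -((2 * K : ℕ) : ℤ) = ((4 * K + 1 : ℕ) : ℤ) := by
        push_cast
        ring
      rw [this, Int.toNat_natCast]
    have h3 : (4 * K + 1) * (4 * K + 1) ≤ (5 * K) * (5 * K) :=
      Nat.mul_le_mul (by omega) (by omega)
    have h4 : (sqa K).card ≤ 25 * K ^ 2 := by
      calc (sqa K).card ≤ (5 * K) * (5 * K) := (h1.trans h2.le).trans h3
        _ = 25 * K ^ 2 := by ring
    exact_mod_cast h4

end Pool.Agent.Helper92.GC
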