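import Pool.Agent.Helper92.GC.T1
import Pool.Agent.Helper92.GC.T2
import Pool.Agent.Helper22.AC.A7

/-!
# GC-T3: the sums over the arcs of a slab form a system

PROOF: as `sys_cone` (Helper22.AC.B5; its private lemmas `shift_div`, `sep_shift` can be copied). `meas`, `bdd`: `gs_cont`, `gs_norm_le`. `add`: `gs_split`: the arc `(M^s, j)` is the disjoint
union of the arcs `(M^(s+1), M j + r)`, `r < M` (for `x ≥ 0`: `⌊N x⌋₊ = ⌊N M x⌋₊ / M`; `x = (tt β k + 6)/12 ≥ 0` for `k ∈ reg β H`). `orth`: `orth_gs` and `geo` with `s = s₀ + a`; the index conditions are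
invariant under the shift by the base arc; `η ≤ M^(-2m) ≤ M^(-2b-2)` since `b + 1 ≤ m`; `1/X ≤ H (12/M^(s₀+m))² ≤ H (12/M^(s₀+a+1+b))²`. `B ⊆ reg β H`, so `arc β B N i ⊆ arc β (reg β H) N i`.
-/

open MeasureTheory Real Set Filter Topology

set_option autoImplicit false

namespace Pool.Agent.Helper92.GC

open Pool.Agent.Helper22.AE
open Pool.Agent.Helper22.AC (n6 IsWt mu)

open Pool.Agent.Helper22.AC (Sys)

private theorem mem_arc_h54 {β : ℝ} {S : Finset (ℤ × ℤ)} {N j : ℕ} {k : ℤ × ℤ} :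
    k ∈ arc β S N j ↔ k ∈ S ∧ ⌊(N : ℝ) * ((tt β k + 6) / 12)⌋₊ = j := by
  classical
  unfold arc
  rw [Finset.mem_filter]

theorem gs_split {β H : ℝ} {B : Finset (ℤ × ℤ)} (hH : 0 < H) (hB : B ⊆ reg β H) (a : ℤ × ℤ → ℂ) (f : ℤ × ℤ → ℝ) {M : ℕ}
    (hM : 1 ≤ M) (N j : ℕ) (q : (ℝ × ℝ) × ℝ) :
    gs (arc β B N j) a f q = ∑ r ∈ Finset.range M, gs (arc β B (N * M) (M * j + r)) a f q := by
  classical
  have hfl : ∀ k : ℤ × ℤ, ⌊(N : ℝ) * ((tt β k + 6) / 12)⌋₊ =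
      ⌊((N * M : ℕ) : ℝ) * ((tt β k + 6) / 12)⌋₊ / M := by
    intro k
    rw [← Nat.floor_div_natCast]
    congr 1
    have : (M : ℝ) ≠ 0 := by
      have : (0 : ℝ) < M := by exact_mod_cast hM
      exact this.ne'
    push_cast
    field_simp
  unfold gs
  rw [← Finset.sum_fiberwise_of_maps_to (s := arc β B N j) (t := Finset.range M)
    (g := fun k => ⌊((N * M : ℕ) : ℝ) * ((tt β k + 6) / 12)⌋₊ % M)
    (fun k _ => Finset.mem_range.2 (Nat.mod_lt _ (by omega)))]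
  refine Finset.sum_congr rfl fun r hr => Finset.sum_congr ?_ fun _ _ => rfl
  have hr' : r < M := Finset.mem_range.1 hr
  ext k
  rw [Finset.mem_filter, mem_arc_h54, mem_arc_h54, hfl k]
  set x : ℕ := ⌊((N * M : ℕ) : ℝ) * ((tt β k + 6) / 12)⌋₊ with hx
  constructor
  · rintro ⟨⟨h1, h2⟩, h3⟩
    refine ⟨h1, ?_⟩
    have h4 := Nat.div_add_mod x M
    rw [h2] at h4
    rw [h3] at h4
    exact h4.symm
  · rintro ⟨h1, h2⟩
    refine ⟨⟨h1, ?_⟩, ?_⟩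
    · rw [h2, Nat.mul_add_div (by omega), Nat.div_eq_of_lt hr', add_zero]
    · rw [h2, Nat.mul_add_mod, Nat.mod_eq_of_lt hr']

private lemma shift_div_h54 (M l b j₀ j : ℕ) (hM : 1 ≤ M) :
    (M ^ (l + b) * j₀ + j) / M ^ b = M ^ l * j₀ + j / M ^ b := by
  have h : M ^ (l + b) * j₀ + j = M ^ b * (M ^ l * j₀) + j := by
    rw [pow_add]
    ring
  rw [h, Nat.mul_add_div (pow_pos hM b)]

private lemma sep_shift_h54 {x i j : ℕ} (h : Pool.Agent.Helper22.AC.sep i j) :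
    Pool.Agent.Helper22.AC.sep (x + i) (x + j) := by
  unfold Pool.Agent.Helper22.AC.sep at *
  omega

theorem sys_gs {β H : ℝ} (hH : 0 < H) {M : ℕ} (hM : 36 ≤ M) {s₀ m j₀ : ℕ} {X η : ℝ} {v : ℝ → ℝ} (hv : IsWt X v)
    (a : ℤ × ℤ → ℂ) {B : Finset (ℤ × ℤ)} (hB : B ⊆ reg β H) (hslab : ∀ k ∈ B, ∀ k' ∈ B, |uu β k - uu β k'| ≤ η * H)
    (hη : η ≤ (1 / (M : ℝ)) ^ (2 * m)) (hX : 1 / X ≤ H * (12 / (M : ℝ) ^ (s₀ + m)) ^ 2) :
    Sys (mu v) M m (fun s j => gs (arc β B (M ^ (s₀ + s)) (M ^ s * j₀ + j)) a (ph β)) := by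
  have hM1 : 1 ≤ M := by omega
  have hMpos : (0 : ℝ) < M := by exact_mod_cast hM1
  have hM1' : (1 : ℝ) ≤ M := by exact_mod_cast hM1
  have hsub : ∀ (N i : ℕ) (k : ℤ × ℤ), k ∈ arc β B N i → k ∈ B := fun N i k hk =>
    (mem_arc_h54.1 hk).1
  refine ⟨fun s j => (gs_cont _ a _).measurable, fun s j => ⟨_, gs_norm_le _ a _⟩, ?_, ?_⟩
  · intro s _ j _ ω
    rw [gs_split hH hB a (ph β) hM1]
    refine Finset.sum_congr rfl fun r _ => ?_
    have e : M * (M ^ s * j₀ + j) + r = M ^ (s + 1) * j₀ + (M * j + r) := by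
      rw [pow_succ]
      ring
    have e2 : M ^ (s₀ + s) * M = M ^ (s₀ + (s + 1)) := by
      rw [← add_assoc, pow_succ]
    rw [e, e2]
  · intro l b c hcb hlb hlc j hj i hi i' hi' hji hii hsep hs
    refine orth_gs hv ?_
    intro x hx x' hx' y₁ hy₁ y₂ hy₂ y₃ hy₃ y₄ hy₄ hsum
    have hreg : ∀ (t J : ℕ) (y : ℤ × ℤ), y ∈ arc β B (M ^ (s₀ + (l + 1 + t))) J →
        y ∈ arc β (reg β H) (M ^ (s₀ + l + 1 + t)) J := by
      intro t J y hy
      have e1 : s₀ + (l + 1 + t) = s₀ + l + 1 + t := by ring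
      rw [e1] at hy
      rw [mem_arc_h54] at hy ⊢
      exact ⟨hB hy.1, hy.2⟩
    refine geo (s := s₀ + l) (b := b) (c := c) (i := M ^ (l + 1 + c) * j₀ + i)
      (i' := M ^ (l + 1 + c) * j₀ + i') (j := M ^ (l + 1 + b) * j₀ + j) (η := η) hM hcb hH
      ?_ ?_ ?_ ?_ ?_ ?_ (hreg c _ x hx) (hreg c _ x' hx') (hreg b _ y₁ hy₁) (hreg b _ y₂ hy₂)
      (hreg b _ y₃ hy₃) (hreg b _ y₄ hy₄) ?_ hsum
    · refine hη.trans (pow_le_pow_of_le_one (by positivity) ?_ (by omega))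
      rw [div_le_one hMpos]
      exact hM1'
    · refine hX.trans (mul_le_mul_of_nonneg_left ?_ hH.le)
      have h1 : (M : ℝ) ^ (s₀ + l + 1 + b) ≤ (M : ℝ) ^ (s₀ + m) :=
        pow_le_pow_right₀ hM1' (by omega)
      have h2 : 12 / (M : ℝ) ^ (s₀ + m) ≤ 12 / (M : ℝ) ^ (s₀ + l + 1 + b) :=
        div_le_div_of_nonneg_left (by positivity) (by positivity) h1
      exact pow_le_pow_left₀ (by positivity) h2 2
    · have e1 := shift_div_h54 M l (b + 1) j₀ j hM1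
      have e2 := shift_div_h54 M l (c + 1) j₀ i hM1
      have e3 : l + (b + 1) = l + 1 + b := by ring
      have e4 : l + (c + 1) = l + 1 + c := by ring
      rw [e3] at e1
      rw [e4] at e2
      rw [e1, e2, hji]
    · rw [shift_div_h54 M (l + 1) c j₀ i hM1, shift_div_h54 M (l + 1) c j₀ i' hM1, hii]
    · rw [shift_div_h54 M (l + 1) c j₀ i hM1, shift_div_h54 M (l + 1) b j₀ j hM1]
      exact sep_shift_h54 hsep
    · exact sep_shift_h54 hs
    · exact hslab x (hsub _ _ _ hx) x' (hsub _ _ _ hx')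

end Pool.Agent.Helper92.GC
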