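import Pool.Agent.Helper92.GC.T3

/-!
# GC-T4: decoupling for a slab

PROOF: as `slab_dec` (Helper22.AC.B6) with one arc at level `0`: `M0` from `decoupling hε` (AC.A7), `M = max M0 36`, `C` from `decoupling`. By induction on `i ≤ N₁`:
`n6 (gs B) ≤ (C M^(ε m))^i ∑_{r < M^(i m)} n6 (arc (M^(i m), r))` (`i = 0`: `arc β B 1 0 = B` because `0 ≤ (t+6)/12 < 1` on `reg β H`). Step: for each arc `j₀ = r` of level `s₀ = i m` apply
`decoupling` to the system of `sys_gs` (finite measure: `mu_prob`, AC.B1); regroup with `sum_range_mul'` (AC.A0).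
-/

open MeasureTheory Real Set Filter Topology

set_option autoImplicit false

namespace Pool.Agent.Helper92.GC

open Pool.Agent.Helper22.AE
open Pool.Agent.Helper22.AC (n6 IsWt mu)

private theorem arc_one_h55 {β H : ℝ} {B : Finset (ℤ × ℤ)} (hH : 0 < H) (hB : B ⊆ reg β H) :
    arc β B 1 0 = B := by
  classical
  unfold arc
  rw [Finset.filter_eq_self]
  intro k hk
  have hk' := hB hk
  simp only [reg, Finset.mem_filter] at hk'
  obtain ⟨-, h1, -, h3⟩ := hk'
  have hu : 0 < uu β k := by linarith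
  have h5 : |tt β k| ≤ 5 := by
    rw [tt, abs_div, abs_of_pos hu, div_le_iff₀ hu]
    exact h3
  have h6 := abs_le.1 h5
  rw [Nat.floor_eq_zero]
  push_cast
  linarith [h6.2]

theorem slab_dec {ε : ℝ} (hε : 0 < ε) : ∃ M : ℕ, 36 ≤ M ∧ ∃ C : ℝ, 1 ≤ C ∧
    ∀ (m N₁ : ℕ) (β H X η : ℝ) (v : ℝ → ℝ) (a : ℤ × ℤ → ℂ) (B : Finset (ℤ × ℤ)), 0 < H → IsWt X v → B ⊆ reg β H →
      (∀ k ∈ B, ∀ k' ∈ B, |uu β k - uu β k'| ≤ η * H) → η ≤ (1 / (M : ℝ)) ^ (2 * m) →
      1 / X ≤ H * (12 / (M : ℝ) ^ (N₁ * m)) ^ 2 →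
      n6 (mu v) (gs B a (ph β)) ≤ C ^ N₁ * (M : ℝ) ^ (ε * ((N₁ * m : ℕ) : ℝ)) *
        ∑ r ∈ Finset.range (M ^ (N₁ * m)), n6 (mu v) (gs (arc β B (M ^ (N₁ * m)) r) a (ph β)) := by
  obtain ⟨M0, hM0, hdec⟩ := Pool.Agent.Helper22.AC.decoupling hε
  set M : ℕ := max M0 36 with hMdef
  have hM36 : 36 ≤ M := le_max_right _ _
  obtain ⟨C, hC, hd⟩ := hdec M (le_max_left _ _)
  refine ⟨M, hM36, C, hC, ?_⟩
  intro m N₁ β H X η v a B hH hv hB hslab hη hHX
  have hM1 : 1 ≤ M := by omega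
  have hMr : (1 : ℝ) ≤ M := by exact_mod_cast hM1
  have hMpos : (0 : ℝ) < M := by linarith
  have hprob := Pool.Agent.Helper22.AC.mu_prob hv
  have key : ∀ i : ℕ, i ≤ N₁ → n6 (mu v) (gs B a (ph β)) ≤
      C ^ i * (M : ℝ) ^ (ε * ((i * m : ℕ) : ℝ)) *
        ∑ r ∈ Finset.range (M ^ (i * m)), n6 (mu v) (gs (arc β B (M ^ (i * m)) r) a (ph β)) := by
    intro i
    induction i with
    | zero =>
      intro _
      simp [arc_one_h55 hH hB]
    | succ i ih =>
      intro hi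
      have h1 := ih (by omega)
      refine h1.trans ?_
      have hlev : i * m + m ≤ N₁ * m := by
        have h2 : (i + 1) * m ≤ N₁ * m := Nat.mul_le_mul_right m hi
        rwa [Nat.succ_mul] at h2
      have hHX' : 1 / X ≤ H * (12 / (M : ℝ) ^ (i * m + m)) ^ 2 := by
        refine hHX.trans ?_
        have h2 : (M : ℝ) ^ (i * m + m) ≤ (M : ℝ) ^ (N₁ * m) := pow_le_pow_right₀ hMr hlev
        have h3 : (0 : ℝ) < (M : ℝ) ^ (i * m + m) := pow_pos hMpos _
        gcongr
      have hstep : ∀ r : ℕ, n6 (mu v) (gs (arc β B (M ^ (i * m)) r) a (ph β)) ≤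
          C * (M : ℝ) ^ (ε * (m : ℝ)) * ∑ r' ∈ Finset.range (M ^ m),
            n6 (mu v) (gs (arc β B (M ^ ((i + 1) * m)) (M ^ m * r + r')) a (ph β)) := by
        intro r
        have h2 := hd _ (mu v) m _ (sys_gs hH hM36 (s₀ := i * m) (m := m) (j₀ := r) hv a hB hslab hη hHX')
        simp only [add_zero, pow_zero, one_mul] at h2
        rw [show (i + 1) * m = i * m + m from Nat.succ_mul i m]
        exact h2
      calc C ^ i * (M : ℝ) ^ (ε * ((i * m : ℕ) : ℝ)) * ∑ r ∈ Finset.range (M ^ (i * m)),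
              n6 (mu v) (gs (arc β B (M ^ (i * m)) r) a (ph β))
          ≤ C ^ i * (M : ℝ) ^ (ε * ((i * m : ℕ) : ℝ)) * ∑ r ∈ Finset.range (M ^ (i * m)),
              (C * (M : ℝ) ^ (ε * (m : ℝ)) * ∑ r' ∈ Finset.range (M ^ m),
                n6 (mu v) (gs (arc β B (M ^ ((i + 1) * m)) (M ^ m * r + r')) a (ph β))) := by
            apply mul_le_mul_of_nonneg_left (Finset.sum_le_sum fun r _ => hstep r)
            positivity
        _ = C ^ (i + 1) * (M : ℝ) ^ (ε * (((i + 1) * m : ℕ) : ℝ)) *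
              ∑ r ∈ Finset.range (M ^ (i * m)), ∑ r' ∈ Finset.range (M ^ m),
                n6 (mu v) (gs (arc β B (M ^ ((i + 1) * m)) (M ^ m * r + r')) a (ph β)) := by
            rw [← Finset.mul_sum, pow_succ]
            have h3 : (M : ℝ) ^ (ε * (((i + 1) * m : ℕ) : ℝ)) =
                (M : ℝ) ^ (ε * ((i * m : ℕ) : ℝ)) * (M : ℝ) ^ (ε * (m : ℝ)) := by
              rw [← Real.rpow_add hMpos]
              congr 1
              push_cast
              ring
            rw [h3]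
            ring
        _ = _ := by
            congr 1
            have h4 : M ^ ((i + 1) * m) = M ^ (i * m) * M ^ m := by
              rw [← pow_add, Nat.succ_mul]
            rw [show Finset.range (M ^ ((i + 1) * m)) = Finset.range (M ^ (i * m) * M ^ m) by
              rw [h4], Pool.Agent.Helper22.AC.sum_range_mul']
  exact key N₁ le_rfl

end Pool.Agent.Helper92.GC
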