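import Pool.Agent.Helper92.GC.T4

/-!
# GC-T5: decoupling for the region

PROOF. Put `N₁ ≥ 48/ε`, `ε' = ε/9`, `M`, `C` from `slab_dec ε'`. Let `S = N₁ m`, `L = M^(2m)` and, for `l < 9 L`, the slab `B_l = {k ∈ reg β H | H l/L ≤ uu β k < H (l+1)/L}`; the slabs partition
`reg β H` (`u ≤ 8H`), and `η = 1/L = (1/M)^(2m)`. By `n6_sum_le` (AC.A1) `n6 (gs (reg β H)) ≤ (9L)^(5/3) ∑_l n6 (gs B_l)`. `slab_dec` bounds `n6 (gs B_l)` by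
`C^N₁ M^(ε' S) ∑_r n6 (arc β B_l (M^S) r)`, and `n6 (arc β B_l N r) ≤ (14²)² n6 (arc β (reg β H) N r)` because `arc β B_l N r` is obtained from `arc β (reg β H) N r` by two cuts in `uu β`
(`cut_u`, and `u < z` is the complement of `z ≤ u`: use `mul_half_lt` for `-u`, or `{u < z} = {-z < -u}` which is a half plane `mul_half_lt`), so by `mul_comp` a multiplier of norm `14²`, `n6_mul` and
`m6_filter`. Total constant: `(9L)^(8/3) · 14⁴ · C^N₁ · M^(ε' S)`; `L = (M^S)^(2/N₁) ≤ H^(6/N₁) ≤ H^(ε/8)`, `M^(ε' S) ≤ H^(3 ε') = H^(ε/3)`: `(8/3)(ε/8) + ε/3 ≤ ε`. The hypothesis `1/X ≤ H (12/M^S)²` is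
`M^(2S) ≤ 144 H X`.
-/

open MeasureTheory Real Set Filter Topology

set_option autoImplicit false

namespace Pool.Agent.Helper92.GC

open Pool.Agent.Helper22.AE
open Pool.Agent.Helper22.AC (n6 IsWt mu)

private lemma t5_num_h17 {ε : ℝ} (hε : 0 < ε) {M m N₁ : ℕ} (hM : 1 ≤ M) (hN : 1 ≤ N₁) (hN2 : 48 / ε ≤ N₁) {H : ℝ}
    (hH : 1 ≤ H) (h : (M : ℝ) ^ (N₁ * m) ≤ H ^ 3) :
    (9 * (M : ℝ) ^ (2 * m)) ^ (8 / 3 : ℝ) * (M : ℝ) ^ (ε / 9 * ((N₁ * m : ℕ) : ℝ)) ≤ (9 : ℝ) ^ (8 / 3 : ℝ) * H ^ ε := by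
  have hM0 : (0 : ℝ) ≤ M := by positivity
  have hH0 : 0 ≤ H := by linarith
  have hN0 : (0 : ℝ) < N₁ := by exact_mod_cast hN
  have hL0 : (0 : ℝ) ≤ (M : ℝ) ^ (2 * m) := by positivity
  have hL1 : (M : ℝ) ^ (2 * m) ≤ H ^ (ε / 8) := by
    have h1 : ((M : ℝ) ^ (2 * m)) ^ N₁ ≤ H ^ 6 := by
      calc ((M : ℝ) ^ (2 * m)) ^ N₁ = ((M : ℝ) ^ (N₁ * m)) ^ 2 := by rw [← pow_mul, ← pow_mul]; congr 1; ring
        _ ≤ (H ^ 3) ^ 2 := pow_le_pow_left₀ (by positivity) h 2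
        _ = H ^ 6 := by ring
    have h2 : (M : ℝ) ^ (2 * m) = (((M : ℝ) ^ (2 * m)) ^ N₁) ^ (1 / (N₁ : ℝ)) := by
      rw [← rpow_natCast ((M : ℝ) ^ (2 * m)) N₁, ← rpow_mul hL0, mul_one_div_cancel hN0.ne', rpow_one]
    rw [h2]
    calc (((M : ℝ) ^ (2 * m)) ^ N₁) ^ (1 / (N₁ : ℝ)) ≤ (H ^ 6) ^ (1 / (N₁ : ℝ)) :=
          rpow_le_rpow (by positivity) h1 (by positivity)
      _ = H ^ (6 / (N₁ : ℝ)) := by
          rw [← rpow_natCast H 6, ← rpow_mul hH0]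
          congr 1
          push_cast
          ring
      _ ≤ H ^ (ε / 8) := by
          apply rpow_le_rpow_of_exponent_le hH
          rw [div_le_iff₀ hε] at hN2
          rw [div_le_div_iff₀ hN0 (by norm_num)]
          linarith
  have hL2 : ((M : ℝ) ^ (2 * m)) ^ (8 / 3 : ℝ) ≤ H ^ (ε / 3) := by
    calc ((M : ℝ) ^ (2 * m)) ^ (8 / 3 : ℝ) ≤ (H ^ (ε / 8)) ^ (8 / 3 : ℝ) := rpow_le_rpow hL0 hL1 (by norm_num)
      _ = H ^ (ε / 3) := by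
        rw [← rpow_mul hH0]
        congr 1
        ring
  have hM2 : (M : ℝ) ^ (ε / 9 * ((N₁ * m : ℕ) : ℝ)) ≤ H ^ (ε / 3) := by
    calc (M : ℝ) ^ (ε / 9 * ((N₁ * m : ℕ) : ℝ)) = ((M : ℝ) ^ (N₁ * m)) ^ (ε / 9) := by
          rw [mul_comm (ε / 9), rpow_mul hM0, rpow_natCast]
      _ ≤ (H ^ 3) ^ (ε / 9) := rpow_le_rpow (by positivity) h (by positivity)
      _ = H ^ (ε / 3) := by
        rw [← rpow_natCast H 3, ← rpow_mul hH0]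
        congr 1
        push_cast
        ring
  rw [mul_rpow (by norm_num) hL0, mul_assoc]
  apply mul_le_mul_of_nonneg_left _ (by positivity)
  calc ((M : ℝ) ^ (2 * m)) ^ (8 / 3 : ℝ) * (M : ℝ) ^ (ε / 9 * ((N₁ * m : ℕ) : ℝ)) ≤ H ^ (ε / 3) * H ^ (ε / 3) :=
        mul_le_mul hL2 hM2 (by positivity) (by positivity)
    _ = H ^ (ε / 3 + ε / 3) := (rpow_add (by linarith) _ _).symm
    _ ≤ H ^ ε := rpow_le_rpow_of_exponent_le hH (by linarith)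

open Classical in
private noncomputable def t5B_h17 (β H L : ℝ) (S : Finset (ℤ × ℤ)) (l : ℕ) : Finset (ℤ × ℤ) :=
  S.filter (fun k => ⌊uu β k * L / H⌋₊ = l)

private lemma t5_iff_h17 {β H L : ℝ} (hH : 0 < H) (hL : 0 < L) {k : ℤ × ℤ} (hk : 0 ≤ uu β k) (l : ℕ) :
    ⌊uu β k * L / H⌋₊ = l ↔ H * l / L ≤ uu β k ∧ uu β k < H * (l + 1) / L := by
  rw [Nat.floor_eq_iff (by positivity), le_div_iff₀ hH, div_lt_iff₀ hH, div_le_iff₀ hL, lt_div_iff₀ hL]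
  constructor
  · rintro ⟨h1, h2⟩
    exact ⟨by linarith, by linarith⟩
  · rintro ⟨h1, h2⟩
    exact ⟨by linarith, by linarith⟩

open Classical in
private lemma t5_reg_h17 {β H : ℝ} {k : ℤ × ℤ} (hk : k ∈ reg β H) : H / 4 ≤ uu β k ∧ uu β k ≤ 8 * H := by
  unfold reg at hk
  rw [Finset.mem_filter] at hk
  exact ⟨hk.2.1, hk.2.2.1⟩

open Classical in
private lemma t5_mul_h17 {β H L : ℝ} (hH : 0 < H) (hL : 0 < L) {S : Finset (ℤ × ℤ)} (hS : ∀ k ∈ S, 0 ≤ uu β k)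
    (l : ℕ) (A : ℤ × ℤ → ℂ) : m6 (t5B_h17 β H L S l) A ≤ (14 * 14 : ℝ) ^ 6 * m6 S A := by
  have h1 := mul_comp (cut_u S β (H * l / L)) (mul_half_lt S (-1) (-β) (-(H * (l + 1) / L)))
  have h2 : IsMul S (fun k => if ⌊uu β k * L / H⌋₊ = l then 1 else 0) (14 * 14) := by
    refine mul_congr (fun k hk => ?_) h1
    have h3 := t5_iff_h17 hH hL (hS k hk) l
    have h4 : -(H * (l + 1) / L) < (-1) * (k.1 : ℝ) + (-β) * (k.2 : ℝ) ↔ uu β k < H * (l + 1) / L := by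
      unfold uu
      constructor <;> intro h <;> linarith
    by_cases h5 : H * l / L ≤ uu β k
    · by_cases h6 : uu β k < H * (l + 1) / L
      · rw [if_pos h5, if_pos (h4.2 h6), if_pos (h3.2 ⟨h5, h6⟩), one_mul]
      · rw [if_neg (fun h => h6 (h4.1 h)), if_neg (fun h => h6 (h3.1 h).2), mul_zero]
    · rw [if_neg h5, if_neg (fun h => h5 (h3.1 h).1), zero_mul]
  refine le_trans (le_of_eq ?_) (h2.2 A)
  have h6 := m6_filter S (fun k => ⌊uu β k * L / H⌋₊ = l) A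
  unfold t5B_h17
  convert h6

open Classical in
private lemma t5_arc_h17 (β H L : ℝ) (N r l : ℕ) :
    arc β (t5B_h17 β H L (reg β H) l) N r = t5B_h17 β H L (arc β (reg β H) N r) l := by
  unfold arc t5B_h17
  rw [Finset.filter_filter, Finset.filter_filter]
  refine Finset.filter_congr fun k _ => ?_
  exact and_comm

private lemma t5_n6_nonneg_h17 {v : ℝ → ℝ} (f : (ℝ × ℝ) × ℝ → ℂ) : 0 ≤ n6 (mu v) f :=
  rpow_nonneg (integral_nonneg fun _ => by positivity) _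

private lemma t5_main_h17 {ε C₀ : ℝ} (hC₀ : 1 ≤ C₀) {M N₁ m : ℕ} (hM : 36 ≤ M) {β H X : ℝ} {v : ℝ → ℝ} {a : ℤ × ℤ → ℂ}
    (hH : 1 ≤ H) (hv : IsWt X v)
    (hslab : ∀ B : Finset (ℤ × ℤ), B ⊆ reg β H →
      (∀ k ∈ B, ∀ k' ∈ B, |uu β k - uu β k'| ≤ (1 / (M : ℝ)) ^ (2 * m) * H) →
      n6 (mu v) (gs B a (ph β)) ≤ C₀ ^ N₁ * (M : ℝ) ^ (ε / 9 * ((N₁ * m : ℕ) : ℝ)) *
        ∑ r ∈ Finset.range (M ^ (N₁ * m)), n6 (mu v) (gs (arc β B (M ^ (N₁ * m)) r) a (ph β))) :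
    n6 (mu v) (gs (reg β H) a (ph β)) ≤ (9 * (M : ℝ) ^ (2 * m)) ^ (5 / 3 : ℝ) * ((9 * (M : ℝ) ^ (2 * m)) *
      (C₀ ^ N₁ * (M : ℝ) ^ (ε / 9 * ((N₁ * m : ℕ) : ℝ)) * ((14 * 14 : ℝ) ^ 2 *
        ∑ r ∈ Finset.range (M ^ (N₁ * m)), n6 (mu v) (gs (arc β (reg β H) (M ^ (N₁ * m)) r) a (ph β))))) := by
  classical
  have hH0 : 0 < H := by linarith
  have hM0 : (0 : ℝ) < M := by exact_mod_cast (by omega : 0 < M)
  have hL0 : (0 : ℝ) < (M : ℝ) ^ (2 * m) := by positivity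
  have hprob := Pool.Agent.Helper22.AC.mu_prob hv
  have hfl : ∀ k ∈ reg β H, ⌊uu β k * (M : ℝ) ^ (2 * m) / H⌋₊ ∈ Finset.range (9 * M ^ (2 * m)) := by
    intro k hk
    rw [Finset.mem_range, Nat.floor_lt' (by positivity)]
    rw [div_lt_iff₀ hH0]
    push_cast
    have h1 := (t5_reg_h17 hk).2
    have h2 : uu β k * (M : ℝ) ^ (2 * m) ≤ 8 * H * (M : ℝ) ^ (2 * m) := mul_le_mul_of_nonneg_right h1 hL0.le
    have h3 : 0 < (M : ℝ) ^ (2 * m) * H := by positivity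
    linarith
  have hsum : gs (reg β H) a (ph β) = fun q => ∑ l ∈ Finset.range (9 * M ^ (2 * m)),
      gs (t5B_h17 β H ((M : ℝ) ^ (2 * m)) (reg β H) l) a (ph β) q := by
    funext q
    unfold gs t5B_h17
    exact (Finset.sum_fiberwise_of_maps_to hfl _).symm
  rw [hsum]
  refine (Pool.Agent.Helper22.AC.n6_sum_le (mu v) (9 * M ^ (2 * m))
    (fun l => gs (t5B_h17 β H ((M : ℝ) ^ (2 * m)) (reg β H) l) a (ph β))
    (fun l => (gs_cont _ _ _).measurable) (fun l => ⟨_, gs_norm_le _ _ _⟩)).trans ?_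
  have hcast : ((9 * M ^ (2 * m) : ℕ) : ℝ) = 9 * (M : ℝ) ^ (2 * m) := by push_cast; rfl
  rw [hcast]
  apply mul_le_mul_of_nonneg_left _ (by positivity)
  have hterm : ∀ l ∈ Finset.range (9 * M ^ (2 * m)),
      n6 (mu v) (gs (t5B_h17 β H ((M : ℝ) ^ (2 * m)) (reg β H) l) a (ph β)) ≤
      C₀ ^ N₁ * (M : ℝ) ^ (ε / 9 * ((N₁ * m : ℕ) : ℝ)) * ((14 * 14 : ℝ) ^ 2 *
        ∑ r ∈ Finset.range (M ^ (N₁ * m)), n6 (mu v) (gs (arc β (reg β H) (M ^ (N₁ * m)) r) a (ph β))) := by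
    intro l _
    have hsub : t5B_h17 β H ((M : ℝ) ^ (2 * m)) (reg β H) l ⊆ reg β H := Finset.filter_subset _ _
    refine (hslab _ hsub ?_).trans ?_
    · intro k hk k' hk'
      unfold t5B_h17 at hk hk'
      rw [Finset.mem_filter] at hk hk'
      have hk0 : 0 ≤ uu β k := by
        have := (t5_reg_h17 hk.1).1
        linarith
      have hk0' : 0 ≤ uu β k' := by
        have := (t5_reg_h17 hk'.1).1
        linarith
      have h1 := (t5_iff_h17 hH0 hL0 hk0 l).1 hk.2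
      have h2 := (t5_iff_h17 hH0 hL0 hk0' l).1 hk'.2
      have h3 : (1 / (M : ℝ)) ^ (2 * m) * H = H * (l + 1) / (M : ℝ) ^ (2 * m) - H * l / (M : ℝ) ^ (2 * m) := by
        rw [one_div, inv_pow]
        field_simp
        ring
      rw [h3, abs_le]
      constructor <;> linarith [h1.1, h1.2, h2.1, h2.2]
    · apply mul_le_mul_of_nonneg_left _ (by positivity)
      rw [Finset.mul_sum]
      refine Finset.sum_le_sum fun r _ => ?_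
      rw [t5_arc_h17]
      refine n6_le_of_m6 hv (by norm_num) fun R => ?_
      apply t5_mul_h17 hH0 hL0
      intro k hk
      have hk1 : k ∈ reg β H := (Finset.filter_subset _ _) hk
      have := (t5_reg_h17 hk1).1
      linarith
  refine (Finset.sum_le_sum hterm).trans ?_
  rw [Finset.sum_const, Finset.card_range, nsmul_eq_mul, hcast]

theorem dec {ε : ℝ} (hε : 0 < ε) : ∃ M N₁ : ℕ, 36 ≤ M ∧ 1 ≤ N₁ ∧ ∃ C : ℝ, 1 ≤ C ∧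
    ∀ (m : ℕ) (β H X : ℝ) (v : ℝ → ℝ) (a : ℤ × ℤ → ℂ), 1 ≤ H → 0 < X → IsWt X v →
      (M : ℝ) ^ (2 * (N₁ * m)) ≤ 144 * (H * X) → (M : ℝ) ^ (N₁ * m) ≤ H ^ 3 →
      n6 (mu v) (gs (reg β H) a (ph β)) ≤ C * H ^ ε *
        ∑ r ∈ Finset.range (M ^ (N₁ * m)), n6 (mu v) (gs (arc β (reg β H) (M ^ (N₁ * m)) r) a (ph β)) := by
  obtain ⟨M, hM, C₀, hC₀, hslab⟩ := slab_dec (ε := ε / 9) (by positivity)
  have hM0 : (0 : ℝ) < M := by exact_mod_cast (by omega : 0 < M)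
  refine ⟨M, ⌈48 / ε⌉₊ + 1, hM, by omega, (9 : ℝ) ^ (8 / 3 : ℝ) * (C₀ ^ (⌈48 / ε⌉₊ + 1) * (14 * 14) ^ 2), ?_, ?_⟩
  · have h1 : (1 : ℝ) ≤ (9 : ℝ) ^ (8 / 3 : ℝ) := one_le_rpow (by norm_num) (by norm_num)
    have h2 : 1 ≤ C₀ ^ (⌈48 / ε⌉₊ + 1) := one_le_pow₀ hC₀
    have h3 : (1 : ℝ) ≤ (14 * 14) ^ 2 := by norm_num
    exact one_le_mul_of_one_le_of_one_le h1 (one_le_mul_of_one_le_of_one_le h2 h3)
  obtain ⟨N₁, hN₁⟩ : ∃ N₁ : ℕ, N₁ = ⌈48 / ε⌉₊ + 1 := ⟨_, rfl⟩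
  rw [← hN₁]
  intro m β H X v a hH hX hv h1 h2
  have hN : 1 ≤ N₁ := by omega
  have hN2 : 48 / ε ≤ N₁ := by
    rw [hN₁]
    push_cast
    have := Nat.le_ceil (48 / ε)
    linarith
  have hnum := t5_num_h17 hε (by omega : 1 ≤ M) hN hN2 hH h2
  have hH0 : 0 < H := by linarith
  have hXM : 1 / X ≤ H * (12 / (M : ℝ) ^ (N₁ * m)) ^ 2 := by
    rw [div_pow, ← pow_mul, mul_comm (N₁ * m) 2, ← mul_div_assoc, div_le_div_iff₀ hX (by positivity)]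
    linarith
  have hmain := t5_main_h17 (ε := ε) hC₀ hM (β := β) (a := a) hH hv
    (fun B hB hk => hslab m N₁ β H X _ v a B hH0 hv hB hk le_rfl hXM)
  refine hmain.trans ?_
  obtain ⟨W0, hW0⟩ : ∃ s : ℝ, s = ∑ r ∈ Finset.range (M ^ (N₁ * m)),
    n6 (mu v) (gs (arc β (reg β H) (M ^ (N₁ * m)) r) a (ph β)) := ⟨_, rfl⟩
  have hW1 : 0 ≤ W0 := by
    rw [hW0]
    exact Finset.sum_nonneg fun r _ => t5_n6_nonneg_h17 _
  rw [← hW0]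
  have hL0 : (0 : ℝ) < 9 * (M : ℝ) ^ (2 * m) := by positivity
  have h83 : (9 * (M : ℝ) ^ (2 * m)) ^ (5 / 3 : ℝ) * (9 * (M : ℝ) ^ (2 * m)) = (9 * (M : ℝ) ^ (2 * m)) ^ (8 / 3 : ℝ) := by
    have h3 : (9 * (M : ℝ) ^ (2 * m)) ^ (8 / 3 : ℝ) = (9 * (M : ℝ) ^ (2 * m)) ^ (5 / 3 + 1 : ℝ) := by norm_num
    rw [h3, rpow_add hL0, rpow_one]
  calc (9 * (M : ℝ) ^ (2 * m)) ^ (5 / 3 : ℝ) * ((9 * (M : ℝ) ^ (2 * m)) *
      (C₀ ^ N₁ * (M : ℝ) ^ (ε / 9 * ((N₁ * m : ℕ) : ℝ)) * ((14 * 14 : ℝ) ^ 2 * W0)))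
      = ((9 * (M : ℝ) ^ (2 * m)) ^ (5 / 3 : ℝ) * (9 * (M : ℝ) ^ (2 * m)) *
        (M : ℝ) ^ (ε / 9 * ((N₁ * m : ℕ) : ℝ))) * (C₀ ^ N₁ * (14 * 14) ^ 2 * W0) := by ring
    _ ≤ ((9 : ℝ) ^ (8 / 3 : ℝ) * H ^ ε) * (C₀ ^ N₁ * (14 * 14) ^ 2 * W0) := by
        rw [h83]
        exact mul_le_mul_of_nonneg_right hnum (by positivity)
    _ = _ := by ring

end Pool.Agent.Helper92.GC
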