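import Pool.Agent.Helper92.GC.D3
import Pool.Agent.Helper92.GC.D4
import Pool.Agent.Helper92.GC.G6

/-!
# GC-MAIN: the exponent 62/99

PROOF. Let `0 < ε ≤ 1/1000` (monotone in `ε`), `ε' = ε/8`, `τ = 37/99`, `1 - τ = 62/99`, `e2 = ε/8`; `τ + e2 + ε' ≤ 3/8` (`3/8 - 37/99 = 1/792`). By `dcnt_bdd` it is enough to treat `R ≥ R₁`. Take `R₀ = R`,
`n1 = ⌈(τ + e2) log₂ R₀⌉₊`, so `R₀^(τ+e2) ≤ 2^n1 < 2 R₀^(τ+e2)`, and for `n < n1`: `K = 2^n ≤ R₀^(τ+e2) ≤ R₀^(3/8 - ε')`. `disc_blocks` with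
`B n = C (R₀^(1/2) K^(-3/2) S_K + 1)` (`ft_sum_bound`), where
`S_K = 25 K²` if `K < R₀^(1/4+ε')` (`sqa_triv`): `R₀^(1/2) K^(1/2) · 25 ≤ 25 R₀^(5/8 + ε'/2) ≤ 25 R₀^(62/99)`;
`S_K = 8 C R₀^(ε') K^(4/3) (R₀K)^(2/15) (1 + K³/R₀)^(2/45) + 16 K` otherwise (`sqa_oct`, `oct_bound`): `(1+y)^(2/45) ≤ 1 + y^(2/45)`;
`R₀^(1/2) K^(-3/2) K^(4/3) (R₀K)^(2/15) = R₀^(19/30) K^(-1/30) ≤ R₀^(19/30 - 1/120) = R₀^(5/8)`;
times `(K³/R₀)^(2/45)`: `R₀^(53/90) K^(1/10) ≤ R₀^(53/90 + 37/990 + e2/10) = R₀^(62/99 + e2/10)`; `R₀^(1/2) K^(-1/2) 16 ≤ 16 R₀^(1/2)`.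
There are `n1 ≤ C log R₀ ≤ C R₀^(ε')` blocks. Sum: `≤ C R₀^(62/99 + ε)`.
-/

open MeasureTheory Real Set Filter Topology

set_option autoImplicit false

namespace Pool.Agent.Helper92.GC

open Pool.Agent.Helper22.AE
open Pool.Agent.Helper22.AC (n6 IsWt mu)

private lemma sub_add6 {y p : ℝ} (hy : 0 ≤ y) (hp : 0 ≤ p) (hp1 : p ≤ 1) : (1 + y) ^ p ≤ 1 + y ^ p := by
  have h := NNReal.rpow_add_le_add_rpow 1 ⟨y, hy⟩ hp hp1
  rw [NNReal.one_rpow] at h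
  exact_mod_cast h

private lemma big6 {ε C X K : ℝ} (hε : 0 < ε) (hX : 1 ≤ X) (hK1 : 1 ≤ K)
    (hK : K ≤ X ^ (37 / 99 + ε / 8)) (hK4 : X ^ (1 / 4 : ℝ) ≤ K) (hC : 0 < C) :
    X ^ (1 / 2 : ℝ) * K ^ (-(3 / 2) : ℝ) * (8 * (C * X ^ (ε / 8) * K ^ (4 / 3 : ℝ) *
      (X * K) ^ (2 / 15 : ℝ) * (1 + K ^ 3 / X) ^ (2 / 45 : ℝ)) + 16 * K) ≤
      (16 * C + 16) * X ^ (62 / 99 + ε / 2) := by
  have hX0 : 0 < X := by linarith
  have hK0 : 0 < K := by linarith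
  obtain ⟨x, rfl⟩ : ∃ x, X = exp x := ⟨log X, (exp_log hX0).symm⟩
  obtain ⟨k, rfl⟩ : ∃ k, K = exp k := ⟨log K, (exp_log hK0).symm⟩
  have hx : 0 ≤ x := one_le_exp_iff.1 hX
  have hk : 0 ≤ k := one_le_exp_iff.1 hK1
  rw [← exp_mul, exp_le_exp] at hK hK4
  have hp : 0 ≤ ε * x := mul_nonneg hε.le hx
  have h1 : (1 + exp k ^ 3 / exp x) ^ (2 / 45 : ℝ) ≤ 1 + exp ((3 * k - x) * (2 / 45)) := by
    have e : exp k ^ 3 / exp x = exp (3 * k - x) := by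
      rw [exp_sub, ← exp_nat_mul]
      norm_num
    rw [e, exp_mul]
    exact sub_add6 (exp_pos _).le (by norm_num) (by norm_num)
  rw [← exp_add]
  simp only [← exp_mul]
  set D : ℝ := (1 + exp k ^ 3 / exp x) ^ (2 / 45 : ℝ) with hD
  have e1 : exp (x * (1 / 2)) * exp (k * -(3 / 2)) * (8 * (C * exp (x * (ε / 8)) * exp (k * (4 / 3)) *
      exp ((x + k) * (2 / 15)) * D) + 16 * exp k) =
      8 * C * exp (x * (1 / 2) + k * -(3 / 2) + x * (ε / 8) + k * (4 / 3) + (x + k) * (2 / 15)) * D +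
        16 * exp (x * (1 / 2) + k * -(3 / 2) + k) := by
    simp only [exp_add]
    ring
  rw [e1]
  have h2 : exp (x * (1 / 2) + k * -(3 / 2) + x * (ε / 8) + k * (4 / 3) + (x + k) * (2 / 15)) * D ≤
      2 * exp (x * (62 / 99 + ε / 2)) := by
    refine (mul_le_mul_of_nonneg_left h1 (exp_pos _).le).trans ?_
    rw [_root_.mul_add, mul_one, ← exp_add]
    have h3 : exp (x * (1 / 2) + k * -(3 / 2) + x * (ε / 8) + k * (4 / 3) + (x + k) * (2 / 15)) ≤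
        exp (x * (62 / 99 + ε / 2)) := by
      rw [exp_le_exp]
      nlinarith
    have h4 : exp (x * (1 / 2) + k * -(3 / 2) + x * (ε / 8) + k * (4 / 3) + (x + k) * (2 / 15) +
        (3 * k - x) * (2 / 45)) ≤ exp (x * (62 / 99 + ε / 2)) := by
      rw [exp_le_exp]
      nlinarith
    linarith
  have h5 : exp (x * (1 / 2) + k * -(3 / 2) + k) ≤ exp (x * (62 / 99 + ε / 2)) := by
    rw [exp_le_exp]
    nlinarith
  have h6 := mul_le_mul_of_nonneg_left h2 (show 0 ≤ 8 * C by positivity)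
  calc _ = 8 * C * (exp (x * (1 / 2) + k * -(3 / 2) + x * (ε / 8) + k * (4 / 3) + (x + k) * (2 / 15)) * D) +
        16 * exp (x * (1 / 2) + k * -(3 / 2) + k) := by ring
    _ ≤ 8 * C * (2 * exp (x * (62 / 99 + ε / 2))) + 16 * exp (x * (62 / 99 + ε / 2)) := by linarith
    _ = _ := by ring

private lemma small6 {ε X K : ℝ} (hε : 0 < ε) (hX : 1 ≤ X) (hK1 : 1 ≤ K)
    (hK4 : K ≤ X ^ (1 / 4 + ε / 8)) :
    X ^ (1 / 2 : ℝ) * K ^ (-(3 / 2) : ℝ) * (25 * K ^ 2) ≤ 25 * X ^ (62 / 99 + ε / 2) := by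
  have hX0 : 0 < X := by linarith
  have hK0 : 0 < K := by linarith
  obtain ⟨x, rfl⟩ : ∃ x, X = exp x := ⟨log X, (exp_log hX0).symm⟩
  obtain ⟨k, rfl⟩ : ∃ k, K = exp k := ⟨log K, (exp_log hK0).symm⟩
  have hx : 0 ≤ x := one_le_exp_iff.1 hX
  have hk : 0 ≤ k := one_le_exp_iff.1 hK1
  rw [← exp_mul, exp_le_exp] at hK4
  have hp : 0 ≤ ε * x := mul_nonneg hε.le hx
  simp only [← exp_mul]
  have e : exp k ^ 2 = exp (2 * k) := by
    rw [← exp_nat_mul]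
    norm_num
  rw [e]
  have e1 : exp (x * (1 / 2)) * exp (k * -(3 / 2)) * (25 * exp (2 * k)) =
      25 * exp (x * (1 / 2) + k * -(3 / 2) + 2 * k) := by
    simp only [exp_add]
    ring
  rw [e1]
  refine mul_le_mul_of_nonneg_left (exp_le_exp.2 ?_) (by norm_num)
  nlinarith

private theorem main6 {ε : ℝ} (hε : 0 < ε) (hε1 : ε ≤ 1 / 1000) : ∃ C : ℝ, ∀ R : ℝ, 1 ≤ R →
    ∀ c : ℝ × ℝ, |dcnt c R - π * R ^ 2| ≤ C * R ^ (62 / 99 + ε) := by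
  obtain ⟨C1, R1, hR1, hblocks⟩ := disc_blocks (τ := 37 / 99) (e2 := ε / 8) (by norm_num) (by norm_num)
    (by linarith)
  obtain ⟨C2, hC2, hft⟩ := ft_sum_bound
  obtain ⟨C3, hC3, hoct⟩ := oct_bound (ε := ε / 8) (by linarith) (by linarith)
  obtain ⟨C4, hbdd⟩ := dcnt_bdd R1
  refine ⟨|C1| + (8 / ε + 1) * (C2 * (16 * C3 + 42)) + |C4|, ?_⟩
  intro X hX c
  have hX0 : 0 < X := by linarith
  have hbig : 1 ≤ X ^ (62 / 99 + ε) := one_le_rpow hX (by linarith)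
  have hc1 : 0 ≤ |C1| := abs_nonneg _
  have hc4 : 0 ≤ |C4| := abs_nonneg _
  have hc2 : 0 ≤ (8 / ε + 1) * (C2 * (16 * C3 + 42)) := by positivity
  rcases le_total X R1 with hXR | hXR
  · refine (hbdd X hX hXR c).trans ((le_abs_self _).trans ?_)
    nlinarith
  -- the number of blocks
  have hl2 : 0 < log 2 := log_pos (by norm_num)
  have hlX : 0 ≤ log X := log_nonneg hX
  set n1 : ℕ := ⌈(37 / 99 + ε / 8) * (log X / log 2)⌉₊ with hn1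
  have hpow : X ^ (37 / 99 + ε / 8) = (2 : ℝ) ^ ((37 / 99 + ε / 8) * (log X / log 2)) := by
    rw [rpow_def_of_pos hX0, rpow_def_of_pos (by norm_num : (0 : ℝ) < 2)]
    congr 1
    field_simp
  have hn1a : X ^ (37 / 99 + ε / 8) ≤ 2 ^ n1 := by
    rw [hpow, ← rpow_natCast]
    exact rpow_le_rpow_of_exponent_le (by norm_num) (Nat.le_ceil _)
  have hn1b : ∀ n < n1, (2 : ℝ) ^ n ≤ X ^ (37 / 99 + ε / 8) := by
    intro n hn
    rw [hpow, ← rpow_natCast]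
    exact rpow_le_rpow_of_exponent_le (by norm_num) (Nat.lt_ceil.1 hn).le
  have hn1c : (n1 : ℝ) ≤ (8 / ε + 1) * X ^ (ε / 4) := by
    have h1 : (n1 : ℝ) < (37 / 99 + ε / 8) * (log X / log 2) + 1 := Nat.ceil_lt_add_one (by positivity)
    have h2 : log X ≤ X ^ (ε / 4) / (ε / 4) := log_le_rpow_div hX0.le (by linarith)
    have h3 : (1 : ℝ) / 2 < log 2 := by
      have := log_two_gt_d9
      linarith
    have h4 : log X / log 2 ≤ 2 * log X := by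
      rw [div_le_iff₀ hl2]
      nlinarith
    have h5 : (37 / 99 + ε / 8) * (log X / log 2) ≤ 2 * log X := by
      have h6 : 0 ≤ log X / log 2 := by positivity
      nlinarith
    have h7 : 1 ≤ X ^ (ε / 4) := one_le_rpow hX (by linarith)
    have h8 : 2 * (X ^ (ε / 4) / (ε / 4)) = 8 / ε * X ^ (ε / 4) := by
      field_simp
      ring
    calc (n1 : ℝ) ≤ 2 * log X + 1 := by linarith
      _ ≤ 8 / ε * X ^ (ε / 4) + X ^ (ε / 4) := by linarith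
      _ = (8 / ε + 1) * X ^ (ε / 4) := by ring
  -- the bounds of the blocks
  set S : ℕ → ℝ := fun K => if (K : ℝ) ≤ X ^ (1 / 4 + ε / 8) then 25 * (K : ℝ) ^ 2 else
    8 * (C3 * X ^ (ε / 8) * (K : ℝ) ^ (4 / 3 : ℝ) * (X * K) ^ (2 / 15 : ℝ) *
      (1 + (K : ℝ) ^ 3 / X) ^ (2 / 45 : ℝ)) + 16 * K with hS
  set B : ℕ → ℝ := fun n => C2 * (X ^ (1 / 2 : ℝ) * ((2 ^ n : ℕ) : ℝ) ^ (-(3 / 2) : ℝ) * S (2 ^ n) + 1)
    with hB
  have hK1 : ∀ n : ℕ, (1 : ℝ) ≤ ((2 ^ n : ℕ) : ℝ) := by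
    intro n
    push_cast
    exact one_le_pow₀ (by norm_num)
  have hSnn : ∀ K : ℕ, 0 ≤ S K := by
    intro K
    simp only [hS]
    split_ifs
    · positivity
    · positivity
  have hmid : X ^ (37 / 99 + ε / 8) ≤ X ^ (3 / 8 - ε / 8) :=
    rpow_le_rpow_of_exponent_le hX (by linarith)
  have hq : X ^ (1 / 4 : ℝ) ≤ X ^ (1 / 4 + ε / 8) := rpow_le_rpow_of_exponent_le hX (by linarith)
  have hBle : ∀ n ∈ Finset.range n1, B n ≤ C2 * (16 * C3 + 42) * X ^ (62 / 99 + ε / 2) := by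
    intro n hn
    have hK : (((2 ^ n : ℕ) : ℝ)) ≤ X ^ (37 / 99 + ε / 8) := by
      push_cast
      exact hn1b n (Finset.mem_range.1 hn)
    have h1 : X ^ (1 / 2 : ℝ) * ((2 ^ n : ℕ) : ℝ) ^ (-(3 / 2) : ℝ) * S (2 ^ n) ≤
        (16 * C3 + 41) * X ^ (62 / 99 + ε / 2) := by
      have h0 : 0 ≤ X ^ (62 / 99 + ε / 2) := by positivity
      simp only [hS]
      split_ifs with h
      · have := small6 hε hX (hK1 n) h
        nlinarith
      · push Not at h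
        have := big6 hε hX (hK1 n) hK (hq.trans h.le) hC3
        nlinarith
    have h2 : 1 ≤ X ^ (62 / 99 + ε / 2) := one_le_rpow hX (by linarith)
    calc B n ≤ C2 * ((16 * C3 + 41) * X ^ (62 / 99 + ε / 2) + X ^ (62 / 99 + ε / 2)) :=
          mul_le_mul_of_nonneg_left (by linarith) hC2.le
      _ = C2 * (16 * C3 + 42) * X ^ (62 / 99 + ε / 2) := by ring
  have hsum : ∑ n ∈ Finset.range n1, B n ≤
      (8 / ε + 1) * (C2 * (16 * C3 + 42)) * X ^ (62 / 99 + ε) := by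
    refine (Finset.sum_le_sum hBle).trans ?_
    rw [Finset.sum_const, Finset.card_range, nsmul_eq_mul]
    have h3 : X ^ (ε / 4) * X ^ (62 / 99 + ε / 2) ≤ X ^ (62 / 99 + ε) := by
      rw [← rpow_add hX0]
      exact rpow_le_rpow_of_exponent_le hX (by linarith)
    calc (n1 : ℝ) * (C2 * (16 * C3 + 42) * X ^ (62 / 99 + ε / 2)) ≤
        (8 / ε + 1) * X ^ (ε / 4) * (C2 * (16 * C3 + 42) * X ^ (62 / 99 + ε / 2)) :=
          mul_le_mul_of_nonneg_right hn1c (by positivity)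
      _ = (8 / ε + 1) * (C2 * (16 * C3 + 42)) * (X ^ (ε / 4) * X ^ (62 / 99 + ε / 2)) := by ring
      _ ≤ _ := mul_le_mul_of_nonneg_left h3 hc2
  have hmain := hblocks X hXR n1 hn1a B (by
    intro n hn r hr c'
    refine hft X r (S (2 ^ n)) (2 ^ n) hX hr.1 hr.2 Nat.one_le_two_pow (hSnn _) ?_ c'
    intro r' hr' i hi c''
    have hK : (((2 ^ n : ℕ) : ℝ)) ≤ X ^ (37 / 99 + ε / 8) := by
      push_cast
      exact hn1b n hn
    simp only [hS]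
    split_ifs with h
    · exact sqa_triv Nat.one_le_two_pow c''
    · push Not at h
      exact sqa_oct Nat.one_le_two_pow
        (fun c => hoct X r' (2 ^ n) hX hr'.1 hr'.2 h.le (hK.trans hmid) i hi c) c'')
    X ⟨le_rfl, by linarith⟩ c
  refine hmain.trans ?_
  have h5 : X ^ (1 - 37 / 99 : ℝ) ≤ X ^ (62 / 99 + ε) := rpow_le_rpow_of_exponent_le hX (by linarith)
  have h6 : C1 * X ^ (1 - 37 / 99 : ℝ) ≤ |C1| * X ^ (62 / 99 + ε) := by
    refine (mul_le_mul_of_nonneg_right (le_abs_self C1) (by positivity)).trans ?_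
    exact mul_le_mul_of_nonneg_left h5 hc1
  have h7 : 0 ≤ |C4| * X ^ (62 / 99 + ε) := by positivity
  calc C1 * X ^ (1 - 37 / 99 : ℝ) + ∑ n ∈ Finset.range n1, B n ≤
      |C1| * X ^ (62 / 99 + ε) + (8 / ε + 1) * (C2 * (16 * C3 + 42)) * X ^ (62 / 99 + ε) := add_le_add h6 hsum
    _ ≤ _ := by linarith

theorem main {ε : ℝ} (hε : 0 < ε) : ∃ C : ℝ, ∀ R : ℝ, 1 ≤ R → ∀ c : ℝ × ℝ,
    |dcnt c R - π * R ^ 2| ≤ C * R ^ (62 / 99 + ε) := by
  rcases le_total ε (1 / 1000) with h | h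
  · exact main6 hε h
  · obtain ⟨C, hC⟩ := main6 (ε := 1 / 1000) (by norm_num) le_rfl
    refine ⟨|C|, fun R hR c => (hC R hR c).trans ?_⟩
    have h1 : R ^ (62 / 99 + 1 / 1000 : ℝ) ≤ R ^ (62 / 99 + ε) :=
      rpow_le_rpow_of_exponent_le hR (by linarith)
    refine (mul_le_mul_of_nonneg_right (le_abs_self C) (by positivity)).trans ?_
    exact mul_le_mul_of_nonneg_left h1 (abs_nonneg _)

end Pool.Agent.Helper92.GC
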