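import Pool.Agent.Helper92.GC.D2
import Pool.Agent.Helper22.AC.D2
import Pool.Agent.Helper92.GC.G3

/-!
# GC-D3: from the Fourier transform of the disc to the exponential sum

PROOF. `sqa K` consists of non zero vectors with `K ≤ nk k ≤ 3K`, at most `16 K²` of them. The inequality `vk_bound_u` (AC.D2) holds, with the same proof, for any finite set `B` of
non zero vectors instead of `blk n` (copy it; or apply it to the few `blk n` that meet `sqa K` with coefficients `u k` multiplied by the indicator of `sqa K`):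
for `G = fun _ => r`: `rho G = r`, `gph G k α = r cos α`, `u k = ee (dt k c)`, `β = (R₀ K)^(-1/2)`:
`‖∑ ft G k u k‖ ≤ β ∫ k0 β α ‖∑ u k/nk k · r · ee (-(nk k r cos α))‖ dα + (1/β) ∫ k0 β α ‖∑ u k/(nk k)² ee (-(nk k r cos α))‖ dα`
`= (β r/K) ∫ k0 ‖∑ (K/nk k) u k ee (-(r cos α) nk k)‖ + (1/(β K²)) ∫ k0 ‖∑ (K/nk k)² u k ee (-(r cos α) nk k)‖`.
For `|cos α| ≥ 1/2`: `|r cos α| ∈ [R₀/4, 4R₀]`; if `cos α < 0` the sum is the one in the hypothesis; if `cos α > 0` take the complex conjugate (`c → -c`). So it is `≤ S`, and `∫ k0 ≤ 20` (`k0_int`).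
For `|cos α| < 1/2`: `sin² α ≥ 3/4`, `k0 β α ≤ (4/3) β`, the sum is `≤ 16 K²` (`K/nk k ≤ 1`). Total: `(β r/K)(20 S + 2π (4/3) β 16 K²) + (1/(β K²))(20 S + 2π (4/3) β 16 K²)`, and
`β r/K ≤ 4 R₀^(1/2) K^(-3/2)`, `1/(β K²) = R₀^(1/2) K^(-3/2)`, `β² r K ≤ 4`.
-/

open MeasureTheory Real Set Filter Topology

set_option autoImplicit false

namespace Pool.Agent.Helper92.GC

open Pool.Agent.Helper22.AE
open Pool.Agent.Helper22.AC (n6 IsWt mu)

private lemma d32_k0_cont {β : ℝ} (hβ : 0 < β) : Continuous (k0 β) := by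
  unfold k0
  exact continuous_const.div (by fun_prop) (fun α => by positivity)

private lemma d32_k0_nonneg {β : ℝ} (hβ : 0 < β) (α : ℝ) : 0 ≤ k0 β α := by
  unfold k0
  positivity

private lemma d32_fd_cont {β : ℝ} (hβ : 0 < β) : Continuous (fd β) := by
  unfold fd
  exact Continuous.div (by fun_prop) (by fun_prop) (fun α => by positivity)

private lemma d32_deriv_cd {G : ℝ → ℝ} (hG : ContDiff ℝ 2 G) : ContDiff ℝ 1 (deriv G) :=
  ((contDiff_succ_iff_deriv (n := 1)).1 hG).2.2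

private lemma d32_rho_cont {G : ℝ → ℝ} (hG : ContDiff ℝ 2 G) : Continuous (rho G) := by
  unfold rho
  exact hG.continuous.add ((d32_deriv_cd hG).continuous_deriv le_rfl)

private lemma d32_gph_cont {G : ℝ → ℝ} (hG : ContDiff ℝ 2 G) (k : ℤ × ℤ) : Continuous (gph G k) := by
  have h1 := hG.continuous
  have h2 := (d32_deriv_cd hG).continuous
  unfold gph
  fun_prop

private lemma d32_E_cont {G : ℝ → ℝ} (hG : ContDiff ℝ 2 G) (k : ℤ × ℤ) :
    Continuous (fun α : ℝ => ee (-(nk k * gph G k α))) := by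
  have h1 := d32_gph_cont hG k
  have h2 := ee_cont
  fun_prop

private theorem vk_bound32 {G : ℝ → ℝ} (hG : IsSupp G) (u : ℤ × ℤ → ℂ) (B : Finset (ℤ × ℤ))
    (hB : ∀ k ∈ B, k ≠ 0) {β : ℝ} (hβ : 0 < β) :
    ‖∑ k ∈ B, ft G k * u k‖ ≤
      β * (∫ α in (-π)..π, k0 β α * ‖∑ k ∈ B, u k / (nk k : ℂ) *
        ((rho G (tk k + α) : ℝ) : ℂ) * ee (-(nk k * gph G k α))‖) +
      1 / β * (∫ α in (-π)..π, k0 β α * ‖∑ k ∈ B, u k / (nk k : ℂ) ^ 2 * ee (-(nk k * gph G k α))‖) := by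
  have hkc := d32_k0_cont hβ
  have hfc := d32_fd_cont hβ
  have hrc := d32_rho_cont hG.smooth
  have hEc := d32_E_cont hG.smooth
  have hpi := Real.pi_pos
  set S1 : ℝ → ℂ := fun α => ∑ k ∈ B, u k / (nk k : ℂ) *
        ((rho G (tk k + α) : ℝ) : ℂ) * ee (-(nk k * gph G k α)) with hS1
  set S2 : ℝ → ℂ := fun α => ∑ k ∈ B, u k / (nk k : ℂ) ^ 2 *
        ee (-(nk k * gph G k α)) with hS2
  have hS1c : Continuous S1 := by
    refine continuous_finsetSum _ (fun k _ => ?_)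
    refine Continuous.mul (continuous_const.mul ?_) (hEc k)
    exact Complex.continuous_ofReal.comp (hrc.comp (continuous_const.add continuous_id))
  have hS2c : Continuous S2 := by
    refine continuous_finsetSum _ (fun k _ => ?_)
    exact continuous_const.mul (hEc k)
  -- the exact formula
  have key : ∑ k ∈ B, ft G k * u k =
      -(1 / (2 * π * Complex.I)) * (∫ α in (-π)..π, ((β * k0 β α * cos α : ℝ) : ℂ) * S1 α) +
      (1 / (2 * π * Complex.I)) ^ 2 * (∫ α in (-π)..π, ((fd β α : ℝ) : ℂ) * S2 α) := by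
    have e1 : (∫ α in (-π)..π, ((β * k0 β α * cos α : ℝ) : ℂ) * S1 α) =
        ∑ k ∈ B, u k / (nk k : ℂ) *
          ∫ α in (-π)..π, ((β * k0 β α * cos α * rho G (tk k + α) : ℝ) : ℂ) * ee (-(nk k * gph G k α)) := by
      have h1 : ∀ α, ((β * k0 β α * cos α : ℝ) : ℂ) * S1 α = ∑ k ∈ B,
          u k / (nk k : ℂ) *
          (((β * k0 β α * cos α * rho G (tk k + α) : ℝ) : ℂ) * ee (-(nk k * gph G k α))) := by
        intro α
        rw [hS1]
        simp only [Finset.mul_sum]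
        refine Finset.sum_congr rfl (fun k _ => ?_)
        push_cast
        ring
      simp only [h1]
      rw [intervalIntegral.integral_finsetSum]
      · refine Finset.sum_congr rfl (fun k _ => ?_)
        rw [intervalIntegral.integral_const_mul]
      · intro k _
        refine Continuous.intervalIntegrable ?_ _ _
        refine continuous_const.mul (Continuous.mul ?_ (hEc k))
        refine Complex.continuous_ofReal.comp (Continuous.mul (by fun_prop) ?_)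
        exact hrc.comp (continuous_const.add continuous_id)
    have e2 : (∫ α in (-π)..π, ((fd β α : ℝ) : ℂ) * S2 α) =
        ∑ k ∈ B, u k / (nk k : ℂ) ^ 2 *
          ∫ α in (-π)..π, ((fd β α : ℝ) : ℂ) * ee (-(nk k * gph G k α)) := by
      have h1 : ∀ α, ((fd β α : ℝ) : ℂ) * S2 α = ∑ k ∈ B,
          u k / (nk k : ℂ) ^ 2 *
          (((fd β α : ℝ) : ℂ) * ee (-(nk k * gph G k α))) := by
        intro α
        rw [hS2]
        simp only [Finset.mul_sum]
        refine Finset.sum_congr rfl (fun k _ => ?_)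
        ring
      simp only [h1]
      rw [intervalIntegral.integral_finsetSum]
      · refine Finset.sum_congr rfl (fun k _ => ?_)
        rw [intervalIntegral.integral_const_mul]
      · intro k _
        refine Continuous.intervalIntegrable ?_ _ _
        exact continuous_const.mul ((Complex.continuous_ofReal.comp hfc).mul (hEc k))
    rw [e1, e2, Finset.mul_sum, Finset.mul_sum, ← Finset.sum_add_distrib]
    refine Finset.sum_congr rfl (fun k hk => ?_)
    have hk0 := hB k hk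
    have hnk : (nk k : ℂ) ≠ 0 := by exact_mod_cast (nk_pos hk0).ne'
    have hpi' : (π : ℂ) ≠ 0 := by exact_mod_cast hpi.ne'
    have hI := Complex.I_ne_zero
    rw [ft_polar hG hk0, polar_ibp hG hk0 hβ]
    field_simp
    ring
  have hn1 : ‖∫ α in (-π)..π, ((β * k0 β α * cos α : ℝ) : ℂ) * S1 α‖ ≤
      β * ∫ α in (-π)..π, k0 β α * ‖S1 α‖ := by
    rw [← intervalIntegral.integral_const_mul]
    refine (intervalIntegral.norm_integral_le_integral_norm (by linarith)).trans ?_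
    refine intervalIntegral.integral_mono_on (by linarith) ?_ ?_ ?_
    · refine Continuous.intervalIntegrable ?_ _ _
      exact ((Complex.continuous_ofReal.comp (by fun_prop)).mul hS1c).norm
    · refine Continuous.intervalIntegrable ?_ _ _
      exact continuous_const.mul (hkc.mul hS1c.norm)
    · intro α _
      have h0 := d32_k0_nonneg hβ α
      rw [norm_mul, Complex.norm_real, Real.norm_eq_abs, abs_mul, abs_mul, abs_of_pos hβ, abs_of_nonneg h0]
      have hc := Real.abs_cos_le_one α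
      have h1 : β * k0 β α * |cos α| ≤ β * k0 β α * 1 :=
        mul_le_mul_of_nonneg_left hc (mul_nonneg hβ.le h0)
      calc β * k0 β α * |cos α| * ‖S1 α‖ ≤ (β * k0 β α * 1) * ‖S1 α‖ :=
            mul_le_mul_of_nonneg_right h1 (norm_nonneg _)
        _ = β * (k0 β α * ‖S1 α‖) := by ring
  have hn2 : ‖∫ α in (-π)..π, ((fd β α : ℝ) : ℂ) * S2 α‖ ≤
      3 / β * ∫ α in (-π)..π, k0 β α * ‖S2 α‖ := by
    rw [← intervalIntegral.integral_const_mul]
    refine (intervalIntegral.norm_integral_le_integral_norm (by linarith)).trans ?_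
    refine intervalIntegral.integral_mono_on (by linarith) ?_ ?_ ?_
    · refine Continuous.intervalIntegrable ?_ _ _
      exact ((Complex.continuous_ofReal.comp hfc).mul hS2c).norm
    · refine Continuous.intervalIntegrable ?_ _ _
      exact continuous_const.mul (hkc.mul hS2c.norm)
    · intro α _
      rw [norm_mul, Complex.norm_real, Real.norm_eq_abs]
      calc |fd β α| * ‖S2 α‖ ≤ (3 / β * k0 β α) * ‖S2 α‖ :=
            mul_le_mul_of_nonneg_right (fd_le hβ α) (norm_nonneg _)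
        _ = 3 / β * (k0 β α * ‖S2 α‖) := by ring
  have hI1 : 0 ≤ ∫ α in (-π)..π, k0 β α * ‖S1 α‖ :=
    intervalIntegral.integral_nonneg (by linarith)
      (fun α _ => mul_nonneg (d32_k0_nonneg hβ α) (norm_nonneg _))
  have hI2 : 0 ≤ ∫ α in (-π)..π, k0 β α * ‖S2 α‖ :=
    intervalIntegral.integral_nonneg (by linarith)
      (fun α _ => mul_nonneg (d32_k0_nonneg hβ α) (norm_nonneg _))
  have hc1 : ‖-(1 / (2 * π * Complex.I))‖ ≤ 1 := by
    rw [norm_neg, norm_div, norm_mul, norm_mul, Complex.norm_I, Complex.norm_real, norm_one,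
      Real.norm_eq_abs, abs_of_pos hpi, Complex.norm_ofNat, mul_one]
    rw [div_le_one (by positivity)]
    linarith [Real.pi_gt_three]
  have hc2 : ‖(1 / (2 * π * Complex.I)) ^ 2‖ * 3 ≤ 1 := by
    rw [norm_pow, norm_div, norm_mul, norm_mul, Complex.norm_I, Complex.norm_real, norm_one,
      Real.norm_eq_abs, abs_of_pos hpi, Complex.norm_ofNat, mul_one]
    have h3 : 1 / (2 * π) ≤ 1 / 6 := one_div_le_one_div_of_le (by norm_num) (by linarith [Real.pi_gt_three])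
    have h4 : 0 ≤ 1 / (2 * π) := by positivity
    nlinarith
  rw [key]
  refine (norm_add_le _ _).trans ?_
  rw [norm_mul, norm_mul]
  refine add_le_add ?_ ?_
  · calc ‖-(1 / (2 * π * Complex.I))‖ * ‖∫ α in (-π)..π, ((β * k0 β α * cos α : ℝ) : ℂ) * S1 α‖
        ≤ 1 * (β * ∫ α in (-π)..π, k0 β α * ‖S1 α‖) :=
          mul_le_mul hc1 hn1 (norm_nonneg _) zero_le_one
      _ = β * ∫ α in (-π)..π, k0 β α * ‖S1 α‖ := one_mul _
  · calc ‖(1 / (2 * π * Complex.I)) ^ 2‖ * ‖∫ α in (-π)..π, ((fd β α : ℝ) : ℂ) * S2 α‖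
        ≤ ‖(1 / (2 * π * Complex.I)) ^ 2‖ * (3 / β * ∫ α in (-π)..π, k0 β α * ‖S2 α‖) :=
          mul_le_mul_of_nonneg_left hn2 (norm_nonneg _)
      _ = (‖(1 / (2 * π * Complex.I)) ^ 2‖ * 3) * (1 / β * ∫ α in (-π)..π, k0 β α * ‖S2 α‖) := by ring
      _ ≤ 1 * (1 / β * ∫ α in (-π)..π, k0 β α * ‖S2 α‖) :=
          mul_le_mul_of_nonneg_right hc2 (by positivity)
      _ = 1 / β * ∫ α in (-π)..π, k0 β α * ‖S2 α‖ := one_mul _

/-- the sum of the block with weights `(K/|k|)^i` -/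
private noncomputable def Ti32 (K i : ℕ) (r : ℝ) (c : ℝ × ℝ) (α : ℝ) : ℂ :=
  ∑ k ∈ sqa K, (((K : ℝ) / nk k : ℝ) : ℂ) ^ i * (ee (dt k c) * ee (-(nk k * (r * cos α))))

private theorem Ti_cont32 (K i : ℕ) (r : ℝ) (c : ℝ × ℝ) : Continuous (Ti32 K i r c) := by
  unfold Ti32
  refine continuous_finsetSum _ (fun k _ => ?_)
  refine continuous_const.mul (continuous_const.mul ?_)
  exact ee_cont.comp (by fun_prop)

private theorem mem_sqa32 {K : ℕ} {k : ℤ × ℤ} (hk : k ∈ sqa K) :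
    ((K : ℤ) ≤ |k.1| ∨ (K : ℤ) ≤ |k.2|) ∧ |k.1| < 2 * K ∧ |k.2| < 2 * K := by
  unfold sqa at hk
  exact (Finset.mem_filter.1 hk).2

private theorem nk_ge32 {K : ℕ} {k : ℤ × ℤ} (hk : k ∈ sqa K) : (K : ℝ) ≤ nk k := by
  obtain ⟨h1, _, _⟩ := mem_sqa32 hk
  have hre : |(k.1 : ℝ)| ≤ nk k := by
    unfold nk
    exact Complex.abs_re_le_norm (cz k)
  have him : |(k.2 : ℝ)| ≤ nk k := by
    unfold nk
    exact Complex.abs_im_le_norm (cz k)
  rcases h1 with h1 | h1
  · have h2 : ((K : ℤ) : ℝ) ≤ ((|k.1| : ℤ) : ℝ) := by exact_mod_cast h1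
    push_cast at h2
    linarith
  · have h2 : ((K : ℤ) : ℝ) ≤ ((|k.2| : ℤ) : ℝ) := by exact_mod_cast h1
    push_cast at h2
    linarith

private theorem card_sqa32 (K : ℕ) : ((sqa K).card : ℝ) ≤ 16 * (K : ℝ) ^ 2 := by
  classical
  have hsub : sqa K ⊆ Finset.Ioo (-(2 * K : ℤ)) (2 * K) ×ˢ Finset.Ioo (-(2 * K : ℤ)) (2 * K) := by
    intro k hk
    obtain ⟨_, h2, h3⟩ := mem_sqa32 hk
    rw [abs_lt] at h2 h3
    rw [Finset.mem_product, Finset.mem_Ioo, Finset.mem_Ioo]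
    exact ⟨h2, h3⟩
  have h1 := Finset.card_le_card hsub
  rw [Finset.card_product, Int.card_Ioo] at h1
  have h2 : (2 * (K : ℤ) - -(2 * K) - 1).toNat ≤ 4 * K := by omega
  have h3 : (sqa K).card ≤ (4 * K) * (4 * K) := h1.trans (Nat.mul_le_mul h2 h2)
  have h4 : ((sqa K).card : ℝ) ≤ (((4 * K) * (4 * K) : ℕ) : ℝ) := by exact_mod_cast h3
  push_cast at h4
  linarith

private theorem Ti_triv32 {K : ℕ} (hK : 1 ≤ K) (i : ℕ) (r : ℝ) (c : ℝ × ℝ) (α : ℝ) :
    ‖Ti32 K i r c α‖ ≤ 16 * (K : ℝ) ^ 2 := by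
  have hK0 : (0 : ℝ) < K := by exact_mod_cast hK
  unfold Ti32
  refine (norm_sum_le _ _).trans ?_
  calc ∑ k ∈ sqa K, ‖(((K : ℝ) / nk k : ℝ) : ℂ) ^ i * (ee (dt k c) * ee (-(nk k * (r * cos α))))‖
      ≤ ∑ k ∈ sqa K, (1 : ℝ) := by
        refine Finset.sum_le_sum (fun k hk => ?_)
        have h1 := nk_ge32 hk
        have h2 : 0 < nk k := lt_of_lt_of_le hK0 h1
        rw [norm_mul, norm_mul, ee_norm, ee_norm, mul_one, mul_one, norm_pow, Complex.norm_real,
          Real.norm_eq_abs, abs_of_nonneg (by positivity)]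
        exact pow_le_one₀ (by positivity) ((div_le_one h2).2 h1)
    _ = ((sqa K).card : ℝ) := by rw [Finset.sum_const, nsmul_eq_mul, mul_one]
    _ ≤ _ := card_sqa32 K

private theorem Ti_bs32 {R₀ r S : ℝ} {K : ℕ} (hR₀ : 1 ≤ R₀) (hr : R₀ / 2 ≤ r) (hr' : r ≤ 4 * R₀)
    (hS : ∀ r' ∈ Icc (R₀ / 4) (4 * R₀), ∀ i : ℕ, (i = 1 ∨ i = 2) → ∀ c : ℝ × ℝ, ‖bs (sqa K) K i r' c‖ ≤ S)
    {i : ℕ} (hi : i = 1 ∨ i = 2) (c : ℝ × ℝ) {α : ℝ} (hα : 1 / 2 ≤ |cos α|) :
    ‖Ti32 K i r c α‖ ≤ S := by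
  have hr0 : 0 < r := by linarith
  have hc1 := Real.abs_cos_le_one α
  have hmem : r * |cos α| ∈ Icc (R₀ / 4) (4 * R₀) := by
    constructor
    · nlinarith
    · nlinarith
  rcases le_total 0 (cos α) with hc | hc
  · rw [abs_of_nonneg hc] at hmem
    have h1 := hS _ hmem i hi (-c)
    have h2 : Ti32 K i r c α = (starRingEnd ℂ) (bs (sqa K) K i (r * cos α) (-c)) := by
      unfold Ti32 bs
      rw [map_sum]
      refine Finset.sum_congr rfl (fun k _ => ?_)
      rw [map_mul, map_pow, Complex.conj_ofReal, ← ee_neg, ← ee_add]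
      congr 2
      unfold dt
      simp only [Prod.fst_neg, Prod.snd_neg]
      ring
    rw [h2, RCLike.norm_conj]
    exact h1
  · rw [abs_of_nonpos hc] at hmem
    have h1 := hS _ hmem i hi c
    have h2 : Ti32 K i r c α = bs (sqa K) K i (r * -cos α) c := by
      unfold Ti32 bs
      refine Finset.sum_congr rfl (fun k _ => ?_)
      rw [← ee_add]
      congr 2
      ring
    rw [h2]
    exact h1

private theorem Ti_int32 {R₀ r S : ℝ} {K : ℕ} (hR₀ : 1 ≤ R₀) (hr : R₀ / 2 ≤ r) (hr' : r ≤ 4 * R₀)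
    (hK : 1 ≤ K) (hS0 : 0 ≤ S)
    (hS : ∀ r' ∈ Icc (R₀ / 4) (4 * R₀), ∀ i : ℕ, (i = 1 ∨ i = 2) → ∀ c : ℝ × ℝ, ‖bs (sqa K) K i r' c‖ ≤ S)
    {i : ℕ} (hi : i = 1 ∨ i = 2) (c : ℝ × ℝ) {β : ℝ} (hβ : 0 < β) :
    ∫ α in (-π)..π, k0 β α * ‖Ti32 K i r c α‖ ≤ 20 * S + 135 * β * (K : ℝ) ^ 2 := by
  have hpi := Real.pi_pos
  have hkc := d32_k0_cont hβ
  have hTc := Ti_cont32 K i r c
  have hpt : ∀ α, k0 β α * ‖Ti32 K i r c α‖ ≤ k0 β α * S + (64 / 3) * β * (K : ℝ) ^ 2 := by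
    intro α
    have h0 := d32_k0_nonneg hβ α
    by_cases hα : 1 / 2 ≤ |cos α|
    · have h1 := Ti_bs32 hR₀ hr hr' hS hi c hα
      have h2 : k0 β α * ‖Ti32 K i r c α‖ ≤ k0 β α * S := mul_le_mul_of_nonneg_left h1 h0
      have h3 : 0 ≤ (64 / 3) * β * (K : ℝ) ^ 2 := by positivity
      linarith
    · rw [not_le] at hα
      have h1 := Ti_triv32 hK i r c α
      have hcos : cos α ^ 2 ≤ 1 / 4 := by
        rw [← sq_abs]
        nlinarith [abs_nonneg (cos α)]
      have hsin : 3 / 4 ≤ sin α ^ 2 + β ^ 2 := by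
        have := Real.sin_sq_add_cos_sq α
        nlinarith [sq_nonneg β]
      have hk : k0 β α ≤ (4 / 3) * β := by
        unfold k0
        rw [div_le_iff₀ (by linarith)]
        nlinarith
      have h2 : k0 β α * ‖Ti32 K i r c α‖ ≤ ((4 / 3) * β) * (16 * (K : ℝ) ^ 2) :=
        mul_le_mul hk h1 (norm_nonneg _) (by positivity)
      have h3 : 0 ≤ k0 β α * S := mul_nonneg h0 hS0
      linarith
  have hint : ∫ α in (-π)..π, (k0 β α * S + (64 / 3) * β * (K : ℝ) ^ 2) =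
      (∫ α in (-π)..π, k0 β α) * S + (2 * π) * ((64 / 3) * β * (K : ℝ) ^ 2) := by
    rw [intervalIntegral.integral_add (by exact (hkc.mul continuous_const).intervalIntegrable _ _)
      (by exact continuous_const.intervalIntegrable _ _), intervalIntegral.integral_mul_const,
      intervalIntegral.integral_const, smul_eq_mul]
    ring
  calc ∫ α in (-π)..π, k0 β α * ‖Ti32 K i r c α‖
      ≤ ∫ α in (-π)..π, (k0 β α * S + (64 / 3) * β * (K : ℝ) ^ 2) := by
        refine intervalIntegral.integral_mono_on (by linarith) ?_ ?_ (fun α _ => hpt α)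
        · exact (hkc.mul hTc.norm).intervalIntegrable _ _
        · exact ((hkc.mul continuous_const).add continuous_const).intervalIntegrable _ _
    _ = (∫ α in (-π)..π, k0 β α) * S + (2 * π) * ((64 / 3) * β * (K : ℝ) ^ 2) := hint
    _ ≤ 20 * S + 135 * β * (K : ℝ) ^ 2 := by
        have h1 := mul_le_mul_of_nonneg_right (k0_int hβ) hS0
        have h2 : π < 3.15 := Real.pi_lt_d2
        have h3 : 0 ≤ β * (K : ℝ) ^ 2 := by positivity
        nlinarith

theorem ft_sum_bound : ∃ C : ℝ, 0 < C ∧ ∀ (R₀ r S : ℝ) (K : ℕ), 1 ≤ R₀ → R₀ / 2 ≤ r → r ≤ 4 * R₀ → 1 ≤ K → 0 ≤ S →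
    (∀ r' ∈ Icc (R₀ / 4) (4 * R₀), ∀ i : ℕ, (i = 1 ∨ i = 2) → ∀ c : ℝ × ℝ, ‖bs (sqa K) K i r' c‖ ≤ S) →
      ∀ c : ℝ × ℝ, ‖∑ k ∈ sqa K, ft (fun _ => r) k * ee (dt k c)‖ ≤
        C * (R₀ ^ (1 / 2 : ℝ) * (K : ℝ) ^ (-(3 / 2) : ℝ) * S + 1) := by
  refine ⟨675, by norm_num, ?_⟩
  intro R₀ r S K hR₀ hr hr' hK hS0 hS c
  have hK0 : (0 : ℝ) < K := by exact_mod_cast hK
  have hR0 : 0 < R₀ := by linarith
  have hr0 : 0 < r := by linarith
  obtain ⟨a, ha, haR⟩ : ∃ a : ℝ, 0 < a ∧ a ^ 2 = R₀ :=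
    ⟨Real.sqrt R₀, Real.sqrt_pos.2 hR0, Real.sq_sqrt hR0.le⟩
  obtain ⟨b, hb, hbK⟩ : ∃ b : ℝ, 0 < b ∧ b ^ 2 = (K : ℝ) :=
    ⟨Real.sqrt K, Real.sqrt_pos.2 hK0, Real.sq_sqrt hK0.le⟩
  have hX : R₀ ^ (1 / 2 : ℝ) * (K : ℝ) ^ (-(3 / 2) : ℝ) = a / b ^ 3 := by
    have e1 : R₀ ^ (1 / 2 : ℝ) = a := by
      rw [← haR, ← Real.rpow_natCast a 2, ← Real.rpow_mul ha.le]
      norm_num
    have e2 : (K : ℝ) ^ (-(3 / 2) : ℝ) = (b ^ 3)⁻¹ := by
      rw [← hbK, ← Real.rpow_natCast b 2, ← Real.rpow_mul hb.le, ← Real.rpow_natCast b 3,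
        ← Real.rpow_neg hb.le]
      norm_num
    rw [e1, e2, div_eq_mul_inv]
  set β : ℝ := 1 / (a * b) with hβdef
  have hβ : 0 < β := by positivity
  have hB : ∀ k ∈ sqa K, k ≠ 0 := by
    intro k hk h0
    have h1 := nk_ge32 hk
    have h2 : nk k = 0 := by
      rw [h0]
      simp [nk, cz, Complex.ext_iff]
    linarith
  have hmain := vk_bound32 (supp_const hr0) (fun k => ee (dt k c)) (sqa K) hB hβ
  have hrho : ∀ θ : ℝ, rho (fun _ => r) θ = r := by
    intro θ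
    unfold rho
    have h1 : deriv (fun _ : ℝ => r) = fun _ => 0 := by
      funext x
      exact deriv_const x r
    rw [h1, deriv_const, add_zero]
  have hgph : ∀ (k : ℤ × ℤ) (α : ℝ), gph (fun _ => r) k α = r * cos α := by
    intro k α
    unfold gph
    rw [deriv_const, zero_mul, sub_zero]
  have hnk : ∀ k ∈ sqa K, (nk k : ℂ) ≠ 0 := by
    intro k hk
    have h1 := nk_ge32 hk
    have h2 : nk k ≠ 0 := by linarith
    exact_mod_cast h2
  have hKc : (K : ℂ) ≠ 0 := by exact_mod_cast hK0.ne'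
  have hS1 : ∀ α : ℝ, ‖∑ k ∈ sqa K, ee (dt k c) / (nk k : ℂ) *
      ((rho (fun _ => r) (tk k + α) : ℝ) : ℂ) * ee (-(nk k * gph (fun _ => r) k α))‖ =
      r / K * ‖Ti32 K 1 r c α‖ := by
    intro α
    have e1 : ∑ k ∈ sqa K, ee (dt k c) / (nk k : ℂ) *
      ((rho (fun _ => r) (tk k + α) : ℝ) : ℂ) * ee (-(nk k * gph (fun _ => r) k α)) =
      ((r / K : ℝ) : ℂ) * Ti32 K 1 r c α := by
      unfold Ti32
      rw [Finset.mul_sum]
      refine Finset.sum_congr rfl (fun k hk => ?_)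
      have h1 := hnk k hk
      rw [hrho, hgph]
      push_cast
      field_simp
    rw [e1, norm_mul, Complex.norm_real, Real.norm_eq_abs, abs_of_pos (by positivity)]
  have hS2 : ∀ α : ℝ, ‖∑ k ∈ sqa K, ee (dt k c) / (nk k : ℂ) ^ 2 *
      ee (-(nk k * gph (fun _ => r) k α))‖ = 1 / (K : ℝ) ^ 2 * ‖Ti32 K 2 r c α‖ := by
    intro α
    have e1 : ∑ k ∈ sqa K, ee (dt k c) / (nk k : ℂ) ^ 2 *
      ee (-(nk k * gph (fun _ => r) k α)) = ((1 / (K : ℝ) ^ 2 : ℝ) : ℂ) * Ti32 K 2 r c α := by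
      unfold Ti32
      rw [Finset.mul_sum]
      refine Finset.sum_congr rfl (fun k hk => ?_)
      have h1 := hnk k hk
      rw [hgph]
      push_cast
      field_simp
    rw [e1, norm_mul, Complex.norm_real, Real.norm_eq_abs, abs_of_pos (by positivity)]
  simp only [hS1, hS2] at hmain
  have hI1 : ∫ α in (-π)..π, k0 β α * (r / K * ‖Ti32 K 1 r c α‖) =
      r / K * ∫ α in (-π)..π, k0 β α * ‖Ti32 K 1 r c α‖ := by
    rw [← intervalIntegral.integral_const_mul]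
    congr 1
    funext α
    ring
  have hI2 : ∫ α in (-π)..π, k0 β α * (1 / (K : ℝ) ^ 2 * ‖Ti32 K 2 r c α‖) =
      1 / (K : ℝ) ^ 2 * ∫ α in (-π)..π, k0 β α * ‖Ti32 K 2 r c α‖ := by
    rw [← intervalIntegral.integral_const_mul]
    congr 1
    funext α
    ring
  rw [hI1, hI2] at hmain
  have hb1 := Ti_int32 hR₀ hr hr' hK hS0 hS (Or.inl rfl) c hβ
  have hb2 := Ti_int32 hR₀ hr hr' hK hS0 hS (Or.inr rfl) c hβ
  set I1 := ∫ α in (-π)..π, k0 β α * ‖Ti32 K 1 r c α‖ with hI1d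
  set I2 := ∫ α in (-π)..π, k0 β α * ‖Ti32 K 2 r c α‖ with hI2d
  set D : ℝ := 20 * S + 135 * β * (K : ℝ) ^ 2 with hD
  have hD0 : 0 ≤ D := by positivity
  have t1 : β * (r / K * I1) ≤ 4 * (a / b ^ 3) * D := by
    calc β * (r / K * I1) ≤ β * (4 * R₀ / K * D) := by
          refine mul_le_mul_of_nonneg_left ?_ hβ.le
          refine (mul_le_mul_of_nonneg_left hb1 (by positivity)).trans ?_
          refine mul_le_mul_of_nonneg_right ?_ hD0
          exact div_le_div_of_nonneg_right hr' hK0.le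
      _ = 4 * (a / b ^ 3) * D := by
          rw [hβdef, ← haR, ← hbK]
          field_simp
  have t2 : 1 / β * (1 / (K : ℝ) ^ 2 * I2) ≤ (a / b ^ 3) * D := by
    calc 1 / β * (1 / (K : ℝ) ^ 2 * I2) ≤ 1 / β * (1 / (K : ℝ) ^ 2 * D) := by
          refine mul_le_mul_of_nonneg_left ?_ (by positivity)
          exact mul_le_mul_of_nonneg_left hb2 (by positivity)
      _ = (a / b ^ 3) * D := by
          rw [hβdef, ← hbK]
          field_simp
  have t3 : (a / b ^ 3) * D = 20 * ((a / b ^ 3) * S) + 135 := by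
    rw [hD, hβdef, ← hbK]
    field_simp
  rw [hX]
  have h5 : 0 ≤ (a / b ^ 3) * S := by positivity
  linarith

end Pool.Agent.Helper92.GC
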