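import Pool.Agent.Helper92.GC.E1

/-!
# GC-G1: coordinates in a sector

PROOFS. `N = nn n ≥ 1`, `n' = cmp n`, `dd n n' = 1`, `bt n = sp n n' / N`. `lc_dd`: bilinearity. `lc_sp`: `sp n (h n + j n') = h N + j sp n n' = N (h + bt n · j)`.
`lc_inj`, `lc_surj`: the integer matrix with columns `n, n'` has determinant one (`p.2 = dd n k`, `p.1 = -(dd n' k)` up to sign: `dd k n' = p.1`).
`lc_nk`: Lagrange: `N |k|² = (sp n k)² + (dd n k)² = N² u² + j²`, so `|k|² = N u² (1 + t²/N²)` with `j = t u`; `nk k = √(k.1² + k.2²)`.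
`sec_coord`: `k = lc n p`, `q = n.1`, `Q/(2A) < q ≤ Q/A`, `q² ≤ N ≤ 2 q²`. `N u = sp n k = q k.1 + n.2 k.2 ∈ [q k.1, 2 q k.1]`, so `k.1/(2q) ≤ u`, and
`u ≤ |k|/|n| ≤ √2 k.1/q < 2 √2 K · 2A/Q ≤ 6 K A/Q`; `u ≥ K/(2q) ≥ K A/(2Q)`. `|p.2| = |dd n k| ≤ k.1/Q` (`IsNd`), `< 2K/Q`, and
`|t| = |p.2|/u ≤ (k.1/Q)(2q/k.1) = 2q/Q ≤ 2/A`.
-/

open MeasureTheory Real Set Filter Topology

set_option autoImplicit false

namespace Pool.Agent.Helper92.GC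

open Pool.Agent.Helper22.AE
open Pool.Agent.Helper22.AC (n6 IsWt mu)

/-- the vector `h n + j n'`, `p = (h, j)` -/
noncomputable def lc (n p : ℤ × ℤ) : ℤ × ℤ := (p.1 * n.1 + p.2 * (cmp n).1, p.1 * n.2 + p.2 * (cmp n).2)

theorem lc_dd {n : ℤ × ℤ} (h : IsCoprime n.1 n.2) (p : ℤ × ℤ) : dd n (lc n p) = p.2 := by
  have h1 : n.1 * (cmp n).2 - n.2 * (cmp n).1 = 1 := (cmp_spec h).1
  simp only [dd, lc]
  linear_combination p.2 * h1

theorem lc_sp {n : ℤ × ℤ} (h : IsCoprime n.1 n.2) (p : ℤ × ℤ) : (sp n (lc n p) : ℝ) = (nn n : ℝ) * uu (bt n) p := by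
  have h0 : (1 : ℝ) ≤ (nn n : ℝ) := by exact_mod_cast nn_pos h
  have h1 : (nn n : ℝ) ≠ 0 := by linarith
  have h2 : (nn n : ℝ) * bt n = (sp n (cmp n) : ℝ) := by
    unfold bt
    field_simp
  have h3 : (sp n (lc n p) : ℝ) = (nn n : ℝ) * p.1 + (sp n (cmp n) : ℝ) * p.2 := by
    simp only [sp, lc, nn]
    push_cast
    ring
  rw [h3, ← h2]
  unfold uu
  ring

theorem lc_inj {n : ℤ × ℤ} (h : IsCoprime n.1 n.2) : Function.Injective (lc n) := by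
  intro p p' e
  have h1 : n.1 * (cmp n).2 - n.2 * (cmp n).1 = 1 := (cmp_spec h).1
  have e1 : p.1 * n.1 + p.2 * (cmp n).1 = p'.1 * n.1 + p'.2 * (cmp n).1 := congrArg Prod.fst e
  have e2 : p.1 * n.2 + p.2 * (cmp n).2 = p'.1 * n.2 + p'.2 * (cmp n).2 := congrArg Prod.snd e
  refine Prod.ext ?_ ?_
  · linear_combination (cmp n).2 * e1 - (cmp n).1 * e2 - (p.1 - p'.1) * h1
  · linear_combination n.1 * e2 - n.2 * e1 - (p.2 - p'.2) * h1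

theorem lc_surj {n : ℤ × ℤ} (h : IsCoprime n.1 n.2) : Function.Surjective (lc n) := by
  intro k
  have h1 : n.1 * (cmp n).2 - n.2 * (cmp n).1 = 1 := (cmp_spec h).1
  refine ⟨(dd k (cmp n), dd n k), Prod.ext ?_ ?_⟩
  · simp only [lc, dd]
    linear_combination k.1 * h1
  · simp only [lc, dd]
    linear_combination k.2 * h1

private theorem lc_sq {n : ℤ × ℤ} (h : IsCoprime n.1 n.2) (p : ℤ × ℤ) :
    (nn n : ℝ) * (((lc n p).1 : ℝ) ^ 2 + ((lc n p).2 : ℝ) ^ 2) = (nn n : ℝ) ^ 2 * uu (bt n) p ^ 2 + (p.2 : ℝ) ^ 2 := by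
  have h1 := lc_sp h p
  have h2 : ((dd n (lc n p) : ℤ) : ℝ) = (p.2 : ℝ) := by rw [lc_dd h]
  have h3 : (nn n : ℝ) * (((lc n p).1 : ℝ) ^ 2 + ((lc n p).2 : ℝ) ^ 2) =
      (sp n (lc n p) : ℝ) ^ 2 + ((dd n (lc n p) : ℤ) : ℝ) ^ 2 := by
    simp only [nn, sp, dd]
    push_cast
    ring
  rw [h3, h1, h2]
  ring

theorem lc_nk {n : ℤ × ℤ} (h : IsCoprime n.1 n.2) {p : ℤ × ℤ} (hu : 0 < uu (bt n) p) :
    nk (lc n p) = √(nn n : ℝ) * uu (bt n) p * √(1 + tt (bt n) p ^ 2 / (nn n : ℝ) ^ 2) := by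
  have h0 : (1 : ℝ) ≤ (nn n : ℝ) := by exact_mod_cast nn_pos h
  have h1 : (0 : ℝ) < (nn n : ℝ) := by linarith
  have h2 := lc_sq h p
  have h3 : ((lc n p).1 : ℝ) ^ 2 + ((lc n p).2 : ℝ) ^ 2 =
      (nn n : ℝ) * uu (bt n) p ^ 2 * (1 + tt (bt n) p ^ 2 / (nn n : ℝ) ^ 2) := by
    unfold tt
    have h4 : uu (bt n) p ≠ 0 := hu.ne'
    field_simp
    linear_combination h2
  have h5 : nk (lc n p) = √(((lc n p).1 : ℝ) ^ 2 + ((lc n p).2 : ℝ) ^ 2) := by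
    unfold nk cz
    rw [Complex.norm_eq_sqrt_sq_add_sq]
  rw [h5, h3, Real.sqrt_mul (by positivity), Real.sqrt_mul h1.le, Real.sqrt_sq hu.le]

theorem sec_coord {K Q : ℕ} {A : ℝ} {n p : ℤ × ℤ} (hA : 1 ≤ A) (hQ : 3 ≤ Q) (hn : Good (Q / A) n)
    (h1 : (K : ℤ) ≤ (lc n p).1) (h2 : (lc n p).1 < 2 * K) (h3 : 0 ≤ (lc n p).2) (h4 : (lc n p).2 ≤ (lc n p).1)
    (hK : 1 ≤ K) (hnd : IsNd Q (lc n p) n) :
    K * A / (2 * Q) ≤ uu (bt n) p ∧ uu (bt n) p ≤ 6 * (K * A / Q) ∧ |tt (bt n) p| ≤ 2 / A ∧ |(p.2 : ℝ)| ≤ 2 * K / Q := by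
  have hA0 : 0 < A := by linarith
  have hQ0 : (0 : ℝ) < Q := by
    have : (3 : ℝ) ≤ Q := by exact_mod_cast hQ
    linarith
  have hq1 : (1 : ℝ) ≤ n.1 := by exact_mod_cast hnd.1
  have hq0 : (0 : ℝ) < n.1 := by linarith
  have ha0 : (0 : ℝ) ≤ n.2 := by exact_mod_cast hn.nonneg
  have ha1 : (n.2 : ℝ) ≤ n.1 := by exact_mod_cast hn.le
  have hK0 : (1 : ℝ) ≤ K := by exact_mod_cast hK
  have e1 : (K : ℝ) ≤ (lc n p).1 := by exact_mod_cast h1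
  have e2 : ((lc n p).1 : ℝ) < 2 * K := by exact_mod_cast h2
  have e3 : (0 : ℝ) ≤ (lc n p).2 := by exact_mod_cast h3
  have e4 : ((lc n p).2 : ℝ) ≤ (lc n p).1 := by exact_mod_cast h4
  have hN1 : (1 : ℝ) ≤ (nn n : ℝ) := by exact_mod_cast nn_pos hn.cop
  have hN : (nn n : ℝ) = (n.1 : ℝ) ^ 2 + (n.2 : ℝ) ^ 2 := by simp [nn]
  have hsp : (n.1 : ℝ) * (lc n p).1 + (n.2 : ℝ) * (lc n p).2 = (nn n : ℝ) * uu (bt n) p := by
    rw [← lc_sp hn.cop]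
    simp [sp]
  have hsq := lc_sq hn.cop p
  have hd : |(p.2 : ℝ)| * Q ≤ (lc n p).1 := by
    have h5 := hnd.2.1
    rw [lc_dd hn.cop] at h5
    exact_mod_cast h5
  have hq2 : (n.1 : ℝ) * A ≤ Q := by
    have := hn.hi
    rwa [le_div_iff₀ hA0] at this
  have hq3 : (Q : ℝ) < 2 * (n.1 * A) := by
    have h5 := hn.lo
    rw [div_div, div_lt_iff₀ (by positivity)] at h5
    linarith
  set u := uu (bt n) p with hu
  set k₁ : ℝ := ((lc n p).1 : ℝ) with hk₁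
  set k₂ : ℝ := ((lc n p).2 : ℝ) with hk₂
  set q : ℝ := (n.1 : ℝ) with hq
  set a : ℝ := (n.2 : ℝ) with ha
  set N : ℝ := (nn n : ℝ) with hNd
  have hk0 : 0 < k₁ := by linarith
  -- lower bound for u
  have hN2 : N ≤ 2 * q ^ 2 := by nlinarith
  have hu1 : k₁ ≤ 2 * q * u := by
    have h5 : q * k₁ ≤ N * u := by
      rw [← hsp]
      have := mul_nonneg ha0 e3
      linarith
    have hupos : 0 < u := by
      by_contra hc
      push Not at hc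
      have h6 : N * u ≤ 0 := mul_nonpos_of_nonneg_of_nonpos (by linarith) hc
      have h7 : 0 < q * k₁ := by positivity
      linarith
    have h6 : q * k₁ ≤ 2 * q ^ 2 * u := h5.trans (mul_le_mul_of_nonneg_right hN2 hupos.le)
    have h7 : q * k₁ ≤ q * (2 * q * u) := by linarith
    exact le_of_mul_le_mul_left h7 hq0
  have hupos : 0 < u := by
    by_contra hc
    push Not at hc
    have h6 : 2 * q * u ≤ 0 := mul_nonpos_of_nonneg_of_nonpos (by positivity) hc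
    linarith
  have hu2 : q * u ≤ 3 / 2 * k₁ := by
    have h5 : N * (N * u ^ 2) ≤ N * (k₁ ^ 2 + k₂ ^ 2) := by
      have h6 : N * (k₁ ^ 2 + k₂ ^ 2) = N * (N * u ^ 2) + (p.2 : ℝ) ^ 2 := by linear_combination hsq
      rw [h6]
      have := sq_nonneg (p.2 : ℝ)
      linarith
    have h6 : N * u ^ 2 ≤ k₁ ^ 2 + k₂ ^ 2 := le_of_mul_le_mul_left h5 (by linarith)
    have h7 : k₂ ^ 2 ≤ k₁ ^ 2 := pow_le_pow_left₀ e3 e4 2
    have h8 : q ^ 2 ≤ N := by rw [hN]; have := sq_nonneg a; linarith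
    have h9 : q ^ 2 * u ^ 2 ≤ N * u ^ 2 := mul_le_mul_of_nonneg_right h8 (sq_nonneg u)
    have h10 : (q * u) ^ 2 ≤ (3 / 2 * k₁) ^ 2 := by
      have : (q * u) ^ 2 = q ^ 2 * u ^ 2 := by ring
      have h11 : (3 / 2 * k₁) ^ 2 = 9 / 4 * k₁ ^ 2 := by ring
      have h12 := sq_nonneg k₁
      linarith
    exact le_of_sq_le_sq h10 (by positivity)
  refine ⟨?_, ?_, ?_, ?_⟩
  · rw [div_le_iff₀ (by positivity)]
    have h5 : K * A ≤ 2 * q * u * A := mul_le_mul_of_nonneg_right (e1.trans hu1) hA0.le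
    have h6 : 2 * u * (q * A) ≤ 2 * u * Q := mul_le_mul_of_nonneg_left hq2 (by positivity)
    linarith
  · rw [← mul_div_assoc, le_div_iff₀ hQ0]
    have h5 : u * Q ≤ u * (2 * (q * A)) := mul_le_mul_of_nonneg_left hq3.le hupos.le
    have h6 : 2 * A * (q * u) ≤ 2 * A * (3 / 2 * k₁) := mul_le_mul_of_nonneg_left hu2 (by positivity)
    have h7 : A * k₁ ≤ A * (2 * K) := mul_le_mul_of_nonneg_left e2.le hA0.le
    linarith
  · unfold tt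
    rw [← hu, abs_div, abs_of_pos hupos, div_le_div_iff₀ hupos hA0]
    have h5 : |(p.2 : ℝ)| * (q * A) ≤ |(p.2 : ℝ)| * Q := mul_le_mul_of_nonneg_left hq2 (abs_nonneg _)
    have h6 : q * (|(p.2 : ℝ)| * A) ≤ q * (2 * u) := by linarith
    exact le_of_mul_le_mul_left h6 hq0
  · rw [le_div_iff₀ hQ0]
    linarith

end Pool.Agent.Helper92.GC
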