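import Pool.Agent.Helper92.GC.Q6

/-!
# GC-Q7: the choice of the arc length

PROOF of `Bd6_le`. `D = H³/ρ ∈ [1, H^(5/4)]`, `σ_* = D^(-2/15) H/ρ`; `ρ/H = H²/D`.
`H^(4/3) σ^(-1/3) ≤ H^(4/3) D^(2/45) (H²/D)^(1/3) ≤ H²`. `σ^(-1) ≤ D^(2/15) H²/D ≤ H²`. `ρ^(2/3) σ ≤ L D^(-2/15) H ρ^(-1/3) = L D^(1/5)`, so `(1 + ρ^(2/3)σ)² ≤ 4L² D^(2/5)`.
`ρ⁴σ⁶ ≤ L⁶ D^(-4/5) H⁶/ρ²`, `ρ³σ³/H ≤ L³ D^(-2/5) H²`, and `D^(-4/5) H⁶/ρ² = D^(-2/5) H² · D^(8/5) H^(-2) ≤ D^(-2/5) H²`; the sum is at most `2L⁶ D^(-2/5) H²`. So the bracket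
`ρ²/H + (..)² ρ²/H³ (..) ≤ ρ²/H (1 + 8L⁸) ≤ 9L⁸ ρ²/H`; `D ρ^(-1/3) σ^(-2/3) (9L⁸ρ²/H)^(1/3) ≤ 9L⁸ D ρ^(-1/3) D^(4/45) (ρ/H)^(2/3) ρ^(2/3) H^(-1/3) = 9L⁸ D ρ/H · D^(4/45) = 9L⁸ H² D^(4/45)`.
`D ρ^(-1/3) (ρ/H)^(3/2) = H^(3/2) ρ^(1/6) ≤ H²`.
PROOF of `par_ok`: `σ H^ε ≤ L H^(-3/4+ε)` (`D ≥ 1`, `H/ρ ≤ H^(-3/4)`), `H^(ε-1)`, `64ρ σ H^ε H^(ε-1) ≤ 64 L D^(-2/15) H^(2ε) ≤ 64 L H^(2ε - 2ε₁/15)`, `H^(3ε-3) ρ = H^(3ε)/D ≤ H^(3ε-ε₁)`: all exponents are negative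
(`ε ≤ ε₁/30 ≤ 1/10`), so the conditions hold for `H ≥ H₀`. `1 ≤ ρHσ²`: `ρHσ² ≥ ρ H D^(-4/15) H²/ρ² = D^(11/15) ≥ 1`. `H^(ε-1) ≤ σH`: `σ H ≥ D^(-2/15) H²/ρ = D^(13/15) H^(-1) ≥ H^(13ε₁/15 - 1)`.
`(12/σ)² ≤ 144 H (ρ H^(-ε))`: `σ^(-2) ≤ D^(4/15) ρ²/H² ≤ H^(1-ε) ρ` iff `D^(4/15) H^ε ≤ H³/ρ = D`. `12/σ ≤ H³`: `12/σ ≤ 12 D^(2/15) ρ/H ≤ 12 H²`. `12 ≤ 12/σ`: `σ ≤ 1`.
-/

open MeasureTheory Real Set Filter Topology

set_option autoImplicit false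

namespace Pool.Agent.Helper92.GC

open Pool.Agent.Helper22.AE
open Pool.Agent.Helper22.AC (n6 IsWt mu)

private lemma exists_exp6 {x : ℝ} (hx : 0 < x) : ∃ y, x = exp y := ⟨log x, (exp_log hx).symm⟩

private lemma star6 (h r : ℝ) : (exp h ^ 3 / exp r) ^ (-(2 / 15) : ℝ) * (exp h / exp r) =
    exp (13 / 15 * (3 * h - r) - 2 * h) := by
  have e1 : exp h ^ 3 = exp (3 * h) := by
    rw [← exp_nat_mul]
    norm_num
  rw [e1, ← exp_sub, ← exp_sub, ← exp_mul, ← exp_add]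
  congr 1
  ring

theorem Bd6_le {L : ℝ} (hL : 1 ≤ L) : ∃ C : ℝ, 0 < C ∧ ∀ H ρ σ : ℝ, 1 ≤ H → H ^ (7 / 4 : ℝ) ≤ ρ → ρ ≤ H ^ 3 →
    (H ^ 3 / ρ) ^ (-(2 / 15) : ℝ) * (H / ρ) ≤ σ → σ ≤ L * ((H ^ 3 / ρ) ^ (-(2 / 15) : ℝ) * (H / ρ)) →
      Bd6 H ρ σ ≤ C * (H ^ 2 * (H ^ 3 / ρ) ^ (4 / 45 : ℝ)) := by
  refine ⟨3 + 9 * L ^ 8, by positivity, ?_⟩
  intro H ρ σ hH hρ1 hρ2 hσ1 hσ2
  have hρ0 : 0 < ρ := lt_of_lt_of_le (by positivity) hρ1
  obtain ⟨h, rfl⟩ := exists_exp6 (show 0 < H by linarith)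
  obtain ⟨r, rfl⟩ := exists_exp6 hρ0
  rw [star6] at hσ1 hσ2
  have hh : 0 ≤ h := one_le_exp_iff.1 hH
  rw [← exp_mul, exp_le_exp] at hρ1
  have e3 : exp h ^ 3 = exp (3 * h) := by
    rw [← exp_nat_mul]
    norm_num
  rw [e3, exp_le_exp] at hρ2
  obtain ⟨δ, rfl⟩ : ∃ δ, r = 3 * h - δ := ⟨3 * h - r, by ring⟩
  have hδ : 3 * h - (3 * h - δ) = δ := by ring
  rw [hδ] at hσ1 hσ2
  have hδ0 : 0 ≤ δ := by linarith
  have hδ1 : δ ≤ 5 / 4 * h := by linarith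
  set y : ℝ := 13 / 15 * δ - 2 * h with hy
  have hσ0 : 0 < σ := lt_of_lt_of_le (exp_pos _) hσ1
  have hL0 : 0 < L := by linarith
  have hL8 : 1 ≤ L ^ 8 := one_le_pow₀ hL
  -- the target
  have e4 : (exp h ^ 2 * (exp h ^ 3 / exp (3 * h - δ)) ^ (4 / 45 : ℝ)) = exp (2 * h + 4 / 45 * δ) := by
    have e5 : exp h ^ 2 = exp (2 * h) := by
      rw [← exp_nat_mul]
      norm_num
    rw [e3, e5, ← exp_sub, ← exp_mul, ← exp_add]
    congr 1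
    ring
  rw [e4]
  -- negative powers of `σ`
  have hneg : ∀ p : ℝ, 0 ≤ p → σ ^ (-p) ≤ exp (-(p * y)) := by
    intro p hp
    have h1 : σ ^ (-p) ≤ (exp y) ^ (-p) := rpow_le_rpow_of_nonpos (exp_pos _) hσ1 (by linarith)
    refine h1.trans (le_of_eq ?_)
    rw [← exp_mul]
    congr 1
    ring
  have t1 : exp h ^ (4 / 3 : ℝ) * σ ^ (-(1 / 3) : ℝ) ≤ exp (2 * h + 4 / 45 * δ) := by
    have h1 := hneg (1 / 3) (by norm_num)
    rw [← exp_mul]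
    calc exp (h * (4 / 3)) * σ ^ (-(1 / 3) : ℝ) ≤ exp (h * (4 / 3)) * exp (-(1 / 3 * y)) :=
          mul_le_mul_of_nonneg_left h1 (exp_pos _).le
      _ = exp (h * (4 / 3) + -(1 / 3 * y)) := (exp_add _ _).symm
      _ ≤ _ := exp_le_exp.2 (by rw [hy]; linarith)
  have t2 : σ⁻¹ ≤ exp (2 * h + 4 / 45 * δ) := by
    have h1 := hneg 1 (by norm_num)
    rw [rpow_neg_one] at h1
    refine h1.trans (exp_le_exp.2 ?_)
    rw [hy]
    linarith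
  -- the bracket
  have hσ3 : σ ^ 3 ≤ L ^ 3 * exp (3 * y) := by
    have h1 : σ ^ 3 ≤ (L * exp y) ^ 3 := pow_le_pow_left₀ hσ0.le hσ2 3
    refine h1.trans (le_of_eq ?_)
    rw [mul_pow, ← exp_nat_mul]
    norm_num
  have hσ6 : σ ^ 6 ≤ L ^ 6 * exp (6 * y) := by
    have h1 : σ ^ 6 ≤ (L * exp y) ^ 6 := pow_le_pow_left₀ hσ0.le hσ2 6
    refine h1.trans (le_of_eq ?_)
    rw [mul_pow, ← exp_nat_mul]
    norm_num
  have b1 : exp (3 * h - δ) ^ 4 * σ ^ 6 ≤ L ^ 6 * exp (2 * h - 2 / 5 * δ) := by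
    have e5 : exp (3 * h - δ) ^ 4 = exp (4 * (3 * h - δ)) := by
      rw [← exp_nat_mul]
      norm_num
    rw [e5]
    calc exp (4 * (3 * h - δ)) * σ ^ 6 ≤ exp (4 * (3 * h - δ)) * (L ^ 6 * exp (6 * y)) :=
          mul_le_mul_of_nonneg_left hσ6 (exp_pos _).le
      _ = L ^ 6 * exp (4 * (3 * h - δ) + 6 * y) := by
          rw [exp_add]
          ring
      _ ≤ _ := by
          apply mul_le_mul_of_nonneg_left _ (by positivity)
          rw [exp_le_exp, hy]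
          linarith
  have b2 : exp (3 * h - δ) ^ 3 * σ ^ 3 / exp h ≤ L ^ 6 * exp (2 * h - 2 / 5 * δ) := by
    have e5 : exp (3 * h - δ) ^ 3 = exp (3 * (3 * h - δ)) := by
      rw [← exp_nat_mul]
      norm_num
    have h36 : L ^ 3 ≤ L ^ 6 := pow_le_pow_right₀ hL (by norm_num)
    rw [e5, div_le_iff₀ (exp_pos _)]
    calc exp (3 * (3 * h - δ)) * σ ^ 3 ≤ exp (3 * (3 * h - δ)) * (L ^ 3 * exp (3 * y)) :=
          mul_le_mul_of_nonneg_left hσ3 (exp_pos _).le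
      _ = L ^ 3 * exp (3 * (3 * h - δ) + 3 * y) := by
          rw [exp_add]
          ring
      _ = L ^ 3 * exp (2 * h - 2 / 5 * δ + h) := by
          congr 2
          rw [hy]
          ring
      _ = L ^ 3 * (exp (2 * h - 2 / 5 * δ) * exp h) := by rw [exp_add]
      _ ≤ L ^ 6 * (exp (2 * h - 2 / 5 * δ) * exp h) := mul_le_mul_of_nonneg_right h36 (by positivity)
      _ = _ := by ring
  have b3 : (1 + exp (3 * h - δ) ^ (2 / 3 : ℝ) * σ) ^ 2 ≤ 4 * L ^ 2 * exp (2 / 5 * δ) := by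
    have h1 : exp (3 * h - δ) ^ (2 / 3 : ℝ) * σ ≤ L * exp (δ / 5) := by
      rw [← exp_mul]
      calc exp ((3 * h - δ) * (2 / 3)) * σ ≤ exp ((3 * h - δ) * (2 / 3)) * (L * exp y) :=
            mul_le_mul_of_nonneg_left hσ2 (exp_pos _).le
        _ = L * exp ((3 * h - δ) * (2 / 3) + y) := by
            rw [exp_add]
            ring
        _ = L * exp (δ / 5) := by
            congr 2
            rw [hy]
            ring
    have h2 : 1 ≤ L * exp (δ / 5) := by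
      have h3 : 1 ≤ exp (δ / 5) := one_le_exp (by positivity)
      nlinarith
    have h3 : 1 + exp (3 * h - δ) ^ (2 / 3 : ℝ) * σ ≤ 2 * (L * exp (δ / 5)) := by linarith
    have h4 := pow_le_pow_left₀ (by positivity) h3 2
    refine h4.trans (le_of_eq ?_)
    rw [mul_pow, mul_pow, ← exp_nat_mul]
    have e6 : ((2 : ℕ) : ℝ) * (δ / 5) = 2 / 5 * δ := by
      push_cast
      ring
    rw [e6]
    ring
  have b4 : exp (3 * h - δ) ^ 2 / exp h ^ 3 = exp (3 * h - 2 * δ) := by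
    have e5 : exp (3 * h - δ) ^ 2 = exp (2 * (3 * h - δ)) := by
      rw [← exp_nat_mul]
      norm_num
    rw [e3, e5, ← exp_sub]
    congr 1
    ring
  have b5 : exp (3 * h - δ) ^ 2 / exp h = exp (5 * h - 2 * δ) := by
    have e5 : exp (3 * h - δ) ^ 2 = exp (2 * (3 * h - δ)) := by
      rw [← exp_nat_mul]
      norm_num
    rw [e5, ← exp_sub]
    congr 1
    ring
  have hbr : exp (3 * h - δ) ^ 2 / exp h + (1 + exp (3 * h - δ) ^ (2 / 3 : ℝ) * σ) ^ 2 *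
      (exp (3 * h - δ) ^ 2 / exp h ^ 3 * (exp (3 * h - δ) ^ 4 * σ ^ 6 + exp (3 * h - δ) ^ 3 * σ ^ 3 / exp h)) ≤
      9 * L ^ 8 * exp (5 * h - 2 * δ) := by
    rw [b4, b5]
    have h1 : exp (3 * h - 2 * δ) * (exp (3 * h - δ) ^ 4 * σ ^ 6 + exp (3 * h - δ) ^ 3 * σ ^ 3 / exp h) ≤
        exp (3 * h - 2 * δ) * (2 * L ^ 6 * exp (2 * h - 2 / 5 * δ)) :=
      mul_le_mul_of_nonneg_left (by linarith) (exp_pos _).le
    have h2 := mul_le_mul b3 h1 (by positivity) (by positivity)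
    have h3 : 4 * L ^ 2 * exp (2 / 5 * δ) * (exp (3 * h - 2 * δ) * (2 * L ^ 6 * exp (2 * h - 2 / 5 * δ))) =
        8 * L ^ 8 * exp (5 * h - 2 * δ) := by
      have e7 : exp (5 * h - 2 * δ) = exp (2 / 5 * δ) * (exp (3 * h - 2 * δ) * exp (2 * h - 2 / 5 * δ)) := by
        rw [← exp_add, ← exp_add]
        congr 1
        ring
      rw [e7]
      ring
    rw [h3] at h2
    have h4 : exp (5 * h - 2 * δ) ≤ L ^ 8 * exp (5 * h - 2 * δ) :=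
      le_mul_of_one_le_left (exp_pos _).le hL8
    linarith
  have hbr3 : (exp (3 * h - δ) ^ 2 / exp h + (1 + exp (3 * h - δ) ^ (2 / 3 : ℝ) * σ) ^ 2 *
      (exp (3 * h - δ) ^ 2 / exp h ^ 3 * (exp (3 * h - δ) ^ 4 * σ ^ 6 +
        exp (3 * h - δ) ^ 3 * σ ^ 3 / exp h))) ^ (1 / 3 : ℝ) ≤
      9 * L ^ 8 * exp ((5 * h - 2 * δ) * (1 / 3)) := by
    refine (rpow_le_rpow (by positivity) hbr (by norm_num)).trans ?_
    rw [mul_rpow (by positivity) (exp_pos _).le, ← exp_mul]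
    apply mul_le_mul_of_nonneg_right _ (exp_pos _).le
    have h1 : 1 ≤ 9 * L ^ 8 := by linarith
    calc (9 * L ^ 8) ^ (1 / 3 : ℝ) ≤ (9 * L ^ 8) ^ (1 : ℝ) := rpow_le_rpow_of_exponent_le h1 (by norm_num)
      _ = 9 * L ^ 8 := rpow_one _
  have t3 : exp h ^ 3 / exp (3 * h - δ) * exp (3 * h - δ) ^ (-(1 / 3) : ℝ) = exp (4 / 3 * δ - h) := by
    rw [e3, ← exp_sub, ← exp_mul, ← exp_add]
    congr 1
    ring
  have t4 : (exp (3 * h - δ) / exp h) ^ (3 / 2 : ℝ) = exp ((2 * h - δ) * (3 / 2)) := by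
    rw [← exp_sub, ← exp_mul]
    congr 1
    ring
  have t5 : σ ^ (-(2 / 3) : ℝ) * (exp (3 * h - δ) ^ 2 / exp h + (1 + exp (3 * h - δ) ^ (2 / 3 : ℝ) * σ) ^ 2 *
      (exp (3 * h - δ) ^ 2 / exp h ^ 3 * (exp (3 * h - δ) ^ 4 * σ ^ 6 +
        exp (3 * h - δ) ^ 3 * σ ^ 3 / exp h))) ^ (1 / 3 : ℝ) ≤
      exp (-(2 / 3 * y)) * (9 * L ^ 8 * exp ((5 * h - 2 * δ) * (1 / 3))) :=
    mul_le_mul (hneg (2 / 3) (by norm_num)) hbr3 (by positivity) (exp_pos _).le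
  unfold Bd6
  rw [t3, t4]
  have t6 : exp (4 / 3 * δ - h) * (σ ^ (-(2 / 3) : ℝ) * (exp (3 * h - δ) ^ 2 / exp h +
      (1 + exp (3 * h - δ) ^ (2 / 3 : ℝ) * σ) ^ 2 *
      (exp (3 * h - δ) ^ 2 / exp h ^ 3 * (exp (3 * h - δ) ^ 4 * σ ^ 6 +
        exp (3 * h - δ) ^ 3 * σ ^ 3 / exp h))) ^ (1 / 3 : ℝ) + exp ((2 * h - δ) * (3 / 2))) ≤
      (9 * L ^ 8 + 1) * exp (2 * h + 4 / 45 * δ) := by
    refine (mul_le_mul_of_nonneg_left (add_le_add_left t5 _) (exp_pos _).le).trans ?_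
    have e8 : exp (4 / 3 * δ - h) * (exp (-(2 / 3 * y)) * (9 * L ^ 8 * exp ((5 * h - 2 * δ) * (1 / 3))) +
        exp ((2 * h - δ) * (3 / 2))) =
        9 * L ^ 8 * exp (2 * h + 4 / 45 * δ) + exp (2 * h - δ / 6) := by
      have e9 : exp (2 * h + 4 / 45 * δ) =
          exp (4 / 3 * δ - h) * (exp (-(2 / 3 * y)) * exp ((5 * h - 2 * δ) * (1 / 3))) := by
        rw [← exp_add, ← exp_add]
        congr 1
        rw [hy]
        ring
      have e10 : exp (2 * h - δ / 6) = exp (4 / 3 * δ - h) * exp ((2 * h - δ) * (3 / 2)) := by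
        rw [← exp_add]
        congr 1
        ring
      rw [e9, e10]
      ring
    rw [e8]
    have e11 : exp (2 * h - δ / 6) ≤ exp (2 * h + 4 / 45 * δ) := exp_le_exp.2 (by linarith)
    linarith
  linarith

theorem par_ok {L ε ε₁ : ℝ} (hL : 1 ≤ L) (hε : 0 < ε) (h1 : ε ≤ ε₁ / 30) (h2 : ε₁ ≤ 1) : ∃ H₀ : ℝ, 1 ≤ H₀ ∧
    ∀ β H ρ σ : ℝ, |β| ≤ 1 / 2 → H₀ ≤ H → H ^ (7 / 4 : ℝ) ≤ ρ → ρ ≤ H ^ (3 - ε₁) →
    (H ^ 3 / ρ) ^ (-(2 / 15) : ℝ) * (H / ρ) ≤ σ → σ ≤ L * ((H ^ 3 / ρ) ^ (-(2 / 15) : ℝ) * (H / ρ)) →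
      2 ≤ ρ ∧ ρ ≤ H ^ 3 ∧ σ ≤ 1 ∧ 1 ≤ ρ * H * σ ^ 2 ∧ H ^ (ε - 1) ≤ σ * H ∧ (12 / σ) ^ 2 ≤ 144 * (H * (ρ * H ^ (-ε))) ∧
      12 / σ ≤ H ^ 3 ∧ ∀ t : ℝ, |t| ≤ 6 → Par β ρ t (σ * H ^ ε) (H ^ (ε - 1)) := by
  have hε1 : 0 < ε₁ := by linarith
  have hL0 : 0 < L := by linarith
  set M : ℝ := log (64 * 10 ^ 6 * L) with hM
  have hM1 : 64 * 10 ^ 6 * L = exp M := (exp_log (by positivity)).symm
  have hM0 : 0 ≤ M := log_nonneg (by nlinarith)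
  refine ⟨exp (15 * M / ε₁), one_le_exp (by positivity), ?_⟩
  intro β H ρ σ hβ hH hρ1 hρ2 hσ1 hσ2
  have hH0 : 0 < H := lt_of_lt_of_le (exp_pos _) hH
  have hρ0 : 0 < ρ := lt_of_lt_of_le (by positivity) hρ1
  obtain ⟨h, rfl⟩ := exists_exp6 hH0
  obtain ⟨r, rfl⟩ := exists_exp6 hρ0
  rw [star6] at hσ1 hσ2
  rw [exp_le_exp] at hH
  rw [← exp_mul, exp_le_exp] at hρ1 hρ2
  obtain ⟨δ, rfl⟩ : ∃ δ, r = 3 * h - δ := ⟨3 * h - r, by ring⟩
  have hδ : 3 * h - (3 * h - δ) = δ := by ring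
  rw [hδ] at hσ1 hσ2
  -- the size of `h`
  have hM2 : M ≤ ε₁ * h / 15 := by
    rw [div_le_iff₀ hε1] at hH
    linarith
  have hh : 0 ≤ h := le_trans (by positivity) hH
  have hM3 : 15 * M ≤ h := by nlinarith
  have hδ0 : ε₁ * h ≤ δ := by nlinarith
  have hδ1 : δ ≤ 5 / 4 * h := by linarith
  have heh : ε * h ≤ ε₁ * h / 30 := by nlinarith
  have heh0 : 0 ≤ ε * h := by positivity
  have hε1h : ε₁ * h ≤ h := by nlinarith
  have hL1 : L ≤ exp M := by nlinarith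
  have hLM : L * exp (-M) = 1 / (64 * 10 ^ 6) := by
    rw [exp_neg, ← hM1]
    field_simp
  have hMM : exp (-M) ≤ 1 / (64 * 10 ^ 6) := by
    rw [← hLM]
    exact le_mul_of_one_le_left (exp_pos _).le hL
  set y : ℝ := 13 / 15 * δ - 2 * h with hy
  have hσ0 : 0 < σ := lt_of_lt_of_le (exp_pos _) hσ1
  have e3 : exp h ^ 3 = exp (3 * h) := by
    rw [← exp_nat_mul]
    norm_num
  have hexp : exp h ^ ε = exp (ε * h) := by
    rw [← exp_mul, mul_comm]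
  have hexp1 : exp h ^ (ε - 1) = exp (ε * h - h) := by
    rw [← exp_mul]
    congr 1
    ring
  have hσi : σ⁻¹ ≤ exp (-y) := by
    rw [exp_neg]
    exact inv_anti₀ (exp_pos _) hσ1
  have hs1 : σ * exp h ^ ε ≤ 1 / 1000 := by
    rw [hexp]
    calc σ * exp (ε * h) ≤ L * exp y * exp (ε * h) := mul_le_mul_of_nonneg_right hσ2 (exp_pos _).le
      _ = L * exp (y + ε * h) := by rw [exp_add]; ring
      _ ≤ L * exp (-M) := by
          apply mul_le_mul_of_nonneg_left _ hL0.le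
          rw [exp_le_exp, hy]
          linarith
      _ = 1 / (64 * 10 ^ 6) := hLM
      _ ≤ 1 / 1000 := by norm_num
  have hd1 : exp h ^ (ε - 1) ≤ 1 / 1000 := by
    rw [hexp1]
    calc exp (ε * h - h) ≤ exp (-M) := exp_le_exp.2 (by linarith)
      _ ≤ 1 / (64 * 10 ^ 6) := hMM
      _ ≤ 1 / 1000 := by norm_num
  have h2ρ : 2 ≤ exp (3 * h - δ) := by
    have h1 : exp M ≤ exp (3 * h - δ) := exp_le_exp.2 (by linarith)
    rw [← hM1] at h1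
    nlinarith
  refine ⟨h2ρ, ?_, ?_, ?_, ?_, ?_, ?_, ?_⟩
  · rw [e3, exp_le_exp]
    nlinarith
  · have h1 : 1 ≤ exp h ^ ε := by
      rw [hexp]
      exact one_le_exp heh0
    nlinarith
  · have h1 : exp y ^ 2 ≤ σ ^ 2 := pow_le_pow_left₀ (exp_pos _).le hσ1 2
    have h2 : exp (3 * h - δ) * exp h * exp y ^ 2 ≤ exp (3 * h - δ) * exp h * σ ^ 2 :=
      mul_le_mul_of_nonneg_left h1 (by positivity)
    refine le_trans ?_ h2
    rw [← exp_nat_mul, ← exp_add, ← exp_add]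
    apply one_le_exp
    rw [hy]
    push_cast
    nlinarith
  · rw [hexp1]
    calc exp (ε * h - h) ≤ exp (y + h) := by
          rw [exp_le_exp, hy]
          nlinarith
      _ = exp y * exp h := exp_add _ _
      _ ≤ σ * exp h := mul_le_mul_of_nonneg_right hσ1 (exp_pos _).le
  · have h1 : exp h ^ (-ε) = exp (-(ε * h)) := by
      rw [← exp_mul]
      congr 1
      ring
    rw [h1, ← exp_add, ← exp_add, div_pow, div_eq_mul_inv]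
    have h2 : (σ ^ 2)⁻¹ ≤ exp (-(2 * y)) := by
      rw [← inv_pow]
      have h3 := pow_le_pow_left₀ (inv_pos.2 hσ0).le hσi 2
      refine h3.trans (le_of_eq ?_)
      rw [← exp_nat_mul]
      congr 1
      push_cast
      ring
    have h4 : exp (-(2 * y)) ≤ exp (h + (3 * h - δ + -(ε * h))) := by
      rw [exp_le_exp, hy]
      nlinarith
    have h5 : (12 : ℝ) ^ 2 = 144 := by norm_num
    rw [h5]
    exact mul_le_mul_of_nonneg_left (h2.trans h4) (by norm_num)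
  · rw [div_eq_mul_inv, e3]
    have h1 : 12 * exp (-y) ≤ exp (3 * h) := by
      have h2 : 12 ≤ exp (3 * h + y) := by
        have h3 : exp M ≤ exp (3 * h + y) := by
          rw [exp_le_exp, hy]
          nlinarith
        rw [← hM1] at h3
        nlinarith
      have h4 : exp (3 * h) = exp (3 * h + y) * exp (-y) := by
        rw [← exp_add]
        congr 1
        ring
      rw [h4]
      exact mul_le_mul_of_nonneg_right h2 (exp_pos _).le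
    exact (mul_le_mul_of_nonneg_left hσi (by norm_num)).trans h1
  · intro t ht
    refine ⟨hβ, by linarith, ht, by positivity, hs1, by positivity, hd1, ?_, ?_⟩
    · rw [hexp, hexp1]
      calc 64 * exp (3 * h - δ) * (σ * exp (ε * h)) * exp (ε * h - h)
          ≤ 64 * exp (3 * h - δ) * (L * exp y * exp (ε * h)) * exp (ε * h - h) := by
            apply mul_le_mul_of_nonneg_right _ (exp_pos _).le
            apply mul_le_mul_of_nonneg_left _ (by positivity)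
            exact mul_le_mul_of_nonneg_right hσ2 (exp_pos _).le
        _ = 64 * (L * exp (3 * h - δ + y + ε * h + (ε * h - h))) := by
            simp only [exp_add]
            ring
        _ ≤ 64 * (L * exp (-M)) := by
            apply mul_le_mul_of_nonneg_left _ (by norm_num)
            apply mul_le_mul_of_nonneg_left _ hL0.le
            rw [exp_le_exp, hy]
            linarith
        _ = 64 * (1 / (64 * 10 ^ 6)) := by rw [hLM]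
        _ ≤ 1 / 1000 := by norm_num
    · rw [hexp1, ← exp_nat_mul, ← exp_add]
      calc exp (((3 : ℕ) : ℝ) * (ε * h - h) + (3 * h - δ)) ≤ exp (-M) := by
            rw [exp_le_exp]
            push_cast
            linarith
        _ ≤ 1 / (64 * 10 ^ 6) := hMM
        _ ≤ 1 / 10 ^ 6 := by norm_num

end Pool.Agent.Helper92.GC
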