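import Pool.Agent.Helper92.GC.T5
import Pool.Agent.Helper92.GC.Q4
import Pool.Agent.Helper92.GC.Q7

/-!
# GC-Q8: the inner shell

PROOF. WLOG `ε ≤ 1`, `ε₁ ≤ 1`. Let `ε₂ = min(ε/100, ε₁/30)`, `M, N₁, C₁` from `dec` with `ε₂`, `L = M^N₁`, `H₀` from `par_ok` (`L`, `ε₂`, `ε₁`), `c₀, Cd` from `exists_dw`.
If `H ≤ H₀`: `m6 ≤ (10^4 H²)^6` (`m6_card`, `reg_card`), so the integral is at most `ρ (10^4 H₀²)^6` and the right side is at least `C ρ`. Let `H ≥ H₀`, `σ_* = D^(-2/15) H/ρ ≤ 1`, `m` the largest natural number with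
`M^(N₁ m) ≤ 12/σ_*` (`m = 0` is possible), `N = M^(N₁ m)`, `σ = 12/N`: `σ_* ≤ σ ≤ L σ_*`. `par_ok` gives all conditions, `12 ≤ N` because `σ ≤ 1`. `X = ρ H^(-ε₂)`. For `R₁ ∈ [ρ, 2ρ]` and `v` from `exists_dw`:
`n6 (gs reg) ≤ C₁ H^ε₂ ∑_j n6 (arc j) ≤ C H^(21ε₂) Bd6 ≤ C H^(21ε₂) H² D^(4/45)`, so `n6³ ≤ C H^(63ε₂) H⁶ D^(4/15)`. `cover`.
-/

open MeasureTheory Real Set Filter Topology

set_option autoImplicit false

namespace Pool.Agent.Helper92.GC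

open Pool.Agent.Helper22.AE
open Pool.Agent.Helper22.AC (n6 IsWt mu)

theorem shellB {ε ε₁ : ℝ} (hε : 0 < ε) (hε₁ : 0 < ε₁) : ∃ C : ℝ, 0 < C ∧ ∀ H ρ β : ℝ, 1 ≤ H → H ^ (7 / 4 : ℝ) ≤ ρ →
    ρ ≤ H ^ (3 - ε₁) → |β| ≤ 1 / 2 →
    ∫ r in Icc ρ (2 * ρ), m6 (reg β H) (fun k => ee (r * ph β k)) ≤ C * H ^ ε * ρ * H ^ 6 * (H ^ 3 / ρ) ^ (4 / 15 : ℝ) := by
  obtain ⟨e1, he1⟩ : ∃ e1 : ℝ, e1 = min ε₁ 1 := ⟨_, rfl⟩
  have he1pos : 0 < e1 := by rw [he1]; exact lt_min hε₁ one_pos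
  have he1le : e1 ≤ 1 := by rw [he1]; exact min_le_right _ _
  have he1le' : e1 ≤ ε₁ := by rw [he1]; exact min_le_left _ _
  obtain ⟨e2, he2⟩ : ∃ e2 : ℝ, e2 = min (ε / 100) (e1 / 30) := ⟨_, rfl⟩
  have he2pos : 0 < e2 := by rw [he2]; exact lt_min (by positivity) (by positivity)
  have he2a : e2 ≤ ε / 100 := by rw [he2]; exact min_le_left _ _
  have he2b : e2 ≤ e1 / 30 := by rw [he2]; exact min_le_right _ _
  have he2c : e2 ≤ 1 := by linarith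
  clear he1 he2
  obtain ⟨M, N₁, hM, hN₁, C₁, hC₁, hdec⟩ := dec he2pos
  obtain ⟨L, hL⟩ : ∃ L : ℝ, L = (M : ℝ) ^ N₁ := ⟨_, rfl⟩
  have hMr : (36 : ℝ) ≤ M := by exact_mod_cast hM
  have hL36 : 36 ≤ L := by
    rw [hL]
    calc (36 : ℝ) ≤ M := hMr
      _ = (M : ℝ) ^ 1 := (pow_one _).symm
      _ ≤ (M : ℝ) ^ N₁ := pow_le_pow_right₀ (by linarith) hN₁
  have hL1 : 1 ≤ L := by linarith
  obtain ⟨H₀, hH₀, hpar⟩ := par_ok hL1 he2pos he2b he1le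
  obtain ⟨C₂, hC₂, hbd⟩ := Bd6_le hL1
  obtain ⟨c₀, hc₀, Cd, hdw⟩ := exists_dw
  obtain ⟨C₃, hC₃, hsum⟩ := arcs_sum he2pos he2c c₀ Cd
  have hC₁0 : 0 < C₁ := by linarith
  have hH₀0 : 0 < H₀ := by linarith
  refine ⟨(10 ^ 4 * H₀ ^ 2) ^ 6 + 2 / c₀ * (C₁ * C₃ * C₂) ^ 3, by positivity, ?_⟩
  intro H ρ β hH hρ hρ' hβ
  have hH0 : 0 < H := by linarith
  have hρ1 : 1 ≤ ρ := (one_le_rpow hH (by norm_num)).trans hρ
  have hρ0 : 0 < ρ := by linarith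
  have hρ3 : ρ ≤ H ^ 3 := by
    refine hρ'.trans ?_
    rw [← rpow_natCast]
    exact rpow_le_rpow_of_exponent_le hH (by push_cast; linarith)
  obtain ⟨D, hD⟩ : ∃ D : ℝ, D = H ^ 3 / ρ := ⟨_, rfl⟩
  have hD1 : 1 ≤ D := by
    rw [hD, le_div_iff₀ hρ0]
    linarith
  have hD0 : 0 < D := by linarith
  have hD415 : 1 ≤ D ^ (4 / 15 : ℝ) := one_le_rpow hD1 (by norm_num)
  have hHε : 1 ≤ H ^ ε := one_le_rpow hH hε.le
  have hH6 : 1 ≤ H ^ 6 := one_le_pow₀ hH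
  rw [← hD]
  have hA : 0 < 2 / c₀ * (C₁ * C₃ * C₂) ^ 3 := by positivity
  have hB : 0 < (10 ^ 4 * H₀ ^ 2) ^ 6 := by positivity
  rcases le_total H H₀ with hHH | hHH
  · have h1 : ∀ r ∈ Icc ρ (2 * ρ), ‖m6 (reg β H) (fun k => ee (r * ph β k))‖ ≤
        (10 ^ 4 * H₀ ^ 2) ^ 6 := by
      intro r _
      rw [Real.norm_of_nonneg (m6_nonneg _ _)]
      refine (m6_card _ (fun k => (ee_norm _).le)).trans ?_
      refine pow_le_pow_left₀ (Nat.cast_nonneg _) ((reg_card hH).trans ?_) 6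
      exact mul_le_mul_of_nonneg_left (pow_le_pow_left₀ hH0.le hHH 2) (by norm_num)
    have h2 := norm_setIntegral_le_of_norm_le_const (μ := volume) (s := Icc ρ (2 * ρ))
      measure_Icc_lt_top h1
    rw [Real.volume_real_Icc_of_le (by linarith), Real.norm_eq_abs] at h2
    have h3 := (le_abs_self _).trans h2
    have h4 : 2 * ρ - ρ = ρ := by ring
    rw [h4] at h3
    refine h3.trans ?_
    calc (10 ^ 4 * H₀ ^ 2) ^ 6 * ρ
        ≤ ((10 ^ 4 * H₀ ^ 2) ^ 6 + 2 / c₀ * (C₁ * C₃ * C₂) ^ 3) * 1 * ρ * 1 * 1 := by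
          rw [mul_one, mul_one, mul_one]
          exact mul_le_mul_of_nonneg_right (by linarith) hρ0.le
      _ ≤ _ := by gcongr
  · have hρe1 : ρ ≤ H ^ (3 - e1) :=
      hρ'.trans (rpow_le_rpow_of_exponent_le hH (by linarith))
    obtain ⟨σs, hσs⟩ : ∃ σs : ℝ, σs = D ^ (-(2 / 15) : ℝ) * (H / ρ) := ⟨_, rfl⟩
    have hσs0 : 0 < σs := by rw [hσs]; positivity
    have hσs1 : σs ≤ 1 := by
      rw [hσs]
      have h1 : D ^ (-(2 / 15) : ℝ) ≤ 1 := rpow_le_one_of_one_le_of_nonpos hD1 (by norm_num)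
      have h2 : H / ρ ≤ 1 := by
        rw [div_le_one hρ0]
        calc H = H ^ (1 : ℝ) := (rpow_one H).symm
          _ ≤ H ^ (7 / 4 : ℝ) := rpow_le_rpow_of_exponent_le hH (by norm_num)
          _ ≤ ρ := hρ
      exact mul_le_one₀ h1 (by positivity) h2
    obtain ⟨m, hm1, hm2⟩ := exists_nat_pow_near (x := 12 / σs) (y := L)
      (by rw [le_div_iff₀ hσs0]; linarith) (by linarith)
    obtain ⟨N, hN⟩ : ∃ N : ℕ, N = M ^ (N₁ * m) := ⟨_, rfl⟩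
    have hNr : (N : ℝ) = L ^ m := by
      rw [hN, hL]
      push_cast
      rw [pow_mul]
    have hN0 : (0 : ℝ) < N := by rw [hNr]; positivity
    obtain ⟨σ, hσ⟩ : ∃ σ : ℝ, σ = 12 / (N : ℝ) := ⟨_, rfl⟩
    have hσ0 : 0 < σ := by rw [hσ]; positivity
    have hσ12 : 12 / σ = N := by
      rw [hσ]
      field_simp
    have hσlow : σs ≤ σ := by
      rw [hσ, le_div_iff₀ hN0]
      rw [← hNr, le_div_iff₀ hσs0] at hm1
      linarith
    have hσup : σ ≤ L * σs := by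
      rw [hσ, div_le_iff₀ hN0]
      rw [pow_succ, ← hNr, div_lt_iff₀ hσs0] at hm2
      linarith
    rw [hσs, hD] at hσlow hσup
    obtain ⟨p1, p2, p3, p4, p5, p6, p7, p8⟩ := hpar β H ρ σ hβ hHH hρ hρe1 hσlow hσup
    have hX0 : 0 < ρ * H ^ (-e2) := by positivity
    have hXρ : ρ * H ^ (-e2) ≤ ρ :=
      mul_le_of_le_one_right hρ0.le (rpow_le_one_of_one_le_of_nonpos hH (by linarith))
    have hN12 : 12 ≤ N := by
      rw [hσ, div_le_one hN0] at p3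
      exact_mod_cast p3
    rw [hσ12] at p6 p7
    have hK : ∀ R₁ ∈ Icc ρ (2 * ρ), ∃ v : ℝ → ℝ, IsDw (ρ * H ^ (-e2)) R₁ v c₀ Cd ∧
        n6 (mu v) (gs (reg β H) (fun _ => 1) (ph β)) ^ 3 ≤
          (C₁ * C₃ * C₂) ^ 3 * (H ^ ε * H ^ 6 * D ^ (4 / 15 : ℝ)) := by
      intro R₁ hR₁
      obtain ⟨v, hv⟩ := hdw (ρ * H ^ (-e2)) hX0 R₁
      refine ⟨v, hv, ?_⟩
      have h1 := hdec m β H (ρ * H ^ (-e2)) v (fun _ => 1) hH hX0 hv.wt
        (by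
          have h6 : (M : ℝ) ^ (2 * (N₁ * m)) = (N : ℝ) ^ 2 := by
            rw [hN]
            push_cast
            rw [← pow_mul, mul_comm 2]
          rw [h6]
          exact p6)
        (by
          have h6 : (M : ℝ) ^ (N₁ * m) = (N : ℝ) := by
            rw [hN]
            push_cast
            rfl
          rw [h6]
          exact p7)
      rw [← hN] at h1
      have h2 := hsum β H ρ R₁ v N hβ hH p1 p2 hR₁.1 hR₁.2 hv hN12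
        (by rw [← hσ]; exact p4) (by rw [← hσ]; exact p5) (by rw [← hσ]; exact p8)
      rw [← hσ] at h2
      have h3 := hbd H ρ σ hH hρ p2 hσlow hσup
      rw [← hD] at h3
      have h4 : n6 (mu v) (gs (reg β H) (fun _ => 1) (ph β)) ≤ C₁ * H ^ e2 *
          (C₃ * H ^ (20 * e2) * (C₂ * (H ^ 2 * D ^ (4 / 45 : ℝ)))) :=
        h1.trans (mul_le_mul_of_nonneg_left
          (h2.trans (mul_le_mul_of_nonneg_left h3 (by positivity))) (by positivity))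
      have h5 := pow_le_pow_left₀ (Pool.Agent.Helper22.AC.n6_nonneg _ _) h4 3
      refine h5.trans ?_
      have h6 : (H ^ e2) ^ 3 * (H ^ (20 * e2)) ^ 3 ≤ H ^ ε := by
        rw [← rpow_natCast, ← rpow_natCast, ← rpow_mul hH0.le, ← rpow_mul hH0.le, ← rpow_add hH0]
        refine rpow_le_rpow_of_exponent_le hH ?_
        push_cast
        linarith
      have h7 : (D ^ (4 / 45 : ℝ)) ^ 3 = D ^ (4 / 15 : ℝ) := by
        rw [← rpow_natCast, ← rpow_mul hD0.le]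
        congr 1
        norm_num
      calc (C₁ * H ^ e2 * (C₃ * H ^ (20 * e2) * (C₂ * (H ^ 2 * D ^ (4 / 45 : ℝ))))) ^ 3
          = (C₁ * C₃ * C₂) ^ 3 * (((H ^ e2) ^ 3 * (H ^ (20 * e2)) ^ 3) * H ^ 6 *
            (D ^ (4 / 45 : ℝ)) ^ 3) := by ring
        _ ≤ (C₁ * C₃ * C₂) ^ 3 * (H ^ ε * H ^ 6 * D ^ (4 / 15 : ℝ)) := by
            rw [h7]
            gcongr
    have h := cover hX0 hXρ hc₀ (reg β H) (ph β) hK
    refine h.trans ?_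
    have h8 : 2 * ρ / c₀ * ((C₁ * C₃ * C₂) ^ 3 * (H ^ ε * H ^ 6 * D ^ (4 / 15 : ℝ))) =
        (2 / c₀ * (C₁ * C₃ * C₂) ^ 3) * H ^ ε * ρ * H ^ 6 * D ^ (4 / 15 : ℝ) := by ring
    rw [h8]
    gcongr
    linarith

end Pool.Agent.Helper92.GC
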