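import Pool.Agent.Helper92.GC.Q5
import Pool.Agent.Helper92.GC.Q8

/-!
# GC-SHELL: the sixth moment in the shell

The outer shell (`shellA`, `ρ ≥ H^(3 - ε/8)`) and the inner shell (`shellB`).
-/

open MeasureTheory Real Set Filter Topology

set_option autoImplicit false

namespace Pool.Agent.Helper92.GC

open Pool.Agent.Helper22.AE
open Pool.Agent.Helper22.AC (n6 IsWt mu)

theorem shell {ε : ℝ} (hε : 0 < ε) : ∃ C : ℝ, 0 < C ∧ ∀ H ρ β : ℝ, 1 ≤ H → H ^ (7 / 4 : ℝ) ≤ ρ → |β| ≤ 1 / 2 →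
    ∫ r in Icc ρ (2 * ρ), m6 (reg β H) (fun k => ee (r * ph β k)) ≤
      C * H ^ ε * ρ * H ^ 6 * (1 + H ^ 3 / ρ) ^ (4 / 15 : ℝ) := by
  obtain ⟨C₁, hC₁, h₁⟩ := shellA hε
  obtain ⟨C₂, hC₂, h₂⟩ := shellB hε (ε₁ := ε / 8) (by positivity)
  refine ⟨C₁ + C₂, by positivity, fun H ρ β hH hρ hβ => ?_⟩
  have hH0 : 0 < H := by linarith
  have hρ0 : 0 < ρ := lt_of_lt_of_le (by positivity) hρ
  have hD : 0 < H ^ 3 / ρ := by positivity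
  have hE : 0 ≤ H ^ ε * ρ * H ^ 6 := by positivity
  have h1 : (1 : ℝ) ≤ (1 + H ^ 3 / ρ) ^ (4 / 15 : ℝ) := Real.one_le_rpow (by linarith) (by norm_num)
  have h2 : (H ^ 3 / ρ) ^ (4 / 15 : ℝ) ≤ (1 + H ^ 3 / ρ) ^ (4 / 15 : ℝ) :=
    Real.rpow_le_rpow hD.le (by linarith) (by norm_num)
  have h3 : (0 : ℝ) ≤ (1 + H ^ 3 / ρ) ^ (4 / 15 : ℝ) := by positivity
  rcases le_total (H ^ (3 - ε / 8)) ρ with h | h
  · refine (h₁ H ρ β hH h hβ).trans ?_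
    have e : C₁ * H ^ ε * ρ * H ^ 6 = C₁ * (H ^ ε * ρ * H ^ 6) * 1 := by ring
    have e' : (C₁ + C₂) * H ^ ε * ρ * H ^ 6 * (1 + H ^ 3 / ρ) ^ (4 / 15 : ℝ) =
        (C₁ + C₂) * (H ^ ε * ρ * H ^ 6) * (1 + H ^ 3 / ρ) ^ (4 / 15 : ℝ) := by ring
    rw [e, e']
    exact mul_le_mul (mul_le_mul_of_nonneg_right (by linarith) hE) h1 (by norm_num) (by positivity)
  · refine (h₂ H ρ β hH hρ h hβ).trans ?_
    have e : C₂ * H ^ ε * ρ * H ^ 6 * (H ^ 3 / ρ) ^ (4 / 15 : ℝ) =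
        C₂ * (H ^ ε * ρ * H ^ 6) * (H ^ 3 / ρ) ^ (4 / 15 : ℝ) := by ring
    have e' : (C₁ + C₂) * H ^ ε * ρ * H ^ 6 * (1 + H ^ 3 / ρ) ^ (4 / 15 : ℝ) =
        (C₁ + C₂) * (H ^ ε * ρ * H ^ 6) * (1 + H ^ 3 / ρ) ^ (4 / 15 : ℝ) := by ring
    rw [e, e']
    exact mul_le_mul (mul_le_mul_of_nonneg_right (by linarith) hE) h2 (by positivity) (by positivity)

end Pool.Agent.Helper92.GC
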