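import Pool.Agent.Helper92.GC.G3
import Pool.Agent.Helper92.GC.G4
import Pool.Agent.Helper92.GC.Shell

/-!
# GC-G5: one class

PROOF. `P = Q/A`, `δ₁ = A Q/K`, `δ₂ = 1/(2QA)`, `H = K A/Q`. Apply `class_sum` with `s n = ‖bs (sec K Q n) K i R c‖` and
`G r b = C (K²A/Q²) m6 (reg b H) (fun p => ee (r ph b p))` (continuous in `r`: `m6_eq` or dominated convergence), hypotheses by `sector_bound`.
`δ₁ P⁴ = Q⁵/(K A³) ≤ C₀ R K/(K A³) ≤ C₀ R`, `2 δ₂ = 1/(QA) ≤ A/Q = 1/P`. Result: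
`(∑_W ‖bs‖)^6 ≤ C P^10 (K²A/Q²) (1/δ₁) ∑_{b ∈ bgrid δ₂} ∫_{R/(6P³) - δ₁}^{4R/P³ + δ₁} m6 ... dr`.
Since `δ₁ P³ K... `: `δ₁ ≤ R/(12 P³)`: `δ₁ P³ = Q⁴/(K A²) ≤ Q⁴/K = Q⁵/(K Q) ≤ C₀ R/Q ≤ R/12` by `hQ : 12 C₀ ≤ Q`. So with `ρ₀ = R/(12P³)` the interval is contained in `[ρ₀, 64 ρ₀]` (`4R/P³ + δ₁ ≤ 49 ρ₀`),
the union of the six shells `[2^i ρ₀, 2^(i+1) ρ₀]`. `shell` (its hypothesis `H^(7/4) ≤ ρ₀` is `hρ`) bounds each integral by
`C H^ε (2^i ρ₀) H^6 (1 + H³/ρ₀)^(4/15)`, `H³/ρ₀ = 12 K³A³ P³/(Q³ R) = 12 K³/R`. `bgrid` has at most `2QA + 1 ≤ 3QA` elements. Total: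
`C P^10 (K²A/Q²) (K/(AQ)) (3QA) H^ε 63 ρ₀ H^6 (1 + 12K³/R)^(4/15)`; `P^10 · (K²A/Q²)(K/(AQ))(QA) · R A³/Q³ · K^6A^6/Q^6 = R K^9/Q` (the powers of `A`: `-10 + 1 - 1 + 1 + 3 + 6 = 0`;
of `Q`: `10 - 2 - 1 + 1 - 3 - 6 = -1`). `(1 + 12 y)^(4/15) ≤ 12 (1 + y)^(4/15)`, `H ≤ K` .
-/

open MeasureTheory Real Set Filter Topology

set_option autoImplicit false

namespace Pool.Agent.Helper92.GC

open Pool.Agent.Helper22.AE
open Pool.Agent.Helper22.AC (n6 IsWt mu)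

private theorem m6_nonneg97 (S : Finset (ℤ × ℤ)) (a : ℤ × ℤ → ℂ) : 0 ≤ m6 S a := by
  unfold m6
  exact integral_nonneg fun c => by positivity

private theorem ee_cont97 : Continuous ee := by
  unfold ee
  fun_prop

private theorem m6_cont97 (S : Finset (ℤ × ℤ)) (f : ℤ × ℤ → ℝ) :
    Continuous (fun r : ℝ => m6 S (fun p => ee (r * f p))) := by
  unfold m6 tp
  refine continuous_parametric_integral_of_continuous
    (f := fun (r : ℝ) (c : ℝ × ℝ) => ‖∑ k ∈ S, ee (r * f k) * ee (dt k c)‖ ^ 6) ?_ ?_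
  · have h1 : ∀ k : ℤ × ℤ, Continuous fun q : ℝ × (ℝ × ℝ) => ee (q.1 * f k) := fun k =>
      ee_cont97.comp (by fun_prop)
    have h2 : ∀ k : ℤ × ℤ, Continuous fun q : ℝ × (ℝ × ℝ) => ee (dt k q.2) := fun k =>
      ee_cont97.comp (by unfold dt; fun_prop)
    have h3 : Continuous fun q : ℝ × (ℝ × ℝ) => ∑ k ∈ S, ee (q.1 * f k) * ee (dt k q.2) :=
      continuous_finsetSum _ fun k _ => (h1 k).mul (h2 k)
    exact (h3.norm).pow 6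
  · exact isCompact_Icc.prod isCompact_Icc

private theorem split97 {g : ℝ → ℝ} (hg : Continuous g) (h0 : ∀ r, 0 ≤ g r) {ρ lo hi : ℝ} (hρ : 0 < ρ)
    (hlo : ρ ≤ lo) (hhi : hi ≤ 64 * ρ) :
    ∫ r in Icc lo hi, g r ≤ ∑ i ∈ Finset.range 6, ∫ r in Icc (2 ^ i * ρ) (2 * (2 ^ i * ρ)), g r := by
  have h1 : ∫ r in Icc lo hi, g r ≤ ∫ r in Icc ρ (64 * ρ), g r := by
    refine setIntegral_mono_set ?_ ?_ ?_
    · exact hg.integrableOn_Icc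
    · exact Eventually.of_forall h0
    · exact (Icc_subset_Icc hlo hhi).eventuallyLE
  refine h1.trans (le_of_eq ?_)
  have h2 := intervalIntegral.sum_integral_adjacent_intervals (μ := volume) (f := g)
    (a := fun i : ℕ => 2 ^ i * ρ) (n := 6) (fun k _ => hg.intervalIntegrable _ _)
  rw [integral_Icc_eq_integral_Ioc, ← intervalIntegral.integral_of_le (by linarith)]
  have e1 : (64 : ℝ) * ρ = 2 ^ 6 * ρ := by norm_num
  rw [e1]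
  have e2 : ρ = 2 ^ 0 * ρ := by norm_num
  conv_lhs => rw [e2]
  rw [← e2]
  refine (Eq.trans ?_ h2.symm).trans ?_
  · simp
  · refine Finset.sum_congr rfl fun i _ => ?_
    have h3 : (0 : ℝ) < 2 ^ i * ρ := by positivity
    rw [integral_Icc_eq_integral_Ioc, ← intervalIntegral.integral_of_le (by linarith)]
    congr 1
    rw [pow_succ]
    ring

theorem class_bound {ε : ℝ} (hε : 0 < ε) (C₀ : ℝ) : ∃ C : ℝ, 0 < C ∧ ∀ (K Q : ℕ) (A R : ℝ), 8 ≤ Q → Q ≤ K → 1 ≤ A →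
    12 * C₀ ≤ Q → A ≤ Q → A ^ 4 ≤ (Q : ℝ) ^ 3 → 0 < R → R * K ≤ C₀ * (Q : ℝ) ^ 5 → (Q : ℝ) ^ 5 ≤ C₀ * (R * K) →
    (K * A / Q) ^ (7 / 4 : ℝ) ≤ R / (12 * (Q / A) ^ 3) → ∀ i : ℕ, (i = 1 ∨ i = 2) → ∀ c : ℝ × ℝ,
      ∀ W : Finset (ℤ × ℤ), (∀ n ∈ W, Good (Q / A) n) →
        (∑ n ∈ W, ‖bs (sec K Q n) K i R c‖) ^ 6 ≤
          C * (K : ℝ) ^ ε * (R * (K : ℝ) ^ 9 / Q) * (1 + (K : ℝ) ^ 3 / R) ^ (4 / 15 : ℝ) := by
  obtain ⟨C1, hC1, hcs⟩ := class_sum C₀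
  obtain ⟨C2, hC2, hsb⟩ := sector_bound C₀
  obtain ⟨C3, hC3, hsh⟩ := shell hε
  refine ⟨C1 * C2 * C3 * 189, by positivity, ?_⟩
  intro K Q A R hQ8 hQK hA hCQ hAQ hA4 hR h1 h2 hH i hi c W hW
  have hQ0 : (0 : ℝ) < Q := by
    have : (8 : ℝ) ≤ Q := by exact_mod_cast hQ8
    linarith
  have hQ1 : (1 : ℝ) ≤ Q := by
    have : (8 : ℝ) ≤ Q := by exact_mod_cast hQ8
    linarith
  have hQKr : (Q : ℝ) ≤ K := by exact_mod_cast hQK
  have hK0 : (0 : ℝ) < K := lt_of_lt_of_le hQ0 hQKr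
  have hA0 : (0 : ℝ) < A := by linarith
  have hRK : 0 < R * K := by positivity
  have hC0 : 0 < C₀ := by
    by_contra hcon
    rw [not_lt] at hcon
    have h3 : C₀ * (R * K) ≤ 0 := mul_nonpos_of_nonpos_of_nonneg hcon hRK.le
    have h4 : (0 : ℝ) < (Q : ℝ) ^ 5 := by positivity
    linarith
  set P : ℝ := Q / A with hP
  have hP1 : 1 ≤ P := by
    rw [hP, le_div_iff₀ hA0]
    linarith
  have hP0 : 0 < P := by linarith
  set δ₁ : ℝ := A * Q / K with hδ₁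
  have hδ₁0 : 0 < δ₁ := by positivity
  set δ₂ : ℝ := 1 / (2 * (Q * A)) with hδ₂
  have hδ₂0 : 0 < δ₂ := by positivity
  set H : ℝ := K * A / Q with hHdef
  have hH1 : 1 ≤ H := by
    rw [hHdef, le_div_iff₀ hQ0, one_mul]
    nlinarith
  have hHK : H ≤ K := by
    rw [hHdef, div_le_iff₀ hQ0]
    exact mul_le_mul_of_nonneg_left hAQ hK0.le
  have hH0 : 0 < H := by linarith
  set ρ : ℝ := R / (12 * P ^ 3) with hρdef
  have hρ0 : 0 < ρ := by positivity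
  have hA3 : (1 : ℝ) ≤ A ^ 3 := one_le_pow₀ hA
  have hA2 : (1 : ℝ) ≤ A ^ 2 := one_le_pow₀ hA
  -- the conditions for `class_sum`
  have c1 : δ₁ * P ^ 4 ≤ C₀ * R := by
    have e : δ₁ * P ^ 4 = (Q : ℝ) ^ 5 / (K * A ^ 3) := by
      rw [hδ₁, hP]
      field_simp
    rw [e, div_le_iff₀ (by positivity)]
    calc (Q : ℝ) ^ 5 ≤ C₀ * (R * K) := h2
      _ = C₀ * R * K * 1 := by ring
      _ ≤ C₀ * R * K * A ^ 3 := mul_le_mul_of_nonneg_left hA3 (by positivity)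
      _ = C₀ * R * (K * A ^ 3) := by ring
  have c2 : 2 * δ₂ ≤ 1 / P := by
    have e : 2 * δ₂ = 1 / (Q * A) := by
      rw [hδ₂]
      field_simp
    rw [e, hP, one_div_div, div_le_div_iff₀ (by positivity) hQ0]
    nlinarith
  have c3 : δ₁ ≤ ρ := by
    have e : δ₁ * P ^ 3 = (Q : ℝ) ^ 4 / (K * A ^ 2) := by
      rw [hδ₁, hP]
      field_simp
    have e2 : δ₁ * P ^ 3 ≤ R / 12 := by
      rw [e, div_le_div_iff₀ (by positivity) (by norm_num)]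
      have e3 : (Q : ℝ) ^ 4 * 12 * Q ≤ R * K * Q := by
        calc (Q : ℝ) ^ 4 * 12 * Q = 12 * (Q : ℝ) ^ 5 := by ring
          _ ≤ 12 * (C₀ * (R * K)) := by linarith
          _ = (12 * C₀) * (R * K) := by ring
          _ ≤ Q * (R * K) := mul_le_mul_of_nonneg_right hCQ hRK.le
          _ = R * K * Q := by ring
      have e4 : (Q : ℝ) ^ 4 * 12 ≤ R * K := le_of_mul_le_mul_right e3 hQ0
      calc (Q : ℝ) ^ 4 * 12 ≤ R * K := e4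
        _ = R * K * 1 := by ring
        _ ≤ R * K * A ^ 2 := mul_le_mul_of_nonneg_left hA2 hRK.le
        _ = R * (K * A ^ 2) := by ring
    rw [hρdef, le_div_iff₀ (by positivity)]
    linarith
  have hlo : ρ ≤ R / (6 * P ^ 3) - δ₁ := by
    have e : R / (6 * P ^ 3) = 2 * ρ := by
      rw [hρdef]
      field_simp
      norm_num
    rw [e]
    linarith
  have hhi : 4 * R / P ^ 3 + δ₁ ≤ 64 * ρ := by
    have e : 4 * R / P ^ 3 = 48 * ρ := by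
      rw [hρdef]
      field_simp
      norm_num
    rw [e]
    linarith
  set g : ℝ → ℝ → ℝ := fun b r => m6 (reg b H) (fun p => ee (r * ph b p)) with hg
  have hg0 : ∀ b r, 0 ≤ g b r := fun b r => m6_nonneg97 _ _
  have hgc : ∀ b, Continuous (g b) := fun b => m6_cont97 _ _
  have hD : 0 ≤ C2 * ((K : ℝ) ^ 2 * A / (Q : ℝ) ^ 2) := by positivity
  have key := hcs P R δ₁ δ₂ hP1 hR hδ₁0 hδ₂0 c1 c2
    (fun r b => C2 * ((K : ℝ) ^ 2 * A / (Q : ℝ) ^ 2) * g b r)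
    (fun b => continuous_const.mul (hgc b)) (fun r b => mul_nonneg hD (hg0 b r))
    (fun n => ‖bs (sec K Q n) K i R c‖) (fun n _ => norm_nonneg _)
    (fun n hn r b hr hb _ => by
      refine hsb K Q A R r b n hQ8 hQK hA hA4 hR h1 h2 hn hr (hb.trans ?_) i hi c
      rw [hδ₂]
      refine one_div_le_one_div_of_le (by positivity) ?_
      have : 0 < (Q : ℝ) * A := by positivity
      linarith) W hW
  refine key.trans ?_
  -- the bound for one `b`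
  have hy0 : (0 : ℝ) ≤ 1 + H ^ 3 / ρ := by positivity
  have hone : ∀ b ∈ bgrid δ₂, ∫ r in Icc (R / (6 * P ^ 3) - δ₁) (4 * R / P ^ 3 + δ₁),
      C2 * ((K : ℝ) ^ 2 * A / (Q : ℝ) ^ 2) * g b r ≤
      C2 * ((K : ℝ) ^ 2 * A / (Q : ℝ) ^ 2) *
        (63 * (C3 * (K : ℝ) ^ ε * ρ * H ^ 6 * (1 + H ^ 3 / ρ) ^ (4 / 15 : ℝ))) := by
    intro b hb
    rw [integral_const_mul]
    refine mul_le_mul_of_nonneg_left ?_ hD
    refine (split97 (hgc b) (hg0 b) hρ0 hlo hhi).trans ?_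
    have hb2 := bgrid_le hδ₂0 hb
    have hterm : ∀ j ∈ Finset.range 6, ∫ r in Icc (2 ^ j * ρ) (2 * (2 ^ j * ρ)), g b r ≤
        2 ^ j * (C3 * (K : ℝ) ^ ε * ρ * H ^ 6 * (1 + H ^ 3 / ρ) ^ (4 / 15 : ℝ)) := by
      intro j _
      have hj : (1 : ℝ) ≤ 2 ^ j := one_le_pow₀ (by norm_num)
      have hρj : ρ ≤ 2 ^ j * ρ := by nlinarith
      have hρj0 : 0 < 2 ^ j * ρ := by positivity
      have h3 := hsh H (2 ^ j * ρ) b hH1 (hH.trans hρj) hb2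
      refine h3.trans ?_
      have h4 : H ^ ε ≤ (K : ℝ) ^ ε := Real.rpow_le_rpow hH0.le hHK hε.le
      have h5 : (1 + H ^ 3 / (2 ^ j * ρ)) ^ (4 / 15 : ℝ) ≤ (1 + H ^ 3 / ρ) ^ (4 / 15 : ℝ) := by
        refine Real.rpow_le_rpow (by positivity) ?_ (by norm_num)
        have h6 : H ^ 3 / (2 ^ j * ρ) ≤ H ^ 3 / ρ := div_le_div_of_nonneg_left (by positivity) hρ0 hρj
        linarith
      calc C3 * H ^ ε * (2 ^ j * ρ) * H ^ 6 * (1 + H ^ 3 / (2 ^ j * ρ)) ^ (4 / 15 : ℝ)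
          ≤ C3 * (K : ℝ) ^ ε * (2 ^ j * ρ) * H ^ 6 * (1 + H ^ 3 / ρ) ^ (4 / 15 : ℝ) := by
            gcongr
        _ = 2 ^ j * (C3 * (K : ℝ) ^ ε * ρ * H ^ 6 * (1 + H ^ 3 / ρ) ^ (4 / 15 : ℝ)) := by ring
    refine (Finset.sum_le_sum hterm).trans (le_of_eq ?_)
    rw [← Finset.sum_mul]
    congr 1
    norm_num [Finset.sum_range_succ]
  have hsum : ∑ b ∈ bgrid δ₂, 1 / δ₁ * ∫ r in Icc (R / (6 * P ^ 3) - δ₁) (4 * R / P ^ 3 + δ₁),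
      C2 * ((K : ℝ) ^ 2 * A / (Q : ℝ) ^ 2) * g b r ≤
      (3 * (Q * A)) * (1 / δ₁ * (C2 * ((K : ℝ) ^ 2 * A / (Q : ℝ) ^ 2) *
        (63 * (C3 * (K : ℝ) ^ ε * ρ * H ^ 6 * (1 + H ^ 3 / ρ) ^ (4 / 15 : ℝ))))) := by
    refine (Finset.sum_le_sum fun b hb => mul_le_mul_of_nonneg_left (hone b hb) (by positivity)).trans ?_
    rw [Finset.sum_const, nsmul_eq_mul]
    refine mul_le_mul_of_nonneg_right ?_ (by positivity)
    refine (bgrid_card hδ₂0).trans ?_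
    have e : 1 / δ₂ = 2 * (Q * A) := by
      rw [hδ₂, one_div_one_div]
    rw [e]
    nlinarith
  refine (mul_le_mul_of_nonneg_left hsum (by positivity)).trans ?_
  -- arithmetic
  have hy : H ^ 3 / ρ = 12 * ((K : ℝ) ^ 3 / R) := by
    rw [hρdef, hHdef, hP]
    field_simp
  have hpow : (1 + H ^ 3 / ρ) ^ (4 / 15 : ℝ) ≤ 12 * (1 + (K : ℝ) ^ 3 / R) ^ (4 / 15 : ℝ) := by
    have hz : 0 ≤ (K : ℝ) ^ 3 / R := by positivity
    rw [hy]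
    calc (1 + 12 * ((K : ℝ) ^ 3 / R)) ^ (4 / 15 : ℝ) ≤ (12 * (1 + (K : ℝ) ^ 3 / R)) ^ (4 / 15 : ℝ) := by
          refine Real.rpow_le_rpow (by positivity) ?_ (by norm_num)
          linarith
      _ = 12 ^ (4 / 15 : ℝ) * (1 + (K : ℝ) ^ 3 / R) ^ (4 / 15 : ℝ) :=
          Real.mul_rpow (by norm_num) (by positivity)
      _ ≤ 12 * (1 + (K : ℝ) ^ 3 / R) ^ (4 / 15 : ℝ) := by
          refine mul_le_mul_of_nonneg_right ?_ (by positivity)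
          calc (12 : ℝ) ^ (4 / 15 : ℝ) ≤ 12 ^ (1 : ℝ) :=
                Real.rpow_le_rpow_of_exponent_le (by norm_num) (by norm_num)
            _ = 12 := Real.rpow_one _
  have hmain : C1 * P ^ 10 * ((3 * (Q * A)) * (1 / δ₁ * (C2 * ((K : ℝ) ^ 2 * A / (Q : ℝ) ^ 2) *
        (63 * (C3 * (K : ℝ) ^ ε * ρ * H ^ 6 * (1 + H ^ 3 / ρ) ^ (4 / 15 : ℝ)))))) =
      C1 * C2 * C3 * (189 / 12) * (K : ℝ) ^ ε * (R * (K : ℝ) ^ 9 / Q) * (1 + H ^ 3 / ρ) ^ (4 / 15 : ℝ) := by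
    generalize (1 + H ^ 3 / ρ) ^ (4 / 15 : ℝ) = Z
    generalize (K : ℝ) ^ ε = E
    rw [hρdef, hHdef, hP, hδ₁]
    field_simp
    ring
  rw [hmain]
  have hcoef : 0 ≤ C1 * C2 * C3 * (189 / 12) * (K : ℝ) ^ ε * (R * (K : ℝ) ^ 9 / Q) := by positivity
  refine (mul_le_mul_of_nonneg_left hpow hcoef).trans (le_of_eq ?_)
  ring

end Pool.Agent.Helper92.GC
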