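import Pool.Agent.Helper92.GC.Defs

/-!
# GC-N1: relative positions of lattice points near an arc of the parabola

Notation: `ξ = m - c`, `ζ = zt β c m`, `Psi = ξ₁ + ζ²/(4R)`, `Del = ζ/(2R) - t₀`; for a difference vector `a`: `z_a = zz β a = a.2 - β a.1`.
PROOFS. `near_diff`: `zt β c m' - zt β c m = zz β (m' - m)`; `|ζ/(2R) - t₀| ≤ s` for both, so `|ζ' - ζ| ≤ 4 R s`; `Psi' - Psi = a.1 + (ζ'² - ζ²)/(4R) = a.1 + z (2ζ + z)/(4R)`, and `e = Psi' - Psi`.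
`near_slope`: `(2ζ + z)/(4R)` is the mean of `ζ/(2R)` and `ζ'/(2R)`, so within `s` of `t₀`. `near_sep`: if `|z| < 1/8` then `|a.1| ≤ (6 + s)|z| + 2d < 1`, so `a.1 = 0`, `z = a.2` is an integer with
`|z| < 1/8`, so `a = 0`. `near_eight`: `|a.1| ≤ 6.001 |z| + 0.002 ≤ 8 |z|` as `|z| ≥ 1/8`.
`near_area`: `dd a b = a.1 z_b - b.1 z_a` (definition of `zz`), insert `near_diff` for `a` and `b` (same base point): `= z_a z_b (z_b - z_a)/(4R) + e_a z_b - e_b z_a` and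
`|e_a z_b - e_b z_a| ≤ 2d(|z_a| + |z_b|)`; `≤ 2d · 2 · 4Rs ≤ 64 ρ s d ≤ 1/1000`.
-/

open MeasureTheory Real Set Filter Topology

set_option autoImplicit false

namespace Pool.Agent.Helper92.GC

open Pool.Agent.Helper22.AE
open Pool.Agent.Helper22.AC (n6 IsWt mu)

/-- the parameters of the counting part -/
structure Par (β ρ t₀ s d : ℝ) : Prop where
  hβ : |β| ≤ 1 / 2
  hρ : 1 ≤ ρ
  ht : |t₀| ≤ 6
  hs : 0 < s
  hs1 : s ≤ 1 / 1000
  hd : 0 < d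
  hd1 : d ≤ 1 / 1000
  hsd : 64 * ρ * s * d ≤ 1 / 1000
  hdd : d ^ 3 * ρ ≤ 1 / 10 ^ 6

theorem near_diff {β R t₀ s d : ℝ} {c : ℝ × ℝ} (hR : 0 < R) {m m' : ℤ × ℤ} (hm : m ∈ near β R t₀ s d c)
    (hm' : m' ∈ near β R t₀ s d c) : zz β (m' - m) = zt β c m' - zt β c m ∧ |zz β (m' - m)| ≤ 4 * R * s ∧
      ∃ e : ℝ, |e| ≤ 2 * d ∧ (((m' - m).1 : ℤ) : ℝ) = -(zz β (m' - m) * (2 * zt β c m + zz β (m' - m))) / (4 * R) + e := by
  obtain ⟨h1, h2⟩ := hm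
  obtain ⟨h3, h4⟩ := hm'
  have hz : zz β (m' - m) = zt β c m' - zt β c m := by
    unfold zz zt
    simp only [Prod.snd_sub, Prod.fst_sub, Int.cast_sub]
    ring
  refine ⟨hz, ?_, Psi β R c m' - Psi β R c m, ?_, ?_⟩
  · rw [hz]
    unfold Del at h1 h3
    have h5 : |zt β c m' / (2 * R) - zt β c m / (2 * R)| ≤ 2 * s := by
      rw [abs_le] at h1 h3 ⊢
      constructor <;> linarith [h1.1, h1.2, h3.1, h3.2]
    rw [← sub_div, abs_div, abs_of_pos (by positivity : (0 : ℝ) < 2 * R), div_le_iff₀ (by positivity)] at h5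
    linarith
  · rw [abs_le] at h2 h4 ⊢
    constructor <;> linarith [h2.1, h2.2, h4.1, h4.2]
  · rw [hz]
    unfold Psi
    simp only [Prod.fst_sub, Int.cast_sub]
    field_simp
    ring

theorem near_slope {β R t₀ s d : ℝ} {c : ℝ × ℝ} (hR : 0 < R) {m m' : ℤ × ℤ} (hm : m ∈ near β R t₀ s d c)
    (hm' : m' ∈ near β R t₀ s d c) :
    |(((m' - m).1 : ℤ) : ℝ) + t₀ * zz β (m' - m)| ≤ s * |zz β (m' - m)| + 2 * d := by
  obtain ⟨hz, -, e, he, ha⟩ := near_diff hR hm hm'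
  have h1 : |zt β c m / (2 * R) - t₀| ≤ s := hm.1
  have h3 : |zt β c m' / (2 * R) - t₀| ≤ s := hm'.1
  obtain ⟨z, hzz⟩ : ∃ z, z = zz β (m' - m) := ⟨_, rfl⟩
  rw [← hzz] at hz ha ⊢
  rw [ha]
  have h5 : -(z * (2 * zt β c m + z)) / (4 * R) + e + t₀ * z =
      -(z * (((zt β c m / (2 * R) - t₀) + (zt β c m' / (2 * R) - t₀)) / 2)) + e := by
    have h6 : zt β c m' = zt β c m + z := by linarith
    rw [h6]
    field_simp
    ring
  rw [h5]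
  have h7 : |((zt β c m / (2 * R) - t₀) + (zt β c m' / (2 * R) - t₀)) / 2| ≤ s := by
    rw [abs_le] at h1 h3 ⊢
    constructor <;> linarith [h1.1, h1.2, h3.1, h3.2]
  calc |-(z * (((zt β c m / (2 * R) - t₀) + (zt β c m' / (2 * R) - t₀)) / 2)) + e|
      ≤ |-(z * (((zt β c m / (2 * R) - t₀) + (zt β c m' / (2 * R) - t₀)) / 2))| + |e| := abs_add_le _ _
    _ = |z| * |((zt β c m / (2 * R) - t₀) + (zt β c m' / (2 * R) - t₀)) / 2| + |e| := by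
        rw [abs_neg, abs_mul]
    _ ≤ |z| * s + 2 * d := add_le_add (mul_le_mul_of_nonneg_left h7 (abs_nonneg _)) he
    _ = s * |z| + 2 * d := by ring

theorem near_sep {β ρ t₀ s d R : ℝ} {c : ℝ × ℝ} (h : Par β ρ t₀ s d) (hR : 0 < R) {m m' : ℤ × ℤ}
    (hm : m ∈ near β R t₀ s d c) (hm' : m' ∈ near β R t₀ s d c) (hne : m ≠ m') : 1 / 8 ≤ |zz β (m' - m)| := by
  by_contra hlt
  rw [not_le] at hlt
  have hsl := near_slope hR hm hm'
  obtain ⟨z, hzz⟩ : ∃ z, z = zz β (m' - m) := ⟨_, rfl⟩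
  rw [← hzz] at hsl hlt
  have hz0 := abs_nonneg z
  have h1 : |(((m' - m).1 : ℤ) : ℝ)| < 1 := by
    have h2 : |(((m' - m).1 : ℤ) : ℝ)| ≤ |(((m' - m).1 : ℤ) : ℝ) + t₀ * z| + |t₀ * z| := by
      have h3 := abs_sub (((((m' - m).1 : ℤ) : ℝ)) + t₀ * z) (t₀ * z)
      rwa [add_sub_cancel_right] at h3
    have h4 : |t₀ * z| ≤ 6 * |z| := by
      rw [abs_mul]
      exact mul_le_mul_of_nonneg_right h.ht hz0
    have h5 : s * |z| ≤ 1 / 1000 * |z| := mul_le_mul_of_nonneg_right h.hs1 hz0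
    have h6 := h.hd1
    linarith
  have h2 : (m' - m).1 = 0 := by
    have h3 : |(m' - m).1| < 1 := by
      have h4 : ((|(m' - m).1| : ℤ) : ℝ) < 1 := by
        rw [Int.cast_abs]
        exact h1
      exact_mod_cast h4
    exact Int.abs_lt_one_iff.1 h3
  have h3 : z = (((m' - m).2 : ℤ) : ℝ) := by
    rw [hzz]
    unfold zz
    rw [h2, Int.cast_zero, mul_zero, sub_zero]
  have h4 : (m' - m).2 = 0 := by
    rw [h3] at hlt
    have h5 : |(m' - m).2| < 1 := by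
      have h6 : ((|(m' - m).2| : ℤ) : ℝ) < 1 := by
        rw [Int.cast_abs]
        linarith
      exact_mod_cast h6
    exact Int.abs_lt_one_iff.1 h5
  have h5 : m' - m = 0 := Prod.ext h2 h4
  exact hne (sub_eq_zero.1 h5).symm

theorem near_eight {β ρ t₀ s d R : ℝ} {c : ℝ × ℝ} (h : Par β ρ t₀ s d) (hR : 0 < R) {m m' : ℤ × ℤ}
    (hm : m ∈ near β R t₀ s d c) (hm' : m' ∈ near β R t₀ s d c) : |(((m' - m).1 : ℤ) : ℝ)| ≤ 8 * |zz β (m' - m)| := by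
  by_cases hne : m = m'
  · rw [hne]
    simp
  · have h1 := near_sep h hR hm hm' hne
    have hsl := near_slope hR hm hm'
    obtain ⟨z, hzz⟩ : ∃ z, z = zz β (m' - m) := ⟨_, rfl⟩
    rw [← hzz] at hsl h1 ⊢
    have hz0 := abs_nonneg z
    have h2 : |(((m' - m).1 : ℤ) : ℝ)| ≤ |(((m' - m).1 : ℤ) : ℝ) + t₀ * z| + |t₀ * z| := by
      have h3 := abs_sub (((((m' - m).1 : ℤ) : ℝ)) + t₀ * z) (t₀ * z)
      rwa [add_sub_cancel_right] at h3
    have h4 : |t₀ * z| ≤ 6 * |z| := by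
      rw [abs_mul]
      exact mul_le_mul_of_nonneg_right h.ht hz0
    have h5 : s * |z| ≤ 1 / 1000 * |z| := mul_le_mul_of_nonneg_right h.hs1 hz0
    have h6 := h.hd1
    linarith

theorem near_area {β R t₀ s d : ℝ} {c : ℝ × ℝ} (hR : 0 < R) {m m₁ m₂ : ℤ × ℤ} (hm : m ∈ near β R t₀ s d c)
    (hm₁ : m₁ ∈ near β R t₀ s d c) (hm₂ : m₂ ∈ near β R t₀ s d c) :
    |(dd (m₁ - m) (m₂ - m) : ℝ) - zz β (m₁ - m) * zz β (m₂ - m) * (zz β (m₂ - m) - zz β (m₁ - m)) / (4 * R)| ≤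
      2 * d * (|zz β (m₁ - m)| + |zz β (m₂ - m)|) := by
  obtain ⟨-, -, e, he, ha⟩ := near_diff hR hm hm₁
  obtain ⟨-, -, e', he', hb⟩ := near_diff hR hm hm₂
  have hdd : (dd (m₁ - m) (m₂ - m) : ℝ) = (((m₁ - m).1 : ℤ) : ℝ) * zz β (m₂ - m) -
      (((m₂ - m).1 : ℤ) : ℝ) * zz β (m₁ - m) := by
    unfold dd zz
    push_cast
    ring
  rw [hdd, ha, hb]
  obtain ⟨z, hzz⟩ : ∃ z, z = zz β (m₁ - m) := ⟨_, rfl⟩
  obtain ⟨z', hzz'⟩ : ∃ z, z = zz β (m₂ - m) := ⟨_, rfl⟩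
  rw [← hzz, ← hzz']
  have h5 : (-(z * (2 * zt β c m + z)) / (4 * R) + e) * z' - (-(z' * (2 * zt β c m + z')) / (4 * R) + e') * z -
      z * z' * (z' - z) / (4 * R) = e * z' - e' * z := by
    field_simp
    ring
  rw [h5]
  calc |e * z' - e' * z| ≤ |e * z'| + |e' * z| := abs_sub _ _
    _ = |e| * |z'| + |e'| * |z| := by rw [abs_mul, abs_mul]
    _ ≤ 2 * d * |z'| + 2 * d * |z| := add_le_add (mul_le_mul_of_nonneg_right he (abs_nonneg _))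
        (mul_le_mul_of_nonneg_right he' (abs_nonneg _))
    _ = 2 * d * (|z| + |z'|) := by ring

theorem near_area' {β ρ t₀ s d R : ℝ} {c : ℝ × ℝ} (h : Par β ρ t₀ s d) (h1 : ρ / 2 ≤ R) (h2 : R ≤ 4 * ρ) {m m₁ m₂ : ℤ × ℤ}
    (hm : m ∈ near β R t₀ s d c) (hm₁ : m₁ ∈ near β R t₀ s d c) (hm₂ : m₂ ∈ near β R t₀ s d c) :
    |(dd (m₁ - m) (m₂ - m) : ℝ) - zz β (m₁ - m) * zz β (m₂ - m) * (zz β (m₂ - m) - zz β (m₁ - m)) / (4 * R)| ≤
      1 / 1000 := by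
  have hρ := h.hρ
  have hs := h.hs
  have hd := h.hd
  have hR : 0 < R := by linarith
  refine (near_area hR hm hm₁ hm₂).trans ?_
  have h3 := (near_diff hR hm hm₁).2.1
  have h4 := (near_diff hR hm hm₂).2.1
  have h5 : 4 * R * s ≤ 16 * ρ * s := by nlinarith
  have h6 := h.hsd
  calc 2 * d * (|zz β (m₁ - m)| + |zz β (m₂ - m)|) ≤ 2 * d * (16 * ρ * s + 16 * ρ * s) :=
        mul_le_mul_of_nonneg_left (by linarith) (by positivity)
    _ = 64 * ρ * s * d := by ring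
    _ ≤ 1 / 1000 := h6

end Pool.Agent.Helper92.GC
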