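import Pool.Agent.Helper92.GC.N10

/-!
# GC-N11: pairs in a lattice, one variable fixed

`IsGr G X m`: the values of `dd X` on `G` are generated by `m`.
PROOFS. `gr_exists`: the least positive value of `dd X` on the subgroup `G` (`Nat.find`; `dd X` is additive, use `-Y` if `dd X Y < 0`); all other values are multiples of it (division with remainder).
`y_count`: `w ∣ g m` (`hG` for `X` and `V`, `dd X V = m`), so `w ≤ g m`. For `Y ≠ Y'` in `S`: `dd X (Y - Y') = 0`, `D' = dd (Y - Y') V`; the identity `dd X V • U = dd U V • X - dd U X • V` for `U = Y - Y'` gives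
`m (Y - Y') = D' X`, so `D' ≠ 0`, and `w ∣ g D'` gives `|D'| ≥ w/g`; `|l₁ Y - l₁ Y'| = |D'| |l₁ X|/m ≥ w l₀/(2 g m) =: δ`. `sep_card` with `a = -18 l₀`, `L = 36 l₀`: `card ≤ 1 + 72 g m/w ≤ 73 g m/w`.
`x_count`: `μ X = l₂ X/l₁ X` satisfies `|μ X| ≤ 2B/l₀²`. If `X, X' ∈ S` and `dd X X' ≠ 0` then `|dd X X'| ≥ m` and `|μ X - μ X'| = om |dd X X'|/|l₁ X l₁ X'| ≥ om m/(324 l₀²) > 0`. If `dd X X' = 0`: with
`V` from `IsGr G X m`: `m X' = (dd X' V) X` and `m ∣ dd X' V` by `IsGr G X' m`, so `X' = j X` with an integer `j`; symmetrically `X = j' X'`; `X ≠ 0`, so `j j' = 1`, `X' = ± X` (and then `μ X = μ X'`).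
`sep_card_mul` with `k = 2`, `a = -2B/l₀²`, `L = 4B/l₀²`, `δ = om m/(324 l₀²)`.
-/

open MeasureTheory Real Set Filter Topology

set_option autoImplicit false

namespace Pool.Agent.Helper92.GC

open Pool.Agent.Helper22.AE
open Pool.Agent.Helper22.AC (n6 IsWt mu)

/-- the values of `dd X` on `G` are generated by `m` -/
structure IsGr (G : AddSubgroup (ℤ × ℤ)) (X : ℤ × ℤ) (m : ℕ) : Prop where
  pos : 1 ≤ m
  ex : ∃ V ∈ G, dd X V = m
  dvd : ∀ V ∈ G, (m : ℤ) ∣ dd X V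

private theorem dd_add61 (X a b : ℤ × ℤ) : dd X (a + b) = dd X a + dd X b := by
  unfold dd
  rw [Prod.fst_add, Prod.snd_add]
  ring

private theorem dd_neg61 (X a : ℤ × ℤ) : dd X (-a) = -dd X a := by
  unfold dd
  rw [Prod.fst_neg, Prod.snd_neg]
  ring

private theorem dd_sub61 (X a b : ℤ × ℤ) : dd X (a - b) = dd X a - dd X b := by
  unfold dd
  rw [Prod.fst_sub, Prod.snd_sub]
  ring

private theorem dd_smul61 (X a : ℤ × ℤ) (k : ℤ) : dd X (k • a) = k * dd X a := by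
  unfold dd
  rw [Prod.smul_fst, Prod.smul_snd, smul_eq_mul, smul_eq_mul]
  ring

/-- if `dd X U = 0` then `dd X V` times `U` is a multiple of `X` -/
private theorem plu61 {X U : ℤ × ℤ} (V : ℤ × ℤ) (h : dd X U = 0) : dd X V • U = dd U V • X := by
  unfold dd at *
  ext
  · rw [Prod.smul_fst, Prod.smul_fst, smul_eq_mul, smul_eq_mul]
    linear_combination (V.1) * h
  · rw [Prod.smul_snd, Prod.smul_snd, smul_eq_mul, smul_eq_mul]
    linear_combination (V.2) * h

/-- parallel vectors with the same index differ by a sign -/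
private theorem par61 {G : AddSubgroup (ℤ × ℤ)} {m : ℕ} {X X' : ℤ × ℤ} (hX : IsGr G X m)
    (hX' : IsGr G X' m) (h : dd X X' = 0) : ∃ j : ℤ, X' = j • X := by
  obtain ⟨V, hV, hV'⟩ := hX.ex
  obtain ⟨j, hj⟩ := hX'.dvd V hV
  have h1 := plu61 V h
  have hm : (m : ℤ) ≠ 0 := by
    have := hX.pos
    omega
  rw [hV', hj, mul_smul] at h1
  exact ⟨j, smul_right_injective _ hm h1⟩

theorem gr_exists {G : AddSubgroup (ℤ × ℤ)} {X Y : ℤ × ℤ} (hY : Y ∈ G) (h : dd X Y ≠ 0) : ∃ m, IsGr G X m := by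
  classical
  have hex : ∃ m : ℕ, 1 ≤ m ∧ ∃ V ∈ G, dd X V = m := by
    rcases lt_or_gt_of_ne h with h1 | h1
    · refine ⟨(-dd X Y).toNat, ?_, -Y, G.neg_mem hY, ?_⟩
      · omega
      · rw [dd_neg61]
        omega
    · refine ⟨(dd X Y).toNat, ?_, Y, hY, ?_⟩
      · omega
      · omega
  obtain ⟨h1, V₀, hV₀, h2⟩ := Nat.find_spec hex
  refine ⟨Nat.find hex, h1, ⟨V₀, hV₀, h2⟩, fun V hV => ?_⟩
  by_contra hcon
  have hm : (0 : ℤ) < (Nat.find hex : ℤ) := by exact_mod_cast h1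
  have hr : dd X V % (Nat.find hex : ℤ) ≠ 0 := fun h' => hcon (Int.dvd_of_emod_eq_zero h')
  have hr0 := Int.emod_nonneg (dd X V) hm.ne'
  have hr1 := Int.emod_lt_of_pos (dd X V) hm
  have h3 : dd X (V - (dd X V / (Nat.find hex : ℤ)) • V₀) = dd X V % (Nat.find hex : ℤ) := by
    rw [dd_sub61, dd_smul61, h2, Int.emod_def, mul_comm]
  have h4 : (dd X V % (Nat.find hex : ℤ)).toNat < Nat.find hex := by omega
  refine Nat.find_min hex h4 ⟨by omega, V - (dd X V / (Nat.find hex : ℤ)) • V₀,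
    G.sub_mem hV (G.zsmul_mem hV₀ _), ?_⟩
  rw [h3]
  omega

theorem y_count {G : AddSubgroup (ℤ × ℤ)} {w g m : ℕ} (hw : 1 ≤ w) (hg : 1 ≤ g)
    (hG : ∀ v ∈ G, ∀ v' ∈ G, (w : ℤ) ∣ g * dd v v') {X : ℤ × ℤ} (hX : X ∈ G) (hm : IsGr G X m) (l₁ : ℤ × ℤ →+ ℝ)
    {l₀ : ℝ} (hl : 0 < l₀) (h1 : l₀ / 2 ≤ |l₁ X|) {D : ℤ} (S : Finset (ℤ × ℤ))
    (hS : ∀ Y ∈ S, Y ∈ G ∧ dd X Y = D ∧ |l₁ Y| ≤ 18 * l₀) : (S.card : ℝ) ≤ 73 * ((g : ℝ) * m / w) := by
  obtain ⟨V, hV, hV'⟩ := hm.ex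
  have hm0 : (0 : ℝ) < m := by exact_mod_cast hm.pos
  have hw0 : (0 : ℝ) < w := by exact_mod_cast hw
  have hg0 : (0 : ℝ) < g := by exact_mod_cast hg
  have hwg : (w : ℝ) ≤ g * m := by
    have h2 := hG X hX V hV
    rw [hV'] at h2
    have h3 : w ≤ g * m := by
      refine Nat.le_of_dvd (Nat.mul_pos hg hm.pos) ?_
      exact_mod_cast h2
    exact_mod_cast h3
  have hδ : (0 : ℝ) < w * l₀ / (2 * g * m) := by positivity
  have h2 := sep_card S (fun Y => l₁ Y) (a := -(18 * l₀)) (L := 36 * l₀)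
    (δ := w * l₀ / (2 * g * m)) (by positivity) hδ (fun Y hY => by
      have h3 := abs_le.1 (hS Y hY).2.2
      constructor
      · exact h3.1
      · linarith [h3.2]) (fun Y hY Y' hY' hne => by
      obtain ⟨hYG, hYD, _⟩ := hS Y hY
      obtain ⟨hYG', hYD', _⟩ := hS Y' hY'
      have hU0 : Y - Y' ≠ 0 := sub_ne_zero.2 hne
      have hXU : dd X (Y - Y') = 0 := by rw [dd_sub61, hYD, hYD', sub_self]
      have h3 := plu61 V hXU
      rw [hV'] at h3
      have hD' : dd (Y - Y') V ≠ 0 := by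
        intro h4
        rw [h4, zero_smul] at h3
        rcases smul_eq_zero.1 h3 with h5 | h5
        · have := hm.pos
          omega
        · exact hU0 h5
      have h4 := hG _ (G.sub_mem hYG hYG') V hV
      have h5 : (w : ℤ) ≤ g * |dd (Y - Y') V| := by
        have h6 : (w : ℤ) ∣ g * |dd (Y - Y') V| := by
          rcases abs_choice (dd (Y - Y') V) with h7 | h7 <;> rw [h7]
          · exact h4
          · rw [mul_neg]
            exact (dvd_neg).2 h4
        refine Int.le_of_dvd ?_ h6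
        have : (0 : ℤ) < g := by exact_mod_cast hg
        exact mul_pos this (abs_pos.2 hD')
      have h6 : (w : ℝ) ≤ g * |(dd (Y - Y') V : ℝ)| := by exact_mod_cast h5
      have h7 : (m : ℝ) * |l₁ (Y - Y')| = |(dd (Y - Y') V : ℝ)| * |l₁ X| := by
        have h8 := congrArg l₁ h3
        rw [map_zsmul, map_zsmul, zsmul_eq_mul, zsmul_eq_mul] at h8
        have h9 := congrArg abs h8
        rw [abs_mul, abs_mul] at h9
        rw [← h9]
        congr 1
        rw [Int.cast_natCast, abs_of_pos hm0]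
      rw [← map_sub, div_le_iff₀ (by positivity)]
      have h8 : (w : ℝ) * l₀ ≤ g * |(dd (Y - Y') V : ℝ)| * (2 * |l₁ X|) := by
        refine mul_le_mul h6 (by linarith) hl.le (by positivity)
      calc (w : ℝ) * l₀ ≤ g * |(dd (Y - Y') V : ℝ)| * (2 * |l₁ X|) := h8
        _ = 2 * g * (|(dd (Y - Y') V : ℝ)| * |l₁ X|) := by ring
        _ = |l₁ (Y - Y')| * (2 * g * m) := by
          rw [← h7]
          ring)
  refine h2.trans ?_
  have h3 : 36 * l₀ / (w * l₀ / (2 * g * m)) = 72 * ((g : ℝ) * m / w) := by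
    field_simp
    ring
  rw [h3]
  have h4 : (1 : ℝ) ≤ g * m / w := by
    rw [le_div_iff₀ hw0, one_mul]
    exact hwg
  linarith

theorem x_count {G : AddSubgroup (ℤ × ℤ)} {m : ℕ} (l₁ l₂ : ℤ × ℤ →+ ℝ) {om B l₀ : ℝ} (hom : 0 < om) (hB : 0 ≤ B)
    (hl : 0 < l₀) (hll : ∀ v v', |l₁ v * l₂ v' - l₂ v * l₁ v'| = om * |(dd v v' : ℝ)|) (S : Finset (ℤ × ℤ))
    (hS : ∀ X ∈ S, X ∈ G ∧ IsGr G X m ∧ l₀ / 2 ≤ |l₁ X| ∧ |l₁ X| ≤ 18 * l₀ ∧ |l₂ X| ≤ B / l₀) :
    (S.card : ℝ) ≤ 2 * (1 + 1296 * (B / (om * m))) := by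
  classical
  rcases S.eq_empty_or_nonempty with rfl | ⟨X₀, hX₀⟩
  · rw [Finset.card_empty, Nat.cast_zero]
    positivity
  have hm1 : 1 ≤ m := (hS X₀ hX₀).2.1.pos
  have hm0 : (0 : ℝ) < m := by exact_mod_cast hm1
  have hpos : ∀ X ∈ S, 0 < |l₁ X| := fun X hX => by
    have := (hS X hX).2.2.1
    linarith
  have hne : ∀ X ∈ S, l₁ X ≠ 0 := fun X hX => abs_pos.1 (hpos X hX)
  have hδ : (0 : ℝ) < om * m / (324 * l₀ ^ 2) := by positivity
  -- two vectors which are not parallel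
  have hsep : ∀ X ∈ S, ∀ X' ∈ S, dd X X' ≠ 0 →
      om * m / (324 * l₀ ^ 2) ≤ |l₂ X / l₁ X - l₂ X' / l₁ X'| := by
    intro X hX X' hX' hd
    have h1 : (m : ℝ) ≤ |(dd X X' : ℝ)| := by
      have h2 := (hS X hX).2.1.dvd X' (hS X' hX').1
      have h3 : (m : ℤ) ≤ |dd X X'| := Int.le_of_dvd (abs_pos.2 hd) ((dvd_abs _ _).2 h2)
      exact_mod_cast h3
    have h2 : l₂ X / l₁ X - l₂ X' / l₁ X' =
        -((l₁ X * l₂ X' - l₂ X * l₁ X') / (l₁ X * l₁ X')) := by
      have := hne X hX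
      have := hne X' hX'
      field_simp
      ring
    rw [h2, abs_neg, abs_div, hll, abs_mul]
    refine div_le_div₀ (by positivity) ?_ (mul_pos (hpos X hX) (hpos X' hX')) ?_
    · exact mul_le_mul_of_nonneg_left h1 hom.le
    · calc |l₁ X| * |l₁ X'| ≤ (18 * l₀) * (18 * l₀) :=
          mul_le_mul (hS X hX).2.2.2.1 (hS X' hX').2.2.2.1 (abs_nonneg _) (by positivity)
        _ = 324 * l₀ ^ 2 := by ring
  -- two parallel vectors
  have hpar : ∀ X ∈ S, ∀ X' ∈ S, dd X X' = 0 → X' = X ∨ X' = -X := by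
    intro X hX X' hX' hd
    obtain ⟨j, hj⟩ := par61 (hS X hX).2.1 (hS X' hX').2.1 hd
    have hd' : dd X' X = 0 := by
      have h1 : dd X' X = -dd X X' := by
        unfold dd
        ring
      rw [h1, hd, neg_zero]
    obtain ⟨i, hi⟩ := par61 (hS X' hX').2.1 (hS X hX).2.1 hd'
    have hX0 : X ≠ 0 := by
      rintro rfl
      exact hne 0 hX (map_zero l₁)
    have h1 : (i * j) • X = (1 : ℤ) • X := by
      rw [mul_smul, ← hj, ← hi, one_smul]
    have h2 : i * j = 1 := smul_left_injective ℤ hX0 h1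
    rcases Int.eq_one_or_neg_one_of_mul_eq_one' h2 with ⟨_, h3⟩ | ⟨_, h3⟩
    · left
      rw [hj, h3, one_smul]
    · right
      rw [hj, h3, neg_one_smul]
  have h1 := sep_card_mul S (fun X => l₂ X / l₁ X) 2 (a := -(2 * B / l₀ ^ 2)) (L := 4 * B / l₀ ^ 2)
    (δ := om * m / (324 * l₀ ^ 2)) (by positivity) hδ (fun X hX => by
      have h2 : |l₂ X / l₁ X| ≤ 2 * B / l₀ ^ 2 := by
        rw [abs_div]
        calc |l₂ X| / |l₁ X| ≤ (B / l₀) / (l₀ / 2) :=
            div_le_div₀ (by positivity) (hS X hX).2.2.2.2 (by positivity) (hS X hX).2.2.1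
          _ = 2 * B / l₀ ^ 2 := by
            field_simp
      have h3 := abs_le.1 h2
      have h4 : 4 * B / l₀ ^ 2 = 2 * B / l₀ ^ 2 + 2 * B / l₀ ^ 2 := by ring
      constructor
      · exact h3.1
      · rw [h4]
        linarith [h3.2]) (fun X hX X' hX' => by
      by_cases hd : dd X X' = 0
      · left
        rcases hpar X hX X' hX' hd with h2 | h2 <;> rw [h2]
        rw [map_neg, map_neg, neg_div_neg_eq]
      · exact Or.inr (hsep X hX X' hX' hd)) (fun X hX => by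
      have h2 : (S.filter fun X' => l₂ X' / l₁ X' = l₂ X / l₁ X) ⊆ {X, -X} := by
        intro X' hX'
        rw [Finset.mem_filter] at hX'
        rw [Finset.mem_insert, Finset.mem_singleton]
        refine hpar X hX X' hX'.1 ?_
        by_contra hd
        have h3 := hsep X hX X' hX'.1 hd
        rw [hX'.2, sub_self, abs_zero] at h3
        linarith
      exact (Finset.card_le_card h2).trans Finset.card_le_two)
  refine h1.trans (le_of_eq ?_)
  push_cast
  congr 2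
  field_simp
  ring

end Pool.Agent.Helper92.GC
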