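import Pool.Agent.Helper92.GC.N11

/-!
# GC-N12: pairs in a lattice with given determinant

PROOF of `pair_half`. For `q ∈ W` let `m` with `IsGr G q.1 m` (`gr_exists`, `dd q.1 q.2 ≠ 0`). `m ∣ w` and `w ∣ g m`: `g m = w k` with `1 ≤ k ≤ g` (`m ≤ w`). For each `k ∈ [1, g]` there is at most one such `m`, `m = w k/g`.
Number of `X = q.1` with this `m`: `x_count`: `≤ 2 (1 + 1296 B/(om m)) = 2 (1 + 1296 B g/(om w k))`; for each `X` and each of the two values `D = ± w` the number of `Y = q.2` is at most `73 g m/w = 73 k` (`y_count`).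
Total `≤ ∑_{k=1}^{g} 2 (1 + 1296 B g/(om w k)) · 146 k ≤ 292 (g² + 1296 g² B/(om w)) ≤ 292 · 1297 g² B/(om w)` (`B ≥ om w`).
PROOF of `pair_count`: split `W` according to the alternative; in the second case apply `pair_half` to the swapped pairs (`dd Y X = -dd X Y`).
-/

open MeasureTheory Real Set Filter Topology

set_option autoImplicit false

namespace Pool.Agent.Helper92.GC

open Pool.Agent.Helper22.AE
open Pool.Agent.Helper22.AC (n6 IsWt mu)

theorem pair_half : ∃ C : ℝ, 0 < C ∧ ∀ (G : AddSubgroup (ℤ × ℤ)) (w g : ℕ) (l₁ l₂ : ℤ × ℤ →+ ℝ) (om B l₀ : ℝ), 1 ≤ w → 1 ≤ g →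
    0 < om → 0 < l₀ → om * w ≤ B → (∀ v v', |l₁ v * l₂ v' - l₂ v * l₁ v'| = om * |(dd v v' : ℝ)|) →
    (∀ v ∈ G, ∀ v' ∈ G, (w : ℤ) ∣ g * dd v v') → ∀ W : Finset ((ℤ × ℤ) × (ℤ × ℤ)),
      (∀ q ∈ W, q.1 ∈ G ∧ q.2 ∈ G ∧ |dd q.1 q.2| = w ∧ l₀ / 2 ≤ |l₁ q.1| ∧ |l₁ q.1| ≤ 18 * l₀ ∧ |l₁ q.2| ≤ 18 * l₀ ∧
        |l₂ q.1| ≤ B / l₀) → (W.card : ℝ) ≤ C * (g : ℝ) ^ 2 * (B / (om * w)) := by
  classical
  refine ⟨292 * 1297, by norm_num, ?_⟩
  intro G w g l₁ l₂ om B l₀ hw hg hom hl hBw hll hG W hW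
  have hw' : (1 : ℝ) ≤ w := by exact_mod_cast hw
  have hg' : (1 : ℝ) ≤ g := by exact_mod_cast hg
  have hw0 : (0 : ℝ) < w := by linarith
  have hg0 : (0 : ℝ) < g := by linarith
  have hB : 0 ≤ B := le_trans (by positivity) hBw
  have hT : 1 ≤ B / (om * w) := by
    rw [one_le_div (by positivity)]
    exact hBw
  have hex : ∀ q ∈ W, ∃ m : ℕ, IsGr G q.1 m := fun q hq => by
    refine gr_exists (hW q hq).2.1 ?_
    intro h0
    have h1 := (hW q hq).2.2.1
    rw [h0, abs_zero] at h1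
    omega
  choose! M hM using hex
  have hK : ∀ q ∈ W, ∃ k : ℕ, w * k = g * M q ∧ 1 ≤ k ∧ k ≤ g := by
    intro q hq
    obtain ⟨h1, h2, h3, -⟩ := hW q hq
    obtain ⟨V, hV, hdV⟩ := (hM q hq).ex
    have a1 : (w : ℤ) ∣ (g : ℤ) * (M q : ℤ) := by
      have := hG q.1 h1 V hV
      rwa [hdV] at this
    have a2 : w ∣ g * M q := by exact_mod_cast a1
    obtain ⟨k, hk⟩ := a2
    have a3 : (M q : ℤ) ∣ (w : ℤ) := by
      have := (hM q hq).dvd q.2 h2
      rw [← h3]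
      exact (dvd_abs _ _).2 this
    have a4 : M q ≤ w := Nat.le_of_dvd (by omega) (by exact_mod_cast a3)
    have a5 : 1 ≤ M q := (hM q hq).pos
    refine ⟨k, hk.symm, ?_, ?_⟩
    · rcases Nat.eq_zero_or_pos k with h0 | h0
      · rw [h0, mul_zero] at hk
        have : 0 < g * M q := Nat.mul_pos (by omega) (by omega)
        omega
      · exact h0
    · have : w * k ≤ w * g := by
        rw [← hk, mul_comm w g]
        exact Nat.mul_le_mul_left g a4
      exact Nat.le_of_mul_le_mul_left this (by omega)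
  choose! K hK1 hK2 hK3 using hK
  have hmaps : Set.MapsTo K (W : Set ((ℤ × ℤ) × (ℤ × ℤ))) (Finset.Icc 1 g : Finset ℕ) := by
    intro q hq
    exact Finset.mem_coe.2 (Finset.mem_Icc.2 ⟨hK2 q hq, hK3 q hq⟩)
  rw [Finset.card_eq_sum_card_fiberwise hmaps]
  push_cast
  have key : ∀ k ∈ Finset.Icc 1 g, ((W.filter (fun q => K q = k)).card : ℝ) ≤
      292 * 1297 * g * (B / (om * w)) := by
    intro k hk
    obtain ⟨hk1, hk2⟩ := Finset.mem_Icc.1 hk
    have hk1' : (1 : ℝ) ≤ k := by exact_mod_cast hk1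
    have hk2' : (k : ℝ) ≤ g := by exact_mod_cast hk2
    set Wk := W.filter (fun q => K q = k) with hWk
    rcases Wk.eq_empty_or_nonempty with h0 | ⟨q0, hq0⟩
    · rw [h0, Finset.card_empty, Nat.cast_zero]
      positivity
    have hq0' := Finset.mem_filter.1 hq0
    set m := M q0 with hm
    have hm1 : w * k = g * m := by
      have := hK1 q0 hq0'.1
      rwa [hq0'.2] at this
    have hmq : ∀ q ∈ Wk, M q = m := by
      intro q hq
      have hq' := Finset.mem_filter.1 hq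
      have := hK1 q hq'.1
      rw [hq'.2, hm1] at this
      exact (Nat.eq_of_mul_eq_mul_left (by omega) this).symm
    have hgr : ∀ q ∈ Wk, IsGr G q.1 m := by
      intro q hq
      have := hM q (Finset.mem_filter.1 hq).1
      rwa [hmq q hq] at this
    have hm0 : 1 ≤ m := (hM q0 hq0'.1).pos
    have hm0' : (0 : ℝ) < m := by exact_mod_cast hm0
    have hm1' : (w : ℝ) * k = g * m := by exact_mod_cast hm1
    have hgm : (g : ℝ) * m / w = k := by
      rw [← hm1']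
      field_simp
    -- the fibres
    have hY : ∀ X ∈ Wk, ∀ D : ℤ,
        ((Wk.filter (fun q => q.1 = X.1 ∧ dd q.1 q.2 = D)).card : ℝ) ≤ 73 * k := by
      intro X hX D
      have hinj : Set.InjOn Prod.snd ((Wk.filter (fun q => q.1 = X.1 ∧ dd q.1 q.2 = D) :
          Finset ((ℤ × ℤ) × (ℤ × ℤ))) : Set ((ℤ × ℤ) × (ℤ × ℤ))) := by
        intro q hq q' hq' h
        have h1 := (Finset.mem_filter.1 (Finset.mem_coe.1 hq)).2.1
        have h2 := (Finset.mem_filter.1 (Finset.mem_coe.1 hq')).2.1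
        exact Prod.ext (h1.trans h2.symm) h
      rw [← Finset.card_image_of_injOn hinj]
      have hX' := hW X (Finset.mem_filter.1 hX).1
      have := y_count hw hg hG hX'.1 (hgr X hX) l₁ hl hX'.2.2.2.1 (D := D)
        ((Wk.filter (fun q => q.1 = X.1 ∧ dd q.1 q.2 = D)).image Prod.snd) (by
          intro Y hY
          obtain ⟨q, hq, rfl⟩ := Finset.mem_image.1 hY
          obtain ⟨hq1, hq2, hq3⟩ := Finset.mem_filter.1 hq
          have h4 := hW q (Finset.mem_filter.1 hq1).1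
          refine ⟨h4.2.1, ?_, h4.2.2.2.2.2.1⟩
          rw [← hq2]
          exact hq3)
      rw [hgm] at this
      exact this
    have hfib : ∀ X ∈ Wk.image Prod.fst, (Wk.filter (fun q => q.1 = X)).card ≤ 146 * k := by
      intro X hX
      obtain ⟨q1, hq1, rfl⟩ := Finset.mem_image.1 hX
      have a1 : Wk.filter (fun q => q.1 = q1.1) ⊆ Wk.filter (fun q => q.1 = q1.1 ∧ dd q.1 q.2 = (w : ℤ)) ∪
          Wk.filter (fun q => q.1 = q1.1 ∧ dd q.1 q.2 = -(w : ℤ)) := by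
        intro q hq
        obtain ⟨b1, b2⟩ := Finset.mem_filter.1 hq
        have b3 := (hW q (Finset.mem_filter.1 b1).1).2.2.1
        rcases eq_or_eq_neg_of_abs_eq b3 with h | h
        · exact Finset.mem_union_left _ (Finset.mem_filter.2 ⟨b1, b2, h⟩)
        · exact Finset.mem_union_right _ (Finset.mem_filter.2 ⟨b1, b2, h⟩)
      have a2 := (Finset.card_le_card a1).trans (Finset.card_union_le _ _)
      have a3 := hY q1 hq1 (w : ℤ)
      have a4 := hY q1 hq1 (-(w : ℤ))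
      have a5 : (Wk.filter (fun q => q.1 = q1.1 ∧ dd q.1 q.2 = (w : ℤ))).card ≤ 73 * k := by exact_mod_cast a3
      have a6 : (Wk.filter (fun q => q.1 = q1.1 ∧ dd q.1 q.2 = -(w : ℤ))).card ≤ 73 * k := by exact_mod_cast a4
      omega
    have hcard := Finset.card_le_mul_card_image (f := Prod.fst) Wk (146 * k) hfib
    have hX := x_count (G := G) (m := m) l₁ l₂ hom hB hl hll (Wk.image Prod.fst) (by
      intro X hX
      obtain ⟨q, hq, rfl⟩ := Finset.mem_image.1 hX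
      have h4 := hW q (Finset.mem_filter.1 hq).1
      exact ⟨h4.1, hgr q hq, h4.2.2.2.1, h4.2.2.2.2.1, h4.2.2.2.2.2.2⟩)
    have hcard' : (Wk.card : ℝ) ≤ 146 * k * ((Wk.image Prod.fst).card : ℝ) := by exact_mod_cast hcard
    have e1 : (k : ℝ) * (B / (om * m)) = g * (B / (om * w)) := by
      have : (k : ℝ) = g * m / w := hgm.symm
      rw [this]
      field_simp
    calc (Wk.card : ℝ) ≤ 146 * k * ((Wk.image Prod.fst).card : ℝ) := hcard'
      _ ≤ 146 * k * (2 * (1 + 1296 * (B / (om * m)))) := by gcongr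
      _ = 292 * k + 292 * 1296 * (k * (B / (om * m))) := by ring
      _ = 292 * k + 292 * 1296 * (g * (B / (om * w))) := by rw [e1]
      _ ≤ 292 * (g * (B / (om * w))) + 292 * 1296 * (g * (B / (om * w))) := by
          have : (k : ℝ) * 1 ≤ g * (B / (om * w)) := mul_le_mul hk2' hT zero_le_one hg0.le
          linarith
      _ = 292 * 1297 * g * (B / (om * w)) := by ring
  calc ∑ k ∈ Finset.Icc 1 g, ((W.filter (fun q => K q = k)).card : ℝ)
      ≤ ∑ k ∈ Finset.Icc 1 g, 292 * 1297 * g * (B / (om * w)) := Finset.sum_le_sum key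
    _ = 292 * 1297 * (g : ℝ) ^ 2 * (B / (om * w)) := by
        rw [Finset.sum_const, Nat.card_Icc, nsmul_eq_mul]
        simp only [Nat.add_sub_cancel]
        ring

theorem pair_count : ∃ C : ℝ, 0 < C ∧ ∀ (G : AddSubgroup (ℤ × ℤ)) (w g : ℕ) (l₁ l₂ : ℤ × ℤ →+ ℝ) (om B l₀ : ℝ), 1 ≤ w → 1 ≤ g →
    0 < om → 0 < l₀ → om * w ≤ B → (∀ v v', |l₁ v * l₂ v' - l₂ v * l₁ v'| = om * |(dd v v' : ℝ)|) →
    (∀ v ∈ G, ∀ v' ∈ G, (w : ℤ) ∣ g * dd v v') → ∀ W : Finset ((ℤ × ℤ) × (ℤ × ℤ)),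
      (∀ q ∈ W, q.1 ∈ G ∧ q.2 ∈ G ∧ dd q.1 q.2 = w ∧ (l₀ / 2 ≤ |l₁ q.1| ∨ l₀ / 2 ≤ |l₁ q.2|) ∧ |l₁ q.1| ≤ 18 * l₀ ∧
        |l₁ q.2| ≤ 18 * l₀ ∧ |l₂ q.1| ≤ B / l₀ ∧ |l₂ q.2| ≤ B / l₀) →
        (W.card : ℝ) ≤ C * (g : ℝ) ^ 2 * (B / (om * w)) := by
  classical
  obtain ⟨C, hC, hh⟩ := pair_half
  refine ⟨2 * C, by positivity, ?_⟩
  intro G w g l₁ l₂ om B l₀ hw hg hom hl hBw hll hG W hW
  have h1 := hh G w g l₁ l₂ om B l₀ hw hg hom hl hBw hll hG (W.filter (fun q => l₀ / 2 ≤ |l₁ q.1|)) (by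
    intro q hq
    obtain ⟨b1, b2⟩ := Finset.mem_filter.1 hq
    obtain ⟨c1, c2, c3, c4, c5, c6, c7, c8⟩ := hW q b1
    exact ⟨c1, c2, by rw [c3, Nat.abs_cast], b2, c5, c6, c7⟩)
  have h2 := hh G w g l₁ l₂ om B l₀ hw hg hom hl hBw hll hG
    ((W.filter (fun q => ¬ l₀ / 2 ≤ |l₁ q.1|)).image Prod.swap) (by
    intro q hq
    obtain ⟨q', hq', rfl⟩ := Finset.mem_image.1 hq
    obtain ⟨b1, b2⟩ := Finset.mem_filter.1 hq'
    obtain ⟨c1, c2, c3, c4, c5, c6, c7, c8⟩ := hW q' b1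
    have e : dd q'.2 q'.1 = -dd q'.1 q'.2 := by
      unfold dd
      ring
    refine ⟨c2, c1, ?_, c4.resolve_left b2, c6, c5, c8⟩
    change |dd q'.2 q'.1| = w
    rw [e, abs_neg, c3, Nat.abs_cast])
  rw [Finset.card_image_of_injective _ Prod.swap_injective] at h2
  have h3 := Finset.card_filter_add_card_filter_not (s := W) (fun q => l₀ / 2 ≤ |l₁ q.1|)
  have h4 : (W.card : ℝ) = ((W.filter (fun q => l₀ / 2 ≤ |l₁ q.1|)).card : ℝ) +
      ((W.filter (fun q => ¬ l₀ / 2 ≤ |l₁ q.1|)).card : ℝ) := by exact_mod_cast h3.symm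
  rw [h4]
  calc _ ≤ C * (g : ℝ) ^ 2 * (B / (om * w)) + C * (g : ℝ) ^ 2 * (B / (om * w)) := add_le_add h1 h2
    _ = _ := by ring

end Pool.Agent.Helper92.GC
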