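import Pool.Agent.Helper92.GC.N10

/-!
# GC-N13: factorization of the quadratic form

`x, y, w > 0`, `y < x + w`; `θ_ε = (x y + ε Dl)/(x (w + x))` for `ε = ± 1`; `omg = θ_1 - θ_{-1}`.
PROOFS. `lam_wedge`: `(v₁ - θ v₂)(v'₁ - θ' v'₂) - (v₁ - θ' v₂)(v'₁ - θ v'₂) = (θ - θ')(v₁ v'₂ - v₂ v'₁)`.
`lam_window`. `x = dd b e`, `y = dd a e`, `w = dd a b` are positive integers, `x + w - y = dd (b - a) (e - a) > 0` (`dd_rel`). `z_a = zz β a` etc. For `ε = ± 1` put `Λ_ε = z_a - θ_ε z_b = lam ε Y - β lam ε X`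
(`X = (a.1, b.1)`, `Y = (a.2, b.2)`). (1) `θ_1 + θ_{-1} = 2y/(w+x)`, `θ_1 θ_{-1} = y (y - w)/(x (w+x))`, and `w z_e = y z_b - x z_a` (`dd_rel`), so
`x (w + x) Λ_1 Λ_{-1} = x(w+x) z_a² - 2xy z_a z_b + y(y-w) z_b² = w (x z_a² - y z_b² + w z_e²)`, hence `|Λ_1 Λ_{-1}| ≤ w 32 ρ d (x+y+w)/(x(w+x)) ≤ κ := 64 ρ d w/x`.
(2) `|Λ_1 - Λ_{-1}| = omg z_b`. (3) `star`: `20 w ≤ omg z_b²`. Let `l = max |Λ_1| |Λ_{-1}| = |Λ_ε|`. Then `l ≥ omg z_b/2 ≥ 10 w/z_b ≥ 10/(16ρ)`, `|Λ_{-ε}| ≤ κ/l`.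
Upper bound: `|θ_ε| ≤ y/(w+x) + √(y w (x+w-y)/x)/(w+x) ≤ 1 + √(w/x)/2`, `w ≤ y ≤ 520ρ²`, so `|θ_ε| ≤ 1 + 11.5ρ`, and `z_a, z_b ≤ 16ρ`: `l ≤ 16ρ(2 + 11.5ρ) ≤ 224ρ²`.
(4) `dd X Z = w` for `Z = (z_a, z_b)`: `a.1 z_b - b.1 z_a = w`, so `lam ε X = a.1 - θ_ε b.1 = (b.1/z_b) Λ_ε + w/z_b`, `|b.1| ≤ 8 z_b`: `|lam ε X| ≤ 8l + w/z_b ≤ 9l`.
`|lam (-ε) X| ≤ 8 κ/l + w/z_b`, and `l ≤ omg z_b + |Λ_{-ε}|`, so `(w/z_b) l ≤ omg w + |Λ_{-ε}| w/z_b ≤ omg w + |Λ_{-ε}| l/10 ≤ omg w + κ/10`: `|lam (-ε) X| ≤ (omg w + 9κ)/l`.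
(5) `lam ε Y = Λ_ε + β lam ε X`: `|lam ε Y| ≤ l + 4.5 l ≤ 9l`; `|lam (-ε) Y| ≤ κ/l + (omg w + 8.1 κ)/(2l) ≤ (omg w + 9κ)/l`. (6) `l = |Λ_ε| ≤ |lam ε Y| + |lam ε X|/2`, so one of them is at least `l/2`.
-/

open MeasureTheory Real Set Filter Topology

set_option autoImplicit false

namespace Pool.Agent.Helper92.GC

open Pool.Agent.Helper22.AE
open Pool.Agent.Helper22.AC (n6 IsWt mu)

/-- `√(x y w (x + w - y))` -/
noncomputable def Dl (x y w : ℝ) : ℝ := √(x * y * w * (x + w - y))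

/-- the linear factors of the form, `ε = ± 1` -/
noncomputable def lam (x y w ε : ℝ) : ℤ × ℤ →+ ℝ where
  toFun v := (v.1 : ℝ) - (x * y + ε * Dl x y w) / (x * (w + x)) * (v.2 : ℝ)
  map_zero' := by simp
  map_add' := by
    intro a b
    simp only [Prod.fst_add, Prod.snd_add, Int.cast_add]
    ring

/-- the determinant of the two factors -/
noncomputable def omg (x y w : ℝ) : ℝ := 2 * Dl x y w / (x * (w + x))

theorem lam_wedge {x y w ε : ℝ} (hx : 0 < x) (hw : 0 < w) (hε : ε = 1 ∨ ε = -1) (v v' : ℤ × ℤ) :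
    |lam x y w ε v * lam x y w (-ε) v' - lam x y w (-ε) v * lam x y w ε v'| = omg x y w * |(dd v v' : ℝ)| := by
  have hD : 0 ≤ Dl x y w := Real.sqrt_nonneg _
  have hom : 0 ≤ omg x y w := by
    unfold omg
    positivity
  have hxw : x * (w + x) ≠ 0 := by positivity
  have e : lam x y w ε v * lam x y w (-ε) v' - lam x y w (-ε) v * lam x y w ε v' =
      (ε * omg x y w) * (dd v v' : ℝ) := by
    change ((v.1 : ℝ) - (x * y + ε * Dl x y w) / (x * (w + x)) * (v.2 : ℝ)) *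
      ((v'.1 : ℝ) - (x * y + (-ε) * Dl x y w) / (x * (w + x)) * (v'.2 : ℝ)) -
      ((v.1 : ℝ) - (x * y + (-ε) * Dl x y w) / (x * (w + x)) * (v.2 : ℝ)) *
      ((v'.1 : ℝ) - (x * y + ε * Dl x y w) / (x * (w + x)) * (v'.2 : ℝ)) = _
    unfold omg dd
    push_cast
    field_simp
    ring
  rw [e, abs_mul, abs_mul, abs_of_nonneg hom]
  rcases hε with rfl | rfl <;> simp

theorem lam_window {β ρ s d : ℝ} (hβ : |β| ≤ 1 / 2) (hρ : 1 ≤ ρ) (hs : 0 < s) (hs1 : s ≤ 1) (hd : 0 < d)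
    {a b e : ℤ × ℤ} (h : Adq β ρ s d a b e) {x y w : ℝ} (hx : (dd b e : ℝ) = x) (hy : (dd a e : ℝ) = y)
    (hw : (dd a b : ℝ) = w) :
    ∃ ε : ℝ, (ε = 1 ∨ ε = -1) ∧ ∃ l : ℝ, 1 / (2 * ρ) ≤ l ∧ l ≤ 224 * ρ ^ 2 ∧
      |lam x y w ε (a.1, b.1)| ≤ 9 * l ∧ |lam x y w ε (a.2, b.2)| ≤ 9 * l ∧
      |lam x y w (-ε) (a.1, b.1)| ≤ (omg x y w * w + 576 * ρ * d * w / x) / l ∧
      |lam x y w (-ε) (a.2, b.2)| ≤ (omg x y w * w + 576 * ρ * d * w / x) / l ∧
      (l / 2 ≤ |lam x y w ε (a.1, b.1)| ∨ l / 2 ≤ |lam x y w ε (a.2, b.2)|) := by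
  obtain ⟨h0a, hab, hbe, hdw, hdy, hdx, hds⟩ := h.qq
  obtain ⟨r1, r2, r3⟩ := dd_rel a b e
  have hx1 : 1 ≤ x := by
    rw [← hx]
    exact_mod_cast (by omega : 1 ≤ dd b e)
  have hy1 : 1 ≤ y := by
    rw [← hy]
    exact_mod_cast (by omega : 1 ≤ dd a e)
  have hw1 : 1 ≤ w := by
    rw [← hw]
    exact_mod_cast (by omega : 1 ≤ dd a b)
  have hsw : 1 ≤ x + w - y := by
    rw [← hx, ← hy, ← hw]
    exact_mod_cast (by omega : 1 ≤ dd b e + dd a b - dd a e)
  have hquad := h.quad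
  have hstar := h.star
  have hle := h.le
  have hslb := h.slb
  have hwy : w ≤ y := by
    rw [← hw, ← hy]
    exact_mod_cast h.wy
  have hay := h.ay
  have hrel : x * zz β a - y * zz β b + w * zz β e = 0 := by
    have c1 : (dd b e : ℝ) * a.1 - dd a e * b.1 + dd a b * e.1 = 0 := by exact_mod_cast r1
    have c2 : (dd b e : ℝ) * a.2 - dd a e * b.2 + dd a b * e.2 = 0 := by exact_mod_cast r2
    rw [hx, hy, hw] at c1 c2
    unfold zz
    linear_combination c2 - β * c1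
  have hwX : (a.1 : ℝ) * zz β b - b.1 * zz β a = w := by
    rw [← hw]
    unfold dd zz
    push_cast
    ring
  have hXY : (a.2 : ℝ) = zz β a + β * a.1 ∧ (b.2 : ℝ) = zz β b + β * b.1 := by
    unfold zz
    constructor <;> ring
  rw [hx, hy, hw] at hquad hstar
  rw [hy] at hay
  generalize zz β a = za at *
  generalize zz β b = zb at *
  generalize zz β e = ze at *
  have hx0 : 0 < x := by linarith
  have hy0 : 0 < y := by linarith
  have hw0 : 0 < w := by linarith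
  have hρ0 : 0 < ρ := by linarith
  have hzb0 : 0 < zb := h0a.trans hab
  have hze0 : 0 < ze := hzb0.trans hbe
  have hze16 : ze ≤ 16 * ρ := hle.trans (mul_le_of_le_one_right (by positivity) hs1)
  have hzb16 : zb ≤ 16 * ρ := by linarith
  have hza16 : za ≤ 16 * ρ := by linarith
  have hD0 : 0 ≤ Dl x y w := Real.sqrt_nonneg _
  have hD2 : Dl x y w ^ 2 = x * y * w * (x + w - y) :=
    Real.sq_sqrt (mul_nonneg (by positivity) (by linarith))
  have hstar2 : 10 * w * x * (w + x) ≤ Dl x y w * zb ^ 2 := hstar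
  have hom0 : 0 ≤ omg x y w := by
    unfold omg
    positivity
  have hxw0 : 0 < x * (w + x) := by positivity
  have hom1 : omg x y w * (x * (w + x)) = 2 * Dl x y w := by
    unfold omg
    field_simp
  have hom2 : 20 * w ≤ omg x y w * zb ^ 2 := by
    have h1 : 20 * w * (x * (w + x)) ≤ omg x y w * zb ^ 2 * (x * (w + x)) := by
      calc 20 * w * (x * (w + x)) = 2 * (10 * w * x * (w + x)) := by ring
        _ ≤ 2 * (Dl x y w * zb ^ 2) := by linarith
        _ = (omg x y w * (x * (w + x))) * zb ^ 2 := by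
            rw [hom1]
            ring
        _ = _ := by ring
    exact le_of_mul_le_mul_right h1 hxw0
  -- the factors
  obtain ⟨T, hT⟩ : ∃ T : ℝ → ℝ, T = fun ε => (x * y + ε * Dl x y w) / (x * (w + x)) := ⟨_, rfl⟩
  have hlam : ∀ (ε : ℝ) (v : ℤ × ℤ), lam x y w ε v = (v.1 : ℝ) - T ε * v.2 := by
    intro ε v
    rw [hT]
    rfl
  have t0 : ∀ ε, T ε * (x * (w + x)) = x * y + ε * Dl x y w := by
    intro ε
    rw [hT]
    field_simp
  have tdiff : T 1 - T (-1) = omg x y w := by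
    have h1 : (T 1 - T (-1)) * (x * (w + x)) = omg x y w * (x * (w + x)) := by
      rw [hom1, sub_mul, t0, t0]
      ring
    exact mul_right_cancel₀ hxw0.ne' h1
  have t1 : x * (w + x) * (T 1 + T (-1)) = 2 * x * y := by
    have h1 := t0 1
    have h2 := t0 (-1)
    linear_combination h1 + h2
  have t2 : x * (w + x) * (T 1 * T (-1)) = y * (y - w) := by
    have h1 : (x * (w + x) * (T 1 * T (-1))) * (x * (w + x)) = (y * (y - w)) * (x * (w + x)) := by
      calc (x * (w + x) * (T 1 * T (-1))) * (x * (w + x)) =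
            (T 1 * (x * (w + x))) * (T (-1) * (x * (w + x))) := by ring
        _ = (x * y) ^ 2 - Dl x y w ^ 2 := by
            rw [t0, t0]
            ring
        _ = _ := by
            rw [hD2]
            ring
    exact mul_right_cancel₀ hxw0.ne' h1
  obtain ⟨L, hL⟩ : ∃ L : ℝ → ℝ, ∀ ε, L ε = za - T ε * zb := ⟨_, fun _ => rfl⟩
  have hprod : x * (w + x) * (L 1 * L (-1)) = w * (x * za ^ 2 - y * zb ^ 2 + w * ze ^ 2) := by
    have hwz : w * ze = y * zb - x * za := by linarith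
    have hw2 : w * (x * za ^ 2 - y * zb ^ 2 + w * ze ^ 2) =
        w * x * za ^ 2 - w * y * zb ^ 2 + (y * zb - x * za) ^ 2 := by
      rw [← hwz]
      ring
    have h1 : x * (w + x) * (L 1 * L (-1)) = x * (w + x) * za ^ 2 -
        (x * (w + x) * (T 1 + T (-1))) * za * zb + (x * (w + x) * (T 1 * T (-1))) * zb ^ 2 := by
      rw [hL, hL]
      ring
    rw [hw2, h1, t1, t2]
    ring
  obtain ⟨κ, hκ⟩ : ∃ κ : ℝ, κ = 64 * ρ * d * w / x := ⟨_, rfl⟩
  have hκ0 : 0 < κ := by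
    rw [hκ]
    positivity
  have hPκ : |L 1 * L (-1)| ≤ κ := by
    have h1 : x * (w + x) * |L 1 * L (-1)| ≤ w * (32 * ρ * d * (x + y + w)) := by
      calc x * (w + x) * |L 1 * L (-1)| = |x * (w + x) * (L 1 * L (-1))| := by
            rw [abs_mul (x * (w + x)), abs_of_pos hxw0]
        _ = w * |x * za ^ 2 - y * zb ^ 2 + w * ze ^ 2| := by
            rw [hprod, abs_mul w, abs_of_pos hw0]
        _ ≤ _ := mul_le_mul_of_nonneg_left hquad hw0.le
    have h2 : w * (32 * ρ * d * (x + y + w)) ≤ w * (32 * ρ * d * (2 * (w + x))) := by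
      refine mul_le_mul_of_nonneg_left ?_ hw0.le
      exact mul_le_mul_of_nonneg_left (by linarith) (by positivity)
    have h3 : (|L 1 * L (-1)| * x) * (w + x) ≤ (64 * ρ * d * w) * (w + x) := by
      calc (|L 1 * L (-1)| * x) * (w + x) = x * (w + x) * |L 1 * L (-1)| := by ring
        _ ≤ _ := h1.trans h2
        _ = _ := by ring
    rw [hκ, le_div_iff₀ hx0]
    exact le_of_mul_le_mul_right h3 (by positivity)
  have hLdiff : |L 1 - L (-1)| = omg x y w * zb := by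
    have h1 : L 1 - L (-1) = -(omg x y w * zb) := by
      rw [hL, hL, ← tdiff]
      ring
    rw [h1, abs_neg, abs_of_nonneg (by positivity)]
  obtain ⟨ε, hε, hmax, hP, hdf⟩ : ∃ ε : ℝ, (ε = 1 ∨ ε = -1) ∧ |L (-ε)| ≤ |L ε| ∧ |L ε * L (-ε)| ≤ κ ∧
      |L ε - L (-ε)| = omg x y w * zb := by
    rcases le_total |L (-1)| |L 1| with h1 | h1
    · exact ⟨1, Or.inl rfl, h1, hPκ, hLdiff⟩
    · refine ⟨-1, Or.inr rfl, ?_, ?_, ?_⟩
      · rwa [neg_neg]
      · rw [neg_neg, mul_comm]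
        exact hPκ
      · rw [neg_neg, abs_sub_comm]
        exact hLdiff
  have hεabs : |ε| = 1 := by
    rcases hε with rfl | rfl <;> simp
  obtain ⟨l, hl⟩ : ∃ l : ℝ, l = |L ε| := ⟨_, rfl⟩
  obtain ⟨l', hl'⟩ : ∃ l' : ℝ, l' = |L (-ε)| := ⟨_, rfl⟩
  have hl'0 : 0 ≤ l' := by
    rw [hl']
    exact abs_nonneg _
  have hl0' : 0 ≤ l := by
    rw [hl]
    exact abs_nonneg _
  have hll' : l' ≤ l := by
    rw [hl, hl']
    exact hmax
  have k1 : omg x y w * zb ≤ l + l' := by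
    rw [← hdf, hl, hl']
    exact abs_sub _ _
  have k1' : l ≤ omg x y w * zb + l' := by
    rw [← hdf, hl, hl']
    have h1 := abs_add_le (L ε - L (-ε)) (L (-ε))
    rwa [sub_add_cancel] at h1
  have k2 : 10 * w ≤ l * zb := by
    have h1 : omg x y w * zb ^ 2 ≤ (2 * l) * zb := by
      calc omg x y w * zb ^ 2 = (omg x y w * zb) * zb := by ring
        _ ≤ (2 * l) * zb := mul_le_mul_of_nonneg_right (by linarith) hzb0.le
    linarith
  have hl0 : 0 < l := by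
    by_contra hc
    have h1 : l * zb ≤ 0 := mul_nonpos_of_nonpos_of_nonneg (not_lt.1 hc) hzb0.le
    linarith
  have k3 : w / zb ≤ l / 10 := by
    rw [div_le_iff₀ hzb0]
    linarith
  have hwzb0 : 0 ≤ w / zb := by positivity
  have k4 : l' * l ≤ κ := by
    rw [hl, hl', mul_comm, ← abs_mul]
    exact hP
  have k5 : w / zb * l ≤ omg x y w * w + κ / 10 := by
    calc w / zb * l ≤ w / zb * (omg x y w * zb + l') := mul_le_mul_of_nonneg_left k1' hwzb0
      _ = omg x y w * w + l' * (w / zb) := by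
          field_simp
      _ ≤ omg x y w * w + l' * (l / 10) := by
          have := mul_le_mul_of_nonneg_left k3 hl'0
          linarith
      _ = omg x y w * w + (l' * l) / 10 := by ring
      _ ≤ _ := by linarith
  -- the first coordinates
  have hX : ∀ ε', |(a.1 : ℝ) - T ε' * b.1| ≤ 8 * |L ε'| + w / zb := by
    intro ε'
    have h1 : (a.1 : ℝ) - T ε' * b.1 = (b.1 : ℝ) / zb * L ε' + w / zb := by
      rw [hL, ← hwX]
      field_simp
      ring
    have h2 : |(b.1 : ℝ) / zb| ≤ 8 := by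
      rw [abs_div, abs_of_pos hzb0, div_le_iff₀ hzb0]
      exact hslb
    rw [h1]
    refine (abs_add_le _ _).trans ?_
    rw [abs_mul, abs_of_nonneg hwzb0]
    have := mul_le_mul_of_nonneg_right h2 (abs_nonneg (L ε'))
    linarith
  have hY : ∀ ε', (a.2 : ℝ) - T ε' * b.2 = L ε' + β * ((a.1 : ℝ) - T ε' * b.1) := by
    intro ε'
    rw [hL, hXY.1, hXY.2]
    ring
  have eX : ∀ ε', lam x y w ε' (a.1, b.1) = (a.1 : ℝ) - T ε' * b.1 := fun ε' => hlam ε' _
  have eY : ∀ ε', lam x y w ε' (a.2, b.2) = (a.2 : ℝ) - T ε' * b.2 := fun ε' => hlam ε' _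
  have h9 : 576 * ρ * d * w / x = 9 * κ := by
    rw [hκ]
    ring
  -- bound of `T`
  have hTb : |T ε| ≤ 1 + 23 / 2 * ρ := by
    have hw520 : w ≤ 520 * ρ ^ 2 := by
      have h1 : s ^ 3 ≤ 1 := pow_le_one₀ hs.le hs1
      have h2 : 520 * ρ ^ 2 * s ^ 3 ≤ 520 * ρ ^ 2 * 1 := mul_le_mul_of_nonneg_left h1 (by positivity)
      linarith
    have hDb : Dl x y w ≤ 23 / 2 * ρ * (x * (w + x)) := by
      refine le_of_sq_le_sq ?_ (by positivity)
      rw [hD2]
      have h1 : y * (x + w - y) ≤ (w + x) ^ 2 / 4 := by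
        have h3 : (w + x) ^ 2 / 4 - y * (x + w - y) = (x + w - 2 * y) ^ 2 / 4 := by ring
        have h4 := sq_nonneg (x + w - 2 * y)
        linarith
      have h2 : w ≤ 520 * ρ ^ 2 * x := by
        calc w ≤ 520 * ρ ^ 2 * 1 := by linarith
          _ ≤ 520 * ρ ^ 2 * x := mul_le_mul_of_nonneg_left hx1 (by positivity)
      calc x * y * w * (x + w - y) = x * w * (y * (x + w - y)) := by ring
        _ ≤ x * w * ((w + x) ^ 2 / 4) := mul_le_mul_of_nonneg_left h1 (by positivity)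
        _ = w * (x * ((w + x) ^ 2 / 4)) := by ring
        _ ≤ (520 * ρ ^ 2 * x) * (x * ((w + x) ^ 2 / 4)) := mul_le_mul_of_nonneg_right h2 (by positivity)
        _ = 130 * (ρ * (x * (w + x))) ^ 2 := by ring
        _ ≤ (23 / 2 * ρ * (x * (w + x))) ^ 2 := by
            have h3 : (23 / 2 * ρ * (x * (w + x))) ^ 2 = 529 / 4 * (ρ * (x * (w + x))) ^ 2 := by ring
            have h4 : 0 ≤ (ρ * (x * (w + x))) ^ 2 := sq_nonneg _
            rw [h3]
            linarith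
    have h1 : |T ε| * (x * (w + x)) ≤ (1 + 23 / 2 * ρ) * (x * (w + x)) := by
      calc |T ε| * (x * (w + x)) = |T ε * (x * (w + x))| := by
            rw [abs_mul, abs_of_pos hxw0]
        _ = |x * y + ε * Dl x y w| := by rw [t0]
        _ ≤ |x * y| + |ε * Dl x y w| := abs_add_le _ _
        _ = x * y + Dl x y w := by
            rw [abs_mul ε, hεabs, one_mul, abs_of_nonneg hD0, abs_of_pos (by positivity)]
        _ ≤ x * (w + x) + 23 / 2 * ρ * (x * (w + x)) := by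
            have : x * y ≤ x * (w + x) := mul_le_mul_of_nonneg_left (by linarith) hx0.le
            linarith
        _ = _ := by ring
    exact le_of_mul_le_mul_right h1 hxw0
  have hlup : l ≤ 224 * ρ ^ 2 := by
    have h1 : l ≤ za + |T ε| * zb := by
      rw [hl, hL]
      refine (abs_sub _ _).trans ?_
      rw [abs_of_pos h0a, abs_mul, abs_of_pos hzb0]
    have h2 : |T ε| * zb ≤ (1 + 23 / 2 * ρ) * (16 * ρ) :=
      mul_le_mul hTb hzb16 hzb0.le (by positivity)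
    have h3 : (1 + 23 / 2 * ρ) * (16 * ρ) = 16 * ρ + 184 * ρ ^ 2 := by ring
    have h4 : ρ ≤ ρ ^ 2 := le_self_pow₀ hρ (by norm_num)
    linarith
  have bX : |(a.1 : ℝ) - T ε * b.1| ≤ 81 / 10 * l := by
    have h1 := hX ε
    rw [← hl] at h1
    linarith
  have hbX : |β * ((a.1 : ℝ) - T ε * b.1)| ≤ |(a.1 : ℝ) - T ε * b.1| / 2 := by
    rw [abs_mul]
    have := mul_le_mul_of_nonneg_right hβ (abs_nonneg ((a.1 : ℝ) - T ε * b.1))
    linarith
  have bX' : |(a.1 : ℝ) - T (-ε) * b.1| * l ≤ omg x y w * w + 81 / 10 * κ := by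
    have h1 := hX (-ε)
    rw [← hl'] at h1
    have h2 := mul_le_mul_of_nonneg_right h1 hl0'
    have h3 : (8 * l' + w / zb) * l = 8 * (l' * l) + w / zb * l := by ring
    linarith
  refine ⟨ε, hε, l, ?_, hlup, ?_, ?_, ?_, ?_, ?_⟩
  · rw [div_le_iff₀ (by positivity)]
    have h1 : l * zb ≤ l * (16 * ρ) := mul_le_mul_of_nonneg_left hzb16 hl0'
    have h2 : l * (16 * ρ) = 8 * (l * (2 * ρ)) := by ring
    linarith
  · rw [eX]
    linarith
  · rw [eY, hY]
    refine (abs_add_le _ _).trans ?_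
    rw [← hl]
    linarith
  · rw [eX, h9, le_div_iff₀ hl0]
    linarith
  · rw [eY, hY, h9, le_div_iff₀ hl0]
    have h1 : |β * ((a.1 : ℝ) - T (-ε) * b.1)| ≤ |(a.1 : ℝ) - T (-ε) * b.1| / 2 := by
      rw [abs_mul]
      have := mul_le_mul_of_nonneg_right hβ (abs_nonneg ((a.1 : ℝ) - T (-ε) * b.1))
      linarith
    have h2 : |L (-ε) + β * ((a.1 : ℝ) - T (-ε) * b.1)| ≤ l' + |(a.1 : ℝ) - T (-ε) * b.1| / 2 := by
      rw [hl']
      exact (abs_add_le _ _).trans (by linarith)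
    have h3 := mul_le_mul_of_nonneg_right h2 hl0'
    have h4 : 0 ≤ omg x y w * w := by positivity
    have h5 : (l' + |(a.1 : ℝ) - T (-ε) * b.1| / 2) * l = l' * l + (|(a.1 : ℝ) - T (-ε) * b.1| * l) / 2 := by
      ring
    linarith
  · by_contra hc
    rw [not_or, not_le, not_le, eX, eY, hY] at hc
    obtain ⟨c1, c2⟩ := hc
    have h1 : l ≤ |L ε + β * ((a.1 : ℝ) - T ε * b.1)| + |β * ((a.1 : ℝ) - T ε * b.1)| := by
      rw [hl]
      have h2 := abs_sub (L ε + β * ((a.1 : ℝ) - T ε * b.1)) (β * ((a.1 : ℝ) - T ε * b.1))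
      rwa [add_sub_cancel_right] at h2
    linarith

end Pool.Agent.Helper92.GC
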