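import Pool.Agent.Helper92.GC.N12
import Pool.Agent.Helper92.GC.N13

/-!
# GC-N14: the number of quadruples with given areas

PROOF. `(a, b, e)` is determined by `(X, Y) = ((a.1, b.1), (a.2, b.2))` because `w e = y b - x a` (`dd_rel`); `X, Y ∈ Gam x y w`, `dd X Y = w`. We may assume `S` is non empty; then `w ≤ y` (`Adq.wy`). By `lam_window` every
element of `S` has `ε = ± 1` and `l ∈ [1/(2ρ), 224ρ²]`; let `i` be the natural number with `2^i/(2ρ) ≤ l < 2^(i+1)/(2ρ)`: `2^i ≤ 448 ρ³`, so `i ≤ 13 + 5 log ρ`. For given `ε`, `i` apply `pair_count` with `l₀ = 2^i/(2ρ)`,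
`l₁ = lam x y w ε`, `l₂ = lam x y w (-ε)`, `om = omg x y w`, `B = omg w + 576 ρ d w/x`, `G = Gam x y w`, `g = gcd(x, gcd(y, w))` (`gam_wedge`): at most `C g² B/(omg w)` elements, and
`B/(omg w) = 1 + 576ρd/(x omg) = 1 + 288 ρ d (w + x)/Dl ≤ 1 + 576 ρ d max(x,y)/Dl`. Sum over `ε`, `i`.
-/

open MeasureTheory Real Set Filter Topology

set_option autoImplicit false

namespace Pool.Agent.Helper92.GC

open Pool.Agent.Helper22.AE
open Pool.Agent.Helper22.AC (n6 IsWt mu)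

/-- the sign of a class -/
private noncomputable def sg88 (b : Bool) : ℝ := if b then 1 else -1

private theorem sg_cases88 (b : Bool) : sg88 b = 1 ∨ sg88 b = -1 := by
  cases b <;> simp [sg88]

/-- the property of the elements of the class `(b, i)` -/
private def Cl88 (ρ x y w B : ℝ) (c : Bool × ℕ) (q : (ℤ × ℤ) × (ℤ × ℤ) × (ℤ × ℤ)) : Prop :=
  ((2 ^ c.2 / (2 * ρ)) / 2 ≤ |lam x y w (sg88 c.1) (q.1.1, q.2.1.1)| ∨
    (2 ^ c.2 / (2 * ρ)) / 2 ≤ |lam x y w (sg88 c.1) (q.1.2, q.2.1.2)|) ∧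
  |lam x y w (sg88 c.1) (q.1.1, q.2.1.1)| ≤ 18 * (2 ^ c.2 / (2 * ρ)) ∧
  |lam x y w (sg88 c.1) (q.1.2, q.2.1.2)| ≤ 18 * (2 ^ c.2 / (2 * ρ)) ∧
  |lam x y w (-(sg88 c.1)) (q.1.1, q.2.1.1)| ≤ B / (2 ^ c.2 / (2 * ρ)) ∧
  |lam x y w (-(sg88 c.1)) (q.1.2, q.2.1.2)| ≤ B / (2 ^ c.2 / (2 * ρ))

private theorem cls88 {β ρ s d : ℝ} (hβ : |β| ≤ 1 / 2) (hρ : 1 ≤ ρ) (hs : 0 < s) (hs1 : s ≤ 1)
    (hd : 0 < d) {x y w : ℝ} (hx : 0 < x) (hw : 0 < w) (hom : 0 ≤ omg x y w)
    {q : (ℤ × ℤ) × (ℤ × ℤ) × (ℤ × ℤ)} (h : Adq β ρ s d q.1 q.2.1 q.2.2)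
    (h1 : (dd q.2.1 q.2.2 : ℝ) = x) (h2 : (dd q.1 q.2.2 : ℝ) = y) (h3 : (dd q.1 q.2.1 : ℝ) = w) :
    ∃ c : Bool × ℕ, c.2 < ⌊9 + 5 * log ρ⌋₊ + 1 ∧
      Cl88 ρ x y w (omg x y w * w + 576 * ρ * d * w / x) c q := by
  obtain ⟨ε, hε, l, hl1, hl2, k1, k2, k3, k4, k5⟩ := lam_window hβ hρ hs hs1 hd h h1 h2 h3
  have hρ0 : 0 < ρ := by linarith
  have hl0 : 0 < l := lt_of_lt_of_le (by positivity) hl1
  have h4 : 1 ≤ 2 * ρ * l := by
    rw [div_le_iff₀ (by positivity)] at hl1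
    linarith
  obtain ⟨i, hi1, hi2⟩ := exists_nat_pow_near h4 (one_lt_two (α := ℝ))
  have hB : 0 ≤ omg x y w * w + 576 * ρ * d * w / x := by positivity
  have hli : 2 ^ i / (2 * ρ) ≤ l := by
    rw [div_le_iff₀ (by positivity)]
    linarith
  have hli2 : l ≤ 2 * (2 ^ i / (2 * ρ)) := by
    rw [← mul_div_assoc, le_div_iff₀ (by positivity)]
    rw [pow_succ] at hi2
    linarith
  have hp : (0 : ℝ) < 2 ^ i / (2 * ρ) := by positivity
  have hb : ∃ b : Bool, sg88 b = ε := by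
    rcases hε with rfl | rfl
    · exact ⟨true, by simp [sg88]⟩
    · exact ⟨false, by simp [sg88]⟩
  obtain ⟨b, hb⟩ := hb
  refine ⟨(b, i), ?_, ?_⟩
  · have h5 : (2 : ℝ) ^ i ≤ 2 ^ 9 * ρ ^ 3 := by
      have h6 : 2 * ρ * l ≤ 2 * ρ * (224 * ρ ^ 2) := by
        apply mul_le_mul_of_nonneg_left hl2
        positivity
      have h7 : (0 : ℝ) < ρ ^ 3 := by positivity
      linarith
    have h6 := Real.log_le_log (by positivity) h5
    rw [Real.log_pow, Real.log_mul (by positivity) (by positivity), Real.log_pow,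
      Real.log_pow] at h6
    push_cast at h6
    have h7 := Real.log_two_gt_d9
    have h8 : 0 ≤ log ρ := Real.log_nonneg hρ
    have h9 : (i : ℝ) ≤ 9 + 5 * log ρ := by
      by_contra hcon
      push Not at hcon
      have h10 : 0 < log 2 := by linarith
      have h11 : (9 + 5 * log ρ) * log 2 < i * log 2 := by
        exact mul_lt_mul_of_pos_right hcon h10
      nlinarith
    have h10 : i ≤ ⌊9 + 5 * log ρ⌋₊ := Nat.le_floor h9
    show i < _
    omega
  · unfold Cl88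
    simp only
    rw [hb]
    refine ⟨?_, ?_, ?_, ?_, ?_⟩
    · rcases k5 with k5 | k5
      · left; linarith
      · right; linarith
    · linarith
    · linarith
    · exact k3.trans (div_le_div_of_nonneg_left hB hp hli)
    · exact k4.trans (div_le_div_of_nonneg_left hB hp hli)

theorem quad_count : ∃ C : ℝ, 0 < C ∧ ∀ β ρ s d : ℝ, |β| ≤ 1 / 2 → 1 ≤ ρ → 0 < s → s ≤ 1 → 0 < d → ∀ x y w : ℕ,
    1 ≤ x → 1 ≤ y → 1 ≤ w → y < x + w → ∀ S : Finset ((ℤ × ℤ) × (ℤ × ℤ) × (ℤ × ℤ)),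
      (∀ q ∈ S, Adq β ρ s d q.1 q.2.1 q.2.2 ∧ dd q.2.1 q.2.2 = x ∧ dd q.1 q.2.2 = y ∧ dd q.1 q.2.1 = w) →
        (S.card : ℝ) ≤ C * (1 + log ρ) * ((Nat.gcd x (Nat.gcd y w) : ℕ) : ℝ) ^ 2 *
          (1 + ρ * d * max (x : ℝ) y / Dl x y w) := by
  classical
  obtain ⟨C, hC, hP⟩ := pair_count
  refine ⟨11520 * C, by positivity, ?_⟩
  intro β ρ s d hβ hρ hs hs1 hd x y w hx hy hw hyxw S hS
  have hρ0 : 0 < ρ := by linarith
  have hlog : 0 ≤ log ρ := Real.log_nonneg hρ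
  have hx' : (1 : ℝ) ≤ x := by exact_mod_cast hx
  have hy' : (1 : ℝ) ≤ y := by exact_mod_cast hy
  have hw' : (1 : ℝ) ≤ w := by exact_mod_cast hw
  have hyxw' : (y : ℝ) < x + w := by exact_mod_cast hyxw
  have hDl : 0 < Dl x y w := by
    unfold Dl
    apply Real.sqrt_pos.2
    have : (0 : ℝ) < x + w - y := by linarith
    positivity
  have hmax : (0 : ℝ) < max (x : ℝ) y := lt_of_lt_of_le (by linarith) (le_max_left _ _)
  rcases S.eq_empty_or_nonempty with rfl | ⟨q0, hq0⟩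
  · rw [Finset.card_empty, Nat.cast_zero]
    positivity
  have hwy : (w : ℝ) ≤ y := by
    obtain ⟨h1, h2, h3, h4⟩ := hS q0 hq0
    have := h1.wy
    rw [h3, h4] at this
    exact_mod_cast this
  have hom : 0 < omg x y w := by
    unfold omg
    positivity
  set g : ℕ := Nat.gcd x (Nat.gcd y w) with hg
  have hg1 : 1 ≤ g := Nat.gcd_pos_of_pos_left _ hx
  set B : ℝ := omg x y w * w + 576 * ρ * d * w / x with hB
  have hBom : omg x y w * w ≤ B := by
    rw [hB]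
    have : 0 ≤ 576 * ρ * d * w / x := by positivity
    linarith
  have hwedge : ∀ v ∈ Gam x y w, ∀ v' ∈ Gam x y w, (w : ℤ) ∣ g * dd v v' := by
    intro v hv v' hv'
    have h1 := gam_wedge hv hv'
    rw [Int.gcd_natCast_natCast, Int.gcd_natCast_natCast] at h1
    exact h1
  set N : ℕ := ⌊9 + 5 * log ρ⌋₊ + 1 with hN
  have key : ∀ q ∈ S, ∃ c : Bool × ℕ, c.2 < N ∧ Cl88 ρ x y w B c q := by
    intro q hq
    obtain ⟨h1, h2, h3, h4⟩ := hS q hq
    exact cls88 hβ hρ hs hs1 hd (by linarith) (by linarith) hom.le h1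
      (by rw [h2]; simp) (by rw [h3]; simp) (by rw [h4]; simp)
  choose! f hf1 hf2 using key
  have hcard : S.card = ∑ c ∈ (Finset.univ : Finset Bool) ×ˢ Finset.range N,
      (S.filter (fun q => f q = c)).card := by
    refine Finset.card_eq_sum_card_fiberwise ?_
    intro q hq
    simp only [Finset.coe_product, Finset.coe_univ, Finset.coe_range, Set.mem_prod, Set.mem_univ,
      true_and, Set.mem_Iio]
    exact hf1 q hq
  have hfib : ∀ c ∈ (Finset.univ : Finset Bool) ×ˢ Finset.range N,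
      ((S.filter (fun q => f q = c)).card : ℝ) ≤ C * (g : ℝ) ^ 2 * (B / (omg x y w * w)) := by
    intro c _
    set F : (ℤ × ℤ) × (ℤ × ℤ) × (ℤ × ℤ) → (ℤ × ℤ) × (ℤ × ℤ) :=
      fun q => ((q.1.1, q.2.1.1), (q.1.2, q.2.1.2)) with hF
    have hinj : Set.InjOn F (S.filter (fun q => f q = c) : Finset _) := by
      intro q hq q' hq' hqq
      have hq1 := (Finset.mem_filter.1 (Finset.mem_coe.1 hq)).1
      have hq1' := (Finset.mem_filter.1 (Finset.mem_coe.1 hq')).1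
      obtain ⟨-, h2, h3, h4⟩ := hS q hq1
      obtain ⟨-, h2', h3', h4'⟩ := hS q' hq1'
      obtain ⟨⟨a1, a2⟩, ⟨b1, b2⟩, ⟨e1, e2⟩⟩ := q
      obtain ⟨⟨a1', a2'⟩, ⟨b1', b2'⟩, ⟨e1', e2'⟩⟩ := q'
      simp only [hF, Prod.mk.injEq] at hqq
      obtain ⟨⟨rfl, rfl⟩, rfl, rfl⟩ := hqq
      obtain ⟨r1, r2, -⟩ := dd_rel (a1, a2) (b1, b2) (e1, e2)
      obtain ⟨r1', r2', -⟩ := dd_rel (a1, a2) (b1, b2) (e1', e2')
      simp only at h2 h3 h4 h2' h3' h4' r1 r2 r1' r2'
      rw [h2, h3, h4] at r1 r2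
      rw [h2', h3', h4'] at r1' r2'
      have hw0 : (w : ℤ) ≠ 0 := by exact_mod_cast (by omega : w ≠ 0)
      have s1 : e1 = e1' := by
        apply mul_left_cancel₀ hw0
        linarith
      have s2 : e2 = e2' := by
        apply mul_left_cancel₀ hw0
        linarith
      rw [s1, s2]
    rw [← Finset.card_image_of_injOn hinj]
    refine hP (Gam x y w) w g (lam x y w (sg88 c.1)) (lam x y w (-(sg88 c.1))) (omg x y w) B
      (2 ^ c.2 / (2 * ρ)) hw hg1 hom (by positivity) hBom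
      (fun v v' => lam_wedge (by linarith) (by linarith) (sg_cases88 c.1) v v') hwedge _ ?_
    intro p hp
    obtain ⟨q, hq, rfl⟩ := Finset.mem_image.1 hp
    obtain ⟨hq1, hq2⟩ := Finset.mem_filter.1 hq
    have h5 := hf2 q hq1
    rw [hq2] at h5
    obtain ⟨-, h2, h3, h4⟩ := hS q hq1
    obtain ⟨r1, r2, -⟩ := dd_rel q.1 q.2.1 q.2.2
    rw [h2, h3, h4] at r1 r2
    obtain ⟨k1, k2, k3, k4, k5⟩ := h5
    refine ⟨?_, ?_, ?_, k1, k2, k3, k4, k5⟩
    · show (w : ℤ) ∣ (y : ℤ) * q.2.1.1 - x * q.1.1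
      exact ⟨q.2.2.1, by linarith⟩
    · show (w : ℤ) ∣ (y : ℤ) * q.2.1.2 - x * q.1.2
      exact ⟨q.2.2.2, by linarith⟩
    · rw [← h4]
      simp only [hF, dd]
      ring
  have hbound : B / (omg x y w * w) ≤ 576 * (1 + ρ * d * max (x : ℝ) y / Dl x y w) := by
    have e1 : B / (omg x y w * w) = 1 + 288 * (ρ * d * (w + x) / Dl x y w) := by
      rw [hB]
      unfold omg
      have hx0 : (x : ℝ) ≠ 0 := by linarith
      have hw0 : (w : ℝ) ≠ 0 := by linarith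
      have hwx : (w : ℝ) + x ≠ 0 := by linarith
      have hD := hDl.ne'
      field_simp
      ring
    rw [e1]
    have h1 : ρ * d * (w + x) / Dl x y w ≤ 2 * (ρ * d * max (x : ℝ) y / Dl x y w) := by
      rw [← mul_div_assoc]
      apply div_le_div_of_nonneg_right _ hDl.le
      have h2 : (w : ℝ) + x ≤ 2 * max (x : ℝ) y := by
        have := le_max_left (x : ℝ) y
        have := le_max_right (x : ℝ) y
        linarith
      have h3 : 0 ≤ ρ * d := by positivity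
      linarith [mul_le_mul_of_nonneg_left h2 h3]
    linarith
  have hNle : (N : ℝ) ≤ 10 * (1 + log ρ) := by
    rw [hN]
    push_cast
    have := Nat.floor_le (show 0 ≤ 9 + 5 * log ρ by positivity)
    linarith
  have hb0 : 0 ≤ B / (omg x y w * w) := by positivity
  calc (S.card : ℝ) = ∑ c ∈ (Finset.univ : Finset Bool) ×ˢ Finset.range N,
      ((S.filter (fun q => f q = c)).card : ℝ) := by rw [hcard]; push_cast; rfl
    _ ≤ ∑ c ∈ (Finset.univ : Finset Bool) ×ˢ Finset.range N,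
        C * (g : ℝ) ^ 2 * (B / (omg x y w * w)) := Finset.sum_le_sum hfib
    _ = (2 * N) * (C * (g : ℝ) ^ 2 * (B / (omg x y w * w))) := by
        rw [Finset.sum_const, Finset.card_product, Finset.card_univ, Finset.card_range,
          Fintype.card_bool, nsmul_eq_mul]
        push_cast
        ring
    _ ≤ (20 * (1 + log ρ)) *
        (C * (g : ℝ) ^ 2 * (576 * (1 + ρ * d * max (x : ℝ) y / Dl x y w))) := by
        apply mul_le_mul
        · linarith
        · exact mul_le_mul_of_nonneg_left hbound (by positivity)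
        · positivity
        · positivity
    _ = _ := by ring

end Pool.Agent.Helper92.GC
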