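import Pool.Agent.Helper92.GC.N1

/-!
# GC-N2: collinear triples

PROOF of `col_dir`. `a = m₁ - m`, `b = m₂ - m`, distinct and non zero, `dd a b = 0`. Let `g` be the primitive vector with `a = x g`, `b = y g`, `x, y` integers, distinct, non zero, and the sign of `g` chosen such
that `z = zz β g > 0` (`zz β a ≠ 0` by `near_sep`). `near_area`: `z³ |x y (y - x)|/(4R) ≤ 2 d z (|x| + |y|)`, and `|x y (y-x)| ≥ (2/3)(|x| + |y|)` for distinct non zero integers (same sign,
`1 ≤ |x| < |y|`: `|x||y|(|y|-|x|) ≥ |y|(|y|-1)` and `(2/3)(2|y| - 1) ≤ |y|(|y|-1)` for `|y| ≥ 2`; opposite signs: `|x||y|(|x|+|y|) ≥ |x|+|y|`). So `z² ≤ 12 d R ≤ 48 d ρ`.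
`near_slope` for `a`: `|x g.1 + t₀ x z| ≤ s |x| z + 2d`, divide by `|x| z`.
PROOF of `dir_unique`: `tg β g - tg β g' = -(dd g g')/(z z')`. If `dd g g' ≠ 0` then `1 ≤ z z' (|tg β g - t₀| + |tg β g' - t₀|) ≤ z z' (2s + 2d/z + 2d/z') ≤ 2s · 48dρ + 4d √(48dρ)`
`≤ 96 s d ρ + 4 √(48 d³ρ) < 1`. So `dd g g' = 0`, `g = ±g'` (both primitive), and `zz > 0` for both gives `g = g'`.
-/

open MeasureTheory Real Set Filter Topology

set_option autoImplicit false

namespace Pool.Agent.Helper92.GC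

open Pool.Agent.Helper22.AE
open Pool.Agent.Helper22.AC (n6 IsWt mu)

/-- the slope of the tangent parallel to `g` -/
noncomputable def tg (β : ℝ) (g : ℤ × ℤ) : ℝ := -(g.1 : ℝ) / zz β g

/-- `g` is a direction of collinear triples near the arc at `t₀` -/
structure IsDir (β ρ t₀ s d : ℝ) (g : ℤ × ℤ) : Prop where
  cop : IsCoprime g.1 g.2
  pos : 0 < zz β g
  le : zz β g ≤ √(48 * d * ρ)
  close : |tg β g - t₀| ≤ s + 2 * d / zz β g

private theorem prim41 {g b : ℤ × ℤ} (hg : IsCoprime g.1 g.2) (h : g.1 * b.2 = g.2 * b.1) :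
    ∃ y : ℤ, b.1 = y * g.1 ∧ b.2 = y * g.2 := by
  obtain ⟨u, v, huv⟩ := hg
  refine ⟨u * b.1 + v * b.2, ?_, ?_⟩
  · linear_combination (-b.1) * huv - v * h
  · linear_combination (-b.2) * huv + u * h

/-- a primitive vector in the direction of a non zero vector, oriented by `zz` -/
private theorem dir41 {β : ℝ} {a : ℤ × ℤ} (ha : zz β a ≠ 0) :
    ∃ (g : ℤ × ℤ) (x : ℤ), IsCoprime g.1 g.2 ∧ 0 < zz β g ∧ a.1 = x * g.1 ∧ a.2 = x * g.2 := by
  have h0 : 0 < Int.gcd a.1 a.2 := by
    rw [Nat.pos_iff_ne_zero]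
    intro h
    rw [Int.gcd_eq_zero_iff] at h
    apply ha
    unfold zz
    rw [h.1, h.2]
    simp
  obtain ⟨p, q, hpq, hp, hq⟩ := Int.exists_gcd_one h0
  have hcop : IsCoprime p q := Int.isCoprime_iff_gcd_eq_one.2 hpq
  generalize (Int.gcd a.1 a.2 : ℤ) = n at hp hq
  have hz : zz β a = n * zz β (p, q) := by
    unfold zz
    rw [hp, hq]
    push_cast
    ring
  have hz0 : zz β (p, q) ≠ 0 := by
    intro h
    apply ha
    rw [hz, h, mul_zero]
  rcases lt_or_gt_of_ne hz0 with h | h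
  · refine ⟨(-p, -q), -n, hcop.neg_neg, ?_, ?_, ?_⟩
    · unfold zz at h ⊢
      push_cast
      dsimp only at h ⊢
      linarith
    · change a.1 = -n * -p
      rw [neg_mul_neg, mul_comm]
      exact hp
    · change a.2 = -n * -q
      rw [neg_mul_neg, mul_comm]
      exact hq
  · refine ⟨(p, q), n, hcop, h, ?_, ?_⟩
    · change a.1 = n * p
      rw [mul_comm]
      exact hp
    · change a.2 = n * q
      rw [mul_comm]
      exact hq

private theorem int41a {X k : ℤ} (hX : 1 ≤ X) (hk : 1 ≤ k) : 2 * (X + (X + k)) ≤ 3 * (X * (X + k) * k) := by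
  obtain ⟨p, rfl⟩ : ∃ p, X = 1 + p := ⟨X - 1, by ring⟩
  obtain ⟨q, rfl⟩ : ∃ q, k = 1 + q := ⟨k - 1, by ring⟩
  have hp : 0 ≤ p := by linarith
  have hq : 0 ≤ q := by linarith
  have e : 3 * ((1 + p) * ((1 + p) + (1 + q)) * (1 + q)) - 2 * ((1 + p) + ((1 + p) + (1 + q))) =
      5 * p + 7 * q + 3 * (p + q) ^ 2 + 3 * (p * q * (2 + p + q)) := by ring
  have h : 0 ≤ 5 * p + 7 * q + 3 * (p + q) ^ 2 + 3 * (p * q * (2 + p + q)) := by positivity
  linarith

private theorem int41b {X Y : ℤ} (hX : 1 ≤ X) (hY : 1 ≤ Y) : 2 * (X + Y) ≤ 3 * (X * Y * (X + Y)) := by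
  have h1 : 1 ≤ X * Y := by nlinarith
  nlinarith

private theorem int41 {x y : ℤ} (hx : x ≠ 0) (hy : y ≠ 0) (hxy : x ≠ y) :
    2 * (|x| + |y|) ≤ 3 * |x * y * (y - x)| := by
  rw [abs_mul, abs_mul]
  rcases lt_or_gt_of_ne hx with h1 | h1 <;> rcases lt_or_gt_of_ne hy with h2 | h2 <;>
    rcases lt_or_gt_of_ne hxy with h3 | h3
  · rw [abs_of_neg h1, abs_of_neg h2, abs_of_pos (by linarith : 0 < y - x)]
    have := int41a (X := -y) (k := y - x) (by linarith) (by linarith)
    have e : -y + (y - x) = -x := by ring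
    rw [e] at this
    linarith
  · rw [abs_of_neg h1, abs_of_neg h2, abs_of_neg (by linarith : y - x < 0)]
    have := int41a (X := -x) (k := x - y) (by linarith) (by linarith)
    have e : -x + (x - y) = -y := by ring
    rw [e] at this
    linarith
  · rw [abs_of_neg h1, abs_of_pos h2, abs_of_pos (by linarith : 0 < y - x)]
    have := int41b (X := -x) (Y := y) (by linarith) (by linarith)
    linarith
  · linarith
  · linarith
  · rw [abs_of_pos h1, abs_of_neg h2, abs_of_neg (by linarith : y - x < 0)]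
    have := int41b (X := x) (Y := -y) (by linarith) (by linarith)
    linarith
  · rw [abs_of_pos h1, abs_of_pos h2, abs_of_pos (by linarith : 0 < y - x)]
    have := int41a (X := x) (k := y - x) (by linarith) (by linarith)
    have e : x + (y - x) = y := by ring
    rw [e] at this
    linarith
  · rw [abs_of_pos h1, abs_of_pos h2, abs_of_neg (by linarith : y - x < 0)]
    have := int41a (X := y) (k := x - y) (by linarith) (by linarith)
    have e : y + (x - y) = x := by ring
    rw [e] at this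
    linarith

theorem col_dir {β ρ t₀ s d R : ℝ} {c : ℝ × ℝ} (h : Par β ρ t₀ s d) (h1 : ρ / 2 ≤ R) (h2 : R ≤ 4 * ρ) {m m₁ m₂ : ℤ × ℤ}
    (hm : m ∈ near β R t₀ s d c) (hm₁ : m₁ ∈ near β R t₀ s d c) (hm₂ : m₂ ∈ near β R t₀ s d c) (h01 : m ≠ m₁)
    (h02 : m ≠ m₂) (h12 : m₁ ≠ m₂) (h0 : dd (m₁ - m) (m₂ - m) = 0) :
    ∃ g, IsDir β ρ t₀ s d g ∧ dd (m₁ - m) g = 0 ∧ dd (m₂ - m) g = 0 := by
  have hR : 0 < R := by linarith [h.hρ]
  have hd := h.hd
  have s1 := near_sep h hR hm hm₁ h01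
  have s2 := near_sep h hR hm hm₂ h02
  have hA := near_area hR hm hm₁ hm₂
  have hS := near_slope hR hm hm₁
  have hab : m₁ - m ≠ m₂ - m := fun e => h12 (sub_left_injective e)
  generalize m₁ - m = a at *
  generalize m₂ - m = b at *
  have za0 : zz β a ≠ 0 := by
    intro e
    rw [e, abs_zero] at s1
    linarith
  have zb0 : zz β b ≠ 0 := by
    intro e
    rw [e, abs_zero] at s2
    linarith
  obtain ⟨g, x, hcop, hz, ha1, ha2⟩ := dir41 za0
  have zax : zz β a = x * zz β g := by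
    unfold zz
    rw [ha1, ha2]
    push_cast
    ring
  have hx : x ≠ 0 := by
    rintro rfl
    apply za0
    rw [zax]
    simp
  have h0' : a.1 * b.2 - a.2 * b.1 = 0 := h0
  have hgb : g.1 * b.2 = g.2 * b.1 := by
    rw [ha1, ha2] at h0'
    have : x * (g.1 * b.2 - g.2 * b.1) = 0 := by linear_combination h0'
    rcases mul_eq_zero.1 this with h3 | h3
    · exact absurd h3 hx
    · linarith
  obtain ⟨y, hb1, hb2⟩ := prim41 hcop hgb
  have zbx : zz β b = y * zz β g := by
    unfold zz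
    rw [hb1, hb2]
    push_cast
    ring
  have hy : y ≠ 0 := by
    rintro rfl
    apply zb0
    rw [zbx]
    simp
  have hxy : x ≠ y := by
    rintro rfl
    apply hab
    exact Prod.ext (by rw [ha1, hb1]) (by rw [ha2, hb2])
  set z := zz β g with hzdef
  -- the area inequality
  have hz2 : z ^ 2 ≤ 12 * d * R := by
    rw [h0, zax, zbx] at hA
    rw [Int.cast_zero, zero_sub, abs_neg, abs_mul, abs_mul] at hA
    have e1 : (x : ℝ) * z * (y * z) * (y * z - x * z) / (4 * R) = (x * y * (y - x)) * (z ^ 3 / (4 * R)) := by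
      ring
    rw [e1, abs_mul, abs_of_pos (show 0 < z ^ 3 / (4 * R) by positivity), abs_of_pos hz] at hA
    have h3 : (2 : ℝ) * (|(x : ℝ)| + |(y : ℝ)|) ≤ 3 * |(x : ℝ) * y * (y - x)| := by
      have := int41 hx hy hxy
      exact_mod_cast this
    have hpos : 0 < |(x : ℝ) * y * (y - x)| := by
      have h4 : 0 < |(x : ℝ)| := abs_pos.2 (by exact_mod_cast hx)
      have h5 : 0 ≤ |(y : ℝ)| := abs_nonneg _
      linarith
    set N := |(x : ℝ) * y * (y - x)| with hN
    have h4 : N * (z ^ 3 / (4 * R)) ≤ 2 * d * (3 / 2 * N * z) := by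
      refine hA.trans ?_
      have : |(x : ℝ)| * z + |(y : ℝ)| * z ≤ 3 / 2 * N * z := by
        have h6 : |(x : ℝ)| + |(y : ℝ)| ≤ 3 / 2 * N := by linarith
        nlinarith
      exact mul_le_mul_of_nonneg_left this (by positivity)
    have h5 : N * z * (z ^ 2) ≤ N * z * (12 * d * R) := by
      have h6 : N * (z ^ 3 / (4 * R)) * (4 * R) = N * z * z ^ 2 := by
        field_simp
      rw [← h6]
      calc N * (z ^ 3 / (4 * R)) * (4 * R) ≤ 2 * d * (3 / 2 * N * z) * (4 * R) :=
            mul_le_mul_of_nonneg_right h4 (by positivity)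
        _ = _ := by ring
    exact le_of_mul_le_mul_left h5 (mul_pos hpos hz)
  refine ⟨g, ⟨hcop, hz, ?_, ?_⟩, ?_, ?_⟩
  · apply Real.le_sqrt_of_sq_le
    refine hz2.trans ?_
    nlinarith
  · rw [zax, ha1] at hS
    push_cast at hS
    have e1 : (x : ℝ) * g.1 + t₀ * (x * z) = x * (g.1 + t₀ * z) := by ring
    rw [e1, abs_mul, abs_mul, abs_of_pos hz] at hS
    have hx1 : 1 ≤ |(x : ℝ)| := by
      have := Int.one_le_abs hx
      exact_mod_cast this
    have h3 : |(g.1 : ℝ) + t₀ * z| ≤ s * z + 2 * d := by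
      have h4 : |(x : ℝ)| * |(g.1 : ℝ) + t₀ * z| ≤ |(x : ℝ)| * (s * z + 2 * d) := by
        refine hS.trans ?_
        have : 2 * d ≤ |(x : ℝ)| * (2 * d) := by nlinarith
        linarith
      exact le_of_mul_le_mul_left h4 (by linarith)
    have e2 : tg β g - t₀ = -(((g.1 : ℝ) + t₀ * z) / z) := by
      unfold tg
      rw [← hzdef]
      field_simp
      ring
    rw [e2, abs_neg, abs_div, abs_of_pos hz, div_le_iff₀ hz]
    have e3 : (s + 2 * d / z) * z = s * z + 2 * d := by
      field_simp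
    rw [e3]
    exact h3
  · change a.1 * g.2 - a.2 * g.1 = 0
    rw [ha1, ha2]
    ring
  · change b.1 * g.2 - b.2 * g.1 = 0
    rw [hb1, hb2]
    ring

theorem dir_unique {β ρ t₀ s d : ℝ} (h : Par β ρ t₀ s d) {g g' : ℤ × ℤ} (hg : IsDir β ρ t₀ s d g)
    (hg' : IsDir β ρ t₀ s d g') : g = g' := by
  have hz := hg.pos
  have hz' := hg'.pos
  have hzl := hg.le
  have hzl' := hg'.le
  have hc := hg.close
  have hc' := hg'.close
  have hd := h.hd
  have hs := h.hs
  have hρ := h.hρ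
  have e0 : ((dd g g' : ℤ) : ℝ) = zz β g * zz β g' * (tg β g' - tg β g) := by
    have e1 : ((dd g g' : ℤ) : ℝ) = g.1 * zz β g' - g'.1 * zz β g := by
      unfold dd zz
      push_cast
      ring
    rw [e1]
    unfold tg
    field_simp
    ring
  set z := zz β g with hzd
  set z' := zz β g' with hzd'
  set w := √(48 * d * ρ) with hw
  have hw0 : 0 ≤ w := Real.sqrt_nonneg _
  have hw2 : w ^ 2 = 48 * d * ρ := Real.sq_sqrt (by positivity)
  have hdw : (d * w) ^ 2 ≤ (7 / 1000) ^ 2 := by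
    rw [mul_pow, hw2]
    have := h.hdd
    nlinarith
  have hdw' : d * w ≤ 7 / 1000 := by
    have h3 : 0 ≤ d * w := by positivity
    exact (sq_le_sq₀ h3 (by norm_num)).1 hdw
  have hlt : |((dd g g' : ℤ) : ℝ)| < 1 := by
    rw [e0, abs_mul, abs_of_pos (mul_pos hz hz')]
    have h3 : |tg β g' - tg β g| ≤ (s + 2 * d / z) + (s + 2 * d / z') := by
      have e : tg β g' - tg β g = (tg β g' - t₀) - (tg β g - t₀) := by ring
      rw [e]
      refine (abs_sub _ _).trans ?_
      linarith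
    have h4 : z * z' * |tg β g' - tg β g| ≤ 2 * s * (z * z') + 2 * d * z' + 2 * d * z := by
      calc z * z' * |tg β g' - tg β g| ≤ z * z' * ((s + 2 * d / z) + (s + 2 * d / z')) :=
            mul_le_mul_of_nonneg_left h3 (by positivity)
        _ = _ := by
          field_simp
          ring
    have h5 : z * z' ≤ 48 * d * ρ := by
      rw [← hw2]
      nlinarith
    have h6 : 2 * s * (z * z') ≤ 2 * s * (48 * d * ρ) := mul_le_mul_of_nonneg_left h5 (by positivity)
    have h7 : d * z ≤ d * w := mul_le_mul_of_nonneg_left hzl hd.le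
    have h8 : d * z' ≤ d * w := mul_le_mul_of_nonneg_left hzl' hd.le
    have h9 := h.hsd
    nlinarith
  have hdd : dd g g' = 0 := by
    have : |dd g g'| < 1 := by exact_mod_cast hlt
    exact Int.abs_lt_one_iff.1 this
  have hgg : g.1 * g'.2 = g.2 * g'.1 := by
    unfold dd at hdd
    linarith
  obtain ⟨y, hy1, hy2⟩ := prim41 hg.cop hgg
  obtain ⟨u, v, huv⟩ := hg'.cop
  have hunit : y * (u * g.1 + v * g.2) = 1 := by
    rw [hy1, hy2] at huv
    linear_combination huv
  have hyz : z' = y * z := by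
    rw [hzd', hzd]
    unfold zz
    rw [hy1, hy2]
    push_cast
    ring
  have hy0 : 0 < y := by
    by_contra hne
    push Not at hne
    have : (y : ℝ) ≤ 0 := by exact_mod_cast hne
    nlinarith
  have hyu : y = 1 := by
    rcases Int.isUnit_iff.1 (IsUnit.of_mul_eq_one _ hunit) with h3 | h3
    · exact h3
    · linarith
  rw [hyu, one_mul] at hy1 hy2
  exact Prod.ext hy1.symm hy2.symm

end Pool.Agent.Helper92.GC
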