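import Pool.Agent.Helper92.GC.N2
import Pool.Agent.Helper92.GC.W5

/-!
# GC-N3: lattice points on one line

Let `g` be primitive, `z = zz β g > 0`, `τ = tg β g`. For `m` with `dd (m - m₀) g = 0`: `Psi β R c m = -θ + (ζ - 2Rτ)²/(4R)`, where `ζ = zt β c m`, `θ = th β R c g m₀`: indeed with `ξ = m - c`
`ξ₁ g.2 - ξ₂ g.1 = ξ₁ z - g.1 ζ = dd m g - (c.1 g.2 - c.2 g.1) =: κ z`, so `ξ₁ = κ - τ ζ` and `Psi = κ - τζ + ζ²/(4R) = κ - Rτ² + (ζ - 2Rτ)²/(4R)`, `θ = Rτ² - κ`, `dd m g = dd m₀ g`.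
The points on the line are `m₀ + j g` (`g` primitive), with `ζ` spaced by `z`.
PROOF of `line_count`. Let `n ≥ 3` be the number of points; `w = ζ - 2Rτ` takes `n` distinct values in an arithmetic progression of difference `z`, with `4R(θ - d) ≤ w² ≤ 4R(θ + d)`. So `θ ≥ -d`.
Case `θ ≤ d`: `|w| ≤ √(8Rd)`, `n - 1 ≤ 2√(8Rd)/z`, `n ≤ (3/2)(n-1) ≤ 9 √(Rd)/z`. Case `θ > d`: `w` lies in two intervals of length
`ℓ = √(4R(θ+d)) - √(4R(θ-d)) = 8Rd/(√(4R(θ+d)) + √(4R(θ-d))) ≤ 4d√R/√(θ+d)`; one of them contains two points, so `z ≤ ℓ`, `θ + d ≤ 16 d² R/z²`, and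
`n ≤ 2(1 + ℓ/z) ≤ 4ℓ/z ≤ 16 d √R/(z √(θ+d))`. In both cases `n ≤ 16 (√(dR)/z) √(min(1, d/(θ+d)))` (in the first case `d/(θ+d) ≥ 1/2`, if `θ + d > 0`) and
`min(1, d/(θ+d)) ≤ 2/(1 + |θ|/d)` for `θ ≥ -d`; `R ≤ 4ρ`: `n^6 ≤ 16^6 (4dρ)³ z^(-6) 8 (1 + |θ|/d)^(-3)`.
PROOF of `one_line`. Different lines: `θ - θ' = (dd m₁ g - dd m₀ g)/z`, of absolute value `≥ 1/z`; both in `[-d, -d + max(2d, 16d²R/z²)]`; so `1 ≤ max(2dz, 16d²R/z)`, but `2dz ≤ 2√(48d³ρ) < 1` and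
`16d²R/z ≤ 64 d²ρ/z < 1`.
-/

open MeasureTheory Real Set Filter Topology

set_option autoImplicit false

namespace Pool.Agent.Helper92.GC

open Pool.Agent.Helper22.AE
open Pool.Agent.Helper22.AC (n6 IsWt mu)

/-- the depth of the line of direction `g` through `m₀` below the vertex -/
noncomputable def th (β R : ℝ) (c : ℝ × ℝ) (g m₀ : ℤ × ℤ) : ℝ :=
  R * tg β g ^ 2 - ((dd m₀ g : ℝ) - (c.1 * g.2 - c.2 * g.1)) / zz β g

private theorem cnt31 (J : Finset ℤ) (hJ : J.Nonempty) {z L : ℝ} (hz : 0 < z)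
    (h : ∀ i ∈ J, ∀ j ∈ J, ((i : ℝ) - j) * z ≤ L) : ((J.card : ℝ) - 1) * z ≤ L := by
  have h1 := h _ (J.max'_mem hJ) _ (J.min'_mem hJ)
  have h2 : J ⊆ Finset.Icc (J.min' hJ) (J.max' hJ) := fun x hx =>
    Finset.mem_Icc.2 ⟨J.min'_le x hx, J.le_max' x hx⟩
  have h3 := Finset.card_le_card h2
  rw [Int.card_Icc] at h3
  have h4 : (J.card : ℤ) ≤ J.max' hJ + 1 - J.min' hJ := by
    have h5 : J.min' hJ ≤ J.max' hJ := J.min'_le _ (J.max'_mem hJ)
    omega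
  have h5 : (J.card : ℝ) ≤ (J.max' hJ : ℝ) + 1 - (J.min' hJ : ℝ) := by exact_mod_cast h4
  nlinarith [mul_le_mul_of_nonneg_right h5 hz.le]

private theorem abs31 (J : Finset ℤ) (h3 : 3 ≤ J.card) {w z R d θ : ℝ} (hz : 0 < z) (hR : 0 < R) (hd : 0 < d)
    (h : ∀ j ∈ J, |(w + j * z) ^ 2 / (4 * R) - θ| ≤ d) :
    -d ≤ θ ∧ θ + d ≤ max (2 * d) (16 * d ^ 2 * R / z ^ 2) ∧
      (J.card : ℝ) ^ 6 ≤ 2 ^ 24 * (d * R) ^ 3 / z ^ 6 * ((1 + |θ| / d) ^ 3)⁻¹ := by
  have hJ : J.Nonempty := Finset.card_pos.1 (by omega)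
  have h3' : (3 : ℝ) ≤ J.card := by exact_mod_cast h3
  have hub : ∀ j ∈ J, (w + j * z) ^ 2 ≤ 4 * R * (θ + d) := by
    intro j hj
    have h1 := (abs_le.1 (h j hj)).2
    have h2 : (w + j * z) ^ 2 / (4 * R) ≤ θ + d := by linarith
    rw [div_le_iff₀ (by positivity)] at h2
    linarith
  have hlb : ∀ j ∈ J, 4 * R * (θ - d) ≤ (w + j * z) ^ 2 := by
    intro j hj
    have h1 := (abs_le.1 (h j hj)).1
    have h2 : θ - d ≤ (w + j * z) ^ 2 / (4 * R) := by linarith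
    rw [le_div_iff₀ (by positivity)] at h2
    linarith
  have hθ : -d ≤ θ := by
    obtain ⟨j, hj⟩ := hJ
    have h1 := hub j hj
    have h2 : 0 ≤ 4 * R * (θ + d) := (sq_nonneg _).trans h1
    have h3 : 0 ≤ θ + d := by
      by_contra h4
      push Not at h4
      nlinarith [mul_pos hR (neg_pos.2 h4)]
    linarith
  have h2 : 0 ≤ 4 * R * (θ + d) := by
    have : 0 ≤ θ + d := by linarith
    positivity
  set A := √(4 * R * (θ + d)) with hA
  have hA2 : A ^ 2 = 4 * R * (θ + d) := Real.sq_sqrt h2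
  have hA0 : 0 ≤ A := Real.sqrt_nonneg _
  have hle : ∀ j ∈ J, |w + j * z| ≤ A := fun j hj => Real.abs_le_sqrt (hub j hj)
  have hz6 : 0 < z ^ 6 := by positivity
  rcases le_or_gt θ d with hc | hc
  · refine ⟨hθ, le_max_of_le_left (by linarith), ?_⟩
    have h4 := cnt31 J hJ hz (L := 2 * A) (by
      intro i hi j hj
      have h5 := (abs_le.1 (hle i hi)).2
      have h6 := (abs_le.1 (hle j hj)).1
      linarith)
    have h5 : (J.card : ℝ) * z ≤ 3 * A := by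
      have : (J.card : ℝ) ≤ 3 / 2 * (J.card - 1) := by linarith
      nlinarith [mul_le_mul_of_nonneg_right this hz.le]
    have h6 : A ^ 2 ≤ 8 * (d * R) := by
      rw [hA2]; nlinarith
    have h7 : ((J.card : ℝ) * z) ^ 6 ≤ (3 * A) ^ 6 := pow_le_pow_left₀ (by positivity) h5 6
    have h8 : (3 * A) ^ 6 ≤ 729 * (8 * (d * R)) ^ 3 := by
      have : (3 * A) ^ 6 = 729 * (A ^ 2) ^ 3 := by ring
      rw [this]
      exact mul_le_mul_of_nonneg_left (pow_le_pow_left₀ (by positivity) h6 3) (by norm_num)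
    have h9 : 1 + |θ| / d ≤ 2 := by
      have : |θ| ≤ d := abs_le.2 ⟨hθ, hc⟩
      have := (div_le_one hd).2 this
      linarith
    have h10 : (1 + |θ| / d) ^ 3 ≤ 8 := by
      calc (1 + |θ| / d) ^ 3 ≤ 2 ^ 3 := pow_le_pow_left₀ (by positivity) h9 3
        _ = 8 := by norm_num
    have h11 : 0 < (1 + |θ| / d) ^ 3 := by positivity
    have h12 : (1 : ℝ) / 8 ≤ ((1 + |θ| / d) ^ 3)⁻¹ := by
      rw [one_div]
      exact inv_anti₀ h11 h10
    have hdR : 0 < (d * R) ^ 3 := by positivity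
    calc (J.card : ℝ) ^ 6 = ((J.card : ℝ) * z) ^ 6 / z ^ 6 := by
          rw [mul_pow, mul_div_assoc, div_self hz6.ne', mul_one]
      _ ≤ (729 * (8 * (d * R)) ^ 3) / z ^ 6 := by
          gcongr
          exact h7.trans h8
      _ ≤ 2 ^ 24 * (d * R) ^ 3 / z ^ 6 * (1 / 8) := by
          rw [div_mul_eq_mul_div]
          gcongr ?_ / _
          nlinarith
      _ ≤ _ := by gcongr
  · have hB2 : 0 < 4 * R * (θ - d) := by
      have : 0 < θ - d := by linarith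
      positivity
    set B := √(4 * R * (θ - d)) with hB
    have hBs : B ^ 2 = 4 * R * (θ - d) := Real.sq_sqrt hB2.le
    have hB0 : 0 < B := Real.sqrt_pos.2 hB2
    have hBA : B ≤ A := Real.sqrt_le_sqrt (by nlinarith)
    have hA1 : 0 < A := hB0.trans_le hBA
    have hge : ∀ j ∈ J, B ≤ |w + j * z| := by
      intro j hj
      rw [hB]
      apply Real.sqrt_le_iff.2
      refine ⟨abs_nonneg _, ?_⟩
      rw [sq_abs]
      exact hlb j hj
    set L := 8 * (d * R) / A with hL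
    have hLA : A - B ≤ L := by
      rw [hL, le_div_iff₀ hA1]
      nlinarith
    have hL0 : 0 < L := by positivity
    have hL2 : L ^ 2 = 16 * d ^ 2 * R / (θ + d) := by
      rw [hL, div_pow, hA2]
      have : 0 < θ + d := by linarith
      field_simp
      ring
    classical
    set P := J.filter (fun j : ℤ => 0 ≤ w + j * z) with hP
    set N := J.filter (fun j : ℤ => ¬ 0 ≤ w + j * z) with hN
    have hcard : P.card + N.card = J.card := by
      rw [hP, hN]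
      exact Finset.card_filter_add_card_filter_not (s := J) (fun j : ℤ => 0 ≤ w + j * z)
    have hPc : P.Nonempty → ((P.card : ℝ) - 1) * z ≤ L := by
      intro hne
      apply cnt31 P hne hz
      intro i hi j hj
      obtain ⟨hi1, hi2⟩ := Finset.mem_filter.1 hi
      obtain ⟨hj1, hj2⟩ := Finset.mem_filter.1 hj
      have e1 := hle i hi1
      have e2 := hge j hj1
      rw [abs_of_nonneg hi2] at e1
      rw [abs_of_nonneg hj2] at e2
      linarith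
    have hNc : N.Nonempty → ((N.card : ℝ) - 1) * z ≤ L := by
      intro hne
      apply cnt31 N hne hz
      intro i hi j hj
      obtain ⟨hi1, hi2⟩ := Finset.mem_filter.1 hi
      obtain ⟨hj1, hj2⟩ := Finset.mem_filter.1 hj
      have e1 := hge i hi1
      have e2 := hle j hj1
      rw [abs_of_neg (not_le.1 hi2)] at e1
      rw [abs_of_neg (not_le.1 hj2)] at e2
      linarith
    have hPc' : ((P.card : ℝ) - 1) * z ≤ L := by
      rcases P.eq_empty_or_nonempty with h0 | h0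
      · rw [h0]; simp; linarith
      · exact hPc h0
    have hNc' : ((N.card : ℝ) - 1) * z ≤ L := by
      rcases N.eq_empty_or_nonempty with h0 | h0
      · rw [h0]; simp; linarith
      · exact hNc h0
    have hzL : z ≤ L := by
      rcases (by omega : 2 ≤ P.card ∨ 2 ≤ N.card) with h0 | h0
      · have : (2 : ℝ) ≤ P.card := by exact_mod_cast h0
        nlinarith
      · have : (2 : ℝ) ≤ N.card := by exact_mod_cast h0
        nlinarith
    have hcL : (J.card : ℝ) * z ≤ 4 * L := by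
      have : (J.card : ℝ) = P.card + N.card := by exact_mod_cast hcard.symm
      rw [this]
      nlinarith
    have hpos : 0 < θ + d := by linarith
    refine ⟨hθ, le_max_of_le_right ?_, ?_⟩
    · rw [le_div_iff₀ (by positivity)]
      have h5 : z ^ 2 ≤ L ^ 2 := pow_le_pow_left₀ hz.le hzL 2
      rw [hL2, le_div_iff₀ hpos] at h5
      linarith
    · have h7 : ((J.card : ℝ) * z) ^ 6 ≤ (4 * L) ^ 6 := pow_le_pow_left₀ (by positivity) hcL 6
      have h8 : (4 * L) ^ 6 = 2 ^ 24 * (d * R) ^ 3 * ((1 + |θ| / d) ^ 3)⁻¹ := by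
        have e1 : (4 * L) ^ 6 = 4096 * (L ^ 2) ^ 3 := by ring
        have e2 : 1 + |θ| / d = (θ + d) / d := by
          rw [abs_of_pos (by linarith)]
          field_simp
          ring
        rw [e1, hL2, e2, div_pow, div_pow, inv_div]
        field_simp
        ring
      calc (J.card : ℝ) ^ 6 = ((J.card : ℝ) * z) ^ 6 / z ^ 6 := by
            rw [mul_pow, mul_div_assoc, div_self hz6.ne', mul_one]
        _ ≤ (4 * L) ^ 6 / z ^ 6 := by gcongr
        _ = _ := by rw [h8]; ring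

private theorem par31 {β R : ℝ} (hR : 0 < R) (c : ℝ × ℝ) (g m m₀ : ℤ × ℤ) (hz : 0 < zz β g)
    (hd : dd (m - m₀) g = 0) :
    Psi β R c m = -th β R c g m₀ + (zt β c m - 2 * R * tg β g) ^ 2 / (4 * R) := by
  have e0 : ((m.1 : ℝ) - m₀.1) * g.2 - ((m.2 : ℝ) - m₀.2) * g.1 = 0 := by
    have : (m.1 - m₀.1) * g.2 - (m.2 - m₀.2) * g.1 = 0 := by
      simpa [dd] using hd
    exact_mod_cast this
  have e1 : ((dd m₀ g : ℤ) : ℝ) = m₀.1 * g.2 - m₀.2 * g.1 := by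
    simp [dd]
  unfold Psi th tg
  rw [e1]
  have e2 : ((m.1 : ℝ) - c.1) * zz β g - g.1 * zt β c m
      = (m₀.1 * g.2 - m₀.2 * g.1) - (c.1 * g.2 - c.2 * g.1) := by
    unfold zz zt
    linear_combination e0
  have e3 : (m.1 : ℝ) - c.1 = ((m₀.1 * g.2 - m₀.2 * g.1) - (c.1 * g.2 - c.2 * g.1)) / zz β g
      + g.1 * zt β c m / zz β g := by
    rw [← add_div, eq_div_iff hz.ne']
    linarith
  rw [e3]
  field_simp
  ring

private theorem core31 {β ρ t₀ s d R : ℝ} (h : Par β ρ t₀ s d) (h1 : ρ / 2 ≤ R) (c : ℝ × ℝ) (g m₀ : ℤ × ℤ)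
    (hg : IsCoprime g.1 g.2) (hz : 0 < zz β g)
    (h3 : 3 ≤ {m ∈ near β R t₀ s d c | dd (m - m₀) g = 0}.ncard) :
    -d ≤ th β R c g m₀ ∧ th β R c g m₀ + d ≤ max (2 * d) (16 * d ^ 2 * R / zz β g ^ 2) ∧
      ({m ∈ near β R t₀ s d c | dd (m - m₀) g = 0}.ncard : ℝ) ^ 6 ≤
        2 ^ 24 * (d * R) ^ 3 / zz β g ^ 6 * ((1 + |th β R c g m₀| / d) ^ 3)⁻¹ := by
  have hR : 0 < R := by
    have := h.hρ
    linarith
  obtain ⟨u, v, huv⟩ := hg
  set S := {m ∈ near β R t₀ s d c | dd (m - m₀) g = 0} with hS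
  have hfin : S.Finite := Set.finite_of_ncard_pos (by omega)
  let f : ℤ × ℤ → ℤ := fun m => u * (m.1 - m₀.1) + v * (m.2 - m₀.2)
  have hf : ∀ m ∈ S, m.1 = m₀.1 + f m * g.1 ∧ m.2 = m₀.2 + f m * g.2 := by
    intro m hm
    have e0 : (m.1 - m₀.1) * g.2 - (m.2 - m₀.2) * g.1 = 0 := by
      simpa [dd] using hm.2
    refine ⟨?_, ?_⟩
    · show m.1 = m₀.1 + (u * (m.1 - m₀.1) + v * (m.2 - m₀.2)) * g.1
      linear_combination -(m.1 - m₀.1) * huv + v * e0
    · show m.2 = m₀.2 + (u * (m.1 - m₀.1) + v * (m.2 - m₀.2)) * g.2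
      linear_combination -(m.2 - m₀.2) * huv - u * e0
  have hinj : Set.InjOn f S := by
    intro a ha b hb hab
    obtain ⟨a1, a2⟩ := hf a ha
    obtain ⟨b1, b2⟩ := hf b hb
    rw [hab] at a1 a2
    exact Prod.ext (a1.trans b1.symm) (a2.trans b2.symm)
  classical
  set J := hfin.toFinset.image f with hJ
  have hcard : J.card = S.ncard := by
    rw [hJ, Finset.card_image_of_injOn, Set.ncard_eq_toFinset_card S hfin]
    simpa using hinj
  have key := abs31 J (by rw [hcard]; exact h3) (w := zt β c m₀ - 2 * R * tg β g) (θ := th β R c g m₀) hz hR h.hd (by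
    intro j hj
    obtain ⟨m, hm, rfl⟩ := Finset.mem_image.1 hj
    have hm' : m ∈ S := hfin.mem_toFinset.1 hm
    have e1 := par31 (β := β) hR c g m m₀ hz hm'.2
    have e2 : zt β c m = zt β c m₀ + f m * zz β g := by
      obtain ⟨a1, a2⟩ := hf m hm'
      have b1 : (m.1 : ℝ) = m₀.1 + f m * g.1 := by exact_mod_cast a1
      have b2 : (m.2 : ℝ) = m₀.2 + f m * g.2 := by exact_mod_cast a2
      unfold zt zz
      rw [b1, b2]
      ring
    have e3 := hm'.1.2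
    rw [e1, e2] at e3
    have e4 : (zt β c m₀ - 2 * R * tg β g + ↑(f m) * zz β g) ^ 2 / (4 * R) - th β R c g m₀
        = -th β R c g m₀ + (zt β c m₀ + ↑(f m) * zz β g - 2 * R * tg β g) ^ 2 / (4 * R) := by ring
    rw [e4]
    exact e3)
  rw [hcard] at key
  exact key

theorem line_count : ∃ C : ℝ, 0 < C ∧ ∀ β ρ t₀ s d R : ℝ, Par β ρ t₀ s d → ρ / 2 ≤ R → R ≤ 4 * ρ → ∀ (c : ℝ × ℝ) (g m₀ : ℤ × ℤ),
    IsCoprime g.1 g.2 → 0 < zz β g → 3 ≤ {m ∈ near β R t₀ s d c | dd (m - m₀) g = 0}.ncard →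
      -d ≤ th β R c g m₀ ∧ th β R c g m₀ + d ≤ max (2 * d) (16 * d ^ 2 * R / zz β g ^ 2) ∧
      ({m ∈ near β R t₀ s d c | dd (m - m₀) g = 0}.ncard : ℝ) ^ 6 ≤
        C * (d * ρ) ^ 3 / zz β g ^ 6 * ((1 + |th β R c g m₀| / d) ^ 3)⁻¹ := by
  refine ⟨2 ^ 30, by norm_num, ?_⟩
  intro β ρ t₀ s d R h h1 h2 c g m₀ hg hz h3
  obtain ⟨k1, k2, k3⟩ := core31 h h1 c g m₀ hg hz h3
  refine ⟨k1, k2, k3.trans ?_⟩
  have hR : 0 < R := by
    have := h.hρ
    linarith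
  have hd := h.hd
  have e1 : (d * R) ^ 3 ≤ 64 * (d * ρ) ^ 3 := by
    calc (d * R) ^ 3 ≤ (4 * (d * ρ)) ^ 3 := pow_le_pow_left₀ (by positivity) (by nlinarith) 3
      _ = 64 * (d * ρ) ^ 3 := by ring
  have e2 : 2 ^ 24 * (d * R) ^ 3 ≤ 2 ^ 30 * (d * ρ) ^ 3 := by nlinarith
  gcongr

theorem one_line {β ρ t₀ s d R : ℝ} (h : Par β ρ t₀ s d) (h1 : ρ / 2 ≤ R) (h2 : R ≤ 4 * ρ) {c : ℝ × ℝ} {g m₀ m₁ : ℤ × ℤ}
    (hg : IsDir β ρ t₀ s d g) (hz : 64 * d ^ 2 * ρ < zz β g)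
    (h3 : 3 ≤ {m ∈ near β R t₀ s d c | dd (m - m₀) g = 0}.ncard)
    (h4 : 3 ≤ {m ∈ near β R t₀ s d c | dd (m - m₁) g = 0}.ncard) : dd (m₁ - m₀) g = 0 := by
  have hR : 0 < R := by
    have := h.hρ
    linarith
  have hd := h.hd
  have hρ : 0 < ρ := by
    have := h.hρ
    linarith
  have hp := hg.pos
  obtain ⟨a1, a2, -⟩ := core31 h h1 c g m₀ hg.cop hp h3
  obtain ⟨b1, b2, -⟩ := core31 h h1 c g m₁ hg.cop hp h4
  by_contra hne
  have e1 : th β R c g m₀ - th β R c g m₁ = ((dd (m₁ - m₀) g : ℤ) : ℝ) / zz β g := by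
    unfold th
    have e2 : ((dd (m₁ - m₀) g : ℤ) : ℝ) = (dd m₁ g : ℤ) - (dd m₀ g : ℤ) := by
      simp [dd]
      ring
    rw [e2]
    ring
  have e3 : (1 : ℝ) ≤ |((dd (m₁ - m₀) g : ℤ) : ℝ)| := by
    exact_mod_cast Int.one_le_abs hne
  have e4 : 1 / zz β g ≤ |th β R c g m₀ - th β R c g m₁| := by
    rw [e1, abs_div, abs_of_pos hp]
    gcongr
  have e5 : |th β R c g m₀ - th β R c g m₁| ≤ max (2 * d) (16 * d ^ 2 * R / zz β g ^ 2) := by
    rw [abs_le]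
    constructor <;> linarith
  have e6 := e4.trans e5
  rw [div_le_iff₀ hp] at e6
  rcases le_max_iff.1 (le_refl (max (2 * d) (16 * d ^ 2 * R / zz β g ^ 2))) with h5 | h5
  · rw [max_eq_left (le_trans (le_max_right _ _) h5)] at e6
    have e7 : (1 : ℝ) ≤ (2 * d * zz β g) ^ 2 := by
      have := pow_le_pow_left₀ (by norm_num) e6 2
      simpa using this
    have e8 : zz β g ^ 2 ≤ 48 * d * ρ := by
      have := pow_le_pow_left₀ hp.le hg.le 2
      rwa [Real.sq_sqrt (by positivity)] at this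
    have e9 : (2 * d * zz β g) ^ 2 ≤ 192 * (d ^ 3 * ρ) := by
      have : (2 * d * zz β g) ^ 2 = 4 * d ^ 2 * zz β g ^ 2 := by ring
      rw [this]
      have : 4 * d ^ 2 * zz β g ^ 2 ≤ 4 * d ^ 2 * (48 * d * ρ) := by gcongr
      nlinarith
    have := h.hdd
    nlinarith
  · rw [max_eq_right (le_trans (le_max_left _ _) h5)] at e6
    have e7 : 16 * d ^ 2 * R / zz β g ^ 2 * zz β g = 16 * d ^ 2 * R / zz β g := by
      field_simp
    rw [e7, le_div_iff₀ hp] at e6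
    have : 16 * d ^ 2 * R ≤ 64 * d ^ 2 * ρ := by nlinarith [sq_nonneg d, mul_le_mul_of_nonneg_left h2 (sq_nonneg d)]
    linarith

end Pool.Agent.Helper92.GC
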