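import Pool.Agent.Helper92.GC.Q2

/-!
# GC-Q6: the sum over all arcs

`σ = 12/N`, `t_j = -6 + 12 (j + 1/2)/N`, `s = σ H^ε`, `d = H^(ε-1)`, `X = ρ H^(-ε)`.
PROOF. WLOG `ε ≤ 1`. Let `J` be the set of the `j < N` such that some `g` satisfies `IsDir β ρ t_j s d g` and `zz β g < d/σ`. For `j ∈ J`: `n6 ≤ card^(5/3)` (`n6_gs_card`) and `ltype` (its hypotheses: `IsDir.cop, pos, close`;
`s ≤ 1/1000`, `d ≤ 1/1000` from `Par`; `d ≤ σ H` by `h6`):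
`∑_{j ∈ J} ≤ C (1 + H^(2ε))^(5/3) H^(5/3) (H^(ε-1)/σ)^(1/3) ≤ C H^(4ε) H^(4/3) σ^(-1/3)` (`H d s/σ = H^(2ε)`; `10/3 + 1/3 ≤ 4`).
For `j ∉ J`: `arc_n6` (`I6 ≠ ⊤` because the sum in `count_total` is bounded): `∑ ≤ C (H³/ρ) (H^ε/ρ)^(1/3) ∑_j (I6 j).toReal^(1/3) + C N`, and `count_total` for `T = {t_j : j ∉ J}` (the `t_j` are `σ`-separated, `card T · σ ≤ 12`;
`64 d ρ σ < 1` by `Par.hsd`: `64ρsd ≤ 1/1000`, `σ ≤ s`). In `count_total`: `s/σ = H^ε`, `ρ² d s/σ = ρ² H^(2ε-1)`, `1 + ρ^(2/3)s ≤ H^ε (1 + ρ^(2/3)σ)`, `d³ρ² = ρ² H^(3ε-3)`, `520ρ²s³ = 520ρ²σ³H^(3ε)`,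
`(..)² + ρd(..) ≤ 520² H^(6ε) (ρ⁴σ⁶ + ρ³σ³/H)`, `1 + log ρ ≤ C H^ε` (`ρ ≤ H³`), `(dρ)^(3/2) = H^(3ε/2) (ρ/H)^(3/2)`. All powers of `H^ε` together: at most `20`.
-/

open MeasureTheory Real Set Filter Topology

set_option autoImplicit false

namespace Pool.Agent.Helper92.GC

open Pool.Agent.Helper22.AE
open Pool.Agent.Helper22.AC (n6 IsWt mu)

/-- the parameter free bound for the sum over the arcs -/
noncomputable def Bd6 (H ρ σ : ℝ) : ℝ :=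
  H ^ (4 / 3 : ℝ) * σ ^ (-(1 / 3) : ℝ) + σ⁻¹ + H ^ 3 / ρ * ρ ^ (-(1 / 3) : ℝ) *
    (σ ^ (-(2 / 3) : ℝ) * (ρ ^ 2 / H + (1 + ρ ^ (2 / 3 : ℝ) * σ) ^ 2 * (ρ ^ 2 / H ^ 3 *
      (ρ ^ 4 * σ ^ 6 + ρ ^ 3 * σ ^ 3 / H))) ^ (1 / 3 : ℝ) + (ρ / H) ^ (3 / 2 : ℝ))

/-- the parameters of the count -/
private theorem h94_inner {E H ρ σ : ℝ} (hE : 1 ≤ E) (hH : 1 ≤ H) (hρ : 1 ≤ ρ) (hσ : 0 < σ) :
    σ ^ (-(2 / 3) : ℝ) * (ρ ^ 2 * (E / H) * (σ * E / σ) + (1 + ρ ^ (2 / 3 : ℝ) * (σ * E)) ^ 2 *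
      ((E / H) ^ 3 * ρ ^ 2 * ((520 * ρ ^ 2 * (σ * E) ^ 3) ^ 2 +
        ρ * (E / H) * (520 * ρ ^ 2 * (σ * E) ^ 3)))) ^ (1 / 3 : ℝ) + (E / H * ρ) ^ (3 / 2 : ℝ) ≤
    520 ^ 2 * E ^ 4 * (σ ^ (-(2 / 3) : ℝ) * (ρ ^ 2 / H + (1 + ρ ^ (2 / 3 : ℝ) * σ) ^ 2 * (ρ ^ 2 / H ^ 3 *
      (ρ ^ 4 * σ ^ 6 + ρ ^ 3 * σ ^ 3 / H))) ^ (1 / 3 : ℝ) + (ρ / H) ^ (3 / 2 : ℝ)) := by
  have hE0 : 0 < E := by linarith
  have hH0 : 0 < H := by linarith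
  have hρ0 : 0 < ρ := by linarith
  obtain ⟨W, hW⟩ : ∃ W, W = ρ ^ (2 / 3 : ℝ) := ⟨_, rfl⟩
  have hW0 : 0 ≤ W := by rw [hW]; positivity
  obtain ⟨A, hA⟩ : ∃ A, A = ρ ^ 4 * σ ^ 6 := ⟨_, rfl⟩
  obtain ⟨B, hB⟩ : ∃ B, B = ρ ^ 3 * σ ^ 3 / H := ⟨_, rfl⟩
  have hA0 : 0 ≤ A := by rw [hA]; positivity
  have hB0 : 0 ≤ B := by rw [hB]; positivity
  obtain ⟨Z, hZ⟩ : ∃ Z, Z = ρ ^ 2 / H ^ 3 := ⟨_, rfl⟩
  have hZ0 : 0 ≤ Z := by rw [hZ]; positivity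
  obtain ⟨V, hV⟩ : ∃ V, V = ρ ^ 2 / H := ⟨_, rfl⟩
  have hV0 : 0 ≤ V := by rw [hV]; positivity
  have e1 : ρ ^ 2 * (E / H) * (σ * E / σ) = E ^ 2 * V := by
    rw [hV]
    field_simp
  have e2 : (E / H) ^ 3 * ρ ^ 2 = E ^ 3 * Z := by
    rw [hZ]
    field_simp
  have e3 : (520 * ρ ^ 2 * (σ * E) ^ 3) ^ 2 = 520 ^ 2 * E ^ 6 * A := by
    rw [hA]
    ring
  have e4 : ρ * (E / H) * (520 * ρ ^ 2 * (σ * E) ^ 3) = 520 * E ^ 4 * B := by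
    rw [hB]
    field_simp
  rw [← hW, e1, e2, e3, e4, ← hA, ← hB, ← hZ, ← hV]
  have hp : ∀ m n : ℕ, m ≤ n → E ^ m ≤ E ^ n := fun m n h => pow_le_pow_right₀ hE h
  have h1 : 1 + W * (σ * E) ≤ E * (1 + W * σ) := by nlinarith
  have h2 : (1 + W * (σ * E)) ^ 2 ≤ (E * (1 + W * σ)) ^ 2 :=
    pow_le_pow_left₀ (by positivity) h1 2
  have h3 : 520 ^ 2 * E ^ 6 * A + 520 * E ^ 4 * B ≤ 520 ^ 2 * E ^ 6 * (A + B) := by
    have h4 : 520 * E ^ 4 ≤ 520 ^ 2 * E ^ 6 := by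
      have := hp 4 6 (by norm_num)
      have h5 : 0 < E ^ 6 := by positivity
      nlinarith
    have h5 := mul_le_mul_of_nonneg_right h4 hB0
    nlinarith
  have h4 : (1 + W * (σ * E)) ^ 2 * (E ^ 3 * Z * (520 ^ 2 * E ^ 6 * A + 520 * E ^ 4 * B)) ≤
      (520 ^ 2 * E ^ 4) ^ 3 * ((1 + W * σ) ^ 2 * (Z * (A + B))) := by
    calc (1 + W * (σ * E)) ^ 2 * (E ^ 3 * Z * (520 ^ 2 * E ^ 6 * A + 520 * E ^ 4 * B))
        ≤ (E * (1 + W * σ)) ^ 2 * (E ^ 3 * Z * (520 ^ 2 * E ^ 6 * (A + B))) := by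
          refine mul_le_mul h2 (mul_le_mul_of_nonneg_left h3 (by positivity)) ?_ (by positivity)
          positivity
      _ = (520 ^ 2 * E ^ 11) * ((1 + W * σ) ^ 2 * (Z * (A + B))) := by ring
      _ ≤ (520 ^ 2 * E ^ 4) ^ 3 * ((1 + W * σ) ^ 2 * (Z * (A + B))) := by
          refine mul_le_mul_of_nonneg_right ?_ (by positivity)
          have := hp 11 12 (by norm_num)
          have h5 : 0 < E ^ 12 := by positivity
          have e : (520 ^ 2 * E ^ 4) ^ 3 = 520 ^ 6 * E ^ 12 := by ring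
          rw [e]
          nlinarith
  have h5 : E ^ 2 * V ≤ (520 ^ 2 * E ^ 4) ^ 3 * V := by
    refine mul_le_mul_of_nonneg_right ?_ hV0
    have := hp 2 12 (by norm_num)
    have h5 : 0 < E ^ 12 := by positivity
    have e : (520 ^ 2 * E ^ 4) ^ 3 = 520 ^ 6 * E ^ 12 := by ring
    rw [e]
    nlinarith
  have hY0 : 0 ≤ V + (1 + W * σ) ^ 2 * (Z * (A + B)) := by positivity
  have h6 : (E ^ 2 * V + (1 + W * (σ * E)) ^ 2 * (E ^ 3 * Z * (520 ^ 2 * E ^ 6 * A + 520 * E ^ 4 * B))) ^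
      (1 / 3 : ℝ) ≤ (520 ^ 2 * E ^ 4) * (V + (1 + W * σ) ^ 2 * (Z * (A + B))) ^ (1 / 3 : ℝ) := by
    have h7 : E ^ 2 * V + (1 + W * (σ * E)) ^ 2 * (E ^ 3 * Z * (520 ^ 2 * E ^ 6 * A + 520 * E ^ 4 * B)) ≤
        (520 ^ 2 * E ^ 4) ^ 3 * (V + (1 + W * σ) ^ 2 * (Z * (A + B))) := by
      rw [_root_.mul_add ((520 ^ 2 * E ^ 4) ^ 3)]
      exact add_le_add h5 h4
    refine (Real.rpow_le_rpow (by positivity) h7 (by norm_num)).trans (le_of_eq ?_)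
    rw [Real.mul_rpow (by positivity) hY0]
    congr 1
    rw [← Real.rpow_natCast, ← Real.rpow_mul (by positivity)]
    norm_num
  have h7 : (E / H * ρ) ^ (3 / 2 : ℝ) ≤ 520 ^ 2 * E ^ 4 * (ρ / H) ^ (3 / 2 : ℝ) := by
    have e : E / H * ρ = E * (ρ / H) := by ring
    rw [e, Real.mul_rpow hE0.le (by positivity)]
    refine mul_le_mul_of_nonneg_right ?_ (by positivity)
    calc E ^ (3 / 2 : ℝ) ≤ E ^ ((4 : ℕ) : ℝ) := Real.rpow_le_rpow_of_exponent_le hE (by norm_num)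
      _ = E ^ 4 := Real.rpow_natCast _ _
      _ ≤ 520 ^ 2 * E ^ 4 := by
          have : 0 < E ^ 4 := by positivity
          nlinarith
  have h8 : 0 ≤ σ ^ (-(2 / 3) : ℝ) := by positivity
  calc _ ≤ σ ^ (-(2 / 3) : ℝ) * ((520 ^ 2 * E ^ 4) * (V + (1 + W * σ) ^ 2 * (Z * (A + B))) ^ (1 / 3 : ℝ)) +
        520 ^ 2 * E ^ 4 * (ρ / H) ^ (3 / 2 : ℝ) := add_le_add (mul_le_mul_of_nonneg_left h6 h8) h7
    _ = _ := by ring

/-- the arcs -/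
private noncomputable def h94_t (N j : ℕ) : ℝ := -6 + 12 * ((j : ℝ) + 1 / 2) / N

private theorem h94_t_abs {N j : ℕ} (hj : j < N) : |h94_t N j| ≤ 6 := by
  have hN : (0 : ℝ) < N := by
    have : 0 < N := by omega
    exact_mod_cast this
  have hj' : (j : ℝ) + 1 ≤ N := by exact_mod_cast hj
  have h1 : 12 * ((j : ℝ) + 1 / 2) / N ≤ 12 := by
    rw [div_le_iff₀ hN]
    linarith
  have h2 : 0 ≤ 12 * ((j : ℝ) + 1 / 2) / N := by positivity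
  unfold h94_t
  rw [abs_le]
  constructor <;> linarith

private theorem h94_t_sep {N j j' : ℕ} (hN : 0 < N) (h : j ≠ j') :
    12 / (N : ℝ) ≤ |h94_t N j - h94_t N j'| := by
  have hN' : (0 : ℝ) < N := by exact_mod_cast hN
  have e : h94_t N j - h94_t N j' = 12 / N * ((j : ℝ) - j') := by
    unfold h94_t
    ring
  rw [e, abs_mul, abs_of_pos (by positivity : (0 : ℝ) < 12 / N)]
  have h1 : (1 : ℝ) ≤ |(j : ℝ) - j'| := by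
    have h2 : (1 : ℤ) ≤ |(j : ℤ) - j'| := Int.one_le_abs (sub_ne_zero.2 (by exact_mod_cast h))
    have h3 : ((1 : ℤ) : ℝ) ≤ ((|(j : ℤ) - j'| : ℤ) : ℝ) := by exact_mod_cast h2
    push_cast at h3
    exact h3
  have h2 : (0 : ℝ) ≤ 12 / N := by positivity
  nlinarith

/-- the sum over the arcs which are not close to a direction -/
private theorem h94_count : ∃ C : ℝ, 0 < C ∧ ∀ (β ρ H E : ℝ) (N : ℕ) (S : Finset ℕ), 1 ≤ E → 1 ≤ H → 1 ≤ ρ → 1 ≤ N →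
    S ⊆ Finset.range N → (∀ j ∈ S, Par β ρ (h94_t N j) (12 / (N : ℝ) * E) (E / H)) →
    (∀ j ∈ S, ∀ g, IsDir β ρ (h94_t N j) (12 / (N : ℝ) * E) (E / H) g → E / H / (12 / (N : ℝ)) ≤ zz β g) →
      (∀ j ∈ S, I6 β ρ (h94_t N j) (12 / (N : ℝ) * E) (E / H) ≠ ⊤) ∧
      ∑ j ∈ S, (I6 β ρ (h94_t N j) (12 / (N : ℝ) * E) (E / H)).toReal ^ (1 / 3 : ℝ) ≤
        C * E ^ 5 * (1 + log ρ) * ((12 / (N : ℝ)) ^ (-(2 / 3) : ℝ) * (ρ ^ 2 / H +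
          (1 + ρ ^ (2 / 3 : ℝ) * (12 / (N : ℝ))) ^ 2 * (ρ ^ 2 / H ^ 3 *
          (ρ ^ 4 * (12 / (N : ℝ)) ^ 6 + ρ ^ 3 * (12 / (N : ℝ)) ^ 3 / H))) ^ (1 / 3 : ℝ) + (ρ / H) ^ (3 / 2 : ℝ)) := by
  classical
  obtain ⟨C, hC, hct⟩ := count_total
  refine ⟨C * 2 * 520 ^ 2, by positivity, ?_⟩
  intro β ρ H E N S hE hH hρ hN hS hPar hdir
  have hN' : (0 : ℝ) < N := by exact_mod_cast hN
  have hσ : (0 : ℝ) < 12 / (N : ℝ) := by positivity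
  have hinj : Set.InjOn (h94_t N) (S : Set ℕ) := by
    intro j _ j' _ h
    by_contra hne
    have h1 := h94_t_sep hN hne
    rw [h, sub_self, abs_zero] at h1
    linarith
  rcases S.eq_empty_or_nonempty with hSe | ⟨j₀, hj₀⟩
  · rw [hSe]
    refine ⟨fun j hj => absurd hj (Finset.notMem_empty j), ?_⟩
    rw [Finset.sum_empty]
    have h1 : 0 ≤ log ρ := log_nonneg hρ
    positivity
  have hσs : 12 / (N : ℝ) ≤ 12 / (N : ℝ) * E := le_mul_of_one_le_right hσ.le hE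
  have hd0 : 0 < E / H := by positivity
  have h64 : 64 * (E / H) * ρ * (12 / (N : ℝ)) < 1 := by
    have h1 := (hPar j₀ hj₀).hsd
    have h2 : 64 * ρ * (12 / (N : ℝ)) * (E / H) ≤ 64 * ρ * (12 / (N : ℝ) * E) * (E / H) := by
      refine mul_le_mul_of_nonneg_right ?_ hd0.le
      exact mul_le_mul_of_nonneg_left hσs (by positivity)
    have h3 : 64 * (E / H) * ρ * (12 / (N : ℝ)) = 64 * ρ * (12 / (N : ℝ)) * (E / H) := by ring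
    rw [h3]
    linarith
  have hcard : (((S.image (h94_t N)).card : ℕ) : ℝ) * (12 / (N : ℝ)) ≤ 13 := by
    have h1 : (S.image (h94_t N)).card ≤ N := by
      refine Finset.card_image_le.trans ((Finset.card_le_card hS).trans ?_)
      rw [Finset.card_range]
    have h2 : (((S.image (h94_t N)).card : ℕ) : ℝ) ≤ N := by exact_mod_cast h1
    have h3 := mul_le_mul_of_nonneg_right h2 hσ.le
    have h4 : (N : ℝ) * (12 / N) = 12 := by field_simp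
    linarith
  have h1 := hct β ρ (12 / (N : ℝ) * E) (E / H) (12 / (N : ℝ)) (S.image (h94_t N)) hσ hσs h64
    (by
      intro t ht
      obtain ⟨j, hj, rfl⟩ := Finset.mem_image.1 ht
      exact hPar j hj)
    (by
      intro t ht t' ht' hne
      obtain ⟨j, hj, rfl⟩ := Finset.mem_image.1 ht
      obtain ⟨j', hj', rfl⟩ := Finset.mem_image.1 ht'
      exact h94_t_sep hN fun h => hne (by rw [h]))
    hcard
    (by
      intro t ht g hg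
      obtain ⟨j, hj, rfl⟩ := Finset.mem_image.1 ht
      exact hdir j hj g hg)
  rw [Finset.sum_image hinj] at h1
  have h2 : ∀ j ∈ S, I6 β ρ (h94_t N j) (12 / (N : ℝ) * E) (E / H) ^ (1 / 3 : ℝ) ≠ ⊤ := by
    intro j hj htop
    have h3 : I6 β ρ (h94_t N j) (12 / (N : ℝ) * E) (E / H) ^ (1 / 3 : ℝ) ≤
        ∑ j ∈ S, I6 β ρ (h94_t N j) (12 / (N : ℝ) * E) (E / H) ^ (1 / 3 : ℝ) :=
      Finset.single_le_sum (f := fun j => I6 β ρ (h94_t N j) (12 / (N : ℝ) * E) (E / H) ^ (1 / 3 : ℝ))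
        (fun _ _ => zero_le) hj
    rw [htop] at h3
    exact absurd (h3.trans h1) (by simp)
  refine ⟨fun j hj htop => h2 j hj (by rw [htop]; exact ENNReal.top_rpow_of_pos (by norm_num)), ?_⟩
  have hlog : 0 ≤ log ρ := log_nonneg hρ
  have h3 := ENNReal.toReal_mono ENNReal.ofReal_ne_top h1
  rw [ENNReal.toReal_sum h2] at h3
  have h4 : ∑ j ∈ S, (I6 β ρ (h94_t N j) (12 / (N : ℝ) * E) (E / H)).toReal ^ (1 / 3 : ℝ) =
      ∑ j ∈ S, (I6 β ρ (h94_t N j) (12 / (N : ℝ) * E) (E / H) ^ (1 / 3 : ℝ)).toReal :=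
    Finset.sum_congr rfl fun j _ => ENNReal.toReal_rpow _ _
  rw [h4]
  have hin := h94_inner hE hH hρ hσ
  have hpos : 0 ≤ (12 / (N : ℝ)) ^ (-(2 / 3) : ℝ) * (ρ ^ 2 / H +
          (1 + ρ ^ (2 / 3 : ℝ) * (12 / (N : ℝ))) ^ 2 * (ρ ^ 2 / H ^ 3 *
          (ρ ^ 4 * (12 / (N : ℝ)) ^ 6 + ρ ^ 3 * (12 / (N : ℝ)) ^ 3 / H))) ^ (1 / 3 : ℝ) + (ρ / H) ^ (3 / 2 : ℝ) := by
    positivity
  refine h3.trans ?_
  rw [ENNReal.toReal_ofReal (by positivity)]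
  have e1 : 12 / (N : ℝ) * E / (12 / (N : ℝ)) = E := by field_simp
  have h5 : C * (1 + 12 / (N : ℝ) * E / (12 / (N : ℝ))) * (1 + log ρ) ≤ C * (2 * E) * (1 + log ρ) := by
    rw [e1]
    refine mul_le_mul_of_nonneg_right (mul_le_mul_of_nonneg_left (by linarith) hC.le) (by linarith)
  refine (mul_le_mul h5 hin (by positivity) (by positivity)).trans (le_of_eq ?_)
  ring

/-- the logarithm -/
private theorem h94_log {ε H ρ : ℝ} (hε : 0 < ε) (hH : 1 ≤ H) (hρ : 1 ≤ ρ) (h : ρ ≤ H ^ 3) :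
    1 + log ρ ≤ (1 + 3 / ε) * H ^ ε := by
  have hH0 : 0 < H := by linarith
  have h1 : log ρ ≤ 3 * log H := by
    have h2 := Real.log_le_log (by linarith) h
    rwa [Real.log_pow] at h2
  have h2 : log H ≤ H ^ ε / ε := Real.log_le_rpow_div hH0.le hε
  have h3 : 1 ≤ H ^ ε := Real.one_le_rpow hH hε.le
  have h4 : (1 + 3 / ε) * H ^ ε = H ^ ε + 3 * (H ^ ε / ε) := by ring
  rw [h4]
  linarith

theorem arcs_sum {ε : ℝ} (hε : 0 < ε) (hε1 : ε ≤ 1) (c₀ : ℝ) (Cd : ℕ → ℝ) : ∃ C : ℝ, 0 < C ∧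
    ∀ (β H ρ R₁ : ℝ) (v : ℝ → ℝ) (N : ℕ), |β| ≤ 1 / 2 → 1 ≤ H → 2 ≤ ρ → ρ ≤ H ^ 3 → ρ ≤ R₁ → R₁ ≤ 2 * ρ →
    IsDw (ρ * H ^ (-ε)) R₁ v c₀ Cd → 12 ≤ N → 1 ≤ ρ * H * (12 / (N : ℝ)) ^ 2 → H ^ (ε - 1) ≤ 12 / (N : ℝ) * H →
    (∀ t : ℝ, |t| ≤ 6 → Par β ρ t (12 / (N : ℝ) * H ^ ε) (H ^ (ε - 1))) →
      ∑ j ∈ Finset.range N, n6 (mu v) (gs (arc β (reg β H) N j) (fun _ => 1) (ph β)) ≤
        C * H ^ (20 * ε) * Bd6 H ρ (12 / (N : ℝ)) := by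
  classical
  obtain ⟨C1, hC1, harc⟩ := arc_n6 hε c₀ Cd
  obtain ⟨C2, hC2, hlt⟩ := ltype
  obtain ⟨C3, hC3, hcnt⟩ := h94_count
  refine ⟨4 * C2 + 12 * C1 + C1 * (C3 * (1 + 3 / ε)), by positivity, ?_⟩
  intro β H ρ R₁ v N hβ hH hρ2 hρH hR1 hR2 hdw hN hw h6 hPar
  have hH0 : 0 < H := by linarith
  have hρ1 : 1 ≤ ρ := by linarith
  have hρ0 : 0 < ρ := by linarith
  have hNpos : 0 < N := by omega
  have hN' : (0 : ℝ) < N := by exact_mod_cast hNpos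
  have hσ : (0 : ℝ) < 12 / (N : ℝ) := by positivity
  obtain ⟨E, hE⟩ : ∃ E, E = H ^ ε := ⟨_, rfl⟩
  have hE1 : 1 ≤ E := by rw [hE]; exact Real.one_le_rpow hH hε.le
  have hE0 : 0 < E := by linarith
  have hd : H ^ (ε - 1) = E / H := by rw [hE, Real.rpow_sub_one hH0.ne']
  have hE20 : H ^ (20 * ε) = E ^ 20 := by
    rw [hE, ← Real.rpow_natCast, ← Real.rpow_mul hH0.le]
    congr 1
    push_cast
    ring
  rw [hd] at h6
  rw [hE20]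
  have hPar' : ∀ j ∈ Finset.range N, Par β ρ (h94_t N j) (12 / (N : ℝ) * E) (E / H) := by
    intro j hj
    have h1 := hPar (h94_t N j) (h94_t_abs (Finset.mem_range.1 hj))
    rwa [hd, ← hE] at h1
  have hP0 := hPar' 0 (Finset.mem_range.2 hNpos)
  -- the arcs close to a direction
  obtain ⟨J, hJ⟩ : ∃ J : Finset ℕ, ∀ j, j ∈ J ↔ j ∈ Finset.range N ∧
      ∃ g : ℤ × ℤ, IsDir β ρ (h94_t N j) (12 / (N : ℝ) * E) (E / H) g ∧ zz β g < E / H / (12 / (N : ℝ)) :=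
    ⟨(Finset.range N).filter (fun j => ∃ g : ℤ × ℤ, IsDir β ρ (h94_t N j) (12 / (N : ℝ) * E) (E / H) g ∧
      zz β g < E / H / (12 / (N : ℝ))), fun j => Finset.mem_filter⟩
  have hJs : J ⊆ Finset.range N := fun j hj => ((hJ j).1 hj).1
  have hsplit := Finset.sum_sdiff (f := fun j => n6 (mu v) (gs (arc β (reg β H) N j) (fun _ => 1) (ph β))) hJs
  rw [← hsplit]
  -- the three terms
  obtain ⟨B1, hB1⟩ : ∃ B1, B1 = H ^ (4 / 3 : ℝ) * (12 / (N : ℝ)) ^ (-(1 / 3) : ℝ) := ⟨_, rfl⟩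
  obtain ⟨B3, hB3⟩ : ∃ B3, B3 = (12 / (N : ℝ)) ^ (-(2 / 3) : ℝ) * (ρ ^ 2 / H +
          (1 + ρ ^ (2 / 3 : ℝ) * (12 / (N : ℝ))) ^ 2 * (ρ ^ 2 / H ^ 3 *
          (ρ ^ 4 * (12 / (N : ℝ)) ^ 6 + ρ ^ 3 * (12 / (N : ℝ)) ^ 3 / H))) ^ (1 / 3 : ℝ) + (ρ / H) ^ (3 / 2 : ℝ) :=
    ⟨_, rfl⟩
  have hBd : Bd6 H ρ (12 / (N : ℝ)) = B1 + (12 / (N : ℝ))⁻¹ + H ^ 3 / ρ * ρ ^ (-(1 / 3) : ℝ) * B3 := by
    rw [hB1, hB3]
    rfl
  have hB10 : 0 ≤ B1 := by rw [hB1]; positivity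
  have hB30 : 0 ≤ B3 := by rw [hB3]; positivity
  have hE20' : ∀ m : ℕ, m ≤ 20 → E ^ m ≤ E ^ 20 := fun m h => pow_le_pow_right₀ hE1 h
  -- first part
  have part1 : ∑ j ∈ J, n6 (mu v) (gs (arc β (reg β H) N j) (fun _ => 1) (ph β)) ≤ 4 * C2 * E ^ 20 * B1 := by
    have h1 : ∑ j ∈ J, n6 (mu v) (gs (arc β (reg β H) N j) (fun _ => 1) (ph β)) ≤
        ∑ j ∈ J, ((arc β (reg β H) N j).card : ℝ) ^ (5 / 3 : ℝ) :=
      Finset.sum_le_sum fun j _ => n6_gs_card hdw.wt _ (fun _ => by rw [norm_one]) _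
    have h2 := hlt β H (12 / (N : ℝ) * E) (E / H) N J hβ hH (by omega)
      (le_mul_of_one_le_right hσ.le hE1) hP0.hs1 hP0.hd hP0.hd1 h6 hJs (by
        intro j hj
        obtain ⟨g, hg, hgz⟩ := ((hJ j).1 hj).2
        exact ⟨g, hg.cop, hg.pos, hgz.le, hg.close⟩)
    have e1 : H * (E / H) * (12 / (N : ℝ) * E) / (12 / (N : ℝ)) = E ^ 2 := by
      field_simp
    have h3 : (1 + H * (E / H) * (12 / (N : ℝ) * E) / (12 / (N : ℝ))) ^ (5 / 3 : ℝ) ≤ 4 * E ^ 4 := by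
      rw [e1]
      have h4 : 1 + E ^ 2 ≤ 2 * E ^ 2 := by nlinarith
      refine (Real.rpow_le_rpow (by positivity) h4 (by norm_num)).trans ?_
      refine (Real.rpow_le_rpow_of_exponent_le (by nlinarith) (by norm_num : (5 / 3 : ℝ) ≤ ((2 : ℕ) : ℝ))).trans
        (le_of_eq ?_)
      rw [Real.rpow_natCast]
      ring
    have h4 : H ^ (5 / 3 : ℝ) * (E / H / (12 / (N : ℝ))) ^ (1 / 3 : ℝ) ≤ E * B1 := by
      rw [hB1, div_eq_mul_inv (E / H), Real.mul_rpow (by positivity) (by positivity),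
        Real.div_rpow hE0.le hH0.le, Real.inv_rpow hσ.le, ← Real.rpow_neg hσ.le]
      have h5 : E ^ (1 / 3 : ℝ) ≤ E := by
        calc E ^ (1 / 3 : ℝ) ≤ E ^ (1 : ℝ) := Real.rpow_le_rpow_of_exponent_le hE1 (by norm_num)
          _ = E := Real.rpow_one E
      have h6 : H ^ (5 / 3 : ℝ) = H ^ (4 / 3 : ℝ) * H ^ (1 / 3 : ℝ) := by
        rw [← Real.rpow_add hH0]
        norm_num
      have h7 : 0 < H ^ (1 / 3 : ℝ) := by positivity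
      have e2 : H ^ (5 / 3 : ℝ) * (E ^ (1 / 3 : ℝ) / H ^ (1 / 3 : ℝ) * (12 / (N : ℝ)) ^ (-(1 / 3) : ℝ)) =
          E ^ (1 / 3 : ℝ) * (H ^ (4 / 3 : ℝ) * (12 / (N : ℝ)) ^ (-(1 / 3) : ℝ)) := by
        rw [h6]
        field_simp
      rw [e2]
      exact mul_le_mul_of_nonneg_right h5 (by positivity)
    calc ∑ j ∈ J, n6 (mu v) (gs (arc β (reg β H) N j) (fun _ => 1) (ph β))
        ≤ C2 * (1 + H * (E / H) * (12 / (N : ℝ) * E) / (12 / (N : ℝ))) ^ (5 / 3 : ℝ) * H ^ (5 / 3 : ℝ) *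
          (E / H / (12 / (N : ℝ))) ^ (1 / 3 : ℝ) := h1.trans h2
      _ = C2 * ((1 + H * (E / H) * (12 / (N : ℝ) * E) / (12 / (N : ℝ))) ^ (5 / 3 : ℝ) * (H ^ (5 / 3 : ℝ) *
          (E / H / (12 / (N : ℝ))) ^ (1 / 3 : ℝ))) := by ring
      _ ≤ C2 * ((4 * E ^ 4) * (E * B1)) := by
          refine mul_le_mul_of_nonneg_left ?_ hC2.le
          exact mul_le_mul h3 h4 (by positivity) (by positivity)
      _ = 4 * C2 * E ^ 5 * B1 := by ring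
      _ ≤ 4 * C2 * E ^ 20 * B1 := by
          refine mul_le_mul_of_nonneg_right ?_ hB10
          exact mul_le_mul_of_nonneg_left (hE20' 5 (by norm_num)) (by positivity)
  -- second part
  have part2 : ∑ j ∈ Finset.range N \ J, n6 (mu v) (gs (arc β (reg β H) N j) (fun _ => 1) (ph β)) ≤
      12 * C1 * E ^ 20 * (12 / (N : ℝ))⁻¹ + C1 * (C3 * (1 + 3 / ε)) * E ^ 20 *
        (H ^ 3 / ρ * ρ ^ (-(1 / 3) : ℝ) * B3) := by
    obtain ⟨hfin, hsum⟩ := hcnt β ρ H E N (Finset.range N \ J) hE1 hH hρ1 (by omega) Finset.sdiff_subset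
      (fun j hj => hPar' j (Finset.mem_sdiff.1 hj).1) (by
        intro j hj g hg
        by_contra hcon
        exact (Finset.mem_sdiff.1 hj).2 ((hJ j).2 ⟨(Finset.mem_sdiff.1 hj).1, g, hg, not_le.1 hcon⟩))
    rw [← hB3] at hsum
    have h1 : ∀ j ∈ Finset.range N \ J, n6 (mu v) (gs (arc β (reg β H) N j) (fun _ => 1) (ph β)) ≤
        C1 * (H ^ 3 / ρ * (E / ρ * (I6 β ρ (h94_t N j) (12 / (N : ℝ) * E) (E / H)).toReal) ^ (1 / 3 : ℝ) + 1) := by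
      intro j hj
      have h2 := harc β H ρ R₁ v N j hβ hH hρ2 hρH hR1 hR2 hdw hN
        (Finset.mem_range.1 (Finset.mem_sdiff.1 hj).1) hw (by
          rw [hd, ← hE]
          exact hfin j hj)
      rw [hd, ← hE] at h2
      exact h2
    have h2 : ∀ j ∈ Finset.range N \ J,
        C1 * (H ^ 3 / ρ * (E / ρ * (I6 β ρ (h94_t N j) (12 / (N : ℝ) * E) (E / H)).toReal) ^ (1 / 3 : ℝ) + 1) =
        C1 * (H ^ 3 / ρ * (E / ρ) ^ (1 / 3 : ℝ)) *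
          (I6 β ρ (h94_t N j) (12 / (N : ℝ) * E) (E / H)).toReal ^ (1 / 3 : ℝ) + C1 := by
      intro j _
      rw [Real.mul_rpow (by positivity) ENNReal.toReal_nonneg]
      ring
    refine (Finset.sum_le_sum h1).trans ?_
    rw [Finset.sum_congr rfl h2, Finset.sum_add_distrib, ← Finset.mul_sum, Finset.sum_const, nsmul_eq_mul]
    have h3 : (((Finset.range N \ J).card : ℕ) : ℝ) * C1 ≤ 12 * C1 * E ^ 20 * (12 / (N : ℝ))⁻¹ := by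
      have h4 : (Finset.range N \ J).card ≤ N := by
        refine (Finset.card_le_card Finset.sdiff_subset).trans ?_
        rw [Finset.card_range]
      have h5 : (((Finset.range N \ J).card : ℕ) : ℝ) ≤ N := by exact_mod_cast h4
      have e1 : 12 * C1 * E ^ 20 * (12 / (N : ℝ))⁻¹ = C1 * E ^ 20 * N := by
        field_simp
      rw [e1]
      have h6 : 1 ≤ E ^ 20 := one_le_pow₀ hE1
      calc (((Finset.range N \ J).card : ℕ) : ℝ) * C1 ≤ N * C1 := mul_le_mul_of_nonneg_right h5 hC1.le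
        _ = C1 * 1 * N := by ring
        _ ≤ C1 * E ^ 20 * N := by
            refine mul_le_mul_of_nonneg_right ?_ hN'.le
            exact mul_le_mul_of_nonneg_left h6 hC1.le
    have h4 : (E / ρ) ^ (1 / 3 : ℝ) ≤ E * ρ ^ (-(1 / 3) : ℝ) := by
      rw [Real.div_rpow hE0.le hρ0.le, div_eq_mul_inv, ← Real.rpow_neg hρ0.le]
      refine mul_le_mul_of_nonneg_right ?_ (by positivity)
      calc E ^ (1 / 3 : ℝ) ≤ E ^ (1 : ℝ) := Real.rpow_le_rpow_of_exponent_le hE1 (by norm_num)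
        _ = E := Real.rpow_one E
    have h5 := h94_log hε hH hρ1 hρH
    rw [← hE] at h5
    have hlog : 0 ≤ 1 + log ρ := by
      have := log_nonneg hρ1
      linarith
    have h6 : ∑ j ∈ Finset.range N \ J, (I6 β ρ (h94_t N j) (12 / (N : ℝ) * E) (E / H)).toReal ^ (1 / 3 : ℝ) ≤
        C3 * E ^ 5 * ((1 + 3 / ε) * E) * B3 := by
      refine hsum.trans (mul_le_mul_of_nonneg_right ?_ hB30)
      exact mul_le_mul_of_nonneg_left h5 (by positivity)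
    have h7 : C1 * (H ^ 3 / ρ * (E / ρ) ^ (1 / 3 : ℝ)) *
          ∑ j ∈ Finset.range N \ J, (I6 β ρ (h94_t N j) (12 / (N : ℝ) * E) (E / H)).toReal ^ (1 / 3 : ℝ) ≤
        C1 * (C3 * (1 + 3 / ε)) * E ^ 20 * (H ^ 3 / ρ * ρ ^ (-(1 / 3) : ℝ) * B3) := by
      calc C1 * (H ^ 3 / ρ * (E / ρ) ^ (1 / 3 : ℝ)) *
          ∑ j ∈ Finset.range N \ J, (I6 β ρ (h94_t N j) (12 / (N : ℝ) * E) (E / H)).toReal ^ (1 / 3 : ℝ)
          ≤ C1 * (H ^ 3 / ρ * (E * ρ ^ (-(1 / 3) : ℝ))) * (C3 * E ^ 5 * ((1 + 3 / ε) * E) * B3) := by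
            refine mul_le_mul ?_ h6 (Finset.sum_nonneg fun j _ => by positivity) (by positivity)
            refine mul_le_mul_of_nonneg_left ?_ hC1.le
            exact mul_le_mul_of_nonneg_left h4 (by positivity)
        _ = C1 * (C3 * (1 + 3 / ε)) * E ^ 7 * (H ^ 3 / ρ * ρ ^ (-(1 / 3) : ℝ) * B3) := by ring
        _ ≤ C1 * (C3 * (1 + 3 / ε)) * E ^ 20 * (H ^ 3 / ρ * ρ ^ (-(1 / 3) : ℝ) * B3) := by
            refine mul_le_mul_of_nonneg_right ?_ (by positivity)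
            exact mul_le_mul_of_nonneg_left (hE20' 7 (by norm_num)) (by positivity)
    linarith
  rw [hBd]
  have q1 : 0 ≤ E ^ 20 * B1 := by positivity
  have q2 : 0 ≤ E ^ 20 * (12 / (N : ℝ))⁻¹ := by positivity
  have q3 : 0 ≤ E ^ 20 * (H ^ 3 / ρ * ρ ^ (-(1 / 3) : ℝ) * B3) := by positivity
  obtain ⟨k1, hk1⟩ : ∃ k1, k1 = 4 * C2 := ⟨_, rfl⟩
  obtain ⟨k2, hk2⟩ : ∃ k2, k2 = 12 * C1 := ⟨_, rfl⟩
  obtain ⟨k3, hk3⟩ : ∃ k3, k3 = C1 * (C3 * (1 + 3 / ε)) := ⟨_, rfl⟩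
  have hk10 : 0 ≤ k1 := by rw [hk1]; positivity
  have hk20 : 0 ≤ k2 := by rw [hk2]; positivity
  have hk30 : 0 ≤ k3 := by rw [hk3]; positivity
  rw [← hk1] at part1
  rw [← hk2, ← hk3] at part2
  rw [← hk1, ← hk2, ← hk3]
  have e : (k1 + k2 + k3) * E ^ 20 * (B1 + (12 / (N : ℝ))⁻¹ + H ^ 3 / ρ * ρ ^ (-(1 / 3) : ℝ) * B3) =
      k1 * E ^ 20 * B1 + (k2 * E ^ 20 * (12 / (N : ℝ))⁻¹ + k3 * E ^ 20 * (H ^ 3 / ρ * ρ ^ (-(1 / 3) : ℝ) * B3)) +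
      ((k2 + k3) * (E ^ 20 * B1) + (k1 + k3) * (E ^ 20 * (12 / (N : ℝ))⁻¹) +
        (k1 + k2) * (E ^ 20 * (H ^ 3 / ρ * ρ ^ (-(1 / 3) : ℝ) * B3))) := by ring
  rw [e]
  have r1 : 0 ≤ (k2 + k3) * (E ^ 20 * B1) := mul_nonneg (by linarith) q1
  have r2 : 0 ≤ (k1 + k3) * (E ^ 20 * (12 / (N : ℝ))⁻¹) := mul_nonneg (by linarith) q2
  have r3 : 0 ≤ (k1 + k2) * (E ^ 20 * (H ^ 3 / ρ * ρ ^ (-(1 / 3) : ℝ) * B3)) := mul_nonneg (by linarith) q3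
  linarith

end Pool.Agent.Helper92.GC
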