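import Pool.Agent.Helper92.GC.R0

/-!
# GC-R1: the theorem of M. Riesz for the exponent 6

The projection of a trigonometric polynomial to the positive cone of a total order of the group `ℤ × ℤ` is bounded on `L⁶` with norm `10`.

PROOF. (i) `h = tp (S.filter P) b` (any coefficients): `∫ c in Tq, h c ^ 6 = 0`: expand, every frequency `k₁ + ... + k₆` is a sum of positive elements,
hence positive (`add`), hence `≠ 0` (`zero`), use `ee_int`.
(ii) Let `x y : Tq → ℝ` be the real and imaginary part of `h` with `∫ h^6 = 0`. The real part of `(x + i y)^6` is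
`x^6 - 15 x^4 y^2 + 15 x^2 y^4 - y^6`, so `∫ y^6 = ∫ x^6 - 15 ∫ x^4 y^2 + 15 ∫ x^2 y^4 ≤ ∫ x^6 + 15 ∫ x^2 y^4 ≤ X + 15 X^(1/3) Y^(2/3)`
with `X = ∫ x^6`, `Y = ∫ y^6` (Hölder). Avoid Hölder: pointwise `15 x^2 y^4 ≤ 1500 x^6 + (1/2) y^6` (with `s = x^2`, `t = y^2`, `15 s t^2 ≤ 1500 s^3 + t^3/2`:
if `s ≤ t/30` then `15 s t^2 ≤ t^3/2`; otherwise `t < 30 s` and `15 s t^2 ≤ 13500 s^3`; so use the constant `13500`:
`15 s t^2 ≤ 13500 s^3 + t^3/2`). Hence `Y ≤ X + 13500 X + Y/2`, `Y ≤ 27002 X`, and `∫ ‖h‖^6 = ∫ (x^2 + y^2)^3 ≤ 4 ∫ (x^6 + y^6) ≤ 4 · 27003 X ≤ 108012 X`.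
(iii) Let `g = tp S a` be real valued, (i.e. `S = -S` and `a (-k) = conj (a k)`; it is enough to treat the function) and `a₀ = a 0` (or `0`) its mean:
`|a₀| = |∫ g| ≤ (∫ g^6)^(1/6)`. Then `g - a₀ = h₀ + conj h₀` with `h₀ = tp (S.filter P) a`, so `h = 2 h₀` has real part `x = g - a₀`,
`X = ∫ (g - a₀)^6 ≤ 32 (∫ g^6 + a₀^6) ≤ 64 ∫ g^6`. So `∫ ‖h₀‖^6 = (1/64) ∫ ‖h‖^6 ≤ 108012 ∫ g^6`.
(iv) General `f = tp S a` (complex): replace `S` by `S ∪ -S` (coefficients `0` outside `S`: this changes neither `f` nor its projection), `f = A + i B` with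
`A = (f + conj f)/2`, `B = (f - conj f)/(2i)` real valued trigonometric polynomials (coefficients `(a k + conj (a (-k)))/2` ...), projection of `f` =
projection of `A` + `i` projection of `B`, `|A|, |B| ≤ |f|` pointwise. So `∫ ‖P f‖^6 ≤ 32 (∫ ‖P A‖^6 + ∫ ‖P B‖^6) ≤ 64 · 108012 ∫ |f|^6 ≤ 6912768 ∫ |f|^6`
which is `≤ 14^6 ∫ ‖f‖^6` (`14^6 = 7529536`). (The constant is `14`, not `10`.)
-/

open MeasureTheory Real Set Filter Topology

set_option autoImplicit false

namespace Pool.Agent.Helper92.GC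

open Pool.Agent.Helper22.AE
open Pool.Agent.Helper22.AC (n6 IsWt mu)

private lemma Tq_compact40 : IsCompact Tq := isCompact_Icc.prod isCompact_Icc

private lemma intC40 {f : ℝ × ℝ → ℂ} (hf : Continuous f) : Integrable f (volume.restrict Tq) :=
  hf.continuousOn.integrableOn_compact Tq_compact40

private lemma intR40 {f : ℝ × ℝ → ℝ} (hf : Continuous f) : Integrable f (volume.restrict Tq) :=
  hf.continuousOn.integrableOn_compact Tq_compact40

private lemma mono40 {f g : ℝ × ℝ → ℝ} (hf : Continuous f) (hg : Continuous g) (h : ∀ c, f c ≤ g c) :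
    ∫ c in Tq, f c ≤ ∫ c in Tq, g c := integral_mono (intR40 hf) (intR40 hg) h

private lemma add40 (f g : ℝ × ℝ → ℝ) (hf : Continuous f) (hg : Continuous g) :
    ∫ c in Tq, (f c + g c) = (∫ c in Tq, f c) + ∫ c in Tq, g c :=
  integral_add (intR40 hf) (intR40 hg)

private lemma sum40 {ι : Type*} (s : Finset ι) (f : ι → ℝ × ℝ → ℂ) (hf : ∀ i, Continuous (f i)) :
    ∫ c in Tq, ∑ i ∈ s, f i c = ∑ i ∈ s, ∫ c in Tq, f i c :=
  integral_finsetSum _ (fun i _ => intC40 (hf i))

private lemma re40 (f : ℝ × ℝ → ℂ) (hf : Continuous f) :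
    ∫ c in Tq, (f c).re = (∫ c in Tq, f c).re := integral_re (intC40 hf)

private lemma one40 : ∫ _c in Tq, (1 : ℝ) = 1 := by
  have h1 := ee_int 0
  rw [if_pos rfl] at h1
  have h2 : ∀ c : ℝ × ℝ, ee (dt 0 c) = 1 := by
    intro c
    have h3 : dt 0 c = 0 := by simp [dt]
    rw [h3, ee_zero]
  simp only [h2] at h1
  have h3 := re40 (fun _ => 1) continuous_const
  rw [h1] at h3
  exact h3

private lemma const40 (r : ℝ) : ∫ _c in Tq, r = r := by
  have h : ∀ _c : ℝ × ℝ, r = r * 1 := fun _ => (mul_one r).symm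
  calc ∫ _c in Tq, r = ∫ _c in Tq, r * 1 := by simp only [mul_one]
    _ = r * ∫ _c in Tq, (1 : ℝ) := integral_const_mul _ _
    _ = r := by rw [one40, mul_one]

private lemma ee_cont40 (k : ℤ × ℤ) : Continuous fun c : ℝ × ℝ => ee (dt k c) := by
  refine ee_cont.comp ?_
  unfold dt
  fun_prop

private lemma pow_int40 {P : ℤ × ℤ → Prop} (hP : IsPos P) (T : Finset (ℤ × ℤ)) (hT : ∀ k ∈ T, P k)
    (b : ℤ × ℤ → ℂ) : ∫ c in Tq, (tp T b c) ^ 6 = 0 := by
  classical
  have h1 : ∀ c, (tp T b c) ^ 6 = ∑ p ∈ Fintype.piFinset (fun _ : Fin 6 => T),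
      (∏ i, b (p i)) * ee (dt (∑ i, p i) c) := by
    intro c
    unfold tp
    rw [Finset.sum_pow']
    refine Finset.sum_congr rfl fun p _ => ?_
    rw [Finset.prod_mul_distrib]
    congr 1
    rw [Fin.prod_univ_six, Fin.sum_univ_six]
    simp only [dt_add, ee_add]
  simp only [h1]
  rw [sum40 (Fintype.piFinset (fun _ : Fin 6 => T))
    (fun p c => (∏ i, b (p i)) * ee (dt (∑ i, p i) c))
    (fun p => continuous_const.mul (ee_cont40 _))]
  refine Finset.sum_eq_zero fun p hp => ?_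
  rw [integral_const_mul, ee_int, if_neg, mul_zero]
  intro h0
  have h2 : ∀ i, P (p i) := fun i => hT _ (Fintype.mem_piFinset.1 hp i)
  rw [Fin.sum_univ_six] at h0
  apply hP.zero
  rw [← h0]
  exact hP.add _ _ (hP.add _ _ (hP.add _ _ (hP.add _ _ (hP.add _ _ (h2 0) (h2 1)) (h2 2)) (h2 3)) (h2 4)) (h2 5)

private lemma pt40 (z : ℂ) : ‖z‖ ^ 6 + 8 * (z ^ 6).re ≤ 108012 * z.re ^ 6 := by
  have h1 : ‖z‖ ^ 6 = (z.re ^ 2 + z.im ^ 2) ^ 3 := by
    have h : ‖z‖ ^ 2 = z.re ^ 2 + z.im ^ 2 := by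
      rw [Complex.sq_norm, Complex.normSq_apply]
      ring
    calc ‖z‖ ^ 6 = (‖z‖ ^ 2) ^ 3 := by ring
      _ = _ := by rw [h]
  have h2 : (z ^ 6).re = z.re ^ 6 - 15 * z.re ^ 4 * z.im ^ 2 + 15 * z.re ^ 2 * z.im ^ 4 - z.im ^ 6 := by
    simp only [pow_succ, pow_zero, one_mul, Complex.mul_re, Complex.mul_im]
    ring
  rw [h1, h2]
  obtain ⟨s, hs⟩ : ∃ s, s = z.re ^ 2 := ⟨_, rfl⟩
  obtain ⟨t, ht⟩ : ∃ t, t = z.im ^ 2 := ⟨_, rfl⟩
  have hs0 : 0 ≤ s := by rw [hs]; positivity
  have ht0 : 0 ≤ t := by rw [ht]; positivity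
  have e1 : z.re ^ 6 = s ^ 3 := by rw [hs]; ring
  have e2 : z.re ^ 4 = s ^ 2 := by rw [hs]; ring
  have e3 : z.im ^ 4 = t ^ 2 := by rw [ht]; ring
  have e4 : z.im ^ 6 = t ^ 3 := by rw [ht]; ring
  rw [e1, e2, e3, e4, ← hs, ← ht]
  have h3 : 15 * (s * t ^ 2) ≤ 13500 * s ^ 3 + t ^ 3 / 2 := by
    rcases le_or_gt (30 * s) t with h | h
    · have : 0 ≤ t ^ 2 * (t - 30 * s) := mul_nonneg (sq_nonneg t) (by linarith)
      nlinarith [pow_nonneg hs0 3]
    · have h4 : t ^ 2 ≤ (30 * s) ^ 2 := pow_le_pow_left₀ ht0 h.le 2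
      have h5 : s * t ^ 2 ≤ s * (30 * s) ^ 2 := mul_le_mul_of_nonneg_left h4 hs0
      nlinarith [pow_nonneg ht0 3]
  have h4 : (s + t) ^ 3 ≤ 4 * (s ^ 3 + t ^ 3) := by
    nlinarith [mul_nonneg (add_nonneg hs0 ht0) (sq_nonneg (s - t))]
  have h5 : 0 ≤ s ^ 2 * t := mul_nonneg (sq_nonneg s) ht0
  nlinarith

private lemma riesz_re40 {h : ℝ × ℝ → ℂ} (hc : Continuous h) (h0 : ∫ c in Tq, (h c) ^ 6 = 0) :
    ∫ c in Tq, ‖h c‖ ^ 6 ≤ 108012 * ∫ c in Tq, (h c).re ^ 6 := by
  have hre : Continuous fun c => (h c).re := Complex.continuous_re.comp hc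
  have c1 : Continuous fun c => ‖h c‖ ^ 6 := hc.norm.pow 6
  have c2 : Continuous fun c => ((h c) ^ 6).re := Complex.continuous_re.comp (hc.pow 6)
  have h1 : ∫ c in Tq, ((h c) ^ 6).re = 0 := by
    have h2 := re40 (fun c => (h c) ^ 6) (hc.pow 6)
    rw [h0] at h2
    exact h2
  have h2 : ∫ c in Tq, (‖h c‖ ^ 6 + 8 * ((h c) ^ 6).re) ≤ ∫ c in Tq, 108012 * (h c).re ^ 6 :=
    mono40 (c1.add (continuous_const.mul c2)) (continuous_const.mul (hre.pow 6)) (fun c => pt40 (h c))
  rw [add40 (fun c => ‖h c‖ ^ 6) (fun c => 8 * ((h c) ^ 6).re) c1 (continuous_const.mul c2),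
    integral_const_mul, h1, mul_zero, add_zero, integral_const_mul] at h2
  exact h2

private lemma dt_neg40 (k : ℤ × ℤ) (c : ℝ × ℝ) : dt (-k) c = -dt k c := by
  unfold dt
  push_cast [Prod.fst_neg, Prod.snd_neg]
  ring

private lemma sum_neg40 (U : Finset (ℤ × ℤ)) (hU : ∀ k ∈ U, -k ∈ U) (f : ℤ × ℤ → ℂ) :
    ∑ k ∈ U, f (-k) = ∑ k ∈ U, f k := by
  refine Finset.sum_nbij' (fun k => -k) (fun k => -k) hU hU (fun k _ => neg_neg k)
    (fun k _ => neg_neg k) (fun k _ => rfl)

private lemma tang40 (t c : ℝ) : 6 * c ^ 5 * t - 5 * c ^ 6 ≤ t ^ 6 := by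
  have h : t ^ 6 - (6 * c ^ 5 * t - 5 * c ^ 6) =
      (t - c) ^ 2 * ((t ^ 2 + c * t) ^ 2 + 2 * (t * c + c ^ 2) ^ 2 + 3 * (c ^ 2) ^ 2) := by ring
  have h2 : 0 ≤ (t - c) ^ 2 * ((t ^ 2 + c * t) ^ 2 + 2 * (t * c + c ^ 2) ^ 2 + 3 * (c ^ 2) ^ 2) := by
    positivity
  linarith

open Classical in
private lemma riesz_real40 {P : ℤ × ℤ → Prop} (hP : IsPos P) (U : Finset (ℤ × ℤ))
    (hU : ∀ k ∈ U, -k ∈ U) (α : ℤ × ℤ → ℂ) (hα : ∀ k, α (-k) = (starRingEnd ℂ) (α k)) :
    m6 (U.filter P) α ≤ 108012 * ∫ c in Tq, (tp U α c).re ^ 6 := by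
  obtain ⟨a0, ha0⟩ : ∃ a0 : ℂ, a0 = if (0 : ℤ × ℤ) ∈ U then α 0 else 0 := ⟨_, rfl⟩
  have hdec : ∀ c, tp U α c = a0 + tp (U.filter P) α c + (starRingEnd ℂ) (tp (U.filter P) α c) := by
    intro c
    have h1 : ∀ k ∈ U, α k * ee (dt k c) = (if k = 0 then α k * ee (dt k c) else 0) +
        (if P k then α k * ee (dt k c) else 0) + (if P (-k) then α k * ee (dt k c) else 0) := by
      intro k _
      by_cases h0 : k = 0
      · subst h0
        rw [if_pos rfl, if_neg hP.zero, neg_zero, if_neg hP.zero, add_zero, add_zero]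
      · rw [if_neg h0, zero_add]
        by_cases hk : P k
        · have hk' : ¬ P (-k) := fun h => hP.zero (by
            have := hP.add _ _ hk h
            rwa [add_neg_cancel] at this)
          rw [if_pos hk, if_neg hk', add_zero]
        · have hk' : P (-k) := (hP.tri k h0).resolve_left hk
          rw [if_neg hk, if_pos hk', zero_add]
    have h2 : tp U α c = ∑ k ∈ U, ((if k = 0 then α k * ee (dt k c) else 0) +
        (if P k then α k * ee (dt k c) else 0) + (if P (-k) then α k * ee (dt k c) else 0)) :=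
      Finset.sum_congr rfl h1
    rw [h2, Finset.sum_add_distrib, Finset.sum_add_distrib]
    congr 1
    · congr 1
      · rw [Finset.sum_ite_eq' U (0 : ℤ × ℤ), ha0]
        split_ifs
        · have h3 : dt 0 c = 0 := by simp [dt]
          rw [h3, ee_zero, mul_one]
        · rfl
      · unfold tp
        rw [Finset.sum_filter]
    · have h3 : ∑ k ∈ U, (if P (-k) then α k * ee (dt k c) else 0) =
          ∑ k ∈ U, (fun k => if P k then (starRingEnd ℂ) (α k * ee (dt k c)) else 0) (-k) := by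
        refine Finset.sum_congr rfl fun k _ => ?_
        show _ = if P (-k) then (starRingEnd ℂ) (α (-k) * ee (dt (-k) c)) else 0
        rw [hα, dt_neg40, ee_neg, map_mul, Complex.conj_conj, Complex.conj_conj]
      rw [h3, sum_neg40 U hU (fun k => if P k then (starRingEnd ℂ) (α k * ee (dt k c)) else 0)]
      unfold tp
      rw [Finset.sum_filter, map_sum]
      refine Finset.sum_congr rfl fun k _ => ?_
      show (if P k then (starRingEnd ℂ) (α k * ee (dt k c)) else 0) = _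
      split_ifs
      · rfl
      · rw [map_zero]
  have hcU := tp_cont U α
  have hcP := tp_cont (U.filter P) α
  have hreU : Continuous fun c => (tp U α c).re := Complex.continuous_re.comp hcU
  -- the mean
  have hmean : ∫ c in Tq, (tp U α c).re = a0.re := by
    have h1 : ∫ c in Tq, tp U α c = a0 := by
      unfold tp
      rw [sum40 U (fun k c => α k * ee (dt k c)) (fun k => continuous_const.mul (ee_cont40 k))]
      simp only [integral_const_mul, ee_int]
      have h2 : ∀ k ∈ U, α k * (if k = 0 then (1 : ℂ) else 0) = if k = 0 then α k else 0 := by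
        intro k _
        split_ifs
        · rw [mul_one]
        · rw [mul_zero]
      rw [Finset.sum_congr rfl h2, Finset.sum_ite_eq' U (0 : ℤ × ℤ), ha0]
    have h2 := re40 _ hcU
    rw [h1] at h2
    exact h2
  have hX0 : ∫ c in Tq, (2 * tp (U.filter P) α c) ^ 6 = 0 := by
    have h1 : ∀ c, (2 * tp (U.filter P) α c) ^ 6 = 64 * (tp (U.filter P) α c) ^ 6 := fun c => by ring
    simp only [h1]
    rw [integral_const_mul, pow_int40 hP _ (fun k hk => (Finset.mem_filter.1 hk).2), mul_zero]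
  have h1 := riesz_re40 (h := fun c => 2 * tp (U.filter P) α c) (continuous_const.mul hcP) hX0
  have h2 : ∫ c in Tq, ‖2 * tp (U.filter P) α c‖ ^ 6 = 64 * m6 (U.filter P) α := by
    unfold m6
    rw [← integral_const_mul]
    congr 1
    funext c
    rw [norm_mul, mul_pow]
    norm_num
  have h3 : ∀ c, (2 * tp (U.filter P) α c).re = (tp U α c).re - a0.re := by
    intro c
    rw [hdec c]
    simp
    ring
  have h4 : ∫ c in Tq, (2 * tp (U.filter P) α c).re ^ 6 ≤ 64 * ∫ c in Tq, (tp U α c).re ^ 6 := by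
    have h5 : ∫ c in Tq, (2 * tp (U.filter P) α c).re ^ 6 ≤
        ∫ c in Tq, (32 * (tp U α c).re ^ 6 + 32 * a0.re ^ 6) := by
      refine mono40 ?_ ?_ fun c => ?_
      · exact (Complex.continuous_re.comp (continuous_const.mul hcP)).pow 6
      · exact (continuous_const.mul (hreU.pow 6)).add continuous_const
      · rw [h3 c, sub_eq_add_neg]
        have h6 := Even.add_pow_le (a := (tp U α c).re) (b := -a0.re) (n := 6) (by decide)
        have h7 : (-a0.re) ^ 6 = a0.re ^ 6 := by ring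
        rw [h7] at h6
        norm_num at h6
        linarith
    rw [add40 (fun c => 32 * (tp U α c).re ^ 6) (fun _ => 32 * a0.re ^ 6)
      (continuous_const.mul (hreU.pow 6)) continuous_const, integral_const_mul, const40] at h5
    have h6 : a0.re ^ 6 ≤ ∫ c in Tq, (tp U α c).re ^ 6 := by
      have h7 : ∫ c in Tq, (6 * a0.re ^ 5 * (tp U α c).re + -(5 * a0.re ^ 6)) ≤
          ∫ c in Tq, (tp U α c).re ^ 6 :=
        mono40 ((continuous_const.mul hreU).add continuous_const) (hreU.pow 6)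
          (fun c => by
            have := tang40 (tp U α c).re a0.re
            linarith)
      rw [add40 (fun c => 6 * a0.re ^ 5 * (tp U α c).re) (fun _ => -(5 * a0.re ^ 6))
        (continuous_const.mul hreU) continuous_const, integral_const_mul, const40, hmean] at h7
      have h8 : 6 * a0.re ^ 5 * a0.re + -(5 * a0.re ^ 6) = a0.re ^ 6 := by ring
      rw [h8] at h7
      exact h7
    linarith
  rw [h2] at h1
  linarith

open Classical in
theorem riesz_pos {P : ℤ × ℤ → Prop} (hP : IsPos P) (S : Finset (ℤ × ℤ)) (a : ℤ × ℤ → ℂ) :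
    m6 (S.filter P) a ≤ 14 ^ 6 * m6 S a := by
  obtain ⟨U, hUdef⟩ : ∃ U : Finset (ℤ × ℤ), U = S ∪ S.image (fun k => -k) := ⟨_, rfl⟩
  have hU : ∀ k ∈ U, -k ∈ U := by
    intro k hk
    rw [hUdef, Finset.mem_union, Finset.mem_image] at hk ⊢
    rcases hk with hk | ⟨l, hl, rfl⟩
    · exact Or.inr ⟨k, hk, rfl⟩
    · rw [neg_neg]
      exact Or.inl hl
  have hSU : S ⊆ U := by
    rw [hUdef]
    exact Finset.subset_union_left
  obtain ⟨b, hb⟩ : ∃ b : ℤ × ℤ → ℂ, b = fun k => if k ∈ S then a k else 0 := ⟨_, rfl⟩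
  have hbS : ∀ k ∈ S, b k = a k := fun k hk => by rw [hb]; exact if_pos hk
  have hbS' : ∀ k, k ∉ S → b k = 0 := fun k hk => by rw [hb]; exact if_neg hk
  have htp : ∀ c, tp U b c = tp S a c := by
    intro c
    unfold tp
    rw [← Finset.sum_subset hSU (fun k _ hk => by rw [hbS' k hk, zero_mul])]
    exact Finset.sum_congr rfl fun k hk => by rw [hbS k hk]
  have htpP : ∀ c, tp (U.filter P) b c = tp (S.filter P) a c := by
    intro c
    unfold tp
    rw [← Finset.sum_subset (Finset.filter_subset_filter P hSU) (fun k hk hk' => by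
      have : k ∉ S := fun h => hk' (Finset.mem_filter.2 ⟨h, (Finset.mem_filter.1 hk).2⟩)
      rw [hbS' k this, zero_mul])]
    exact Finset.sum_congr rfl fun k hk => by rw [hbS k (Finset.mem_filter.1 hk).1]
  -- the real and imaginary parts
  obtain ⟨α, hα⟩ : ∃ α : ℤ × ℤ → ℂ, α = fun k => (b k + (starRingEnd ℂ) (b (-k))) / 2 := ⟨_, rfl⟩
  obtain ⟨β, hβ⟩ : ∃ β : ℤ × ℤ → ℂ,
    β = fun k => -Complex.I * (b k - (starRingEnd ℂ) (b (-k))) / 2 := ⟨_, rfl⟩
  have hα' : ∀ k, α (-k) = (starRingEnd ℂ) (α k) := by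
    intro k
    rw [hα]
    show (b (-k) + (starRingEnd ℂ) (b (- -k))) / 2 = (starRingEnd ℂ) ((b k + (starRingEnd ℂ) (b (-k))) / 2)
    rw [neg_neg, map_div₀, map_add, Complex.conj_conj, map_ofNat]
    ring
  have hβ' : ∀ k, β (-k) = (starRingEnd ℂ) (β k) := by
    intro k
    rw [hβ]
    show -Complex.I * (b (-k) - (starRingEnd ℂ) (b (- -k))) / 2 =
      (starRingEnd ℂ) (-Complex.I * (b k - (starRingEnd ℂ) (b (-k))) / 2)
    rw [neg_neg, map_div₀, map_mul, map_sub, Complex.conj_conj, map_ofNat, map_neg, Complex.conj_I]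
    ring
  have hab : ∀ k, b k = α k + Complex.I * β k := by
    intro k
    rw [hα, hβ]
    show b k = (b k + (starRingEnd ℂ) (b (-k))) / 2 +
      Complex.I * (-Complex.I * (b k - (starRingEnd ℂ) (b (-k))) / 2)
    have hI : Complex.I * Complex.I = -1 := Complex.I_mul_I
    linear_combination (-(b k - (starRingEnd ℂ) (b (-k))) / 2) * (-hI)
  have hconj : ∀ c, ∑ k ∈ U, (starRingEnd ℂ) (b (-k)) * ee (dt k c) = (starRingEnd ℂ) (tp U b c) := by
    intro c
    unfold tp
    rw [map_sum, ← sum_neg40 U hU (fun k => (starRingEnd ℂ) (b k * ee (dt k c)))]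
    refine Finset.sum_congr rfl fun k _ => ?_
    rw [map_mul, dt_neg40, ee_neg, Complex.conj_conj]
  have hreα : ∀ c, (tp U α c).re = (tp U b c).re := by
    intro c
    have h1 : tp U α c = (tp U b c + (starRingEnd ℂ) (tp U b c)) / 2 := by
      rw [← hconj c]
      unfold tp
      rw [← Finset.sum_add_distrib, Finset.sum_div]
      refine Finset.sum_congr rfl fun k _ => ?_
      rw [hα]
      ring
    rw [h1, Complex.add_conj]
    simp
  have hreβ : ∀ c, (tp U β c).re = (tp U b c).im := by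
    intro c
    have h1 : tp U β c = -Complex.I * (tp U b c - (starRingEnd ℂ) (tp U b c)) / 2 := by
      rw [← hconj c]
      unfold tp
      rw [← Finset.sum_sub_distrib, Finset.mul_sum, Finset.sum_div]
      refine Finset.sum_congr rfl fun k _ => ?_
      rw [hβ]
      ring
    rw [h1, Complex.sub_conj]
    have h2 : -Complex.I * (((2 * (tp U b c).im : ℝ) : ℂ) * Complex.I) / 2 = (((tp U b c).im : ℝ) : ℂ) := by
      have hI : Complex.I * Complex.I = -1 := Complex.I_mul_I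
      push_cast
      linear_combination (-((tp U b c).im : ℂ)) * hI
    rw [h2, Complex.ofReal_re]
  have hcb : Continuous (tp U b) := tp_cont U b
  have hA : m6 (U.filter P) α ≤ 108012 * m6 U b := by
    refine (riesz_real40 hP U hU α hα').trans (mul_le_mul_of_nonneg_left ?_ (by norm_num))
    unfold m6
    simp only [hreα]
    refine mono40 ((Complex.continuous_re.comp hcb).pow 6) (hcb.norm.pow 6) fun c => ?_
    have h1 := Complex.abs_re_le_norm (tp U b c)
    calc (tp U b c).re ^ 6 = |(tp U b c).re| ^ 6 := (Even.pow_abs (by decide) _).symm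
      _ ≤ ‖tp U b c‖ ^ 6 := pow_le_pow_left₀ (abs_nonneg _) h1 6
  have hB : m6 (U.filter P) β ≤ 108012 * m6 U b := by
    refine (riesz_real40 hP U hU β hβ').trans (mul_le_mul_of_nonneg_left ?_ (by norm_num))
    unfold m6
    simp only [hreβ]
    refine mono40 ((Complex.continuous_im.comp hcb).pow 6) (hcb.norm.pow 6) fun c => ?_
    have h1 := Complex.abs_im_le_norm (tp U b c)
    calc (tp U b c).im ^ 6 = |(tp U b c).im| ^ 6 := (Even.pow_abs (by decide) _).symm
      _ ≤ ‖tp U b c‖ ^ 6 := pow_le_pow_left₀ (abs_nonneg _) h1 6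
  have hcα := tp_cont (U.filter P) α
  have hcβ := tp_cont (U.filter P) β
  have hsum : m6 (U.filter P) b ≤ 32 * m6 (U.filter P) α + 32 * m6 (U.filter P) β := by
    unfold m6
    rw [← integral_const_mul, ← integral_const_mul, ← add40
      (fun c => 32 * ‖tp (U.filter P) α c‖ ^ 6) (fun c => 32 * ‖tp (U.filter P) β c‖ ^ 6)
      (continuous_const.mul (hcα.norm.pow 6)) (continuous_const.mul (hcβ.norm.pow 6))]
    refine mono40 ((tp_cont _ _).norm.pow 6) ((continuous_const.mul (hcα.norm.pow 6)).add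
      (continuous_const.mul (hcβ.norm.pow 6))) fun c => ?_
    have h1 : tp (U.filter P) b c = tp (U.filter P) α c + Complex.I * tp (U.filter P) β c := by
      unfold tp
      rw [Finset.mul_sum, ← Finset.sum_add_distrib]
      refine Finset.sum_congr rfl fun k _ => ?_
      rw [hab k]
      ring
    rw [h1]
    have h2 : ‖tp (U.filter P) α c + Complex.I * tp (U.filter P) β c‖ ≤
        ‖tp (U.filter P) α c‖ + ‖tp (U.filter P) β c‖ := by
      refine (norm_add_le _ _).trans ?_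
      rw [norm_mul, Complex.norm_I, one_mul]
    refine (pow_le_pow_left₀ (norm_nonneg _) h2 6).trans ?_
    have h3 := add_pow_le (norm_nonneg (tp (U.filter P) α c)) (norm_nonneg (tp (U.filter P) β c)) 6
    norm_num at h3
    linarith
  have e1 : m6 (S.filter P) a = m6 (U.filter P) b := by
    unfold m6
    simp only [htpP]
  have e2 : m6 S a = m6 U b := by
    unfold m6
    simp only [htp]
  rw [e1, e2]
  have h0 := m6_nonneg U b
  norm_num
  linarith

end Pool.Agent.Helper92.GC
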