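import Pool.Agent.Helper92.GC.Defs

/-!
# GC-S1: reduced complements and the matrix between two vectors

PROOFS. `exists_cmp`: Bezout gives `n'` with `dd n n' = n.1 n'.2 - n.2 n'.1 = 1`; replacing `n'` by `n' + m n` keeps `dd` and adds `m nn n` to `sp n n'`; `nn n > 0`
(coprime), so one can reach `2 |sp| ≤ nn n` (`Int.emod`, balanced remainder).
`bt_le`: from `cmp_spec`. `nn_pos`.
`umat`: `a = m.1 n'.2 - m'.1 n.2`, `b = -(m.1 n'.1) + m'.1 n.1`, `c = m.2 n'.2 - m'.2 n.2`, `d = -(m.2 n'.1) + m'.2 n.1` (the matrix with columns `m, m'` times the inverse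
of the one with columns `n, n'`). Integer identities by `linear_combination`. The last identity: with `N = nn n`, `M = nn m`, `s = sp n n'`, `s' = sp m m'`,
`nn n' = (1 + s²)/N`, `nn m' = (1 + s'²)/M` (Lagrange: `nn n * nn n' = dd² + sp²`) and
`a² + b² + c² + d² = nn m * nn n' + nn m' * nn n - 2 (sp m m') (sp n n')` (expand), hence `= M (1+s²)/N + N (1+s'²)/M - 2 s s' = M/N + N/M + N M (s/N - s'/M)²`.
-/

open MeasureTheory Real Set Filter Topology

set_option autoImplicit false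

namespace Pool.Agent.Helper92.GC

open Pool.Agent.Helper22.AE
open Pool.Agent.Helper22.AC (n6 IsWt mu)

private theorem nn_pos36 {n : ℤ × ℤ} (h : IsCoprime n.1 n.2) : 0 < nn n := by
  unfold nn
  rcases eq_or_ne n.1 0 with h1 | h1
  · rcases eq_or_ne n.2 0 with h2 | h2
    · obtain ⟨u, v, huv⟩ := h
      rw [h1, h2] at huv
      omega
    · positivity
  · positivity

theorem exists_cmp {n : ℤ × ℤ} (h : IsCoprime n.1 n.2) : ∃ n', IsCmp n n' := by
  obtain ⟨u, v, huv⟩ := h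
  have hN : 0 < nn n := nn_pos36 ⟨u, v, huv⟩
  set s : ℤ := sp n (-v, u) with hs
  set q : ℤ := (2 * s + nn n) / (2 * nn n) with hq
  have h1 := Int.mul_ediv_add_emod (2 * s + nn n) (2 * nn n)
  have h2 := Int.emod_nonneg (2 * s + nn n) (show 2 * nn n ≠ 0 by omega)
  have h3 := Int.emod_lt_of_pos (2 * s + nn n) (show 0 < 2 * nn n by omega)
  rw [← hq] at h1
  refine ⟨(-v - q * n.1, u - q * n.2), ?_, ?_⟩
  · unfold dd
    change n.1 * (u - q * n.2) - n.2 * (-v - q * n.1) = 1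
    linear_combination huv
  · have h4 : sp n (-v - q * n.1, u - q * n.2) = s - q * nn n := by
      rw [hs]
      unfold sp nn
      change n.1 * (-v - q * n.1) + n.2 * (u - q * n.2) =
        n.1 * (-v) + n.2 * u - q * (n.1 ^ 2 + n.2 ^ 2)
      ring
    rw [h4]
    have h5 : 2 * |s - q * nn n| = |2 * (s - q * nn n)| := by
      rw [abs_mul]
      norm_num
    rw [h5, abs_le]
    constructor <;> nlinarith

open Classical in
/-- the chosen reduced complement -/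
noncomputable def cmp (n : ℤ × ℤ) : ℤ × ℤ := if h : ∃ n', IsCmp n n' then h.choose else 0

/-- `β(n) = n · n' / |n|²` -/
noncomputable def bt (n : ℤ × ℤ) : ℝ := (sp n (cmp n) : ℝ) / (nn n : ℝ)

theorem cmp_spec {n : ℤ × ℤ} (h : IsCoprime n.1 n.2) : IsCmp n (cmp n) := by
  unfold cmp
  rw [dif_pos (exists_cmp h)]
  exact (exists_cmp h).choose_spec

theorem nn_pos {n : ℤ × ℤ} (h : IsCoprime n.1 n.2) : 1 ≤ nn n := by
  have := nn_pos36 h
  omega

theorem bt_le {n : ℤ × ℤ} (h : IsCoprime n.1 n.2) : |bt n| ≤ 1 / 2 := by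
  have h1 := (cmp_spec h).2
  have h2 : (0 : ℝ) < nn n := by exact_mod_cast nn_pos36 h
  have h3 : 2 * |(sp n (cmp n) : ℝ)| ≤ nn n := by exact_mod_cast h1
  unfold bt
  rw [abs_div, abs_of_pos h2, div_le_iff₀ h2]
  linarith

theorem umat {n n' m m' : ℤ × ℤ} (h : IsCmp n n') (h' : IsCmp m m') (hn : 1 ≤ nn n) (hm : 1 ≤ nn m) :
    ∃ a b c d : ℤ, a * d - b * c = 1 ∧ a * n.1 + b * n.2 = m.1 ∧ c * n.1 + d * n.2 = m.2 ∧
      ((a ^ 2 + b ^ 2 + c ^ 2 + d ^ 2 : ℤ) : ℝ) = (nn m : ℝ) / nn n + (nn n : ℝ) / nn m +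
        (nn n : ℝ) * nn m * ((sp n n' : ℝ) / nn n - (sp m m' : ℝ) / nn m) ^ 2 := by
  obtain ⟨h1, _⟩ := h
  obtain ⟨h2, _⟩ := h'
  unfold dd at h1 h2
  refine ⟨m.1 * n'.2 - m'.1 * n.2, -(m.1 * n'.1) + m'.1 * n.1, m.2 * n'.2 - m'.2 * n.2,
    -(m.2 * n'.1) + m'.2 * n.1, ?_, ?_, ?_, ?_⟩
  · linear_combination (m.1 * m'.2 - m.2 * m'.1) * h1 + h2
  · linear_combination m.1 * h1
  · linear_combination m.2 * h1
  · have hN : (0 : ℝ) < nn n := by exact_mod_cast hn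
    have hM : (0 : ℝ) < nn m := by exact_mod_cast hm
    have e1 : nn n * nn n' = 1 + sp n n' ^ 2 := by
      unfold nn sp
      linear_combination (n.1 * n'.2 - n.2 * n'.1 + 1) * h1
    have e2 : nn m * nn m' = 1 + sp m m' ^ 2 := by
      unfold nn sp
      linear_combination (m.1 * m'.2 - m.2 * m'.1 + 1) * h2
    have e3 : ((m.1 * n'.2 - m'.1 * n.2) ^ 2 + (-(m.1 * n'.1) + m'.1 * n.1) ^ 2 +
        (m.2 * n'.2 - m'.2 * n.2) ^ 2 + (-(m.2 * n'.1) + m'.2 * n.1) ^ 2 : ℤ) =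
        nn m * nn n' + nn m' * nn n - 2 * sp m m' * sp n n' := by
      unfold nn sp
      ring
    rw [e3]
    have f1 : (nn n : ℝ) * nn n' = 1 + (sp n n' : ℝ) ^ 2 := by exact_mod_cast e1
    have f2 : (nn m : ℝ) * nn m' = 1 + (sp m m' : ℝ) ^ 2 := by exact_mod_cast e2
    have g1 : (nn n' : ℝ) = (1 + (sp n n' : ℝ) ^ 2) / nn n := by
      rw [eq_div_iff hN.ne', mul_comm]
      exact f1
    have g2 : (nn m' : ℝ) = (1 + (sp m m' : ℝ) ^ 2) / nn m := by
      rw [eq_div_iff hM.ne', mul_comm]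
      exact f2
    push_cast
    rw [g1, g2]
    field_simp
    ring

/-- the vectors `(q, a)` of the dyadic class `P/2 < q ≤ P` -/
structure Good (P : ℝ) (n : ℤ × ℤ) : Prop where
  cop : IsCoprime n.1 n.2
  lo : P / 2 < n.1
  hi : (n.1 : ℝ) ≤ P
  nonneg : 0 ≤ n.2
  le : n.2 ≤ n.1

end Pool.Agent.Helper92.GC
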