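import Pool.Agent.Helper92.GC.S2

/-!
# GC-S3: the windows

For a fixed matrix `U` (not orthogonal) few vectors `n` satisfy `| |U n|² - |n|² | ≤ C₁ P`.

PROOF. If `P ≤ 24 C₁` use `good_card`: `3 P² ≤ 3 (24 C₁)²` (if `C₁ ≤ 0` replace it by `1`). Let `P > 24 C₁`, `C₁ ≥ 1`. For a vector `n = (q, y)` put `s = y / q ∈ [0, 1]`;
`|U n|² - |n|² = q² f(s)`, `f(s) = α + 2 β s + γ s²` with integers `α = a² + c² - 1`, `β = a b + c d`, `γ = b² + d² - 1`, and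
`D := β² - α γ = a² + b² + c² + d² - 2` (use `a d - b c = 1`: `(a²+c²)(b²+d²) - (ab+cd)² = 1`), `D ≥ 1`. `|f(s)| ≤ η := 4 C₁ / P` (`q > P/2`), `η ≤ 1/6`.
`|γ| ≤ D + 1`... precisely `-1 ≤ γ ≤ a²+b²+c²+d² - 1 = D + 1 ≤ 2 D` and `|γ| ≤ 2 D` as `D ≥ 1`. With `g(s) = β + γ s` : `g(s)² = D + γ f(s) ≥ D - 2 D/6 ≥ D/2`.
Split the vectors into two classes by the sign of `g(s)`. For two vectors of the same class with `s ≠ s'`: `f(s) - f(s') = (s - s')(g(s) + g(s'))`, so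
`|s - s'| ≤ 2 η / (2 √(D/2)) = η √2 / √D`. Different vectors of `W` have different `s` (coprime coordinates, `q > 0`) and `|s - s'| = |q' y - q y'|/(q q') ≥ 1/P²`.
A finite set of reals in an interval of length `ℓ` with distances `≥ 1/P²` has at most `1 + ℓ P²` elements. Total `≤ 2 (1 + √2 · 4 C₁ P / √D)`.
-/

open MeasureTheory Real Set Filter Topology

set_option autoImplicit false

namespace Pool.Agent.Helper92.GC

open Pool.Agent.Helper22.AE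
open Pool.Agent.Helper22.AC (n6 IsWt mu)

private lemma sep_card72 {ι : Type*} (T : Finset ι) (s : ι → ℝ) {δ l : ℝ} (hδ : 0 < δ) (hl : 0 ≤ l)
    (h1 : ∀ x ∈ T, ∀ y ∈ T, x ≠ y → δ ≤ |s x - s y|) (h2 : ∀ x ∈ T, ∀ y ∈ T, |s x - s y| ≤ l) :
    (T.card : ℝ) ≤ 1 + l / δ := by
  classical
  rcases T.eq_empty_or_nonempty with rfl | hT
  · simp only [Finset.card_empty, Nat.cast_zero]
    positivity
  obtain ⟨x0, hx0, hmin⟩ := T.exists_min_image s hT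
  have hinj : Set.InjOn (fun x => ⌊(s x - s x0) / δ⌋₊) T := by
    intro x hx y hy hxy
    by_contra hne
    have h3 := h1 x hx y hy hne
    have hx1 : 0 ≤ (s x - s x0) / δ := div_nonneg (by linarith [hmin x hx]) hδ.le
    have hy1 : 0 ≤ (s y - s x0) / δ := div_nonneg (by linarith [hmin y hy]) hδ.le
    have hfx := Nat.floor_le hx1
    have hfx' := Nat.lt_floor_add_one ((s x - s x0) / δ)
    have hfy := Nat.floor_le hy1
    have hfy' := Nat.lt_floor_add_one ((s y - s x0) / δ)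
    have h5 : |(s x - s x0) / δ - (s y - s x0) / δ| < 1 := by
      simp only at hxy
      rw [hxy] at hfx hfx'
      rw [abs_lt]
      constructor <;> linarith
    have h4 : (s x - s x0) / δ - (s y - s x0) / δ = (s x - s y) / δ := by ring
    rw [h4, abs_div, abs_of_pos hδ, div_lt_one hδ] at h5
    linarith
  have hmap : ∀ x ∈ T, (fun x => ⌊(s x - s x0) / δ⌋₊) x ∈ Finset.range (⌊l / δ⌋₊ + 1) := by
    intro x hx
    rw [Finset.mem_range, Nat.lt_succ_iff]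
    apply Nat.floor_le_floor
    exact div_le_div_of_nonneg_right ((le_abs_self _).trans (h2 x hx x0 hx0)) hδ.le
  have hc := Finset.card_le_card_of_injOn _ hmap hinj
  rw [Finset.card_range] at hc
  calc (T.card : ℝ) ≤ ((⌊l / δ⌋₊ + 1 : ℕ) : ℝ) := by exact_mod_cast hc
    _ = ⌊l / δ⌋₊ + 1 := by push_cast; ring
    _ ≤ 1 + l / δ := by linarith [Nat.floor_le (div_nonneg hl hδ.le)]

private lemma sep72 {P : ℝ} (hP : 1 ≤ P) {x y : ℤ × ℤ} (hx : Good P x) (hy : Good P y) (hne : x ≠ y) :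
    1 / P ^ 2 ≤ |(x.2 : ℝ) / x.1 - (y.2 : ℝ) / y.1| := by
  have hx1 : (0 : ℝ) < x.1 := by linarith [hx.lo]
  have hy1 : (0 : ℝ) < y.1 := by linarith [hy.lo]
  have hx1' : 0 < x.1 := by exact_mod_cast hx1
  have hy1' : 0 < y.1 := by exact_mod_cast hy1
  have hnz : x.2 * y.1 - y.2 * x.1 ≠ 0 := by
    intro h0
    have h1 : x.1 ∣ x.2 * y.1 := ⟨y.2, by linear_combination h0⟩
    have h2 : x.1 ∣ y.1 := hx.cop.dvd_of_dvd_mul_left h1
    have h3 : y.1 ∣ y.2 * x.1 := ⟨x.2, by linear_combination -h0⟩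
    have h4 : y.1 ∣ x.1 := hy.cop.dvd_of_dvd_mul_left h3
    have h5 : x.1 = y.1 := le_antisymm (Int.le_of_dvd hy1' h2) (Int.le_of_dvd hx1' h4)
    apply hne
    refine Prod.ext h5 ?_
    rw [h5] at h0
    have h6 : (x.2 - y.2) * y.1 = 0 := by linear_combination h0
    rcases mul_eq_zero.1 h6 with h7 | h7
    · linarith
    · omega
  have habs : (1 : ℝ) ≤ |((x.2 * y.1 - y.2 * x.1 : ℤ) : ℝ)| := by
    have := Int.one_le_abs hnz
    exact_mod_cast this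
  have he : (x.2 : ℝ) / x.1 - (y.2 : ℝ) / y.1 = ((x.2 * y.1 - y.2 * x.1 : ℤ) : ℝ) / (x.1 * y.1) := by
    push_cast
    field_simp
  rw [he, abs_div, abs_of_pos (mul_pos hx1 hy1)]
  have hxy : (x.1 : ℝ) * y.1 ≤ P ^ 2 := by
    have := mul_le_mul hx.hi hy.hi hy1.le (by linarith : (0 : ℝ) ≤ P)
    nlinarith
  exact div_le_div₀ (abs_nonneg _) habs (mul_pos hx1 hy1) hxy

theorem window (C₁ : ℝ) : ∃ C₂ : ℝ, 0 < C₂ ∧ ∀ P : ℝ, 1 ≤ P → ∀ a b c d : ℤ, a * d - b * c = 1 →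
    1 ≤ a ^ 2 + b ^ 2 + c ^ 2 + d ^ 2 - 2 → ∀ W : Finset (ℤ × ℤ),
      (∀ n ∈ W, Good P n ∧ |(((a * n.1 + b * n.2) ^ 2 + (c * n.1 + d * n.2) ^ 2 - nn n : ℤ) : ℝ)| ≤ C₁ * P) →
        (W.card : ℝ) ≤ C₂ * (1 + P / √(((a ^ 2 + b ^ 2 + c ^ 2 + d ^ 2 - 2 : ℤ) : ℝ))) := by
  obtain ⟨C, hC⟩ : ∃ C : ℝ, C = max C₁ 1 := ⟨_, rfl⟩
  have hC1 : 1 ≤ C := hC ▸ le_max_right _ _
  have hCC : C₁ ≤ C := hC ▸ le_max_left _ _
  refine ⟨1728 * C ^ 2, by positivity, fun P hP a b c d had hD W hW => ?_⟩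
  have hDr : (1 : ℝ) ≤ ((a ^ 2 + b ^ 2 + c ^ 2 + d ^ 2 - 2 : ℤ) : ℝ) := by exact_mod_cast hD
  obtain ⟨D, hDd⟩ : ∃ D : ℝ, D = ((a ^ 2 + b ^ 2 + c ^ 2 + d ^ 2 - 2 : ℤ) : ℝ) := ⟨_, rfl⟩
  rw [← hDd] at hDr ⊢
  have hsD : 0 < √D := Real.sqrt_pos.2 (by linarith)
  have hPD : 0 ≤ P / √D := by positivity
  have hP0 : 0 < P := by linarith
  rcases le_or_gt P (24 * C) with hP24 | hP24
  · have h1 := good_card hP W (fun n hn => (hW n hn).1)
    have h2 : P ^ 2 ≤ (24 * C) ^ 2 := pow_le_pow_left₀ hP0.le hP24 2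
    have h3 : 0 ≤ C ^ 2 * (P / √D) := by positivity
    have h4 : 1728 * C ^ 2 * (1 + P / √D) = 3 * (24 * C) ^ 2 + 1728 * (C ^ 2 * (P / √D)) := by ring
    rw [h4]
    linarith
  have hadr : (a : ℝ) * d - b * c = 1 := by exact_mod_cast had
  have hDr2 : D = (a : ℝ) ^ 2 + b ^ 2 + c ^ 2 + d ^ 2 - 2 := by rw [hDd]; push_cast; ring
  obtain ⟨α, hα⟩ : ∃ α : ℝ, α = (a : ℝ) ^ 2 + c ^ 2 - 1 := ⟨_, rfl⟩
  obtain ⟨β, hβ⟩ : ∃ β : ℝ, β = (a : ℝ) * b + c * d := ⟨_, rfl⟩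
  obtain ⟨γ, hγ⟩ : ∃ γ : ℝ, γ = (b : ℝ) ^ 2 + d ^ 2 - 1 := ⟨_, rfl⟩
  have hDD : D = β ^ 2 - α * γ := by
    rw [hDr2, hα, hβ, hγ]
    linear_combination ((a : ℝ) * d - b * c + 1) * hadr
  have hγ1 : |γ| ≤ 2 * D := by
    rw [abs_le]
    constructor
    · rw [hγ]
      linarith [sq_nonneg (b : ℝ), sq_nonneg (d : ℝ)]
    · rw [hγ]
      linarith [sq_nonneg (a : ℝ), sq_nonneg (c : ℝ)]
  obtain ⟨s, hs⟩ : ∃ s : ℤ × ℤ → ℝ, s = fun n => (n.2 : ℝ) / n.1 := ⟨_, rfl⟩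
  obtain ⟨f, hf⟩ : ∃ f : ℝ → ℝ, f = fun t => α + 2 * β * t + γ * t ^ 2 := ⟨_, rfl⟩
  obtain ⟨g, hg⟩ : ∃ g : ℝ → ℝ, g = fun t => β + γ * t := ⟨_, rfl⟩
  have hfW : ∀ n ∈ W, |f (s n)| ≤ 4 * C / P := by
    intro n hn
    obtain ⟨h1, h2⟩ := hW n hn
    have hq := h1.lo
    have hq0 : (0 : ℝ) < n.1 := by linarith
    have he : f (s n) = (((a * n.1 + b * n.2) ^ 2 + (c * n.1 + d * n.2) ^ 2 - nn n : ℤ) : ℝ) / (n.1 : ℝ) ^ 2 := by
      rw [hf, hs, hα, hβ, hγ]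
      unfold nn
      push_cast
      field_simp
      ring
    rw [he, abs_div, abs_of_pos (by positivity : (0 : ℝ) < (n.1 : ℝ) ^ 2), div_le_div_iff₀ (by positivity) hP0]
    have h3 : P ^ 2 ≤ 4 * (n.1 : ℝ) ^ 2 := by
      have h31 : P ^ 2 ≤ (2 * (n.1 : ℝ)) ^ 2 := pow_le_pow_left₀ hP0.le (by linarith) 2
      linarith
    have h4 : C₁ * P ≤ C * P := mul_le_mul_of_nonneg_right hCC hP0.le
    calc _ ≤ (C * P) * P := mul_le_mul_of_nonneg_right (h2.trans h4) hP0.le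
      _ = C * P ^ 2 := by ring
      _ ≤ C * (4 * (n.1 : ℝ) ^ 2) := mul_le_mul_of_nonneg_left h3 (by linarith)
      _ = 4 * C * (n.1 : ℝ) ^ 2 := by ring
  have hη : 4 * C / P ≤ 1 / 6 := by
    rw [div_le_div_iff₀ hP0 (by norm_num)]
    linarith
  have hgW : ∀ n ∈ W, D / 2 ≤ g (s n) ^ 2 := by
    intro n hn
    have h1 := (hfW n hn).trans hη
    have h2 : g (s n) ^ 2 = D + γ * f (s n) := by
      rw [hg, hf, hDD]
      ring
    have h3 : |γ * f (s n)| ≤ 2 * D * (1 / 6) := by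
      rw [abs_mul]
      exact mul_le_mul hγ1 h1 (abs_nonneg _) (by linarith)
    rw [h2]
    linarith [neg_abs_le (γ * f (s n))]
  have hkey : ∀ x ∈ W, ∀ y ∈ W, 0 ≤ g (s x) * g (s y) → |s x - s y| ≤ 8 * C / P / √D := by
    intro x hx y hy hxy
    have h1 : √D ≤ |g (s x) + g (s y)| := by
      rw [← Real.sqrt_sq_eq_abs]
      apply Real.sqrt_le_sqrt
      have h0 : (g (s x) + g (s y)) ^ 2 = g (s x) ^ 2 + 2 * (g (s x) * g (s y)) + g (s y) ^ 2 := by ring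
      rw [h0]
      linarith [hgW x hx, hgW y hy]
    have h2 : f (s x) - f (s y) = (s x - s y) * (g (s x) + g (s y)) := by
      rw [hf, hg]
      ring
    have h3 : |f (s x) - f (s y)| ≤ 8 * C / P := by
      have h4 := abs_sub (f (s x)) (f (s y))
      have h5 : 8 * C / P = 4 * C / P + 4 * C / P := by ring
      rw [h5]
      linarith [hfW x hx, hfW y hy]
    rw [le_div_iff₀ hsD]
    calc |s x - s y| * √D ≤ |s x - s y| * |g (s x) + g (s y)| := mul_le_mul_of_nonneg_left h1 (abs_nonneg _)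
      _ = |f (s x) - f (s y)| := by rw [h2, abs_mul]
      _ ≤ _ := h3
  have hl0 : 0 ≤ 8 * C / P / √D := by positivity
  have hsepW : ∀ x ∈ W, ∀ y ∈ W, x ≠ y → 1 / P ^ 2 ≤ |s x - s y| := by
    intro x hx y hy hne
    rw [hs]
    exact sep72 hP (hW x hx).1 (hW y hy).1 hne
  have hlP : 8 * C / P / √D / (1 / P ^ 2) = 8 * C * (P / √D) := by
    field_simp
  have hP2 : 0 < 1 / P ^ 2 := by positivity
  classical
  have hT1 : ((W.filter (fun n => 0 ≤ g (s n))).card : ℝ) ≤ 1 + 8 * C * (P / √D) := by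
    rw [← hlP]
    refine sep_card72 _ s hP2 hl0 (fun x hx y hy hne => ?_) (fun x hx y hy => ?_)
    · exact hsepW x (Finset.mem_filter.1 hx).1 y (Finset.mem_filter.1 hy).1 hne
    · exact hkey x (Finset.mem_filter.1 hx).1 y (Finset.mem_filter.1 hy).1
        (mul_nonneg (Finset.mem_filter.1 hx).2 (Finset.mem_filter.1 hy).2)
  have hT2 : ((W.filter (fun n => ¬ 0 ≤ g (s n))).card : ℝ) ≤ 1 + 8 * C * (P / √D) := by
    rw [← hlP]
    refine sep_card72 _ s hP2 hl0 (fun x hx y hy hne => ?_) (fun x hx y hy => ?_)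
    · exact hsepW x (Finset.mem_filter.1 hx).1 y (Finset.mem_filter.1 hy).1 hne
    · exact hkey x (Finset.mem_filter.1 hx).1 y (Finset.mem_filter.1 hy).1
        (mul_nonneg_of_nonpos_of_nonpos (not_le.1 (Finset.mem_filter.1 hx).2).le
          (not_le.1 (Finset.mem_filter.1 hy).2).le)
  have hsum : (W.card : ℝ) = ((W.filter (fun n => 0 ≤ g (s n))).card : ℝ) +
      ((W.filter (fun n => ¬ 0 ≤ g (s n))).card : ℝ) := by
    exact_mod_cast (Finset.card_filter_add_card_filter_not (s := W) (fun n => 0 ≤ g (s n))).symm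
  have hC2 : C ≤ C ^ 2 := le_self_pow₀ hC1 two_ne_zero
  have h6 : C * (P / √D) ≤ C ^ 2 * (P / √D) := mul_le_mul_of_nonneg_right hC2 hPD
  rw [hsum]
  have h7 : 0 ≤ C ^ 2 * (P / √D) := by positivity
  have h8 : 1728 * C ^ 2 * (1 + P / √D) = 1728 * C ^ 2 + 1728 * (C ^ 2 * (P / √D)) := by ring
  have h9 : 8 * C * (P / √D) = 8 * (C * (P / √D)) := by ring
  rw [h8]
  rw [h9] at hT1 hT2
  linarith

end Pool.Agent.Helper92.GC
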