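import Pool.Agent.Helper92.GC.Defs

/-!
# GC-W1: rotation of the path

PROOF. We may assume `φ ≠ 0`. `F(z) = G(exp z) exp z` is holomorphic on the strip `|Im z| < π/2`. Cauchy for the rectangle with corners `-L`, `L + i φ`
(`Complex.integral_boundary_rect_eq_zero_of_differentiableOn`): `∫_{-L}^{L} F(x) dx - ∫_{-L}^{L} F(x + iφ) dx + i ∫_0^φ F(L + iy) dy - i ∫_0^φ F(-L + iy) dy = 0`. On the vertical sides
`|F(±L + iy)| ≤ M e^{2x} exp(-c e^x)` with `x = ±L`, which tends to zero. Substitute `x → e^x` (`MeasureTheory.integral_comp_...`, e.g. `integral_comp_exp`-like lemma or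
`integral_image_eq_integral_abs_deriv_smul` for `exp : ℝ → Ioi 0`); the integrals over the rays converge absolutely by `hb`.
-/

open MeasureTheory Real Set Filter Topology

set_option autoImplicit false

namespace Pool.Agent.Helper92.GC

open Pool.Agent.Helper22.AE
open Pool.Agent.Helper22.AC (n6 IsWt mu)

open Complex in
private theorem ray93 {G : ℂ → ℂ} {φ M c y : ℝ} (hφ : |φ| < π / 2) (hc : 0 < c)
    (hG : DifferentiableOn ℂ G {w : ℂ | 0 < w.re})
    (hb : ∀ x : ℝ, 0 < x → ∀ ψ : ℝ, |ψ| ≤ |φ| → 0 ≤ ψ * φ →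
      ‖G (x * Complex.exp (ψ * I))‖ ≤ M * x * Real.exp (-(c * x)))
    (hy : |y| ≤ |φ|) (hy' : 0 ≤ y * φ) :
    Integrable (fun x : ℝ => Complex.exp (x + y * I) * G (Complex.exp (x + y * I))) ∧
      ∫ x : ℝ, Complex.exp (x + y * I) * G (Complex.exp (x + y * I)) =
        Complex.exp (y * I) * ∫ x in Ioi (0 : ℝ), G (x * Complex.exp (y * I)) := by
  have hcos : 0 < Real.cos y := by
    apply Real.cos_pos_of_mem_Ioo
    have := abs_lt.1 (lt_of_le_of_lt hy hφ)
    exact ⟨this.1, this.2⟩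
  have hI : IntegrableOn (fun x : ℝ => G (x * Complex.exp (y * I))) (Ioi 0) := by
    have h1 : IntegrableOn (fun x : ℝ => M * (x * Real.exp (-(c * x)))) (Ioi 0) := by
      have := integrableOn_rpow_mul_exp_neg_mul_rpow (p := 1) (s := 1) (b := c) (by norm_num) one_pos hc
      simp only [Real.rpow_one] at this
      refine (this.const_mul M).congr ?_
      exact Filter.Eventually.of_forall fun x => by simp only [neg_mul]
    refine h1.mono' ?_ ?_
    · refine ContinuousOn.aestronglyMeasurable ?_ measurableSet_Ioi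
      refine hG.continuousOn.comp (Continuous.continuousOn (by fun_prop)) ?_
      intro x hx
      have hx0 : 0 < x := hx
      show 0 < ((x : ℂ) * Complex.exp (y * I)).re
      rw [Complex.re_ofReal_mul, Complex.exp_ofReal_mul_I_re]
      positivity
    · refine (ae_restrict_iff' measurableSet_Ioi).2 (Filter.Eventually.of_forall fun x hx => ?_)
      refine (hb x hx y hy hy').trans (le_of_eq ?_)
      ring
  have hder : ∀ x ∈ (univ : Set ℝ), HasDerivWithinAt Real.exp (Real.exp x) univ x := fun x _ =>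
    (Real.hasDerivAt_exp x).hasDerivWithinAt
  have himg : Real.exp '' univ = Ioi 0 := by rw [image_univ, Real.range_exp]
  have hinj : InjOn Real.exp univ := Real.exp_injective.injOn
  have hfun : ∀ x : ℝ, Complex.exp (x + y * I) * G (Complex.exp (x + y * I)) =
      Complex.exp (y * I) * (|Real.exp x| • G ((Real.exp x : ℝ) * Complex.exp (y * I))) := by
    intro x
    rw [abs_of_pos (Real.exp_pos x), Complex.real_smul, Complex.ofReal_exp, Complex.exp_add]
    ring
  have h2 := (integrableOn_image_iff_integrableOn_abs_deriv_smul MeasurableSet.univ hder hinj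
    (fun x : ℝ => G (x * Complex.exp (y * I)))).1 (by rw [himg]; exact hI)
  have h3 := integral_image_eq_integral_abs_deriv_smul MeasurableSet.univ hder hinj
    (fun x : ℝ => G (x * Complex.exp (y * I)))
  rw [himg, Measure.restrict_univ] at h3
  rw [integrableOn_univ] at h2
  constructor
  · rw [show (fun x : ℝ => Complex.exp (x + y * I) * G (Complex.exp (x + y * I))) = fun x : ℝ =>
      Complex.exp (y * I) * (|Real.exp x| • G ((Real.exp x : ℝ) * Complex.exp (y * I))) from funext hfun]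
    exact h2.const_mul _
  · rw [h3, ← integral_const_mul]
    exact integral_congr_ae (Filter.Eventually.of_forall hfun)

private theorem lim_top93 (M : ℝ) {c : ℝ} (hc : 0 < c) :
    Tendsto (fun x : ℝ => M * (Real.exp x) ^ 2 * Real.exp (-(c * Real.exp x))) atTop (𝓝 0) := by
  have h1 : Tendsto (fun t : ℝ => t ^ (2 : ℝ) * Real.exp (-c * t)) atTop (𝓝 0) :=
    tendsto_rpow_mul_exp_neg_mul_atTop_nhds_zero 2 c hc
  have h2 := (h1.comp Real.tendsto_exp_atTop).const_mul M
  rw [mul_zero] at h2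
  refine h2.congr fun x => ?_
  simp only [Function.comp_apply]
  rw [show ((2 : ℝ)) = ((2 : ℕ) : ℝ) by norm_num, Real.rpow_natCast, neg_mul]
  ring

private theorem lim_bot93 (M : ℝ) (c : ℝ) :
    Tendsto (fun x : ℝ => M * (Real.exp x) ^ 2 * Real.exp (-(c * Real.exp x))) atBot (𝓝 0) := by
  have h1 : Continuous fun t : ℝ => M * t ^ 2 * Real.exp (-(c * t)) := by fun_prop
  have h2 := (h1.tendsto 0).comp Real.tendsto_exp_atBot
  simp only [ne_eq, OfNat.ofNat_ne_zero, not_false_eq_true, zero_pow, mul_zero, neg_zero, Real.exp_zero,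
    zero_mul] at h2
  exact h2

open Complex in
theorem rotate {G : ℂ → ℂ} {φ M c : ℝ} (hφ : |φ| < π / 2) (hc : 0 < c)
    (hG : DifferentiableOn ℂ G {w : ℂ | 0 < w.re})
    (hb : ∀ x : ℝ, 0 < x → ∀ ψ : ℝ, |ψ| ≤ |φ| → 0 ≤ ψ * φ →
      ‖G (x * Complex.exp (ψ * I))‖ ≤ M * x * Real.exp (-(c * x))) :
    ∫ x in Ioi (0 : ℝ), G x = Complex.exp (φ * I) * ∫ x in Ioi (0 : ℝ), G (x * Complex.exp (φ * I)) := by
  set F : ℂ → ℂ := fun z => Complex.exp z * G (Complex.exp z) with hF
  have hFd : DifferentiableOn ℂ F {z : ℂ | |z.im| < π / 2} := by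
    refine Complex.differentiable_exp.differentiableOn.mul
      (hG.comp Complex.differentiable_exp.differentiableOn ?_)
    intro z hz
    show 0 < (Complex.exp z).re
    rw [Complex.exp_re]
    exact mul_pos (Real.exp_pos _) (Real.cos_pos_of_mem_Ioo ⟨(abs_lt.1 hz).1, (abs_lt.1 hz).2⟩)
  have hu : ∀ y ∈ uIcc 0 φ, |y| ≤ |φ| ∧ 0 ≤ y * φ := by
    intro y hy
    rcases le_total 0 φ with h | h
    · rw [uIcc_of_le h] at hy
      exact ⟨by rw [abs_of_nonneg hy.1, abs_of_nonneg h]; exact hy.2, mul_nonneg hy.1 h⟩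
    · rw [uIcc_of_ge h] at hy
      exact ⟨by rw [abs_of_nonpos hy.2, abs_of_nonpos h]; linarith [hy.1], mul_nonneg_of_nonpos_of_nonpos hy.2 h⟩
  have hbd : ∀ x y : ℝ, y ∈ uIcc 0 φ → ‖F (x + y * I)‖ ≤ M * (Real.exp x) ^ 2 * Real.exp (-(c * Real.exp x)) := by
    intro x y hy
    obtain ⟨h1, h2⟩ := hu y hy
    have h3 := hb (Real.exp x) (Real.exp_pos x) y h1 h2
    have h4 : Complex.exp (x + y * I) = (Real.exp x : ℝ) * Complex.exp (y * I) := by
      rw [Complex.exp_add, Complex.ofReal_exp]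
    rw [hF]
    simp only
    rw [norm_mul, h4, norm_mul, Complex.norm_exp_ofReal_mul_I, mul_one, Complex.norm_real,
      Real.norm_of_nonneg (Real.exp_pos x).le]
    calc Real.exp x * ‖G ((Real.exp x : ℝ) * Complex.exp (y * I))‖ ≤
        Real.exp x * (M * Real.exp x * Real.exp (-(c * Real.exp x))) :=
          mul_le_mul_of_nonneg_left h3 (Real.exp_pos x).le
      _ = _ := by ring
  obtain ⟨i0, e0⟩ := ray93 (y := 0) hφ hc hG hb (by simp) (by simp)
  obtain ⟨i1, e1⟩ := ray93 (y := φ) hφ hc hG hb le_rfl (mul_self_nonneg φ)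
  have e0' : ∫ x : ℝ, F (x + (0 : ℝ) * I) = ∫ x in Ioi (0 : ℝ), G x := by
    rw [e0]
    simp
  rw [← e0', ← e1]
  have hrect : ∀ L : ℝ, (∫ x in (-L)..L, F (x + (0 : ℝ) * I)) - (∫ x in (-L)..L, F (x + φ * I)) +
      I • (∫ y in (0 : ℝ)..φ, F (L + y * I)) - I • ∫ y in (0 : ℝ)..φ, F ((-L : ℝ) + y * I) = 0 := by
    intro L
    have h := Complex.integral_boundary_rect_eq_zero_of_differentiableOn F ((-L : ℝ) + (0 : ℝ) * I) (L + φ * I) (by
      refine hFd.mono ?_
      rintro z ⟨-, hz⟩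
      simp only [Complex.add_im, Complex.ofReal_im, Complex.mul_im, Complex.ofReal_re, Complex.I_im, Complex.I_re,
        mul_zero, mul_one, zero_add, add_zero, mem_preimage] at hz
      exact lt_of_le_of_lt (hu _ hz).1 hφ)
    simpa using h
  have t1 : Tendsto (fun L : ℝ => ∫ x in (-L)..L, F (x + (0 : ℝ) * I)) atTop (𝓝 (∫ x : ℝ, F (x + (0 : ℝ) * I))) :=
    intervalIntegral_tendsto_integral i0 tendsto_neg_atTop_atBot tendsto_id
  have t2 : Tendsto (fun L : ℝ => ∫ x in (-L)..L, F (x + φ * I)) atTop (𝓝 (∫ x : ℝ, F (x + φ * I))) :=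
    intervalIntegral_tendsto_integral i1 tendsto_neg_atTop_atBot tendsto_id
  have t3 : Tendsto (fun L : ℝ => I • (∫ y in (0 : ℝ)..φ, F (L + y * I))) atTop (𝓝 (I • (0 : ℂ))) := by
    apply Tendsto.const_smul
    refine squeeze_zero_norm (a := fun L : ℝ => (M * (Real.exp L) ^ 2 * Real.exp (-(c * Real.exp L))) * |φ - 0|)
      (fun L => ?_) ?_
    · apply intervalIntegral.norm_integral_le_of_norm_le_const
      intro y hy
      exact hbd L y (uIoc_subset_uIcc hy)
    · have := (lim_top93 M hc).mul_const |φ - 0|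
      rwa [zero_mul] at this
  have t4 : Tendsto (fun L : ℝ => I • (∫ y in (0 : ℝ)..φ, F ((-L : ℝ) + y * I))) atTop (𝓝 (I • (0 : ℂ))) := by
    apply Tendsto.const_smul
    refine squeeze_zero_norm (a := fun L : ℝ => (M * (Real.exp (-L)) ^ 2 * Real.exp (-(c * Real.exp (-L)))) * |φ - 0|)
      (fun L => ?_) ?_
    · apply intervalIntegral.norm_integral_le_of_norm_le_const
      intro y hy
      exact hbd (-L) y (uIoc_subset_uIcc hy)
    · have := ((lim_bot93 M c).comp tendsto_neg_atTop_atBot).mul_const |φ - 0|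
      rwa [zero_mul] at this
  have t5 := ((t1.sub t2).add t3).sub t4
  have t6 : Tendsto (fun L : ℝ => (∫ x in (-L)..L, F (x + (0 : ℝ) * I)) - (∫ x in (-L)..L, F (x + φ * I)) +
      I • (∫ y in (0 : ℝ)..φ, F (L + y * I)) - I • ∫ y in (0 : ℝ)..φ, F ((-L : ℝ) + y * I)) atTop (𝓝 0) := by
    rw [funext hrect]
    exact tendsto_const_nhds
  have h7 := tendsto_nhds_unique t5 t6
  rw [smul_zero, add_zero, sub_zero] at h7
  exact sub_eq_zero.1 h7

end Pool.Agent.Helper92.GC
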