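import Pool.Agent.Helper92.GC.Defs

/-!
# GC-W2: the integrand on the rotated ray

Here `w = x e^{iφ}`, `s = sin φ`, `y = Y x`, `1 - i Y w = 1 + y s - i y cos φ`.
PROOFS. `ray_abs`: `|1 - iYw|² = 1 + 2 y s + y² ≥ (1 - |s|)(1 + y²) ≥ (9/10)(1 + y²)` (`2y|s| ≤ |s|(1 + y²)`).
`ray_half`: `‖z^(-1/2)‖ = ‖z‖^(-1/2)` (`Complex.norm_cpow_real`-like lemma; the exponent is real) `≤ (9/10)^(-1/4) (1+y²)^(-1/4) ≤ 2 y^(-1/2)`.
`ray_exp`: `Re (1 - 1/(1 - iYw)) = 1 - (1 + ys)/(1 + 2ys + y²) = y (y + s)/(1 + 2 y s + y²) =: ϱ`. If `y ≥ 2|s|`: `y (y+s) ≥ y²/2`, `1 + 2ys + y² ≤ (1+y)² ≤ 2(1 + y²)`, so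
`ϱ ≥ y²/(4(1+y²)) ≥ min(1, y²)/8` and the norm is `≤ exp(-(π/8) η² min(1, y²))`. If `y < 2|s|`: `y(y+s) ≥ -s²/4`, `ϱ ≥ -(s²/4)(10/9)`, so the norm is at most
`exp(π η² s² · 10/36) ≤ exp(π/360)` (`|s| |η| ≤ 1/10`) and `(π/8) η² min(1, y²) ≤ (π/8) η² 4 s² ≤ π/200`, so it is `≤ 2 exp(-(π/8) η² min(1,y²))`.
-/

open MeasureTheory Real Set Filter Topology

set_option autoImplicit false

namespace Pool.Agent.Helper92.GC

open Pool.Agent.Helper22.AE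
open Pool.Agent.Helper22.AC (n6 IsWt mu)

private lemma re86 (Y x φ : ℝ) : (1 - Complex.I * Y * (x * Complex.exp (φ * Complex.I))).re = 1 + Y * x * Real.sin φ := by
  rw [Complex.exp_mul_I, ← Complex.ofReal_cos, ← Complex.ofReal_sin]
  simp only [Complex.sub_re, Complex.one_re, Complex.mul_re, Complex.mul_im, Complex.I_re, Complex.I_im,
    Complex.ofReal_re, Complex.ofReal_im, Complex.add_re, Complex.add_im]
  ring

private lemma im86 (Y x φ : ℝ) : (1 - Complex.I * Y * (x * Complex.exp (φ * Complex.I))).im = -(Y * x * Real.cos φ) := by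
  rw [Complex.exp_mul_I, ← Complex.ofReal_cos, ← Complex.ofReal_sin]
  simp only [Complex.sub_im, Complex.one_im, Complex.mul_re, Complex.mul_im, Complex.I_re, Complex.I_im,
    Complex.ofReal_re, Complex.ofReal_im, Complex.add_re, Complex.add_im]
  ring

private lemma nsq86 (Y x φ : ℝ) : Complex.normSq (1 - Complex.I * Y * (x * Complex.exp (φ * Complex.I))) =
    1 + 2 * (Y * x) * Real.sin φ + (Y * x) ^ 2 := by
  rw [Complex.normSq_apply, re86, im86]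
  have h := Real.sin_sq_add_cos_sq φ
  have h2 : Real.cos φ ^ 2 = 1 - Real.sin φ ^ 2 := by linarith
  calc (1 + Y * x * Real.sin φ) * (1 + Y * x * Real.sin φ) + -(Y * x * Real.cos φ) * -(Y * x * Real.cos φ)
      = 1 + 2 * (Y * x) * Real.sin φ + (Y * x) ^ 2 * Real.sin φ ^ 2 + (Y * x) ^ 2 * Real.cos φ ^ 2 := by ring
    _ = _ := by rw [h2]; ring

private lemma lb86 {y s : ℝ} (hy : 0 ≤ y) (hs : |s| ≤ 1 / 10) :
    9 / 10 * (1 + y ^ 2) ≤ 1 + 2 * y * s + y ^ 2 := by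
  have h1 : -(1 / 10) ≤ s := (abs_le.mp hs).1
  nlinarith [mul_nonneg hy (by linarith : 0 ≤ s + 1 / 10), sq_nonneg (y - 1)]

open Complex in
theorem ray_abs {Y x φ : ℝ} (hY : 0 ≤ Y) (hx : 0 < x) (hs : |Real.sin φ| ≤ 1 / 10) :
    9 / 10 * (1 + (Y * x) ^ 2) ≤ ‖1 - I * Y * (x * Complex.exp (φ * I))‖ ^ 2 := by
  rw [← Complex.normSq_eq_norm_sq, nsq86]
  exact lb86 (mul_nonneg hY hx.le) hs

open Complex in
theorem ray_half {Y x φ : ℝ} (hY : 0 < Y) (hx : 0 < x) (hs : |Real.sin φ| ≤ 1 / 10) :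
    ‖(1 - I * Y * (x * Complex.exp (φ * I))) ^ (-(1 / 2) : ℂ)‖ ≤ 2 * (Y * x) ^ (-(1 / 2) : ℝ) := by
  have h1 := ray_abs hY.le hx hs
  set z : ℂ := 1 - I * Y * (x * Complex.exp (φ * I)) with hz
  have hy : 0 < Y * x := mul_pos hY hx
  have hzn : Y * x / 4 ≤ ‖z‖ := by
    have h2 : (Y * x / 4) ^ 2 ≤ ‖z‖ ^ 2 := by nlinarith [sq_nonneg (Y * x)]
    exact (abs_le_of_sq_le_sq' h2 (norm_nonneg z)).2
  have he : (-(1 / 2) : ℂ) = ((-(1 / 2) : ℝ) : ℂ) := by push_cast; ring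
  rw [he, Complex.norm_cpow_real]
  have h3 : ‖z‖ ^ (-(1 / 2) : ℝ) ≤ (Y * x / 4) ^ (-(1 / 2) : ℝ) :=
    Real.rpow_le_rpow_of_nonpos (by positivity) hzn (by norm_num)
  have h4 : (Y * x / 4) ^ (-(1 / 2) : ℝ) = 2 * (Y * x) ^ (-(1 / 2) : ℝ) := by
    rw [Real.div_rpow hy.le (by norm_num), Real.rpow_neg (by norm_num : (0 : ℝ) ≤ 4)]
    have : (4 : ℝ) ^ ((1 : ℝ) / 2) = 2 := by
      rw [← Real.sqrt_eq_rpow, show (4 : ℝ) = 2 ^ 2 by norm_num, Real.sqrt_sq (by norm_num)]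
    rw [this]
    field_simp
  linarith

open Complex in
theorem ray_exp {Y x φ η : ℝ} (hY : 0 < Y) (hx : 0 < x) (hs : |Real.sin φ| ≤ 1 / 10)
    (hη : |Real.sin φ| * |η| ≤ 1 / 10) :
    ‖Complex.exp (-(π * η ^ 2 * (1 - 1 / (1 - I * Y * (x * Complex.exp (φ * I))))))‖ ≤
      2 * Real.exp (-(π / 8 * η ^ 2 * min 1 ((Y * x) ^ 2))) := by
  have hy : 0 < Y * x := mul_pos hY hx
  set z : ℂ := 1 - I * Y * (x * Complex.exp (φ * I)) with hz
  have hre : z.re = 1 + Y * x * Real.sin φ := re86 Y x φ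
  have hns : Complex.normSq z = 1 + 2 * (Y * x) * Real.sin φ + (Y * x) ^ 2 := nsq86 Y x φ
  set y : ℝ := Y * x with hyd
  set s : ℝ := Real.sin φ with hsd
  have hlb := lb86 hy.le hs
  have hD : 0 < 1 + 2 * y * s + y ^ 2 := by nlinarith [sq_nonneg y]
  rw [Complex.norm_exp]
  have hR : (-(π * η ^ 2 * (1 - 1 / z)) : ℂ).re = -(π * η ^ 2 * (1 - (1 + y * s) / (1 + 2 * y * s + y ^ 2))) := by
    have e1 : (-(π * η ^ 2 * (1 - 1 / z)) : ℂ) = ((-(π * η ^ 2) : ℝ) : ℂ) * (1 - z⁻¹) := by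
      push_cast; rw [one_div]; ring
    rw [e1, Complex.re_ofReal_mul, Complex.sub_re, Complex.one_re, Complex.inv_re, hre, hns]
    ring
  rw [hR]
  have hrho : 1 - (1 + y * s) / (1 + 2 * y * s + y ^ 2) = y * (y + s) / (1 + 2 * y * s + y ^ 2) := by
    rw [eq_div_iff hD.ne', sub_mul, div_mul_cancel₀ _ hD.ne']
    ring
  rw [hrho]
  have hpi := Real.pi_pos
  have hpi2 : π < 4 := by linarith [Real.pi_lt_d2]
  have hmin : min 1 (y ^ 2) ≤ y ^ 2 := min_le_right _ _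
  have hmin1 : min 1 (y ^ 2) ≤ 1 := min_le_left _ _
  have hmin0 : 0 ≤ min 1 (y ^ 2) := le_min (by norm_num) (sq_nonneg y)
  have h2 : (2 : ℝ) = Real.exp (Real.log 2) := (Real.exp_log (by norm_num)).symm
  have hl2 := Real.log_two_gt_d9
  have key : π * η ^ 2 * (min 1 (y ^ 2) / 8) ≤ π * η ^ 2 * (y * (y + s) / (1 + 2 * y * s + y ^ 2)) + Real.log 2 := by
    by_cases hc : 2 * |s| ≤ y
    · have h3 : min 1 (y ^ 2) / 8 ≤ y * (y + s) / (1 + 2 * y * s + y ^ 2) := by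
        rw [le_div_iff₀ hD]
        have hs2 : -|s| ≤ s := neg_abs_le s
        have hs3 : s ≤ |s| := le_abs_self s
        have h4 : y ^ 2 / 2 ≤ y * (y + s) := by nlinarith
        have h5 : 1 + 2 * y * s + y ^ 2 ≤ 2 * (1 + y ^ 2) := by
          nlinarith [sq_nonneg (y - 1)]
        have h6 : min 1 (y ^ 2) * (1 + y ^ 2) ≤ 2 * y ^ 2 := by
          rcases le_total 1 (y ^ 2) with h | h
          · rw [min_eq_left h]; linarith
          · rw [min_eq_right h]; nlinarith [sq_nonneg y]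
        have h7 : min 1 (y ^ 2) / 8 * (1 + 2 * y * s + y ^ 2) ≤ min 1 (y ^ 2) / 8 * (2 * (1 + y ^ 2)) :=
          mul_le_mul_of_nonneg_left h5 (by positivity)
        nlinarith
      have h8 : π * η ^ 2 * (min 1 (y ^ 2) / 8) ≤ π * η ^ 2 * (y * (y + s) / (1 + 2 * y * s + y ^ 2)) :=
        mul_le_mul_of_nonneg_left h3 (by positivity)
      linarith
    · push Not at hc
      have hs2 : -|s| ≤ s := neg_abs_le s
      have h3 : -(s ^ 2 / 4) ≤ y * (y + s) := by nlinarith [sq_nonneg (y + s / 2)]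
      have h4 : -(s ^ 2 / 2) ≤ y * (y + s) / (1 + 2 * y * s + y ^ 2) := by
        rw [le_div_iff₀ hD]
        have h5 : 1 / 2 ≤ 1 + 2 * y * s + y ^ 2 := by nlinarith [sq_nonneg y]
        nlinarith [sq_nonneg s]
      have h6 : min 1 (y ^ 2) / 8 ≤ s ^ 2 / 2 := by
        have : y ^ 2 ≤ 4 * s ^ 2 := by
          have h7 : y ^ 2 ≤ (2 * |s|) ^ 2 := by
            apply pow_le_pow_left₀ hy.le hc.le
          have h77 : (2 * |s|) ^ 2 = 4 * s ^ 2 := by rw [mul_pow 2 |s| 2, sq_abs]; norm_num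
          linarith
        linarith
      have h7 : s ^ 2 * η ^ 2 ≤ 1 / 100 := by
        have h8 : (|s| * |η|) ^ 2 ≤ (1 / 10) ^ 2 := pow_le_pow_left₀ (by positivity) hη 2
        rw [mul_pow, sq_abs, sq_abs] at h8
        linarith
      have hP : 0 ≤ π * η ^ 2 := by positivity
      have h9 := mul_le_mul_of_nonneg_left h4 hP
      have h10 := mul_le_mul_of_nonneg_left h6 hP
      have h11 : π * η ^ 2 * (s ^ 2) ≤ 4 * (1 / 100) := by
        have : π * η ^ 2 * s ^ 2 = π * (s ^ 2 * η ^ 2) := by ring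
        rw [this]
        apply mul_le_mul hpi2.le h7 (by positivity) (by norm_num)
      nlinarith
  have h2' : 2 * Real.exp (-(π / 8 * η ^ 2 * min 1 (y ^ 2))) = Real.exp (Real.log 2 + -(π / 8 * η ^ 2 * min 1 (y ^ 2))) := by
    rw [Real.exp_add, ← h2]
  rw [h2']
  apply Real.exp_le_exp.mpr
  have e3 : π / 8 * η ^ 2 * min 1 (y ^ 2) = π * η ^ 2 * (min 1 (y ^ 2) / 8) := by ring
  rw [e3]
  linarith

end Pool.Agent.Helper92.GC
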