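import Pool.Agent.Helper92.GC.W1
import Pool.Agent.Helper92.GC.W2

/-!
# GC-W3: decay of the oscillatory integral

PROOF of `J_bound`. `p = 3n + 3`. Let `φ` be the number with `sin φ = -sign(θ)/(10 (1 + |η|))`, `|φ| ≤ arcsin(1/10)` (`θ = 0`: `sin φ = -1/(10(1+|η|))`), `s = sin φ`.
`rotate` applies to `G = Jg p Y η θ` (holomorphic for `Re w > 0`: `1 - iYw` has imaginary part `-Y Re w ≠ 0`, so the principal branch of the power is holomorphic and the denominator does not vanish);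
`hb`: for `ψ` between `0` and `φ`: `|exp(-2πiθw)| = exp(2π θ x sin ψ) ≤ 1`, `|exp(-p w)| = exp(-p x cos ψ) ≤ exp(-(9/10) p x)`, `|w^(p+1)| = x^(p+1)`, the other factors by
`ray_half`, `ray_exp` (`|sin ψ| ≤ |sin φ|`), total `≤ 4 (Yx)^(-1/2) x^(p+1) exp(-(9/10) p x) ≤ M x exp(-x)` for a suitable `M` depending on `p`, `Y`.
So `|Jf| ≤ ∫_0^∞ x^(p+1) exp(-(9/10)px) · 2 (Yx)^(-1/2) · 2 exp(-(π/8) η² min(1,(Yx)²)) · exp(-2π|θ||s| x) dx`. Use `exp(-a) ≤ C_n (1+a)^(-n)` (`a ≥ 0`, `(1+a)^n ≤ n! e^(1+a)`), and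
`1 + (π/8) η² min(1,(Yx)²) ≥ (1/4)(1 + η²) min(1, x²)` (`Y ≥ 1`; note `min ≤ 1`), `1 + 2π|θ||s|x ≥ (1 + |θ||s|) min(1,x)`, `1 + |θ||s| ≥ (1 + |θ|)/(10(1+|η|))`:
integrand `≤ C_n Y^(-1/2) (1+η²)^(-n) (1+|η|)^n (1+|θ|)^(-n) · x^(p+1/2) (1 + x^(-2n))(1 + x^(-n)) exp(-(9/10)px)`, and the `x`-integral converges as `p + 1/2 - 3n > 0`.
`(1+η²)^(-n)(1+|η|)^n ≤ 2^n (1+|η|)^(-n)`.
-/

open MeasureTheory Real Set Filter Topology

set_option autoImplicit false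

namespace Pool.Agent.Helper92.GC

open Pool.Agent.Helper22.AE
open Pool.Agent.Helper22.AC (n6 IsWt mu)

open Complex in
/-- the integrand -/
noncomputable def Jg (p : ℕ) (Y η θ : ℝ) (w : ℂ) : ℂ :=
  w ^ (p + 1) * Complex.exp (-(p * w)) * (1 - I * Y * w) ^ (-(1 / 2) : ℂ) *
    Complex.exp (-(π * η ^ 2 * (1 - 1 / (1 - I * Y * w)))) * Complex.exp (-(2 * π * I * θ * w))

/-- the oscillatory integral -/
noncomputable def Jf (p : ℕ) (Y η θ : ℝ) : ℂ := ∫ x in Ioi (0 : ℝ), Jg p Y η θ x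

private lemma pow_le_exp62 (n : ℕ) {a : ℝ} (ha : 0 ≤ a) : (1 + a) ^ n ≤ n.factorial * Real.exp 1 * Real.exp a := by
  have h := Real.pow_div_factorial_le_exp (x := 1 + a) (by linarith) n
  rw [div_le_iff₀ (by positivity), Real.exp_add] at h
  linarith

private lemma exp_neg_le62 (n : ℕ) {a b : ℝ} (ha : 0 ≤ a) (hb : 0 < b) (hab : b ≤ 1 + a) :
    Real.exp (-a) ≤ n.factorial * Real.exp 1 * (b ^ n)⁻¹ := by
  have h := pow_le_exp62 n ha
  have h1 : b ^ n ≤ (1 + a) ^ n := pow_le_pow_left₀ hb.le hab n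
  have h2 : Real.exp (-a) * b ^ n ≤ n.factorial * Real.exp 1 := by
    calc Real.exp (-a) * b ^ n ≤ Real.exp (-a) * (n.factorial * Real.exp 1 * Real.exp a) :=
          mul_le_mul_of_nonneg_left (h1.trans h) (Real.exp_pos _).le
      _ = n.factorial * Real.exp 1 * (Real.exp (-a) * Real.exp a) := by ring
      _ = n.factorial * Real.exp 1 := by rw [← Real.exp_add]; simp
  rw [← div_eq_mul_inv, le_div_iff₀ (by positivity)]
  exact h2

private lemma cos_ge62 {ψ : ℝ} (hψ : |ψ| < π / 2) (hs : |Real.sin ψ| ≤ 1 / 10) : 9 / 10 ≤ Real.cos ψ := by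
  have h1 : 0 < Real.cos ψ := Real.cos_pos_of_mem_Ioo (abs_lt.1 hψ)
  have h2 := Real.sin_sq_add_cos_sq ψ
  have h3 : Real.sin ψ ^ 2 ≤ (1 / 10) ^ 2 := by
    rw [← sq_abs]
    exact pow_le_pow_left₀ (abs_nonneg _) hs 2
  nlinarith

private lemma abs_sin_le62 {ψ φ : ℝ} (hφ : |φ| ≤ π / 2) (h : |ψ| ≤ |φ|) : |Real.sin ψ| ≤ |Real.sin φ| := by
  have h1 : |Real.sin ψ| = Real.sin |ψ| := by
    rcases abs_cases ψ with ⟨e, h0⟩ | ⟨e, h0⟩
    · rw [e, abs_of_nonneg (Real.sin_nonneg_of_nonneg_of_le_pi h0 (by rw [e] at h; linarith [pi_pos]))]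
    · rw [e, Real.sin_neg, abs_of_nonpos (Real.sin_nonpos_of_nonpos_of_neg_pi_le h0.le (by rw [e] at h; linarith [pi_pos]))]
  have h2 : |Real.sin φ| = Real.sin |φ| := by
    rcases abs_cases φ with ⟨e, h0⟩ | ⟨e, h0⟩
    · rw [e, abs_of_nonneg (Real.sin_nonneg_of_nonneg_of_le_pi h0 (by rw [e] at hφ; linarith [pi_pos]))]
    · rw [e, Real.sin_neg, abs_of_nonpos (Real.sin_nonpos_of_nonpos_of_neg_pi_le h0.le (by rw [e] at hφ; linarith [pi_pos]))]
  rw [h1, h2]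
  exact Real.sin_le_sin_of_le_of_le_pi_div_two (by linarith [abs_nonneg ψ, pi_pos]) hφ h

open Complex in
private lemma norm_Jg62 {p : ℕ} {Y η θ x ψ : ℝ} (hY : 0 < Y) (hx : 0 < x) (hs : |Real.sin ψ| ≤ 1 / 10)
    (hη : |Real.sin ψ| * |η| ≤ 1 / 10) :
    ‖Jg p Y η θ (x * Complex.exp (ψ * I))‖ ≤
      x ^ (p + 1) * Real.exp (-(p * (x * Real.cos ψ))) * (2 * (Y * x) ^ (-(1 / 2) : ℝ)) *
        (2 * Real.exp (-(π / 8 * η ^ 2 * min 1 ((Y * x) ^ 2)))) * Real.exp (2 * π * θ * x * Real.sin ψ) := by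
  unfold Jg
  have e1 : ‖((x : ℂ) * Complex.exp (ψ * I)) ^ (p + 1)‖ = x ^ (p + 1) := by
    rw [norm_pow, norm_mul, Complex.norm_exp_ofReal_mul_I, Complex.norm_real, Real.norm_eq_abs, abs_of_pos hx, mul_one]
  have e2 : ‖Complex.exp (-((p : ℂ) * (x * Complex.exp (ψ * I))))‖ = Real.exp (-(p * (x * Real.cos ψ))) := by
    rw [Complex.norm_exp]
    congr 1
    rw [Complex.exp_mul_I]
    simp [Complex.cos_ofReal_re, Complex.sin_ofReal_re]
  have e5 : ‖Complex.exp (-(2 * π * I * θ * (x * Complex.exp (ψ * I))))‖ = Real.exp (2 * π * θ * x * Real.sin ψ) := by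
    rw [Complex.norm_exp]
    congr 1
    rw [Complex.exp_mul_I]
    simp [Complex.cos_ofReal_re, Complex.sin_ofReal_re]
    ring
  have h3 := ray_half (φ := ψ) hY hx hs
  have h4 := ray_exp (φ := ψ) hY hx hs hη
  rw [norm_mul, norm_mul, norm_mul, norm_mul, e1, e2, e5]
  have hp : 0 ≤ x ^ (p + 1) * Real.exp (-(p * (x * Real.cos ψ))) := by positivity
  have hq : 0 ≤ 2 * (Y * x) ^ (-(1 / 2) : ℝ) := by positivity
  exact mul_le_mul_of_nonneg_right (mul_le_mul (mul_le_mul_of_nonneg_left h3 hp) h4 (norm_nonneg _)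
    (mul_nonneg hp hq)) (Real.exp_pos _).le

private lemma half62 {x : ℝ} (hx : 0 < x) : x * x ^ (-(1 / 2) : ℝ) ≤ 1 + x := by
  have h1 : x * x ^ (-(1 / 2) : ℝ) = √x := by
    rw [Real.sqrt_eq_rpow]
    nth_rewrite 1 [← Real.rpow_one x]
    rw [← Real.rpow_add hx]
    norm_num
  rw [h1]
  have h2 := Real.sq_sqrt hx.le
  nlinarith [sq_nonneg (√x - 1), Real.sqrt_nonneg x]

private lemma diff62 {p : ℕ} {Y η θ : ℝ} (hY : 0 < Y) : DifferentiableOn ℂ (Jg p Y η θ) {w : ℂ | 0 < w.re} := by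
  intro w hw
  apply DifferentiableAt.differentiableWithinAt
  have him : (1 - Complex.I * Y * w).im = -(Y * w.re) := by simp
  have hne : (1 - Complex.I * Y * w).im ≠ 0 := by
    rw [him]
    have := mul_pos hY hw
    linarith
  have hsl : (1 - Complex.I * Y * w) ∈ Complex.slitPlane := Or.inr hne
  have hn0 : (1 - Complex.I * Y * w) ≠ 0 := by
    intro h
    rw [h] at hne
    simp at hne
  have hd : DifferentiableAt ℂ (fun w : ℂ => 1 - Complex.I * Y * w) w := by fun_prop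
  have h3 : DifferentiableAt ℂ (fun w : ℂ => (1 - Complex.I * Y * w) ^ (-(1 / 2) : ℂ)) w :=
    hd.cpow (differentiableAt_const _) hsl
  have h4 : DifferentiableAt ℂ (fun w : ℂ => 1 / (1 - Complex.I * Y * w)) w :=
    (differentiableAt_const _).div hd hn0
  unfold Jg
  have h1 : DifferentiableAt ℂ (fun w : ℂ => w ^ (p + 1) * Complex.exp (-(p * w))) w := by fun_prop
  have h5 : DifferentiableAt ℂ (fun w : ℂ => Complex.exp (-(2 * π * Complex.I * θ * w))) w := by fun_prop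
  have h6 : DifferentiableAt ℂ (fun w : ℂ => Complex.exp (-(π * η ^ 2 * (1 - 1 / (1 - Complex.I * Y * w))))) w := by
    have : DifferentiableAt ℂ (fun w : ℂ => -(π * η ^ 2 * (1 - 1 / (1 - Complex.I * Y * w)) : ℂ)) w :=
      (((differentiableAt_const _).sub h4).const_mul _).neg
    exact this.cexp
  exact ((h1.mul h3).mul h6).mul h5

/-- the rough bound needed for the rotation -/
private lemma rough62 (n : ℕ) {Y η θ x ψ : ℝ} (hY : 1 ≤ Y) (hx : 0 < x) (hψ : |ψ| < π / 2)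
    (hs : |Real.sin ψ| ≤ 1 / 10) (hη : |Real.sin ψ| * |η| ≤ 1 / 10) (hθ : θ * Real.sin ψ ≤ 0) :
    ‖Jg (3 * n + 3) Y η θ (x * Complex.exp (ψ * Complex.I))‖ ≤
      (4 * ((3 * n + 3).factorial * Real.exp 1)) * x * Real.exp (-(1 * x)) := by
  have h := norm_Jg62 (p := 3 * n + 3) (θ := θ) (by linarith : 0 < Y) hx hs hη
  have hc := cos_ge62 hψ hs
  refine h.trans ?_
  have hx' : 0 ≤ x := hx.le
  have hY0 : 0 < Y := by linarith
  have h1 : Real.exp (-(((3 * n + 3 : ℕ) : ℝ) * (x * Real.cos ψ))) ≤ Real.exp (-(2 * x)) := by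
    rw [Real.exp_le_exp]
    have hn : (3 : ℝ) ≤ ((3 * n + 3 : ℕ) : ℝ) := by
      push_cast
      have : (0 : ℝ) ≤ n := n.cast_nonneg
      linarith
    have h2 : 9 / 10 * x ≤ x * Real.cos ψ := by nlinarith
    nlinarith [mul_nonneg (sub_nonneg.2 hn) (mul_nonneg hx' (by linarith : (0 : ℝ) ≤ Real.cos ψ))]
  have h2 : (Y * x) ^ (-(1 / 2) : ℝ) ≤ x ^ (-(1 / 2) : ℝ) :=
    Real.rpow_le_rpow_of_nonpos hx (by nlinarith) (by norm_num)
  have h3 : Real.exp (-(π / 8 * η ^ 2 * min 1 ((Y * x) ^ 2))) ≤ 1 := by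
    rw [Real.exp_le_one_iff]
    have : 0 ≤ min 1 ((Y * x) ^ 2) := le_min zero_le_one (sq_nonneg _)
    have hp := pi_pos
    have : 0 ≤ π / 8 * η ^ 2 * min 1 ((Y * x) ^ 2) := by positivity
    linarith
  have h4 : Real.exp (2 * π * θ * x * Real.sin ψ) ≤ 1 := by
    rw [Real.exp_le_one_iff]
    have e : 2 * π * θ * x * Real.sin ψ = (2 * π * x) * (θ * Real.sin ψ) := by ring
    rw [e]
    exact mul_nonpos_of_nonneg_of_nonpos (by positivity) hθ
  have h5 : x ^ (3 * n + 3 + 1) * (2 * (Y * x) ^ (-(1 / 2) : ℝ)) ≤ 2 * (x * (1 + x) ^ (3 * n + 3)) := by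
    have e : x ^ (3 * n + 3 + 1) * x ^ (-(1 / 2) : ℝ) = x * x ^ (3 * n + 2) * (x * x ^ (-(1 / 2) : ℝ)) := by ring
    have h6 : x ^ (3 * n + 3 + 1) * x ^ (-(1 / 2) : ℝ) ≤ x * (1 + x) ^ (3 * n + 3) := by
      rw [e]
      calc x * x ^ (3 * n + 2) * (x * x ^ (-(1 / 2) : ℝ)) ≤ x * (1 + x) ^ (3 * n + 2) * (1 + x) := by
            refine mul_le_mul ?_ (half62 hx) (by positivity) (by positivity)
            exact mul_le_mul_of_nonneg_left (pow_le_pow_left₀ hx' (by linarith) _) hx'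
        _ = x * (1 + x) ^ (3 * n + 3) := by ring
    have h7 : x ^ (3 * n + 3 + 1) * (Y * x) ^ (-(1 / 2) : ℝ) ≤ x ^ (3 * n + 3 + 1) * x ^ (-(1 / 2) : ℝ) :=
      mul_le_mul_of_nonneg_left h2 (by positivity)
    linarith
  have h6 := pow_le_exp62 (3 * n + 3) hx'
  calc x ^ (3 * n + 3 + 1) * Real.exp (-(((3 * n + 3 : ℕ) : ℝ) * (x * Real.cos ψ))) * (2 * (Y * x) ^ (-(1 / 2) : ℝ)) *
        (2 * Real.exp (-(π / 8 * η ^ 2 * min 1 ((Y * x) ^ 2)))) * Real.exp (2 * π * θ * x * Real.sin ψ)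
      = (x ^ (3 * n + 3 + 1) * (2 * (Y * x) ^ (-(1 / 2) : ℝ))) *
        Real.exp (-(((3 * n + 3 : ℕ) : ℝ) * (x * Real.cos ψ))) *
        (2 * Real.exp (-(π / 8 * η ^ 2 * min 1 ((Y * x) ^ 2)))) * Real.exp (2 * π * θ * x * Real.sin ψ) := by ring
    _ ≤ (2 * (x * (1 + x) ^ (3 * n + 3))) * Real.exp (-(2 * x)) * (2 * 1) * 1 := by gcongr
    _ = 4 * x * (1 + x) ^ (3 * n + 3) * Real.exp (-(2 * x)) := by ring
    _ ≤ 4 * x * ((3 * n + 3).factorial * Real.exp 1 * Real.exp x) * Real.exp (-(2 * x)) := by gcongr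
    _ = (4 * ((3 * n + 3).factorial * Real.exp 1)) * x * (Real.exp x * Real.exp (-(2 * x))) := by ring
    _ = (4 * ((3 * n + 3).factorial * Real.exp 1)) * x * Real.exp (-(1 * x)) := by
      rw [← Real.exp_add]
      congr 2
      ring

/-- the sharp bound on the rotated ray -/
private lemma sharp62 (n : ℕ) {Y η θ x s c : ℝ} (hY : 1 ≤ Y) (hx : 0 < x) (hs : s = 1 / (10 * (1 + |η|)))
    (hc : 9 / 10 ≤ c) :
    x ^ (3 * n + 3 + 1) * Real.exp (-(((3 * n + 3 : ℕ) : ℝ) * (x * c))) * (2 * (Y * x) ^ (-(1 / 2) : ℝ)) *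
        (2 * Real.exp (-(π / 8 * η ^ 2 * min 1 ((Y * x) ^ 2)))) * Real.exp (-(2 * π * |θ| * s * x)) ≤
      (4 * (n.factorial * Real.exp 1) ^ 2 * 80 ^ n * ((3 * n + 4).factorial * Real.exp 1)) * Y ^ (-(1 / 2) : ℝ) *
        ((1 + |η|) ^ n)⁻¹ * ((1 + |θ|) ^ n)⁻¹ * Real.exp (-x) := by
  have hx' : 0 ≤ x := hx.le
  have hY0 : 0 < Y := by linarith
  have hp := pi_gt_three
  have hη0 : 0 ≤ |η| := abs_nonneg η
  have hθ0 : 0 ≤ |θ| := abs_nonneg θ
  obtain ⟨m, hm⟩ : ∃ m, m = min 1 x := ⟨_, rfl⟩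
  have hm0 : 0 < m := by rw [hm]; exact lt_min one_pos hx
  have hm1 : m ≤ 1 := by rw [hm]; exact min_le_left _ _
  have hmx : m ≤ x := by rw [hm]; exact min_le_right _ _
  have hs0 : 0 < s := by rw [hs]; positivity
  have hs1 : s ≤ 1 := by
    rw [hs, div_le_one (by positivity)]
    linarith
  have hsη : s * (10 * (1 + |η|)) = 1 := by
    rw [hs]
    field_simp
  have hmm : m ^ 2 ≤ min 1 ((Y * x) ^ 2) := by
    refine le_min ?_ ?_
    · nlinarith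
    · apply pow_le_pow_left₀ hm0.le
      nlinarith
  have hE1 : Real.exp (-(π / 8 * η ^ 2 * min 1 ((Y * x) ^ 2))) ≤
      n.factorial * Real.exp 1 * (((1 + |η|) ^ 2 * m ^ 2 / 8) ^ n)⁻¹ := by
    refine exp_neg_le62 n (by positivity) (by positivity) ?_
    have h1 : (1 + |η|) ^ 2 ≤ 2 + 2 * η ^ 2 := by
      rw [← sq_abs η]
      nlinarith [sq_nonneg (1 - |η|)]
    have h2 : π / 8 * η ^ 2 * m ^ 2 ≤ π / 8 * η ^ 2 * min 1 ((Y * x) ^ 2) :=
      mul_le_mul_of_nonneg_left hmm (by positivity)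
    have h3 : m ^ 2 ≤ 1 := by nlinarith
    have h4 : 0 ≤ η ^ 2 * m ^ 2 := by positivity
    nlinarith [mul_le_mul_of_nonneg_right h1 (sq_nonneg m)]
  have hE2 : Real.exp (-(2 * π * |θ| * s * x)) ≤ n.factorial * Real.exp 1 * ((m * s * (1 + |θ|)) ^ n)⁻¹ := by
    refine exp_neg_le62 n (by positivity) (by positivity) ?_
    have h1 : m * s ≤ 1 := by nlinarith
    have h2 : |θ| * s * m ≤ |θ| * s * x := mul_le_mul_of_nonneg_left hmx (by positivity)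
    have h3 : 0 ≤ |θ| * s * x := by positivity
    nlinarith
  have hprod : Real.exp (-(π / 8 * η ^ 2 * min 1 ((Y * x) ^ 2))) * Real.exp (-(2 * π * |θ| * s * x)) ≤
      (n.factorial * Real.exp 1) ^ 2 * 80 ^ n * ((1 + |η|) ^ n)⁻¹ * ((1 + |θ|) ^ n)⁻¹ * (m ^ (3 * n))⁻¹ := by
    refine (mul_le_mul hE1 hE2 (Real.exp_pos _).le (by positivity)).trans (le_of_eq ?_)
    have e : ((1 + |η|) ^ 2 * m ^ 2 / 8) ^ n * (m * s * (1 + |θ|)) ^ n * 80 ^ n =
        (1 + |η|) ^ n * (1 + |θ|) ^ n * m ^ (3 * n) := by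
      have key : (1 + |η|) ^ 2 * m ^ 2 / 8 * (m * s * (1 + |θ|)) * 80 = (1 + |η|) * (1 + |θ|) * m ^ 3 := by
        linear_combination ((1 + |η|) * m ^ 3 * (1 + |θ|)) * hsη
      calc ((1 + |η|) ^ 2 * m ^ 2 / 8) ^ n * (m * s * (1 + |θ|)) ^ n * 80 ^ n =
            ((1 + |η|) ^ 2 * m ^ 2 / 8 * (m * s * (1 + |θ|)) * 80) ^ n := by
              rw [mul_pow ((1 + |η|) ^ 2 * m ^ 2 / 8 * (m * s * (1 + |θ|))) 80 n,
                mul_pow ((1 + |η|) ^ 2 * m ^ 2 / 8) (m * s * (1 + |θ|)) n]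
        _ = ((1 + |η|) * (1 + |θ|) * m ^ 3) ^ n := by rw [key]
        _ = (1 + |η|) ^ n * (1 + |θ|) ^ n * m ^ (3 * n) := by rw [mul_pow, mul_pow, pow_mul m 3 n]
    have e2 : (((1 + |η|) ^ 2 * m ^ 2 / 8) ^ n)⁻¹ * ((m * s * (1 + |θ|)) ^ n)⁻¹ =
        80 ^ n * (((1 + |η|) ^ n)⁻¹ * ((1 + |θ|) ^ n)⁻¹ * (m ^ (3 * n))⁻¹) := by
      rw [← mul_inv, ← mul_inv, ← mul_inv, ← e, mul_inv, mul_inv]
      field_simp
    linear_combination (n.factorial * Real.exp 1) ^ 2 * e2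
  have hexp : Real.exp (-(((3 * n + 3 : ℕ) : ℝ) * (x * c))) ≤ Real.exp (-(2 * x)) := by
    rw [Real.exp_le_exp]
    have hn : (3 : ℝ) ≤ ((3 * n + 3 : ℕ) : ℝ) := by
      push_cast
      have : (0 : ℝ) ≤ n := n.cast_nonneg
      linarith
    have h2 : 9 / 10 * x ≤ x * c := by nlinarith
    nlinarith [mul_nonneg (sub_nonneg.2 hn) (mul_nonneg hx' (by linarith : (0 : ℝ) ≤ c))]
  have hpow : x ^ (3 * n + 3 + 1) * x ^ (-(1 / 2) : ℝ) * (m ^ (3 * n))⁻¹ ≤ (1 + x) ^ (3 * n + 4) := by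
    have h1 : x / m ≤ 1 + x := by
      rw [div_le_iff₀ hm0, hm]
      rcases le_total 1 x with h | h
      · rw [min_eq_left h]; linarith
      · rw [min_eq_right h]; nlinarith
    have e : x ^ (3 * n + 3 + 1) * x ^ (-(1 / 2) : ℝ) * (m ^ (3 * n))⁻¹ =
        (x / m) ^ (3 * n) * x ^ 3 * (x * x ^ (-(1 / 2) : ℝ)) := by
      rw [div_pow, div_eq_mul_inv]
      ring
    rw [e]
    calc (x / m) ^ (3 * n) * x ^ 3 * (x * x ^ (-(1 / 2) : ℝ)) ≤ (1 + x) ^ (3 * n) * (1 + x) ^ 3 * (1 + x) := by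
          refine mul_le_mul (mul_le_mul (pow_le_pow_left₀ (by positivity) h1 _)
            (pow_le_pow_left₀ hx' (by linarith) _) (by positivity) (by positivity)) (half62 hx) (by positivity) (by positivity)
      _ = (1 + x) ^ (3 * n + 4) := by ring
  have hfin := pow_le_exp62 (3 * n + 4) hx'
  have hYx : (Y * x) ^ (-(1 / 2) : ℝ) = Y ^ (-(1 / 2) : ℝ) * x ^ (-(1 / 2) : ℝ) := Real.mul_rpow hY0.le hx'
  have hxh : 0 ≤ x ^ (-(1 / 2) : ℝ) := by positivity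
  have hYh : 0 ≤ Y ^ (-(1 / 2) : ℝ) := by positivity
  set E1 := Real.exp (-(π / 8 * η ^ 2 * min 1 ((Y * x) ^ 2))) with hdE1
  set E2 := Real.exp (-(2 * π * |θ| * s * x)) with hdE2
  set E3 := Real.exp (-(((3 * n + 3 : ℕ) : ℝ) * (x * c))) with hdE3
  set A := ((1 + |η|) ^ n)⁻¹ with hA
  set B := ((1 + |θ|) ^ n)⁻¹ with hB
  set F := (n.factorial * Real.exp 1) ^ 2 * (80 : ℝ) ^ n with hF
  have hA0 : 0 ≤ A := by positivity
  have hB0 : 0 ≤ B := by positivity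
  have hF0 : 0 ≤ F := by positivity
  calc x ^ (3 * n + 3 + 1) * E3 * (2 * (Y * x) ^ (-(1 / 2) : ℝ)) * (2 * E1) * E2
      = 4 * (x ^ (3 * n + 3 + 1) * x ^ (-(1 / 2) : ℝ)) * Y ^ (-(1 / 2) : ℝ) * E3 * (E1 * E2) := by
        rw [hYx]; ring
    _ ≤ 4 * (x ^ (3 * n + 3 + 1) * x ^ (-(1 / 2) : ℝ)) * Y ^ (-(1 / 2) : ℝ) * Real.exp (-(2 * x)) *
        (F * A * B * (m ^ (3 * n))⁻¹) := by gcongr
    _ = 4 * F * Y ^ (-(1 / 2) : ℝ) * A * B * Real.exp (-(2 * x)) *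
        (x ^ (3 * n + 3 + 1) * x ^ (-(1 / 2) : ℝ) * (m ^ (3 * n))⁻¹) := by ring
    _ ≤ 4 * F * Y ^ (-(1 / 2) : ℝ) * A * B * Real.exp (-(2 * x)) * ((3 * n + 4).factorial * Real.exp 1 * Real.exp x) :=
        mul_le_mul_of_nonneg_left (hpow.trans hfin) (by positivity)
    _ = (4 * F * ((3 * n + 4).factorial * Real.exp 1)) * Y ^ (-(1 / 2) : ℝ) * A * B *
        (Real.exp (-(2 * x)) * Real.exp x) := by ring
    _ = _ := by
      rw [← Real.exp_add, show -(2 * x) + x = -x by ring, hF]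
      ring

theorem J_bound (n : ℕ) : ∃ C : ℝ, 0 < C ∧ ∀ Y η θ : ℝ, 1 ≤ Y →
    ‖Jf (3 * n + 3) Y η θ‖ ≤ C * Y ^ (-(1 / 2) : ℝ) * ((1 + |η|) ^ n)⁻¹ * ((1 + |θ|) ^ n)⁻¹ := by
  refine ⟨4 * (n.factorial * Real.exp 1) ^ 2 * 80 ^ n * ((3 * n + 4).factorial * Real.exp 1), by positivity, ?_⟩
  intro Y η θ hY
  have hY0 : 0 < Y := by linarith
  have hη0 : 0 ≤ |η| := abs_nonneg η
  obtain ⟨t, ht⟩ : ∃ t : ℝ, t = 1 / (10 * (1 + |η|)) := ⟨_, rfl⟩
  have ht0 : 0 < t := by rw [ht]; positivity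
  have ht1 : t ≤ 1 / 10 := by
    rw [ht]
    apply one_div_le_one_div_of_le (by norm_num)
    linarith
  have htη : t * |η| ≤ 1 / 10 := by
    have h1 : t * (10 * (1 + |η|)) = 1 := by rw [ht]; field_simp
    nlinarith
  -- the angle
  obtain ⟨σ, hσ1, hσ2⟩ : ∃ σ : ℝ, |σ| = t ∧ θ * σ = -(|θ| * t) := by
    rcases le_total 0 θ with h | h
    · exact ⟨-t, by rw [abs_neg, abs_of_pos ht0], by rw [abs_of_nonneg h]; ring⟩
    · exact ⟨t, abs_of_pos ht0, by rw [abs_of_nonpos h]; ring⟩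
  have hσm : -1 ≤ σ ∧ σ ≤ 1 := abs_le.1 (by rw [hσ1]; linarith)
  obtain ⟨φ, hφd⟩ : ∃ φ : ℝ, φ = Real.arcsin σ := ⟨_, rfl⟩
  have hsin : Real.sin φ = σ := by rw [hφd]; exact Real.sin_arcsin hσm.1 hσm.2
  have hφ : |φ| < π / 2 := by
    rw [hφd, abs_lt]
    constructor
    · rw [Real.neg_pi_div_two_lt_arcsin]
      have := neg_abs_le σ
      rw [hσ1] at this
      linarith
    · rw [Real.arcsin_lt_pi_div_two]
      have := le_abs_self σ
      rw [hσ1] at this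
      linarith
  have hb : ∀ x : ℝ, 0 < x → ∀ ψ : ℝ, |ψ| ≤ |φ| → 0 ≤ ψ * φ →
      ‖Jg (3 * n + 3) Y η θ (x * Complex.exp (ψ * Complex.I))‖ ≤
        (4 * ((3 * n + 3).factorial * Real.exp 1)) * x * Real.exp (-(1 * x)) := by
    intro x hx ψ hψ hψφ
    have h1 : |Real.sin ψ| ≤ t := by
      rw [← hσ1, ← hsin]
      exact abs_sin_le62 hφ.le hψ
    have hψ2 : |ψ| < π / 2 := lt_of_le_of_lt hψ hφ
    refine rough62 n hY hx hψ2 (h1.trans ht1) ((mul_le_mul_of_nonneg_right h1 hη0).trans htη) ?_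
    -- sign
    have h2 : 0 ≤ Real.sin ψ * σ := by
      rw [← hsin]
      rw [abs_lt] at hψ2 hφ
      rcases le_total 0 φ with h | h
      · rcases h.eq_or_lt with h | h
        · rw [← h]; simp
        · have h3 : 0 ≤ ψ := by
            by_contra hc
            push Not at hc
            nlinarith
          exact mul_nonneg (Real.sin_nonneg_of_nonneg_of_le_pi h3 (by linarith [pi_pos]))
            (Real.sin_nonneg_of_nonneg_of_le_pi h.le (by linarith [pi_pos]))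
      · rcases h.eq_or_lt with h | h
        · rw [h]; simp
        · have h3 : ψ ≤ 0 := by
            by_contra hc
            push Not at hc
            nlinarith
          exact mul_nonneg_of_nonpos_of_nonpos (Real.sin_nonpos_of_nonpos_of_neg_pi_le h3 (by linarith [pi_pos]))
            (Real.sin_nonpos_of_nonpos_of_neg_pi_le h.le (by linarith [pi_pos]))
    have h3 : θ * σ ≤ 0 := by
      rw [hσ2]
      have := mul_nonneg (abs_nonneg θ) ht0.le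
      linarith
    by_contra hc
    push Not at hc
    have h4 : (θ * Real.sin ψ) * (σ * σ) ≤ 0 := by
      have e : (θ * Real.sin ψ) * (σ * σ) = (θ * σ) * (Real.sin ψ * σ) := by ring
      rw [e]
      exact mul_nonpos_of_nonpos_of_nonneg h3 h2
    have h5 : 0 < σ * σ := by
      rw [← abs_mul_abs_self, hσ1]
      positivity
    nlinarith [mul_pos hc h5]
  have hrot := rotate hφ one_pos (diff62 (p := 3 * n + 3) (η := η) (θ := θ) hY0) hb
  unfold Jf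
  rw [hrot, norm_mul, Complex.norm_exp_ofReal_mul_I, one_mul]
  set K := (4 * (n.factorial * Real.exp 1) ^ 2 * 80 ^ n * ((3 * n + 4).factorial * Real.exp 1)) * Y ^ (-(1 / 2) : ℝ) *
        ((1 + |η|) ^ n)⁻¹ * ((1 + |θ|) ^ n)⁻¹ with hK
  have hint : IntegrableOn (fun x : ℝ => K * Real.exp (-x)) (Ioi 0) :=
    (integrableOn_exp_neg_Ioi 0).const_mul K
  have hle : ‖∫ x in Ioi (0 : ℝ), Jg (3 * n + 3) Y η θ (x * Complex.exp (φ * Complex.I))‖ ≤
      ∫ x in Ioi (0 : ℝ), K * Real.exp (-x) := by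
    refine norm_integral_le_of_norm_le hint ?_
    refine (ae_restrict_iff' measurableSet_Ioi).2 (ae_of_all _ ?_)
    intro x hx
    have hx0 : (0 : ℝ) < x := hx
    have hs1 : |Real.sin φ| = t := by rw [hsin, hσ1]
    have h1 := norm_Jg62 (p := 3 * n + 3) (θ := θ) (η := η) hY0 hx0 (ψ := φ) (by rw [hs1]; exact ht1)
      (by rw [hs1]; exact htη)
    have hc := cos_ge62 hφ (by rw [hs1]; exact ht1)
    have h2 := sharp62 n (θ := θ) hY hx0 ht hc
    refine h1.trans ?_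
    have e : 2 * π * θ * x * Real.sin φ = -(2 * π * |θ| * t * x) := by
      rw [hsin]
      linear_combination 2 * π * x * hσ2
    rw [e]
    exact h2
  refine hle.trans (le_of_eq ?_)
  rw [integral_const_mul, integral_exp_neg_Ioi_zero, mul_one]

end Pool.Agent.Helper92.GC
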