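import Pool.Agent.Helper92.GC.W3

/-!
# GC-W4: the weight function in the plane and its Fourier transform

PROOFS. `wf_lat`: definitions. `wf_cont`: on `{x + β y > 0}` it is a composition of continuous functions; where `x + β y < 0` it is locally zero; at a point with
`x + β y = 0`: `‖wf‖ ≤ (u/H)^p → 0` (`p ≥ 1`). `wf_decay`: with `u = x + β y > 0`, `t = y/u`: `|wf| = (u/H)^p e^(-pu/H) exp(-π((t - t₀)/σ)²)`; `y = t u`, `|x| ≤ u + |β| |y|`;
`exp(-π((t-t₀)/σ)²) ≤ C (1 + t²)^(-2)` and `u^p e^(-pu/H) ≤ C (1+u)^(-4)`... so `(1 + x²)(1 + y²) |wf| ≤ C (1 + u)^4 (1 + |t|)^4 e^(-pu/(2H)) (1 + t²)^(-2) ≤ C` (constants may depend on all parameters).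
`wf_four` (Fubini; substitution `x = u - β y`; `ξ₁ x + ξ₂ y = ξ₁ u + ζ y`, `ζ = ξ₂ - β ξ₁`): the left side is
`∫_{u>0} (u/H)^p e^(-pu/H) ee(-ξ₁u) ∫_y exp(-π((y/u - t₀)/σ)²) ee(R y²/u - ζ y) dy du`. Inner integral: `integral_cexp_quadratic` with
`b = -(π/u²) A`, `A = σ^(-2) - 2iRu`, `c = 2π(t₀ σ^(-2)/u - i ζ)`, `d = -π t₀²σ^(-2)`: it equals `u A^(-1/2) exp(-π[σ^(-2) t₀² - (σ^(-2) t₀ - iuζ)²/A])`
(`(u²/A)^(1/2) = u A^(-1/2)` since `u > 0` and `Re A > 0`; `π/(-b) = u²/A`). With `Δ = ζ/(2R) - t₀`: `σ^(-2)t₀ - iuζ = A (t₀ + Δ) - σ^(-2) Δ` (because `2iuR = σ^(-2) - A`), and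
`σ^(-2)t₀² - (A(t₀+Δ) - σ^(-2)Δ)²/A = σ^(-2)Δ² - σ^(-4)Δ²/A + 2iuR (t₀+Δ)²`, `R (t₀+Δ)² = ζ²/(4R)`. So the inner integral is
`u A^(-1/2) exp(-π σ^(-2)Δ² (1 - σ^(-2)/A)) ee(-u ζ²/(4R))`. Substitute `u = H x`: `A = σ^(-2)(1 - iYx)`, `Y = 2RHσ²`, `η = Δ/σ`, `θ = H(ξ₁ + ζ²/(4R))`: total
`∫_0^∞ x^p e^(-px) · Hx · σ (1 - iYx)^(-1/2) exp(-πη²(1 - 1/(1-iYx))) e^(-2πiθx) H dx = H² σ Jf p Y η θ`.
-/

open MeasureTheory Real Set Filter Topology

set_option autoImplicit false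

namespace Pool.Agent.Helper92.GC

open Pool.Agent.Helper22.AE
open Pool.Agent.Helper22.AC (n6 IsWt mu)

/-- the weight function in the plane -/
noncomputable def wf (β H σ t₀ R : ℝ) (p : ℕ) (x y : ℝ) : ℂ :=
  if 0 < x + β * y then
    ((((x + β * y) / H) ^ p * exp (-(p * ((x + β * y) / H))) * exp (-(π * ((y / (x + β * y) - t₀) / σ) ^ 2)) : ℝ) : ℂ) *
      ee (R * (y ^ 2 / (x + β * y))) else 0

private lemma wf_norm {β H σ t₀ R : ℝ} {p : ℕ} (hH : 0 < H) {x y : ℝ} (h : 0 < x + β * y) :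
    ‖wf β H σ t₀ R p x y‖ = ((x + β * y) / H) ^ p * exp (-(p * ((x + β * y) / H))) *
      exp (-(π * ((y / (x + β * y) - t₀) / σ) ^ 2)) := by
  unfold wf
  rw [if_pos h, norm_mul, ee_norm, mul_one, Complex.norm_real, Real.norm_of_nonneg]
  positivity

theorem wf_lat (β H σ t₀ R : ℝ) (p : ℕ) (k : ℤ × ℤ) :
    wf β H σ t₀ R p (k.1 : ℝ) (k.2 : ℝ) = (wt β H σ t₀ p k : ℂ) * ee (R * ph β k) := by
  unfold wf wt ph tt uu
  by_cases h : 0 < (k.1 : ℝ) + β * (k.2 : ℝ)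
  · rw [if_pos h, if_pos h]
  · rw [if_neg h, if_neg h, Complex.ofReal_zero, zero_mul]

theorem wf_cont {β H σ t₀ R : ℝ} {p : ℕ} (hH : 0 < H) (hσ : 0 < σ) (hp : 1 ≤ p) :
    Continuous (fun q : ℝ × ℝ => wf β H σ t₀ R p q.1 q.2) := by
  rw [continuous_iff_continuousAt]
  intro q
  have hu : Continuous fun q : ℝ × ℝ => q.1 + β * q.2 := by fun_prop
  rcases lt_trichotomy (q.1 + β * q.2) 0 with h | h | h
  · have e : (fun q : ℝ × ℝ => wf β H σ t₀ R p q.1 q.2) =ᶠ[𝓝 q] fun _ => 0 := by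
      filter_upwards [(isOpen_Iio.preimage hu).mem_nhds h] with z hz
      exact if_neg (not_lt.2 (le_of_lt hz))
    exact continuousAt_const.congr e.symm
  · have h0 : wf β H σ t₀ R p q.1 q.2 = 0 := if_neg (by rw [h]; exact lt_irrefl _)
    change Tendsto (fun q : ℝ × ℝ => wf β H σ t₀ R p q.1 q.2) (𝓝 q) (𝓝 (wf β H σ t₀ R p q.1 q.2))
    rw [h0, tendsto_zero_iff_norm_tendsto_zero]
    refine squeeze_zero (g := fun z : ℝ × ℝ => (|z.1 + β * z.2| / H) ^ p) (fun _ => norm_nonneg _) ?_ ?_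
    · intro z
      by_cases hz : 0 < z.1 + β * z.2
      · rw [wf_norm hH hz, abs_of_pos hz]
        have h1 : exp (-(p * ((z.1 + β * z.2) / H))) ≤ 1 := by
          rw [exp_le_one_iff]
          have : 0 ≤ (p : ℝ) * ((z.1 + β * z.2) / H) := by positivity
          linarith
        have h2 : exp (-(π * ((z.2 / (z.1 + β * z.2) - t₀) / σ) ^ 2)) ≤ 1 := by
          rw [exp_le_one_iff]
          have : 0 ≤ π * ((z.2 / (z.1 + β * z.2) - t₀) / σ) ^ 2 := by positivity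
          linarith
        have h3 : 0 ≤ ((z.1 + β * z.2) / H) ^ p := by positivity
        calc ((z.1 + β * z.2) / H) ^ p * exp (-(p * ((z.1 + β * z.2) / H))) *
              exp (-(π * ((z.2 / (z.1 + β * z.2) - t₀) / σ) ^ 2))
            ≤ ((z.1 + β * z.2) / H) ^ p * 1 * 1 := by gcongr
          _ = _ := by ring
      · rw [show wf β H σ t₀ R p z.1 z.2 = 0 from if_neg hz, norm_zero]
        positivity
    · have hc : Continuous fun z : ℝ × ℝ => (|z.1 + β * z.2| / H) ^ p := by fun_prop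
      have := hc.tendsto q
      rw [h, abs_zero, zero_div, zero_pow (by omega)] at this
      exact this
  · have e : (fun q : ℝ × ℝ => wf β H σ t₀ R p q.1 q.2) =ᶠ[𝓝 q] fun q =>
        ((((q.1 + β * q.2) / H) ^ p * exp (-(p * ((q.1 + β * q.2) / H))) *
          exp (-(π * ((q.2 / (q.1 + β * q.2) - t₀) / σ) ^ 2)) : ℝ) : ℂ) *
          ee (R * (q.2 ^ 2 / (q.1 + β * q.2))) := by
      filter_upwards [(isOpen_Ioi.preimage hu).mem_nhds h] with z hz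
      exact if_pos hz
    refine ContinuousAt.congr ?_ e.symm
    have hne : q.1 + β * q.2 ≠ 0 := h.ne'
    have c1 : ContinuousAt (fun z : ℝ × ℝ => z.2 / (z.1 + β * z.2)) q :=
      continuousAt_snd.div hu.continuousAt hne
    have c2 : ContinuousAt (fun z : ℝ × ℝ => z.2 ^ 2 / (z.1 + β * z.2)) q :=
      (continuousAt_snd.pow 2).div hu.continuousAt hne
    have c3 : ContinuousAt (fun z : ℝ × ℝ => exp (-(π * ((z.2 / (z.1 + β * z.2) - t₀) / σ) ^ 2))) q :=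
      Real.continuous_exp.continuousAt.comp ((((c1.sub continuousAt_const).div_const σ).pow 2).const_mul π).neg
    have c4 : ContinuousAt (fun z : ℝ × ℝ => ((z.1 + β * z.2) / H) ^ p * exp (-(p * ((z.1 + β * z.2) / H)))) q := by
      have : Continuous (fun z : ℝ × ℝ => ((z.1 + β * z.2) / H) ^ p * exp (-(p * ((z.1 + β * z.2) / H)))) := by
        fun_prop
      exact this.continuousAt
    exact (Complex.continuous_ofReal.continuousAt.comp (c4.mul c3)).mul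
      (ee_cont.continuousAt.comp (c2.const_mul R))

private lemma five {v : ℝ} (hv : 0 ≤ v) (n : ℕ) : v ^ n ≤ n.factorial * exp v := by
  have h := Real.pow_div_factorial_le_exp v hv n
  have h2 : (0 : ℝ) < n.factorial := by exact_mod_cast n.factorial_pos
  rw [div_le_iff₀ h2] at h
  linarith

theorem wf_decay {β H σ t₀ R : ℝ} {p : ℕ} (hH : 0 < H) (hσ : 0 < σ) (hp : 1 ≤ p) :
    ∃ C : ℝ, ∀ x y : ℝ, ‖wf β H σ t₀ R p x y‖ ≤ C * ((1 + x ^ 2)⁻¹ * (1 + y ^ 2)⁻¹) := by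
  set C₁ : ℝ := (1 + H ^ 2) ^ 2 * (120 * exp 1) with hC₁
  set C₂ : ℝ := (3 + 2 * β ^ 2) * (1 + 2 * t₀ ^ 2 + 2 * σ ^ 2) ^ 2 * (2 * exp 1) with hC₂
  refine ⟨C₁ * C₂, fun x y => ?_⟩
  have hC1 : 0 ≤ C₁ := by positivity
  have hC2 : 0 ≤ C₂ := by positivity
  by_cases h : 0 < x + β * y
  swap
  · rw [show wf β H σ t₀ R p x y = 0 from if_neg h, norm_zero]
    positivity
  rw [wf_norm hH h]
  set u : ℝ := x + β * y with hu
  set v : ℝ := u / H with hv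
  set t : ℝ := y / u with ht
  set s : ℝ := (t - t₀) / σ with hs
  have hv0 : 0 < v := div_pos h hH
  have huv : u = H * v := by rw [hv]; field_simp
  have hy : y = t * u := by rw [ht]; field_simp
  have hx : x = u * (1 - β * t) := by
    have : x = u - β * y := by rw [hu]; ring
    rw [this, hy]; ring
  have hts : t = t₀ + σ * s := by rw [hs]; field_simp; ring
  -- first factor
  have e1 : v ^ p * exp (-(p * v)) ≤ v * exp (-v) := by
    have a1 : v ^ p * exp (-(p * v)) = (v * exp (-v)) ^ p := by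
      rw [mul_pow, ← Real.exp_nat_mul]
      congr 2
      ring
    have a2 : v * exp (-v) ≤ 1 := by
      have := Real.add_one_le_exp v
      rw [exp_neg, ← div_eq_mul_inv, div_le_one (exp_pos v)]
      linarith
    have a3 : 0 ≤ v * exp (-v) := by positivity
    rw [a1]
    calc (v * exp (-v)) ^ p ≤ (v * exp (-v)) ^ 1 := pow_le_pow_of_le_one a3 a2 hp
      _ = _ := pow_one _
  have e2 : v * exp (-v) * (1 + u ^ 2) ^ 2 ≤ C₁ := by
    have a1 : 1 + u ^ 2 ≤ (1 + H ^ 2) * (1 + v) ^ 2 := by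
      rw [huv]
      have : 0 ≤ v * (2 + 2 * H ^ 2) + H ^ 2 + v ^ 2 := by positivity
      nlinarith [this]
    have a2 : v * (1 + u ^ 2) ^ 2 ≤ (1 + H ^ 2) ^ 2 * (1 + v) ^ 5 := by
      calc v * (1 + u ^ 2) ^ 2 ≤ (1 + v) * ((1 + H ^ 2) * (1 + v) ^ 2) ^ 2 := by
            gcongr
            linarith
        _ = _ := by ring
    have a3 : (1 + v) ^ 5 ≤ 120 * exp (1 + v) := by
      have := five (v := 1 + v) (by linarith) 5
      norm_num [Nat.factorial] at this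
      exact this
    have a4 : exp (1 + v) * exp (-v) = exp 1 := by rw [← exp_add]; congr 1; ring
    calc v * exp (-v) * (1 + u ^ 2) ^ 2 = exp (-v) * (v * (1 + u ^ 2) ^ 2) := by ring
      _ ≤ exp (-v) * ((1 + H ^ 2) ^ 2 * (120 * exp (1 + v))) :=
          mul_le_mul_of_nonneg_left (a2.trans (mul_le_mul_of_nonneg_left a3 (by positivity))) (exp_pos _).le
      _ = (1 + H ^ 2) ^ 2 * (120 * (exp (1 + v) * exp (-v))) := by ring
      _ = C₁ := by rw [a4]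
  -- second factor
  have e3 : exp (-(π * s ^ 2)) * ((1 + (1 - β * t) ^ 2) * (1 + t ^ 2)) ≤ C₂ := by
    have a1 : 1 + t ^ 2 ≤ (1 + 2 * t₀ ^ 2 + 2 * σ ^ 2) * (1 + s ^ 2) := by
      rw [hts]
      have b1 : (t₀ + σ * s) ^ 2 ≤ 2 * t₀ ^ 2 + 2 * (σ * s) ^ 2 := by
        nlinarith [sq_nonneg (t₀ - σ * s)]
      have b2 : 0 ≤ s ^ 2 * (1 + 2 * t₀ ^ 2) + 2 * σ ^ 2 := by positivity
      nlinarith [b1, b2]
    have a2 : 1 + (1 - β * t) ^ 2 ≤ (3 + 2 * β ^ 2) * (1 + t ^ 2) := by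
      have b1 : (1 - β * t) ^ 2 ≤ 2 + 2 * (β * t) ^ 2 := by nlinarith [sq_nonneg (1 + β * t)]
      have b2 : 0 ≤ 3 * t ^ 2 + 2 * β ^ 2 := by positivity
      nlinarith [b1, b2]
    have a3 : (1 + s ^ 2) ^ 2 ≤ 2 * exp (1 + s ^ 2) := by
      have := five (v := 1 + s ^ 2) (by positivity) 2
      norm_num [Nat.factorial] at this
      exact this
    have a4 : exp (1 + s ^ 2) * exp (-(π * s ^ 2)) ≤ exp 1 := by
      rw [← exp_add]
      apply exp_le_exp.2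
      have b1 : 1 * s ^ 2 ≤ π * s ^ 2 := by
        gcongr
        linarith [pi_gt_three]
      linarith
    have a5 : (1 + (1 - β * t) ^ 2) * (1 + t ^ 2) ≤
        (3 + 2 * β ^ 2) * (1 + 2 * t₀ ^ 2 + 2 * σ ^ 2) ^ 2 * (1 + s ^ 2) ^ 2 := by
      calc (1 + (1 - β * t) ^ 2) * (1 + t ^ 2) ≤ (3 + 2 * β ^ 2) * (1 + t ^ 2) * (1 + t ^ 2) := by gcongr
        _ = (3 + 2 * β ^ 2) * (1 + t ^ 2) ^ 2 := by ring
        _ ≤ (3 + 2 * β ^ 2) * ((1 + 2 * t₀ ^ 2 + 2 * σ ^ 2) * (1 + s ^ 2)) ^ 2 := by gcongr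
        _ = _ := by ring
    calc exp (-(π * s ^ 2)) * ((1 + (1 - β * t) ^ 2) * (1 + t ^ 2))
        ≤ exp (-(π * s ^ 2)) * ((3 + 2 * β ^ 2) * (1 + 2 * t₀ ^ 2 + 2 * σ ^ 2) ^ 2 * (2 * exp (1 + s ^ 2))) :=
          mul_le_mul_of_nonneg_left (a5.trans (mul_le_mul_of_nonneg_left a3 (by positivity))) (exp_pos _).le
      _ = (3 + 2 * β ^ 2) * (1 + 2 * t₀ ^ 2 + 2 * σ ^ 2) ^ 2 * (2 * (exp (1 + s ^ 2) * exp (-(π * s ^ 2)))) := by ring
      _ ≤ C₂ := by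
          rw [hC₂]
          gcongr
  -- the product
  have e4 : (1 + x ^ 2) * (1 + y ^ 2) ≤ (1 + u ^ 2) ^ 2 * ((1 + (1 - β * t) ^ 2) * (1 + t ^ 2)) := by
    have a1 : 1 + x ^ 2 ≤ (1 + u ^ 2) * (1 + (1 - β * t) ^ 2) := by
      rw [hx]
      nlinarith [sq_nonneg u, sq_nonneg (1 - β * t)]
    have a2 : 1 + y ^ 2 ≤ (1 + u ^ 2) * (1 + t ^ 2) := by
      rw [hy]
      nlinarith [sq_nonneg u, sq_nonneg t]
    calc (1 + x ^ 2) * (1 + y ^ 2) ≤ ((1 + u ^ 2) * (1 + (1 - β * t) ^ 2)) * ((1 + u ^ 2) * (1 + t ^ 2)) := by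
          gcongr
      _ = _ := by ring
  have hpos : 0 < (1 + x ^ 2) * (1 + y ^ 2) := by positivity
  rw [← mul_inv, ← div_eq_mul_inv, le_div_iff₀ hpos]
  calc v ^ p * exp (-(p * v)) * exp (-(π * s ^ 2)) * ((1 + x ^ 2) * (1 + y ^ 2))
      ≤ v * exp (-v) * exp (-(π * s ^ 2)) * ((1 + u ^ 2) ^ 2 * ((1 + (1 - β * t) ^ 2) * (1 + t ^ 2))) := by
        gcongr
    _ = (v * exp (-v) * (1 + u ^ 2) ^ 2) * (exp (-(π * s ^ 2)) * ((1 + (1 - β * t) ^ 2) * (1 + t ^ 2))) := by ring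
    _ ≤ C₁ * C₂ := by
        gcongr

private lemma wf_int {β H σ t₀ R : ℝ} {p : ℕ} (hH : 0 < H) (hσ : 0 < σ) (hp : 1 ≤ p) (ξ : ℝ × ℝ) :
    Integrable (fun q : ℝ × ℝ => wf β H σ t₀ R p q.1 q.2 * ee (-(ξ.1 * q.1 + ξ.2 * q.2))) := by
  obtain ⟨C, hC⟩ := wf_decay (β := β) (t₀ := t₀) (R := R) hH hσ hp
  have h1 : Integrable fun x : ℝ => (1 + x ^ 2)⁻¹ := integrable_inv_one_add_sq
  have h2 : Integrable fun q : ℝ × ℝ => C * ((1 + q.1 ^ 2)⁻¹ * (1 + q.2 ^ 2)⁻¹) := (h1.mul_prod h1).const_mul C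
  refine h2.mono' ?_ (Eventually.of_forall fun q => ?_)
  · refine ((wf_cont hH hσ hp).mul (ee_cont.comp ?_)).aestronglyMeasurable
    fun_prop
  · rw [norm_mul, ee_norm, mul_one]
    exact hC q.1 q.2

private lemma shear (β : ℝ) : MeasurePreserving (fun z : ℝ × ℝ => (z.1 - β * z.2, z.2)) volume volume := by
  have h : MeasurePreserving (fun z : ℝ × ℝ => (z.1, z.2 - β * z.1)) (volume.prod volume) (volume.prod volume) := by
    refine MeasurePreserving.skew_product (f := id) (g := fun a c => c - β * a) (MeasurePreserving.id _) ?_ ?_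
    · exact (measurable_snd.sub (measurable_fst.const_mul β))
    · refine Eventually.of_forall fun a => ?_
      exact (measurePreserving_sub_right volume (β * a)).map_eq
  have h2 := (Measure.measurePreserving_swap (μ := (volume : Measure ℝ)) (ν := (volume : Measure ℝ)))
  exact (h2.comp h).comp h2

private lemma shear_emb (β : ℝ) : MeasurableEmbedding (fun z : ℝ × ℝ => (z.1 - β * z.2, z.2)) := by
  have hc : Continuous (fun z : ℝ × ℝ => (z.1 - β * z.2, z.2)) := by fun_prop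
  refine hc.measurableEmbedding ?_
  intro z w h
  simp only [Prod.mk.injEq] at h
  have h1 : z.2 = w.2 := h.2
  have h2 : z.1 - β * z.2 = w.1 - β * w.2 := h.1
  rw [h1] at h2
  exact Prod.ext (by linarith) h1

private lemma gauss {u H σ t₀ R ζ x : ℝ} (hσ : 0 < σ) (hR : 0 < R) (hH : 0 < H) (hx : 0 < x) (hu : u = H * x) :
    ∫ y : ℝ, ((exp (-(π * ((y / u - t₀) / σ) ^ 2)) : ℝ) : ℂ) * ee (R * (y ^ 2 / u)) * ee (-(ζ * y)) =
      ((H * σ * x : ℝ) : ℂ) * (1 - Complex.I * ((2 * R * H * σ ^ 2 : ℝ) : ℂ) * x) ^ (-(1 / 2) : ℂ) *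
        Complex.exp (-(π * (((ζ / (2 * R) - t₀) / σ : ℝ) : ℂ) ^ 2 *
          (1 - 1 / (1 - Complex.I * ((2 * R * H * σ ^ 2 : ℝ) : ℂ) * x)))) *
        ee (-(H * (ζ ^ 2 / (4 * R)) * x)) := by
  set W : ℂ := 1 - Complex.I * ((2 * R * H * σ ^ 2 : ℝ) : ℂ) * x with hW
  have hu0 : 0 < u := by rw [hu]; positivity
  have huc : (u : ℂ) ≠ 0 := by exact_mod_cast hu0.ne'
  have hσc : (σ : ℂ) ≠ 0 := by exact_mod_cast hσ.ne'
  have hRc : (R : ℂ) ≠ 0 := by exact_mod_cast hR.ne'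
  have hπc : (π : ℂ) ≠ 0 := by exact_mod_cast pi_ne_zero
  have hWre : W.re = 1 := by
    have e : W = 1 - Complex.I * ((2 * R * H * σ ^ 2 * x : ℝ) : ℂ) := by
      rw [hW]
      push_cast
      ring
    rw [e, Complex.sub_re, Complex.one_re, Complex.I_mul_re, Complex.ofReal_im, neg_zero, sub_zero]
  have hW0 : W ≠ 0 := by
    intro h
    rw [h] at hWre
    simp at hWre
  have hWarg : W.arg ≠ π := by
    intro h
    have h2 := (Complex.arg_eq_pi_iff.1 h).1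
    rw [hWre] at h2
    linarith
  set b : ℂ := -(π * W / ((u : ℂ) * σ) ^ 2) with hb
  set c : ℂ := 2 * π * (t₀ / (u * σ ^ 2) - Complex.I * ζ) with hc
  set d : ℂ := -(π * (t₀ : ℂ) ^ 2 / σ ^ 2) with hd
  have hWu : W = 1 - Complex.I * (2 * R * u * σ ^ 2) := by
    rw [hW, hu]
    push_cast
    ring
  have hbre : b.re < 0 := by
    have e : b = -(((π / (u * σ) ^ 2 : ℝ) : ℂ) * W) := by
      rw [hb]
      push_cast
      ring
    rw [e, Complex.neg_re, Complex.re_ofReal_mul, hWre]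
    have : 0 < π / (u * σ) ^ 2 := by positivity
    linarith
  have e1 : ∀ y : ℝ, ((exp (-(π * ((y / u - t₀) / σ) ^ 2)) : ℝ) : ℂ) * ee (R * (y ^ 2 / u)) * ee (-(ζ * y)) =
      Complex.exp (b * y ^ 2 + c * y + d) := by
    intro y
    rw [ee, ee, Complex.ofReal_exp, ← Complex.exp_add, ← Complex.exp_add]
    congr 1
    rw [hb, hc, hd, hWu]
    push_cast
    field_simp
    ring
  simp only [e1]
  rw [integral_cexp_quadratic hbre]
  have e2 : (π / -b : ℂ) ^ (1 / 2 : ℂ) = ((u * σ : ℝ) : ℂ) * W ^ (-(1 / 2) : ℂ) := by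
    have a1 : (π / -b : ℂ) = (((u * σ) ^ 2 : ℝ) : ℂ) * W⁻¹ := by
      rw [hb]
      push_cast
      field_simp
    have a2 : 0 < (u * σ) ^ 2 := by positivity
    have a3 : 0 < u * σ := by positivity
    rw [a1, Complex.cpow_def_of_ne_zero (mul_ne_zero (by exact_mod_cast a2.ne') (inv_ne_zero hW0)),
      Complex.log_ofReal_mul a2 (inv_ne_zero hW0), Complex.log_inv _ hWarg,
      Complex.cpow_def_of_ne_zero hW0]
    rw [show (Real.log ((u * σ) ^ 2) : ℂ) = 2 * (Real.log (u * σ) : ℂ) by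
      rw [Real.log_pow]; push_cast; ring]
    rw [show ((2 * (Real.log (u * σ) : ℂ) + -Complex.log W) * (1 / 2) : ℂ) =
      (Real.log (u * σ) : ℂ) + Complex.log W * (-(1 / 2)) by ring]
    rw [Complex.exp_add, ← Complex.ofReal_exp, Real.exp_log a3]
  have e3 : d - c ^ 2 / (4 * b) = -(π * (((ζ / (2 * R) - t₀) / σ : ℝ) : ℂ) ^ 2 * (1 - 1 / W)) +
      ((2 * π * (-(H * (ζ ^ 2 / (4 * R)) * x)) : ℝ) : ℂ) * Complex.I := by
    have hζ : (ζ : ℂ) = 2 * R * ((((ζ / (2 * R) - t₀) : ℝ) : ℂ) + t₀) := by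
      push_cast
      field_simp
      ring
    set Δ : ℂ := (((ζ / (2 * R) - t₀) : ℝ) : ℂ) with hΔ
    have hη : (((ζ / (2 * R) - t₀) / σ : ℝ) : ℂ) = Δ / σ := by
      rw [hΔ]
      push_cast
      ring
    have h1 : Complex.I * ζ * u * σ ^ 2 = (1 - W) * (Δ + t₀) := by
      rw [hζ, hWu]
      ring
    have h2 : d - c ^ 2 / (4 * b) = -(π / σ ^ 2) * ((t₀ : ℂ) ^ 2 - (t₀ - Complex.I * ζ * u * σ ^ 2) ^ 2 / W) := by
      rw [hd, hc, hb]
      field_simp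
      ring
    have h3 : (t₀ : ℂ) ^ 2 - (t₀ - (1 - W) * (Δ + t₀)) ^ 2 / W = (1 - W) * (Δ + t₀) ^ 2 + Δ ^ 2 * (1 - 1 / W) := by
      field_simp
      ring
    have h4 : ((2 * π * (-(H * (ζ ^ 2 / (4 * R)) * x)) : ℝ) : ℂ) * Complex.I =
        -(π / σ ^ 2) * ((1 - W) * (Δ + t₀) ^ 2) := by
      have hux : (u : ℂ) = H * x := by rw [hu]; push_cast; ring
      have : (1 - W) = Complex.I * (2 * R * (H * x) * σ ^ 2) := by rw [hWu, hux]; ring
      rw [this]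
      push_cast
      rw [hζ]
      field_simp
      ring
    rw [h2, h1, h3, h4, hη]
    field_simp
    ring
  rw [e2, e3, Complex.exp_add, ee, hu]
  push_cast
  ring

theorem wf_four {β H σ t₀ R : ℝ} {p : ℕ} (hH : 0 < H) (hσ : 0 < σ) (hp : 1 ≤ p) (hR : 0 < R) (ξ : ℝ × ℝ) :
    ∫ q : ℝ × ℝ, wf β H σ t₀ R p q.1 q.2 * ee (-(ξ.1 * q.1 + ξ.2 * q.2)) =
      ((H ^ 2 * σ : ℝ) : ℂ) * Jf p (2 * R * H * σ ^ 2) (((ξ.2 - β * ξ.1) / (2 * R) - t₀) / σ)
        (H * (ξ.1 + (ξ.2 - β * ξ.1) ^ 2 / (4 * R))) := by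
  set F : ℝ × ℝ → ℂ := fun q => wf β H σ t₀ R p q.1 q.2 * ee (-(ξ.1 * q.1 + ξ.2 * q.2)) with hF
  have hint : Integrable F := wf_int hH hσ hp ξ
  have hsh := shear β
  have h1 : ∫ q : ℝ × ℝ, F q = ∫ z : ℝ × ℝ, F (z.1 - β * z.2, z.2) :=
    (hsh.integral_comp (shear_emb β) F).symm
  have hint2 : Integrable (fun z : ℝ × ℝ => F (z.1 - β * z.2, z.2)) := hsh.integrable_comp_of_integrable hint
  have h2 : ∫ z : ℝ × ℝ, F (z.1 - β * z.2, z.2) = ∫ u : ℝ, ∫ y : ℝ, F (u - β * y, y) := by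
    rw [Measure.volume_eq_prod] at hint2 ⊢
    exact integral_prod _ hint2
  have h3 : ∫ u : ℝ, ∫ y : ℝ, F (u - β * y, y) = ∫ u in Ioi (0 : ℝ), ∫ y : ℝ, F (u - β * y, y) := by
    refine (setIntegral_eq_integral_of_forall_compl_eq_zero fun u hu => ?_).symm
    have hu' : ¬ 0 < u := hu
    have : ∀ y : ℝ, F (u - β * y, y) = 0 := by
      intro y
      have e : u - β * y + β * y = u := by ring
      change wf β H σ t₀ R p (u - β * y) y * _ = 0
      rw [show wf β H σ t₀ R p (u - β * y) y = 0 from if_neg (by rw [e]; exact hu'), zero_mul]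
    simp [this]
  have h4 : ∫ u in Ioi (0 : ℝ), ∫ y : ℝ, F (u - β * y, y) = (H : ℂ) * ∫ x in Ioi (0 : ℝ), ∫ y : ℝ, F (H * x - β * y, y) := by
    have := integral_comp_mul_left_Ioi (fun u : ℝ => ∫ y : ℝ, F (u - β * y, y)) 0 hH
    rw [mul_zero] at this
    rw [this, Complex.real_smul, ← mul_assoc, Complex.ofReal_inv, mul_inv_cancel₀ (by exact_mod_cast hH.ne'), one_mul]
  rw [h1, h2, h3, h4]
  set ζ : ℝ := ξ.2 - β * ξ.1 with hζ
  have h5 : ∀ x ∈ Ioi (0 : ℝ), ∫ y : ℝ, F (H * x - β * y, y) =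
      ((H * σ : ℝ) : ℂ) * Jg p (2 * R * H * σ ^ 2) ((ζ / (2 * R) - t₀) / σ) (H * (ξ.1 + ζ ^ 2 / (4 * R))) x := by
    intro x hx
    have hx0 : 0 < x := hx
    have hux : 0 < H * x := by positivity
    have e1 : ∀ y : ℝ, F (H * x - β * y, y) = (((x ^ p * exp (-(p * x)) : ℝ) : ℂ) * ee (-(ξ.1 * (H * x)))) *
        (((exp (-(π * ((y / (H * x) - t₀) / σ) ^ 2)) : ℝ) : ℂ) * ee (R * (y ^ 2 / (H * x))) * ee (-(ζ * y))) := by
      intro y
      have e : H * x - β * y + β * y = H * x := by ring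
      change wf β H σ t₀ R p (H * x - β * y) y * ee (-(ξ.1 * (H * x - β * y) + ξ.2 * y)) = _
      unfold wf
      rw [if_pos (by rw [e]; exact hux), e]
      rw [show -(ξ.1 * (H * x - β * y) + ξ.2 * y) = -(ξ.1 * (H * x)) + -(ζ * y) by rw [hζ]; ring, ee_add]
      rw [show H * x / H = x by field_simp]
      push_cast
      ring
    simp only [e1]
    rw [integral_const_mul, gauss hσ hR hH hx0 rfl]
    unfold Jg
    rw [ee, ee]
    have e2 : Complex.exp (-(2 * π * Complex.I * ((H * (ξ.1 + ζ ^ 2 / (4 * R)) : ℝ) : ℂ) * x)) =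
        Complex.exp (((2 * π * (-(ξ.1 * (H * x))) : ℝ) : ℂ) * Complex.I) *
          Complex.exp (((2 * π * (-(H * (ζ ^ 2 / (4 * R)) * x)) : ℝ) : ℂ) * Complex.I) := by
      rw [← Complex.exp_add]
      congr 1
      push_cast
      ring
    rw [e2, pow_succ]
    push_cast
    ring
  rw [setIntegral_congr_fun measurableSet_Ioi h5, integral_const_mul]
  unfold Jf
  push_cast
  ring

end Pool.Agent.Helper92.GC
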